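import Mathlib

/-! Conjunctive languages and homomorphisms, part M1: this file joins several modules to save build time. -/

section S_Core

/-!
# MP_677abc: conjunctive languages, basic definitions

All languages are sets of lists.  `cat` is concatenation, `Ex` are the expressions of a system of
language equations, `Lfp` is the least solution, `IsConj` says that a language is conjunctive.
-/

set_option autoImplicit false

namespace Pool.Agent.H29.CJ

/-- Concatenation of languages. -/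
def cat {α : Type} (L M : Set (List α)) : Set (List α) := {w | ∃ u ∈ L, ∃ v ∈ M, w = u ++ v}

/-- Expressions over variables `ι`: empty set, empty word, letter, variable, concatenation,
intersection, union. -/
inductive Ex (α ι : Type) : Type
  | nil : Ex α ι
  | eps : Ex α ι
  | sym : α → Ex α ι
  | var : ι → Ex α ι
  | cat : Ex α ι → Ex α ι → Ex α ι
  | inter : Ex α ι → Ex α ι → Ex α ι
  | union : Ex α ι → Ex α ι → Ex α ι

/-- Value of an expression. -/
def Ex.ev {α ι : Type} (X : ι → Set (List α)) : Ex α ι → Set (List α)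
  | .nil => ∅
  | .eps => {[]}
  | .sym a => {[a]}
  | .var i => X i
  | .cat e f => CJ.cat (e.ev X) (f.ev X)
  | .inter e f => e.ev X ∩ f.ev X
  | .union e f => e.ev X ∪ f.ev X

/-- The least solution of the system `X i = Φ i X`. -/
def Lfp {α ι : Type} (Φ : ι → (ι → Set (List α)) → Set (List α)) (i : ι) : Set (List α) :=
  {w | ∀ X : ι → Set (List α), (∀ j, Φ j X ⊆ X j) → w ∈ X i}

/-- Conjunctive languages, by systems of language equations with finitely many unknowns. -/
def IsConj {α : Type} (L : Set (List α)) : Prop :=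
  ∃ (n : ℕ) (F : Fin n → Ex α (Fin n)) (i : Fin n), L = Lfp (fun j X => (F j).ev X) i

/-- Polynomial operators whose constants are conjunctive languages. -/
inductive Poly {α ι : Type} : ((ι → Set (List α)) → Set (List α)) → Prop
  | var (i : ι) : Poly (fun X => X i)
  | cst (L : Set (List α)) (h : IsConj L) : Poly (fun _ => L)
  | cat {Φ Ψ : (ι → Set (List α)) → Set (List α)} (h : Poly Φ) (h' : Poly Ψ) :
      Poly (fun X => CJ.cat (Φ X) (Ψ X))
  | inter {Φ Ψ : (ι → Set (List α)) → Set (List α)} (h : Poly Φ) (h' : Poly Ψ) :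
      Poly (fun X => Φ X ∩ Ψ X)
  | union {Φ Ψ : (ι → Set (List α)) → Set (List α)} (h : Poly Φ) (h' : Poly Ψ) :
      Poly (fun X => Φ X ∪ Ψ X)

/-- The one-letter words whose letter satisfies `P`. -/
def LC {α : Type} (P : α → Prop) : Set (List α) := {w | ∃ a, P a ∧ w = [a]}

/-- The words all of whose letters satisfy `P`. -/
def ST {α : Type} (P : α → Prop) : Set (List α) := {w | ∀ a ∈ w, P a}

/-- Weight of a word. -/
def wt {α : Type} (f : α → ℤ) (w : List α) : ℤ := (w.map f).sum

/-- The words of weight `k`. -/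
def WT {α : Type} (f : α → ℤ) (k : ℤ) : Set (List α) := {w | wt f w = k}

/-- Powers of a language. -/
def pw {α : Type} (L : Set (List α)) : ℕ → Set (List α)
  | 0 => {[]}
  | n + 1 => cat L (pw L n)

/-- `⋃ₖ Uᵏ Z Vᵏ`. -/
def Sync {α : Type} (U Z V : Set (List α)) : Set (List α) :=
  {w | ∃ k, w ∈ cat (pw U k) (cat Z (pw V k))}

/-- All prefixes whose last letter satisfies `P` belong to `L`. -/
def AllPre {α : Type} (P : α → Prop) (L : Set (List α)) : Set (List α) :=
  {w | ∀ p a q, w = p ++ a :: q → P a → p ++ [a] ∈ L}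

/-- All nonempty suffixes preceded only by letters satisfying `P` belong to `L`. -/
def AllSuf {α : Type} (P : α → Prop) (L : Set (List α)) : Set (List α) :=
  {w | ∀ p a q, w = p ++ a :: q → (∀ b ∈ p, P b) → a :: q ∈ L}

/-- A conjunctive grammar in binary normal form with `K` nonterminals. -/
structure Gr (α : Type) (K : ℕ) where
  base : Fin K → α → Prop
  rules : Fin K → List (List (Fin K × Fin K))
  ne : ∀ A, ∀ ρ ∈ rules A, ρ ≠ []

/-- The language of nonterminal `A`. -/
inductive Gr.D {α : Type} {K : ℕ} (G : Gr α K) : Fin K → List α → Prop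
  | base {A : Fin K} {a : α} (h : G.base A a) : G.D A [a]
  | rule {A : Fin K} {ρ : List (Fin K × Fin K)} {w : List α}
      (u v : Fin K × Fin K → List α) (h : ρ ∈ G.rules A) (hw : ∀ p ∈ ρ, w = u p ++ v p)
      (hu : ∀ p ∈ ρ, G.D p.1 (u p)) (hv : ∀ p ∈ ρ, G.D p.2 (v p)) : G.D A w

/-- A unary grammar in binary normal form, given by its truth table `T A m` (the word of length `m`
belongs to the language of `A`). -/
structure USys (K : ℕ) where
  base : Fin K → Prop
  rules : Fin K → List (List (Fin K × Fin K))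
  ne : ∀ A, ∀ ρ ∈ rules A, ρ ≠ []
  T : Fin K → ℕ → Prop
  T0 : ∀ A, ¬ T A 0
  Tiff : ∀ A m, T A m ↔ (m = 1 ∧ base A) ∨
    ∃ ρ ∈ rules A, ∀ p ∈ ρ, ∃ m₁ m₂, m₁ + m₂ = m ∧ T p.1 m₁ ∧ T p.2 m₂

/-- The conjunctive languages in the format of the frozen statement. -/
def Fro {m : ℕ} (L : Set (List (Fin m))) : Prop :=
  ∃ (p : ℕ) (S : Fin p) (R : List (Fin p × List (List (Symbol (Fin m) (Fin p))))),
    (∀ r ∈ R, r.2 ≠ []) ∧
    ∀ w : List (Fin m), w ∈ L ↔
      ∀ X : Fin p → Set (List (Fin m)),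
        (∀ r ∈ R, ∀ u : List (Fin m),
          (∀ α ∈ r.2, ∃ ws : List (List (Fin m)), u = ws.flatten ∧
            List.Forall₂ (fun (s : Symbol (Fin m) (Fin p)) (v : List (Fin m)) =>
              (∀ t, s = Symbol.terminal t → v = [t]) ∧
              (∀ B, s = Symbol.nonterminal B → v ∈ X B)) α ws) →
          u ∈ X r.1) →
        w ∈ X S

/-- The closure hypothesis refuted in the end: images of conjunctive languages under
nonerasing homomorphisms are conjunctive. -/
def Closed : Prop :=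
  ∀ (m k : ℕ) (h : Fin m → List (Fin k)), (∀ a, h a ≠ []) → ∀ L : Set (List (Fin m)),
    Fro L → Fro {w : List (Fin k) | ∃ x ∈ L, w = x.flatMap h}

/-! ### Segments of a fixed word -/

/-- The segment of `w` from position `i` to position `j`. -/
def seg {α : Type} (w : List α) (i j : ℕ) : List α := (w.take j).drop i

/-- The segment `[i, j)` of `w` belongs to `L`. -/
def At {α : Type} (w : List α) (L : Set (List α)) (i j : ℕ) : Prop :=
  i ≤ j ∧ j ≤ w.length ∧ seg w i j ∈ L

/-- Weight of the prefix of length `i`. -/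
def pre {α : Type} (f : α → ℤ) (w : List α) (i : ℕ) : ℤ := wt f (w.take i)

/-- Position `i` of `w` carries a letter satisfying `P`. -/
def Is {α : Type} (w : List α) (i : ℕ) (P : α → Prop) : Prop := ∃ a, w[i]? = some a ∧ P a

end Pool.Agent.H29.CJ

end S_Core

section S_LfpB

/-!
# Least solutions: basic facts
-/

set_option autoImplicit false

namespace Pool.Agent.H29.CJ

variable {α ι : Type}

theorem mem_cat {L M : Set (List α)} {w : List α} :
    w ∈ cat L M ↔ ∃ u ∈ L, ∃ v ∈ M, w = u ++ v := Iff.rfl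

theorem cat_mono {L L' M M' : Set (List α)} (h : L ⊆ L') (h' : M ⊆ M') : cat L M ⊆ cat L' M' := by
  rintro w ⟨u, hu, v, hv, rfl⟩
  exact ⟨u, h hu, v, h' hv, rfl⟩

theorem Poly.mono {Φ : (ι → Set (List α)) → Set (List α)} (h : Poly Φ)
    {X Y : ι → Set (List α)} (hXY : ∀ i, X i ⊆ Y i) : Φ X ⊆ Φ Y := by
  induction h with
  | var i => exact hXY i
  | cst L h => exact subset_rfl
  | cat h h' ih ih' => exact cat_mono ih ih'
  | inter h h' ih ih' => exact Set.inter_subset_inter ih ih'
  | union h h' ih ih' => exact Set.union_subset_union ih ih'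

theorem Lfp_least {Φ : ι → (ι → Set (List α)) → Set (List α)} {X : ι → Set (List α)}
    (h : ∀ j, Φ j X ⊆ X j) (i : ι) : Lfp Φ i ⊆ X i := fun _ hw => hw X h

theorem Lfp_closed {Φ : ι → (ι → Set (List α)) → Set (List α)}
    (hm : ∀ j (X Y : ι → Set (List α)), (∀ i, X i ⊆ Y i) → Φ j X ⊆ Φ j Y) (i : ι) :
    Φ i (Lfp Φ) ⊆ Lfp Φ i := fun _ hw X hX =>
  hX i (hm i (Lfp Φ) X (fun j => Lfp_least hX j) hw)

theorem Lfp_eq {Φ : ι → (ι → Set (List α)) → Set (List α)}
    (hm : ∀ j (X Y : ι → Set (List α)), (∀ i, X i ⊆ Y i) → Φ j X ⊆ Φ j Y) (i : ι) :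
    Lfp Φ i = Φ i (Lfp Φ) := by
  apply Set.Subset.antisymm
  · exact Lfp_least (X := fun j => Φ j (Lfp Φ)) (fun j => hm j _ _ (fun k => Lfp_closed hm k)) i
  · exact Lfp_closed hm i

theorem Poly.Lfp_closed {Φ : ι → (ι → Set (List α)) → Set (List α)} (h : ∀ i, Poly (Φ i)) (i : ι) :
    Φ i (Lfp Φ) ⊆ Lfp Φ i := CJ.Lfp_closed (fun j _ _ hXY => (h j).mono hXY) i

theorem Poly.Lfp_eq {Φ : ι → (ι → Set (List α)) → Set (List α)} (h : ∀ i, Poly (Φ i)) (i : ι) :
    Lfp Φ i = Φ i (Lfp Φ) := CJ.Lfp_eq (fun j _ _ hXY => (h j).mono hXY) i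

theorem Ex.ev_mono {X Y : ι → Set (List α)} (hXY : ∀ i, X i ⊆ Y i) (e : Ex α ι) :
    e.ev X ⊆ e.ev Y := by
  induction e with
  | nil => exact subset_rfl
  | eps => exact subset_rfl
  | sym a => exact subset_rfl
  | var i => exact hXY i
  | cat e f ih ih' => exact cat_mono ih ih'
  | inter e f ih ih' => exact Set.inter_subset_inter ih ih'
  | union e f ih ih' => exact Set.union_subset_union ih ih'

end Pool.Agent.H29.CJ

end S_LfpB

section S_PolyC

/-!
# Least solutions of polynomial systems with conjunctive constants are conjunctive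

Proof.  (1) `Poly.toEx`: for every `Poly Φ` (over `ι`) there are `n`, `F : Fin n → Ex α (Fin n)` and
`e : Ex α (ι ⊕ Fin n)` with `Φ X = e.ev (Sum.elim X (Lfp (fun j Y => (F j).ev Y)))` for all `X`.
Induction on `Poly`: `var i`: `n = 0`, `e = var (inl i)`.  `cst L h`: `h` gives `n, F, i`, take
`e = var (inr i)`.  `cat`, `inter`, `union`: from `(n₁, F₁, e₁)` and `(n₂, F₂, e₂)` take `n₁ + n₂`
(or first work with an arbitrary finite index type and `Sum`), the system being the disjoint union;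
the least solution of a disjoint union is componentwise the least solution of the parts: use
`Lfp_least`, `Lfp_closed` in both directions (for the part-to-whole direction extend a closed family
of the part by the least solution of the other part or by `univ`).
It is convenient to state everything for an arbitrary `Finite` index type `κ : Type` in place of
`Fin n` and to define `Ex.rename (g : κ → κ') : Ex α κ → Ex α κ'` with `(e.rename g).ev X = e.ev (X ∘ g)`;
at the very end transport along an equivalence `κ ≃ Fin n` (`isConj_of_finite`).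
(2) Main theorem.  For `Φ : ι → _` with `∀ i, Poly (Φ i)` choose `κ i, F i, e i` from (1).  The big
system has index type `ι ⊕ (Σ i, κ i)`, with `G (inl i) = (e i)` renamed by
`Sum.elim inl (fun k => inr ⟨i, k⟩)` and `G (inr ⟨i, k⟩) = (F i k)` renamed by `k ↦ inr ⟨i, k⟩`.
Its least solution is `Sum.elim (Lfp Φ) (fun ⟨i, k⟩ => Lfp (F i) k)`:
* `⊆`: this family is closed (by `Lfp_closed` for `Φ`, which is monotone by `Poly.mono`, and for `F i`).
* `⊇`: let `Y` be closed for `G`.  For each `i` the family `k ↦ Y (inr ⟨i, k⟩)` is closed for `F i`, so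
  `Lfp (F i) k ⊆ Y (inr ⟨i, k⟩)`.  Hence `Φ i (Y ∘ inl) = (e i).ev (Sum.elim (Y ∘ inl) (Lfp (F i)))
  ⊆ (e i).ev (Sum.elim (Y ∘ inl) (fun k => Y (inr ⟨i,k⟩))) ⊆ Y (inl i)` (monotonicity `Ex.ev_mono`), so
  `Y ∘ inl` is closed for `Φ` and `Lfp Φ i ⊆ Y (inl i)`.
-/

set_option autoImplicit false

namespace Pool.Agent.H29.CJ

variable {α ι : Type}

/-- Renaming of the variables of an expression. -/
def PolyC_ren {κ : Type} (g : ι → κ) : Ex α ι → Ex α κ
  | .nil => .nil
  | .eps => .eps
  | .sym a => .sym a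
  | .var i => .var (g i)
  | .cat e f => .cat (PolyC_ren g e) (PolyC_ren g f)
  | .inter e f => .inter (PolyC_ren g e) (PolyC_ren g f)
  | .union e f => .union (PolyC_ren g e) (PolyC_ren g f)

theorem PolyC_ren_ev {κ : Type} (g : ι → κ) (X : κ → Set (List α)) (e : Ex α ι) :
    (PolyC_ren g e).ev X = e.ev (fun i => X (g i)) := by
  induction e with
  | nil => rfl
  | eps => rfl
  | sym a => rfl
  | var i => rfl
  | cat e f ih ih' => simp only [PolyC_ren, Ex.ev, ih, ih']
  | inter e f ih ih' => simp only [PolyC_ren, Ex.ev, ih, ih']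
  | union e f ih ih' => simp only [PolyC_ren, Ex.ev, ih, ih']

/-- the operator family of a system -/
def PolyC_op {κ : Type} (F : κ → Ex α κ) : κ → (κ → Set (List α)) → Set (List α) :=
  fun j X => (F j).ev X

theorem PolyC_closed {κ : Type} (F : κ → Ex α κ) (i : κ) :
    PolyC_op F i (Lfp (PolyC_op F)) ⊆ Lfp (PolyC_op F) i :=
  CJ.Lfp_closed (fun j _ _ hXY => Ex.ev_mono hXY (F j)) i

/-- Any finite index type may be used in the definition of `IsConj`. -/
theorem isConj_of_finite [Finite ι] (F : ι → Ex α ι) (i : ι) :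
    IsConj (Lfp (fun j X => (F j).ev X) i) := by
  obtain ⟨n, ⟨σ⟩⟩ := Finite.exists_equiv_fin ι
  refine ⟨n, fun j => PolyC_ren σ (F (σ.symm j)), σ i, ?_⟩
  apply Set.Subset.antisymm
  · intro w hw X hX
    apply hw (fun k => X (σ k))
    intro j
    have h := hX (σ j)
    simp only [Equiv.symm_apply_apply, PolyC_ren_ev] at h
    exact h
  · intro w hw X hX
    have h := hw (fun k => X (σ.symm k)) (by
      intro j
      simp only [PolyC_ren_ev, Equiv.symm_apply_apply]
      exact hX (σ.symm j))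
    simp only [Equiv.symm_apply_apply] at h
    exact h

/-- the disjoint union of two systems -/
def PolyC_sum {κ₁ κ₂ : Type} (F₁ : κ₁ → Ex α κ₁) (F₂ : κ₂ → Ex α κ₂) :
    κ₁ ⊕ κ₂ → Ex α (κ₁ ⊕ κ₂) :=
  Sum.elim (fun j => PolyC_ren Sum.inl (F₁ j)) (fun j => PolyC_ren Sum.inr (F₂ j))

theorem PolyC_sum_Lfp {κ₁ κ₂ : Type} (F₁ : κ₁ → Ex α κ₁) (F₂ : κ₂ → Ex α κ₂) (x : κ₁ ⊕ κ₂) :
    Lfp (PolyC_op (PolyC_sum F₁ F₂)) x =
      Sum.elim (Lfp (PolyC_op F₁)) (Lfp (PolyC_op F₂)) x := by
  apply Set.Subset.antisymm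
  · apply Lfp_least
    rintro (j | j)
    · show (PolyC_ren Sum.inl (F₁ j)).ev _ ⊆ Lfp (PolyC_op F₁) j
      rw [PolyC_ren_ev]
      exact PolyC_closed F₁ j
    · show (PolyC_ren Sum.inr (F₂ j)).ev _ ⊆ Lfp (PolyC_op F₂) j
      rw [PolyC_ren_ev]
      exact PolyC_closed F₂ j
  · rcases x with i | i
    · intro w hw Y hY
      refine hw (fun k => Y (Sum.inl k)) (fun j => ?_)
      have h := hY (Sum.inl j)
      change (PolyC_ren Sum.inl (F₁ j)).ev Y ⊆ _ at h
      rw [PolyC_ren_ev] at h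
      exact h
    · intro w hw Y hY
      refine hw (fun k => Y (Sum.inr k)) (fun j => ?_)
      have h := hY (Sum.inr j)
      change (PolyC_ren Sum.inr (F₂ j)).ev Y ⊆ _ at h
      rw [PolyC_ren_ev] at h
      exact h

/-- two operators with a common system of constants -/
theorem PolyC_join {Φ Ψ : (ι → Set (List α)) → Set (List α)}
    (h : ∃ (κ : Type) (_ : Finite κ) (F : κ → Ex α κ) (e : Ex α (ι ⊕ κ)),
      ∀ X, Φ X = e.ev (Sum.elim X (Lfp (PolyC_op F))))
    (h' : ∃ (κ : Type) (_ : Finite κ) (F : κ → Ex α κ) (e : Ex α (ι ⊕ κ)),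
      ∀ X, Ψ X = e.ev (Sum.elim X (Lfp (PolyC_op F)))) :
    ∃ (κ : Type) (_ : Finite κ) (F : κ → Ex α κ) (e e' : Ex α (ι ⊕ κ)),
      ∀ X, Φ X = e.ev (Sum.elim X (Lfp (PolyC_op F))) ∧
        Ψ X = e'.ev (Sum.elim X (Lfp (PolyC_op F))) := by
  obtain ⟨κ₁, h₁, F₁, e₁, H₁⟩ := h
  obtain ⟨κ₂, h₂, F₂, e₂, H₂⟩ := h'
  refine ⟨κ₁ ⊕ κ₂, inferInstance, PolyC_sum F₁ F₂, PolyC_ren (Sum.map id Sum.inl) e₁,
    PolyC_ren (Sum.map id Sum.inr) e₂, fun X => ⟨?_, ?_⟩⟩
  · rw [PolyC_ren_ev, H₁ X]
    congr 1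
    funext i
    rcases i with i | i
    · rfl
    · exact (PolyC_sum_Lfp F₁ F₂ (Sum.inl i)).symm
  · rw [PolyC_ren_ev, H₂ X]
    congr 1
    funext i
    rcases i with i | i
    · rfl
    · exact (PolyC_sum_Lfp F₁ F₂ (Sum.inr i)).symm

theorem PolyC_toEx {Φ : (ι → Set (List α)) → Set (List α)} (h : Poly Φ) :
    ∃ (κ : Type) (_ : Finite κ) (F : κ → Ex α κ) (e : Ex α (ι ⊕ κ)),
      ∀ X, Φ X = e.ev (Sum.elim X (Lfp (PolyC_op F))) := by
  induction h with
  | var i => exact ⟨Empty, inferInstance, fun x => x.elim, .var (Sum.inl i), fun X => rfl⟩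
  | cst L h =>
    obtain ⟨n, F, i, hL⟩ := h
    exact ⟨Fin n, inferInstance, F, .var (Sum.inr i), fun X => hL⟩
  | cat h h' ih ih' =>
    obtain ⟨κ, hκ, F, e, e', H⟩ := PolyC_join ih ih'
    exact ⟨κ, hκ, F, .cat e e', fun X => by simp only [Ex.ev, ← (H X).1, ← (H X).2]⟩
  | inter h h' ih ih' =>
    obtain ⟨κ, hκ, F, e, e', H⟩ := PolyC_join ih ih'
    exact ⟨κ, hκ, F, .inter e e', fun X => by simp only [Ex.ev, ← (H X).1, ← (H X).2]⟩
  | union h h' ih ih' =>
    obtain ⟨κ, hκ, F, e, e', H⟩ := PolyC_join ih ih'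
    exact ⟨κ, hκ, F, .union e e', fun X => by simp only [Ex.ev, ← (H X).1, ← (H X).2]⟩

/-- Least solutions of polynomial systems with conjunctive constants are conjunctive. -/
theorem isConj_Lfp [Finite ι] {Φ : ι → (ι → Set (List α)) → Set (List α)}
    (h : ∀ i, Poly (Φ i)) (i : ι) : IsConj (Lfp Φ i) := by
  choose κ hκ F e he using fun i => PolyC_toEx (h i)
  have : ∀ i, Finite (κ i) := hκ
  let G : (ι ⊕ (Σ i, κ i)) → Ex α (ι ⊕ (Σ i, κ i)) :=
    Sum.elim (fun i => PolyC_ren (Sum.elim Sum.inl (fun k => Sum.inr ⟨i, k⟩)) (e i))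
      (fun p => PolyC_ren (fun k => Sum.inr ⟨p.1, k⟩) (F p.1 p.2))
  have hG : Lfp (PolyC_op G) (Sum.inl i) = Lfp Φ i := by
    apply Set.Subset.antisymm
    · refine Lfp_least (X := Sum.elim (Lfp Φ) (fun p => Lfp (PolyC_op (F p.1)) p.2)) ?_ (Sum.inl i)
      rintro (j | j)
      · show (PolyC_ren (Sum.elim Sum.inl (fun k => Sum.inr ⟨j, k⟩) : ι ⊕ κ j → ι ⊕ (Σ i, κ i))
          (e j)).ev _ ⊆ Lfp Φ j
        rw [PolyC_ren_ev]
        have h1 : (fun x : ι ⊕ κ j => (Sum.elim (Lfp Φ) (fun p : (Σ i, κ i) =>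
            Lfp (PolyC_op (F p.1)) p.2)) (Sum.elim Sum.inl (fun k => Sum.inr ⟨j, k⟩) x)) =
            Sum.elim (Lfp Φ) (Lfp (PolyC_op (F j))) := by
          funext x
          rcases x with x | x
          · rfl
          · rfl
        rw [h1, ← he j]
        exact Poly.Lfp_closed h j
      · show (PolyC_ren (fun k => Sum.inr ⟨j.1, k⟩ : κ j.1 → ι ⊕ (Σ i, κ i))
          (F j.1 j.2)).ev _ ⊆ Lfp (PolyC_op (F j.1)) j.2
        rw [PolyC_ren_ev]
        exact PolyC_closed (F j.1) j.2
    · intro w hw Y hY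
      refine hw (fun j => Y (Sum.inl j)) (fun j => ?_)
      have h1 : ∀ k : κ j, Lfp (PolyC_op (F j)) k ⊆ Y (Sum.inr ⟨j, k⟩) := by
        intro k
        refine Lfp_least (X := fun k => Y (Sum.inr ⟨j, k⟩)) ?_ k
        intro l
        have h2 := hY (Sum.inr ⟨j, l⟩)
        change (PolyC_ren (fun k => Sum.inr ⟨j, k⟩) (F j l)).ev Y ⊆ _ at h2
        rw [PolyC_ren_ev] at h2
        exact h2
      have h3 := hY (Sum.inl j)
      change (PolyC_ren (Sum.elim Sum.inl (fun k => Sum.inr ⟨j, k⟩)) (e j)).ev Y ⊆ _ at h3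
      rw [PolyC_ren_ev] at h3
      rw [he j]
      refine Set.Subset.trans (Ex.ev_mono ?_ (e j)) h3
      rintro (x | x)
      · exact subset_rfl
      · exact h1 x
  have h4 := isConj_of_finite G (Sum.inl i)
  change IsConj (Lfp (PolyC_op G) (Sum.inl i)) at h4
  rw [hG] at h4
  exact h4

end Pool.Agent.H29.CJ

end S_PolyC

section S_Clo

/-!
# Closure properties of the conjunctive languages, first part

Use only the STATEMENTS of the imported `PolyC`.

`isConj_of_poly0`: apply `isConj_Lfp` with `ι := Unit` and the operator; if an operator `Φ` is constant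
(`Φ X = L` for all `X`), then `Lfp (fun _ => Φ) () = L` (`Poly.Lfp_eq`).  So `cat`, `inter`, `union` of
conjunctive languages are conjunctive.  `∅`, `{[]}`, `{[a]}`: one equation `X = nil`, `X = eps`,
`X = sym a` directly from the definition of `IsConj` (`n = 1`).  Finite unions by induction on the list,
`LC P` is the finite union of the `{[a]}`; `ST P` is the least solution of `X = {[]} ∪ (LC P) X`.

`isConj_of_sys`: the guarded principle.  `Lfp Φ i ⊆ X i` by `hc` and `Lfp_least`; `X i ⊆ Lfp Φ i` by strong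
induction on (length of `w`, `μ i`) lexicographically: by `hm` `w ∈ Φ i (restricted X)`, the restricted
family is contained in `Lfp Φ` by induction, so `w ∈ Φ i (Lfp Φ) = Lfp Φ i` by monotonicity.
-/

set_option autoImplicit false

namespace Pool.Agent.H29.CJ

variable {α ι β : Type}

theorem Clo_const {Φ : (Unit → Set (List α)) → Set (List α)} (h : Poly Φ) {L : Set (List α)}
    (hL : ∀ X, Φ X = L) : IsConj L := by
  have h1 := isConj_Lfp (ι := Unit) (Φ := fun _ => Φ) (fun _ => h) ()
  have h2 : Lfp (fun _ : Unit => Φ) () = Φ (Lfp (fun _ : Unit => Φ)) :=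
    Poly.Lfp_eq (Φ := fun _ : Unit => Φ) (fun _ => h) ()
  rw [h2, hL] at h1
  exact h1

theorem Clo_one (e : Ex α (Fin 1)) {L : Set (List α)} (he : ∀ X, e.ev X = L) : IsConj L := by
  refine ⟨1, fun _ => e, 0, ?_⟩
  have h : Lfp (fun (_ : Fin 1) X => e.ev X) 0 = e.ev (Lfp (fun (_ : Fin 1) X => e.ev X)) :=
    Lfp_eq (Φ := fun (_ : Fin 1) X => e.ev X) (fun _ _ _ hXY => Ex.ev_mono hXY e) 0
  rw [h, he]

theorem IsConj.cat {L M : Set (List α)} (h : IsConj L) (h' : IsConj M) : IsConj (cat L M) :=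
  Clo_const (Poly.cat (Poly.cst L h) (Poly.cst M h')) fun _ => rfl

theorem IsConj.inter {L M : Set (List α)} (h : IsConj L) (h' : IsConj M) : IsConj (L ∩ M) :=
  Clo_const (Poly.inter (Poly.cst L h) (Poly.cst M h')) fun _ => rfl

theorem IsConj.union {L M : Set (List α)} (h : IsConj L) (h' : IsConj M) : IsConj (L ∪ M) :=
  Clo_const (Poly.union (Poly.cst L h) (Poly.cst M h')) fun _ => rfl

theorem isConj_empty : IsConj (∅ : Set (List α)) := Clo_one .nil fun _ => rfl

theorem isConj_eps : IsConj ({[]} : Set (List α)) := Clo_one .eps fun _ => rfl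

theorem isConj_sym (a : α) : IsConj ({[a]} : Set (List α)) := Clo_one (.sym a) fun _ => rfl

theorem IsConj.exL (l : List β) {L : β → Set (List α)} (h : ∀ b ∈ l, IsConj (L b)) :
    IsConj {w | ∃ b ∈ l, w ∈ L b} := by
  induction l with
  | nil =>
    have e : {w : List α | ∃ b ∈ ([] : List β), w ∈ L b} = ∅ := by
      ext w
      simp
    rw [e]
    exact isConj_empty
  | cons b0 l ih =>
    have e : {w : List α | ∃ b ∈ b0 :: l, w ∈ L b} = L b0 ∪ {w | ∃ b ∈ l, w ∈ L b} := by
      ext w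
      simp
    rw [e]
    exact (h b0 List.mem_cons_self).union (ih fun b hb => h b (List.mem_cons_of_mem _ hb))

theorem isConj_LC [Finite α] (P : α → Prop) : IsConj (LC P) := by
  classical
  obtain ⟨l, -, hl⟩ := Finite.exists_univ_list α
  have e : LC P = {w | ∃ b ∈ l.filter (fun a => decide (P a)), w ∈ ({[b]} : Set (List α))} := by
    ext w
    simp only [LC, Set.mem_ofPred_eq, List.mem_filter, decide_eq_true_eq, Set.mem_singleton_iff]
    constructor
    · rintro ⟨a, ha, rfl⟩
      exact ⟨a, ⟨hl a, ha⟩, rfl⟩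
    · rintro ⟨a, ⟨-, ha⟩, rfl⟩
      exact ⟨a, ha, rfl⟩
  rw [e]
  exact IsConj.exL _ fun b _ => isConj_sym b

theorem isConj_ST [Finite α] (P : α → Prop) : IsConj (ST P) := by
  have hP : ∀ _ : Unit, Poly (fun X : Unit → Set (List α) => {[]} ∪ CJ.cat (LC P) (X ())) := fun _ =>
    Poly.union (Poly.cst _ isConj_eps) (Poly.cat (Poly.cst _ (isConj_LC P)) (Poly.var ()))
  have h1 := isConj_Lfp hP ()
  have e : Lfp (fun (_ : Unit) X => {[]} ∪ CJ.cat (LC P) (X ())) () = ST P := by
    apply Set.Subset.antisymm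
    · refine Lfp_least (X := fun _ => ST P) ?_ ()
      intro _ w hw
      rcases hw with hw | ⟨u, ⟨a, ha, rfl⟩, v, hv, rfl⟩
      · rw [Set.mem_singleton_iff] at hw
        rw [hw]
        intro a ha
        simp at ha
      · intro b hb
        rcases List.mem_append.1 hb with hb | hb
        · rw [List.mem_singleton] at hb
          rw [hb]
          exact ha
        · exact hv b hb
    · intro w
      induction w with
      | nil =>
        intro _ X hX
        exact hX () (Or.inl rfl)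
      | cons a w ih =>
        intro hw X hX
        refine hX () (Or.inr ⟨[a], ⟨a, hw a List.mem_cons_self, rfl⟩, w, ?_, rfl⟩)
        exact ih (fun b hb => hw b (List.mem_cons_of_mem _ hb)) X hX
  rw [e] at h1
  exact h1

theorem isConj_univ [Finite α] : IsConj (Set.univ : Set (List α)) := by
  have e : (Set.univ : Set (List α)) = ST (fun _ => True) := by
    ext w
    simp [ST]
  rw [e]
  exact isConj_ST _

theorem IsConj.allL [Finite α] (l : List β) {L : β → Set (List α)} (h : ∀ b ∈ l, IsConj (L b)) :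
    IsConj {w | ∀ b ∈ l, w ∈ L b} := by
  induction l with
  | nil =>
    have e : {w : List α | ∀ b ∈ ([] : List β), w ∈ L b} = Set.univ := by
      ext w
      simp
    rw [e]
    exact isConj_univ
  | cons b0 l ih =>
    have e : {w : List α | ∀ b ∈ b0 :: l, w ∈ L b} = L b0 ∩ {w | ∀ b ∈ l, w ∈ L b} := by
      ext w
      simp
    rw [e]
    exact (h b0 List.mem_cons_self).inter (ih fun b hb => h b (List.mem_cons_of_mem _ hb))

theorem IsConj.exF [Finite β] {L : β → Set (List α)} (h : ∀ b, IsConj (L b)) :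
    IsConj {w | ∃ b, w ∈ L b} := by
  obtain ⟨l, -, hl⟩ := Finite.exists_univ_list β
  have e : {w : List α | ∃ b, w ∈ L b} = {w | ∃ b ∈ l, w ∈ L b} := by
    ext w
    simp [hl]
  rw [e]
  exact IsConj.exL l fun b _ => h b

theorem IsConj.allF [Finite α] [Finite β] {L : β → Set (List α)} (h : ∀ b, IsConj (L b)) :
    IsConj {w | ∀ b, w ∈ L b} := by
  obtain ⟨l, -, hl⟩ := Finite.exists_univ_list β
  have e : {w : List α | ∀ b, w ∈ L b} = {w | ∀ b ∈ l, w ∈ L b} := by
    ext w
    simp [hl]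
  rw [e]
  exact IsConj.allL l fun b _ => h b

/-- A language that is a constant or empty according to a proposition. -/
theorem IsConj.iteP {L : Set (List α)} (h : IsConj L) (p : Prop) : IsConj {w | p ∧ w ∈ L} := by
  by_cases hp : p
  · have e : {w | p ∧ w ∈ L} = L := by
      ext w
      simp [hp]
    rw [e]
    exact h
  · have e : {w | p ∧ w ∈ L} = ∅ := by
      ext w
      simp [hp]
    rw [e]
    exact isConj_empty

theorem Poly.exL (l : List β) {Φ : β → (ι → Set (List α)) → Set (List α)}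
    (h : ∀ b ∈ l, Poly (Φ b)) : Poly (fun X => {w | ∃ b ∈ l, w ∈ Φ b X}) := by
  induction l with
  | nil =>
    have e : (fun X : ι → Set (List α) => {w : List α | ∃ b ∈ ([] : List β), w ∈ Φ b X}) = fun _ => ∅ := by
      funext X
      ext w
      simp
    rw [e]
    exact Poly.cst _ isConj_empty
  | cons b0 l ih =>
    have e : (fun X : ι → Set (List α) => {w : List α | ∃ b ∈ b0 :: l, w ∈ Φ b X}) =
        fun X => Φ b0 X ∪ {w | ∃ b ∈ l, w ∈ Φ b X} := by
      funext X
      ext w
      simp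
    rw [e]
    exact Poly.union (h b0 List.mem_cons_self) (ih fun b hb => h b (List.mem_cons_of_mem _ hb))

theorem Poly.allL [Finite α] (l : List β) {Φ : β → (ι → Set (List α)) → Set (List α)}
    (h : ∀ b ∈ l, Poly (Φ b)) : Poly (fun X => {w | ∀ b ∈ l, w ∈ Φ b X}) := by
  induction l with
  | nil =>
    have e : (fun X : ι → Set (List α) => {w : List α | ∀ b ∈ ([] : List β), w ∈ Φ b X}) =
        fun _ => Set.univ := by
      funext X
      ext w
      simp
    rw [e]
    exact Poly.cst _ isConj_univ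
  | cons b0 l ih =>
    have e : (fun X : ι → Set (List α) => {w : List α | ∀ b ∈ b0 :: l, w ∈ Φ b X}) =
        fun X => Φ b0 X ∩ {w | ∀ b ∈ l, w ∈ Φ b X} := by
      funext X
      ext w
      simp
    rw [e]
    exact Poly.inter (h b0 List.mem_cons_self) (ih fun b hb => h b (List.mem_cons_of_mem _ hb))

theorem Poly.exF [Finite β] {Φ : β → (ι → Set (List α)) → Set (List α)}
    (h : ∀ b, Poly (Φ b)) : Poly (fun X => {w | ∃ b, w ∈ Φ b X}) := by
  obtain ⟨l, -, hl⟩ := Finite.exists_univ_list β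
  have e : (fun X : ι → Set (List α) => {w : List α | ∃ b, w ∈ Φ b X}) =
      fun X => {w | ∃ b ∈ l, w ∈ Φ b X} := by
    funext X
    ext w
    simp [hl]
  rw [e]
  exact Poly.exL l fun b _ => h b

/-- Conditional constants: `{w | p ∧ w ∈ Φ X}`. -/
theorem Poly.iteP {Φ : (ι → Set (List α)) → Set (List α)} (h : Poly Φ) (p : Prop) :
    Poly (fun X => {w | p ∧ w ∈ Φ X}) := by
  by_cases hp : p
  · have e : (fun X : ι → Set (List α) => {w | p ∧ w ∈ Φ X}) = Φ := by
      funext X
      ext w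
      simp [hp]
    rw [e]
    exact h
  · have e : (fun X : ι → Set (List α) => {w | p ∧ w ∈ Φ X}) = fun _ => ∅ := by
      funext X
      ext w
      simp [hp]
    rw [e]
    exact Poly.cst _ isConj_empty

/-- The guarded principle: a family `X` solving a polynomial system in a guarded way is
conjunctive. -/
theorem isConj_of_sys [Finite ι] {Φ : ι → (ι → Set (List α)) → Set (List α)}
    (hΦ : ∀ i, Poly (Φ i)) (X : ι → Set (List α)) (μ : ι → ℕ) (hc : ∀ i, Φ i X ⊆ X i)
    (hm : ∀ i, ∀ w ∈ X i, w ∈ Φ i (fun j =>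
      {u | u ∈ X j ∧ (u.length < w.length ∨ (u.length = w.length ∧ μ j < μ i))})) :
    ∀ i, IsConj (X i) := by
  have key : ∀ n : ℕ, ∀ m : ℕ, ∀ i, μ i = m → ∀ w ∈ X i, w.length = n → w ∈ Lfp Φ i := by
    intro n
    induction n using Nat.strong_induction_on with
    | _ n ihn =>
      intro m
      induction m using Nat.strong_induction_on with
      | _ m ihm =>
        intro i hi w hw hwn
        refine Poly.Lfp_closed hΦ i ?_
        refine (hΦ i).mono ?_ (hm i w hw)
        rintro j u ⟨hu, h | ⟨h, h'⟩⟩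
        · exact ihn u.length (by omega) (μ j) j rfl u hu rfl
        · exact ihm (μ j) (by omega) j rfl u hu (by omega)
  intro i
  have e : Lfp Φ i = X i :=
    Set.Subset.antisymm (Lfp_least hc i) fun w hw => key _ _ i rfl w hw rfl
  have h1 := isConj_Lfp hΦ i
  rw [e] at h1
  exact h1

end Pool.Agent.H29.CJ

end S_Clo

section S_Clo2

/-!
# Closure properties of the conjunctive languages, second part

Use only the STATEMENTS of the imported files.

* `IsConj.star`-free part.  `Sync U Z V` is the least solution of `X = Z ∪ U X V`: it is closed, and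
  `pw U k · Z · pw V k ⊆ Lfp` by induction on `k` (`pw V (k+1) = cat (pw V k) V`, an easy induction), so
  `Sync U Z V = Lfp` and `isConj_Lfp` applies.  (No guardedness is needed.)
* `AllPre P L` is the solution of `X = {[]} ∪ X (LC ¬P) ∪ (X (LC P) ∩ L)`: use `isConj_of_sys` with
  `ι = Unit`, `μ = 0`; a nonempty word is `u ++ [a]` (`List.eq_nil_or_concat`), and
  `u ++ [a] ∈ AllPre P L ↔ u ∈ AllPre P L ∧ (P a → u ++ [a] ∈ L)`.
* `AllSuf P L` is the solution of `X = {[]} ∪ (L ∩ ((LC ¬P) univ ∪ (LC P) X))`: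
  `a :: q ∈ AllSuf P L ↔ a :: q ∈ L ∧ (P a → q ∈ AllSuf P L)`.
* Star: `{w | ∃ n, w ∈ pw L n}` is the least solution of `X = {[]} ∪ L X`.
* Preimage under a letter map `f : α → β`, `α` finite: from `IsConj L`, `L = Lfp (F ·.ev) i` with
  `F : Fin n → Ex β (Fin n)`.  Claim: `{w | w.map f ∈ L}` is the least solution of the system
  `Φ j X = ev' (F j) X`, where `ev'` is the value with `sym b` replaced by `LC (fun a => f a = b)`; every
  `ev' e` is `Poly` (induction on `e`, constants by `isConj_LC`).  Write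
  `Y j = {w | w.map f ∈ Lfp j}`.  (a) `ev' e Y ⊆ {w | w.map f ∈ e.ev Lfp}` by induction on `e` (`List.map_append`),
  so `Y` is closed and `Lfp Φ ≤ Y`.  (b) For closed `X`: `Z j = {v | ∀ w, w.map f = v → w ∈ X j}` satisfies
  `e.ev Z ⊆ {v | ∀ w, w.map f = v → w ∈ ev' e X}` (for `cat`: `w.map f = u ++ v` splits `w`,
  `List.map_eq_append_iff`), so `Z` is closed for `F` and `Lfp j ⊆ Z j`, that is `Y j ⊆ X j`.
-/

set_option autoImplicit false

namespace Pool.Agent.H29.CJ

variable {α β : Type}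

theorem Clo2_cat_assoc (L M N : Set (List α)) : cat (cat L M) N = cat L (cat M N) := by
  ext w
  constructor
  · rintro ⟨_, ⟨u, hu, v, hv, rfl⟩, x, hx, rfl⟩
    exact ⟨u, hu, v ++ x, ⟨v, hv, x, hx, rfl⟩, by rw [List.append_assoc]⟩
  · rintro ⟨u, hu, _, ⟨v, hv, x, hx, rfl⟩, rfl⟩
    exact ⟨u ++ v, ⟨u, hu, v, hv, rfl⟩, x, hx, by rw [List.append_assoc]⟩

theorem Clo2_cat_one (L : Set (List α)) : cat L {[]} = L := by
  ext w
  constructor
  · rintro ⟨u, hu, v, hv, rfl⟩
    rw [Set.mem_singleton_iff] at hv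
    subst hv
    rwa [List.append_nil]
  · intro hw
    exact ⟨w, hw, [], rfl, by rw [List.append_nil]⟩

theorem Clo2_one_cat (L : Set (List α)) : cat {[]} L = L := by
  ext w
  constructor
  · rintro ⟨u, hu, v, hv, rfl⟩
    rw [Set.mem_singleton_iff] at hu
    subst hu
    rwa [List.nil_append]
  · intro hw
    exact ⟨[], rfl, w, hw, by rw [List.nil_append]⟩

theorem Clo2_pw_succ (L : Set (List α)) (n : ℕ) : pw L (n + 1) = cat (pw L n) L := by
  induction n with
  | zero =>
    change cat L {[]} = cat {[]} L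
    rw [Clo2_cat_one, Clo2_one_cat]
  | succ n ih =>
    change cat L (pw L (n + 1)) = cat (cat L (pw L n)) L
    rw [ih, Clo2_cat_assoc]

theorem IsConj.sync {U Z V : Set (List α)} (hU : IsConj U) (hZ : IsConj Z) (hV : IsConj V) :
    IsConj (Sync U Z V) := by
  have hP : ∀ i : Unit, Poly ((fun (_ : Unit) (X : Unit → Set (List α)) =>
      Z ∪ CJ.cat U (CJ.cat (X ()) V)) i) := fun _ =>
    Poly.union (Poly.cst Z hZ) (Poly.cat (Poly.cst U hU) (Poly.cat (Poly.var ()) (Poly.cst V hV)))
  have h := isConj_Lfp hP ()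
  have hcl := Poly.Lfp_closed hP ()
  have he : Sync U Z V = Lfp (fun (_ : Unit) (X : Unit → Set (List α)) =>
      Z ∪ CJ.cat U (CJ.cat (X ()) V)) () := by
    apply Set.Subset.antisymm
    · have key : ∀ k : ℕ, CJ.cat (pw U k) (CJ.cat Z (pw V k)) ⊆
          Lfp (fun (_ : Unit) (X : Unit → Set (List α)) =>
            Z ∪ CJ.cat U (CJ.cat (X ()) V)) () := by
        intro k
        induction k with
        | zero =>
          change CJ.cat {[]} (CJ.cat Z {[]}) ⊆ _
          rw [Clo2_cat_one, Clo2_one_cat]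
          exact fun w hw => hcl (Or.inl hw)
        | succ k ih =>
          rw [Clo2_pw_succ V k]
          change CJ.cat (CJ.cat U (pw U k)) _ ⊆ _
          rw [Clo2_cat_assoc, ← Clo2_cat_assoc Z, ← Clo2_cat_assoc (pw U k)]
          exact fun w hw => hcl (Or.inr (cat_mono subset_rfl (cat_mono ih subset_rfl) hw))
      rintro w ⟨k, hw⟩
      exact key k hw
    · refine Lfp_least (X := fun _ => Sync U Z V) (fun _ w hw => ?_) ()
      rcases hw with hw | ⟨u, hu, _, ⟨x, ⟨k, a, ha, _, ⟨z, hz, b, hb, rfl⟩, rfl⟩, v, hv, rfl⟩, rfl⟩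
      · exact ⟨0, [], rfl, w, ⟨w, hw, [], rfl, by rw [List.append_nil]⟩, by rw [List.nil_append]⟩
      · refine ⟨k + 1, u ++ a, ⟨u, hu, a, ha, rfl⟩, z ++ (b ++ v), ⟨z, hz, b ++ v, ?_, rfl⟩, ?_⟩
        · rw [Clo2_pw_succ]
          exact ⟨b, hb, v, hv, rfl⟩
        · simp only [List.append_assoc]
  rw [he]
  exact h

theorem Clo2_pre {P : α → Prop} {L : Set (List α)} (u : List α) (a : α) :
    u ++ [a] ∈ AllPre P L ↔ u ∈ AllPre P L ∧ (P a → u ++ [a] ∈ L) := by
  constructor
  · intro h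
    refine ⟨fun p b q hw hb => ?_, fun ha => h u a [] rfl ha⟩
    refine h p b (q ++ [a]) ?_ hb
    rw [hw]
    simp
  · rintro ⟨h1, h2⟩ p b q hw hb
    rcases List.eq_nil_or_concat q with rfl | ⟨q', c, rfl⟩
    · obtain ⟨rfl, h3⟩ := List.append_inj' hw rfl
      have h4 : a = b := List.singleton_inj.1 h3
      subst h4
      exact h2 hb
    · have h3 : u ++ [a] = (p ++ b :: q') ++ [c] := by
        rw [hw]
        simp
      obtain ⟨rfl, -⟩ := List.append_inj' h3 rfl
      exact h1 p b q' rfl hb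

theorem IsConj.allPre [Finite α] (P : α → Prop) {L : Set (List α)} (h : IsConj L) :
    IsConj (AllPre P L) := by
  have hP : ∀ i : Unit, Poly ((fun (_ : Unit) (X : Unit → Set (List α)) =>
      {[]} ∪ (CJ.cat (X ()) (LC fun a => ¬ P a) ∪ (CJ.cat (X ()) (LC P) ∩ L))) i) := fun _ =>
    Poly.union (Poly.cst _ isConj_eps) (Poly.union
      (Poly.cat (Poly.var ()) (Poly.cst _ (isConj_LC _)))
      (Poly.inter (Poly.cat (Poly.var ()) (Poly.cst _ (isConj_LC _))) (Poly.cst _ h)))
  refine isConj_of_sys hP (fun _ => AllPre P L) (fun _ => 0) (fun _ w hw => ?_)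
    (fun _ w hw => ?_) ()
  · rcases hw with hw | ⟨u, hu, _, ⟨a, ha, rfl⟩, rfl⟩ | ⟨⟨u, hu, _, ⟨a, ha, rfl⟩, rfl⟩, hL⟩
    · rw [Set.mem_singleton_iff] at hw
      subst hw
      intro p a q hw
      simp at hw
    · exact (Clo2_pre u a).2 ⟨hu, fun h => absurd h ha⟩
    · exact (Clo2_pre u a).2 ⟨hu, fun _ => hL⟩
  · rcases List.eq_nil_or_concat w with rfl | ⟨u, a, rfl⟩
    · exact Or.inl rfl
    · rw [List.concat_eq_append] at hw ⊢
      obtain ⟨h1, h2⟩ := (Clo2_pre u a).1 hw
      have h3 : u.length < (u ++ [a]).length := by simp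
      right
      by_cases ha : P a
      · exact Or.inr ⟨⟨u, ⟨h1, Or.inl h3⟩, [a], ⟨a, ha, rfl⟩, rfl⟩, h2 ha⟩
      · exact Or.inl ⟨u, ⟨h1, Or.inl h3⟩, [a], ⟨a, ha, rfl⟩, rfl⟩

theorem Clo2_suf {P : α → Prop} {L : Set (List α)} (a : α) (q : List α) :
    a :: q ∈ AllSuf P L ↔ a :: q ∈ L ∧ (P a → q ∈ AllSuf P L) := by
  constructor
  · intro h
    refine ⟨h [] a q rfl (by simp), fun ha p b r hq hp => ?_⟩
    refine h (a :: p) b r (by rw [hq]; rfl) fun c hc => ?_
    rcases List.mem_cons.1 hc with rfl | hc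
    · exact ha
    · exact hp c hc
  · rintro ⟨h1, h2⟩ p b r hw hp
    rcases p with _ | ⟨c, p⟩
    · rw [List.nil_append] at hw
      rw [← hw]
      exact h1
    · rw [List.cons_append] at hw
      obtain ⟨rfl, rfl⟩ := List.cons.inj hw
      exact h2 (hp a (by simp)) p b r rfl fun d hd => hp d (by simp [hd])

theorem IsConj.allSuf [Finite α] (P : α → Prop) {L : Set (List α)} (h : IsConj L) :
    IsConj (AllSuf P L) := by
  have hP : ∀ i : Unit, Poly ((fun (_ : Unit) (X : Unit → Set (List α)) =>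
      {[]} ∪ (L ∩ (CJ.cat (LC fun a => ¬ P a) Set.univ ∪ CJ.cat (LC P) (X ())))) i) := fun _ =>
    Poly.union (Poly.cst _ isConj_eps) (Poly.inter (Poly.cst _ h) (Poly.union
      (Poly.cat (Poly.cst _ (isConj_LC _)) (Poly.cst _ isConj_univ))
      (Poly.cat (Poly.cst _ (isConj_LC _)) (Poly.var ()))))
  refine isConj_of_sys hP (fun _ => AllSuf P L) (fun _ => 0) (fun _ w hw => ?_)
    (fun _ w hw => ?_) ()
  · rcases hw with hw | ⟨hL, ⟨_, ⟨a, ha, rfl⟩, q, -, rfl⟩ | ⟨_, ⟨a, ha, rfl⟩, q, hq, rfl⟩⟩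
    · rw [Set.mem_singleton_iff] at hw
      subst hw
      intro p a q hw
      simp at hw
    · exact (Clo2_suf a q).2 ⟨hL, fun h => absurd h ha⟩
    · exact (Clo2_suf a q).2 ⟨hL, fun _ => hq⟩
  · rcases w with _ | ⟨a, q⟩
    · exact Or.inl rfl
    · obtain ⟨h1, h2⟩ := (Clo2_suf a q).1 hw
      right
      refine ⟨h1, ?_⟩
      by_cases ha : P a
      · exact Or.inr ⟨[a], ⟨a, ha, rfl⟩, q, ⟨h2 ha, Or.inl (by simp)⟩, rfl⟩
      · exact Or.inl ⟨[a], ⟨a, ha, rfl⟩, q, Set.mem_univ _, rfl⟩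

theorem IsConj.star {L : Set (List α)} (h : IsConj L) : IsConj {w | ∃ n, w ∈ pw L n} := by
  have hP : ∀ i : Unit, Poly ((fun (_ : Unit) (X : Unit → Set (List α)) =>
      {[]} ∪ CJ.cat L (X ())) i) := fun _ =>
    Poly.union (Poly.cst _ isConj_eps) (Poly.cat (Poly.cst L h) (Poly.var ()))
  have h1 := isConj_Lfp hP ()
  have hcl := Poly.Lfp_closed hP ()
  have he : {w | ∃ n, w ∈ pw L n} = Lfp (fun (_ : Unit) (X : Unit → Set (List α)) =>
      {[]} ∪ CJ.cat L (X ())) () := by
    apply Set.Subset.antisymm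
    · have key : ∀ k : ℕ, pw L k ⊆ Lfp (fun (_ : Unit) (X : Unit → Set (List α)) =>
            {[]} ∪ CJ.cat L (X ())) () := by
        intro k
        induction k with
        | zero => exact fun w hw => hcl (Or.inl hw)
        | succ k ih => exact fun w hw => hcl (Or.inr (cat_mono subset_rfl ih hw))
      rintro w ⟨k, hw⟩
      exact key k hw
    · refine Lfp_least (X := fun _ => {w | ∃ n, w ∈ pw L n}) (fun _ w hw => ?_) ()
      rcases hw with hw | ⟨u, hu, v, ⟨n, hv⟩, rfl⟩
      · exact ⟨0, hw⟩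
      · exact ⟨n + 1, u, hu, v, hv, rfl⟩
  rw [he]
  exact h1

/-- Value of an expression over `β` in languages over `α`. -/
def Clo2_ev {ι : Type} (f : α → β) (X : ι → Set (List α)) : Ex β ι → Set (List α)
  | .nil => ∅
  | .eps => {[]}
  | .sym b => LC (fun a => f a = b)
  | .var i => X i
  | .cat e g => CJ.cat (Clo2_ev f X e) (Clo2_ev f X g)
  | .inter e g => Clo2_ev f X e ∩ Clo2_ev f X g
  | .union e g => Clo2_ev f X e ∪ Clo2_ev f X g

theorem Clo2_ev_poly [Finite α] {ι : Type} (f : α → β) (e : Ex β ι) :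
    Poly (fun X : ι → Set (List α) => Clo2_ev f X e) := by
  induction e with
  | nil => exact Poly.cst _ isConj_empty
  | eps => exact Poly.cst _ isConj_eps
  | sym b => exact Poly.cst _ (isConj_LC _)
  | var i => exact Poly.var i
  | cat e g ih ih' => exact Poly.cat ih ih'
  | inter e g ih ih' => exact Poly.inter ih ih'
  | union e g ih ih' => exact Poly.union ih ih'

theorem Clo2_ev_sub {ι : Type} (f : α → β) (Y : ι → Set (List β)) (e : Ex β ι) :
    Clo2_ev f (fun j => {w : List α | w.map f ∈ Y j}) e ⊆ {w | w.map f ∈ e.ev Y} := by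
  induction e with
  | nil => exact fun w hw => hw.elim
  | eps =>
    intro w hw
    have h1 : w = [] := hw
    subst h1
    exact rfl
  | sym b =>
    rintro w ⟨a, rfl, rfl⟩
    exact rfl
  | var i => exact fun w hw => hw
  | cat e g ih ih' =>
    rintro w ⟨u, hu, v, hv, rfl⟩
    exact ⟨u.map f, ih hu, v.map f, ih' hv, List.map_append⟩
  | inter e g ih ih' => exact fun w hw => ⟨ih hw.1, ih' hw.2⟩
  | union e g ih ih' =>
    rintro w (hw | hw)
    · exact Or.inl (ih hw)
    · exact Or.inr (ih' hw)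

theorem Clo2_ev_sup {ι : Type} (f : α → β) (X : ι → Set (List α)) (e : Ex β ι) :
    e.ev (fun j => {v : List β | ∀ w : List α, w.map f = v → w ∈ X j}) ⊆
      {v | ∀ w : List α, w.map f = v → w ∈ Clo2_ev f X e} := by
  induction e with
  | nil => exact fun w hw => hw.elim
  | eps =>
    intro v hv w hw
    have h1 : v = [] := hv
    subst h1
    exact List.map_eq_nil_iff.1 hw
  | sym b =>
    intro v hv w hw
    have h1 : v = [b] := hv
    subst h1
    obtain ⟨a, rfl, h2⟩ := List.map_eq_singleton_iff.1 hw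
    exact ⟨a, h2, rfl⟩
  | var i => exact fun v hv => hv
  | cat e g ih ih' =>
    rintro v ⟨u₁, h₁, u₂, h₂, rfl⟩ w hw
    obtain ⟨w₁, w₂, rfl, e₁, e₂⟩ := List.map_eq_append_iff.1 hw
    exact ⟨w₁, ih h₁ w₁ e₁, w₂, ih' h₂ w₂ e₂, rfl⟩
  | inter e g ih ih' => exact fun v hv w hw => ⟨ih hv.1 w hw, ih' hv.2 w hw⟩
  | union e g ih ih' =>
    rintro v (hv | hv) w hw
    · exact Or.inl (ih hv w hw)
    · exact Or.inr (ih' hv w hw)

theorem IsConj.preimage [Finite α] (f : α → β) {L : Set (List β)} (h : IsConj L) :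
    IsConj {w : List α | w.map f ∈ L} := by
  obtain ⟨n, F, i, rfl⟩ := h
  have hP : ∀ j : Fin n, Poly ((fun (j : Fin n) (X : Fin n → Set (List α)) =>
      Clo2_ev f X (F j)) j) := fun j => Clo2_ev_poly f (F j)
  have h1 := isConj_Lfp hP i
  have he : {w : List α | w.map f ∈ Lfp (fun j X => (F j).ev X) i} =
      Lfp (fun (j : Fin n) (X : Fin n → Set (List α)) => Clo2_ev f X (F j)) i := by
    apply Set.Subset.antisymm
    · intro w hw X hX
      have h2 : ∀ j, Lfp (fun j X => (F j).ev X) j ⊆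
          {v : List β | ∀ w : List α, w.map f = v → w ∈ X j} := by
        refine Lfp_least (X := fun j => {v : List β | ∀ w : List α, w.map f = v → w ∈ X j})
          fun j v hv w hw => ?_
        exact hX j (Clo2_ev_sup f X (F j) hv w hw)
      exact h2 i hw w rfl
    · refine Lfp_least (X := fun j => {w : List α | w.map f ∈ Lfp (fun j X => (F j).ev X) j})
        (fun j w hw => ?_) i
      have h3 := Clo2_ev_sub f (Lfp (fun j X => (F j).ev X)) (F j) hw
      exact Lfp_closed (Φ := fun j X => (F j).ev X)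
        (fun j X Y hXY => Ex.ev_mono hXY (F j)) j h3
  rw [he]
  exact h1

end Pool.Agent.H29.CJ

end S_Clo2

section S_Wts

/-!
# Weight languages are conjunctive

Use only the STATEMENTS of the imported files.

`f : α → ℤ` has all values in `{-1, 0, 1}`.
(1) `E = WT f 0` solves, in a guarded way (`isConj_of_sys` with `ι = Unit`, `μ = 0`), the equation
`X = {[]} ∪ O X ∪ P X M X ∪ M X P X` with `O = LC (f = 0)`, `P = LC (f = 1)`, `M = LC (f = -1)`.
Closedness is additivity of `wt`.  Conversely let `w = a :: w'` have weight `0`.  If `f a = 0` then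
`w' ∈ E`.  If `f a = 1` then `wt w' = -1`; the partial sums of `w'` start with `0`, end with `-1` and
change by at most one, so there is a first split `w' = u ++ b :: v` with `wt u = 0` and `f b = -1`
(first position where the partial sum becomes `-1`; lemma `exists_first`, proved by induction: a list
`w'` with `wt w' < 0` has a split `u ++ b :: v` with `wt u = 0`, `f b = -1`: generalise the statement to
`wt w' + c < 0`, `0 ≤ c`, giving `wt u + c = 0`).  Then `wt v = 0`.  The case `f a = -1` is symmetric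
(apply the lemma to `-f`).
(2) For `k : ℕ`: `WT f (k+1) = WT f k · P · WT f 0`: a word of weight `k + 1 > 0` has a split
`u ++ b :: v` with `wt u = k`, `f b = 1` and `wt v = 0`: use the lemma for `-f` with the last (or first)
passage; simplest: first passage through level `1`: `w = u ++ b :: v` with `wt u = 0`, `f b = 1`,
`wt v = k`, so `WT f (k+1) = WT f 0 · P · WT f k`.  Symmetrically for negative `k` (or apply the
positive case to `-f`: `WT f (-k) = WT (-f) k`).
-/

set_option autoImplicit false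

namespace Pool.Agent.H29.CJ

variable {α : Type}

theorem wt_append (f : α → ℤ) (u v : List α) : wt f (u ++ v) = wt f u + wt f v := by
  simp [wt]

theorem Wts_cons (f : α → ℤ) (a : α) (v : List α) : wt f (a :: v) = f a + wt f v := by
  simp [wt]

theorem Wts_nil (f : α → ℤ) : wt f ([] : List α) = 0 := by
  simp [wt]

theorem Wts_neg (f : α → ℤ) (w : List α) : wt (fun a => - f a) w = - wt f w := by
  induction w with
  | nil => simp [wt]
  | cons a w ih => rw [Wts_cons, Wts_cons, ih]; ring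

theorem Wts_first (f : α → ℤ) (hf : ∀ a, f a = -1 ∨ f a = 0 ∨ f a = 1) (w : List α) :
    ∀ c : ℤ, 0 ≤ c → wt f w + c < 0 →
      ∃ (u : List α) (b : α) (v : List α), w = u ++ b :: v ∧ wt f u + c = 0 ∧ f b = -1 := by
  induction w with
  | nil =>
    intro c hc h
    rw [Wts_nil] at h
    omega
  | cons a w ih =>
    intro c hc h
    rw [Wts_cons] at h
    by_cases h0 : c = 0 ∧ f a = -1
    · refine ⟨[], a, w, rfl, ?_, h0.2⟩
      rw [Wts_nil, h0.1]
      rfl
    · have hc' : 0 ≤ c + f a := by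
        rcases hf a with h1 | h1 | h1
        · have : c ≠ 0 := fun h2 => h0 ⟨h2, h1⟩
          omega
        · omega
        · omega
      obtain ⟨u, b, v, h1, h2, h3⟩ := ih (c + f a) hc' (by omega)
      refine ⟨a :: u, b, v, by rw [h1]; rfl, ?_, h3⟩
      rw [Wts_cons]
      omega

theorem Wts_firstP (f : α → ℤ) (hf : ∀ a, f a = -1 ∨ f a = 0 ∨ f a = 1) (w : List α)
    (h : 0 < wt f w) :
    ∃ (u : List α) (b : α) (v : List α), w = u ++ b :: v ∧ wt f u = 0 ∧ f b = 1 := by
  obtain ⟨u, b, v, h1, h2, h3⟩ := Wts_first (fun a => - f a)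
    (fun a => by rcases hf a with h | h | h <;> simp [h]) w 0 le_rfl
    (by rw [Wts_neg]; omega)
  refine ⟨u, b, v, h1, ?_, by omega⟩
  rw [Wts_neg] at h2
  omega

theorem Wts_firstN (f : α → ℤ) (hf : ∀ a, f a = -1 ∨ f a = 0 ∨ f a = 1) (w : List α)
    (h : wt f w < 0) :
    ∃ (u : List α) (b : α) (v : List α), w = u ++ b :: v ∧ wt f u = 0 ∧ f b = -1 := by
  obtain ⟨u, b, v, h1, h2, h3⟩ := Wts_first f hf w 0 le_rfl (by omega)
  exact ⟨u, b, v, h1, by omega, h3⟩

theorem Wts_zero [Finite α] (f : α → ℤ) (hf : ∀ a, f a = -1 ∨ f a = 0 ∨ f a = 1) :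
    IsConj (WT f 0) := by
  have key := isConj_of_sys (α := α) (ι := Unit)
    (Φ := fun _ X => (({[]} ∪ cat (LC (fun a => f a = 0)) (X ())) ∪
      cat (LC (fun a => f a = 1)) (cat (X ()) (cat (LC (fun a => f a = -1)) (X ())))) ∪
      cat (LC (fun a => f a = -1)) (cat (X ()) (cat (LC (fun a => f a = 1)) (X ()))))
    (fun _ => ((((Poly.cst _ isConj_eps).union ((Poly.cst _ (isConj_LC _)).cat (Poly.var ()))).union
      ((Poly.cst _ (isConj_LC _)).cat ((Poly.var ()).cat ((Poly.cst _ (isConj_LC _)).cat (Poly.var ()))))).union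
      ((Poly.cst _ (isConj_LC _)).cat ((Poly.var ()).cat ((Poly.cst _ (isConj_LC _)).cat (Poly.var ()))))))
    (fun _ => WT f 0) (fun _ => 0) ?_ ?_
  · exact key ()
  · intro _ w hw
    rcases hw with ((hw | hw) | hw) | hw
    · have h1 : w = [] := hw
      rw [h1]
      exact Wts_nil f
    · obtain ⟨u, ⟨a, ha, rfl⟩, v, hv, rfl⟩ := hw
      have hv' : wt f v = 0 := hv
      show wt f ([a] ++ v) = 0
      rw [wt_append, Wts_cons, Wts_nil, hv', ha]
      rfl
    · obtain ⟨u, ⟨a, ha, rfl⟩, v, ⟨x, hx, y, ⟨z, ⟨b, hb, rfl⟩, t, ht, rfl⟩, rfl⟩, rfl⟩ := hw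
      have hx' : wt f x = 0 := hx
      have ht' : wt f t = 0 := ht
      show wt f ([a] ++ (x ++ ([b] ++ t))) = 0
      rw [wt_append, wt_append, wt_append, Wts_cons, Wts_nil, Wts_cons, Wts_nil, hx', ht', ha, hb]
      rfl
    · obtain ⟨u, ⟨a, ha, rfl⟩, v, ⟨x, hx, y, ⟨z, ⟨b, hb, rfl⟩, t, ht, rfl⟩, rfl⟩, rfl⟩ := hw
      have hx' : wt f x = 0 := hx
      have ht' : wt f t = 0 := ht
      show wt f ([a] ++ (x ++ ([b] ++ t))) = 0
      rw [wt_append, wt_append, wt_append, Wts_cons, Wts_nil, Wts_cons, Wts_nil, hx', ht', ha, hb]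
      rfl
  · intro _ w hw
    have hw' : wt f w = 0 := hw
    cases w with
    | nil => exact Or.inl (Or.inl (Or.inl rfl))
    | cons a w =>
      rw [Wts_cons] at hw'
      rcases hf a with ha | ha | ha
      · obtain ⟨u, b, v, h1, h2, h3⟩ := Wts_firstP f hf w (by omega)
        have h4 : wt f v = 0 := by
          rw [h1, wt_append, Wts_cons] at hw'
          omega
        refine Or.inr ⟨[a], ⟨a, ha, rfl⟩, u ++ ([b] ++ v), ⟨u, ⟨h2, Or.inl ?_⟩, [b] ++ v,
          ⟨[b], ⟨b, h3, rfl⟩, v, ⟨h4, Or.inl ?_⟩, rfl⟩, rfl⟩, ?_⟩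
        · rw [h1]
          simp only [List.length_cons, List.length_append]
          omega
        · rw [h1]
          simp only [List.length_cons, List.length_append]
          omega
        · rw [h1]
          rfl
      · exact Or.inl (Or.inl (Or.inr ⟨[a], ⟨a, ha, rfl⟩, w, ⟨by show wt f w = 0; omega,
          Or.inl (by simp)⟩, rfl⟩))
      · obtain ⟨u, b, v, h1, h2, h3⟩ := Wts_firstN f hf w (by omega)
        have h4 : wt f v = 0 := by
          rw [h1, wt_append, Wts_cons] at hw'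
          omega
        refine Or.inl (Or.inr ⟨[a], ⟨a, ha, rfl⟩, u ++ ([b] ++ v), ⟨u, ⟨h2, Or.inl ?_⟩, [b] ++ v,
          ⟨[b], ⟨b, h3, rfl⟩, v, ⟨h4, Or.inl ?_⟩, rfl⟩, rfl⟩, ?_⟩)
        · rw [h1]
          simp only [List.length_cons, List.length_append]
          omega
        · rw [h1]
          simp only [List.length_cons, List.length_append]
          omega
        · rw [h1]
          rfl

theorem Wts_nat [Finite α] (f : α → ℤ) (hf : ∀ a, f a = -1 ∨ f a = 0 ∨ f a = 1) (n : ℕ) :
    IsConj (WT f n) := by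
  induction n with
  | zero => exact Wts_zero f hf
  | succ n ih =>
    have h1 : WT f ((n + 1 : ℕ) : ℤ) = cat (WT f 0) (cat (LC (fun a => f a = 1)) (WT f n)) := by
      ext w
      constructor
      · intro hw
        have hw' : wt f w = ((n + 1 : ℕ) : ℤ) := hw
        obtain ⟨u, b, v, h1, h2, h3⟩ := Wts_firstP f hf w (by rw [hw']; positivity)
        refine ⟨u, h2, [b] ++ v, ⟨[b], ⟨b, h3, rfl⟩, v, ?_, rfl⟩, h1⟩
        show wt f v = n
        rw [h1, wt_append, Wts_cons, h2, h3] at hw'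
        push_cast at hw'
        omega
      · rintro ⟨u, hu, x, ⟨y, ⟨b, hb, rfl⟩, v, hv, rfl⟩, rfl⟩
        have hu' : wt f u = 0 := hu
        have hv' : wt f v = n := hv
        show wt f (u ++ ([b] ++ v)) = ((n + 1 : ℕ) : ℤ)
        rw [wt_append, wt_append, Wts_cons, Wts_nil, hu', hv', hb]
        push_cast
        ring
    rw [h1]
    exact (Wts_zero f hf).cat ((isConj_LC _).cat ih)

theorem isConj_WT [Finite α] (f : α → ℤ) (hf : ∀ a, f a = -1 ∨ f a = 0 ∨ f a = 1) (k : ℤ) :
    IsConj (WT f k) := by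
  rcases Int.eq_nat_or_neg k with ⟨n, h | h⟩
  · rw [h]
    exact Wts_nat f hf n
  · have h1 : WT f k = WT (fun a => - f a) (n : ℤ) := by
      ext w
      show wt f w = k ↔ wt (fun a => - f a) w = n
      rw [Wts_neg, h]
      constructor <;> intro h2 <;> omega
    rw [h1]
    exact Wts_nat _ (fun a => by rcases hf a with h | h | h <;> simp [h]) n

end Pool.Agent.H29.CJ

end S_Wts
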