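import Mathlib
import Pool.Agent.H29.CL.M1

/-! Conjunctive languages and homomorphisms, part M2: this file joins several modules to save build time. -/

section S_Bnf

/-!
# Binary normal form

Use only the definitions of `Core` and the lemmas of `LfpB`.

Let `L = Lfp (fun j X => (F j).ev X) i₀` with `F : Fin n → Ex α (Fin n)`; write `S = Lfp _`, `⟦e⟧ = e.ev S`.
Let `N` be the (finite) set of all expressions that are `var j` or a subexpression of some `F j`
(define `sub : Ex α ι → Finset/Set` of subexpressions, finite by induction; `N` as a subtype, `Finite`).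
Closed under: `cat e f ∈ N → e, f ∈ N` (same for `inter`, `union`), `var j ∈ N`, `F j ∈ N`.
Work classically.  For a set `P : Set (N × N)` (or `Set (Ex × Ex)`) and `a? : Option α` define inductively
`Der P a? : Ex α ι → Prop`:
  `sym a` if `a? = some a`; `var j` if `Der (F j)`; `union e f` if `Der e` or `Der f`;
  `inter e f` if both; `cat e f` if `[] ∈ ⟦e⟧ ∧ Der f`, or `[] ∈ ⟦f⟧ ∧ Der e`, or `(e, f) ∈ P`.
`Der` is monotone in `P`.  For a nonempty word `w` let `P w = {(e, f) | ∃ u v, u ≠ [], v ≠ [],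
w = u ++ v, u ∈ ⟦e⟧, v ∈ ⟦f⟧}` and `l w = some a` if `w = [a]`, `none` otherwise.
Claim: for `w ≠ []`: `w ∈ ⟦e⟧ ↔ Der (P w) (l w) e`.
(⇐) induction on `Der` (`var j`: `⟦F j⟧ ⊆ ⟦var j⟧ = S j` by closedness; `cat` with the empty word: `[] ++ w`).
(⇒) The family `X j = {w | w ∈ S j ∧ (w ≠ [] → Der (P w) (l w) (var j))}` is closed: by induction on `e`,
`e.ev X ⊆ {w | w ∈ ⟦e⟧ ∧ (w ≠ [] → Der (P w) (l w) e)}` (`X ≤ S` gives `e.ev X ⊆ ⟦e⟧` by `Ex.ev_mono`;
case `cat`: `w = u ++ v`; if `u = []` use `[] ∈ ⟦e⟧` and `Der` for `f`; if `v = []` symmetric; if both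
are nonempty then `(e, f) ∈ P w`).
The grammar: nonterminals `N`; `base e a := Der ∅ (some a) e`; `rules e` := all lists `ρ` enumerating (one
list for each) a nonempty finite set `Q ⊆ N × N` with `Der Q none e`.
Claim: `G.D e w ↔ w ≠ [] ∧ w ∈ ⟦e⟧`.
(⇒) induction on `D`.  `base`: `w = [a]`, `Der ∅ (some a) e`, monotone: `Der (P w) (l w) e`.  `rule`: all
pairs of `Q` lie in `P w` (the parts are nonempty by induction), so `Der (P w) none e`; as `Q ≠ ∅`, `w` has length `≥ 2`
and `l w = none`.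
(⇐) strong induction on the length.  `w = [a]`: `P w = ∅`, so `Der ∅ (some a) e`.  Length `≥ 2`: `l w = none`;
`Q := P w` restricted to `N × N` (all pairs used by `Der` starting from `e ∈ N` are in `N × N`: prove
`Der P a? e → e ∈ N → Der (P ∩ N × N) a? e`); it is nonempty because `Der ∅ none e` is impossible
(induction on `Der`); the rule with `Q` applies, all parts are shorter nonempty words.
Finally choose a bijection `N ≃ Fin (k + 1)` sending `var i₀` to `0` and transport the grammar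
(`k + 1` = number of elements; `N` is nonempty).
-/

set_option autoImplicit false

namespace Pool.Agent.H29.CJ

variable {α : Type}

/-- Subexpressions. -/
def Bnf_sub {ι : Type} : Ex α ι → Set (Ex α ι)
  | .nil => {.nil}
  | .eps => {.eps}
  | .sym a => {.sym a}
  | .var i => {.var i}
  | .cat e f => {.cat e f} ∪ (Bnf_sub e ∪ Bnf_sub f)
  | .inter e f => {.inter e f} ∪ (Bnf_sub e ∪ Bnf_sub f)
  | .union e f => {.union e f} ∪ (Bnf_sub e ∪ Bnf_sub f)

theorem Bnf_sub_self {ι : Type} (e : Ex α ι) : e ∈ Bnf_sub e := by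
  cases e <;> simp [Bnf_sub]

theorem Bnf_sub_fin {ι : Type} (e : Ex α ι) : (Bnf_sub e).Finite := by
  induction e with
  | nil => exact Set.finite_singleton _
  | eps => exact Set.finite_singleton _
  | sym a => exact Set.finite_singleton _
  | var i => exact Set.finite_singleton _
  | cat e f ih ih' => exact (Set.finite_singleton _).union (ih.union ih')
  | inter e f ih ih' => exact (Set.finite_singleton _).union (ih.union ih')
  | union e f ih ih' => exact (Set.finite_singleton _).union (ih.union ih')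

theorem Bnf_sub_trans {ι : Type} {g : Ex α ι} : ∀ {e : Ex α ι}, g ∈ Bnf_sub e → Bnf_sub g ⊆ Bnf_sub e := by
  intro e
  induction e with
  | nil => intro h; rw [Bnf_sub, Set.mem_singleton_iff] at h; subst h; exact subset_rfl
  | eps => intro h; rw [Bnf_sub, Set.mem_singleton_iff] at h; subst h; exact subset_rfl
  | sym a => intro h; rw [Bnf_sub, Set.mem_singleton_iff] at h; subst h; exact subset_rfl
  | var i => intro h; rw [Bnf_sub, Set.mem_singleton_iff] at h; subst h; exact subset_rfl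
  | cat e f ih ih' =>
    intro h
    rw [Bnf_sub] at h
    rcases h with h | h | h
    · rw [Set.mem_singleton_iff] at h
      subst h
      exact subset_rfl
    · exact (ih h).trans (fun x hx => Or.inr (Or.inl hx))
    · exact (ih' h).trans (fun x hx => Or.inr (Or.inr hx))
  | inter e f ih ih' =>
    intro h
    rw [Bnf_sub] at h
    rcases h with h | h | h
    · rw [Set.mem_singleton_iff] at h
      subst h
      exact subset_rfl
    · exact (ih h).trans (fun x hx => Or.inr (Or.inl hx))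
    · exact (ih' h).trans (fun x hx => Or.inr (Or.inr hx))
  | union e f ih ih' =>
    intro h
    rw [Bnf_sub] at h
    rcases h with h | h | h
    · rw [Set.mem_singleton_iff] at h
      subst h
      exact subset_rfl
    · exact (ih h).trans (fun x hx => Or.inr (Or.inl hx))
    · exact (ih' h).trans (fun x hx => Or.inr (Or.inr hx))

/-- The relevant expressions. -/
def Bnf_N {ι : Type} (F : ι → Ex α ι) : Set (Ex α ι) := {e | (∃ j, e = .var j) ∨ ∃ j, e ∈ Bnf_sub (F j)}

theorem Bnf_N_fin {ι : Type} [Finite ι] (F : ι → Ex α ι) : (Bnf_N F).Finite := by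
  have h1 : (Set.range (fun j : ι => (Ex.var j : Ex α ι))).Finite := Set.finite_range _
  have h2 : (⋃ j, Bnf_sub (F j)).Finite := Set.finite_iUnion fun j => Bnf_sub_fin (F j)
  refine (h1.union h2).subset ?_
  rintro e (⟨j, rfl⟩ | ⟨j, hj⟩)
  · exact Or.inl ⟨j, rfl⟩
  · exact Or.inr (Set.mem_iUnion.2 ⟨j, hj⟩)

theorem Bnf_N_step {ι : Type} {F : ι → Ex α ι} {e g : Ex α ι} (hg : g ∈ Bnf_N F) (hv : ∀ j, g ≠ .var j)
    (he : e ∈ Bnf_sub g) : e ∈ Bnf_N F := by
  rcases hg with ⟨j, hj⟩ | ⟨j, hj⟩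
  · exact absurd hj (hv j)
  · exact Or.inr ⟨j, Bnf_sub_trans hj he⟩

/-- The derivability predicate. -/
inductive Bnf_Der {ι : Type} (S : ι → Set (List α)) (F : ι → Ex α ι) (P : Set (Ex α ι × Ex α ι)) (l : Option α) :
    Ex α ι → Prop
  | sym {a : α} (h : l = some a) : Bnf_Der S F P l (.sym a)
  | var {j : ι} (h : Bnf_Der S F P l (F j)) : Bnf_Der S F P l (.var j)
  | inl {e f : Ex α ι} (h : Bnf_Der S F P l e) : Bnf_Der S F P l (.union e f)
  | inr {e f : Ex α ι} (h : Bnf_Der S F P l f) : Bnf_Der S F P l (.union e f)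
  | inter {e f : Ex α ι} (h : Bnf_Der S F P l e) (h' : Bnf_Der S F P l f) : Bnf_Der S F P l (.inter e f)
  | catl {e f : Ex α ι} (h : [] ∈ e.ev S) (h' : Bnf_Der S F P l f) : Bnf_Der S F P l (.cat e f)
  | catr {e f : Ex α ι} (h : [] ∈ f.ev S) (h' : Bnf_Der S F P l e) : Bnf_Der S F P l (.cat e f)
  | pair {e f : Ex α ι} (h : (e, f) ∈ P) : Bnf_Der S F P l (.cat e f)

section
variable {ι : Type} {S : ι → Set (List α)} {F : ι → Ex α ι}

theorem Bnf_Der.mono {P P' : Set (Ex α ι × Ex α ι)} (hP : P ⊆ P') {l : Option α} {e : Ex α ι}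
    (h : Bnf_Der S F P l e) : Bnf_Der S F P' l e := by
  induction h with
  | sym h => exact .sym h
  | var _ ih => exact .var ih
  | inl _ ih => exact .inl ih
  | inr _ ih => exact .inr ih
  | inter _ _ ih ih' => exact .inter ih ih'
  | catl h _ ih => exact .catl h ih
  | catr h _ ih => exact .catr h ih
  | pair h => exact .pair (hP h)

theorem Bnf_Der.restrict {P : Set (Ex α ι × Ex α ι)} {l : Option α} {e : Ex α ι}
    (h : Bnf_Der S F P l e) : e ∈ Bnf_N F →
    Bnf_Der S F {p | p ∈ P ∧ p.1 ∈ Bnf_N F ∧ p.2 ∈ Bnf_N F} l e := by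
  induction h with
  | sym h => exact fun _ => .sym h
  | @var j _ ih => exact fun _ => .var (ih (Or.inr ⟨j, Bnf_sub_self _⟩))
  | @inl e f _ ih =>
    exact fun hN => .inl (ih (Bnf_N_step hN (by simp) (Or.inr (Or.inl (Bnf_sub_self e)))))
  | @inr e f _ ih =>
    exact fun hN => .inr (ih (Bnf_N_step hN (by simp) (Or.inr (Or.inr (Bnf_sub_self f)))))
  | @inter e f _ _ ih ih' =>
    exact fun hN => .inter (ih (Bnf_N_step hN (by simp) (Or.inr (Or.inl (Bnf_sub_self e)))))
      (ih' (Bnf_N_step hN (by simp) (Or.inr (Or.inr (Bnf_sub_self f)))))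
  | @catl e f h _ ih =>
    exact fun hN => .catl h (ih (Bnf_N_step hN (by simp) (Or.inr (Or.inr (Bnf_sub_self f)))))
  | @catr e f h _ ih =>
    exact fun hN => .catr h (ih (Bnf_N_step hN (by simp) (Or.inr (Or.inl (Bnf_sub_self e)))))
  | @pair e f h =>
    exact fun hN => .pair ⟨h, Bnf_N_step hN (by simp) (Or.inr (Or.inl (Bnf_sub_self e))),
      Bnf_N_step hN (by simp) (Or.inr (Or.inr (Bnf_sub_self f)))⟩

theorem Bnf_Der.not_none {e : Ex α ι} {P : Set (Ex α ι × Ex α ι)} (hP : ∀ p, p ∉ P) {l : Option α} (hl : l = none)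
    (h : Bnf_Der S F P l e) : False := by
  induction h with
  | sym h => rw [hl] at h; exact absurd h (by simp)
  | var _ ih => exact ih
  | inl _ ih => exact ih
  | inr _ ih => exact ih
  | inter _ _ ih _ => exact ih
  | catl _ _ ih => exact ih
  | catr _ _ ih => exact ih
  | pair h => exact hP _ h

/-- The pairs matching a word. -/
def Bnf_P (S : ι → Set (List α)) (w : List α) : Set (Ex α ι × Ex α ι) :=
  {p | ∃ u v : List α, u ≠ [] ∧ v ≠ [] ∧ w = u ++ v ∧ u ∈ p.1.ev S ∧ v ∈ p.2.ev S}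

/-- The letter of a one-letter word. -/
def Bnf_l : List α → Option α
  | [a] => some a
  | _ => none

theorem Bnf_l_some {w : List α} {a : α} (h : Bnf_l w = some a) : w = [a] := by
  match w, h with
  | [], h => exact absurd h (by simp [Bnf_l])
  | [b], h => rw [Bnf_l, Option.some.injEq] at h; rw [h]
  | _ :: _ :: _, h => exact absurd h (by simp [Bnf_l])

theorem Bnf_l_none {w : List α} (h : 2 ≤ w.length) : Bnf_l w = none := by
  match w, h with
  | [], h => simp at h
  | [b], h => simp at h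
  | _ :: _ :: _, _ => rfl

theorem Bnf_A (hc : ∀ j, (F j).ev S ⊆ S j) {w : List α} {e : Ex α ι}
    (h : Bnf_Der S F (Bnf_P S w) (Bnf_l w) e) : w ∈ e.ev S := by
  induction h with
  | sym h => exact Bnf_l_some h
  | var _ ih => exact hc _ ih
  | inl _ ih => exact Or.inl ih
  | inr _ ih => exact Or.inr ih
  | inter _ _ ih ih' => exact ⟨ih, ih'⟩
  | catl h _ ih => exact ⟨[], h, w, ih, rfl⟩
  | catr h _ ih => exact ⟨w, ih, [], h, (List.append_nil w).symm⟩
  | pair h =>
    obtain ⟨u, v, _, _, h1, h2, h3⟩ := h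
    exact ⟨u, h2, v, h3, h1⟩

theorem Bnf_B0 {X : ι → Set (List α)} (hXS : ∀ j, X j ⊆ S j)
    (hX : ∀ j w, w ∈ X j → w ≠ [] → Bnf_Der S F (Bnf_P S w) (Bnf_l w) (.var j)) (e : Ex α ι) :
    ∀ w, w ∈ e.ev X → w ≠ [] → Bnf_Der S F (Bnf_P S w) (Bnf_l w) e := by
  induction e with
  | nil => intro w hw; exact absurd hw (Set.notMem_empty w)
  | eps => intro w hw hne; exact absurd hw hne
  | sym a =>
    intro w hw _
    have h1 : w = [a] := hw
    subst h1
    exact .sym rfl
  | var j => intro w hw hne; exact hX j w hw hne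
  | cat e f ih ih' =>
    intro w hw hne
    obtain ⟨u, hu, v, hv, rfl⟩ := hw
    by_cases h1 : u = []
    · subst h1
      rw [List.nil_append] at hne ⊢
      exact .catl (Ex.ev_mono hXS e hu) (ih' v hv hne)
    · by_cases h2 : v = []
      · subst h2
        rw [List.append_nil] at hne ⊢
        exact .catr (Ex.ev_mono hXS f hv) (ih u hu hne)
      · exact .pair ⟨u, v, h1, h2, rfl, Ex.ev_mono hXS e hu, Ex.ev_mono hXS f hv⟩
  | inter e f ih ih' => intro w hw hne; exact .inter (ih w hw.1 hne) (ih' w hw.2 hne)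
  | union e f ih ih' =>
    intro w hw hne
    rcases hw with hw | hw
    · exact .inl (ih w hw hne)
    · exact .inr (ih' w hw hne)

end

theorem Bnf_B {ι : Type} (F : ι → Ex α ι) (e : Ex α ι) {w : List α}
    (hw : w ∈ e.ev (Lfp (fun j X => (F j).ev X))) (hne : w ≠ []) :
    Bnf_Der (Lfp (fun j X => (F j).ev X)) F (Bnf_P (Lfp (fun j X => (F j).ev X)) w) (Bnf_l w) e := by
  set S : ι → Set (List α) := Lfp (fun j X => (F j).ev X) with hS
  have hc : ∀ j, (F j).ev S ⊆ S j := fun j =>
    Lfp_closed (Φ := fun j X => (F j).ev X) (fun j X Y h => Ex.ev_mono h (F j)) j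
  set X : ι → Set (List α) := fun j => {w | w ∈ S j ∧ (w ≠ [] → Bnf_Der S F (Bnf_P S w) (Bnf_l w) (.var j))} with hX
  have hXS : ∀ j, X j ⊆ S j := fun j x hx => hx.1
  have h0 := Bnf_B0 (S := S) (F := F) hXS (fun j w hw hne => hw.2 hne)
  have hSX : ∀ j, S j ⊆ X j := by
    intro j
    refine Lfp_least (Φ := fun j X => (F j).ev X) (fun j x hx => ?_) j
    exact ⟨hc j (Ex.ev_mono hXS (F j) hx), fun hne => .var (h0 (F j) x hx hne)⟩
  exact h0 e w (Ex.ev_mono hSX e hw) hne

theorem Bnf_enum {ι : Type} [Finite ι] (F : ι → Ex α ι) (i₀ : ι) : ∃ (k : ℕ) (ex : Fin (k + 1) → Ex α ι),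
    ex 0 = .var i₀ ∧ (∀ A, ex A ∈ Bnf_N F) ∧ ∀ e ∈ Bnf_N F, ∃ A, ex A = e := by
  classical
  have hf := Bnf_N_fin F
  refine ⟨hf.toFinset.toList.length, fun A => (Ex.var i₀ :: hf.toFinset.toList).get A, rfl, ?_, ?_⟩
  · intro A
    have h1 : (Ex.var i₀ :: hf.toFinset.toList).get A ∈ Ex.var i₀ :: hf.toFinset.toList := List.get_mem _ _
    rcases List.mem_cons.1 h1 with h | h
    · show (Ex.var i₀ :: hf.toFinset.toList).get A ∈ Bnf_N F
      rw [h]
      exact Or.inl ⟨i₀, rfl⟩
    · exact hf.mem_toFinset.1 (Finset.mem_toList.1 h)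
  · intro e he
    have h1 : e ∈ Ex.var i₀ :: hf.toFinset.toList :=
      List.mem_cons_of_mem _ (Finset.mem_toList.2 (hf.mem_toFinset.2 he))
    obtain ⟨A, hA⟩ := List.get_of_mem h1
    exact ⟨A, hA⟩

theorem IsConj.bnf {L : Set (List α)} (h : IsConj L) :
    ∃ (k : ℕ) (G : Gr α (k + 1)), ∀ w : List α, w ≠ [] → (G.D 0 w ↔ w ∈ L) := by
  classical
  obtain ⟨n, F, i₀, rfl⟩ := h
  set S : Fin n → Set (List α) := Lfp (fun j X => (F j).ev X) with hS
  have hc : ∀ j, (F j).ev S ⊆ S j := fun j =>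
    Lfp_closed (Φ := fun j X => (F j).ev X) (fun j X Y h => Ex.ev_mono h (F j)) j
  obtain ⟨k, ex, hex0, hexN, hexS⟩ := Bnf_enum F i₀
  set PQ : Finset (Fin (k + 1) × Fin (k + 1)) → Set (Ex α (Fin n) × Ex α (Fin n)) :=
    fun Q => {p | ∃ q ∈ Q, ex q.1 = p.1 ∧ ex q.2 = p.2} with hPQ
  have hrules : ∀ (A : Fin (k + 1)) (ρ : List (Fin (k + 1) × Fin (k + 1))),
      ρ ∈ ((Finset.univ.filter fun Q : Finset (Fin (k + 1) × Fin (k + 1)) =>
        Q.Nonempty ∧ Bnf_Der S F (PQ Q) none (ex A)).toList.map fun Q => Q.toList) ↔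
      ∃ Q : Finset (Fin (k + 1) × Fin (k + 1)), Q.Nonempty ∧ Bnf_Der S F (PQ Q) none (ex A) ∧ ρ = Q.toList := by
    intro A ρ
    rw [List.mem_map]
    constructor
    · rintro ⟨Q, hQ, rfl⟩
      have h1 := (Finset.mem_filter.1 (Finset.mem_toList.1 hQ)).2
      exact ⟨Q, h1.1, h1.2, rfl⟩
    · rintro ⟨Q, h1, h2, rfl⟩
      exact ⟨Q, Finset.mem_toList.2 (Finset.mem_filter.2 ⟨Finset.mem_univ _, h1, h2⟩), rfl⟩
  let G : Gr α (k + 1) :=
    { base := fun A a => Bnf_Der S F ∅ (some a) (ex A)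
      rules := fun A => ((Finset.univ.filter fun Q : Finset (Fin (k + 1) × Fin (k + 1)) =>
        Q.Nonempty ∧ Bnf_Der S F (PQ Q) none (ex A)).toList.map fun Q => Q.toList)
      ne := by
        intro A ρ hρ
        obtain ⟨Q, h1, _, rfl⟩ := (hrules A ρ).1 hρ
        exact fun h => h1.ne_empty (Finset.toList_eq_nil.1 h) }
  have hfw : ∀ (A : Fin (k + 1)) (w : List α), G.D A w → w ≠ [] ∧ w ∈ (ex A).ev S := by
    intro A w hD
    induction hD with
    | @base A a h =>
      refine ⟨List.cons_ne_nil _ _, Bnf_A hc ?_⟩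
      exact Bnf_Der.mono (Set.empty_subset _) h
    | @rule A ρ w u v h hw hu hv ihu ihv =>
      obtain ⟨Q, h1, h2, rfl⟩ := (hrules A ρ).1 h
      obtain ⟨q, hq⟩ := h1
      have hq' := Finset.mem_toList.2 hq
      have hlen : 2 ≤ w.length := by
        rw [hw q hq', List.length_append]
        have h3 := List.length_pos_iff.2 (ihu q hq').1
        have h4 := List.length_pos_iff.2 (ihv q hq').1
        omega
      refine ⟨fun h => by rw [h] at hlen; simp at hlen, Bnf_A hc ?_⟩
      rw [Bnf_l_none hlen]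
      refine Bnf_Der.mono ?_ h2
      rintro ⟨e, f⟩ ⟨q, hq, h3, h4⟩
      have hq' := Finset.mem_toList.2 hq
      simp only at h3 h4
      subst h3
      subst h4
      exact ⟨u q, v q, (ihu q hq').1, (ihv q hq').1, hw q hq', (ihu q hq').2, (ihv q hq').2⟩
  have hbw : ∀ (m : ℕ) (w : List α), w.length = m → ∀ A : Fin (k + 1), w ≠ [] → w ∈ (ex A).ev S → G.D A w := by
    intro m
    induction m using Nat.strong_induction_on with
    | _ m ih =>
    intro w hm A hne hw
    have hD : Bnf_Der S F (Bnf_P S w) (Bnf_l w) (ex A) := Bnf_B F (ex A) hw hne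
    by_cases hlen : 2 ≤ w.length
    · rw [Bnf_l_none hlen] at hD
      have hD' := hD.restrict (hexN A)
      set Q : Finset (Fin (k + 1) × Fin (k + 1)) :=
        Finset.univ.filter fun q => (ex q.1, ex q.2) ∈ Bnf_P S w with hQ
      have hsub : {p : Ex α (Fin n) × Ex α (Fin n) | p ∈ Bnf_P S w ∧ p.1 ∈ Bnf_N F ∧ p.2 ∈ Bnf_N F} ⊆ PQ Q := by
        rintro ⟨e, f⟩ ⟨h1, h2, h3⟩
        obtain ⟨A1, hA1⟩ := hexS e h2
        obtain ⟨A2, hA2⟩ := hexS f h3
        refine ⟨(A1, A2), Finset.mem_filter.2 ⟨Finset.mem_univ _, ?_⟩, hA1, hA2⟩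
        simp only
        rw [hA1, hA2]
        exact h1
      have hDQ : Bnf_Der S F (PQ Q) none (ex A) := Bnf_Der.mono hsub hD'
      have hQne : Q.Nonempty := by
        by_contra hcon
        rw [Finset.not_nonempty_iff_eq_empty] at hcon
        refine hDQ.not_none ?_ rfl
        rintro p ⟨q, hq, _⟩
        rw [hcon] at hq
        exact absurd hq (Finset.notMem_empty q)
      have hch : ∀ q : Fin (k + 1) × Fin (k + 1), ∃ u v : List α, q ∈ Q →
          u ≠ [] ∧ v ≠ [] ∧ w = u ++ v ∧ u ∈ (ex q.1).ev S ∧ v ∈ (ex q.2).ev S := by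
        intro q
        by_cases hq : q ∈ Q
        · obtain ⟨u, v, h1⟩ := (Finset.mem_filter.1 hq).2
          exact ⟨u, v, fun _ => h1⟩
        · exact ⟨[], [], fun h => absurd h hq⟩
      choose u v huv using hch
      refine Gr.D.rule (ρ := Q.toList) u v ((hrules A _).2 ⟨Q, hQne, hDQ, rfl⟩) ?_ ?_ ?_
      · exact fun p hp => (huv p (Finset.mem_toList.1 hp)).2.2.1
      · intro p hp
        obtain ⟨h1, h2, h3, h4, h5⟩ := huv p (Finset.mem_toList.1 hp)
        refine ih (u p).length ?_ (u p) rfl p.1 h1 h4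
        rw [← hm, h3, List.length_append]
        have := List.length_pos_iff.2 h2
        omega
      · intro p hp
        obtain ⟨h1, h2, h3, h4, h5⟩ := huv p (Finset.mem_toList.1 hp)
        refine ih (v p).length ?_ (v p) rfl p.2 h2 h5
        rw [← hm, h3, List.length_append]
        have := List.length_pos_iff.2 h1
        omega
    · have h1 : w.length = 1 := by
        have := List.length_pos_iff.2 hne
        omega
      obtain ⟨a, rfl⟩ := List.length_eq_one_iff.1 h1
      refine Gr.D.base ?_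
      show Bnf_Der S F ∅ (some a) (ex A)
      refine Bnf_Der.mono ?_ hD
      rintro p ⟨u, v, h2, h3, h4, _⟩
      have h5 := congrArg List.length h4
      rw [List.length_append] at h5
      have h6 := List.length_pos_iff.2 h2
      have h7 := List.length_pos_iff.2 h3
      simp only [List.length_cons, List.length_nil] at h5
      omega
  refine ⟨k, G, fun w hne => ⟨fun hD => ?_, fun hw => ?_⟩⟩
  · have h1 := (hfw 0 w hD).2
    rw [hex0] at h1
    exact h1
  · refine hbw w.length w rfl 0 hne ?_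
    rw [hex0]
    exact hw

end Pool.Agent.H29.CJ

end S_Bnf

section S_FroI

/-!
# From the frozen format to `IsConj`

Use only the STATEMENTS of the imported files.

Given `(p, S, R)` let `Φ A X = {w | ∃ r ∈ R, r.1 = A ∧ ∀ α ∈ r.2, w ∈ cs α X}` with
`cs [] X = {[]}`, `cs (terminal a :: α) X = cat {[a]} (cs α X)`, `cs (nonterminal B :: α) X = cat (X B) (cs α X)`.
`Poly (Φ A)` by `Poly.exL`, `Poly.iteP`, `Poly.allL`, `Poly.cat`, `Poly.cst` (induction on `α` for `cs α`).
`u ∈ cs α X` iff there is `ws` with `u = ws.flatten` and the `Forall₂` condition (induction on `α`).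
Hence a family is closed in the frozen sense iff it is closed for `Φ`, and `L = Lfp Φ S`; `isConj_Lfp`.
-/

set_option autoImplicit false

namespace Pool.Agent.H29.CJ

/-- The language of one conjunct, given the languages of the nonterminals. -/
def FroI_cs {m p : ℕ} : List (Symbol (Fin m) (Fin p)) → (Fin p → Set (List (Fin m))) →
    Set (List (Fin m))
  | [], _ => {[]}
  | (Symbol.terminal a :: l), X => CJ.cat {[a]} (FroI_cs l X)
  | (Symbol.nonterminal B :: l), X => CJ.cat (X B) (FroI_cs l X)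

theorem FroI_poly {m p : ℕ} (l : List (Symbol (Fin m) (Fin p))) :
    Poly (fun X : Fin p → Set (List (Fin m)) => FroI_cs l X) := by
  induction l with
  | nil =>
    have : (fun X : Fin p → Set (List (Fin m)) =>
        FroI_cs ([] : List (Symbol (Fin m) (Fin p))) X) = fun _ => {[]} := by
      funext X
      rfl
    rw [this]
    exact Poly.cst _ isConj_eps
  | cons s l ih =>
    cases s with
    | terminal a =>
      have : (fun X : Fin p → Set (List (Fin m)) =>
          FroI_cs (Symbol.terminal a :: l) X) = fun X => CJ.cat {[a]} (FroI_cs l X) := by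
        funext X
        rfl
      rw [this]
      exact Poly.cat (Poly.cst _ (isConj_sym a)) ih
    | nonterminal B =>
      have : (fun X : Fin p → Set (List (Fin m)) =>
          FroI_cs (Symbol.nonterminal B :: l) X) = fun X => CJ.cat (X B) (FroI_cs l X) := by
        funext X
        rfl
      rw [this]
      exact Poly.cat (Poly.var B) ih

theorem FroI_mem {m p : ℕ} (l : List (Symbol (Fin m) (Fin p)))
    (X : Fin p → Set (List (Fin m))) (u : List (Fin m)) :
    u ∈ FroI_cs l X ↔ ∃ ws : List (List (Fin m)), u = ws.flatten ∧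
      List.Forall₂ (fun (s : Symbol (Fin m) (Fin p)) (v : List (Fin m)) =>
        (∀ t, s = Symbol.terminal t → v = [t]) ∧
        (∀ B, s = Symbol.nonterminal B → v ∈ X B)) l ws := by
  induction l generalizing u with
  | nil =>
    constructor
    · intro h
      have h' : u = [] := h
      exact ⟨[], by simp [h'], List.Forall₂.nil⟩
    · rintro ⟨ws, h1, h2⟩
      cases h2
      show u = []
      simpa using h1
  | cons s l ih =>
    cases s with
    | terminal a =>
      constructor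
      · rintro ⟨v, hv, u', hu', rfl⟩
        obtain ⟨ws, h1, h2⟩ := (ih u').1 hu'
        have hv' : v = [a] := hv
        refine ⟨v :: ws, by simp [h1], List.Forall₂.cons ⟨?_, ?_⟩ h2⟩
        · intro t ht
          cases ht
          exact hv'
        · intro B hB
          cases hB
      · rintro ⟨ws, h1, h2⟩
        cases h2 with
        | cons hs ht =>
          rename_i v ws'
          refine ⟨v, hs.1 a rfl, ws'.flatten, (ih _).2 ⟨ws', rfl, ht⟩, ?_⟩
          simpa using h1
    | nonterminal B =>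
      constructor
      · rintro ⟨v, hv, u', hu', rfl⟩
        obtain ⟨ws, h1, h2⟩ := (ih u').1 hu'
        refine ⟨v :: ws, by simp [h1], List.Forall₂.cons ⟨?_, ?_⟩ h2⟩
        · intro t ht
          cases ht
        · intro C hC
          cases hC
          exact hv
      · rintro ⟨ws, h1, h2⟩
        cases h2 with
        | cons hs ht =>
          rename_i v ws'
          refine ⟨v, hs.2 B rfl, ws'.flatten, (ih _).2 ⟨ws', rfl, ht⟩, ?_⟩
          simpa using h1

/-- The operator of the system. -/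
def FroI_op {m p : ℕ} (R : List (Fin p × List (List (Symbol (Fin m) (Fin p)))))
    (A : Fin p) (X : Fin p → Set (List (Fin m))) : Set (List (Fin m)) :=
  {w | ∃ r ∈ R, w ∈ {w | r.1 = A ∧ w ∈ {w | ∀ l ∈ r.2, w ∈ FroI_cs l X}}}

theorem FroI_op_poly {m p : ℕ} (R : List (Fin p × List (List (Symbol (Fin m) (Fin p)))))
    (A : Fin p) : Poly (FroI_op R A) := by
  have h := Poly.exL (ι := Fin p) (α := Fin m) R
    (Φ := fun r X => {w | r.1 = A ∧ w ∈ {w | ∀ l ∈ r.2, w ∈ FroI_cs l X}})
    (fun r _ => Poly.iteP (Poly.allL r.2 (Φ := fun l X => FroI_cs l X)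
      (fun l _ => FroI_poly l)) (r.1 = A))
  exact h

theorem Fro.isConj {m : ℕ} {L : Set (List (Fin m))} (h : Fro L) : IsConj L := by
  obtain ⟨p, S, R, -, hL⟩ := h
  have key : L = Lfp (FroI_op R) S := by
    ext w
    rw [hL w]
    constructor
    · intro h X hX
      apply h X
      intro r hr u hu
      apply hX r.1
      exact ⟨r, hr, rfl, fun l hl => (FroI_mem l X u).2 (hu l hl)⟩
    · intro h X hX
      apply h X
      rintro A u ⟨r, hr, hA, hu⟩
      have hA' : r.1 = A := hA
      subst hA'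
      exact hX r hr u (fun l hl => (FroI_mem l X u).1 (hu l hl))
  rw [key]
  exact isConj_Lfp (FroI_op_poly R) S

end Pool.Agent.H29.CJ

end S_FroI

section S_FroO

/-!
# From `IsConj` to the frozen format

Use only the STATEMENTS of the imported files.

`IsConj.bnf` gives `k` and `G : Gr (Fin m) (k+1)`.  Take `p = k + 2`, start symbol `0`, the nonterminal `A`
of `G` is `A.succ`.  Rules `R` (a list, use `List.finRange`, classical decidability):
 `(A.succ, [[terminal a]])` for all `A, a` with `G.base A a`;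
 `(A.succ, ρ.map (fun q => [nonterminal q.1.succ, nonterminal q.2.succ]))` for `ρ ∈ G.rules A`;
 `(0, [[nonterminal 1]])` (here `1 = Fin.succ 0`); and `(0, [[]])` in case `[] ∈ L`.
All right sides are nonempty lists (`G.ne`).
(→) Let `w ∈ L` and `X` closed.  If `w = []` use the rule `(0, [[]])` (`ws = []`).  Otherwise `G.D 0 w`, and by
induction on `D`: `G.D A w → w ∈ X A.succ` (`ws = [[a]]`, respectively `ws = [u q, v q]` for each `q ∈ ρ`), then the
rule `(0, [[nonterminal 1]])`, `ws = [w]`.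
(←) The family `X 0 = L`, `X A.succ = {w | G.D A w}` is closed (`X 0`: `G.D 0 w` implies `w ≠ []`, see
`Gr.D_ne_nil` below, and then `w ∈ L`); for the rules of `A.succ` choose the parts: from the `Forall₂` with a
two-element list get `ws = [u, v]`; choose functions `u, v` of `q` (classically, e.g. by
`Classical.choose` under `if h : q ∈ ρ`) and apply `Gr.D.rule`.
-/

set_option autoImplicit false

namespace Pool.Agent.H29.CJ

theorem Gr.D_ne_nil {α : Type} {K : ℕ} {G : Gr α K} {A : Fin K} {w : List α} (h : G.D A w) :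
    w ≠ [] := by
  induction h with
  | base h => simp
  | @rule A ρ w u v h hw hu hv ihu ihv =>
    obtain ⟨p, hp⟩ := List.exists_mem_of_ne_nil ρ (G.ne A ρ h)
    rw [hw p hp]
    intro h0
    exact ihu p hp (List.append_eq_nil_iff.1 h0).1

theorem FroO_list {m k : ℕ} (G : Gr (Fin m) (k + 1)) (c : Prop) :
    ∃ R : List (Fin (k + 2) × List (List (Symbol (Fin m) (Fin (k + 2))))),
      ∀ r, r ∈ R ↔
        (∃ (A : Fin (k + 1)) (a : Fin m), G.base A a ∧
          r = (A.succ, [[Symbol.terminal a]])) ∨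
        (∃ (A : Fin (k + 1)) (ρ : List (Fin (k + 1) × Fin (k + 1))), ρ ∈ G.rules A ∧
          r = (A.succ, ρ.map (fun q => [Symbol.nonterminal q.1.succ,
            Symbol.nonterminal q.2.succ]))) ∨
        r = (0, [[Symbol.nonterminal (Fin.succ 0)]]) ∨ (c ∧ r = (0, [[]])) := by
  classical
  refine ⟨((List.finRange (k + 1)).flatMap (fun A =>
      ((List.finRange m).filter (fun a => decide (G.base A a))).map
        (fun a => (A.succ, [[Symbol.terminal a]])))) ++
    ((List.finRange (k + 1)).flatMap (fun A => (G.rules A).map (fun ρ =>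
      (A.succ, ρ.map (fun q => [Symbol.nonterminal q.1.succ,
            Symbol.nonterminal q.2.succ]))))) ++
    [(0, [[Symbol.nonterminal (Fin.succ 0)]])] ++ (if c then [(0, [[]])] else []), ?_⟩
  intro r
  simp only [List.mem_append, List.mem_flatMap, List.mem_map, List.mem_filter, List.mem_finRange,
    true_and, decide_eq_true_eq, List.mem_singleton]
  constructor
  · rintro (((⟨A, a, h, h'⟩ | ⟨A, ρ, h, h'⟩) | h) | h)
    · exact Or.inl ⟨A, a, h, h'.symm⟩
    · exact Or.inr (Or.inl ⟨A, ρ, h, h'.symm⟩)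
    · exact Or.inr (Or.inr (Or.inl h))
    · by_cases hc : c
      · rw [if_pos hc, List.mem_singleton] at h
        exact Or.inr (Or.inr (Or.inr ⟨hc, h⟩))
      · rw [if_neg hc] at h
        simp at h
  · rintro (⟨A, a, h, h'⟩ | ⟨A, ρ, h, h'⟩ | h | ⟨hc, h⟩)
    · exact Or.inl (Or.inl (Or.inl ⟨A, a, h, h'.symm⟩))
    · exact Or.inl (Or.inl (Or.inr ⟨A, ρ, h, h'.symm⟩))
    · exact Or.inl (Or.inr h)
    · right
      rw [if_pos hc, List.mem_singleton]
      exact h

theorem FroO_D {m k : ℕ} (G : Gr (Fin m) (k + 1))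
    (R : List (Fin (k + 2) × List (List (Symbol (Fin m) (Fin (k + 2))))))
    (hb : ∀ (A : Fin (k + 1)) (a : Fin m), G.base A a → (A.succ, [[Symbol.terminal a]]) ∈ R)
    (hr : ∀ (A : Fin (k + 1)) (ρ : List (Fin (k + 1) × Fin (k + 1))), ρ ∈ G.rules A →
      (A.succ, ρ.map (fun q => [Symbol.nonterminal q.1.succ,
            Symbol.nonterminal q.2.succ])) ∈ R)
    (X : Fin (k + 2) → Set (List (Fin m)))
    (hX : ∀ r ∈ R, ∀ u : List (Fin m),
          (∀ α ∈ r.2, ∃ ws : List (List (Fin m)), u = ws.flatten ∧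
            List.Forall₂ (fun (s : Symbol (Fin m) (Fin (k + 2))) (v : List (Fin m)) =>
              (∀ t, s = Symbol.terminal t → v = [t]) ∧
              (∀ B, s = Symbol.nonterminal B → v ∈ X B)) α ws) →
          u ∈ X r.1) (A : Fin (k + 1)) (w : List (Fin m)) (h : G.D A w) : w ∈ X A.succ := by
  induction h with
  | @base A a h =>
    refine hX _ (hb A a h) [a] ?_
    intro α hα
    simp only [List.mem_singleton] at hα
    subst hα
    refine ⟨[[a]], by simp, ?_⟩
    refine List.Forall₂.cons ⟨?_, ?_⟩ List.Forall₂.nil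
    · intro t ht
      injection ht with ht
      rw [ht]
    · intro B hB
      exact absurd hB (by simp)
  | @rule A ρ w u v h hw hu hv ihu ihv =>
    refine hX _ (hr A ρ h) w ?_
    intro α hα
    simp only [List.mem_map] at hα
    obtain ⟨q, hq, rfl⟩ := hα
    refine ⟨[u q, v q], by simpa using hw q hq, ?_⟩
    refine List.Forall₂.cons ⟨?_, ?_⟩ (List.Forall₂.cons ⟨?_, ?_⟩ List.Forall₂.nil)
    · intro t ht
      exact absurd ht (by simp)
    · intro B hB
      injection hB with hB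
      rw [← hB]
      exact ihu q hq
    · intro t ht
      exact absurd ht (by simp)
    · intro B hB
      injection hB with hB
      rw [← hB]
      exact ihv q hq

theorem FroO_two {α β : Type*} {P : α → β → Prop} {a b : α} {ws : List β}
    (h : List.Forall₂ P [a, b] ws) : ∃ x y, ws = [x, y] ∧ P a x ∧ P b y := by
  cases h with
  | cons h1 h2 =>
    cases h2 with
    | cons h3 h4 =>
      cases h4
      exact ⟨_, _, rfl, h1, h3⟩

theorem FroO_one {α β : Type*} {P : α → β → Prop} {a : α} {ws : List β}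
    (h : List.Forall₂ P [a] ws) : ∃ x, ws = [x] ∧ P a x := by
  cases h with
  | cons h1 h2 =>
    cases h2
    exact ⟨_, rfl, h1⟩

theorem IsConj.fro {m : ℕ} {L : Set (List (Fin m))} (h : IsConj L) : Fro L := by
  obtain ⟨k, G, hG⟩ := h.bnf
  obtain ⟨R, hR⟩ := FroO_list G (([] : List (Fin m)) ∈ L)
  refine ⟨k + 2, 0, R, ?_, ?_⟩
  · intro r hr
    rcases (hR r).1 hr with ⟨A, a, h, h'⟩ | ⟨A, ρ, h, h'⟩ | h | ⟨hc, h⟩
    · rw [h']
      simp
    · rw [h']
      simpa using G.ne A ρ h
    · rw [h]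
      simp
    · rw [h]
      simp
  · intro w
    constructor
    · intro hw X hX
      by_cases h0 : w = []
      · subst h0
        refine hX (0, [[]]) ((hR _).2 (Or.inr (Or.inr (Or.inr ⟨hw, rfl⟩)))) [] ?_
        intro α hα
        simp only [List.mem_singleton] at hα
        subst hα
        exact ⟨[], by simp, List.Forall₂.nil⟩
      · have hD := (hG w h0).2 hw
        have h1 := FroO_D G R (fun A a h => (hR _).2 (Or.inl ⟨A, a, h, rfl⟩))
          (fun A ρ h => (hR _).2 (Or.inr (Or.inl ⟨A, ρ, h, rfl⟩))) X hX 0 w hD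
        refine hX (0, [[Symbol.nonterminal (Fin.succ 0)]])
          ((hR _).2 (Or.inr (Or.inr (Or.inl rfl)))) w ?_
        intro α hα
        simp only [List.mem_singleton] at hα
        subst hα
        refine ⟨[w], by simp, ?_⟩
        refine List.Forall₂.cons ⟨?_, ?_⟩ List.Forall₂.nil
        · intro t ht
          exact absurd ht (by simp)
        · intro B hB
          injection hB with hB
          rw [← hB]
          exact h1
    · intro hw
      let X : Fin (k + 2) → Set (List (Fin m)) :=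
        Fin.cases (motive := fun _ => Set (List (Fin m))) L (fun A => {w | G.D A w})
      have hX0 : X 0 = L := rfl
      have hXs : ∀ A : Fin (k + 1), X A.succ = {w | G.D A w} := fun A => rfl
      refine hw X ?_
      intro r hr u hu
      rcases (hR r).1 hr with ⟨A, a, h, rfl⟩ | ⟨A, ρ, h, rfl⟩ | rfl | ⟨hc, rfl⟩
      · obtain ⟨ws, hws, hf⟩ := hu [Symbol.terminal a] (by simp)
        obtain ⟨x, rfl, hx1, -⟩ := FroO_one hf
        have hx := hx1 a rfl
        subst hx
        rw [hXs]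
        have : u = [a] := by simpa using hws
        rw [this]
        exact Gr.D.base h
      · rw [hXs]
        have key : ∀ q : Fin (k + 1) × Fin (k + 1), ∃ x y : List (Fin m), q ∈ ρ →
            (u = x ++ y ∧ G.D q.1 x ∧ G.D q.2 y) := by
          intro q
          by_cases hq : q ∈ ρ
          · obtain ⟨ws, hws, hf⟩ := hu [Symbol.nonterminal q.1.succ, Symbol.nonterminal q.2.succ]
              (by
                simp only [List.mem_map]
                exact ⟨q, hq, rfl⟩)
            obtain ⟨x, y, rfl, hx, hy⟩ := FroO_two hf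
            refine ⟨x, y, fun _ => ⟨by simpa using hws, ?_, ?_⟩⟩
            · have := hx.2 _ rfl
              rw [hXs] at this
              exact this
            · have := hy.2 _ rfl
              rw [hXs] at this
              exact this
          · exact ⟨[], [], fun h => absurd h hq⟩
        choose x y hxy using key
        exact Gr.D.rule x y h (fun q hq => (hxy q hq).1) (fun q hq => (hxy q hq).2.1)
          (fun q hq => (hxy q hq).2.2)
      · obtain ⟨ws, hws, hf⟩ := hu [Symbol.nonterminal (Fin.succ 0)] (by simp)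
        obtain ⟨x, rfl, -, hx2⟩ := FroO_one hf
        have hx := hx2 _ rfl
        rw [hXs] at hx
        have hux : u = x := by simpa using hws
        subst hux
        rw [hX0]
        exact (hG u (Gr.D_ne_nil hx)).1 hx
      · obtain ⟨ws, hws, hf⟩ := hu [] (by simp)
        cases hf
        have : u = [] := by simpa using hws
        rw [this]
        exact hc

end Pool.Agent.H29.CJ

end S_FroO

section S_GrU

/-!
# Unfolding of `Gr.D` and unary grammars

`Gr.D_iff`: (→) cases; (←) choose functions `u v` classically (`if h : q ∈ ρ then ... else []`).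
`Gr.toUSys`: `T A n := G.D A (List.replicate n 0)`, `base A := G.base A 0`, same rules.  `T0` is
`Gr.D_ne_nil`.  `Tiff` is `D_iff` for `w = replicate m 0`: `[a] = replicate m 0 ↔ m = 1` (as `a = 0` in
`Fin 1`, `Subsingleton.elim`), and `replicate m 0 = u ++ v` iff `u = replicate m₁ 0`, `v = replicate m₂ 0`,
`m₁ + m₂ = m` (every list over `Fin 1` is `replicate` of its length).
-/

set_option autoImplicit false

namespace Pool.Agent.H29.CJ


theorem Gr.D_iff {α : Type} {K : ℕ} (G : Gr α K) (A : Fin K) (w : List α) :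
    G.D A w ↔ (∃ a, w = [a] ∧ G.base A a) ∨
      ∃ ρ ∈ G.rules A, ∀ p ∈ ρ, ∃ u v, w = u ++ v ∧ G.D p.1 u ∧ G.D p.2 v := by
  constructor
  · intro h
    cases h with
    | base h => exact Or.inl ⟨_, rfl, h⟩
    | rule u v h hw hu hv =>
      exact Or.inr ⟨_, h, fun p hp => ⟨u p, v p, hw p hp, hu p hp, hv p hp⟩⟩
  · rintro (⟨a, rfl, h⟩ | ⟨ρ, hρ, h⟩)
    · exact Gr.D.base h
    · have key : ∀ p : Fin K × Fin K, ∃ u v : List α, p ∈ ρ → (w = u ++ v ∧ G.D p.1 u ∧ G.D p.2 v) := by
        intro p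
        by_cases hp : p ∈ ρ
        · obtain ⟨u, v, huv⟩ := h p hp
          exact ⟨u, v, fun _ => huv⟩
        · exact ⟨[], [], fun hp' => absurd hp' hp⟩
      choose u v huv using key
      exact Gr.D.rule u v hρ (fun p hp => (huv p hp).1) (fun p hp => (huv p hp).2.1)
        (fun p hp => (huv p hp).2.2)

theorem GrU_rep (w : List (Fin 1)) : w = List.replicate w.length 0 := by
  refine List.eq_replicate_of_mem fun b _ => ?_
  exact Subsingleton.elim b 0

theorem Gr.toUSys {K : ℕ} (G : Gr (Fin 1) K) :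
    ∃ U : USys K, ∀ A n, U.T A n ↔ G.D A (List.replicate n 0) := by
  refine ⟨{ base := fun A => G.base A 0, rules := G.rules, ne := G.ne,
            T := fun A n => G.D A (List.replicate n 0), T0 := ?_, Tiff := ?_ }, fun A n => Iff.rfl⟩
  · intro A h
    exact Gr.D_ne_nil h rfl
  · intro A m
    rw [Gr.D_iff]
    constructor
    · rintro (⟨a, ha, hb⟩ | ⟨ρ, hρ, h⟩)
      · left
        have h1 := congrArg List.length ha
        rw [List.length_replicate, List.length_singleton] at h1
        refine ⟨h1, ?_⟩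
        have h2 : a = 0 := Subsingleton.elim a 0
        rw [h2] at hb
        exact hb
      · right
        refine ⟨ρ, hρ, fun p hp => ?_⟩
        obtain ⟨u, v, huv, hu, hv⟩ := h p hp
        refine ⟨u.length, v.length, ?_, ?_, ?_⟩
        · have h1 := congrArg List.length huv
          rw [List.length_replicate, List.length_append] at h1
          exact h1.symm
        · rw [← GrU_rep u]
          exact hu
        · rw [← GrU_rep v]
          exact hv
    · rintro (⟨rfl, hb⟩ | ⟨ρ, hρ, h⟩)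
      · exact Or.inl ⟨0, rfl, hb⟩
      · right
        refine ⟨ρ, hρ, fun p hp => ?_⟩
        obtain ⟨m₁, m₂, hm, h1, h2⟩ := h p hp
        refine ⟨List.replicate m₁ 0, List.replicate m₂ 0, ?_, h1, h2⟩
        rw [← hm, List.replicate_add]

end Pool.Agent.H29.CJ

end S_GrU

section S_Clos

/-!
# Consequence of the closure hypothesis: lengths of a conjunctive language

Use only the STATEMENTS of the imported files.

Let `e : α ≃ Fin m` (`Finite.equivFin`).  `L' = {w | w.map e.symm ∈ L}` is conjunctive (`IsConj.preimage`), so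
`Fro L'` (`IsConj.fro`).  Apply the hypothesis with `k = 1`, `h = fun _ => [0]`: the language
`{w | ∃ x ∈ L', w = x.flatMap h}` of words over `Fin 1` is `Fro`, so conjunctive (`Fro.isConj`); `IsConj.bnf` gives
`G : Gr (Fin 1) (k+1)`; `Gr.toUSys`.  For `n ≥ 1`: `replicate n 0 ≠ []`, and `replicate n 0 = x.flatMap h` iff
`x.length = n` (lists over `Fin 1` are equal iff their lengths are); `x.map e.symm` has the same length and
conversely `w ∈ L` gives `x = w.map e`.
-/

set_option autoImplicit false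

namespace Pool.Agent.H29.CJ

private theorem flatMap_zero {β : Type} (x : List β) :
    x.flatMap (fun _ => [(0 : Fin 1)]) = List.replicate x.length (0 : Fin 1) := by
  induction x with
  | nil => rfl
  | cons a x ih => simp [List.replicate_succ, ih]

theorem Closed.len {α : Type} [Finite α] (hC : Closed) {L : Set (List α)} (h : IsConj L) :
    ∃ (k : ℕ) (G : USys (k + 1)), ∀ n, 1 ≤ n → (G.T 0 n ↔ ∃ w ∈ L, w.length = n) := by
  obtain ⟨m, ⟨e⟩⟩ := Finite.exists_equiv_fin α
  have h1 : IsConj {w : List (Fin m) | w.map e.symm ∈ L} := IsConj.preimage e.symm h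
  have h2 := hC m 1 (fun _ => [(0 : Fin 1)]) (fun _ => by simp) _ h1.fro
  obtain ⟨k, G, hG⟩ := h2.isConj.bnf
  obtain ⟨U, hU⟩ := G.toUSys
  refine ⟨k, U, fun n hn => ?_⟩
  have hne : List.replicate n (0 : Fin 1) ≠ [] := by
    intro hh
    have := congrArg List.length hh
    simp at this
    omega
  rw [hU 0 n, hG _ hne]
  constructor
  · rintro ⟨x, hx, hxn⟩
    refine ⟨x.map e.symm, hx, ?_⟩
    rw [flatMap_zero] at hxn
    have := congrArg List.length hxn
    simp only [List.length_replicate] at this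
    simp [this]
  · rintro ⟨w, hw, hwn⟩
    refine ⟨w.map e, ?_, ?_⟩
    · change (w.map e).map e.symm ∈ L
      have : (w.map e).map e.symm = w := by simp [List.map_map]
      rw [this]
      exact hw
    · rw [flatMap_zero]
      simp [hwn]

end Pool.Agent.H29.CJ

end S_Clos

section S_Tab

/-!
# Under the closure hypothesis complements of unary conjunctive languages are conjunctive

Use only the STATEMENTS of the imported files.

Let `G : USys (k+1)`, `K = k + 1`, letters `β = Fin K → Bool` (finite).  Work classically.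
The table words: `Tb = {w : List β | ∀ t (h : t < w.length) A, (w[t] A = true ↔ G.T A (t + 1))}`.
For nonterminals `B, C`:
 `Cv B C = {u | ∃ i j, i + j + 1 = u.length ∧ u[i]? has B-bit true ∧ u[j]? has C-bit true}`
 (0-indexed: positions `i, j` correspond to lengths `i+1, j+1` with `(i+1) + (j+1) = u.length + 1`), and its
complement `Nc B C`.
(1) `Cv` is conjunctive: guarded solution (`isConj_of_sys`, `ι = Unit`) of
 `X = LC (B ∧ C) ∪ ⋃_{a b with (a B ∧ b C) ∨ (b B ∧ a C)} {[a]} univ {[b]} ∪ univ1 X univ1`, `univ1 = LC True`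
 (finite unions over letters by `Poly.exF`/`IsConj.exF` or write the middle term as
 `LC(B-bit) univ LC(C-bit) ∪ LC(C-bit) univ LC(B-bit)`).
(2) `Nc` is conjunctive: guarded solution of `X = {[]} ∪ LC ¬(B ∧ C) ∪ ⋃_{(a,b) allowed} {[a]} X {[b]}`, allowed:
 `¬(a B ∧ b C) ∧ ¬(b B ∧ a C)`; finite union over `β × β` with `Poly.exF` and `Poly.iteP`.
 For both: decompose a word of length `≥ 2` as `a :: (u ++ [b])`; the pair `(i, j)` with `i + j + 1 = length`
 is either an outer pair `(0, last)`/`(last, 0)` or an inner pair shifted by one.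
(3) For `v : β` let `Ok v = {u | ∀ A, (v A = true ↔ (u = [] ∧ G.base A) ∨ ∃ ρ ∈ G.rules A, ∀ p ∈ ρ, u ∈ Cv p.1 p.2)}`.
 It is conjunctive: `IsConj.allF` over `A`; if `v A = true` the condition is
 `{[]}`-part (`IsConj.iteP isConj_eps`) `∪ exL allL Cv`; if `v A = false` it is the complement:
 `(nonempty word or ¬ base) ∩ allL exL Nc` (nonempty words: `cat (LC True) univ`).
(4) `Tb` is conjunctive: guarded solution of `X = {[]} ∪ {w | ∃ v, w ∈ cat (X ∩ Ok v) {[v]}}` (`Poly.exF`).
 For `w = u ++ [v]`: `w ∈ Tb ↔ u ∈ Tb ∧ ∀ A, (v A ↔ G.T A (u.length + 1))`; and for `u ∈ Tb`: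
 `G.T A (u.length+1) ↔ (u = [] ∧ base A) ∨ ∃ ρ ∈ rules A, ∀ p ∈ ρ, u ∈ Cv p.1 p.2` by `G.Tiff`, `G.T0`
 (`m₁, m₂ ≥ 1`, `i = m₁ - 1`, `j = m₂ - 1`).
(5) `L = Tb ∩ cat univ (LC (fun v => v 0 = false))` is conjunctive, and it has a word of length `n ≥ 1` iff
 `¬ G.T 0 n` (the table word of length `n` exists and is unique: `List.ofFn`/`List.map` over `range n`).
 Apply `Closed.len`.
-/

set_option autoImplicit false

namespace Pool.Agent.H29.CJ

open Classical in
/-- The convolution language. -/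
private def CV {β : Type} (P Q : β → Prop) : Set (List β) :=
  {u | ∃ i j, i + j + 1 = u.length ∧ Is u i P ∧ Is u j Q}

private lemma Is_zero {β : Type} (a : β) (v : List β) (P : β → Prop) : Is (a :: v) 0 P ↔ P a := by
  simp [Is]

private lemma Is_succ {β : Type} (a b : β) (v : List β) (i : ℕ) (hi : i < v.length) (P : β → Prop) :
    Is (a :: (v ++ [b])) (i + 1) P ↔ Is v i P := by
  simp only [Is, List.getElem?_cons_succ]
  rw [List.getElem?_append_left hi]

private lemma Is_last {β : Type} (a b : β) (v : List β) (P : β → Prop) :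
    Is (a :: (v ++ [b])) (v.length + 1) P ↔ P b := by
  simp only [Is, List.getElem?_cons_succ]
  rw [List.getElem?_append_right le_rfl]
  simp

private lemma Is_lt {β : Type} {w : List β} {i : ℕ} {P : β → Prop} (h : Is w i P) : i < w.length := by
  obtain ⟨a, ha, -⟩ := h
  exact (List.getElem?_eq_some_iff.1 ha).1

private lemma CV_nil {β : Type} (P Q : β → Prop) : [] ∉ CV P Q := by
  rintro ⟨i, j, h, -⟩
  simp at h

private lemma CV_one {β : Type} (P Q : β → Prop) (a : β) : [a] ∈ CV P Q ↔ (P a ∧ Q a) := by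
  constructor
  · rintro ⟨i, j, h, h1, h2⟩
    have hi : i = 0 := by simp at h; omega
    have hj : j = 0 := by simp at h; omega
    subst hi; subst hj
    exact ⟨(Is_zero a [] P).1 h1, (Is_zero a [] Q).1 h2⟩
  · rintro ⟨h1, h2⟩
    exact ⟨0, 0, by simp, (Is_zero a [] P).2 h1, (Is_zero a [] Q).2 h2⟩

private lemma CV_two {β : Type} (P Q : β → Prop) (a b : β) (v : List β) :
    a :: (v ++ [b]) ∈ CV P Q ↔ ((P a ∧ Q b) ∨ (Q a ∧ P b) ∨ v ∈ CV P Q) := by
  constructor
  · rintro ⟨i, j, h, h1, h2⟩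
    simp only [List.length_cons, List.length_append, List.length_nil] at h
    rcases Nat.eq_zero_or_pos i with hi | hi
    · subst hi
      have hj : j = v.length + 1 := by omega
      subst hj
      exact Or.inl ⟨(Is_zero _ _ _).1 h1, (Is_last _ _ _ _).1 h2⟩
    · rcases Nat.eq_zero_or_pos j with hj | hj
      · subst hj
        have hi' : i = v.length + 1 := by omega
        subst hi'
        exact Or.inr (Or.inl ⟨(Is_zero _ _ _).1 h2, (Is_last _ _ _ _).1 h1⟩)
      · obtain ⟨i, rfl⟩ := Nat.exists_eq_succ_of_ne_zero hi.ne'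
        obtain ⟨j, rfl⟩ := Nat.exists_eq_succ_of_ne_zero hj.ne'
        refine Or.inr (Or.inr ⟨i, j, by omega, ?_, ?_⟩)
        · exact (Is_succ _ _ _ _ (by omega) _).1 h1
        · exact (Is_succ _ _ _ _ (by omega) _).1 h2
  · rintro (⟨h1, h2⟩ | ⟨h1, h2⟩ | ⟨i, j, h, h1, h2⟩)
    · exact ⟨0, v.length + 1, by simp, (Is_zero _ _ _).2 h1, (Is_last _ _ _ _).2 h2⟩
    · exact ⟨v.length + 1, 0, by simp, (Is_last _ _ _ _).2 h2, (Is_zero _ _ _).2 h1⟩
    · refine ⟨i + 1, j + 1, by simp; omega, ?_, ?_⟩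
      · exact (Is_succ _ _ _ _ (Is_lt h1) _).2 h1
      · exact (Is_succ _ _ _ _ (Is_lt h2) _).2 h2

private lemma word_cases {β : Type} (w : List β) :
    w = [] ∨ (∃ a, w = [a]) ∨ ∃ a v b, w = a :: (v ++ [b]) := by
  rcases w with _ | ⟨a, w⟩
  · exact Or.inl rfl
  · rcases List.eq_nil_or_concat w with rfl | ⟨v, b, rfl⟩
    · exact Or.inr (Or.inl ⟨a, rfl⟩)
    · exact Or.inr (Or.inr ⟨a, v, b, by simp⟩)

private lemma mem_LC1 {β : Type} (P : β → Prop) (a : β) : [a] ∈ LC P ↔ P a := by
  constructor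
  · rintro ⟨b, hb, h⟩
    simp at h
    exact h ▸ hb
  · intro h
    exact ⟨a, h, rfl⟩

private lemma isConj_CV {β : Type} [Finite β] (P Q : β → Prop) : IsConj (CV P Q) := by
  let Φ : Unit → (Unit → Set (List β)) → Set (List β) := fun _ X =>
    LC (fun a => P a ∧ Q a) ∪ (cat (LC P) (cat Set.univ (LC Q)) ∪ (cat (LC Q) (cat Set.univ (LC P)) ∪
      cat (LC fun _ => True) (cat (X ()) (LC fun _ => True))))
  have hΦ : ∀ i, Poly (Φ i) := fun _ =>
    Poly.union (Poly.cst _ (isConj_LC _)) (Poly.union (Poly.cst _ ((isConj_LC _).cat (isConj_univ.cat (isConj_LC _))))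
      (Poly.union (Poly.cst _ ((isConj_LC _).cat (isConj_univ.cat (isConj_LC _))))
        (Poly.cat (Poly.cst _ (isConj_LC _)) (Poly.cat (Poly.var ()) (Poly.cst _ (isConj_LC _))))))
  refine isConj_of_sys hΦ (fun _ => CV P Q) (fun _ => 0) ?_ ?_ ()
  · rintro - w (⟨a, h, rfl⟩ | ⟨_, ⟨a, ha, rfl⟩, _, ⟨v, -, _, ⟨b, hb, rfl⟩, rfl⟩, rfl⟩ |
      ⟨_, ⟨a, ha, rfl⟩, _, ⟨v, -, _, ⟨b, hb, rfl⟩, rfl⟩, rfl⟩ |
      ⟨_, ⟨a, -, rfl⟩, _, ⟨v, hv, _, ⟨b, -, rfl⟩, rfl⟩, rfl⟩)
    · exact (CV_one P Q a).2 h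
    · exact (CV_two P Q a b v).2 (Or.inl ⟨ha, hb⟩)
    · exact (CV_two P Q a b v).2 (Or.inr (Or.inl ⟨ha, hb⟩))
    · exact (CV_two P Q a b v).2 (Or.inr (Or.inr hv))
  · rintro - w hw
    rcases word_cases w with rfl | ⟨a, rfl⟩ | ⟨a, v, b, rfl⟩
    · exact absurd hw (CV_nil P Q)
    · exact Or.inl ⟨a, (CV_one P Q a).1 hw, rfl⟩
    · rcases (CV_two P Q a b v).1 hw with ⟨h1, h2⟩ | ⟨h1, h2⟩ | h
      · exact Or.inr (Or.inl ⟨[a], ⟨a, h1, rfl⟩, v ++ [b], ⟨v, Set.mem_univ _, [b], ⟨b, h2, rfl⟩, rfl⟩, rfl⟩)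
      · exact Or.inr (Or.inr (Or.inl
          ⟨[a], ⟨a, h1, rfl⟩, v ++ [b], ⟨v, Set.mem_univ _, [b], ⟨b, h2, rfl⟩, rfl⟩, rfl⟩))
      · exact Or.inr (Or.inr (Or.inr
          ⟨[a], ⟨a, trivial, rfl⟩, v ++ [b], ⟨v, ⟨h, Or.inl (by simp)⟩, [b], ⟨b, trivial, rfl⟩, rfl⟩, rfl⟩))

private lemma isConj_NCV {β : Type} [Finite β] (P Q : β → Prop) : IsConj {w | w ∉ CV P Q} := by
  let Φ : Unit → (Unit → Set (List β)) → Set (List β) := fun _ X =>
    {[]} ∪ (LC (fun a => ¬ (P a ∧ Q a)) ∪
      {w | ∃ c : β × β, w ∈ {w | (¬ (P c.1 ∧ Q c.2) ∧ ¬ (Q c.1 ∧ P c.2)) ∧ w ∈ cat {[c.1]} (cat (X ()) {[c.2]})}})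
  have hΦ : ∀ i, Poly (Φ i) := fun _ =>
    Poly.union (Poly.cst _ isConj_eps) (Poly.union (Poly.cst _ (isConj_LC _))
      (Poly.exF fun c => Poly.iteP (Poly.cat (Poly.cst _ (isConj_sym _)) (Poly.cat (Poly.var ()) (Poly.cst _ (isConj_sym _)))) _))
  refine isConj_of_sys hΦ (fun _ => {w | w ∉ CV P Q}) (fun _ => 0) ?_ ?_ ()
  · rintro - w (h | ⟨a, h, rfl⟩ | ⟨⟨a, b⟩, ⟨h1, h2⟩, _, rfl, _, ⟨v, hv, _, rfl, rfl⟩, rfl⟩)
    · have : w = [] := h
      subst this
      exact CV_nil P Q
    · exact fun h' => h ((CV_one P Q a).1 h')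
    · intro h'
      rcases (CV_two P Q a b v).1 h' with h3 | h3 | h3
      · exact h1 h3
      · exact h2 h3
      · exact hv h3
  · rintro - w hw
    rcases word_cases w with rfl | ⟨a, rfl⟩ | ⟨a, v, b, rfl⟩
    · exact Or.inl rfl
    · exact Or.inr (Or.inl ⟨a, fun h => hw ((CV_one P Q a).2 h), rfl⟩)
    · refine Or.inr (Or.inr ⟨(a, b), ⟨⟨fun h => hw ((CV_two P Q a b v).2 (Or.inl h)),
        fun h => hw ((CV_two P Q a b v).2 (Or.inr (Or.inl h)))⟩, [a], rfl, v ++ [b],
        ⟨v, ⟨fun h => hw ((CV_two P Q a b v).2 (Or.inr (Or.inr h))), Or.inl (by simp)⟩, [b], rfl, rfl⟩, rfl⟩⟩)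

section Tab

variable {k : ℕ} (G : USys (k + 1))

private def Bt (B : Fin (k + 1)) : (Fin (k + 1) → Bool) → Prop := fun v => v B = true

private def RA (A : Fin (k + 1)) : Set (List (Fin (k + 1) → Bool)) :=
  {u | (u = [] ∧ G.base A) ∨ ∃ ρ ∈ G.rules A, ∀ p ∈ ρ, u ∈ CV (Bt p.1) (Bt p.2)}

private lemma isConj_RA (A : Fin (k + 1)) : IsConj (RA G A) := by
  have h1 : IsConj {w : List (Fin (k + 1) → Bool) | G.base A ∧ w ∈ ({[]} : Set _)} := isConj_eps.iteP _
  have h2 : IsConj {w : List (Fin (k + 1) → Bool) | ∃ ρ ∈ G.rules A, w ∈ {w | ∀ p ∈ ρ, w ∈ CV (Bt p.1) (Bt p.2)}} :=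
    IsConj.exL _ fun ρ _ => IsConj.allL _ fun p _ => isConj_CV _ _
  have h3 : RA G A = {w : List (Fin (k + 1) → Bool) | G.base A ∧ w ∈ ({[]} : Set _)} ∪
      {w : List (Fin (k + 1) → Bool) | ∃ ρ ∈ G.rules A, w ∈ {w | ∀ p ∈ ρ, w ∈ CV (Bt p.1) (Bt p.2)}} := by
    ext w
    simp only [RA, Set.mem_ofPred_eq, Set.mem_union, Set.mem_singleton_iff]
    rw [and_comm (a := w = [])]
  rw [h3]
  exact h1.union h2

private lemma isConj_NRA (A : Fin (k + 1)) : IsConj {w | w ∉ RA G A} := by
  have h1 : IsConj {w : List (Fin (k + 1) → Bool) | ¬ G.base A ∧ w ∈ (Set.univ : Set _)} := isConj_univ.iteP _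
  have h1' : IsConj (cat (LC fun _ : Fin (k + 1) → Bool => True) Set.univ) := (isConj_LC _).cat isConj_univ
  have h2 : IsConj {w : List (Fin (k + 1) → Bool) | ∀ ρ ∈ G.rules A, w ∈ {w | ∃ p ∈ ρ, w ∈ {w | w ∉ CV (Bt p.1) (Bt p.2)}}} :=
    IsConj.allL _ fun ρ _ => IsConj.exL _ fun p _ => isConj_NCV _ _
  have h3 : {w | w ∉ RA G A} = ({w : List (Fin (k + 1) → Bool) | ¬ G.base A ∧ w ∈ (Set.univ : Set _)} ∪
      cat (LC fun _ : Fin (k + 1) → Bool => True) Set.univ) ∩
      {w : List (Fin (k + 1) → Bool) | ∀ ρ ∈ G.rules A, w ∈ {w | ∃ p ∈ ρ, w ∈ {w | w ∉ CV (Bt p.1) (Bt p.2)}}} := by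
    ext w
    have hne : w ∈ cat (LC fun _ : Fin (k + 1) → Bool => True) Set.univ ↔ w ≠ [] := by
      constructor
      · rintro ⟨_, ⟨a, -, rfl⟩, v, -, rfl⟩
        simp
      · intro h
        rcases w with _ | ⟨a, w⟩
        · exact absurd rfl h
        · exact ⟨[a], ⟨a, trivial, rfl⟩, w, Set.mem_univ _, rfl⟩
    rw [Set.mem_inter_iff, Set.mem_union, hne]
    simp only [RA, Set.mem_ofPred_eq, Set.mem_univ, and_true, not_or, not_and, not_exists, not_forall]
    constructor
    · rintro ⟨h1, h2⟩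
      refine ⟨?_, fun ρ hρ => ?_⟩
      · by_cases hw : w = []
        · exact Or.inl (h1 hw)
        · exact Or.inr hw
      · obtain ⟨p, hp, h⟩ := h2 ρ hρ
        exact ⟨p, hp, h⟩
    · rintro ⟨h1, h2⟩
      refine ⟨fun hw => ?_, fun ρ hρ => ?_⟩
      · rcases h1 with h | h
        · exact h
        · exact absurd hw h
      · obtain ⟨p, hp, h⟩ := h2 ρ hρ
        exact ⟨p, hp, h⟩
  rw [h3]
  exact (h1.union h1').inter h2

private def Okv (v : Fin (k + 1) → Bool) : Set (List (Fin (k + 1) → Bool)) :=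
  {u | ∀ A, (v A = true ↔ u ∈ RA G A)}

private lemma isConj_Okv (v : Fin (k + 1) → Bool) : IsConj (Okv G v) := by
  refine IsConj.allF (L := fun A => {u | v A = true ↔ u ∈ RA G A}) fun A => ?_
  by_cases h : v A = true
  · have : {u | v A = true ↔ u ∈ RA G A} = RA G A := by
      ext u; simp [h]
    rw [this]
    exact isConj_RA G A
  · have : {u | v A = true ↔ u ∈ RA G A} = {u | u ∉ RA G A} := by
      ext u; simp [h]
    rw [this]
    exact isConj_NRA G A

private def Tb : Set (List (Fin (k + 1) → Bool)) :=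
  {w | ∀ t a, w[t]? = some a → ∀ A, (a A = true ↔ G.T A (t + 1))}

private lemma Tb_Is {u : List (Fin (k + 1) → Bool)} (hu : u ∈ Tb G) {i : ℕ} (hi : i < u.length)
    (B : Fin (k + 1)) : Is u i (Bt B) ↔ G.T B (i + 1) := by
  have h1 : u[i]? = some u[i] := List.getElem?_eq_getElem hi
  have h2 := hu i _ h1 B
  constructor
  · rintro ⟨a, ha, hB⟩
    rw [h1] at ha
    injection ha with ha
    subst ha
    exact h2.1 hB
  · intro h
    exact ⟨_, h1, h2.2 h⟩

private lemma Tb_RA {u : List (Fin (k + 1) → Bool)} (hu : u ∈ Tb G) (A : Fin (k + 1)) :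
    G.T A (u.length + 1) ↔ u ∈ RA G A := by
  rw [G.Tiff]
  have e1 : (u.length + 1 = 1 ∧ G.base A) ↔ (u = [] ∧ G.base A) := by
    simp
  have e2 : ∀ p : Fin (k + 1) × Fin (k + 1),
      (∃ m₁ m₂, m₁ + m₂ = u.length + 1 ∧ G.T p.1 m₁ ∧ G.T p.2 m₂) ↔ u ∈ CV (Bt p.1) (Bt p.2) := by
    intro p
    constructor
    · rintro ⟨m₁, m₂, h, h1, h2⟩
      have hm1 : m₁ ≠ 0 := fun h0 => G.T0 _ (h0 ▸ h1)
      have hm2 : m₂ ≠ 0 := fun h0 => G.T0 _ (h0 ▸ h2)
      obtain ⟨i, rfl⟩ := Nat.exists_eq_succ_of_ne_zero hm1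
      obtain ⟨j, rfl⟩ := Nat.exists_eq_succ_of_ne_zero hm2
      exact ⟨i, j, by omega, (Tb_Is G hu (by omega) _).2 h1, (Tb_Is G hu (by omega) _).2 h2⟩
    · rintro ⟨i, j, h, h1, h2⟩
      exact ⟨i + 1, j + 1, by omega, (Tb_Is G hu (Is_lt h1) _).1 h1, (Tb_Is G hu (Is_lt h2) _).1 h2⟩
  rw [e1]
  simp only [e2]
  rfl

private lemma Tb_snoc (u : List (Fin (k + 1) → Bool)) (v : Fin (k + 1) → Bool) :
    u ++ [v] ∈ Tb G ↔ u ∈ Tb G ∧ ∀ A, (v A = true ↔ G.T A (u.length + 1)) := by
  constructor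
  · intro h
    refine ⟨fun t a ha A => ?_, fun A => ?_⟩
    · have hlt : t < u.length := (List.getElem?_eq_some_iff.1 ha).1
      exact h t a (by rw [List.getElem?_append_left hlt]; exact ha) A
    · exact h u.length v (by simp) A
  · rintro ⟨h1, h2⟩ t a ha A
    rcases lt_trichotomy t u.length with hlt | rfl | hgt
    · rw [List.getElem?_append_left hlt] at ha
      exact h1 t a ha A
    · simp at ha
      subst ha
      exact h2 A
    · have := (List.getElem?_eq_some_iff.1 ha).1
      simp at this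
      omega

private lemma Tb_snoc' (u : List (Fin (k + 1) → Bool)) (v : Fin (k + 1) → Bool) :
    u ++ [v] ∈ Tb G ↔ u ∈ Tb G ∧ u ∈ Okv G v := by
  rw [Tb_snoc]
  constructor
  · rintro ⟨h1, h2⟩
    exact ⟨h1, fun A => (h2 A).trans (Tb_RA G h1 A)⟩
  · rintro ⟨h1, h2⟩
    exact ⟨h1, fun A => (h2 A).trans (Tb_RA G h1 A).symm⟩

private lemma Tb_nil : [] ∈ Tb G := by
  intro t a h
  simp at h

private lemma isConj_Tb : IsConj (Tb G) := by
  let Φ : Unit → (Unit → Set (List (Fin (k + 1) → Bool))) → Set (List (Fin (k + 1) → Bool)) := fun _ X =>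
    {[]} ∪ {w | ∃ v : Fin (k + 1) → Bool, w ∈ cat (X () ∩ Okv G v) {[v]}}
  have hΦ : ∀ i, Poly (Φ i) := fun _ =>
    Poly.union (Poly.cst _ isConj_eps) (Poly.exF fun v =>
      Poly.cat (Poly.inter (Poly.var ()) (Poly.cst _ (isConj_Okv G v))) (Poly.cst _ (isConj_sym v)))
  refine isConj_of_sys hΦ (fun _ => Tb G) (fun _ => 0) ?_ ?_ ()
  · rintro - w (h | ⟨v, u, ⟨h1, h2⟩, _, rfl, rfl⟩)
    · have : w = [] := h
      subst this
      exact Tb_nil G
    · exact (Tb_snoc' G u v).2 ⟨h1, h2⟩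
  · rintro - w hw
    rcases List.eq_nil_or_concat w with rfl | ⟨u, v, rfl⟩
    · exact Or.inl rfl
    · rw [List.concat_eq_append] at hw ⊢
      have h := (Tb_snoc' G u v).1 hw
      exact Or.inr ⟨v, u, ⟨⟨h.1, Or.inl (by simp)⟩, h.2⟩, [v], rfl, rfl⟩

open Classical in
private noncomputable def tw : ℕ → List (Fin (k + 1) → Bool)
  | 0 => []
  | n + 1 => tw n ++ [fun A => decide (G.T A (n + 1))]

private lemma tw_len (n : ℕ) : (tw G n).length = n := by
  induction n with
  | zero => rfl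
  | succ n ih => simp [tw, ih]

private lemma tw_mem (n : ℕ) : tw G n ∈ Tb G := by
  induction n with
  | zero => exact Tb_nil G
  | succ n ih =>
    rw [tw, Tb_snoc]
    refine ⟨ih, fun A => ?_⟩
    rw [tw_len]
    simp

end Tab

theorem USys.compl (hC : Closed) {k : ℕ} (G : USys (k + 1)) :
    ∃ (k' : ℕ) (G' : USys (k' + 1)), ∀ n, 1 ≤ n → (G'.T 0 n ↔ ¬ G.T 0 n) := by
  have hL : IsConj (Tb G ∩ cat Set.univ (LC fun v : Fin (k + 1) → Bool => v 0 = false)) :=
    (isConj_Tb G).inter (isConj_univ.cat (isConj_LC _))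
  obtain ⟨k', G', h⟩ := hC.len hL
  refine ⟨k', G', fun n hn => (h n hn).trans ?_⟩
  constructor
  · rintro ⟨_, ⟨hw, u, -, _, ⟨v, hv, rfl⟩, rfl⟩, rfl⟩ hT
    have h1 := ((Tb_snoc G u v).1 hw).2 0
    simp only [List.length_append, List.length_cons, List.length_nil, zero_add] at hT
    have h2 := h1.2 hT
    rw [hv] at h2
    exact Bool.false_ne_true h2
  · intro hT
    obtain ⟨m, rfl⟩ := Nat.exists_eq_succ_of_ne_zero (by omega : n ≠ 0)
    refine ⟨tw G (m + 1), ⟨tw_mem G (m + 1), tw G m, Set.mem_univ _, _, ⟨_, ?_, rfl⟩, rfl⟩, tw_len G (m + 1)⟩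
    simpa using hT

end Pool.Agent.H29.CJ

end S_Tab
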