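import Mathlib
import Pool.Agent.H29.CL.M1

/-! Conjunctive languages and homomorphisms, part M3: this file joins several modules to save build time. -/

section S_AtL

/-!
# Library for segments `At w L i j`

All proofs are routine list manipulations.  `seg w i j = (w.take j).drop i`.
Key lemma: for `i ≤ k ≤ j`: `seg w i j = seg w i k ++ seg w k j`, and conversely if
`seg w i j = u ++ v` (with `i ≤ j ≤ w.length`) then `u = seg w i k`, `v = seg w k j` with `k = i + u.length`.
`Is w i P ↔ ∃ a, w[i]? = some a ∧ P a`.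
-/

set_option autoImplicit false

namespace Pool.Agent.H29.CJ

variable {α β : Type} {w : List α} {i j k : ℕ}

theorem seg_append (h : i ≤ k) (h' : k ≤ j) (w : List α) : seg w i j = seg w i k ++ seg w k j := by
  have e : w.take j = w.take k ++ (w.take j).drop k := by
    conv_lhs => rw [← List.take_append_drop k (w.take j)]
    rw [List.take_take, min_eq_left h']
  unfold seg
  conv_lhs => rw [e]
  rw [List.drop_append]
  congr 1
  rcases Nat.lt_or_ge w.length k with hk | hk
  · have : (w.take j).drop k = [] := by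
      apply List.drop_eq_nil_of_le
      rw [List.length_take]
      omega
    rw [this, List.drop_nil]
  · have : i - (w.take k).length = 0 := by
      rw [List.length_take]
      omega
    rw [this, List.drop_zero]

theorem length_seg (h : i ≤ j) (h' : j ≤ w.length) : (seg w i j).length = j - i := by
  unfold seg
  rw [List.length_drop, List.length_take]
  omega

theorem getElem?_seg (t : ℕ) : (seg w i j)[t]? = if i + t < j then w[i + t]? else none := by
  unfold seg
  rw [List.getElem?_drop, List.getElem?_take]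

theorem seg_full (w : List α) : seg w 0 w.length = w := by
  simp [seg]

theorem atl_seg_self (w : List α) (i : ℕ) : seg w i i = [] := by
  unfold seg
  apply List.drop_eq_nil_of_le
  rw [List.length_take]
  omega

theorem atl_seg_one {a : α} (h : w[i]? = some a) : seg w i (i + 1) = [a] := by
  apply List.ext_getElem?
  intro t
  rw [getElem?_seg]
  cases t with
  | zero => simp [h]
  | succ t =>
    rw [if_neg (by omega)]
    simp

/-- A factorisation of a segment is a factorisation at a position. -/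
theorem atl_seg_split {u v : List α} (h : i ≤ j) (h' : j ≤ w.length) (e : seg w i j = u ++ v) :
    i + u.length ≤ j ∧ seg w i (i + u.length) = u ∧ seg w (i + u.length) j = v := by
  have hl : u.length + v.length = j - i := by
    rw [← List.length_append, ← e, length_seg h h']
  have hk : i + u.length ≤ j := by omega
  refine ⟨hk, ?_⟩
  rw [seg_append (Nat.le_add_right i u.length) hk w] at e
  have hlen : (seg w i (i + u.length)).length = u.length := by
    rw [length_seg (by omega) (by omega)]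
    omega
  exact List.append_inj e hlen

theorem At.le {L : Set (List α)} (h : At w L i j) : i ≤ j := h.1

theorem At.le_length {L : Set (List α)} (h : At w L i j) : j ≤ w.length := h.2.1

theorem At.mono {L M : Set (List α)} (hLM : L ⊆ M) (h : At w L i j) : At w M i j :=
  ⟨h.1, h.2.1, hLM h.2.2⟩

theorem at_full {L : Set (List α)} : At w L 0 w.length ↔ w ∈ L := by
  simp [At, seg_full]

theorem at_univ : At w Set.univ i j ↔ i ≤ j ∧ j ≤ w.length := by
  simp [At]

theorem at_inter {L M : Set (List α)} : At w (L ∩ M) i j ↔ At w L i j ∧ At w M i j := by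
  constructor
  · rintro ⟨h1, h2, h3, h4⟩
    exact ⟨⟨h1, h2, h3⟩, ⟨h1, h2, h4⟩⟩
  · rintro ⟨⟨h1, h2, h3⟩, ⟨_, _, h4⟩⟩
    exact ⟨h1, h2, h3, h4⟩

theorem at_union {L M : Set (List α)} : At w (L ∪ M) i j ↔ At w L i j ∨ At w M i j := by
  constructor
  · rintro ⟨h1, h2, h3 | h4⟩
    · exact Or.inl ⟨h1, h2, h3⟩
    · exact Or.inr ⟨h1, h2, h4⟩
  · rintro (⟨h1, h2, h3⟩ | ⟨h1, h2, h4⟩)
    · exact ⟨h1, h2, Or.inl h3⟩
    · exact ⟨h1, h2, Or.inr h4⟩

theorem at_eps : At w {[]} i j ↔ i = j ∧ j ≤ w.length := by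
  constructor
  · rintro ⟨h1, h2, h3⟩
    have h4 : seg w i j = [] := h3
    have h5 : j - i = 0 := by rw [← length_seg h1 h2, h4, List.length_nil]
    exact ⟨by omega, h2⟩
  · rintro ⟨rfl, h2⟩
    exact ⟨le_rfl, h2, atl_seg_self w i⟩

theorem at_cat {L M : Set (List α)} :
    At w (cat L M) i j ↔ ∃ k, At w L i k ∧ At w M k j := by
  constructor
  · rintro ⟨h1, h2, u, hu, v, hv, e⟩
    obtain ⟨h3, h4, h5⟩ := atl_seg_split h1 h2 e
    refine ⟨i + u.length, ⟨by omega, by omega, ?_⟩, ⟨h3, h2, ?_⟩⟩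
    · rw [h4]; exact hu
    · rw [h5]; exact hv
  · rintro ⟨k, ⟨a1, a2, a3⟩, ⟨b1, b2, b3⟩⟩
    exact ⟨a1.trans b1, b2, seg w i k, a3, seg w k j, b3, seg_append a1 b1 w⟩

theorem Is.lt {P : α → Prop} (h : Is w i P) : i < w.length := by
  obtain ⟨a, ha, _⟩ := h
  obtain ⟨h, _⟩ := List.getElem?_eq_some_iff.1 ha
  exact h

theorem Is.mono {P Q : α → Prop} (hPQ : ∀ a, P a → Q a) (h : Is w i P) : Is w i Q := by
  obtain ⟨a, ha, hP⟩ := h
  exact ⟨a, ha, hPQ a hP⟩

theorem Is.and {P Q : α → Prop} (h : Is w i P) (h' : Is w i Q) : Is w i (fun a => P a ∧ Q a) := by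
  obtain ⟨a, ha, hP⟩ := h
  obtain ⟨b, hb, hQ⟩ := h'
  obtain rfl : a = b := by rw [ha] at hb; exact Option.some.inj hb
  exact ⟨a, ha, hP, hQ⟩

theorem at_LC {P : α → Prop} : At w (LC P) i j ↔ j = i + 1 ∧ Is w i P := by
  constructor
  · rintro ⟨h1, h2, a, hP, e⟩
    have h5 : j - i = 1 := by rw [← length_seg h1 h2, e, List.length_singleton]
    refine ⟨by omega, a, ?_, hP⟩
    have h6 := getElem?_seg (w := w) (i := i) (j := j) 0
    rw [e, if_pos (by omega)] at h6
    simpa using h6.symm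
  · rintro ⟨rfl, h⟩
    have hl := h.lt
    obtain ⟨a, ha, hP⟩ := h
    exact ⟨by omega, by omega, a, hP, atl_seg_one ha⟩

theorem at_ST {P : α → Prop} :
    At w (ST P) i j ↔ i ≤ j ∧ j ≤ w.length ∧ ∀ t, i ≤ t → t < j → Is w t P := by
  constructor
  · rintro ⟨h1, h2, h3⟩
    refine ⟨h1, h2, fun t ht1 ht2 => ?_⟩
    have hlt : t < w.length := by omega
    refine ⟨w[t], List.getElem?_eq_getElem hlt, h3 _ ?_⟩
    rw [List.mem_iff_getElem?]
    refine ⟨t - i, ?_⟩
    rw [getElem?_seg, if_pos (by omega), Nat.add_sub_cancel' ht1]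
    exact List.getElem?_eq_getElem hlt
  · rintro ⟨h1, h2, h3⟩
    refine ⟨h1, h2, fun a ha => ?_⟩
    obtain ⟨t, ht⟩ := List.mem_iff_getElem?.1 ha
    rw [getElem?_seg] at ht
    by_cases hc : i + t < j
    · rw [if_pos hc] at ht
      obtain ⟨b, hb, hP⟩ := h3 (i + t) (by omega) hc
      rw [ht] at hb
      obtain rfl : a = b := Option.some.inj hb
      exact hP
    · rw [if_neg hc] at ht
      cases ht

theorem atl_wt_append (f : α → ℤ) (u v : List α) : wt f (u ++ v) = wt f u + wt f v := by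
  simp [wt]

theorem atl_wt_seg (f : α → ℤ) (h : i ≤ j) (w : List α) : wt f (seg w i j) = pre f w j - pre f w i := by
  have h1 : seg w 0 j = seg w 0 i ++ seg w i j := seg_append (Nat.zero_le i) h w
  have h2 : w.take j = w.take i ++ seg w i j := h1
  unfold pre
  rw [h2, atl_wt_append]
  ring

theorem at_WT {f : α → ℤ} {c : ℤ} :
    At w (WT f c) i j ↔ i ≤ j ∧ j ≤ w.length ∧ pre f w j - pre f w i = c := by
  constructor
  · rintro ⟨h1, h2, h3⟩
    refine ⟨h1, h2, ?_⟩
    rw [← atl_wt_seg f h1 w]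
    exact h3
  · rintro ⟨h1, h2, h3⟩
    refine ⟨h1, h2, ?_⟩
    rw [← atl_wt_seg f h1 w] at h3
    exact h3

theorem at_pw {L : Set (List α)} {n : ℕ} :
    At w (pw L n) i j ↔ j ≤ w.length ∧
      ∃ p : ℕ → ℕ, p 0 = i ∧ p n = j ∧ ∀ t < n, At w L (p t) (p (t + 1)) := by
  induction n generalizing i with
  | zero =>
    constructor
    · intro h
      obtain ⟨rfl, h2⟩ := at_eps.1 h
      exact ⟨h2, fun _ => i, rfl, rfl, fun t ht => absurd ht (Nat.not_lt_zero t)⟩
    · rintro ⟨h2, p, p0, pn, _⟩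
      exact at_eps.2 ⟨p0.symm.trans pn, h2⟩
  | succ n ih =>
    constructor
    · intro h
      obtain ⟨k, h1, h2⟩ := at_cat.1 h
      obtain ⟨h3, p, p0, pn, hp⟩ := ih.1 h2
      refine ⟨h3, fun t => Nat.casesOn t i p, rfl, pn, fun t ht => ?_⟩
      cases t with
      | zero =>
        show At w L i (p 0)
        rw [p0]
        exact h1
      | succ t =>
        exact hp t (by omega)
    · rintro ⟨h3, p, p0, pn, hp⟩
      refine at_cat.2 ⟨p 1, ?_, ih.2 ⟨h3, fun t => p (t + 1), rfl, pn, fun t ht => ?_⟩⟩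
      · rw [← p0]
        exact hp 0 (by omega)
      · exact hp (t + 1) (by omega)

theorem at_pw_succ {L : Set (List α)} {n : ℕ} :
    At w (pw L (n + 1)) i j ↔ ∃ k, At w L i k ∧ At w (pw L n) k j := at_cat

theorem at_pw_succ' {L : Set (List α)} {n : ℕ} :
    At w (pw L (n + 1)) i j ↔ ∃ k, At w (pw L n) i k ∧ At w L k j := by
  constructor
  · intro h
    obtain ⟨h3, p, p0, pn, hp⟩ := at_pw.1 h
    have h4 := hp n (by omega)
    refine ⟨p n, at_pw.2 ⟨h4.le.trans h4.le_length, p, p0, rfl, fun t ht => hp t (by omega)⟩, ?_⟩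
    rw [← pn]
    exact h4
  · rintro ⟨k, h1, h2⟩
    obtain ⟨h3, p, p0, pn, hp⟩ := at_pw.1 h1
    refine at_pw.2 ⟨h2.le_length, fun t => if t ≤ n then p t else j, ?_, ?_, fun t ht => ?_⟩
    · show (if 0 ≤ n then p 0 else j) = i
      rw [if_pos (Nat.zero_le n)]
      exact p0
    · show (if n + 1 ≤ n then p (n + 1) else j) = j
      rw [if_neg (by omega)]
    · show At w L (if t ≤ n then p t else j) (if t + 1 ≤ n then p (t + 1) else j)
      rw [if_pos (by omega)]
      by_cases hc : t + 1 ≤ n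
      · rw [if_pos hc]
        exact hp t (by omega)
      · rw [if_neg hc]
        obtain rfl : t = n := by omega
        rw [pn]
        exact h2

theorem at_pw_LC {P : α → Prop} {n : ℕ} :
    At w (pw (LC P) n) i j ↔ j = i + n ∧ j ≤ w.length ∧ ∀ t, i ≤ t → t < j → Is w t P := by
  induction n generalizing i with
  | zero =>
    constructor
    · intro h
      obtain ⟨rfl, h2⟩ := at_eps.1 h
      exact ⟨rfl, h2, fun t h3 h4 => by omega⟩
    · rintro ⟨h1, h2, _⟩
      exact at_eps.2 ⟨h1.symm, h2⟩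
  | succ n ih =>
    constructor
    · intro h
      obtain ⟨k, h1, h2⟩ := at_cat.1 h
      obtain ⟨rfl, h4⟩ := at_LC.1 h1
      obtain ⟨h5, h6, h7⟩ := ih.1 h2
      refine ⟨by omega, h6, fun t ht1 ht2 => ?_⟩
      rcases Nat.eq_or_lt_of_le ht1 with rfl | hlt
      · exact h4
      · exact h7 t hlt ht2
    · rintro ⟨h1, h2, h3⟩
      exact at_cat.2 ⟨i + 1, at_LC.2 ⟨rfl, h3 i le_rfl (by omega)⟩,
        ih.2 ⟨by omega, h2, fun t ht1 ht2 => h3 t (by omega) ht2⟩⟩

theorem at_Sync {U Z V : Set (List α)} :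
    At w (Sync U Z V) i j ↔
      ∃ k i' j', At w (pw U k) i i' ∧ At w Z i' j' ∧ At w (pw V k) j' j := by
  constructor
  · rintro ⟨h1, h2, k, h3⟩
    have h4 : At w (cat (pw U k) (cat Z (pw V k))) i j := ⟨h1, h2, h3⟩
    obtain ⟨i', h5, h6⟩ := at_cat.1 h4
    obtain ⟨j', h7, h8⟩ := at_cat.1 h6
    exact ⟨k, i', j', h5, h7, h8⟩
  · rintro ⟨k, i', j', h5, h7, h8⟩
    obtain ⟨h1, h2, h3⟩ := at_cat.2 ⟨i', h5, at_cat.2 ⟨j', h7, h8⟩⟩
    exact ⟨h1, h2, k, h3⟩

theorem at_Sync_LC {P Q : α → Prop} {Z : Set (List α)} :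
    At w (Sync (LC P) Z (LC Q)) i j ↔
      ∃ k j', j = j' + k ∧ j ≤ w.length ∧ At w Z (i + k) j' ∧
        (∀ t, i ≤ t → t < i + k → Is w t P) ∧ (∀ t, j' ≤ t → t < j → Is w t Q) := by
  constructor
  · intro h
    obtain ⟨k, i', j', h1, h2, h3⟩ := at_Sync.1 h
    obtain ⟨rfl, h5, h6⟩ := at_pw_LC.1 h1
    obtain ⟨h7, h8, h9⟩ := at_pw_LC.1 h3
    exact ⟨k, j', h7, h8, h2, h6, h9⟩
  · rintro ⟨k, j', h7, h8, h2, h6, h9⟩
    exact at_Sync.2 ⟨k, i + k, j',
      at_pw_LC.2 ⟨rfl, h2.le.trans h2.le_length, h6⟩, h2, at_pw_LC.2 ⟨h7, h8, h9⟩⟩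

theorem atl_seg_cons {a : α} {t : ℕ} (h : w[t]? = some a) (h' : t < j) :
    seg w t j = a :: seg w (t + 1) j := by
  rw [seg_append (Nat.le_succ t) h' w, atl_seg_one h]
  rfl

theorem at_AllPre {P : α → Prop} {L : Set (List α)} :
    At w (AllPre P L) i j ↔ i ≤ j ∧ j ≤ w.length ∧
      ∀ t, i ≤ t → t < j → Is w t P → At w L i (t + 1) := by
  constructor
  · rintro ⟨h1, h2, h3⟩
    refine ⟨h1, h2, fun t ht1 ht2 hP => ?_⟩
    obtain ⟨a, ha, hPa⟩ := hP
    refine ⟨by omega, by omega, ?_⟩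
    rw [seg_append ht1 (Nat.le_succ t) w, atl_seg_one ha]
    refine h3 (seg w i t) a (seg w (t + 1) j) ?_ hPa
    rw [seg_append ht1 ht2.le w, atl_seg_cons ha ht2]
  · rintro ⟨h1, h2, h3⟩
    refine ⟨h1, h2, fun p a q e hPa => ?_⟩
    obtain ⟨g1, g2, g3⟩ := atl_seg_split h1 h2 e
    have e' : seg w i j = (p ++ [a]) ++ q := by
      rw [e, List.append_assoc]
      rfl
    obtain ⟨g4, g5, g6⟩ := atl_seg_split h1 h2 e'
    have hl : (p ++ [a]).length = p.length + 1 := by simp
    rw [hl] at g4 g5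
    have h6 := getElem?_seg (w := w) (i := i + p.length) (j := j) 0
    rw [g3, if_pos (by omega)] at h6
    have h7 : w[i + p.length]? = some a := by simpa using h6.symm
    have h8 := h3 (i + p.length) (by omega) (by omega) ⟨a, h7, hPa⟩
    have h9 := h8.2.2
    rw [Nat.add_assoc, g5] at h9
    exact h9

theorem at_AllSuf {P : α → Prop} {L : Set (List α)} :
    At w (AllSuf P L) i j ↔ i ≤ j ∧ j ≤ w.length ∧
      ∀ t, i ≤ t → t < j → (∀ s, i ≤ s → s < t → Is w s P) → At w L t j := by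
  constructor
  · rintro ⟨h1, h2, h3⟩
    refine ⟨h1, h2, fun t ht1 ht2 hP => ⟨ht2.le, h2, ?_⟩⟩
    have hlt : t < w.length := by omega
    have ha : w[t]? = some w[t] := List.getElem?_eq_getElem hlt
    rw [atl_seg_cons ha ht2]
    refine h3 (seg w i t) w[t] (seg w (t + 1) j) ?_ ?_
    · rw [seg_append ht1 ht2.le w, atl_seg_cons ha ht2]
    · exact (at_ST.2 ⟨ht1, hlt.le, hP⟩).2.2
  · rintro ⟨h1, h2, h3⟩
    refine ⟨h1, h2, fun p a q e hPa => ?_⟩
    obtain ⟨g1, g2, g3⟩ := atl_seg_split h1 h2 e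
    have hl : (a :: q).length = j - (i + p.length) := by
      rw [← g3, length_seg g1 h2]
    rw [List.length_cons] at hl
    have hST : At w (ST P) i (i + p.length) := by
      refine ⟨by omega, by omega, ?_⟩
      rw [g2]
      exact hPa
    have h8 := h3 (i + p.length) (by omega) (by omega) (at_ST.1 hST).2.2
    have h9 := h8.2.2
    rw [g3] at h9
    exact h9

theorem at_exL (l : List β) (L : β → Set (List α)) :
    At w {u | ∃ b ∈ l, u ∈ L b} i j ↔ ∃ b ∈ l, At w (L b) i j := by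
  constructor
  · rintro ⟨h1, h2, b, hb, h3⟩
    exact ⟨b, hb, h1, h2, h3⟩
  · rintro ⟨b, hb, h1, h2, h3⟩
    exact ⟨h1, h2, b, hb, h3⟩

theorem at_allL (l : List β) (L : β → Set (List α)) :
    At w {u | ∀ b ∈ l, u ∈ L b} i j ↔ i ≤ j ∧ j ≤ w.length ∧ ∀ b ∈ l, At w (L b) i j := by
  constructor
  · rintro ⟨h1, h2, h3⟩
    exact ⟨h1, h2, fun b hb => ⟨h1, h2, h3 b hb⟩⟩
  · rintro ⟨h1, h2, h3⟩
    exact ⟨h1, h2, fun b hb => (h3 b hb).2.2⟩

theorem at_ite (p : Prop) (L : Set (List α)) :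
    At w {u | p ∧ u ∈ L} i j ↔ p ∧ At w L i j := by
  constructor
  · rintro ⟨h1, h2, hp, h3⟩
    exact ⟨hp, h1, h2, h3⟩
  · rintro ⟨hp, h1, h2, h3⟩
    exact ⟨h1, h2, hp, h3⟩

/-- Introduction rule: explicit decomposition of the word. -/
theorem At.mk' {L : Set (List α)} {u : List α} (p q : List α) (h : w = p ++ u ++ q) (hu : u ∈ L) :
    At w L p.length (p.length + u.length) := by
  subst h
  refine ⟨by omega, by simp, ?_⟩
  have e : seg (p ++ u ++ q) p.length (p.length + u.length) = u := by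
    unfold seg
    rw [← List.length_append, List.take_left, List.drop_left]
  rw [e]
  exact hu

theorem pre_zero (f : α → ℤ) (w : List α) : pre f w 0 = 0 := by simp [pre, wt]

theorem pre_succ {f : α → ℤ} {a : α} (h : w[i]? = some a) : pre f w (i + 1) = pre f w i + f a := by
  unfold pre
  rw [List.take_add_one, h, atl_wt_append]
  simp [wt]

/-- `pre f w` is unchanged over letters of weight zero. -/
theorem pre_eq_of_zero {f : α → ℤ} (h : i ≤ j) (h' : j ≤ w.length)
    (hz : ∀ t, i ≤ t → t < j → Is w t (fun a => f a = 0)) : pre f w j = pre f w i := by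
  induction j, h using Nat.le_induction with
  | base => rfl
  | succ j hj ih =>
    obtain ⟨a, ha, h0⟩ := hz j hj (Nat.lt_succ_self j)
    have h0' : f a = 0 := h0
    rw [pre_succ ha, h0', add_zero]
    exact ih (by omega) (fun t ht1 ht2 => hz t ht1 (by omega))

/-- `pre f w` increases by `j - i` over letters of weight one. -/
theorem pre_eq_of_one {f : α → ℤ} (h : i ≤ j) (h' : j ≤ w.length)
    (hz : ∀ t, i ≤ t → t < j → Is w t (fun a => f a = 1)) :
    pre f w j = pre f w i + ((j : ℤ) - i) := by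
  induction j, h using Nat.le_induction with
  | base => simp
  | succ j hj ih =>
    obtain ⟨a, ha, h0⟩ := hz j hj (Nat.lt_succ_self j)
    have h0' : f a = 1 := h0
    rw [pre_succ ha, h0', ih (by omega) (fun t ht1 ht2 => hz t ht1 (by omega))]
    push_cast
    ring

theorem pre_mono {f : α → ℤ} (hf : ∀ a, 0 ≤ f a) (h : i ≤ j) : pre f w i ≤ pre f w j := by
  induction j, h using Nat.le_induction with
  | base => exact le_rfl
  | succ j hj ih =>
    refine ih.trans ?_
    rcases Nat.lt_or_ge j w.length with hl | hl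
    · have ha : w[j]? = some w[j] := List.getElem?_eq_getElem hl
      rw [pre_succ ha]
      have := hf w[j]
      omega
    · unfold pre
      rw [List.take_of_length_le hl, List.take_of_length_le (by omega)]

theorem pre_append (f : α → ℤ) (u v : List α) : pre f (u ++ v) (u.length) = wt f u := by
  unfold pre
  rw [List.take_left]

theorem atl_wt_add (f g : α → ℤ) (w : List α) : wt (fun a => f a + g a) w = wt f w + wt g w := by
  induction w with
  | nil => simp [wt]
  | cons a w ih =>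
    unfold wt at ih ⊢
    rw [List.map_cons, List.map_cons, List.map_cons, List.sum_cons, List.sum_cons, List.sum_cons, ih]
    ring

theorem pre_add (f g : α → ℤ) (w : List α) (i : ℕ) :
    pre (fun a => f a + g a) w i = pre f w i + pre g w i := by
  unfold pre
  exact atl_wt_add f g _

end Pool.Agent.H29.CJ

end S_AtL

section S_SpD

/-!
# The speed-up language: definitions

`G : USys K` is a fixed unary grammar.  The language `WG G` over the fixed alphabet `Lt` consists of
certificates; soundness and completeness are in other files.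
-/

set_option autoImplicit false

namespace Pool.Agent.H29.CJ

/-- The content alphabet. -/
inductive Lt : Type
  | a (z t g : Bool)
  | nu | fi | tau | emp | br | row
  | bit (b : Bool)
  | th | ka | kb | cc | cb | ee | pp | rr | mu | tp | io | ib | sg
  deriving DecidableEq, Fintype

namespace Lt

/-- The region of a letter. -/
def reg : Lt → ℕ
  | a _ _ _ => 0
  | nu => 1
  | fi => 2
  | tau => 3 | emp => 3 | br => 3 | row => 3 | bit _ => 3
  | th => 4
  | ka => 5 | kb => 5 | cc => 5 | cb => 5 | ee => 5 | pp => 5 | rr => 5 | mu => 5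
  | tp => 6
  | io => 7 | ib => 7 | sg => 7

def isLeft (x : Lt) : Prop := ∃ z t g, x = a z t g
def isZ (x : Lt) : Prop := ∃ t g, x = a true t g
def isNZ (x : Lt) : Prop := ∃ t g, x = a false t g
def isT (x : Lt) : Prop := ∃ z g, x = a z true g
def isG (x : Lt) : Prop := ∃ z t, x = a z t true
def isN (x : Lt) : Prop := ∃ g, x = a false false g
def isTT (x : Lt) : Prop := ∃ g, x = a false true g
def isZT (x : Lt) : Prop := ∃ g, x = a true true g
def isBit (x : Lt) : Prop := ∃ b, x = bit b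
def isRB (x : Lt) : Prop := x = row ∨ ∃ b, x = bit b
def isIO (x : Lt) : Prop := x = io ∨ x = ib

/-- number of `z` letters -/
def cZ : Lt → ℤ | a true _ _ => 1 | _ => 0
def cG : Lt → ℤ | a _ _ true => 1 | _ => 0
def cTau : Lt → ℤ | tau => 1 | _ => 0
def cTh : Lt → ℤ | th => 1 | _ => 0
def cMu : Lt → ℤ | mu => 1 | _ => 0
def cSg : Lt → ℤ | sg => 1 | _ => 0
def cTp : Lt → ℤ | tp => 1 | _ => 0
def cNu : Lt → ℤ | nu => 1 | _ => 0
/-- `#cc - #cb` -/
def wC : Lt → ℤ | cc => 1 | cb => -1 | _ => 0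
/-- `#ka - #kb` -/
def wK : Lt → ℤ | ka => 1 | kb => -1 | _ => 0
/-- `#io - #ib` -/
def wI : Lt → ℤ | io => 1 | ib => -1 | _ => 0

/-- `#tau + #mu - #th` -/
def wTM : Lt → ℤ | tau => 1 | mu => 1 | th => -1 | _ => 0
/-- `#tau + #sg - #th` -/
def wTS : Lt → ℤ | tau => 1 | sg => 1 | th => -1 | _ => 0
/-- `#mu - #cc + #cb` -/
def wRI : Lt → ℤ | mu => 1 | cc => -1 | cb => 1 | _ => 0
/-- `#mu + #cc - #cb - #ka + #kb` -/
def wRII : Lt → ℤ | mu => 1 | cc => 1 | cb => -1 | ka => -1 | kb => 1 | _ => 0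
/-- `#z + #io - #ib - #nu` -/
def wJ1 : Lt → ℤ | a true _ _ => 1 | io => 1 | ib => -1 | nu => -1 | _ => 0
/-- `#mu + #sg - #io + #ib - #tp` -/
def wJ2 : Lt → ℤ | mu => 1 | sg => 1 | io => -1 | ib => 1 | tp => -1 | _ => 0
/-- `#mu + #sg - #tp` -/
def wJ3 : Lt → ℤ | mu => 1 | sg => 1 | tp => -1 | _ => 0
/-- `#ka - #kb - #mu` -/
def wKM : Lt → ℤ | ka => 1 | kb => -1 | mu => -1 | _ => 0
/-- `#z - #nu` -/
def wZN : Lt → ℤ | a true _ _ => 1 | nu => -1 | _ => 0
/-- `#mu - #tp` -/
def wMT : Lt → ℤ | mu => 1 | tp => -1 | _ => 0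

end Lt

open Lt

/-- one record of a table -/
def Rec : Set (List Lt) := LC (· = emp) ∪ cat (LC (· = br)) (ST isRB)

/-- one row -/
def Row : Set (List Lt) := cat (LC (· = row)) (ST isBit)

/-- one record of the menu -/
def Rec' : Set (List Lt) := LC (· = ee) ∪ cat (LC (· = pp)) (ST (· = rr))

/-- From a `t` letter to the start of the record of its group, in any table. -/
def LkP : Set (List Lt) :=
  cat (LC isZT) (cat Set.univ (LC (· = tau))) ∪
  cat (LC isTT) (Sync (cat (ST isN) (LC isTT))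
    (cat (ST isN) (cat (LC isZT) (cat Set.univ (cat (LC (· = tau)) Rec)))) Rec)

def LkE : Set (List Lt) := cat (ST isN) LkP

/-- From a left position to its bit number `A`, in any table. -/
def LkA (A : ℕ) : Set (List Lt) :=
  cat (Sync (LC isN) (cat LkP (LC (· = br))) Row) (cat (LC (· = row)) (pw (LC isBit) A))

def MainLk (A : ℕ) : Set (List Lt) :=
  cat (LkA A) ((cat (LC (· = bit true)) Set.univ ∩ cat Set.univ (LC (· = mu))) ∩ WT wTM 0)

def StLk (A : ℕ) : Set (List Lt) :=
  cat (LkA A) ((cat (LC (· = bit false)) Set.univ ∩ cat Set.univ (LC (· = sg))) ∩ WT wTS 0)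

def StEm : Set (List Lt) :=
  cat LkE ((cat (LC (· = emp)) Set.univ ∩ cat Set.univ (LC (· = sg))) ∩ WT wTS 0)

/-- `uv` with `|u| = |v|`, `u` empty or ending with a `g` letter -/
def EqG : Set (List Lt) := {[]} ∪ cat (Sync (LC isLeft) (LC isG) (LC isLeft)) (LC isLeft)

/-- translations by twice the `g` distance, passing one `z` letter (`f = true`) or none -/
def Tr (f : Bool) : Set (List Lt) :=
  (cat EqG EqG ∩ ST isLeft) ∩ (WT cG 2 ∩ WT cZ (if f then 1 else 0))

def RI (b : Bool) : Set (List Lt) := cat Set.univ (LC (· = cc)) ∩ WT wRI (if b then 0 else -1)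
def RII : Set (List Lt) := WT wRII (-1)
def RJ1 : Set (List Lt) := WT wJ1 0
def RJ2 : Set (List Lt) := cat Set.univ (LC isIO) ∩ WT wJ2 0
def RJ3 : Set (List Lt) := cat Set.univ (LC (· = sg)) ∩ WT wJ3 1

def Load : Set (List Lt) :=
  Sync (LC isNZ)
    (cat (Sync (Tr false) (cat (LC isZ) (cat Set.univ (LC (· = cc)))) Rec') (LC (· = pp)))
    (LC (· = rr))

section
variable {K : ℕ} (G : USys K)

/-- left words whose length belongs to the language of `A` -/
def UL (A : Fin K) : Set (List Lt) := {u | (∀ x ∈ u, isLeft x) ∧ G.T A u.length}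

/-- the unknowns of the main system -/
inductive Vr (K : ℕ) : Type
  | main (A : Fin K)
  | q1 (B : Fin K) (f : Bool)
  | q2 (B : Fin K) (f : Bool)
  | q3 (B : Fin K) (f : Bool)

def LII (X : Vr K → Set (List Lt)) (C : Fin K) : Set (List Lt) :=
  cat Set.univ (Load ∩ cat (X (.main C)) RII)

def Lg (X : Vr K → Set (List Lt)) (B C : Fin K) : Set (List Lt) :=
  cat (X (.q1 B false) ∩ LII X C) (cat (LC (· = rr)) (cat (ST (· ≠ mu)) (LC (· = mu))))

def Step (X : Vr K → Set (List Lt)) (p : Fin K × Fin K) : Set (List Lt) :=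
  (cat (UL G p.2 ∩ ST isNZ) (X (.main p.1)) ∪ cat (UL G p.1 ∩ ST isNZ) (X (.main p.2))) ∪
  (Lg X p.1 p.2 ∪ Lg X p.2 p.1)

/-- the right sides of the main system -/
def Phi : Vr K → (Vr K → Set (List Lt)) → Set (List Lt)
  | .main A, X => MainLk A ∪ {w | ∃ ρ ∈ G.rules A, ∀ p ∈ ρ, w ∈ Step G X p}
  | .q1 B f, X =>
    (cat (LC isNZ) (cat (X (.q1 B f)) (LC (· = rr))) ∪
      {w | f = false ∧ w ∈ cat (LC isZ) (cat (X (.q1 B true)) (LC (· = rr)))}) ∪
      cat (X (.q2 B f)) (LC (· = pp))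
  | .q2 B f, X =>
    (cat (Tr false) (cat (X (.q2 B f)) Rec') ∪
      {w | f = false ∧ w ∈ cat (Tr true) (cat (X (.q2 B true)) Rec')}) ∪ X (.q3 B f)
  | .q3 B f, X =>
    cat (LC isNZ) (cat (X (.main B)) (RI f)) ∪
      {w | f = false ∧ w ∈ cat (LC isZ) (cat (X (.main B)) (RI true))}

/-- the least solution -/
def Sl : Vr K → Set (List Lt) := Lfp (Phi G)

def Gam (B : Fin K) : Set (List Lt) :=
  cat (RJ1 ∩ cat (Sl G (.main B)) RJ2) (cat (ST (· ≠ sg)) (LC (· = sg)))

def StStep (p : Fin K × Fin K) : Set (List Lt) :=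
  (cat (UL G p.2) (Gam G p.1) ∪ cat (UL G p.1) (Gam G p.2)) ∪
  cat (Lg (Sl G) p.1 p.2 ∪ Lg (Sl G) p.2 p.1) RJ3

def Sta (A : Fin K) : Set (List Lt) :=
  {w | G.base A ∧ w ∈ cat (LC isZ) (cat (ST (· ≠ sg)) (LC (· = sg)))} ∪
  {w | ∃ ρ ∈ G.rules A, ∀ p ∈ ρ, w ∈ StStep G p}

def OK (A : Fin K) : Set (List Lt) := Sta G A ∪ (StLk A ∪ StEm)

end

/-- flagged letters at distance `β, 2β, ...` from the start (checked at one flagged letter) -/
def BlkPair (P : Lt → Prop) : Set (List Lt) :=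
  cat (ST (fun x => ¬ P x)) (LC P) ∪
  cat ({[]} ∪ cat Set.univ (LC P))
    (cat (Sync (LC (fun x => ¬ P x)) (LC P) (LC (fun x => ¬ P x))) (LC P))

/-- well-formedness: region order -/
def Srt : Set (List Lt) := {w | ∀ r ∈ List.range 8, w ∈ AllPre (fun x => reg x = r) (ST (fun x => reg x ≤ r))}

/-- well-formedness: the left region -/
def LeftOK : Set (List Lt) :=
  cat (cat (ST isLeft) (LC isZ)) (ST (fun x => ¬ isLeft x)) ∩
  (ST (fun x => isZ x → isT x ∧ isG x) ∩
  (AllPre isZ (BlkPair isZ) ∩ (AllPre isT (BlkPair isT) ∩ AllPre isG (BlkPair isG))))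

/-- well-formedness: weights -/
def WtOK : Set (List Lt) :=
  AllPre (· = mu) (WT wC 0 ∩ WT wK 0) ∩ (AllPre (· = rr) (WT wKM 0) ∩
  AllPre (· = sg) (WT wI 0 ∩ (WT wZN 0 ∩ WT wMT 1)))

def Fmt : Set (List Lt) := Srt ∩ (LeftOK ∩ WtOK)

/-- the speed-up language of `G` (start symbol `0`) -/
def WG {k : ℕ} (G : USys (k + 1)) : Set (List Lt) :=
  Fmt ∩ (AllSuf isNZ (AllPre (· = sg) {w | ∀ A, w ∈ OK G A}) ∩ Sta G 0)

/-- Facts about a well-formed word, as used by the soundness proof.  `Z`, `b1`, `b2` are the distances of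
the `z`, `t`, `g` flags, `ln` the length of the left region. -/
structure FS (w : List Lt) (Z b1 b2 ln : ℕ) : Prop where
  lnle : ln ≤ w.length
  left : ∀ i, i < ln → Is w i isLeft
  nleft : ∀ i, ln ≤ i → i < w.length → Is w i (fun x => ¬ isLeft x)
  Zpos : 0 < Z
  Zln : Z ∣ ln
  lnpos : 0 < ln
  hz : ∀ i, i < ln → (Is w i isZ ↔ Z ∣ i + 1)
  b1pos : 0 < b1
  b1Z : b1 ∣ Z
  ht : ∀ i, i < ln → (Is w i isT ↔ b1 ∣ i + 1)
  b2pos : 0 < b2
  b2Z : b2 ∣ Z
  hg : ∀ i, i < ln → (Is w i isG ↔ b2 ∣ i + 1)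
  srt : ∀ (i j : ℕ) (a b : Lt), i ≤ j → w[i]? = some a → w[j]? = some b → reg a ≤ reg b
  cmu : ∀ i, Is w i (· = mu) → pre wC w (i + 1) = 0 ∧ pre wK w (i + 1) = 0
  crr : ∀ i, Is w i (· = rr) → pre wKM w (i + 1) = 0
  csg : ∀ i, Is w i (· = sg) → pre wI w (i + 1) = 0 ∧ pre wZN w (i + 1) = 0 ∧ pre wMT w (i + 1) = 1

/-- Distance from `x` to the next `z` letter (inclusive). -/
def Lo (Z x : ℕ) : ℕ := Z - x % Z

end Pool.Agent.H29.CJ

end S_SpD

section S_SpC

/-!
# The speed-up language is conjunctive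

Use only the STATEMENTS of the imported files (`Clo`, `Clo2`, `Wts`, `PolyC`).

* `Finite (Vr K)`: e.g. injection into `Fin K ⊕ (Fin 3 × Fin K × Bool)`, or a surjection from it.
* `isConj_UL`: the family `A ↦ UL G A` solves, in a guarded way (`isConj_of_sys`, `μ = 0`), the system
  `X A = {w | G.base A ∧ w ∈ LC isLeft} ∪ {w | ∃ ρ ∈ G.rules A, ∀ p ∈ ρ, w ∈ cat (X p.1) (X p.2)}`
  (`Poly.iteP`, `Poly.exL`, `Poly.allL`): use `G.Tiff` for the length of `w` (split `w` at `m₁` with
  `take/drop`), and `G.T0` for `0 < m₁, m₂` (so both parts are shorter).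
* all the constants `Rec, Row, Rec', LkP, LkE, LkA, MainLk, StLk, StEm, EqG, Tr, RI, RII, RJ1, RJ2, RJ3,
  Load, BlkPair, Srt, LeftOK, WtOK, Fmt` are conjunctive by the closure lemmas (`pw L n` by induction on `n`;
  weight functions have values in `{-1,0,1}`: `isConj_WT _ (by intro a; cases a <;> simp [..])`, for
  `a z t g` also case on the flags).
* `Poly (Phi G v)` for every `v`, hence `IsConj (Sl G v)` by `isConj_Lfp`; then `Gam`, `Lg (Sl G)`, `StStep`,
  `Sta`, `OK`, `WG` are conjunctive (`IsConj.exL`, `IsConj.allL`, `IsConj.allF`, `IsConj.iteP`,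
  `IsConj.allPre`, `IsConj.allSuf`).
-/

set_option autoImplicit false

namespace Pool.Agent.H29.CJ

open Lt

instance SpC_finite (K : ℕ) : Finite (Vr K) := by
  let f : Fin K ⊕ (Fin 3 × Fin K × Bool) → Vr K := fun x =>
    match x with
    | Sum.inl A => .main A
    | Sum.inr (0, B, b) => .q1 B b
    | Sum.inr (1, B, b) => .q2 B b
    | Sum.inr (2, B, b) => .q3 B b
  refine Finite.of_surjective f ?_
  intro v
  cases v with
  | main A => exact ⟨Sum.inl A, rfl⟩
  | q1 B b => exact ⟨Sum.inr (0, B, b), rfl⟩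
  | q2 B b => exact ⟨Sum.inr (1, B, b), rfl⟩
  | q3 B b => exact ⟨Sum.inr (2, B, b), rfl⟩

theorem isConj_UL {K : ℕ} (G : USys K) (A : Fin K) : IsConj (UL G A) := by
  have key := isConj_of_sys (α := Lt) (ι := Fin K)
    (Φ := fun A X => {w | G.base A ∧ w ∈ LC isLeft} ∪
      {w | ∃ ρ ∈ G.rules A, ∀ p ∈ ρ, w ∈ cat (X p.1) (X p.2)})
    (fun A => Poly.union (Poly.cst _ ((isConj_LC isLeft).iteP (G.base A)))
      (Poly.exL (G.rules A) (Φ := fun ρ X => {w | ∀ p ∈ ρ, w ∈ cat (X p.1) (X p.2)})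
        (fun ρ _ => Poly.allL ρ (Φ := fun p X => cat (X p.1) (X p.2))
          (fun p _ => Poly.cat (Poly.var p.1) (Poly.var p.2)))))
    (fun A => UL G A) (fun _ => 0) ?_ ?_
  · exact key A
  · intro A w hw
    rcases hw with ⟨hb, a, ha, rfl⟩ | ⟨ρ, hρ, hp⟩
    · refine ⟨fun x hx => ?_, (G.Tiff A 1).2 (Or.inl ⟨rfl, hb⟩)⟩
      rw [List.mem_singleton] at hx
      rw [hx]
      exact ha
    · constructor
      · obtain ⟨p, hpρ⟩ := List.exists_mem_of_ne_nil ρ (G.ne A ρ hρ)
        obtain ⟨u, hu, v, hv, rfl⟩ := hp p hpρ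
        intro x hx
        rcases List.mem_append.1 hx with h | h
        · exact hu.1 x h
        · exact hv.1 x h
      · refine (G.Tiff A _).2 (Or.inr ⟨ρ, hρ, fun p hpρ => ?_⟩)
        obtain ⟨u, hu, v, hv, rfl⟩ := hp p hpρ
        exact ⟨u.length, v.length, (List.length_append).symm, hu.2, hv.2⟩
  · intro A w hw
    obtain ⟨hl, hT⟩ := hw
    rcases (G.Tiff A _).1 hT with ⟨h1, hb⟩ | ⟨ρ, hρ, hp⟩
    · obtain ⟨a, rfl⟩ := List.length_eq_one_iff.1 h1
      exact Or.inl ⟨hb, a, hl a (List.mem_singleton.2 rfl), rfl⟩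
    · refine Or.inr ⟨ρ, hρ, fun p hpρ => ?_⟩
      obtain ⟨m₁, m₂, hm, h₁, h₂⟩ := hp p hpρ
      have hm₁ : 0 < m₁ := Nat.pos_of_ne_zero fun h => G.T0 p.1 (h ▸ h₁)
      have hm₂ : 0 < m₂ := Nat.pos_of_ne_zero fun h => G.T0 p.2 (h ▸ h₂)
      have hl₁ : (w.take m₁).length = m₁ := by
        rw [List.length_take]
        omega
      have hl₂ : (w.drop m₁).length = m₂ := by
        rw [List.length_drop]
        omega
      refine ⟨w.take m₁, ⟨⟨fun x hx => hl x (List.mem_of_mem_take hx), ?_⟩, Or.inl ?_⟩,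
        w.drop m₁, ⟨⟨fun x hx => hl x (List.mem_of_mem_drop hx), ?_⟩, Or.inl ?_⟩,
        (List.take_append_drop m₁ w).symm⟩
      · rw [hl₁]
        exact h₁
      · rw [hl₁]
        omega
      · rw [hl₂]
        exact h₂
      · rw [hl₂]
        omega

theorem SpC_pw {L : Set (List Lt)} (h : IsConj L) (n : ℕ) : IsConj (pw L n) := by
  induction n with
  | zero => exact isConj_eps
  | succ n ih => exact h.cat ih

theorem SpC_Rec : IsConj Rec := (isConj_LC _).union ((isConj_LC _).cat (isConj_ST _))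

theorem SpC_Row : IsConj Row := (isConj_LC _).cat (isConj_ST _)

theorem SpC_Rec' : IsConj Rec' := (isConj_LC _).union ((isConj_LC _).cat (isConj_ST _))

theorem SpC_LkP : IsConj LkP :=
  ((isConj_LC _).cat (isConj_univ.cat (isConj_LC _))).union
    ((isConj_LC _).cat (IsConj.sync ((isConj_ST _).cat (isConj_LC _))
      ((isConj_ST _).cat ((isConj_LC _).cat (isConj_univ.cat ((isConj_LC _).cat SpC_Rec)))) SpC_Rec))

theorem SpC_LkE : IsConj LkE := (isConj_ST _).cat SpC_LkP

theorem SpC_LkA (A : ℕ) : IsConj (LkA A) :=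
  (IsConj.sync (isConj_LC _) (SpC_LkP.cat (isConj_LC _)) SpC_Row).cat
    ((isConj_LC _).cat (SpC_pw (isConj_LC _) A))

theorem SpC_MainLk (A : ℕ) : IsConj (MainLk A) :=
  (SpC_LkA A).cat ((((isConj_LC _).cat isConj_univ).inter (isConj_univ.cat (isConj_LC _))).inter
    (isConj_WT wTM (by decide) 0))

theorem SpC_StLk (A : ℕ) : IsConj (StLk A) :=
  (SpC_LkA A).cat ((((isConj_LC _).cat isConj_univ).inter (isConj_univ.cat (isConj_LC _))).inter
    (isConj_WT wTS (by decide) 0))

theorem SpC_StEm : IsConj StEm :=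
  SpC_LkE.cat ((((isConj_LC _).cat isConj_univ).inter (isConj_univ.cat (isConj_LC _))).inter
    (isConj_WT wTS (by decide) 0))

theorem SpC_EqG : IsConj EqG :=
  isConj_eps.union ((IsConj.sync (isConj_LC _) (isConj_LC _) (isConj_LC _)).cat (isConj_LC _))

theorem SpC_Tr (f : Bool) : IsConj (Tr f) :=
  ((SpC_EqG.cat SpC_EqG).inter (isConj_ST _)).inter
    ((isConj_WT cG (by decide) 2).inter (isConj_WT cZ (by decide) _))

theorem SpC_RI (b : Bool) : IsConj (RI b) :=
  (isConj_univ.cat (isConj_LC _)).inter (isConj_WT wRI (by decide) _)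

theorem SpC_RII : IsConj RII := isConj_WT wRII (by decide) _

theorem SpC_RJ1 : IsConj RJ1 := isConj_WT wJ1 (by decide) _

theorem SpC_RJ2 : IsConj RJ2 :=
  (isConj_univ.cat (isConj_LC _)).inter (isConj_WT wJ2 (by decide) _)

theorem SpC_RJ3 : IsConj RJ3 :=
  (isConj_univ.cat (isConj_LC _)).inter (isConj_WT wJ3 (by decide) _)

theorem SpC_Load : IsConj Load :=
  IsConj.sync (isConj_LC _)
    ((IsConj.sync (SpC_Tr false) ((isConj_LC _).cat (isConj_univ.cat (isConj_LC _))) SpC_Rec').cat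
      (isConj_LC _)) (isConj_LC _)

section
variable {K : ℕ} (G : USys K)

theorem SpC_LII (C : Fin K) : Poly (fun X : Vr K → Set (List Lt) => LII X C) :=
  Poly.cat (Poly.cst _ isConj_univ) (Poly.inter (Poly.cst _ SpC_Load)
    (Poly.cat (Poly.var (Vr.main C)) (Poly.cst _ SpC_RII)))

theorem SpC_Lg (B C : Fin K) : Poly (fun X : Vr K → Set (List Lt) => Lg X B C) :=
  Poly.cat (Poly.inter (Poly.var (Vr.q1 B false)) (SpC_LII C))
    (Poly.cst _ ((isConj_LC _).cat ((isConj_ST _).cat (isConj_LC _))))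

theorem SpC_Step (p : Fin K × Fin K) : Poly (fun X : Vr K → Set (List Lt) => Step G X p) :=
  Poly.union
    (Poly.union (Poly.cat (Poly.cst _ ((isConj_UL G p.2).inter (isConj_ST _))) (Poly.var (Vr.main p.1)))
      (Poly.cat (Poly.cst _ ((isConj_UL G p.1).inter (isConj_ST _))) (Poly.var (Vr.main p.2))))
    (Poly.union (SpC_Lg p.1 p.2) (SpC_Lg p.2 p.1))

theorem SpC_Phi (v : Vr K) : Poly (Phi G v) := by
  cases v with
  | main A =>
    exact Poly.union (Poly.cst _ (SpC_MainLk A))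
      (Poly.exL (G.rules A) (Φ := fun ρ X => {w | ∀ p ∈ ρ, w ∈ Step G X p})
        (fun ρ _ => Poly.allL ρ (Φ := fun p X => Step G X p) (fun p _ => SpC_Step G p)))
  | q1 B f =>
    exact Poly.union (Poly.union
      (Poly.cat (Poly.cst _ (isConj_LC _)) (Poly.cat (Poly.var (Vr.q1 B f)) (Poly.cst _ (isConj_LC _))))
      (Poly.iteP (Poly.cat (Poly.cst _ (isConj_LC _))
        (Poly.cat (Poly.var (Vr.q1 B true)) (Poly.cst _ (isConj_LC _)))) (f = false)))
      (Poly.cat (Poly.var (Vr.q2 B f)) (Poly.cst _ (isConj_LC _)))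
  | q2 B f =>
    exact Poly.union (Poly.union
      (Poly.cat (Poly.cst _ (SpC_Tr false)) (Poly.cat (Poly.var (Vr.q2 B f)) (Poly.cst _ SpC_Rec')))
      (Poly.iteP (Poly.cat (Poly.cst _ (SpC_Tr true))
        (Poly.cat (Poly.var (Vr.q2 B true)) (Poly.cst _ SpC_Rec'))) (f = false)))
      (Poly.var (Vr.q3 B f))
  | q3 B f =>
    exact Poly.union
      (Poly.cat (Poly.cst _ (isConj_LC _)) (Poly.cat (Poly.var (Vr.main B)) (Poly.cst _ (SpC_RI f))))
      (Poly.iteP (Poly.cat (Poly.cst _ (isConj_LC _))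
        (Poly.cat (Poly.var (Vr.main B)) (Poly.cst _ (SpC_RI true)))) (f = false))

theorem SpC_Sl (v : Vr K) : IsConj (Sl G v) := isConj_Lfp (SpC_Phi G) v

theorem SpC_LgS (B C : Fin K) : IsConj (Lg (Sl G) B C) :=
  ((SpC_Sl G _).inter (isConj_univ.cat (SpC_Load.inter ((SpC_Sl G _).cat SpC_RII)))).cat
    ((isConj_LC _).cat ((isConj_ST _).cat (isConj_LC _)))

theorem SpC_Gam (B : Fin K) : IsConj (Gam G B) :=
  (SpC_RJ1.inter ((SpC_Sl G _).cat SpC_RJ2)).cat ((isConj_ST _).cat (isConj_LC _))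

theorem SpC_StStep (p : Fin K × Fin K) : IsConj (StStep G p) :=
  (((isConj_UL G p.2).cat (SpC_Gam G p.1)).union ((isConj_UL G p.1).cat (SpC_Gam G p.2))).union
    (((SpC_LgS G p.1 p.2).union (SpC_LgS G p.2 p.1)).cat SpC_RJ3)

theorem SpC_Sta (A : Fin K) : IsConj (Sta G A) :=
  (IsConj.iteP ((isConj_LC _).cat ((isConj_ST _).cat (isConj_LC _))) (G.base A)).union
    (IsConj.exL (G.rules A) (L := fun ρ => {w | ∀ p ∈ ρ, w ∈ StStep G p})
      (fun ρ _ => IsConj.allL ρ (fun p _ => SpC_StStep G p)))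

theorem SpC_OK (A : Fin K) : IsConj (OK G A) :=
  (SpC_Sta G A).union ((SpC_StLk A).union SpC_StEm)

end

theorem SpC_Blk (P : Lt → Prop) : IsConj (BlkPair P) :=
  ((isConj_ST _).cat (isConj_LC _)).union
    ((isConj_eps.union (isConj_univ.cat (isConj_LC _))).cat
      ((IsConj.sync (isConj_LC _) (isConj_LC _) (isConj_LC _)).cat (isConj_LC _)))

theorem SpC_Srt : IsConj Srt :=
  IsConj.allL (List.range 8) (L := fun r => AllPre (fun x => reg x = r) (ST (fun x => reg x ≤ r)))
    (fun _ _ => IsConj.allPre _ (isConj_ST _))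

theorem SpC_LeftOK : IsConj LeftOK :=
  (((isConj_ST _).cat (isConj_LC _)).cat (isConj_ST _)).inter
    ((isConj_ST _).inter ((IsConj.allPre _ (SpC_Blk _)).inter
      ((IsConj.allPre _ (SpC_Blk _)).inter (IsConj.allPre _ (SpC_Blk _)))))

theorem SpC_WtOK : IsConj WtOK :=
  (IsConj.allPre _ ((isConj_WT wC (by decide) 0).inter (isConj_WT wK (by decide) 0))).inter
    ((IsConj.allPre _ (isConj_WT wKM (by decide) 0)).inter
      (IsConj.allPre _ ((isConj_WT wI (by decide) 0).inter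
        ((isConj_WT wZN (by decide) 0).inter (isConj_WT wMT (by decide) 1)))))

theorem isConj_WG {k : ℕ} (G : USys (k + 1)) : IsConj (WG G) :=
  (SpC_Srt.inter (SpC_LeftOK.inter SpC_WtOK)).inter
    ((IsConj.allSuf _ (IsConj.allPre _ (IsConj.allF (fun A => SpC_OK G A)))).inter (SpC_Sta G 0))

end Pool.Agent.H29.CJ

end S_SpC

section S_Grid

/-!
# Equidistant flags

Use only the STATEMENTS of the imported files.

Convert `h` to positions: `at_full`, `at_AllPre` with `i = 0`, `j = w.length`: for every `t` with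
`Is w t P`: `At w (BlkPair P) 0 (t+1)`, and by `at_cat, at_ST, at_LC, at_eps, at_univ, at_Sync_LC` this means:
either (first) no `s < t` is flagged, or (pair) there are `k` and `q` with `q + 2 (k + 1) = t + 1`, (`q = 0` or
`q - 1` is flagged), position `q + k` is flagged, and no other position of `[q, t)` is flagged.
If no position is flagged take `β = 1, r = 0`.  Otherwise let `n₁ = β` be the first flagged `t` plus one.
Claim by strong induction on `t` (flagged): `β ∣ t + 1`, and every `s ≤ t` with `β ∣ s + 1` is flagged.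
First case: `t + 1 = β`.  Pair case: the flagged `t' = q + k < t` is the last flagged one before `t`; by
induction `t' + 1 = c β`, all multiples below are flagged.  If `q = 0`, then `t'` is the first flagged
position, so `k + 1 = t' + 1 = β`.  If `q > 0`, then `q - 1` is flagged, so `q = c' β`, and there is no
flagged position strictly between `q - 1` and `t'`; the multiple `(c' + 1) β ≤ c β` is flagged by induction, so
`c = c' + 1` and `k + 1 = β`.  Hence `t + 1 = t' + 1 + (k + 1) = (c + 1) β`.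
Take `r = (last flagged t + 1) / β` (the flagged positions are bounded by `w.length`).
-/

set_option autoImplicit false

namespace Pool.Agent.H29.CJ

open Lt

private theorem Grid_comb (F : ℕ → Prop) (N : ℕ) (hN : ∀ t, F t → t < N)
    (h : ∀ t, F t → (∀ s, s < t → ¬ F s) ∨ ∃ k q : ℕ, q + 2 * (k + 1) = t + 1 ∧
      (q = 0 ∨ (0 < q ∧ F (q - 1))) ∧ F (q + k) ∧ (∀ s, q ≤ s → s < q + k → ¬ F s)) :
    ∃ β r : ℕ, 0 < β ∧ ∀ i < N, (F i ↔ β ∣ i + 1 ∧ i + 1 ≤ β * r) := by
  classical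
  by_cases hex : ∃ t, F t
  · set n := Nat.find hex with hn
    have hFn : F n := Nat.find_spec hex
    have hmin : ∀ s, F s → n ≤ s := fun s hs => Nat.find_min' hex hs
    have claim : ∀ t, F t → (n + 1) ∣ t + 1 ∧ ∀ s, s ≤ t → (n + 1) ∣ s + 1 → F s := by
      intro t
      induction t using Nat.strong_induction_on with
      | _ t ih =>
        intro ht
        rcases h t ht with h1 | ⟨k, q, hq, hq0, hk, hno⟩
        · have htn : t = n := by
            have h2 := hmin t ht
            rcases Nat.lt_or_ge n t with h3 | h3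
            · exact absurd hFn (h1 n h3)
            · omega
          subst htn
          refine ⟨dvd_refl _, fun s hs hd => ?_⟩
          have h2 := Nat.le_of_dvd (Nat.succ_pos s) hd
          have h3 : s = n := by omega
          rw [h3]; exact hFn
        · obtain ⟨ih1, ih2⟩ := ih (q + k) (by omega) hk
          have hkb : (n + 1) ∣ q ∧ k = n := by
            rcases hq0 with rfl | ⟨hqpos, hFq⟩
            · refine ⟨dvd_zero _, ?_⟩
              have h2 := hmin _ hk
              rcases Nat.lt_or_ge n k with h3 | h3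
              · exact absurd hFn (hno n (by omega) (by omega))
              · omega
            · obtain ⟨jh1, jh2⟩ := ih (q - 1) (by omega) hFq
              have e1 : q - 1 + 1 = q := by omega
              rw [e1] at jh1
              refine ⟨jh1, ?_⟩
              have hd : (n + 1) ∣ k + 1 := by
                have h2 : q + k + 1 = q + (k + 1) := by ring
                rw [h2] at ih1
                exact (Nat.dvd_add_right jh1).1 ih1
              have h3 := Nat.le_of_dvd (Nat.succ_pos k) hd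
              rcases Nat.lt_or_ge n k with h4 | h4
              · exfalso
                refine hno (q + n) (by omega) (by omega) (ih2 (q + n) (by omega) ?_)
                have h5 : q + n + 1 = q + (n + 1) := by ring
                rw [h5]
                exact dvd_add jh1 (dvd_refl _)
              · omega
          obtain ⟨hdq, rfl⟩ := hkb
          have et : t + 1 = q + (n + 1) * 2 := by omega
          refine ⟨?_, fun s hs hd => ?_⟩
          · rw [et]
            exact dvd_add hdq (Dvd.intro _ rfl)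
          · rcases Nat.lt_or_ge (q + n) s with h3 | h3
            · obtain ⟨c, hc⟩ := hdq
              obtain ⟨d, hd'⟩ := hd
              have h4 : (n + 1) * (c + 1) < (n + 1) * d := by
                rw [← hd', Nat.mul_add, ← hc]
                omega
              have h5 : c + 1 < d := Nat.lt_of_mul_lt_mul_left h4
              have h6 : (n + 1) * (c + 2) ≤ (n + 1) * d := Nat.mul_le_mul_left _ h5
              have h7 : (n + 1) * (c + 2) = q + (n + 1) * 2 := by rw [Nat.mul_add, ← hc]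
              have h8 : s = t := by omega
              rw [h8]; exact ht
            · exact ih2 s h3 hd
    set T := Nat.findGreatest F N with hT
    have hFT : F T := Nat.findGreatest_spec (P := F) (hN n hFn).le hFn
    obtain ⟨⟨r, hr⟩, hT2⟩ := claim T hFT
    refine ⟨n + 1, r, Nat.succ_pos n, fun i hi => ⟨fun hFi => ⟨(claim i hFi).1, ?_⟩, fun hd => ?_⟩⟩
    · rw [← hr]
      have := Nat.le_findGreatest (P := F) hi.le hFi
      omega
    · refine hT2 i ?_ hd.1
      have := hd.2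
      rw [← hr] at this
      omega
  · refine ⟨1, 0, one_pos, fun i _ => ⟨fun hi => absurd ⟨i, hi⟩ hex, fun hd => ?_⟩⟩
    have := hd.2
    omega

private theorem Grid_not {P : Lt → Prop} {w : List Lt} {i : ℕ} (h : Is w i (fun x => ¬ P x)) :
    ¬ Is w i P := by
  rintro ⟨a, ha, hP⟩
  obtain ⟨b, hb, hnP⟩ := h
  rw [ha] at hb
  exact hnP (Option.some.inj hb ▸ hP)

theorem grid_of_AllPre {P : Lt → Prop} {w : List Lt} (h : w ∈ AllPre P (BlkPair P)) :
    ∃ β r : ℕ, 0 < β ∧ ∀ i < w.length, (Is w i P ↔ β ∣ i + 1 ∧ i + 1 ≤ β * r) := by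
  have h0 := (at_AllPre.1 (at_full.2 h)).2.2
  apply Grid_comb (fun i => Is w i P) w.length (fun t ht => ht.lt)
  intro t ht
  have h1 := h0 t (Nat.zero_le t) ht.lt ht
  rcases at_union.1 h1 with h2 | h2
  · left
    obtain ⟨k, h3, h4⟩ := at_cat.1 h2
    obtain ⟨h5, _⟩ := at_LC.1 h4
    obtain ⟨_, _, h6⟩ := at_ST.1 h3
    intro s hs
    exact Grid_not (h6 s (Nat.zero_le s) (by omega))
  · right
    obtain ⟨q, h3, h4⟩ := at_cat.1 h2
    obtain ⟨k2, h5, h6⟩ := at_cat.1 h4
    obtain ⟨h7, _⟩ := at_LC.1 h6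
    obtain ⟨k, j', h8, _, h9, h10, h11⟩ := at_Sync_LC.1 h5
    obtain ⟨h12, h13⟩ := at_LC.1 h9
    refine ⟨k, q, by omega, ?_, h13, fun s hs1 hs2 => Grid_not (h10 s hs1 hs2)⟩
    rcases at_union.1 h3 with h14 | h14
    · left
      exact (at_eps.1 h14).1.symm
    · right
      obtain ⟨k3, _, h16⟩ := at_cat.1 h14
      obtain ⟨h17, h18⟩ := at_LC.1 h16
      subst h17
      exact ⟨Nat.succ_pos _, by simpa using h18⟩

end Pool.Agent.H29.CJ

end S_Grid

section S_FmtF

/-!
# Facts about well-formed words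

Use only the STATEMENTS of the imported files.

`h` gives `w ∈ Srt`, `w ∈ LeftOK`, `w ∈ WtOK`.
* `ln`: `w ∈ cat (cat (ST isLeft) (LC isZ)) (ST ¬isLeft)`: `at_full` and `at_cat` give a cut at `ln ≥ 1`: all
  positions below are left letters (`isZ x → isLeft x`), position `ln - 1` is a `z` letter, all positions from
  `ln` on are not left.
* `Z`: `grid_of_AllPre` for `isZ` gives `Z > 0, r`; position `ln - 1` is flagged, so `Z ∣ ln` and `ln ≤ Z r`; hence
  for `i < ln` the bound `i + 1 ≤ Z r` is automatic.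
* `b1`: `grid_of_AllPre` for `isT`; every `z` letter is a `t` letter (`ST (isZ → isT ∧ isG)`), so `ln - 1` is a `t` letter,
  `ln ≤ b1 r'`, and position `Z - 1 < ln` is a `z` letter, so a `t` letter, so `b1 ∣ Z`.
* `b2`: the same for `isG`.
* `srt`: for `r = reg b` (`reg b ≤ 7`), `w ∈ AllPre (reg = r) (ST (reg ≤ r))`: by `at_AllPre`, `at_ST` all positions
  `≤ j` carry letters of region `≤ r`.
* `cmu, crr, csg`: `at_AllPre`, `at_inter`, `at_WT` with `pre_zero`.
-/

set_option autoImplicit false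

namespace Pool.Agent.H29.CJ

open Lt

theorem FmtF_notleft {w : List Lt} {i : ℕ} (h : Is w i isLeft) (h' : Is w i (fun x => ¬ isLeft x)) :
    False := by
  obtain ⟨a, ha, h1, h2⟩ := h.and h'
  exact h2 h1

theorem FmtF_isZ_left (x : Lt) (h : isZ x) : isLeft x := by
  obtain ⟨t, g, rfl⟩ := h
  exact ⟨true, t, g, rfl⟩

theorem FmtF_reg_le (x : Lt) : reg x < 8 := by
  cases x <;> simp [reg]

theorem fs_of_fmt {w : List Lt} (h : w ∈ Fmt) :
    ∃ Z b1 b2 ln : ℕ, FS w Z b1 b2 ln := by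
  obtain ⟨hS, ⟨hL, hI, hZ, hT, hG⟩, hM, hR, hSg⟩ := h
  obtain ⟨ln, hA, hB⟩ := at_cat.1 (at_full.2 hL)
  obtain ⟨k, hA1, hA2⟩ := at_cat.1 hA
  obtain ⟨-, hk, hleft⟩ := at_ST.1 hA1
  obtain ⟨rfl, hz0⟩ := at_LC.1 hA2
  obtain ⟨hB1, -, hnl⟩ := at_ST.1 hB
  obtain ⟨Z, r, Zpos, hZ'⟩ := grid_of_AllPre hZ
  obtain ⟨b1, r1, b1pos, hT'⟩ := grid_of_AllPre hT
  obtain ⟨b2, r2, b2pos, hG'⟩ := grid_of_AllPre hG
  obtain ⟨-, -, hI'⟩ := at_ST.1 (at_full.2 hI)
  have hzt : ∀ i, Is w i isZ → Is w i isT ∧ Is w i isG := by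
    intro i hi
    obtain ⟨a, ha, h1, h2⟩ := hi.and (hI' i (Nat.zero_le i) hi.lt)
    exact ⟨⟨a, ha, (h2 h1).1⟩, ⟨a, ha, (h2 h1).2⟩⟩
  have hkl : k + 1 ≤ w.length := hB1
  have hl0 : ∀ i, i < k + 1 → Is w i isLeft := by
    intro i hi
    rcases Nat.lt_or_ge i k with h1 | h1
    · exact hleft i (Nat.zero_le i) h1
    · obtain rfl : i = k := by omega
      exact hz0.mono FmtF_isZ_left
  have hzk := (hZ' k hkl).1 hz0
  have hZle : Z ≤ k + 1 := Nat.le_of_dvd (Nat.succ_pos k) hzk.1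
  have hzz : ∀ i, i < k + 1 → (Is w i isZ ↔ Z ∣ i + 1) := by
    intro i hi
    rw [hZ' i (by omega)]
    exact ⟨fun h => h.1, fun h => ⟨h, by omega⟩⟩
  have htk := (hT' k hkl).1 (hzt k hz0).1
  have hgk := (hG' k hkl).1 (hzt k hz0).2
  have hZZ : Is w (Z - 1) isZ := by
    rw [hzz (Z - 1) (by omega)]
    rw [Nat.sub_add_cancel Zpos]
  have htt : ∀ i, i < k + 1 → (Is w i isT ↔ b1 ∣ i + 1) := by
    intro i hi
    rw [hT' i (by omega)]
    exact ⟨fun h => h.1, fun h => ⟨h, by omega⟩⟩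
  have hgg : ∀ i, i < k + 1 → (Is w i isG ↔ b2 ∣ i + 1) := by
    intro i hi
    rw [hG' i (by omega)]
    exact ⟨fun h => h.1, fun h => ⟨h, by omega⟩⟩
  refine ⟨Z, b1, b2, k + 1, ⟨hkl, hl0, ?_, Zpos, hzk.1, Nat.succ_pos k, hzz, b1pos, ?_, htt,
    b2pos, ?_, hgg, ?_, ?_, ?_, ?_⟩⟩
  · intro i h1 h2
    exact hnl i h1 h2
  · have h1 := (htt (Z - 1) (by omega)).1 (hzt _ hZZ).1
    rwa [Nat.sub_add_cancel Zpos] at h1
  · have h1 := (hgg (Z - 1) (by omega)).1 (hzt _ hZZ).2
    rwa [Nat.sub_add_cancel Zpos] at h1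
  · intro i j a b hij ha hb
    have h1 := hS (reg b) (List.mem_range.2 (FmtF_reg_le b))
    obtain ⟨-, -, h2⟩ := at_AllPre.1 (at_full.2 h1)
    have hj : Is w j (fun x => reg x = reg b) := ⟨b, hb, rfl⟩
    obtain ⟨-, -, h3⟩ := at_ST.1 (h2 j (Nat.zero_le j) hj.lt hj)
    obtain ⟨c, hc, h4⟩ := h3 i (Nat.zero_le i) (by omega)
    rw [ha] at hc
    obtain rfl : a = c := Option.some.inj hc
    exact h4
  · intro i hi
    obtain ⟨-, -, h2⟩ := at_AllPre.1 (at_full.2 hM)
    obtain ⟨h3, h4⟩ := at_inter.1 (h2 i (Nat.zero_le i) hi.lt hi)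
    obtain ⟨-, -, h5⟩ := at_WT.1 h3
    obtain ⟨-, -, h6⟩ := at_WT.1 h4
    rw [pre_zero, sub_zero] at h5 h6
    exact ⟨h5, h6⟩
  · intro i hi
    obtain ⟨-, -, h2⟩ := at_AllPre.1 (at_full.2 hR)
    obtain ⟨-, -, h5⟩ := at_WT.1 (h2 i (Nat.zero_le i) hi.lt hi)
    rw [pre_zero, sub_zero] at h5
    exact h5
  · intro i hi
    obtain ⟨-, -, h2⟩ := at_AllPre.1 (at_full.2 hSg)
    obtain ⟨h3, h4⟩ := at_inter.1 (h2 i (Nat.zero_le i) hi.lt hi)
    obtain ⟨h4, h5⟩ := at_inter.1 h4
    obtain ⟨-, -, h6⟩ := at_WT.1 h3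
    obtain ⟨-, -, h7⟩ := at_WT.1 h4
    obtain ⟨-, -, h8⟩ := at_WT.1 h5
    rw [pre_zero, sub_zero] at h6 h7 h8
    exact ⟨h6, h7, h8⟩

end Pool.Agent.H29.CJ

end S_FmtF

section S_CntL

/-!
# Counts in well-formed words

Use only the STATEMENTS of the imported files.

* `pre_cZ`: induction on `i` with `pre_succ`: `(i+1)/Z = i/Z + 1` iff `Z ∣ i+1` (`Nat.succ_div`).
* `pre_cG`: same.
* linear relations: `pre f w i = wt f (w.take i)`, `wt` of a pointwise sum is the sum (induction on the list);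
  check the pointwise identity by cases on the letter.
* `pre_zero_of_reg`: all positions `< i` carry letters of region `≤ reg c` (by `srt`), so weight zero.
* `pre_tot_of_reg`: all positions `≥ i` carry letters of region `≥ reg c`, weight zero, so
  `pre f w i = pre f w w.length = wt f w`; the same for `i + 1`.
* `exists_sg`: `pre cSg w` starts with `0`, ends with `wt cSg w`, increases by `0` or `1`; take the least `i` with
  `pre cSg w i ≥ n`; then `i = s + 1` and `s` is an `sg` letter.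
* Lo facts: `Lo Z x = Z * (x / Z + 1) - x`, i.e. `x + Lo Z x = Z * (x / Z + 1)`; `1 ≤ Lo ≤ Z`.
-/

set_option autoImplicit false

namespace Pool.Agent.H29.CJ

open Lt

variable {w : List Lt} {Z b1 b2 ln : ℕ}

theorem CntL_is {i : ℕ} {c : Lt} {P : Lt → Prop} (h : w[i]? = some c) : Is w i P ↔ P c := by
  constructor
  · rintro ⟨b, hb, hP⟩
    rw [h] at hb
    obtain rfl : c = b := Option.some.inj hb
    exact hP
  · exact fun hP => ⟨c, h, hP⟩

theorem CntL_letter (h : FS w Z b1 b2 ln) {i : ℕ} (hi : i < ln) :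
    ∃ z t g, w[i]? = some (Lt.a z t g) := by
  obtain ⟨c, hc, z, t, g, rfl⟩ := h.left i hi
  exact ⟨z, t, g, hc⟩

theorem CntL_isZ {i : ℕ} {z t g : Bool} (h : w[i]? = some (Lt.a z t g)) : Is w i isZ ↔ z = true := by
  rw [CntL_is h]
  constructor
  · rintro ⟨t', g', h'⟩
    injection h'
  · rintro rfl
    exact ⟨t, g, rfl⟩

theorem CntL_isNZ {i : ℕ} {z t g : Bool} (h : w[i]? = some (Lt.a z t g)) : Is w i isNZ ↔ z = false := by
  rw [CntL_is h]
  constructor
  · rintro ⟨t', g', h'⟩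
    injection h'
  · rintro rfl
    exact ⟨t, g, rfl⟩

theorem CntL_isG {i : ℕ} {z t g : Bool} (h : w[i]? = some (Lt.a z t g)) : Is w i isG ↔ g = true := by
  rw [CntL_is h]
  constructor
  · rintro ⟨z', t', h'⟩
    injection h'
  · rintro rfl
    exact ⟨z, t, rfl⟩

theorem CntL_cZ (z t g : Bool) : cZ (Lt.a z t g) = if z = true then 1 else 0 := by
  cases z <;> rfl

theorem CntL_cG (z t g : Bool) : cG (Lt.a z t g) = if g = true then 1 else 0 := by
  cases g <;> rfl

theorem pre_cZ (h : FS w Z b1 b2 ln) {i : ℕ} (hi : i ≤ ln) : pre cZ w i = ((i / Z : ℕ) : ℤ) := by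
  induction i with
  | zero => rw [pre_zero, Nat.zero_div, Nat.cast_zero]
  | succ i ih =>
    have hi' : i < ln := hi
    obtain ⟨z, t, g, hc⟩ := CntL_letter h hi'
    have h1 := h.hz i hi'
    rw [CntL_isZ hc] at h1
    rw [pre_succ hc, ih hi'.le, CntL_cZ, Nat.succ_div]
    by_cases hz : z = true
    · rw [if_pos hz, if_pos (h1.1 hz)]
      push_cast
      rfl
    · rw [if_neg hz, if_neg (fun h2 => hz (h1.2 h2))]
      push_cast
      rfl

theorem pre_cG (h : FS w Z b1 b2 ln) {i : ℕ} (hi : i ≤ ln) :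
    pre cG w i = ((i / b2 : ℕ) : ℤ) := by
  induction i with
  | zero => rw [pre_zero, Nat.zero_div, Nat.cast_zero]
  | succ i ih =>
    have hi' : i < ln := hi
    obtain ⟨z, t, g, hc⟩ := CntL_letter h hi'
    have h1 := h.hg i hi'
    rw [CntL_isG hc] at h1
    rw [pre_succ hc, ih hi'.le, CntL_cG, Nat.succ_div]
    by_cases hz : g = true
    · rw [if_pos hz, if_pos (h1.1 hz)]
      push_cast
      rfl
    · rw [if_neg hz, if_neg (fun h2 => hz (h1.2 h2))]
      push_cast
      rfl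

theorem CntL_wt {f g k l : Lt → ℤ} (H : ∀ a, f a = g a + k a - l a) (u : List Lt) :
    wt f u = wt g u + wt k u - wt l u := by
  induction u with
  | nil => simp [wt]
  | cons a u ih =>
    unfold wt at ih ⊢
    rw [List.map_cons, List.map_cons, List.map_cons, List.map_cons, List.sum_cons, List.sum_cons, List.sum_cons,
      List.sum_cons, ih, H]
    ring

theorem CntL_wt_zero (u : List Lt) : wt (fun _ => (0 : ℤ)) u = 0 := by
  induction u with
  | nil => simp [wt]
  | cons a u ih =>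
    unfold wt at ih ⊢
    rw [List.map_cons, List.sum_cons, ih, add_zero]

theorem CntL_sub {f g l : Lt → ℤ} (H : ∀ a, f a = g a - l a) (w : List Lt) (i : ℕ) :
    pre f w i = pre g w i - pre l w i := by
  have h1 := CntL_wt (f := f) (g := g) (k := fun _ => (0 : ℤ)) (l := l)
    (fun a => by rw [H a]; ring) (w.take i)
  rw [CntL_wt_zero] at h1
  unfold pre
  rw [h1]
  ring

theorem CntL_add {f g l : Lt → ℤ} (H : ∀ a, f a = g a + l a) (w : List Lt) (i : ℕ) :
    pre f w i = pre g w i + pre l w i := by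
  have h1 := CntL_wt (f := f) (g := g) (k := l) (l := fun _ => (0 : ℤ))
    (fun a => by rw [H a]; ring) (w.take i)
  rw [CntL_wt_zero] at h1
  unfold pre
  rw [h1]
  ring

theorem pre_wTM (w : List Lt) (i : ℕ) : pre wTM w i = pre cTau w i + pre cMu w i - pre cTh w i :=
  CntL_wt (by decide) _

theorem pre_wTS (w : List Lt) (i : ℕ) : pre wTS w i = pre cTau w i + pre cSg w i - pre cTh w i :=
  CntL_wt (by decide) _

theorem pre_wRI (w : List Lt) (i : ℕ) : pre wRI w i = pre cMu w i - pre wC w i :=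
  CntL_sub (by decide) w i

theorem pre_wRII (w : List Lt) (i : ℕ) :
    pre wRII w i = pre cMu w i + pre wC w i - pre wK w i :=
  CntL_wt (by decide) _

theorem pre_wJ1 (w : List Lt) (i : ℕ) : pre wJ1 w i = pre wZN w i + pre wI w i :=
  CntL_add (by decide) w i

theorem pre_wJ2 (w : List Lt) (i : ℕ) :
    pre wJ2 w i = pre wMT w i + pre cSg w i - pre wI w i :=
  CntL_wt (by decide) _

theorem pre_wJ3 (w : List Lt) (i : ℕ) : pre wJ3 w i = pre wMT w i + pre cSg w i :=
  CntL_add (by decide) w i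

theorem pre_wKM (w : List Lt) (i : ℕ) : pre wKM w i = pre wK w i - pre cMu w i :=
  CntL_sub (by decide) w i

theorem pre_wZN (w : List Lt) (i : ℕ) : pre wZN w i = pre cZ w i - pre cNu w i :=
  CntL_sub (by decide) w i

theorem pre_wMT (w : List Lt) (i : ℕ) : pre wMT w i = pre cMu w i - pre cTp w i :=
  CntL_sub (by decide) w i

theorem CntL_lt {i : ℕ} {c : Lt} (h : w[i]? = some c) : i < w.length := by
  obtain ⟨h, _⟩ := List.getElem?_eq_some_iff.1 h
  exact h

theorem CntL_len (f : Lt → ℤ) (w : List Lt) : pre f w w.length = wt f w := by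
  unfold pre
  rw [List.take_length]

theorem pre_zero_of_reg (h : FS w Z b1 b2 ln) {f : Lt → ℤ} {i : ℕ} {c : Lt}
    (hi : w[i]? = some c) (hf : ∀ a, reg a ≤ reg c → f a = 0) : pre f w i = 0 := by
  have hl := CntL_lt hi
  rw [pre_eq_of_zero (Nat.zero_le i) hl.le, pre_zero]
  intro t _ ht
  have ht' : t < w.length := by omega
  exact ⟨w[t], List.getElem?_eq_getElem ht', hf _ (h.srt t i _ c ht.le (List.getElem?_eq_getElem ht') hi)⟩

theorem pre_tot_of_reg (h : FS w Z b1 b2 ln) {f : Lt → ℤ} {i : ℕ} {c : Lt}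
    (hi : w[i]? = some c) (hf : ∀ a, reg c ≤ reg a → f a = 0) :
    pre f w i = wt f w ∧ pre f w (i + 1) = wt f w := by
  have hl := CntL_lt hi
  have h1 : pre f w i = wt f w := by
    rw [← CntL_len f w]
    refine (pre_eq_of_zero hl.le le_rfl ?_).symm
    intro t ht ht'
    exact ⟨w[t], List.getElem?_eq_getElem ht', hf _ (h.srt i t c _ ht hi (List.getElem?_eq_getElem ht'))⟩
  refine ⟨h1, ?_⟩
  rw [pre_succ hi, h1, hf c le_rfl, add_zero]

/-- in the left region all weights of non-left letters vanish -/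
theorem pre_left (h : FS w Z b1 b2 ln) {f : Lt → ℤ} {i : ℕ} (hi : i ≤ ln)
    (hf : ∀ a, isLeft a → f a = 0) : pre f w i = 0 := by
  rw [pre_eq_of_zero (Nat.zero_le i) (hi.trans h.lnle), pre_zero]
  intro t _ ht
  exact (h.left t (by omega)).mono hf

theorem CntL_cSg (c : Lt) : (cSg c = 0 ∧ c ≠ sg) ∨ (cSg c = 1 ∧ c = sg) := by
  revert c
  decide

theorem exists_sg (w : List Lt) {n : ℕ} (h1 : 1 ≤ n) (hn : (n : ℤ) ≤ wt cSg w) :
    ∃ s, Is w s (· = sg) ∧ pre cSg w (s + 1) = n := by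
  classical
  have hex : ∃ i, (n : ℤ) ≤ pre cSg w i := ⟨w.length, by rw [CntL_len]; exact hn⟩
  have hfind := Nat.find_spec hex
  have hmin := fun {m : ℕ} (hm : m < Nat.find hex) => Nat.find_min hex hm
  rcases Nat.eq_zero_or_pos (Nat.find hex) with h0 | h0
  · rw [h0, pre_zero] at hfind
    omega
  · obtain ⟨s, hs⟩ := Nat.exists_eq_succ_of_ne_zero h0.ne'
    rw [hs] at hfind
    have h2 : ¬ (n : ℤ) ≤ pre cSg w s := hmin (by omega)
    rw [Nat.succ_eq_add_one] at hfind
    rcases Nat.lt_or_ge s w.length with hl | hl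
    · have hc : w[s]? = some w[s] := List.getElem?_eq_getElem hl
      have h3 := pre_succ (f := cSg) hc
      rcases CntL_cSg w[s] with ⟨h4, _⟩ | ⟨h4, h5⟩
      · rw [h4] at h3
        omega
      · refine ⟨s, ⟨w[s], hc, h5⟩, ?_⟩
        rw [h4] at h3
        omega
    · exfalso
      apply h2
      have h3 : pre cSg w (s + 1) = pre cSg w s := by
        unfold pre
        rw [List.take_of_length_le hl, List.take_of_length_le (by omega)]
      rw [← h3]
      exact hfind

theorem pre_le_wt {f : Lt → ℤ} (hf : ∀ a, 0 ≤ f a) (w : List Lt) (i : ℕ) : pre f w i ≤ wt f w := by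
  rcases Nat.lt_or_ge w.length i with hl | hl
  · unfold pre
    rw [List.take_of_length_le hl.le]
  · rw [← CntL_len f w]
    exact pre_mono hf hl

theorem add_Lo {Z : ℕ} (hZ : 0 < Z) (x : ℕ) : x + Lo Z x = Z * (x / Z + 1) := by
  have h1 := Nat.div_add_mod x Z
  have h2 := Nat.mod_lt x hZ
  have h3 : Z * (x / Z + 1) = Z * (x / Z) + Z := by ring
  unfold Lo
  rw [h3]
  omega

theorem Lo_pos {Z : ℕ} (hZ : 0 < Z) (x : ℕ) : 1 ≤ Lo Z x := by
  have h2 := Nat.mod_lt x hZ
  unfold Lo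
  omega

theorem Lo_le (Z x : ℕ) : Lo Z x ≤ Z := Nat.sub_le _ _

theorem CntL_dvd {Z : ℕ} (hZ : 0 < Z) (x : ℕ) : Z ∣ x + 1 ↔ Lo Z x = 1 := by
  have h1 := add_Lo hZ x
  constructor
  · intro h
    have h2 := Nat.div_add_mod x Z
    have h3 := Nat.mod_lt x hZ
    have h4 : x + 1 = Z * (x / Z) + (x % Z + 1) := by omega
    rw [h4] at h
    have h5 : Z ∣ x % Z + 1 := (Nat.dvd_add_right (Dvd.intro _ rfl)).1 h
    have h6 := Nat.le_of_dvd (Nat.succ_pos _) h5
    unfold Lo
    omega
  · intro h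
    rw [h] at h1
    rw [h1]
    exact Dvd.intro _ rfl

/-- a left position is a `z` letter iff `Lo = 1` -/
theorem isZ_iff_Lo (h : FS w Z b1 b2 ln) {i : ℕ} (hi : i < ln) : Is w i isZ ↔ Lo Z i = 1 := by
  rw [h.hz i hi, CntL_dvd h.Zpos]

/-- a left position is either a `z` letter or an `nz` letter -/
theorem isNZ_iff (h : FS w Z b1 b2 ln) {i : ℕ} (hi : i < ln) : Is w i isNZ ↔ ¬ Z ∣ i + 1 := by
  obtain ⟨z, t, g, hc⟩ := CntL_letter h hi
  rw [← h.hz i hi, CntL_isZ hc, CntL_isNZ hc]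
  cases z <;> simp

/-- positions of left letters are below `ln` -/
theorem lt_ln (h : FS w Z b1 b2 ln) {i : ℕ} (hi : Is w i isLeft) : i < ln := by
  by_contra hcon
  obtain ⟨c, hc, hl⟩ := hi
  exact ((CntL_is hc).1 (h.nleft i (not_lt.1 hcon) (CntL_lt hc))) hl

end Pool.Agent.H29.CJ

end S_CntL
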