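import Mathlib
import Pool.Agent.H29.CL.M1
import Pool.Agent.H29.CL.M3

/-! Conjunctive languages and homomorphisms, part M9: this file joins several modules to save build time. -/

section S_UnD

/-!
# The universal language: definitions

Alphabet `Ct α`: text tokens and letters `x a`.  The text `txt G pd` of a grammar `G : Gr α K` is `s m s p^pd`, where `s` is the
concatenation of the sections of the nonterminals; section `A` is `S l^A o (content) o l^A E`, the content lists the letters
`b a` with `G.base A a`, and then the rules `R (I l^B o l^C o)*`.  A word `w` is coded by `enc G pd w`, every letter `a` being replaced by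
`txt G pd ++ [x a]`.  The language `LU` (independent of `G`) contains `enc G pd w` iff `G.D 0 w`.
-/

set_option autoImplicit false

namespace Pool.Agent.H29.CJ

/-- The alphabet of the universal language. -/
inductive Ct (α : Type) : Type
  | S | E | o | l | m | R | I | p
  | b (a : α)
  | x (a : α)

open Ct

variable {α : Type}

def isx (c : Ct α) : Prop := ∃ a, c = x a
def isb (c : Ct α) : Prop := ∃ a, c = b a
def tok (c : Ct α) : Prop := ¬ isx c
def tokm (c : Ct α) : Prop := ¬ isx c ∧ c ≠ m
def inner (c : Ct α) : Prop := c = l ∨ c = o ∨ c = R ∨ c = I ∨ isb c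

/-- leading name -/
def nmS : Set (List (Ct α)) := cat (LC (· = S)) (cat (ST (· = l)) (LC (· = o)))
/-- trailing name -/
def nmE : Set (List (Ct α)) := cat (LC (· = o)) (cat (ST (· = l)) (LC (· = E)))

def BaseL : Set (List (Ct α)) :=
  {w | ∃ a, w ∈ cat (ST isb) (cat (LC (· = b a)) (cat (ST tok) (LC (· = x a))))}
def BaseR : Set (List (Ct α)) :=
  {w | ∃ a, w ∈ cat (LC (· = x a)) (cat (ST tokm) (cat (LC (· = b a)) (ST inner)))}

/-- an item text -/
def ItT : Set (List (Ct α)) :=
  cat (LC (· = I)) (cat (ST (· = l)) (cat (LC (· = o)) (cat (ST (· = l)) (LC (· = o)))))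

def MB : Set (List (Ct α)) :=
  cat (LC (· = I)) (cat (Sync (LC (· = l)) (cat (LC (· = o)) (cat Set.univ (LC (· = o))))
    (LC (· = l))) (LC (· = E)))
def MC : Set (List (Ct α)) :=
  cat (LC (· = I)) (cat (ST (· = l)) (cat (LC (· = o))
    (cat (Sync (LC (· = l)) (cat (LC (· = o)) (cat Set.univ (LC (· = S)))) (LC (· = l)))
      (LC (· = o)))))
def GapL : Set (List (Ct α)) := cat (ST tokm) (cat (LC (· = m)) (cat (ST tokm) nmS))
def GapR : Set (List (Ct α)) := cat (ST tokm) (cat (LC (· = m)) (ST tokm))
def MBR : Set (List (Ct α)) :=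
  cat (LC (· = o)) (cat (Sync (LC (· = l)) (cat (LC (· = E)) (cat Set.univ (LC (· = I))))
    (LC (· = l))) (cat (LC (· = o)) (cat (ST (· = l)) (LC (· = o)))))
def MCR : Set (List (Ct α)) :=
  cat (LC (· = S)) (cat (Sync (LC (· = l)) (cat (LC (· = o)) (cat Set.univ (LC (· = o))))
    (LC (· = l))) (LC (· = o)))

/-- the unknowns -/
inductive Vu : Type
  | LL | RL | IL | IR
  deriving DecidableEq, Fintype

def ItemL (X : Vu → Set (List (Ct α))) : Set (List (Ct α)) :=
  cat (MC ∩ cat (MB ∩ cat (ST tok) (cat (X .RL) nmE)) GapL) (X .LL)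

def ItemR (X : Vu → Set (List (Ct α))) : Set (List (Ct α)) :=
  cat (X .RL) (MBR ∩ cat nmE (cat GapR (MCR ∩ cat nmS (cat (X .LL) (ST tokm)))))

def PhiU : Vu → (Vu → Set (List (Ct α))) → Set (List (Ct α))
  | .LL, X => BaseL ∪ cat (ST inner) (cat (LC (· = R)) (X .IL))
  | .IL, X => cat (LC (· ≠ I)) Set.univ ∪ (ItemL X ∩ cat ItT (X .IL))
  | .RL, X => BaseR ∪ cat (X .IR) ({[]} ∪ cat (LC (· = R)) (ST inner))
  | .IR, X => cat Set.univ (LC (· = R)) ∪ (ItemR X ∩ cat (X .IR) ItT)

def SU : Vu → Set (List (Ct α)) := Lfp PhiU

/-- the universal language -/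
def LU : Set (List (Ct α)) :=
  cat (ST tokm) (cat (LC (· = m)) (cat (LC (· = S)) (cat (LC (· = o)) (SU .LL))))

noncomputable section

open Classical

variable [Fintype α] {K : ℕ} (G : Gr α K) (pd : ℕ) (w : List α)

def itm (q : Fin K × Fin K) : List (Ct α) :=
  I :: (List.replicate q.1 l ++ (o :: (List.replicate q.2 l ++ [o])))

def rul (ρ : List (Fin K × Fin K)) : List (Ct α) := R :: ρ.flatMap itm

def bas (A : Fin K) : List (Ct α) := (Finset.univ.filter (fun a => G.base A a)).toList.map Ct.b

def rls (A : Fin K) : List (Ct α) := (G.rules A).flatMap rul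

def cont (A : Fin K) : List (Ct α) := bas G A ++ rls G A

def sect (A : Fin K) : List (Ct α) :=
  S :: (List.replicate A l ++ (o :: (cont G A ++ (o :: (List.replicate A l ++ [E])))))

def sects : List (Ct α) := (List.finRange K).flatMap (sect G)

/-- the text of the grammar -/
def txt : List (Ct α) := sects G ++ (m :: (sects G ++ List.replicate pd p))

/-- the code of a word -/
def enc : List (Ct α) := w.flatMap (fun a => txt G pd ++ [x a])

/-- chunk length -/
def dD : ℕ := (txt G pd).length + 1

/-- offset of section `A` in `sects` -/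
def oS (A : Fin K) : ℕ := (((List.finRange K).take A).flatMap (sect G)).length

/-- position of the letter `i` -/
def posx (i : ℕ) : ℕ := i * dD G pd + (txt G pd).length

/-- position of the separator `m` of chunk `i` -/
def posm (i : ℕ) : ℕ := i * dD G pd + (sects G).length

/-- position of the `S` of section `A` in copy `c` of chunk `i` -/
def secS (c : Bool) (i : ℕ) (A : Fin K) : ℕ :=
  i * dD G pd + (if c then (sects G).length + 1 else 0) + oS G A

/-- start of the content of section `A` -/
def posC (c : Bool) (i : ℕ) (A : Fin K) : ℕ := secS G pd c i A + A + 2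

/-- end of the content of section `A` (start of the trailing name) -/
def posE (c : Bool) (i : ℕ) (A : Fin K) : ℕ := posC G pd c i A + (cont G A).length

end

/-- `w` reads `v` from position `i`. -/
def Rd {β : Type} (w : List β) (i : ℕ) (v : List β) : Prop := i ≤ w.length ∧ v <+: w.drop i

end Pool.Agent.H29.CJ

end S_UnD

section S_UnCj

/-!
# The universal language is conjunctive

Use only the STATEMENTS of the imported files.

`Finite (Ct α)`: surjection from `Fin 8 ⊕ α ⊕ α` or `Finite.of_injective` into it.  All constants by the closure lemmas (`isConj_LC`, `isConj_ST`,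
`IsConj.cat`, `IsConj.sync`, `IsConj.exF` for `BaseL, BaseR`).  `Poly (PhiU v)`; `isConj_Lfp`.
-/

set_option autoImplicit false

namespace Pool.Agent.H29.CJ

open Ct

/-- the code of a letter -/
def UnCj_c {α : Type} : Ct α → Fin 8 ⊕ (α ⊕ α)
  | .S => .inl 0
  | .E => .inl 1
  | .o => .inl 2
  | .l => .inl 3
  | .m => .inl 4
  | .R => .inl 5
  | .I => .inl 6
  | .p => .inl 7
  | .b a => .inr (.inl a)
  | .x a => .inr (.inr a)

/-- its inverse -/
def UnCj_d {α : Type} : Fin 8 ⊕ (α ⊕ α) → Ct α
  | .inl i => if i = 0 then S else if i = 1 then E else if i = 2 then o else if i = 3 then l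
      else if i = 4 then m else if i = 5 then R else if i = 6 then I else p
  | .inr (.inl a) => b a
  | .inr (.inr a) => x a

instance finite_Ct {α : Type} [Finite α] : Finite (Ct α) := by
  refine Finite.of_injective (UnCj_c (α := α)) (Function.LeftInverse.injective (g := UnCj_d) ?_)
  intro c
  cases c <;> simp [UnCj_c, UnCj_d]

section

variable {α : Type} [Finite α]

theorem UnCj_BaseL : IsConj (BaseL : Set (List (Ct α))) :=
  IsConj.exF fun _ => (isConj_ST _).cat ((isConj_LC _).cat ((isConj_ST _).cat (isConj_LC _)))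

theorem UnCj_BaseR : IsConj (BaseR : Set (List (Ct α))) :=
  IsConj.exF fun _ => (isConj_LC _).cat ((isConj_ST _).cat ((isConj_LC _).cat (isConj_ST _)))

theorem UnCj_nmS : IsConj (nmS : Set (List (Ct α))) :=
  (isConj_LC _).cat ((isConj_ST _).cat (isConj_LC _))

theorem UnCj_nmE : IsConj (nmE : Set (List (Ct α))) :=
  (isConj_LC _).cat ((isConj_ST _).cat (isConj_LC _))

theorem UnCj_ItT : IsConj (ItT : Set (List (Ct α))) :=
  (isConj_LC _).cat ((isConj_ST _).cat ((isConj_LC _).cat ((isConj_ST _).cat (isConj_LC _))))

theorem UnCj_MB : IsConj (MB : Set (List (Ct α))) :=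
  (isConj_LC _).cat (((isConj_LC _).sync ((isConj_LC _).cat (isConj_univ.cat (isConj_LC _)))
    (isConj_LC _)).cat (isConj_LC _))

theorem UnCj_MC : IsConj (MC : Set (List (Ct α))) :=
  (isConj_LC _).cat ((isConj_ST _).cat ((isConj_LC _).cat
    (((isConj_LC _).sync ((isConj_LC _).cat (isConj_univ.cat (isConj_LC _)))
      (isConj_LC _)).cat (isConj_LC _))))

theorem UnCj_GapL : IsConj (GapL : Set (List (Ct α))) :=
  (isConj_ST _).cat ((isConj_LC _).cat ((isConj_ST _).cat UnCj_nmS))

theorem UnCj_GapR : IsConj (GapR : Set (List (Ct α))) :=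
  (isConj_ST _).cat ((isConj_LC _).cat (isConj_ST _))

theorem UnCj_MBR : IsConj (MBR : Set (List (Ct α))) :=
  (isConj_LC _).cat (((isConj_LC _).sync ((isConj_LC _).cat (isConj_univ.cat (isConj_LC _)))
    (isConj_LC _)).cat ((isConj_LC _).cat ((isConj_ST _).cat (isConj_LC _))))

theorem UnCj_MCR : IsConj (MCR : Set (List (Ct α))) :=
  (isConj_LC _).cat (((isConj_LC _).sync ((isConj_LC _).cat (isConj_univ.cat (isConj_LC _)))
    (isConj_LC _)).cat (isConj_LC _))

theorem UnCj_poly (v : Vu) : Poly (PhiU v : (Vu → Set (List (Ct α))) → Set (List (Ct α))) := by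
  cases v
  · exact Poly.union (Poly.cst _ UnCj_BaseL) (Poly.cat (Poly.cst _ (isConj_ST _))
      (Poly.cat (Poly.cst _ (isConj_LC _)) (Poly.var Vu.IL)))
  · exact Poly.union (Poly.cst _ UnCj_BaseR) (Poly.cat (Poly.var Vu.IR)
      (Poly.union (Poly.cst _ isConj_eps) (Poly.cat (Poly.cst _ (isConj_LC _))
        (Poly.cst _ (isConj_ST _)))))
  · exact Poly.union (Poly.cat (Poly.cst _ (isConj_LC _)) (Poly.cst _ isConj_univ))
      (Poly.inter
        (Poly.cat (Poly.inter (Poly.cst _ UnCj_MC) (Poly.cat (Poly.inter (Poly.cst _ UnCj_MB)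
          (Poly.cat (Poly.cst _ (isConj_ST _)) (Poly.cat (Poly.var Vu.RL)
            (Poly.cst _ UnCj_nmE)))) (Poly.cst _ UnCj_GapL))) (Poly.var Vu.LL))
        (Poly.cat (Poly.cst _ UnCj_ItT) (Poly.var Vu.IL)))
  · exact Poly.union (Poly.cat (Poly.cst _ isConj_univ) (Poly.cst _ (isConj_LC _)))
      (Poly.inter
        (Poly.cat (Poly.var Vu.RL) (Poly.inter (Poly.cst _ UnCj_MBR)
          (Poly.cat (Poly.cst _ UnCj_nmE) (Poly.cat (Poly.cst _ UnCj_GapR)
            (Poly.inter (Poly.cst _ UnCj_MCR) (Poly.cat (Poly.cst _ UnCj_nmS)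
              (Poly.cat (Poly.var Vu.LL) (Poly.cst _ (isConj_ST _)))))))))
        (Poly.cat (Poly.var Vu.IR) (Poly.cst _ UnCj_ItT)))

end

theorem isConj_LU {α : Type} [Finite α] : IsConj (LU : Set (List (Ct α))) :=
  (isConj_ST _).cat ((isConj_LC _).cat ((isConj_LC _).cat ((isConj_LC _).cat
    (isConj_Lfp UnCj_poly Vu.LL))))

theorem UnCj_mono {α : Type} (v : Vu) (X Y : Vu → Set (List (Ct α))) (h : ∀ i, X i ⊆ Y i) :
    PhiU v X ⊆ PhiU v Y := by
  cases v
  · exact Set.union_subset_union subset_rfl (cat_mono subset_rfl (cat_mono subset_rfl (h _)))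
  · exact Set.union_subset_union subset_rfl (cat_mono (h _) subset_rfl)
  · exact Set.union_subset_union subset_rfl (Set.inter_subset_inter
      (cat_mono (Set.inter_subset_inter subset_rfl (cat_mono (Set.inter_subset_inter subset_rfl
        (cat_mono subset_rfl (cat_mono (h _) subset_rfl))) subset_rfl)) (h _))
      (cat_mono subset_rfl (h _)))
  · exact Set.union_subset_union subset_rfl (Set.inter_subset_inter
      (cat_mono (h _) (Set.inter_subset_inter subset_rfl (cat_mono subset_rfl
        (cat_mono subset_rfl (Set.inter_subset_inter subset_rfl (cat_mono subset_rfl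
          (cat_mono (h _) subset_rfl)))))))
      (cat_mono (h _) subset_rfl))

theorem sU_eq {α : Type} (v : Vu) : (SU v : Set (List (Ct α))) = PhiU v SU :=
  Lfp_eq UnCj_mono v

end Pool.Agent.H29.CJ

end S_UnCj

section S_UnF

/-!
# Positions in coded words

Use only the STATEMENTS of `AtL`.

`enc G pd w` is a concatenation of `w.length` chunks of the same length `dD`; general lemma: for `i < w.length`, `t < dD`:
`(enc G pd w)[i * dD + t]? = (txt G pd ++ [x w[i]])[t]?` (induction on `w`).  Every position `r < w.length * dD` is `i * dD + t` with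
`i = r / dD`, `t = r % dD`.  `txt = sects ++ m :: (sects ++ p^pd)`; the letters of `sects` are not `x _`, not `m` (all letters of `sect G A` are
`S, l, o, E, b _, R, I`).  `sects = ((finRange K).take A).flatMap sect ++ sect G A ++ rest` (`List.take_append_drop`, `List.drop_eq_getElem_cons`,
`List.getElem_finRange`); `Rd` of a part of the text at the right offset.
Order facts: `oS A + (sect G A).length ≤ (sects G).length`, `(sect G A).length = 2 A + 4 + (cont G A).length`.
-/

set_option autoImplicit false

namespace Pool.Agent.H29.CJ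

open Ct

variable {α : Type} [Fintype α] {K : ℕ} (G : Gr α K) (pd : ℕ) (w : List α)

theorem enc_length : (enc G pd w).length = w.length * dD G pd := by
  unfold enc
  induction w with
  | nil => simp
  | cons a w ih =>
    rw [List.flatMap_cons, List.length_append, ih, List.length_append, List.length_singleton,
      List.length_cons, Nat.succ_mul, Nat.add_comm]
    rfl

private theorem unf_get {w : List α} {i t : ℕ} (hi : i < w.length) (ht : t < dD G pd) :
    (enc G pd w)[i * dD G pd + t]? = (txt G pd ++ [x w[i]])[t]? := by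
  induction w generalizing i with
  | nil => simp at hi
  | cons a w ih =>
    have e : enc G pd (a :: w) = (txt G pd ++ [x a]) ++ enc G pd w := by
      unfold enc
      rw [List.flatMap_cons]
    have hl : (txt G pd ++ [x a]).length = dD G pd := by
      rw [List.length_append, List.length_singleton]
      rfl
    rw [e]
    cases i with
    | zero =>
      rw [Nat.zero_mul, Nat.zero_add, List.getElem?_append_left (by rw [hl]; exact ht)]
      rfl
    | succ i =>
      have hi' : i < w.length := by simpa using hi
      rw [List.getElem?_append_right (by rw [hl, Nat.succ_mul]; omega), hl]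
      have e2 : (i + 1) * dD G pd + t - dD G pd = i * dD G pd + t := by
        rw [Nat.succ_mul]
        omega
      rw [e2, ih hi']
      rfl

private theorem unf_txt_length : (txt G pd).length = (sects G).length + 1 + ((sects G).length + pd) := by
  unfold txt
  simp
  omega

private theorem unf_sect_length (A : Fin K) : (sect G A).length = 2 * (A : ℕ) + 4 + (cont G A).length := by
  unfold sect
  simp
  omega

private theorem unf_cont_mem {A : Fin K} {c : Ct α} (h : c ∈ cont G A) : ¬ isx c ∧ c ≠ m := by
  unfold cont at h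
  rcases List.mem_append.1 h with h | h
  · unfold bas at h
    obtain ⟨a, _, rfl⟩ := List.mem_map.1 h
    constructor
    · rintro ⟨b, hb⟩
      cases hb
    · intro hb
      cases hb
  · unfold rls at h
    obtain ⟨ρ, _, h⟩ := List.mem_flatMap.1 h
    unfold rul at h
    rcases List.mem_cons.1 h with rfl | h
    · constructor
      · rintro ⟨b, hb⟩
        cases hb
      · intro hb
        cases hb
    · obtain ⟨q, _, h⟩ := List.mem_flatMap.1 h
      unfold itm at h
      simp only [List.mem_cons, List.mem_append, List.mem_replicate, List.mem_singleton,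
        List.not_mem_nil, or_false] at h
      rcases h with rfl | ⟨_, rfl⟩ | rfl | ⟨_, rfl⟩ | rfl <;>
      · constructor
        · rintro ⟨b, hb⟩
          cases hb
        · intro hb
          cases hb

private theorem unf_sects_mem {c : Ct α} (h : c ∈ sects G) : ¬ isx c ∧ c ≠ m := by
  unfold sects at h
  obtain ⟨A, _, h⟩ := List.mem_flatMap.1 h
  unfold sect at h
  simp only [List.mem_cons, List.mem_append, List.mem_replicate, List.mem_singleton,
    List.not_mem_nil, or_false] at h
  rcases h with rfl | ⟨_, rfl⟩ | rfl | h | rfl | ⟨_, rfl⟩ | rfl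
  · constructor
    · rintro ⟨b, hb⟩
      cases hb
    · intro hb
      cases hb
  · constructor
    · rintro ⟨b, hb⟩
      cases hb
    · intro hb
      cases hb
  · constructor
    · rintro ⟨b, hb⟩
      cases hb
    · intro hb
      cases hb
  · exact unf_cont_mem G h
  · constructor
    · rintro ⟨b, hb⟩
      cases hb
    · intro hb
      cases hb
  · constructor
    · rintro ⟨b, hb⟩
      cases hb
    · intro hb
      cases hb
  · constructor
    · rintro ⟨b, hb⟩
      cases hb
    · intro hb
      cases hb

/-- letters of the text by position -/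
private theorem unf_txt_get {t : ℕ} {c : Ct α} (h : (txt G pd)[t]? = some c) :
    ¬ isx c ∧ (t ≠ (sects G).length → c ≠ m) := by
  unfold txt at h
  rcases lt_trichotomy t (sects G).length with ht | ht | ht
  · rw [List.getElem?_append_left ht] at h
    have := unf_sects_mem G (List.mem_of_getElem? h)
    exact ⟨this.1, fun _ => this.2⟩
  · subst ht
    rw [List.getElem?_append_right le_rfl, Nat.sub_self] at h
    simp only [List.getElem?_cons_zero, Option.some.injEq] at h
    subst h
    refine ⟨?_, fun h => absurd rfl h⟩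
    rintro ⟨b, hb⟩
    cases hb
  · rw [List.getElem?_append_right ht.le] at h
    have h2 : c ∈ sects G ++ List.replicate pd p := by
      obtain ⟨s, hs⟩ : ∃ s, t - (sects G).length = s + 1 := ⟨t - (sects G).length - 1, by omega⟩
      rw [hs, List.getElem?_cons_succ] at h
      exact List.mem_of_getElem? h
    rcases List.mem_append.1 h2 with h2 | h2
    · have := unf_sects_mem G h2
      exact ⟨this.1, fun _ => this.2⟩
    · obtain ⟨_, rfl⟩ := List.mem_replicate.1 h2
      refine ⟨?_, fun _ => ?_⟩
      · rintro ⟨b, hb⟩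
        cases hb
      · intro hb
        cases hb

private theorem unf_dD : dD G pd = (txt G pd).length + 1 := rfl

private theorem unf_pos : 0 < dD G pd := by
  rw [unf_dD]
  omega

/-- decomposition of a position -/
private theorem unf_dec {r : ℕ} (hr : r < w.length * dD G pd) :
    ∃ i t, i < w.length ∧ t < dD G pd ∧ r = i * dD G pd + t := by
  refine ⟨r / dD G pd, r % dD G pd, ?_, Nat.mod_lt _ (unf_pos G pd), ?_⟩
  · exact (Nat.div_lt_iff_lt_mul (unf_pos G pd)).2 hr
  · rw [Nat.mul_comm]
    exact (Nat.div_add_mod r (dD G pd)).symm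

theorem enc_x {i : ℕ} (hi : i < w.length) : (enc G pd w)[posx G pd i]? = some (x w[i]) := by
  have h := unf_get G pd hi (t := (txt G pd).length) (by rw [unf_dD]; omega)
  unfold posx
  rw [h, List.getElem?_append_right le_rfl, Nat.sub_self]
  rfl

/-- the letter at a position -/
private theorem unf_letter {r : ℕ} {c : Ct α} (h : (enc G pd w)[r]? = some c) :
    ∃ i t, ∃ hi : i < w.length, r = i * dD G pd + t ∧
      ((t < (txt G pd).length ∧ (txt G pd)[t]? = some c) ∨ (t = (txt G pd).length ∧ c = x w[i])) := by
  have hr : r < w.length * dD G pd := by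
    rw [← enc_length]
    exact (List.getElem?_eq_some_iff.1 h).1
  obtain ⟨i, t, hi, ht, e⟩ := unf_dec G pd w hr
  refine ⟨i, t, hi, e, ?_⟩
  subst e
  rw [unf_get G pd hi ht] at h
  rw [unf_dD] at ht
  rcases Nat.lt_succ_iff_lt_or_eq.1 ht with ht' | ht'
  · left
    rw [List.getElem?_append_left ht'] at h
    exact ⟨ht', h⟩
  · right
    refine ⟨ht', ?_⟩
    subst ht'
    rw [List.getElem?_append_right le_rfl, Nat.sub_self] at h
    simp only [List.getElem?_cons_zero, Option.some.injEq] at h
    exact h.symm

theorem enc_isx {r : ℕ} {a : α} (h : (enc G pd w)[r]? = some (x a)) :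
    ∃ i, ∃ hi : i < w.length, r = posx G pd i ∧ a = w[i] := by
  obtain ⟨i, t, hi, e, h1 | h1⟩ := unf_letter G pd w h
  · exact absurd ⟨a, rfl⟩ (unf_txt_get G pd h1.2).1
  · refine ⟨i, hi, ?_, ?_⟩
    · rw [e, h1.1]
      rfl
    · have := h1.2
      injection this

theorem enc_m {i : ℕ} (hi : i < w.length) : Is (enc G pd w) (posm G pd i) (· = m) := by
  have hl := unf_txt_length G pd
  have h := unf_get G pd hi (t := (sects G).length) (by rw [unf_dD]; omega)
  refine ⟨m, ?_, rfl⟩
  unfold posm
  rw [h, List.getElem?_append_left (by omega)]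
  unfold txt
  rw [List.getElem?_append_right le_rfl, Nat.sub_self]
  rfl

theorem enc_ism {r : ℕ} (h : Is (enc G pd w) r (· = m)) : ∃ i < w.length, r = posm G pd i := by
  obtain ⟨c, h, rfl⟩ := h
  obtain ⟨i, t, hi, e, h1 | h1⟩ := unf_letter G pd w h
  · refine ⟨i, hi, ?_⟩
    have h2 := (unf_txt_get G pd h1.2).2
    have h3 : t = (sects G).length := by
      by_contra hne
      exact h2 hne rfl
    rw [e, h3]
    rfl
  · have := h1.2
    cases this

private theorem unf_some {r : ℕ} (hr : r < w.length * dD G pd) : ∃ c, (enc G pd w)[r]? = some c := by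
  rw [← enc_length] at hr
  exact ⟨_, List.getElem?_eq_getElem hr⟩

theorem enc_tok {r : ℕ} (hr : r < w.length * dD G pd) (h : ∀ i, r ≠ posx G pd i) :
    Is (enc G pd w) r tok := by
  obtain ⟨c, hc⟩ := unf_some G pd w hr
  refine ⟨c, hc, ?_⟩
  rintro ⟨a, rfl⟩
  obtain ⟨i, hi, e, _⟩ := enc_isx G pd w hc
  exact h i e

theorem enc_tokm {r : ℕ} (hr : r < w.length * dD G pd) (h : ∀ i, r ≠ posx G pd i)
    (h' : ∀ i, r ≠ posm G pd i) : Is (enc G pd w) r tokm := by
  obtain ⟨c, hc⟩ := unf_some G pd w hr
  refine ⟨c, hc, ?_, ?_⟩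
  · rintro ⟨a, rfl⟩
    obtain ⟨i, hi, e, _⟩ := enc_isx G pd w hc
    exact h i e
  · intro hm
    obtain ⟨i, _, e⟩ := enc_ism G pd w ⟨c, hc, hm⟩
    exact h' i e

private theorem unf_Rd {β : Type} {w P v Q : List β} (h : w = P ++ (v ++ Q)) : Rd w P.length v := by
  subst h
  refine ⟨by simp, ?_⟩
  rw [List.drop_left]
  exact List.prefix_append v Q

private theorem unf_sects_split (A : Fin K) :
    ∃ P Q, sects G = P ++ (sect G A ++ Q) ∧ P.length = oS G A := by
  refine ⟨((List.finRange K).take A).flatMap (sect G), ((List.finRange K).drop (A + 1)).flatMap (sect G), ?_, rfl⟩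
  have hA : (A : ℕ) < (List.finRange K).length := by
    rw [List.length_finRange]
    exact A.2
  have e : List.finRange K = (List.finRange K).take A ++ (A :: (List.finRange K).drop (A + 1)) := by
    conv_lhs => rw [← List.take_append_drop A (List.finRange K)]
    congr 1
    rw [List.drop_eq_getElem_cons hA, List.getElem_finRange]
    rfl
  unfold sects
  conv_lhs => rw [e]
  rw [List.flatMap_append, List.flatMap_cons]

theorem enc_sect {i : ℕ} (hi : i < w.length) (c : Bool) (A : Fin K) :
    Rd (enc G pd w) (secS G pd c i A) (sect G A) := by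
  obtain ⟨P3, Q3, e3, l3⟩ := unf_sects_split G A
  -- the text
  obtain ⟨P2, Q2, e2, l2⟩ : ∃ P2 Q2, txt G pd = P2 ++ (sects G ++ Q2) ∧
      P2.length = (if c then (sects G).length + 1 else 0) := by
    cases c with
    | false => exact ⟨[], m :: (sects G ++ List.replicate pd p), by unfold txt; rfl, rfl⟩
    | true =>
      refine ⟨sects G ++ [m], List.replicate pd p, by unfold txt; simp, ?_⟩
      simp
  obtain ⟨P1, Q1, e1, l1⟩ : ∃ P1 Q1, enc G pd w = P1 ++ (txt G pd ++ Q1) ∧ P1.length = i * dD G pd := by
    refine ⟨enc G pd (w.take i), [x w[i]] ++ enc G pd (w.drop (i + 1)), ?_, ?_⟩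
    · have e : w = w.take i ++ (w[i] :: w.drop (i + 1)) := by
        conv_lhs => rw [← List.take_append_drop i w]
        congr 1
        exact List.drop_eq_getElem_cons hi
      have e' : enc G pd w = enc G pd (w.take i ++ (w[i] :: w.drop (i + 1))) := congrArg _ e
      rw [e']
      unfold enc
      rw [List.flatMap_append, List.flatMap_cons, List.append_assoc]
    · rw [enc_length, List.length_take, min_eq_left hi.le]
  have e : enc G pd w = (P1 ++ P2 ++ P3) ++ (sect G A ++ (Q3 ++ Q2 ++ Q1)) := by
    rw [e1, e2, e3]
    simp only [List.append_assoc]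
  have h := unf_Rd e
  have hl : (P1 ++ P2 ++ P3).length = secS G pd c i A := by
    rw [List.length_append, List.length_append, l1, l2, l3]
    rfl
  rwa [hl] at h

private theorem unf_oS (A : Fin K) : oS G A + (sect G A).length ≤ (sects G).length := by
  obtain ⟨P3, Q3, e3, l3⟩ := unf_sects_split G A
  rw [e3, List.length_append, List.length_append, l3]
  omega

/-- order of the positions in chunk `i` -/
theorem pos_order (i : ℕ) (A : Fin K) :
    i * dD G pd ≤ secS G pd false i A ∧ posE G pd false i A + A + 2 ≤ posm G pd i ∧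
    posm G pd i < secS G pd true i A ∧ posE G pd true i A + A + 2 ≤ posx G pd i ∧
    posx G pd i + 1 = (i + 1) * dD G pd ∧ i * dD G pd ≤ posm G pd i ∧
    posm G pd i < posx G pd i := by
  have h1 := unf_oS G A
  have h2 := unf_sect_length G A
  have h3 := unf_txt_length G pd
  have h4 : (i + 1) * dD G pd = i * dD G pd + ((txt G pd).length + 1) := by
    rw [Nat.succ_mul]
    rfl
  have h5 : secS G pd false i A = i * dD G pd + 0 + oS G A := rfl
  have h6 : secS G pd true i A = i * dD G pd + ((sects G).length + 1) + oS G A := rfl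
  unfold posE posC posm posx
  rw [h4, h5, h6]
  refine ⟨?_, ?_, ?_, ?_, ?_, ?_, ?_⟩ <;> omega

theorem dD_pos : 0 < dD G pd := by
  exact unf_pos G pd

/-- between consecutive letters there are only text tokens -/
theorem no_x_between {i r : ℕ} (h1 : i * dD G pd ≤ r) (h2 : r < posx G pd i) (j : ℕ) :
    r ≠ posx G pd j := by
  rintro rfl
  unfold posx at h1 h2
  have hd : dD G pd = (txt G pd).length + 1 := rfl
  rcases Nat.lt_or_ge j i with hj | hj
  · have h3 := Nat.mul_le_mul_right (dD G pd) (Nat.succ_le_of_lt hj)
    rw [Nat.succ_mul] at h3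
    omega
  · have h3 := Nat.mul_le_mul_right (dD G pd) hj
    omega

theorem no_m_first {i r : ℕ} (h1 : i * dD G pd ≤ r) (h2 : r < posm G pd i) (j : ℕ) :
    r ≠ posm G pd j := by
  rintro rfl
  unfold posm at h1 h2
  have hd : dD G pd = (txt G pd).length + 1 := rfl
  have hl := unf_txt_length G pd
  rcases Nat.lt_or_ge j i with hj | hj
  · have h3 := Nat.mul_le_mul_right (dD G pd) (Nat.succ_le_of_lt hj)
    rw [Nat.succ_mul] at h3
    omega
  · have h3 := Nat.mul_le_mul_right (dD G pd) hj
    omega

theorem no_m_second {i r : ℕ} (h1 : posm G pd i < r) (h2 : r ≤ posx G pd i) (j : ℕ) :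
    r ≠ posm G pd j := by
  rintro rfl
  unfold posm at h1 h2
  unfold posx at h2
  have hd : dD G pd = (txt G pd).length + 1 := rfl
  have hl := unf_txt_length G pd
  rcases Nat.lt_or_ge i j with hj | hj
  · have h3 := Nat.mul_le_mul_right (dD G pd) (Nat.succ_le_of_lt hj)
    rw [Nat.succ_mul] at h3
    omega
  · have h3 := Nat.mul_le_mul_right (dD G pd) hj
    omega

/-- reading: letters of a part that is read -/
theorem Rd.get {β : Type} {w : List β} {i : ℕ} {v : List β} (h : Rd w i v) {t : ℕ}
    (ht : t < v.length) : w[i + t]? = v[t]? := by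
  obtain ⟨h1, s, hs⟩ := h
  rw [← List.getElem?_drop, ← hs, List.getElem?_append_left ht]

theorem Rd.append_left {β : Type} {w : List β} {i : ℕ} {u v : List β} (h : Rd w i (u ++ v)) :
    Rd w i u := by
  obtain ⟨h1, s, hs⟩ := h
  exact ⟨h1, v ++ s, by rw [← hs, List.append_assoc]⟩

theorem Rd.append_right {β : Type} {w : List β} {i : ℕ} {u v : List β} (h : Rd w i (u ++ v)) :
    Rd w (i + u.length) v := by
  obtain ⟨h1, s, hs⟩ := h
  have hl : (w.drop i).length = u.length + v.length + s.length := by
    rw [← hs, List.length_append, List.length_append]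
  rw [List.length_drop] at hl
  refine ⟨by omega, s, ?_⟩
  rw [← List.drop_drop, ← hs, List.append_assoc, List.drop_left]

theorem Rd.le {β : Type} {w : List β} {i : ℕ} {v : List β} (h : Rd w i v) :
    i + v.length ≤ w.length := by
  obtain ⟨h1, s, hs⟩ := h
  have hl : (w.drop i).length = v.length + s.length := by
    rw [← hs, List.length_append]
  rw [List.length_drop] at hl
  omega

theorem Rd.at {β : Type} {w : List β} {i : ℕ} {v : List β} (h : Rd w i v) {L : Set (List β)}
    (hL : v ∈ L) : At w L i (i + v.length) := by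
  refine ⟨Nat.le_add_right _ _, h.le, ?_⟩
  obtain ⟨h1, s, hs⟩ := h
  have e : seg w i (i + v.length) = v := by
    unfold seg
    rw [List.drop_take, ← hs, Nat.add_sub_cancel_left, List.take_left]
  rw [e]
  exact hL

end Pool.Agent.H29.CJ

end S_UnF

section S_UnG

/-!
# Inversion of names

Use only the STATEMENTS of the imported files.

(E) An `E` letter of `enc G pd w` at position `r`: it lies in a chunk `j < w.length`, in one of the two copies of `sects`, in the section of some `A`,
and `sect G A = S :: (l^A ++ (o :: (cont ++ (o :: (l^A ++ [E])))))` contains `E` only as its last letter (letters of `cont` are `b, R, I, l, o`), so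
`r = posE c j A + A + 1`.  General tool: if a concatenation `(list).flatMap f` has the letter `E` at position `r`, then there is an element of the list
in whose piece it lies (`enc` is a `flatMap` of chunks; `sects` a `flatMap` of sections over `finRange K`).
Now `At (enc ..) nmE r e`: `e - 1` carries `E`, so `e = posE c j A + A + 2`; between `r` and `e - 1`: `o` at `r`, then `l`s up to `e - 2`.  By
`enc_sect`, the positions `posE c j A + 1, ..., posE c j A + A` carry `l`, and `posE c j A` carries `o`.  If `r < posE` then `posE` is strictly between `r` and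
`e - 1` and must carry `l`, contradiction; if `r > posE`, then `r` carries `l` (or `E`), contradiction.  So `r = posE c j A`.
(S) The same with the leading name: `S` occurs in `sect G A` only as its first letter; `At nmS r e`: `S` at `r`, `r = secS c j A`, then `l`s and `o` at `e - 1`;
positions `r+1..r+A` carry `l`, `r + A + 1` carries `o`; so `e = r + A + 2`.
-/

set_option autoImplicit false

namespace Pool.Agent.H29.CJ

open Ct

variable {α : Type} [Fintype α] {K : ℕ} (G : Gr α K) (pd : ℕ) (w : List α)

private theorem ung_flatMap {β γ : Type} (f : β → List γ) (L : List β) {r : ℕ} {a : γ}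
    (h : (L.flatMap f)[r]? = some a) :
    ∃ (t : ℕ) (ht : t < L.length) (q : ℕ), r = ((L.take t).flatMap f).length + q ∧
      (f L[t])[q]? = some a := by
  induction L generalizing r with
  | nil => simp at h
  | cons b L ih =>
    rw [List.flatMap_cons] at h
    by_cases hr : r < (f b).length
    · rw [List.getElem?_append_left hr] at h
      exact ⟨0, by simp, r, by simp, by simpa using h⟩
    · rw [List.getElem?_append_right (by omega)] at h
      obtain ⟨t, ht, q, e, hq⟩ := ih h
      refine ⟨t + 1, by simpa using ht, q, ?_, by simpa using hq⟩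
      rw [List.take_succ_cons, List.flatMap_cons, List.length_append]
      omega

/-- a letter of `l1 ++ l2` that is not in `l2` -/
private theorem ung_left {γ : Type} {l1 l2 : List γ} {a : γ} {q : ℕ} (h2 : a ∉ l2)
    (h : (l1 ++ l2)[q]? = some a) : l1[q]? = some a := by
  by_cases hq : q < l1.length
  · rwa [List.getElem?_append_left hq] at h
  · rw [List.getElem?_append_right (by omega)] at h
    exact absurd (List.mem_of_getElem? h) h2

/-- a letter of `l1 ++ l2` that is not in `l1` -/
private theorem ung_right {γ : Type} {l1 l2 : List γ} {a : γ} {q : ℕ} (h1 : a ∉ l1)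
    (h : (l1 ++ l2)[q]? = some a) : l1.length ≤ q ∧ l2[q - l1.length]? = some a := by
  by_cases hq : q < l1.length
  · rw [List.getElem?_append_left hq] at h
    exact absurd (List.mem_of_getElem? h) h1
  · rw [List.getElem?_append_right (by omega)] at h
    exact ⟨by omega, h⟩

private theorem ung_cont {A : Fin K} {c : Ct α} (h : c ∈ cont G A) :
    c = l ∨ c = o ∨ c = R ∨ c = I ∨ ∃ a, c = b a := by
  unfold cont at h
  rcases List.mem_append.1 h with h | h
  · unfold bas at h
    obtain ⟨a, -, rfl⟩ := List.mem_map.1 h
    exact Or.inr (Or.inr (Or.inr (Or.inr ⟨a, rfl⟩)))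
  · unfold rls at h
    obtain ⟨ρ, -, hρ⟩ := List.mem_flatMap.1 h
    unfold rul at hρ
    rcases List.mem_cons.1 hρ with rfl | hρ
    · simp
    · obtain ⟨q, -, hq⟩ := List.mem_flatMap.1 hρ
      unfold itm at hq
      rcases List.mem_cons.1 hq with rfl | hq
      · simp
      · rcases List.mem_append.1 hq with hq | hq
        · left
          exact List.eq_of_mem_replicate hq
        · rcases List.mem_cons.1 hq with rfl | hq
          · simp
          · rcases List.mem_append.1 hq with hq | hq
            · left
              exact List.eq_of_mem_replicate hq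
            · right
              left
              simpa using hq

private theorem ung_cont_E (A : Fin K) : (E : Ct α) ∉ cont G A := by
  intro h
  rcases ung_cont G h with h | h | h | h | ⟨a, h⟩ <;> cases h

private theorem ung_cont_S (A : Fin K) : (S : Ct α) ∉ cont G A := by
  intro h
  rcases ung_cont G h with h | h | h | h | ⟨a, h⟩ <;> cases h

private theorem ung_repl {c d : Ct α} (hcd : c ≠ d) (n : ℕ) : c ∉ List.replicate n d := by
  intro h
  exact hcd (List.eq_of_mem_replicate h)

/-- the section as two parts -/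
private theorem ung_sect_E (A : Fin K) {q : ℕ} (h : (sect G A)[q]? = some (E : Ct α)) :
    q = A + 2 + (cont G A).length + A + 1 := by
  have e : sect G A = (S :: (List.replicate A l ++ (o :: (cont G A ++
      (o :: List.replicate A l))))) ++ [E] := by
    simp [sect]
  rw [e] at h
  have h1 : (E : Ct α) ∉ (S :: (List.replicate (A : ℕ) l ++ (o :: (cont G A ++
      (o :: List.replicate (A : ℕ) l))))) := by
    intro hm
    rcases List.mem_cons.1 hm with hm | hm
    · cases hm
    · rcases List.mem_append.1 hm with hm | hm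
      · exact ung_repl (by simp) _ hm
      · rcases List.mem_cons.1 hm with hm | hm
        · cases hm
        · rcases List.mem_append.1 hm with hm | hm
          · exact ung_cont_E G A hm
          · rcases List.mem_cons.1 hm with hm | hm
            · cases hm
            · exact ung_repl (by simp) _ hm
  obtain ⟨h2, h3⟩ := ung_right h1 h
  have h4 := (List.getElem?_eq_some_iff.1 h3).1
  simp only [List.length_cons, List.length_append, List.length_replicate,
    List.length_nil] at h2 h4
  omega

private theorem ung_sect_S (A : Fin K) {q : ℕ} (h : (sect G A)[q]? = some (S : Ct α)) :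
    q = 0 := by
  have e : sect G A = [S] ++ (List.replicate A l ++ (o :: (cont G A ++
      (o :: (List.replicate A l ++ [E]))))) := by
    simp [sect]
  rw [e] at h
  have h1 : (S : Ct α) ∉ (List.replicate (A : ℕ) l ++ (o :: (cont G A ++
      (o :: (List.replicate (A : ℕ) l ++ [E]))))) := by
    intro hm
    rcases List.mem_append.1 hm with hm | hm
    · exact ung_repl (by simp) _ hm
    · rcases List.mem_cons.1 hm with hm | hm
      · cases hm
      · rcases List.mem_append.1 hm with hm | hm
        · exact ung_cont_S G A hm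
        · rcases List.mem_cons.1 hm with hm | hm
          · cases hm
          · rcases List.mem_append.1 hm with hm | hm
            · exact ung_repl (by simp) _ hm
            · simp at hm
  have h2 := ung_left h1 h
  have h4 := (List.getElem?_eq_some_iff.1 h2).1
  simp only [List.length_cons, List.length_nil] at h4
  omega

/-- a letter `S` or `E` of the code lies in a section -/
private theorem ung_enc {r : ℕ} {d : Ct α} (hd : d = S ∨ d = E)
    (h : (enc G pd w)[r]? = some d) :
    ∃ (c : Bool) (j : ℕ) (A : Fin K) (q : ℕ), j < w.length ∧ r = secS G pd c j A + q ∧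
      (sect G A)[q]? = some d := by
  have hx : ∀ a, d ≠ x a := by
    intro a
    rcases hd with rfl | rfl <;> simp
  have hm : d ≠ m := by
    rcases hd with rfl | rfl <;> simp
  have hp : d ≠ p := by
    rcases hd with rfl | rfl <;> simp
  obtain ⟨j, hj, q, e, hq⟩ := ung_flatMap _ w h
  have hlen : ((w.take j).flatMap (fun a => txt G pd ++ [x a])).length = j * dD G pd := by
    have h1 := enc_length G pd (w.take j)
    unfold enc at h1
    rw [h1, List.length_take, min_eq_left hj.le]
  rw [hlen] at e
  have hq1 : (txt G pd)[q]? = some d := by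
    apply ung_left _ hq
    intro hmem
    exact hx _ (by simpa using hmem)
  have key : ∀ q' : ℕ, (sects G)[q']? = some d → ∃ (A : Fin K) (q'' : ℕ), q' = oS G A + q'' ∧
      (sect G A)[q'']? = some d := by
    intro q' hq'
    unfold sects at hq'
    obtain ⟨t, ht, q'', e', hq''⟩ := ung_flatMap _ _ hq'
    have ht' : t < K := by simpa using ht
    refine ⟨⟨t, ht'⟩, q'', e', ?_⟩
    have e2 : (List.finRange K)[t] = ⟨t, ht'⟩ := by simp
    rw [e2] at hq''
    exact hq''
  unfold txt at hq1
  by_cases hs : q < (sects G).length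
  · rw [List.getElem?_append_left hs] at hq1
    obtain ⟨A, q'', e', h3⟩ := key q hq1
    refine ⟨false, j, A, q'', hj, ?_, h3⟩
    unfold secS
    simp only [Bool.false_eq_true, if_false]
    omega
  · rw [List.getElem?_append_right (by omega)] at hq1
    rcases Nat.eq_zero_or_pos (q - (sects G).length) with h0 | h0
    · rw [h0] at hq1
      exact absurd (by simpa using hq1.symm) hm
    · obtain ⟨s, hs'⟩ : ∃ s, q - (sects G).length = s + 1 := ⟨_, (Nat.succ_pred_eq_of_pos h0).symm⟩
      rw [hs', List.getElem?_cons_succ] at hq1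
      have hq2 := ung_left (ung_repl hp pd) hq1
      obtain ⟨A, q'', e', h3⟩ := key s hq2
      refine ⟨true, j, A, q'', hj, ?_, h3⟩
      unfold secS
      simp only [if_true]
      omega

private theorem ung_sect_length (A : Fin K) :
    (sect G A).length = A + 2 + (cont G A).length + A + 2 := by
  simp [sect]
  omega

/-- letters of a section -/
private theorem ung_sect_l1 (A : Fin K) {i : ℕ} (hi : i < A) :
    (sect G A)[1 + i]? = some (l : Ct α) := by
  unfold sect
  rw [Nat.add_comm 1 i, List.getElem?_cons_succ, List.getElem?_append_left (by simpa using hi)]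
  rw [List.getElem?_replicate, if_pos hi]

private theorem ung_sect_o1 (A : Fin K) : (sect G A)[(A : ℕ) + 1]? = some (o : Ct α) := by
  unfold sect
  rw [List.getElem?_cons_succ, List.getElem?_append_right (by simp)]
  simp

private theorem ung_sect_tail (A : Fin K) (i : ℕ) :
    (sect G A)[(A : ℕ) + 2 + (cont G A).length + i]? =
      (o :: (List.replicate A l ++ [(E : Ct α)]))[i]? := by
  unfold sect
  have e1 : (A : ℕ) + 2 + (cont G A).length + i = ((A : ℕ) + 1 + (cont G A).length + i) + 1 := by
    omega
  rw [e1, List.getElem?_cons_succ, List.getElem?_append_right (by simp; omega)]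
  rw [List.length_replicate]
  have e2 : (A : ℕ) + 1 + (cont G A).length + i - A = ((cont G A).length + i) + 1 := by omega
  rw [e2, List.getElem?_cons_succ, List.getElem?_append_right (by omega)]
  congr 1
  omega

theorem nmE_inv {r e : ℕ} (h : At (enc G pd w) nmE r e) :
    ∃ (c : Bool) (j : ℕ) (A : Fin K), j < w.length ∧ r = posE G pd c j A ∧ e = r + A + 2 := by
  obtain ⟨k1, h1, h2⟩ := at_cat.1 h
  obtain ⟨k2, h3, h4⟩ := at_cat.1 h2
  obtain ⟨rfl, h1'⟩ := at_LC.1 h1
  obtain ⟨rfl, h4'⟩ := at_LC.1 h4
  obtain ⟨h5, h6, h7⟩ := at_ST.1 h3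
  obtain ⟨d, hd, hdE⟩ := h4'
  have hdE' : d = E := hdE
  subst hdE'
  obtain ⟨c, j, A, q, hj, e1, hq⟩ := ung_enc G pd w (Or.inr rfl) hd
  have hqq := ung_sect_E G A hq
  have hR := enc_sect G pd w hj c A
  have hlen := ung_sect_length G A
  have get : ∀ t < (sect G A).length, (enc G pd w)[secS G pd c j A + t]? = (sect G A)[t]? :=
    fun t ht => hR.get ht
  have hP : posE G pd c j A = secS G pd c j A + (A + 2 + (cont G A).length) := by
    unfold posE posC
    omega
  have g0 : (enc G pd w)[posE G pd c j A]? = some o := by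
    rw [hP, get _ (by omega)]
    have := ung_sect_tail G A 0
    simpa using this
  have gl : ∀ i < (A : ℕ), (enc G pd w)[posE G pd c j A + 1 + i]? = some l := by
    intro i hi
    have e3 : posE G pd c j A + 1 + i = secS G pd c j A + (A + 2 + (cont G A).length + (i + 1)) := by
      omega
    rw [e3, get _ (by omega), ung_sect_tail G A (i + 1), List.getElem?_cons_succ,
      List.getElem?_append_left (by simpa using hi), List.getElem?_replicate, if_pos hi]
  have hr : r = posE G pd c j A := by
    rcases Nat.lt_trichotomy r (posE G pd c j A) with hlt | heq | hgt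
    · obtain ⟨a, ha, hal⟩ := h7 (posE G pd c j A) (by omega) (by omega)
      have hal' : a = l := hal
      rw [g0, hal'] at ha
      cases ha
    · exact heq
    · obtain ⟨a, ha, hao⟩ := h1'
      have hao' : a = o := hao
      have := gl (r - (posE G pd c j A + 1)) (by omega)
      rw [show posE G pd c j A + 1 + (r - (posE G pd c j A + 1)) = r by omega, ha, hao'] at this
      cases this
  exact ⟨c, j, A, hj, hr, by omega⟩

theorem nmS_inv {r e : ℕ} (h : At (enc G pd w) nmS r e) :
    ∃ (c : Bool) (j : ℕ) (A : Fin K), j < w.length ∧ r = secS G pd c j A ∧ e = r + A + 2 := by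
  obtain ⟨k1, h1, h2⟩ := at_cat.1 h
  obtain ⟨k2, h3, h4⟩ := at_cat.1 h2
  obtain ⟨rfl, h1'⟩ := at_LC.1 h1
  obtain ⟨rfl, h4'⟩ := at_LC.1 h4
  obtain ⟨h5, h6, h7⟩ := at_ST.1 h3
  obtain ⟨d, hd, hdS⟩ := h1'
  have hdS' : d = S := hdS
  subst hdS'
  obtain ⟨c, j, A, q, hj, e1, hq⟩ := ung_enc G pd w (Or.inl rfl) hd
  have hqq := ung_sect_S G A hq
  have hR := enc_sect G pd w hj c A
  have hlen := ung_sect_length G A
  have get : ∀ t < (sect G A).length, (enc G pd w)[secS G pd c j A + t]? = (sect G A)[t]? :=
    fun t ht => hR.get ht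
  have hr : r = secS G pd c j A := by omega
  have go : (enc G pd w)[r + A + 1]? = some o := by
    rw [show r + (A : ℕ) + 1 = secS G pd c j A + (A + 1) by omega, get _ (by omega)]
    exact ung_sect_o1 G A
  have gl : ∀ i < (A : ℕ), (enc G pd w)[r + 1 + i]? = some l := by
    intro i hi
    rw [show r + 1 + i = secS G pd c j A + (1 + i) by omega, get _ (by omega)]
    exact ung_sect_l1 G A hi
  have hk : k2 = r + A + 1 := by
    obtain ⟨a, ha, hao⟩ := h4'
    have hao' : a = o := hao
    rw [hao'] at ha
    rcases Nat.lt_trichotomy k2 (r + A + 1) with hlt | heq | hgt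
    · have := gl (k2 - (r + 1)) (by omega)
      rw [show r + 1 + (k2 - (r + 1)) = k2 by omega, ha] at this
      cases this
    · exact heq
    · obtain ⟨a', ha', hal⟩ := h7 (r + A + 1) (by omega) (by omega)
      have hal' : a' = l := hal
      rw [go, hal'] at ha'
      cases ha'
  exact ⟨c, j, A, hj, hr, by omega⟩

end Pool.Agent.H29.CJ

end S_UnG

section S_UnH

/-!
# Reading the content of a section

Use only the STATEMENTS of the imported files.

By `enc_sect` and `Rd.append_left/right` the word reads from `posC c i A`: `cont G A ++ (o :: (l^A ++ [E]))`, and just before `posC` the leading name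
`S l^A o`.  `cont = bas ++ rls`, `bas` consists of the letters `b a` with `G.base A a` (`Finset.mem_toList`), `rls = (G.rules A).flatMap rul`,
`rul ρ = R :: ρ.flatMap itm`; letters of `itm` are `I, l, o`.
Tool for `rls`: if position `t` of `rls` carries `R` then there is a split `G.rules A = ρs ++ ρ :: ρs'` with `t = (ρs.flatMap rul).length` (induction on the
list of rules), so the word reads from there `rul ρ` and then `ρs'.flatMap rul ++ (o :: ...)`, whose first letter is `R` or `o`, not `I`.
* `cont_R`: all positions in `[posC, r)` carry `inner` letters, so `r ≤ posE + A` (position `posE + A + 1` carries `E`; if `r` were beyond it, it would be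
  an `inner` position; if `r` is it, its letter is not `R`).  As `r` carries `R`: it is not in the trailing name (`o, l`), not in `bas`.
* `cont_b`: all positions in `[posC, r)` carry `b` letters and `r` carries `b a`: then `r` is inside `bas` (the first letter after `bas` is `R` or `o`).
* `back_b`: `r < posE` carries `b a`, positions between `r` and `posE` are `inner`.  If `r < posC`: the position `secS` carries `S`, not inner, so
  `secS ≤ r < posC`, but these positions carry `S, l, o`, not `b`.  So `r ≥ posC`, it lies in `bas` (`rls` has no `b` letters).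
* `back_R`: `z = posE`: if `G.rules A` is nonempty with last rule `ρ`: `z0 = z - |rul ρ|`; if it is empty: `cont = bas`, and the previous letter is the last
  letter of `bas` (a `b` letter) or `bas` is empty, `z = posC`, and the leading name is read before `z`.  `z < posE` carrying `R` with `inner` letters in
  between: as in `back_b`, `z ≥ posC`, and `z` is the head of a rule in the split `ρs ++ ρ :: ρs'`; if `ρs` is nonempty take its last element; if it is
  empty, `z = posC + |bas|`, and the same two cases as before.
* `fwd_R`, `fwd_b`: from `ρ ∈ G.rules A` (`List.append_of_mem`) and `a` with `G.base A a`.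
-/

set_option autoImplicit false

namespace Pool.Agent.H29.CJ

open Ct

variable {α : Type} [Fintype α] {K : ℕ} (G : Gr α K) (pd : ℕ) (w : List α)

theorem UnH_is {β : Type} {w : List β} {P : β → Prop} {t : ℕ} {c : β} (h : Is w t P) (hc : w[t]? = some c) :
    P c := by
  obtain ⟨a, ha, hP⟩ := h
  rw [hc] at ha
  cases ha
  exact hP

theorem UnH_sect (A : Fin K) : sect G A =
    (S :: (List.replicate A l ++ [o])) ++ (cont G A ++ (o :: (List.replicate A l ++ [E]))) := by
  unfold sect
  simp only [List.cons_append, List.append_assoc, List.nil_append]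

theorem UnH_nl (A : Fin K) : ((S : Ct α) :: (List.replicate A l ++ [o])).length = A + 2 := by simp

theorem UnH_name {c : Bool} {i : ℕ} {A : Fin K} (hi : i < w.length) :
    Rd (enc G pd w) (secS G pd c i A) (S :: (List.replicate A l ++ [o])) := by
  have h := enc_sect G pd w hi c A
  rw [UnH_sect] at h
  exact h.append_left

theorem UnH_tail {c : Bool} {i : ℕ} {A : Fin K} (hi : i < w.length) :
    Rd (enc G pd w) (posC G pd c i A) (cont G A ++ (o :: (List.replicate A l ++ [E]))) := by
  have h := enc_sect G pd w hi c A
  rw [UnH_sect] at h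
  have h2 := h.append_right
  rw [UnH_nl] at h2
  have h3 : secS G pd c i A + (A + 2) = posC G pd c i A := by
    unfold posC
    omega
  rw [h3] at h2
  exact h2

theorem UnH_get {c : Bool} {i s : ℕ} {A : Fin K} (hi : i < w.length) (hs : s < (cont G A).length) :
    (enc G pd w)[posC G pd c i A + s]? = (cont G A)[s]? := by
  have h := UnH_tail G pd w (c := c) (A := A) hi
  rw [h.get (by rw [List.length_append]; omega), List.getElem?_append_left hs]

theorem UnH_end {c : Bool} {i : ℕ} {A : Fin K} (hi : i < w.length) :
    Rd (enc G pd w) (posE G pd c i A) ([o] ++ (List.replicate A l ++ [E])) :=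
  (UnH_tail G pd w (c := c) (A := A) hi).append_right

theorem UnH_o {c : Bool} {i : ℕ} {A : Fin K} (hi : i < w.length) :
    (enc G pd w)[posE G pd c i A]? = some o := by
  have h := (UnH_end G pd w (c := c) (A := A) hi).get (t := 0) (by simp)
  simpa using h

theorem UnH_l {c : Bool} {i t : ℕ} {A : Fin K} (hi : i < w.length) (ht : t < A) :
    (enc G pd w)[posE G pd c i A + 1 + t]? = some l := by
  have h := (UnH_end G pd w (c := c) (A := A) hi).append_right
  have h2 := h.get (t := t) (by rw [List.length_append, List.length_replicate]; omega)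
  rw [List.getElem?_append_left (by rw [List.length_replicate]; exact ht), List.getElem?_replicate,
    if_pos ht] at h2
  exact h2

theorem UnH_E {c : Bool} {i : ℕ} {A : Fin K} (hi : i < w.length) :
    (enc G pd w)[posE G pd c i A + 1 + A]? = some E := by
  have h := (UnH_end G pd w (c := c) (A := A) hi).append_right
  have h2 := h.get (t := A) (by rw [List.length_append, List.length_replicate, List.length_singleton]; omega)
  rw [List.getElem?_append_right (by rw [List.length_replicate]), List.length_replicate, Nat.sub_self] at h2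
  exact h2

/-- letters of the leading name -/
theorem UnH_lead {c : Bool} {i t : ℕ} {A : Fin K} (hi : i < w.length) (ht : t < A + 2) :
    ∃ ch, (enc G pd w)[secS G pd c i A + t]? = some ch ∧ (ch = S ∨ ch = l ∨ ch = o) := by
  have h := (UnH_name G pd w (c := c) (A := A) hi).get (t := t) (by rw [UnH_nl]; exact ht)
  have h1 : t < ((S : Ct α) :: (List.replicate A l ++ [o])).length := by rw [UnH_nl]; exact ht
  rw [List.getElem?_eq_getElem h1] at h
  refine ⟨_, h, ?_⟩
  have h2 := List.getElem_mem h1
  simp only [List.mem_cons, List.mem_append, List.mem_replicate, List.not_mem_nil, or_false] at h2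
  rcases h2 with h2 | h2 | h2
  · exact Or.inl h2
  · exact Or.inr (Or.inl h2.2)
  · exact Or.inr (Or.inr h2)

theorem UnH_S {c : Bool} {i : ℕ} {A : Fin K} (hi : i < w.length) :
    (enc G pd w)[secS G pd c i A]? = some S := by
  have h := (UnH_name G pd w (c := c) (A := A) hi).get (t := 0) (by simp)
  simpa using h

theorem UnH_itm (q : Fin K × Fin K) : ∀ ch ∈ itm (α := α) q, ch = I ∨ ch = l ∨ ch = o := by
  intro ch h
  unfold itm at h
  simp only [List.mem_cons, List.mem_append, List.mem_replicate, List.not_mem_nil, or_false] at h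
  rcases h with h | h | h | h | h
  · exact Or.inl h
  · exact Or.inr (Or.inl h.2)
  · exact Or.inr (Or.inr h)
  · exact Or.inr (Or.inl h.2)
  · exact Or.inr (Or.inr h)

theorem UnH_its (ρ : List (Fin K × Fin K)) : ∀ ch ∈ ρ.flatMap (itm (α := α)), ch = I ∨ ch = l ∨ ch = o := by
  intro ch h
  obtain ⟨q, _, hq⟩ := List.mem_flatMap.1 h
  exact UnH_itm q ch hq

theorem UnH_rul (ρ : List (Fin K × Fin K)) : ∀ ch ∈ rul (α := α) ρ, ch = R ∨ ch = I ∨ ch = l ∨ ch = o := by
  intro ch h
  unfold rul at h
  rcases List.mem_cons.1 h with h | h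
  · exact Or.inl h
  · exact Or.inr (UnH_its ρ ch h)

theorem UnH_rls (A : Fin K) : ∀ ch ∈ rls G A, ch = R ∨ ch = I ∨ ch = l ∨ ch = o := by
  intro ch h
  unfold rls at h
  obtain ⟨q, _, hq⟩ := List.mem_flatMap.1 h
  exact UnH_rul q ch hq

theorem UnH_bas (A : Fin K) : ∀ ch ∈ bas G A, ∃ a, ch = b a ∧ G.base A a := by
  intro ch h
  unfold bas at h
  obtain ⟨a, ha, rfl⟩ := List.mem_map.1 h
  refine ⟨a, rfl, ?_⟩
  have := Finset.mem_toList.1 ha
  simpa using this

theorem UnH_bmem {A : Fin K} {a : α} (ha : G.base A a) : b a ∈ bas G A := by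
  unfold bas
  refine List.mem_map.2 ⟨a, Finset.mem_toList.2 ?_, rfl⟩
  simpa using ha

theorem UnH_cont (A : Fin K) : ∀ ch ∈ cont G A, inner ch := by
  intro ch h
  unfold cont at h
  rcases List.mem_append.1 h with h | h
  · obtain ⟨a, rfl, _⟩ := UnH_bas G A ch h
    exact Or.inr (Or.inr (Or.inr (Or.inr ⟨a, rfl⟩)))
  · rcases UnH_rls G A ch h with h | h | h | h
    · exact Or.inr (Or.inr (Or.inl h))
    · exact Or.inr (Or.inr (Or.inr (Or.inl h)))
    · exact Or.inl h
    · exact Or.inr (Or.inl h)

theorem UnH_split (L : List (List (Fin K × Fin K))) : ∀ t : ℕ, (L.flatMap (rul (α := α)))[t]? = some R →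
    ∃ ρs ρ ρs', L = ρs ++ ρ :: ρs' ∧ t = (ρs.flatMap (rul (α := α))).length := by
  induction L with
  | nil =>
    intro t h
    simp at h
  | cons ρ L ih =>
    intro t h
    rw [List.flatMap_cons] at h
    rcases Nat.lt_or_ge t (rul (α := α) ρ).length with ht | ht
    · rw [List.getElem?_append_left ht] at h
      cases t with
      | zero => exact ⟨[], ρ, L, rfl, rfl⟩
      | succ t =>
        exfalso
        unfold rul at h
        rw [List.getElem?_cons_succ] at h
        have h2 := UnH_its ρ R (List.mem_of_getElem? h)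
        rcases h2 with h2 | h2 | h2 <;> cases h2
    · rw [List.getElem?_append_right ht] at h
      obtain ⟨ρs, ρ', ρs', h1, h2⟩ := ih _ h
      refine ⟨ρ :: ρs, ρ', ρs', by rw [h1]; rfl, ?_⟩
      rw [List.flatMap_cons, List.length_append, ← h2]
      omega

/-- reading from the start of a rule -/
theorem UnH_rd {c : Bool} {i : ℕ} {A : Fin K} (hi : i < w.length) {ρs ρs' : List (List (Fin K × Fin K))}
    (h : G.rules A = ρs ++ ρs') :
    Rd (enc G pd w) (posC G pd c i A + (bas G A).length + (ρs.flatMap (rul (α := α))).length)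
      (ρs'.flatMap rul ++ (o :: (List.replicate A l ++ [E]))) := by
  have h1 := UnH_tail G pd w (c := c) (A := A) hi
  have h2 : cont G A ++ (o :: (List.replicate A l ++ [E])) =
      bas G A ++ (ρs.flatMap rul ++ (ρs'.flatMap rul ++ (o :: (List.replicate A l ++ [E])))) := by
    unfold cont rls
    rw [h, List.flatMap_append, List.append_assoc, List.append_assoc]
  rw [h2] at h1
  exact h1.append_right.append_right

theorem UnH_len {A : Fin K} {ρs ρs' : List (List (Fin K × Fin K))} (h : G.rules A = ρs ++ ρs') :
    (cont G A).length = (bas G A).length + (ρs.flatMap (rul (α := α))).length +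
      (ρs'.flatMap (rul (α := α))).length := by
  unfold cont rls
  rw [h, List.flatMap_append, List.length_append, List.length_append, Nat.add_assoc]

theorem UnH_R {c : Bool} {i r : ℕ} {A : Fin K} (hi : i < w.length) (h1 : posC G pd c i A ≤ r)
    (h2 : r < posE G pd c i A) (h3 : (enc G pd w)[r]? = some R) :
    ∃ ρs ρ ρs', G.rules A = ρs ++ ρ :: ρs' ∧
      r = posC G pd c i A + (bas G A).length + (ρs.flatMap (rul (α := α))).length := by
  obtain ⟨s, rfl⟩ := Nat.exists_eq_add_of_le h1
  have hs : s < (cont G A).length := by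
    unfold posE at h2
    omega
  rw [UnH_get G pd w hi hs] at h3
  unfold cont at h3
  rcases Nat.lt_or_ge s (bas G A).length with hb | hb
  · exfalso
    rw [List.getElem?_append_left hb] at h3
    obtain ⟨a, ha, _⟩ := UnH_bas G A R (List.mem_of_getElem? h3)
    cases ha
  · rw [List.getElem?_append_right hb] at h3
    unfold rls at h3
    obtain ⟨ρs, ρ, ρs', h4, h5⟩ := UnH_split _ _ h3
    exact ⟨ρs, ρ, ρs', h4, by omega⟩

theorem UnH_b {c : Bool} {i r : ℕ} {A : Fin K} {a : α} (hi : i < w.length) (h1 : posC G pd c i A ≤ r)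
    (h2 : r < posE G pd c i A) (h3 : (enc G pd w)[r]? = some (b a)) : G.base A a := by
  obtain ⟨s, rfl⟩ := Nat.exists_eq_add_of_le h1
  have hs : s < (cont G A).length := by
    unfold posE at h2
    omega
  rw [UnH_get G pd w hi hs] at h3
  have h4 := List.mem_of_getElem? h3
  unfold cont at h4
  rcases List.mem_append.1 h4 with h4 | h4
  · obtain ⟨a', ha, hb⟩ := UnH_bas G A _ h4
    cases ha
    exact hb
  · exfalso
    rcases UnH_rls G A _ h4 with h | h | h | h <;> cases h

/-- a position before `posE` with only inner letters in between is in the content if its letter is not in a name -/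
theorem UnH_ge {c : Bool} {i r : ℕ} {A : Fin K} {ch : Ct α} (hi : i < w.length)
    (h2 : ∀ t, r < t → t < posE G pd c i A → Is (enc G pd w) t inner)
    (h3 : (enc G pd w)[r]? = some ch) (hS : ch ≠ S) (hl : ch ≠ l) (ho : ch ≠ o) :
    posC G pd c i A ≤ r := by
  by_contra hcon
  push Not at hcon
  have hC : posC G pd c i A = secS G pd c i A + A + 2 := rfl
  have hE : posE G pd c i A = posC G pd c i A + (cont G A).length := rfl
  rcases Nat.lt_or_ge r (secS G pd c i A) with hr | hr
  · have h4 := UnH_is (h2 _ hr (by omega)) (UnH_S G pd w hi)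
    rcases h4 with h | h | h | h | ⟨a, h⟩ <;> cases h
  · obtain ⟨t, rfl⟩ := Nat.exists_eq_add_of_le hr
    obtain ⟨ch', h5, h6⟩ := UnH_lead G pd w (c := c) (A := A) (t := t) hi (by omega)
    rw [h3] at h5
    cases h5
    rcases h6 with h | h | h
    · exact hS h
    · exact hl h
    · exact ho h

theorem cont_inner {c : Bool} {i t : ℕ} {A : Fin K} (hi : i < w.length)
    (h1 : posC G pd c i A ≤ t) (h2 : t < posE G pd c i A) : Is (enc G pd w) t inner := by
  obtain ⟨s, rfl⟩ := Nat.exists_eq_add_of_le h1
  have hs : s < (cont G A).length := by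
    unfold posE at h2
    omega
  refine ⟨(cont G A)[s], ?_, UnH_cont G A _ (List.getElem_mem hs)⟩
  rw [UnH_get G pd w hi hs, List.getElem?_eq_getElem hs]

/-- the letter at the end of the content is `o` -/
theorem posE_o {c : Bool} {i : ℕ} {A : Fin K} (hi : i < w.length) :
    Is (enc G pd w) (posE G pd c i A) (· = o) :=
  ⟨o, UnH_o G pd w hi, rfl⟩

theorem cont_R {c : Bool} {i r : ℕ} {A : Fin K} (hi : i < w.length) (h1 : posC G pd c i A ≤ r)
    (h2 : ∀ t, posC G pd c i A ≤ t → t < r → Is (enc G pd w) t inner)
    (h3 : Is (enc G pd w) r (· = R)) :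
    r < posE G pd c i A ∧ ∃ ρ ∈ G.rules A, ∃ ch, ch ≠ I ∧
      r + 1 + (ρ.flatMap (itm (α := α))).length ≤ posE G pd c i A ∧
      Rd (enc G pd w) (r + 1) (ρ.flatMap itm ++ [ch]) := by
  have hE : posE G pd c i A = posC G pd c i A + (cont G A).length := rfl
  obtain ⟨ch0, h4, h5⟩ := h3
  have h5' : ch0 = R := h5
  rw [h5'] at h4
  have hr : r < posE G pd c i A := by
    by_contra hcon
    push Not at hcon
    rcases Nat.lt_or_ge (posE G pd c i A + 1 + A) r with g | g
    · have h6 := UnH_is (h2 _ (by omega) g) (UnH_E G pd w hi)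
      rcases h6 with h | h | h | h | ⟨a, h⟩ <;> cases h
    · rcases Nat.eq_or_lt_of_le g with g | g
      · rw [g, UnH_E G pd w hi] at h4
        cases h4
      · rcases Nat.eq_or_lt_of_le hcon with g' | g'
        · rw [← g', UnH_o G pd w hi] at h4
          cases h4
        · obtain ⟨t, ht⟩ := Nat.exists_eq_add_of_le (Nat.succ_le_of_lt g')
          have ht' : r = posE G pd c i A + 1 + t := by omega
          rw [ht', UnH_l G pd w hi (by omega)] at h4
          cases h4
  refine ⟨hr, ?_⟩
  obtain ⟨ρs, ρ, ρs', h6, h7⟩ := UnH_R G pd w hi h1 hr h4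
  have h8 := UnH_rd G pd w (c := c) hi h6
  have h9 := UnH_len G h6
  rw [← h7, List.flatMap_cons] at h8
  rw [List.flatMap_cons, List.length_append] at h9
  have hrl : (rul (α := α) ρ).length = (ρ.flatMap (itm (α := α))).length + 1 := by
    unfold rul
    rw [List.length_cons]
  have h10 : rul ρ ++ ρs'.flatMap rul ++ (o :: (List.replicate A l ++ [E])) =
      [R] ++ (ρ.flatMap (itm (α := α)) ++ (ρs'.flatMap rul ++ (o :: (List.replicate A l ++ [E])))) := by
    show (R :: ρ.flatMap itm) ++ ρs'.flatMap rul ++ (o :: (List.replicate A l ++ [E])) = _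
    simp only [List.cons_append, List.append_assoc, List.nil_append]
  rw [h10] at h8
  have h11 := h8.append_right
  obtain ⟨ch, v, hv, hch⟩ : ∃ ch v, ρs'.flatMap (rul (α := α)) ++ (o :: (List.replicate A l ++ [E])) = ch :: v ∧
      ch ≠ I := by
    cases ρs' with
    | nil => exact ⟨o, _, rfl, by intro h; cases h⟩
    | cons ρ' ρs' => exact ⟨R, _, rfl, by intro h; cases h⟩
  rw [hv] at h11
  have h12 : ρ.flatMap (itm (α := α)) ++ ch :: v = (ρ.flatMap itm ++ [ch]) ++ v := by
    rw [List.append_assoc]
    rfl
  rw [h12] at h11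
  refine ⟨ρ, by rw [h6]; simp, ch, hch, by omega, h11.append_left⟩

theorem cont_b {c : Bool} {i r : ℕ} {A : Fin K} {a : α} (hi : i < w.length)
    (h1 : posC G pd c i A ≤ r)
    (h2 : ∀ t, posC G pd c i A ≤ t → t < r → Is (enc G pd w) t isb)
    (h3 : (enc G pd w)[r]? = some (b a)) : r < posE G pd c i A ∧ G.base A a := by
  have hE : posE G pd c i A = posC G pd c i A + (cont G A).length := rfl
  have hr : r < posE G pd c i A := by
    by_contra hcon
    push Not at hcon
    rcases Nat.eq_or_lt_of_le hcon with g | g
    · rw [← g, UnH_o G pd w hi] at h3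
      cases h3
    · obtain ⟨a', h⟩ := UnH_is (h2 _ (by omega) g) (UnH_o G pd w hi)
      cases h
  exact ⟨hr, UnH_b G pd w hi h1 hr h3⟩

theorem back_b {c : Bool} {i r : ℕ} {A : Fin K} {a : α} (hi : i < w.length)
    (h1 : r < posE G pd c i A)
    (h2 : ∀ t, r < t → t < posE G pd c i A → Is (enc G pd w) t inner)
    (h3 : (enc G pd w)[r]? = some (b a)) : posC G pd c i A ≤ r ∧ G.base A a := by
  have h4 : posC G pd c i A ≤ r := UnH_ge G pd w hi h2 h3 (by intro h; cases h) (by intro h; cases h)
    (by intro h; cases h)
  exact ⟨h4, UnH_b G pd w hi h4 h1 h3⟩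

theorem UnH_back {c : Bool} {i z : ℕ} {A : Fin K} (hi : i < w.length) {ρs ρs' : List (List (Fin K × Fin K))}
    (h : G.rules A = ρs ++ ρs')
    (hz : z = posC G pd c i A + (bas G A).length + (ρs.flatMap (rul (α := α))).length) :
    (∃ ρ ∈ G.rules A, ∃ z0, posC G pd c i A ≤ z0 ∧
      z = z0 + (rul (α := α) ρ).length ∧ Rd (enc G pd w) z0 (rul ρ)) ∨
    (0 < z ∧ Is (enc G pd w) (z - 1) isb) ∨
    (A.val + 2 ≤ z ∧ Rd (enc G pd w) (z - (A.val + 2)) (S :: (List.replicate A l ++ [o]))) := by
  have hC : posC G pd c i A = secS G pd c i A + A + 2 := rfl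
  rcases List.eq_nil_or_concat' ρs with rfl | ⟨L, ρ, rfl⟩
  · rw [List.flatMap_nil, List.length_nil, Nat.add_zero] at hz
    rcases Nat.eq_zero_or_pos (bas G A).length with g | g
    · rw [g, Nat.add_zero] at hz
      refine Or.inr (Or.inr ⟨by omega, ?_⟩)
      have e : z - (A.val + 2) = secS G pd c i A := by omega
      rw [e]
      exact UnH_name G pd w hi
    · refine Or.inr (Or.inl ⟨by omega, ?_⟩)
      have e : z - 1 = posC G pd c i A + ((bas G A).length - 1) := by omega
      have hlt : (bas G A).length - 1 < (bas G A).length := by omega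
      have hcl : (bas G A).length ≤ (cont G A).length := by
        unfold cont
        rw [List.length_append]
        omega
      have h1 := UnH_get G pd w (c := c) (A := A) (s := (bas G A).length - 1) hi (by omega)
      rw [← e] at h1
      unfold cont at h1
      rw [List.getElem?_append_left hlt, List.getElem?_eq_getElem hlt] at h1
      obtain ⟨a, ha, _⟩ := UnH_bas G A _ (List.getElem_mem hlt)
      exact ⟨_, h1, a, ha⟩
  · left
    have h' : G.rules A = L ++ (ρ :: ρs') := by
      rw [h, List.append_assoc]
      rfl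
    have h8 := UnH_rd G pd w (c := c) hi h'
    rw [List.flatMap_cons, List.append_assoc] at h8
    refine ⟨ρ, by rw [h']; simp, _, ?_, ?_, h8.append_left⟩
    · omega
    · rw [hz, List.flatMap_append, List.length_append, List.flatMap_cons, List.flatMap_nil, List.append_nil]
      omega

theorem back_R {c : Bool} {i z : ℕ} {A : Fin K} (hi : i < w.length)
    (h : z = posE G pd c i A ∨ (z < posE G pd c i A ∧ Is (enc G pd w) z (· = R) ∧
      ∀ t, z < t → t < posE G pd c i A → Is (enc G pd w) t inner)) :
    (∃ ρ ∈ G.rules A, ∃ z0, posC G pd c i A ≤ z0 ∧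
      z = z0 + (rul (α := α) ρ).length ∧ Rd (enc G pd w) z0 (rul ρ)) ∨
    (0 < z ∧ Is (enc G pd w) (z - 1) isb) ∨
    (A.val + 2 ≤ z ∧ Rd (enc G pd w) (z - (A.val + 2)) (S :: (List.replicate A l ++ [o]))) := by
  rcases h with h | ⟨h1, ⟨ch, h2, h2'⟩, h3⟩
  · have h4 : G.rules A = G.rules A ++ [] := (List.append_nil _).symm
    refine UnH_back G pd w (c := c) hi h4 ?_
    have h5 := UnH_len G h4
    rw [List.flatMap_nil, List.length_nil] at h5
    rw [h]
    unfold posE
    omega
  · have h6 : ch = R := h2'
    rw [h6] at h2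
    have h4 : posC G pd c i A ≤ z := UnH_ge G pd w hi h3 h2 (by intro h; cases h) (by intro h; cases h)
      (by intro h; cases h)
    obtain ⟨ρs, ρ, ρs', h7, h8⟩ := UnH_R G pd w hi h4 h1 h2
    exact UnH_back G pd w (c := c) hi h7 h8

theorem fwd_R {c : Bool} {i : ℕ} {A : Fin K} (hi : i < w.length)
    {ρ : List (Fin K × Fin K)} (hρ : ρ ∈ G.rules A) :
    ∃ r, posC G pd c i A ≤ r ∧ r + (rul (α := α) ρ).length ≤ posE G pd c i A ∧
      Rd (enc G pd w) r (rul ρ) ∧
      (r + (rul (α := α) ρ).length = posE G pd c i A ∨
        Is (enc G pd w) (r + (rul (α := α) ρ).length) (· = R)) := by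
  obtain ⟨ρs, ρs', h⟩ := List.append_of_mem hρ
  have hE : posE G pd c i A = posC G pd c i A + (cont G A).length := rfl
  have h8 := UnH_rd G pd w (c := c) hi h
  have h9 := UnH_len G h
  rw [List.flatMap_cons, List.append_assoc] at h8
  rw [List.flatMap_cons, List.length_append] at h9
  refine ⟨_, by omega, by omega, h8.append_left, ?_⟩
  cases ρs' with
  | nil =>
    left
    rw [List.flatMap_nil, List.length_nil] at h9
    omega
  | cons ρ' ρs' =>
    right
    have h10 := h8.append_right
    have h11 := h10.get (t := 0) (by rw [List.length_append, List.length_cons]; omega)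
    exact ⟨R, h11, rfl⟩

theorem fwd_b {c : Bool} {i : ℕ} {A : Fin K} (hi : i < w.length) {a : α} (ha : G.base A a) :
    ∃ r, posC G pd c i A ≤ r ∧ r < posE G pd c i A ∧ (enc G pd w)[r]? = some (b a) ∧
      ∀ t, posC G pd c i A ≤ t → t < r → Is (enc G pd w) t isb := by
  have hE : posE G pd c i A = posC G pd c i A + (cont G A).length := rfl
  have hcl : (bas G A).length ≤ (cont G A).length := by
    unfold cont
    rw [List.length_append]
    omega
  obtain ⟨s, hs, hsa⟩ := List.getElem_of_mem (UnH_bmem G ha)
  have key : ∀ t < (bas G A).length, (enc G pd w)[posC G pd c i A + t]? = (bas G A)[t]? := by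
    intro t ht
    rw [UnH_get G pd w hi (by omega)]
    unfold cont
    rw [List.getElem?_append_left ht]
  refine ⟨posC G pd c i A + s, by omega, by omega, ?_, ?_⟩
  · rw [key s hs, List.getElem?_eq_getElem hs, hsa]
  · intro t ht1 ht2
    obtain ⟨u, rfl⟩ := Nat.exists_eq_add_of_le ht1
    have hu : u < (bas G A).length := by omega
    obtain ⟨a', ha', _⟩ := UnH_bas G A _ (List.getElem_mem hu)
    exact ⟨_, by rw [key u hu, List.getElem?_eq_getElem hu], a', ha'⟩

end Pool.Agent.H29.CJ

end S_UnH
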