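import Mathlib
import Pool.Agent.H29.CL.M2
import Pool.Agent.H29.CL.M9

/-! Conjunctive languages and homomorphisms, part M10: this file joins several modules to save build time. -/

section S_UnI

/-!
# Items: completeness

Use only the STATEMENTS of the imported files (`enc_sect`, `pos_order`, `enc_tok`, `enc_tokm`, `enc_m`, `Rd.*`, `AtL`).

Write `Tw = enc G pd w`, `D = dD G pd`, `p = (B, C)`, `itm p = I l^B o l^C o` (length `B + C + 3`).
From `enc_sect`: `Tw` reads from `posE c k B`: `o l^B E`, and from `secS c k C`: `S l^C o` (and `posC = secS + C + 2`).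
(L) `q` in the second copy of chunk `i`, `Tw` reads `itm p` from `q`; `e1 = posE false k B + B + 2`, `e2 = posC true k C`.
 `MB` on `[q, e1)`: `I`, then `Sync` with exponent `B`: `l^B` from `q + 1`, then `o` at `q + 1 + B`, `univ`, `o` at `posE false k B`, `l^B`; then `E`.
   (`q + 1 + B < posE false k B` because `q < posx i < k D ≤ posE false k B`.)
 `ST tok` on `[q, posx i)`: `enc_tok`, `no_x_between`.  `RL` on `[posx i, posE false k B)` by hypothesis.  `nmE` on `[posE false k B, e1)`.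
 `GapL` on `[e1, e2)`: tokens different from `m` up to `posm k` (`e1 ≤ posm k` by `pos_order`), `m`, tokens up to `secS true k C`, `nmS`.
 `MC` on `[q, e2)`: `I`, `l^B`, `o`, `Sync` with exponent `C`: `l^C`, `o`, `univ`, `S` at `secS true k C`, `l^C`; then `o`.
 `LL` on `[e2, j D)` by hypothesis.
(R) `z0` in the first copy of chunk `j`, `Tw` reads `itm p` from `z0`, `z = z0 + |itm p|`.
 `RL` on `[posx i, posE false k B)`; `MBR` on `[posE false k B, z)`: `o`, `Sync` with exponent `B`: `l^B`, `E`, `univ`, `I` at `z0`, `l^B`; then `o`, `l^C`, `o`.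
 `nmE`, `GapR` up to `secS true k C`; `MCR` on `[secS true k C, z)`: `S`, `Sync` with exponent `C`: `l^C`, `o`, `univ`, `o` (the first `o` of the item), `l^C`;
 then `o`.  `nmS`, `LL` on `[posC true k C, j D)`, `ST tokm` on `[j D, z)` (`z ≤ posm j`).
-/

set_option autoImplicit false

namespace Pool.Agent.H29.CJ

open Ct

variable {α : Type} [Fintype α] {K : ℕ} (G : Gr α K) (pd : ℕ) (w : List α)

theorem unI_cons {β : Type} {w : List β} {i : ℕ} {a : β} {v : List β} (h : Rd w i (a :: v)) :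
    Is w i (· = a) ∧ Rd w (i + 1) v := by
  have h' : Rd w i ([a] ++ v) := h
  have h1 := h'.append_left
  have h2 := h'.append_right
  have h3 := h1.get (t := 0) (by simp)
  exact ⟨⟨a, by simpa using h3, rfl⟩, h2⟩

theorem unI_rep {β : Type} {w : List β} {a : β} {n i : ℕ} (h : Rd w i (List.replicate n a)) :
    ∀ t, i ≤ t → t < i + n → Is w t (· = a) := by
  intro t h1 h2
  have h3 := h.get (t := t - i) (by simp; omega)
  rw [show i + (t - i) = t by omega, List.getElem?_replicate, if_pos (by omega)] at h3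
  exact ⟨a, h3, rfl⟩

theorem unI_sect {i : ℕ} (hi : i < w.length) (c : Bool) (A : Fin K) :
    Is (enc G pd w) (secS G pd c i A) (· = S) ∧
    (∀ t, secS G pd c i A + 1 ≤ t → t < secS G pd c i A + 1 + A → Is (enc G pd w) t (· = l)) ∧
    Is (enc G pd w) (secS G pd c i A + 1 + A) (· = o) ∧
    Is (enc G pd w) (posE G pd c i A) (· = o) ∧
    (∀ t, posE G pd c i A + 1 ≤ t → t < posE G pd c i A + 1 + A → Is (enc G pd w) t (· = l)) ∧
    Is (enc G pd w) (posE G pd c i A + 1 + A) (· = E) := by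
  have h := enc_sect G pd w hi c A
  have h0 : Rd (enc G pd w) (secS G pd c i A) (S :: (List.replicate A l ++ (o ::
    (cont G A ++ (o :: (List.replicate A l ++ [E])))))) := h
  obtain ⟨f1, g1⟩ := unI_cons h0
  have f2 := unI_rep g1.append_left
  have g2 := g1.append_right
  rw [List.length_replicate] at g2
  obtain ⟨f3, g3⟩ := unI_cons g2
  have g4 := g3.append_right
  have e : secS G pd c i A + 1 + A + 1 + (cont G A).length = posE G pd c i A := by
    unfold posE posC
    omega
  rw [e] at g4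
  obtain ⟨f4, g5⟩ := unI_cons g4
  have f5 := unI_rep g5.append_left
  have g6 := g5.append_right
  rw [List.length_replicate] at g6
  obtain ⟨f6, _⟩ := unI_cons g6
  exact ⟨f1, f2, f3, f4, f5, f6⟩

theorem unI_itm {q : ℕ} {B C : Fin K} {Tw : List (Ct α)} (h : Rd Tw q (itm (B, C))) :
    Is Tw q (· = I) ∧ (∀ t, q + 1 ≤ t → t < q + 1 + B → Is Tw t (· = l)) ∧
    Is Tw (q + 1 + B) (· = o) ∧
    (∀ t, q + 1 + B + 1 ≤ t → t < q + 1 + B + 1 + C → Is Tw t (· = l)) ∧
    Is Tw (q + 1 + B + 1 + C) (· = o) := by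
  have h0 : Rd Tw q (I :: (List.replicate B l ++ (o :: (List.replicate C l ++ [o])))) := h
  obtain ⟨f1, g1⟩ := unI_cons h0
  have f2 := unI_rep g1.append_left
  have g2 := g1.append_right
  rw [List.length_replicate] at g2
  obtain ⟨f3, g3⟩ := unI_cons g2
  have f4 := unI_rep g3.append_left
  have g4 := g3.append_right
  rw [List.length_replicate] at g4
  obtain ⟨f5, _⟩ := unI_cons g4
  exact ⟨f1, f2, f3, f4, f5⟩

theorem unI_one {Tw : List (Ct α)} {i j : ℕ} {a : Ct α} (h : Is Tw i (· = a)) (e : j = i + 1) :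
    At Tw (LC (· = a)) i j := at_LC.2 ⟨e, h⟩

theorem unI_star {Tw : List (Ct α)} {i j : ℕ} {P : Ct α → Prop} (h1 : i ≤ j)
    (h2 : j ≤ Tw.length) (h : ∀ t, i ≤ t → t < j → Is Tw t P) : At Tw (ST P) i j :=
  at_ST.2 ⟨h1, h2, h⟩

/-- the order of all the positions -/
theorem unI_ord (i k j : ℕ) (hik : i < k) (hkj : k < j) (hj : j ≤ w.length) (B C : Fin K) :
    posx G pd i < k * dD G pd ∧ k * dD G pd ≤ posE G pd false k B ∧
    posE G pd false k B + B + 2 ≤ posm G pd k ∧ posm G pd k < secS G pd true k C ∧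
    secS G pd true k C + C + 2 ≤ posx G pd k ∧ posx G pd k < j * dD G pd ∧
    j * dD G pd ≤ w.length * dD G pd := by
  obtain ⟨_, _, _, _, a5, _, _⟩ := pos_order G pd i B
  obtain ⟨b1, b2, _, _, b5, _, _⟩ := pos_order G pd k B
  obtain ⟨_, _, c3, c4, _, _, _⟩ := pos_order G pd k C
  have h1 : (i + 1) * dD G pd ≤ k * dD G pd := Nat.mul_le_mul_right _ hik
  have h2 : (k + 1) * dD G pd ≤ j * dD G pd := Nat.mul_le_mul_right _ hkj
  have h3 : j * dD G pd ≤ w.length * dD G pd := Nat.mul_le_mul_right _ hj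
  have e1 : posE G pd false k B = secS G pd false k B + B + 2 + (cont G B).length := rfl
  have e2 : posE G pd true k C = secS G pd true k C + C + 2 + (cont G C).length := rfl
  refine ⟨by omega, by omega, by omega, by omega, by omega, by omega, by omega⟩

theorem unI_tokm {i a b : ℕ} (h1 : i * dD G pd ≤ a) (h2 : b ≤ posx G pd i) (hab : a ≤ b)
    (hi : i < w.length) (hm : ∀ r, a ≤ r → r < b → ∀ j, r ≠ posm G pd j) :
    At (enc G pd w) (ST tokm) a b := by
  have h3 : (i + 1) * dD G pd ≤ w.length * dD G pd := Nat.mul_le_mul_right _ hi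
  have hp : posx G pd i + 1 = (i + 1) * dD G pd := by
    unfold posx dD
    ring
  refine unI_star hab (by rw [enc_length]; omega) ?_
  intro t ht1 ht2
  exact enc_tokm G pd w (by omega)
    (no_x_between G pd (h1.trans ht1) (lt_of_lt_of_le ht2 h2)) (hm t ht1 ht2)

theorem unI_mid {i k j : ℕ} (hik : i < k) (hkj : k < j) (hj : j ≤ w.length) (B C : Fin K) :
    At (enc G pd w) nmE (posE G pd false k B) (posE G pd false k B + B + 2) ∧
    At (enc G pd w) (ST tokm) (posE G pd false k B + B + 2) (posm G pd k) ∧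
    At (enc G pd w) (LC (· = m)) (posm G pd k) (posm G pd k + 1) ∧
    At (enc G pd w) (ST tokm) (posm G pd k + 1) (secS G pd true k C) ∧
    At (enc G pd w) nmS (secS G pd true k C) (posC G pd true k C) := by
  obtain ⟨o1, o2, o3, o4, o5, o6, o7⟩ := unI_ord G pd w i k j hik hkj hj B C
  have hk : k < w.length := by omega
  obtain ⟨_, _, _, s4, s5, s6⟩ := unI_sect G pd w hk false B
  obtain ⟨t1, t2, t3, _, _, _⟩ := unI_sect G pd w hk true C
  have hl : (enc G pd w).length = w.length * dD G pd := enc_length G pd w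
  have eC : posC G pd true k C = secS G pd true k C + C + 2 := rfl
  refine ⟨?_, ?_, ?_, ?_, ?_⟩
  · refine at_cat.2 ⟨posE G pd false k B + 1, unI_one s4 rfl, at_cat.2
      ⟨posE G pd false k B + 1 + B, unI_star (by omega) (by omega) s5, unI_one s6 (by omega)⟩⟩
  · exact unI_tokm G pd w (i := k) (by omega) (by omega) (by omega) hk
      (fun r h1 h2 => no_m_first G pd (i := k) (by omega) h2)
  · exact at_LC.2 ⟨rfl, enc_m G pd w hk⟩
  · exact unI_tokm G pd w (i := k) (by omega) (by omega) (by omega) hk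
      (fun r h1 h2 => no_m_second G pd (i := k) (by omega) (by omega))
  · refine at_cat.2 ⟨secS G pd true k C + 1, unI_one t1 rfl, at_cat.2
      ⟨secS G pd true k C + 1 + C, unI_star (by omega) (by omega) t2, unI_one t3 (by omega)⟩⟩

theorem itemL_complete {i k j q : ℕ} {p : Fin K × Fin K} (hik : i < k) (hkj : k < j)
    (hj : j ≤ w.length) (hq : posm G pd i < q)
    (hq' : q + (itm (α := α) p).length ≤ posx G pd i) (hrd : Rd (enc G pd w) q (itm p))
    (hR : At (enc G pd w) (SU .RL) (posx G pd i) (posE G pd false k p.1))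
    (hL : At (enc G pd w) (SU .LL) (posC G pd true k p.2) (j * dD G pd)) :
    At (enc G pd w) (ItemL SU) q (j * dD G pd) := by
  obtain ⟨B, C⟩ := p
  simp only at hR hL
  have hlen : (itm (α := α) (B, C)).length = B + C + 3 := by
    simp [itm]
    omega
  rw [hlen] at hq'
  obtain ⟨o1, o2, o3, o4, o5, o6, o7⟩ := unI_ord G pd w i k j hik hkj hj B C
  obtain ⟨m1, m2, m3, m4, m5⟩ := unI_mid G pd w hik hkj hj B C
  have hk : k < w.length := by omega
  have hi : i < w.length := by omega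
  obtain ⟨_, _, _, s4, s5, s6⟩ := unI_sect G pd w hk false B
  obtain ⟨t1, t2, t3, _, _, _⟩ := unI_sect G pd w hk true C
  obtain ⟨f1, f2, f3, f4, f5⟩ := unI_itm hrd
  have hl : (enc G pd w).length = w.length * dD G pd := enc_length G pd w
  have eC : posC G pd true k C = secS G pd true k C + C + 2 := rfl
  have oi := pos_order G pd i B
  refine at_cat.2 ⟨posC G pd true k C, at_inter.2 ⟨?_, ?_⟩, hL⟩
  · refine at_cat.2 ⟨q + 1, unI_one f1 rfl, at_cat.2 ⟨q + 1 + B,
      unI_star (by omega) (by omega) f2, at_cat.2 ⟨q + 1 + B + 1, unI_one f3 rfl,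
      at_cat.2 ⟨secS G pd true k C + 1 + C, ?_, unI_one t3 (by omega)⟩⟩⟩⟩
    refine at_Sync_LC.2 ⟨C, secS G pd true k C + 1, rfl, by omega, ?_, f4, t2⟩
    exact at_cat.2 ⟨q + 1 + B + 1 + C + 1, unI_one f5 rfl, at_cat.2 ⟨secS G pd true k C,
      at_univ.2 ⟨by omega, by omega⟩, unI_one t1 rfl⟩⟩
  · refine at_cat.2 ⟨posE G pd false k B + B + 2, at_inter.2 ⟨?_, ?_⟩, ?_⟩
    · refine at_cat.2 ⟨q + 1, unI_one f1 rfl, at_cat.2 ⟨posE G pd false k B + 1 + B, ?_,
        unI_one s6 (by omega)⟩⟩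
      refine at_Sync_LC.2 ⟨B, posE G pd false k B + 1, rfl, by omega, ?_, f2, s5⟩
      exact at_cat.2 ⟨q + 1 + B + 1, unI_one f3 rfl, at_cat.2 ⟨posE G pd false k B,
        at_univ.2 ⟨by omega, by omega⟩, unI_one s4 rfl⟩⟩
    · refine at_cat.2 ⟨posx G pd i, unI_star (by omega) (by omega) ?_, at_cat.2
        ⟨posE G pd false k B, hR, m1⟩⟩
      intro t ht1 ht2
      exact enc_tok G pd w (by omega) (no_x_between G pd (by omega) ht2)
    · exact at_cat.2 ⟨posm G pd k, m2, at_cat.2 ⟨posm G pd k + 1, m3, at_cat.2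
        ⟨secS G pd true k C, m4, m5⟩⟩⟩

theorem itemR_complete {i k j z0 : ℕ} {p : Fin K × Fin K} (hik : i < k) (hkj : k < j)
    (hj : j < w.length) (hz : j * dD G pd ≤ z0)
    (hz' : z0 + (itm (α := α) p).length ≤ posm G pd j) (hrd : Rd (enc G pd w) z0 (itm p))
    (hR : At (enc G pd w) (SU .RL) (posx G pd i) (posE G pd false k p.1))
    (hL : At (enc G pd w) (SU .LL) (posC G pd true k p.2) (j * dD G pd)) :
    At (enc G pd w) (ItemR SU) (posx G pd i) (z0 + (itm (α := α) p).length) := by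
  obtain ⟨B, C⟩ := p
  simp only at hR hL
  have hlen : (itm (α := α) (B, C)).length = B + C + 3 := by
    simp [itm]
    omega
  rw [hlen] at hz' ⊢
  obtain ⟨o1, o2, o3, o4, o5, o6, o7⟩ := unI_ord G pd w i k j hik hkj hj.le B C
  obtain ⟨m1, m2, m3, m4, m5⟩ := unI_mid G pd w hik hkj hj.le B C
  have hk : k < w.length := by omega
  obtain ⟨_, _, _, s4, s5, s6⟩ := unI_sect G pd w hk false B
  obtain ⟨t1, t2, t3, _, _, _⟩ := unI_sect G pd w hk true C
  obtain ⟨f1, f2, f3, f4, f5⟩ := unI_itm hrd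
  have hl : (enc G pd w).length = w.length * dD G pd := enc_length G pd w
  have eC : posC G pd true k C = secS G pd true k C + C + 2 := rfl
  obtain ⟨_, _, _, _, j5, j6, j7⟩ := pos_order G pd j B
  have hjw : (j + 1) * dD G pd ≤ w.length * dD G pd := Nat.mul_le_mul_right _ hj
  refine at_cat.2 ⟨posE G pd false k B, hR, at_inter.2 ⟨?_, ?_⟩⟩
  · refine at_cat.2 ⟨posE G pd false k B + 1, unI_one s4 rfl, at_cat.2 ⟨z0 + 1 + B, ?_,
      at_cat.2 ⟨z0 + 1 + B + 1, unI_one f3 rfl, at_cat.2 ⟨z0 + 1 + B + 1 + C,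
      unI_star (by omega) (by omega) f4, unI_one f5 (by omega)⟩⟩⟩⟩
    refine at_Sync_LC.2 ⟨B, z0 + 1, rfl, by omega, ?_, s5, f2⟩
    exact at_cat.2 ⟨posE G pd false k B + 1 + B + 1, unI_one s6 rfl, at_cat.2 ⟨z0,
      at_univ.2 ⟨by omega, by omega⟩, unI_one f1 rfl⟩⟩
  · refine at_cat.2 ⟨posE G pd false k B + B + 2, m1, at_cat.2 ⟨secS G pd true k C, ?_,
      at_inter.2 ⟨?_, ?_⟩⟩⟩
    · exact at_cat.2 ⟨posm G pd k, m2, at_cat.2 ⟨posm G pd k + 1, m3, m4⟩⟩
    · refine at_cat.2 ⟨secS G pd true k C + 1, unI_one t1 rfl, at_cat.2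
        ⟨z0 + 1 + B + 1 + C, ?_, unI_one f5 (by omega)⟩⟩
      refine at_Sync_LC.2 ⟨C, z0 + 1 + B + 1, rfl, by omega, ?_, t2, f4⟩
      exact at_cat.2 ⟨secS G pd true k C + 1 + C + 1, unI_one t3 rfl, at_cat.2 ⟨z0 + 1 + B,
        at_univ.2 ⟨by omega, by omega⟩, unI_one f3 rfl⟩⟩
    · refine at_cat.2 ⟨posC G pd true k C, m5, at_cat.2 ⟨j * dD G pd, hL, ?_⟩⟩
      exact unI_tokm G pd w (i := j) le_rfl (by omega) (by omega) hj
        (fun r h1 h2 => no_m_first G pd (i := j) (by omega) (by omega))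

end Pool.Agent.H29.CJ

end S_UnI

section S_UnJ

/-!
# Universal language: completeness

Use only the STATEMENTS of the imported files (also `Gr.D_iff` of `GrU`).

Strong induction on `j - i`.  `seg w i j` has length `j - i ≥ 1`.  `Gr.D_iff`:
* `seg w i j = [a]`, `G.base A a`: `j = i + 1`, `w[i]? = some a`.  `fwd_b` gives `r`.
  `LL`: `BaseL`: `ST isb` on `[posC, r)`, `b a`, `ST tok` on `[r + 1, posx i)`, `x a` at `posx i` (`enc_x`), `posx i + 1 = (i+1) D`.
  `RL` (if `j < n`): `BaseR` on `[posx i, posE false j A)`: `x a`, `ST tokm` on `[posx i + 1, r')` (`posx i + 1 = j D`; first copy of chunk `j`), `b a` at `r'`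
  (`fwd_b` with `c = false`, chunk `j`), `ST inner` up to `posE` (`cont_inner`).
* rule `ρ`: for each `p ∈ ρ` a split `seg w i j = u ++ v`, i.e. `k` with `u = seg w i k`, `v = seg w k j`; `i < k < j` as `u, v ≠ []` (`Gr.D_ne_nil`).
  By induction `RL` on `[posx i, posE false k p.1)` (`k < j ≤ n`) and `LL` on `[posC true k p.2, j D)`.
  `LL` for `A`: `fwd_R` (`c = true`, chunk `i`) gives `r`; `ST inner` on `[posC, r)` (`cont_inner`), `R` at `r`, and `IL` on `[r + 1, j D)`.  For `IL` show by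
  induction on a final part `ρ'` of `ρ` (`ρ = ρ₀ ++ ρ'`) that `At IL (r + 1 + |ρ₀.flatMap itm|) (j D)`: `ρ' = []`: the letter there is not `I` (`R`, or `o` by
  `posE_o`), then `univ`; `ρ' = p :: ρ''`: `itemL_complete` and `cat ItT IL` (`itm p ∈ ItT`).
  `RL` for `A` (if `j < n`): `fwd_R` (`c = false`, chunk `j`) gives `r`; show by induction on an initial part `ρ₀` of `ρ` that
  `At IR (posx i) (r + 1 + |ρ₀.flatMap itm|)`: `ρ₀ = []`: `cat univ (LC R)`; `ρ₀ ++ [p]`: `itemR_complete` and `cat IR ItT`.  For `ρ₀ = ρ` the end is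
  `z = r + |rul ρ|`; then `{[]}` if `z = posE`, otherwise `R` and `ST inner` up to `posE`.
-/

set_option autoImplicit false

namespace Pool.Agent.H29.CJ

open Ct

variable {α : Type} [Fintype α] {K : ℕ} (G : Gr α K) (pd : ℕ) (w : List α)

omit [Fintype α] in
theorem UnJ_itm (p : Fin K × Fin K) : itm (α := α) p ∈ (ItT : Set (List (Ct α))) := by
  have hr : ∀ n : ℕ, (List.replicate n l : List (Ct α)) ∈ ST (· = l) := by
    intro n c hc
    exact List.eq_of_mem_replicate hc
  refine ⟨[I], ⟨I, rfl, rfl⟩, List.replicate p.1 l ++ (o :: (List.replicate p.2 l ++ [o])), ?_, rfl⟩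
  refine ⟨List.replicate p.1 l, hr _, o :: (List.replicate p.2 l ++ [o]), ?_, rfl⟩
  refine ⟨[o], ⟨o, rfl, rfl⟩, List.replicate p.2 l ++ [o], ?_, rfl⟩
  exact ⟨List.replicate p.2 l, hr _, [o], ⟨o, rfl, rfl⟩, rfl⟩

omit [Fintype α] in
theorem UnJ_rul (ρ : List (Fin K × Fin K)) :
    (rul (α := α) ρ).length = 1 + (ρ.flatMap (itm (α := α))).length := by
  unfold rul
  rw [List.length_cons]
  omega

omit [Fintype α] in
/-- reading one item of a rule -/
theorem UnJ_rd {T : List (Ct α)} {r : ℕ} {ρ0 ρ' : List (Fin K × Fin K)} {p : Fin K × Fin K}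
    (h : Rd T r (rul (α := α) (ρ0 ++ p :: ρ'))) :
    Rd T (r + 1 + (ρ0.flatMap (itm (α := α))).length) (itm p) := by
  have e : rul (α := α) (ρ0 ++ p :: ρ') =
      [R] ++ (ρ0.flatMap itm ++ (itm p ++ ρ'.flatMap itm)) := by
    unfold rul
    rw [List.flatMap_append, List.flatMap_cons]
    rfl
  rw [e] at h
  exact h.append_right.append_right.append_left

omit [Fintype α] in
theorem UnJ_R {T : List (Ct α)} {r : ℕ} {ρ : List (Fin K × Fin K)}
    (h : Rd T r (rul (α := α) ρ)) : Is T r (· = R) := by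
  have h1 := h.get (t := 0) (by rw [UnJ_rul]; omega)
  exact ⟨R, by simpa [rul] using h1, rfl⟩

theorem UnJ_base {i : ℕ} {A : Fin K} {a : α} (hi : i < w.length) (hwa : w[i] = a)
    (ha : G.base A a) :
    At (enc G pd w) (SU .LL) (posC G pd true i A) ((i + 1) * dD G pd) ∧
      (i + 1 < w.length →
        At (enc G pd w) (SU .RL) (posx G pd i) (posE G pd false (i + 1) A)) := by
  have hlen := enc_length G pd w
  obtain ⟨o1, o2, o3, o4, o5, o6, o7⟩ := pos_order G pd i A
  have hx : Is (enc G pd w) (posx G pd i) (· = x a) := ⟨x a, by rw [enc_x G pd w hi, hwa], rfl⟩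
  have hxl := hx.lt
  constructor
  · rw [sU_eq Vu.LL]
    obtain ⟨r, r1, r2, r3, r4⟩ := fwd_b G pd w (c := true) hi ha
    have hsec : secS G pd true i A ≤ posC G pd true i A := by unfold posC; omega
    have hrl : r < (enc G pd w).length := by
      obtain ⟨h, _⟩ := List.getElem?_eq_some_iff.1 r3
      exact h
    have hmain : At (enc G pd w) (cat (ST isb) (cat (LC (· = b a)) (cat (ST tok) (LC (· = x a)))))
        (posC G pd true i A) ((i + 1) * dD G pd) := by
      refine at_cat.2 ⟨r, at_ST.2 ⟨r1, hrl.le, r4⟩, at_cat.2 ⟨r + 1, at_LC.2 ⟨rfl, b a, r3, rfl⟩,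
        at_cat.2 ⟨posx G pd i, at_ST.2 ⟨by omega, hxl.le, fun t t1 t2 => ?_⟩,
          at_LC.2 ⟨o5.symm, hx⟩⟩⟩⟩
      exact enc_tok G pd w (by omega) (no_x_between G pd (by omega) t2)
    exact at_union.2 (Or.inl ⟨hmain.1, hmain.2.1, a, hmain.2.2⟩)
  · intro hj
    rw [sU_eq Vu.RL]
    obtain ⟨r, r1, r2, r3, -⟩ := fwd_b G pd w (c := false) hj ha
    obtain ⟨q1, q2, q3, q4, q5, q6, q7⟩ := pos_order G pd (i + 1) A
    have hxj := (enc_m G pd w hj).lt
    have hsec : secS G pd false (i + 1) A ≤ posC G pd false (i + 1) A := by unfold posC; omega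
    have hmain : At (enc G pd w)
        (cat (LC (· = x a)) (cat (ST tokm) (cat (LC (· = b a)) (ST inner))))
        (posx G pd i) (posE G pd false (i + 1) A) := by
      refine at_cat.2 ⟨posx G pd i + 1, at_LC.2 ⟨rfl, hx⟩, at_cat.2 ⟨r,
        at_ST.2 ⟨by omega, by omega, fun t t1 t2 => ?_⟩, at_cat.2 ⟨r + 1,
          at_LC.2 ⟨rfl, b a, r3, rfl⟩, at_ST.2 ⟨by omega, by omega, fun t t1 t2 => ?_⟩⟩⟩⟩
      · exact enc_tokm G pd w (by omega) (no_x_between G pd (i := i + 1) (by omega) (by omega))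
          (no_m_first G pd (i := i + 1) (by omega) (by omega))
      · exact cont_inner G pd w hj (by omega) t2
    exact at_union.2 (Or.inl ⟨hmain.1, hmain.2.1, a, hmain.2.2⟩)

theorem UnJ_LL {i j : ℕ} {A : Fin K} (hij : i < j) (hj : j ≤ w.length)
    {ρ : List (Fin K × Fin K)} (hρ : ρ ∈ G.rules A)
    (H : ∀ p ∈ ρ, ∃ k, i < k ∧ k < j ∧
      At (enc G pd w) (SU .RL) (posx G pd i) (posE G pd false k p.1) ∧
      At (enc G pd w) (SU .LL) (posC G pd true k p.2) (j * dD G pd)) :
    At (enc G pd w) (SU .LL) (posC G pd true i A) (j * dD G pd) := by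
  have hi : i < w.length := by omega
  have hlen := enc_length G pd w
  obtain ⟨o1, o2, o3, o4, o5, o6, o7⟩ := pos_order G pd i A
  obtain ⟨r, r1, r2, r3, r4⟩ := fwd_R G pd w (c := true) hi hρ
  have hjD : (i + 1) * dD G pd ≤ j * dD G pd := Nat.mul_le_mul_right _ (by omega)
  have hjl : j * dD G pd ≤ (enc G pd w).length := by
    rw [hlen]
    exact Nat.mul_le_mul_right _ hj
  have hsec : secS G pd true i A ≤ posC G pd true i A := by unfold posC; omega
  have hrl := UnJ_rul (α := α) ρ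
  have key : ∀ ρ' ρ0 : List (Fin K × Fin K), ρ = ρ0 ++ ρ' →
      At (enc G pd w) (SU .IL) (r + 1 + (ρ0.flatMap (itm (α := α))).length) (j * dD G pd) := by
    intro ρ'
    induction ρ' with
    | nil =>
      intro ρ0 he
      rw [List.append_nil] at he
      subst he
      have hz : r + 1 + (ρ.flatMap (itm (α := α))).length = r + (rul (α := α) ρ).length := by
        omega
      rw [hz, sU_eq Vu.IL]
      have hne : Is (enc G pd w) (r + (rul (α := α) ρ).length) (· ≠ I) := by
        rcases r4 with h | h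
        · rw [h]
          exact (posE_o G pd w hi).mono (fun c hc => by
            have hc' : c = o := hc
            rw [hc']
            exact fun h => by cases h)
        · exact h.mono (fun c hc => by
            have hc' : c = R := hc
            rw [hc']
            exact fun h => by cases h)
      exact at_union.2 (Or.inl (at_cat.2 ⟨r + (rul (α := α) ρ).length + 1, at_LC.2 ⟨rfl, hne⟩,
        at_univ.2 ⟨by omega, hjl⟩⟩))
    | cons p ρ'' ih =>
      intro ρ0 he
      subst he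
      have hrd := UnJ_rd r3
      obtain ⟨k, k1, k2, k3, k4⟩ := H p (by simp)
      have ih' := ih (ρ0 ++ [p]) (by simp)
      have hl1 : ((ρ0 ++ [p]).flatMap (itm (α := α))).length =
          (ρ0.flatMap (itm (α := α))).length + (itm (α := α) p).length := by
        rw [List.flatMap_append, List.length_append, List.flatMap_singleton]
      have hl2 : ((ρ0 ++ p :: ρ'').flatMap (itm (α := α))).length =
          (ρ0.flatMap (itm (α := α))).length + ((itm (α := α) p).length +
            (ρ''.flatMap (itm (α := α))).length) := by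
        rw [List.flatMap_append, List.length_append, List.flatMap_cons, List.length_append]
      rw [hl1, ← Nat.add_assoc] at ih'
      have hit := itemL_complete G pd w k1 k2 hj
        (q := r + 1 + (ρ0.flatMap (itm (α := α))).length) (by omega) (by omega) hrd k3 k4
      rw [sU_eq Vu.IL]
      exact at_union.2 (Or.inr (at_inter.2 ⟨hit, at_cat.2 ⟨_, hrd.at (UnJ_itm p), ih'⟩⟩))
  have hIL := key ρ [] rfl
  rw [sU_eq Vu.LL]
  have hrR := UnJ_R r3
  refine at_union.2 (Or.inr (at_cat.2 ⟨r, at_ST.2 ⟨r1, hrR.lt.le, fun t t1 t2 => ?_⟩,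
    at_cat.2 ⟨r + 1, at_LC.2 ⟨rfl, hrR⟩, hIL⟩⟩))
  exact cont_inner G pd w hi t1 (by omega)

theorem UnJ_RL {i j : ℕ} {A : Fin K} (hij : i < j) (hj : j < w.length)
    {ρ : List (Fin K × Fin K)} (hρ : ρ ∈ G.rules A)
    (H : ∀ p ∈ ρ, ∃ k, i < k ∧ k < j ∧
      At (enc G pd w) (SU .RL) (posx G pd i) (posE G pd false k p.1) ∧
      At (enc G pd w) (SU .LL) (posC G pd true k p.2) (j * dD G pd)) :
    At (enc G pd w) (SU .RL) (posx G pd i) (posE G pd false j A) := by
  have hi : i < w.length := by omega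
  have hlen := enc_length G pd w
  obtain ⟨o1, o2, o3, o4, o5, o6, o7⟩ := pos_order G pd i A
  obtain ⟨q1, q2, q3, q4, q5, q6, q7⟩ := pos_order G pd j A
  obtain ⟨r, r1, r2, r3, r4⟩ := fwd_R G pd w (c := false) hj hρ
  have hjD : (i + 1) * dD G pd ≤ j * dD G pd := Nat.mul_le_mul_right _ (by omega)
  have hml := (enc_m G pd w hj).lt
  have hsec : secS G pd false j A ≤ posC G pd false j A := by unfold posC; omega
  have hrl := UnJ_rul (α := α) ρ
  have hrR := UnJ_R r3
  have key : ∀ ρ0 ρ' : List (Fin K × Fin K), ρ = ρ0 ++ ρ' →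
      At (enc G pd w) (SU .IR) (posx G pd i) (r + 1 + (ρ0.flatMap (itm (α := α))).length) := by
    intro ρ0
    induction ρ0 using List.reverseRecOn with
    | nil =>
      intro ρ' _
      rw [sU_eq Vu.IR]
      exact at_union.2 (Or.inl (at_cat.2 ⟨r, at_univ.2 ⟨by omega, hrR.lt.le⟩,
        at_LC.2 ⟨rfl, hrR⟩⟩))
    | append_singleton ρ0 p ih =>
      intro ρ' he
      rw [List.append_assoc, List.singleton_append] at he
      subst he
      have hrd := UnJ_rd r3
      obtain ⟨k, k1, k2, k3, k4⟩ := H p (by simp)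
      have ih' := ih (p :: ρ') rfl
      have hl1 : ((ρ0 ++ [p]).flatMap (itm (α := α))).length =
          (ρ0.flatMap (itm (α := α))).length + (itm (α := α) p).length := by
        rw [List.flatMap_append, List.length_append, List.flatMap_singleton]
      have hl2 : ((ρ0 ++ p :: ρ').flatMap (itm (α := α))).length =
          (ρ0.flatMap (itm (α := α))).length + ((itm (α := α) p).length +
            (ρ'.flatMap (itm (α := α))).length) := by
        rw [List.flatMap_append, List.length_append, List.flatMap_cons, List.length_append]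
      rw [hl1, ← Nat.add_assoc]
      have hit := itemR_complete G pd w k1 k2 hj
        (z0 := r + 1 + (ρ0.flatMap (itm (α := α))).length) (by omega) (by omega) hrd k3 k4
      rw [sU_eq Vu.IR]
      exact at_union.2 (Or.inr (at_inter.2 ⟨hit, at_cat.2 ⟨_, ih', hrd.at (UnJ_itm p)⟩⟩))
  have hIR := key ρ [] (by simp)
  have hz : r + 1 + (ρ.flatMap (itm (α := α))).length = r + (rul (α := α) ρ).length := by omega
  rw [hz] at hIR
  rw [sU_eq Vu.RL]
  refine at_union.2 (Or.inr (at_cat.2 ⟨_, hIR, ?_⟩))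
  by_cases hzE : r + (rul (α := α) ρ).length = posE G pd false j A
  · exact at_union.2 (Or.inl (at_eps.2 ⟨hzE, by omega⟩))
  · have hR : Is (enc G pd w) (r + (rul (α := α) ρ).length) (· = R) := by
      rcases r4 with h | h
      · exact absurd h hzE
      · exact h
    refine at_union.2 (Or.inr (at_cat.2 ⟨_, at_LC.2 ⟨rfl, hR⟩,
      at_ST.2 ⟨by omega, by omega, fun t t1 t2 => ?_⟩⟩))
    exact cont_inner G pd w hj (by omega) t2

theorem un_complete {i j : ℕ} {A : Fin K} (hij : i < j) (hj : j ≤ w.length)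
    (h : G.D A (seg w i j)) :
    At (enc G pd w) (SU .LL) (posC G pd true i A) (j * dD G pd) ∧
      (j < w.length → At (enc G pd w) (SU .RL) (posx G pd i) (posE G pd false j A)) := by
  obtain ⟨n, hn⟩ : ∃ n, n = j - i := ⟨_, rfl⟩
  induction n using Nat.strong_induction_on generalizing i j A with
  | _ n IH =>
  subst hn
  rcases (Gr.D_iff G A _).1 h with ⟨a, ha, hb⟩ | ⟨ρ, hρ, hsp⟩
  · have hl := length_seg hij.le hj (w := w)
    rw [ha, List.length_singleton] at hl
    have hji : j = i + 1 := by omega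
    subst hji
    have hi : i < w.length := by omega
    have h1 := getElem?_seg (w := w) (i := i) (j := i + 1) 0
    rw [ha, if_pos (by omega)] at h1
    have h2 : w[i]? = some a := by simpa using h1.symm
    have h3 : w[i] = a := by
      rw [List.getElem?_eq_getElem hi] at h2
      exact Option.some.inj h2
    exact UnJ_base G pd w hi h3 hb
  · have H : ∀ p ∈ ρ, ∃ k, i < k ∧ k < j ∧
        At (enc G pd w) (SU .RL) (posx G pd i) (posE G pd false k p.1) ∧
        At (enc G pd w) (SU .LL) (posC G pd true k p.2) (j * dD G pd) := by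
      intro p hp
      obtain ⟨u, v, huv, hu, hv⟩ := hsp p hp
      obtain ⟨s1, s2, s3⟩ := atl_seg_split hij.le hj huv
      have hu0 : 0 < u.length := List.length_pos_iff.2 (Gr.D_ne_nil hu)
      have hkj : i + u.length < j := by
        rcases Nat.eq_or_lt_of_le s1 with he | hlt
        · rw [he, atl_seg_self] at s3
          exact absurd s3.symm (Gr.D_ne_nil hv)
        · exact hlt
      rw [← s2] at hu
      rw [← s3] at hv
      have i1 := IH (i + u.length - i) (by omega) (by omega) (by omega) hu rfl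
      have i2 := IH (j - (i + u.length)) (by omega) hkj hj hv rfl
      exact ⟨i + u.length, by omega, hkj, i1.2 (by omega), i2.1⟩
    exact ⟨UnJ_LL G pd w hij hj hρ H, fun hj' => UnJ_RL G pd w hij hj' hρ H⟩

end Pool.Agent.H29.CJ

end S_UnJ

section S_UnSI

/-!
# Items: soundness

Use only the STATEMENTS of the imported files.

Write `Tw = enc G pd w`, `D = dD G pd`, `p = (B, C)`.
(L) `At (ItemL SU) q y`: positions `e1 ≤ e2` with `MC` on `[q, e2)`, `MB` on `[q, e1)`, and `r1 ≤ r2`: `ST tok` on `[q, r1)`, `RL` on `[r1, r2)`, `nmE` on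
 `[r2, e1)`; `GapL` on `[e1, e2)`; `LL` on `[e2, y)`.
 `nmE_inv`: `r2 = posE c k A'`, `k < n`, `e1 = r2 + A' + 2`.  `hIR` (the segment `[r1, r2)` is shorter than `[q, y)`: `r2 < e1 ≤ y`): `c = false`, `r1 = posx i'`,
 `i' < k`, `G.D A' (seg w i' k)`.  No `x` letter in `[q, r1)` (`tok`) and the first `x` letter at or after `q` is `posx i` (`posm i < q ≤ posx i`): `i' = i`
 (if `i' > i` then `posx i` is in `[q, r1)`; `i' < i` is impossible as `q ≤ posx i'`).
 `GapL`: `tokm` up to a position carrying `m` (`enc_ism`: `posm k'`), `tokm`, then `nmS` on `[s, e2)`: `nmS_inv`: `s = secS c' k'' C'`, `e2 = s + C' + 2 =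
 posC c' k'' C'`.  `e1 ≤ posm k` and no `m` (and no `x`) between `e1` and `posm k'`, so `k' = k`; between `posm k` and `s` there is no `x`, no `m`; so `s` is in the second
 copy of chunk `k`: `k'' = k`, `c' = true` (if `k'' > k` then `posx k` is in between; if `k'' = k`, `c' = false` then `s < posm k`).
 `hIL` on `[e2, y)` (shorter, `q < e2`): `y = j D`, `k < j ≤ n`, `G.D C' (seg w k j)`.
 Names: `MB` on `[q, e1)`: `I`, `Sync` exponent `a`: `l^a` from `q + 1`, then `o`; as `Tw` reads `I l^B o` from `q`, `a = B`.  At the right end: `o` at `e1 - 2 - a`,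
 `l^a`, `E` at `e1 - 1`; `Tw` reads `o l^{A'} E` from `r2 = e1 - A' - 2`; so `a = A'` (compare the positions of the last `o` before `E`).  So `A' = B`.
 `MC`: `I l* o` is `I l^B o`, then `Sync` exponent `a'`: `l^{a'}` then `o`: `a' = C`; right end: `S` at `e2 - 2 - a'`, `l^{a'}`, `o` at `e2 - 1`: `Tw` reads `S l^{C'} o` from
 `s = e2 - C' - 2`: `a' = C'`.
(R) `At (ItemR SU) x z`: `RL` on `[x, r2)`, `MBR` on `[r2, z)`, `nmE` on `[r2, e1)`, `GapR` on `[e1, s)`, `MCR` on `[s, z)`, `nmS` on `[s, e2)`, `LL` on `[e2, y)`,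
 `ST tokm` on `[y, z)`.  As before: `r2 = posE c k A'`, `hIR`: `c = false`, `x = posx i`, `i < k`, `G.D A' (seg w i k)`; `s = secS true k C'`, `e2 = posC true k C'`;
 `hIL`: `y = j' D`, `k < j' ≤ n`, `G.D C' (seg w k j')`.  `z ≤ posx j`, `z > j D` and no `x`, no `m` in `[y, z)`: `j' = j` (if `j' < j` then `posx j'` is in `[y, z)`; if
 `j' > j` then `y = j' D > posx j ≥ z`), and `z ≤ posm j` (otherwise `posm j ∈ [y, z)`).
 Names: `Tw` reads `I l^B o l^C o` from `z0` to `z`.  `MBR`: `o l^a E ... I l^a o l* o`: right end: last `o` at `z - 1`, before it `l*` and `o`: this is the `o` at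
 `z0 + 1 + B`, before it `l^a` and `I`: `a = B`; left end: `a = A'`.  `MCR`: `S l^a o ... o l^a o`: right: `a = C`; left: `a = C'`.
-/

set_option autoImplicit false

namespace Pool.Agent.H29.CJ

open Ct

variable {α : Type} [Fintype α] {K : ℕ} (G : Gr α K) (pd : ℕ) (w : List α)

/-- soundness of `RL` segments of length less than `N` -/
def RSound (N : ℕ) : Prop :=
  ∀ x' y', y' - x' < N → ∀ (c : Bool) (j : ℕ) (A : Fin K), j < w.length →
    y' = posE G pd c j A → At (enc G pd w) (SU .RL) x' y' →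
      c = false ∧ ∃ i' < j, x' = posx G pd i' ∧ G.D A (seg w i' j)

/-- soundness of `LL` segments of length less than `N` -/
def LSound (N : ℕ) : Prop :=
  ∀ x' y', y' - x' < N → ∀ (i' : ℕ) (A : Fin K), i' < w.length →
    x' = posC G pd true i' A → At (enc G pd w) (SU .LL) x' y' →
      ∃ j', i' < j' ∧ j' ≤ w.length ∧ y' = j' * dD G pd ∧ G.D A (seg w i' j')

private theorem UnSI_clash {β : Type} {v : List β} {i : ℕ} {a b : β} (h1 : Is v i (· = a))
    (h2 : Is v i (· = b)) : a = b := by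
  obtain ⟨c, -, h3, h4⟩ := h1.and h2
  exact h3.symm.trans h4

omit [Fintype α] in
private theorem UnSI_tok {v : List (Ct α)} {i : ℕ} {a : α} (h1 : Is v i tok)
    (h2 : v[i]? = some (x a)) : False := by
  obtain ⟨c, hc, h3⟩ := h1
  rw [h2] at hc
  obtain rfl := Option.some.inj hc
  exact h3 ⟨a, rfl⟩

omit [Fintype α] in
private theorem UnSI_tokm {v : List (Ct α)} {i : ℕ} (h1 : Is v i tokm)
    (h2 : Is v i (· = m)) : False := by
  obtain ⟨c, -, h3, h4⟩ := h1.and h2
  exact h3.2 h4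

omit [Fintype α] in
private theorem UnSI_tt {v : List (Ct α)} {i : ℕ} (h1 : Is v i tokm) : Is v i tok :=
  h1.mono fun _ h => h.1

omit [Fintype α] in
/-- the end of a run of `l`s is determined -/
private theorem UnSI_fw {v : List (Ct α)} {s a b : ℕ} {c1 c2 : Ct α} (h1 : l ≠ c1) (h2 : l ≠ c2)
    (hsa : s ≤ a) (hsb : s ≤ b)
    (ha : ∀ t, s ≤ t → t < a → Is v t (· = l)) (ha' : Is v a (· = c1))
    (hb : ∀ t, s ≤ t → t < b → Is v t (· = l)) (hb' : Is v b (· = c2)) : a = b := by
  rcases Nat.lt_trichotomy a b with h | h | h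
  · exact absurd (UnSI_clash (hb a hsa h) ha') h1
  · exact h
  · exact absurd (UnSI_clash (ha b hsb h) hb') h2

omit [Fintype α] in
/-- the start of a run of `l`s is determined -/
private theorem UnSI_bw {v : List (Ct α)} {e a b : ℕ} {c1 c2 : Ct α} (h1 : l ≠ c1) (h2 : l ≠ c2)
    (hae : a < e) (hbe : b < e)
    (ha : ∀ t, a < t → t < e → Is v t (· = l)) (ha' : Is v a (· = c1))
    (hb : ∀ t, b < t → t < e → Is v t (· = l)) (hb' : Is v b (· = c2)) : a = b := by
  rcases Nat.lt_trichotomy a b with h | h | h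
  · exact absurd (UnSI_clash (ha b h hbe) hb') h2
  · exact h
  · exact absurd (UnSI_clash (hb a h hae) ha') h1

private theorem UnSI_one {β : Type} {v : List β} {q : ℕ} {c : β} {u : List β}
    (h : Rd v q (c :: u)) : Is v q (· = c) ∧ Rd v (q + 1) u := by
  constructor
  · refine ⟨c, ?_, rfl⟩
    have h1 := h.get (t := 0) (by simp)
    simpa using h1
  · have h2 : Rd v q ([c] ++ u) := h
    have h3 := h2.append_right
    simpa using h3

private theorem UnSI_rep {β : Type} {v : List β} {q n : ℕ} {c : β} {u : List β}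
    (h : Rd v q (List.replicate n c ++ u)) :
    (∀ t, q ≤ t → t < q + n → Is v t (· = c)) ∧ Rd v (q + n) u := by
  constructor
  · intro t h1 h2
    refine ⟨c, ?_, rfl⟩
    have h3 := h.append_left.get (t := t - q) (by rw [List.length_replicate]; omega)
    rw [Nat.add_sub_cancel' h1, List.getElem?_replicate, if_pos (by omega)] at h3
    exact h3
  · have h3 := h.append_right
    rwa [List.length_replicate] at h3

omit [Fintype α] in
private theorem UnSI_len {p : Fin K × Fin K} :
    (itm (α := α) p).length = p.1 + p.2 + 3 := by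
  unfold itm
  simp only [List.length_cons, List.length_append, List.length_replicate, List.length_nil]
  omega

omit [Fintype α] in
private theorem UnSI_itm {v : List (Ct α)} {q : ℕ} {p : Fin K × Fin K} (h : Rd v q (itm p)) :
    Is v q (· = I) ∧ (∀ t, q + 1 ≤ t → t < q + 1 + p.1 → Is v t (· = l)) ∧
      Is v (q + 1 + p.1) (· = o) ∧
      (∀ t, q + 1 + p.1 + 1 ≤ t → t < q + 1 + p.1 + 1 + p.2 → Is v t (· = l)) ∧
      Is v (q + 1 + p.1 + 1 + p.2) (· = o) := by
  unfold itm at h
  obtain ⟨h1, h2⟩ := UnSI_one h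
  obtain ⟨h3, h4⟩ := UnSI_rep h2
  obtain ⟨h5, h6⟩ := UnSI_one h4
  obtain ⟨h7, h8⟩ := UnSI_rep h6
  exact ⟨h1, h3, h5, h7, (UnSI_one h8).1⟩

private theorem UnSI_sect {i : ℕ} (hi : i < w.length) (c : Bool) (A : Fin K) :
    Is (enc G pd w) (secS G pd c i A) (· = S) ∧
    (∀ t, secS G pd c i A + 1 ≤ t → t < secS G pd c i A + 1 + A →
      Is (enc G pd w) t (· = l)) ∧
    Is (enc G pd w) (secS G pd c i A + 1 + A) (· = o) ∧
    Is (enc G pd w) (posE G pd c i A) (· = o) ∧
    (∀ t, posE G pd c i A + 1 ≤ t → t < posE G pd c i A + 1 + A →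
      Is (enc G pd w) t (· = l)) ∧
    Is (enc G pd w) (posE G pd c i A + 1 + A) (· = E) := by
  have h := enc_sect G pd w hi c A
  unfold sect at h
  obtain ⟨h1, h2⟩ := UnSI_one h
  obtain ⟨h3, h4⟩ := UnSI_rep h2
  obtain ⟨h5, h6⟩ := UnSI_one h4
  have h7 := h6.append_right
  have e : secS G pd c i A + 1 + A + 1 + (cont G A).length = posE G pd c i A := by
    unfold posE posC
    omega
  rw [e] at h7
  obtain ⟨h8, h9⟩ := UnSI_one h7
  obtain ⟨h10, h11⟩ := UnSI_rep h9
  exact ⟨h1, h3, h5, h8, h10, (UnSI_one h11).1⟩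

private theorem UnSI_posx (i : ℕ) : posx G pd i + 1 = (i + 1) * dD G pd := by
  unfold posx dD
  ring

private theorem UnSI_lt {i k : ℕ} (h : i < k) : posx G pd i + 1 ≤ k * dD G pd := by
  rw [UnSI_posx]
  exact Nat.mul_le_mul_right _ h

private theorem UnSI_secE (c : Bool) (i : ℕ) (A : Fin K) :
    secS G pd c i A + A + 2 ≤ posE G pd c i A := by
  unfold posE posC
  omega

private theorem UnSI_sec0 (c : Bool) (i : ℕ) (A : Fin K) :
    i * dD G pd ≤ secS G pd c i A := by
  unfold secS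
  omega

private theorem UnSI_sec1 (c : Bool) (i : ℕ) (A : Fin K) :
    posE G pd c i A + A + 2 ≤ posx G pd i := by
  have h := pos_order G pd i A
  cases c
  · omega
  · omega

/-- the gap between the two names -/
private theorem UnSI_mid {k k2 e1 u1 s : ℕ} {c2 : Bool} {A1 C1 : Fin K} (hk : k < w.length)
    (he1 : e1 = posE G pd false k A1 + A1 + 2)
    (h1 : ∀ t, e1 ≤ t → t < u1 → Is (enc G pd w) t tokm) (hle : e1 ≤ u1)
    (h2 : Is (enc G pd w) u1 (· = m))
    (h3 : ∀ t, u1 + 1 ≤ t → t < s → Is (enc G pd w) t tokm) (hle2 : u1 + 1 ≤ s)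
    (hs : s = secS G pd c2 k2 C1) : c2 = true ∧ k2 = k := by
  obtain ⟨k1, hk1, e⟩ := enc_ism G pd w h2
  have o1 := pos_order G pd k A1
  have o2 := pos_order G pd k1 A1
  have o3 := UnSI_secE G pd false k A1
  have o4 := UnSI_sec0 G pd false k A1
  have o5 := UnSI_secE G pd c2 k2 C1
  have o6 := UnSI_sec0 G pd c2 k2 C1
  have o7 := UnSI_sec1 G pd c2 k2 C1
  have ek : k1 = k := by
    rcases Nat.lt_trichotomy k1 k with h | h | h
    · have := UnSI_lt G pd h
      omega
    · exact h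
    · have := UnSI_lt G pd h
      exact (UnSI_tokm (h1 (posm G pd k) (by omega) (by omega)) (enc_m G pd w hk)).elim
  subst ek
  have ek2 : k2 = k1 := by
    rcases Nat.lt_trichotomy k2 k1 with h | h | h
    · have := UnSI_lt G pd h
      omega
    · exact h
    · have := UnSI_lt G pd h
      have := Nat.mul_le_mul_right (dD G pd) (Nat.succ_le_of_lt h)
      exact (UnSI_tok (UnSI_tt (h3 (posx G pd k1) (by omega) (by omega)))
        (enc_x G pd w hk1)).elim
  subst ek2
  refine ⟨?_, rfl⟩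
  cases c2
  · have o8 := pos_order G pd k2 C1
    omega
  · rfl

theorem itemL_sound {i q y : ℕ} {p : Fin K × Fin K} (hi : i < w.length)
    (hq : posm G pd i < q) (hq' : q + (itm (α := α) p).length ≤ posx G pd i)
    (hrd : Rd (enc G pd w) q (itm p)) (hIR : RSound G pd w (y - q)) (hIL : LSound G pd w (y - q))
    (h : At (enc G pd w) (ItemL SU) q y) :
    ∃ k j, i < k ∧ k < j ∧ j ≤ w.length ∧ y = j * dD G pd ∧ G.D p.1 (seg w i k) ∧
      G.D p.2 (seg w k j) := by
  obtain ⟨e2, g1, g2⟩ := at_cat.1 h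
  obtain ⟨gC, g3⟩ := at_inter.1 g1
  obtain ⟨e1, g4, gG⟩ := at_cat.1 g3
  obtain ⟨gB, g5⟩ := at_inter.1 g4
  obtain ⟨r1, g6, g7⟩ := at_cat.1 g5
  obtain ⟨r2, g8, g9⟩ := at_cat.1 g7
  obtain ⟨c, k, A1, hk, er2, ee1⟩ := nmE_inv G pd w g9
  obtain ⟨f1, f2, f3⟩ := at_ST.1 g6
  obtain ⟨u1, g10, g11⟩ := at_cat.1 gG
  obtain ⟨u2, g12, g13⟩ := at_cat.1 g11
  obtain ⟨s, g14, g15⟩ := at_cat.1 g13
  obtain ⟨rfl, f4⟩ := at_LC.1 g12
  obtain ⟨f5, -, f6⟩ := at_ST.1 g10
  obtain ⟨f7, -, f8⟩ := at_ST.1 g14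
  obtain ⟨c2, k2, C1, hk2, es, ee2⟩ := nmS_inv G pd w g15
  have l1 := g8.le
  have l2 := g2.le
  obtain ⟨rfl, i1, hi1, er1, hD1⟩ := hIR r1 r2 (by omega) c k A1 hk er2 g8
  have hlen := UnSI_len (α := α) (p := p)
  have o1 := pos_order G pd i A1
  have ei : i1 = i := by
    rcases Nat.lt_trichotomy i1 i with h' | h' | h'
    · have := UnSI_lt G pd h'
      omega
    · exact h'
    · have a1 := UnSI_lt G pd h'
      have a2 : i1 * dD G pd ≤ posx G pd i1 := by
        unfold posx
        omega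
      exact (UnSI_tok (f3 (posx G pd i) (by omega) (by omega)) (enc_x G pd w hi)).elim
  subst ei
  obtain ⟨rfl, rfl⟩ := UnSI_mid G pd w hk (by rw [ee1, er2]) f6 f5 f4 f8 f7 es
  have ee2' : e2 = posC G pd true k2 C1 := by
    rw [ee2, es]
    rfl
  obtain ⟨j1, hj1, hj2, ey, hD2⟩ := hIL e2 y (by omega) k2 C1 hk ee2' g2
  -- names
  obtain ⟨t1, t2, t3, t4, t5⟩ := UnSI_itm hrd
  obtain ⟨-, -, -, s4, s5, s6⟩ := UnSI_sect G pd w hk false A1
  obtain ⟨z1, z2, z3, -, -, -⟩ := UnSI_sect G pd w hk true C1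
  rw [← er2] at s4 s5 s6
  rw [← es] at z1 z2 z3
  -- `MB`
  obtain ⟨v0, b1, b2⟩ := at_cat.1 gB
  obtain ⟨rfl, -⟩ := at_LC.1 b1
  obtain ⟨v, b3, b4⟩ := at_cat.1 b2
  obtain ⟨b5, -⟩ := at_LC.1 b4
  obtain ⟨a, j2, b6, -, b7, b8, b9⟩ := at_Sync_LC.1 b3
  obtain ⟨v1, b10, b11⟩ := at_cat.1 b7
  obtain ⟨rfl, b12⟩ := at_LC.1 b10
  obtain ⟨u, b13, b14⟩ := at_cat.1 b11
  obtain ⟨rfl, b15⟩ := at_LC.1 b14
  have l3 := b13.le
  have n1 : q + 1 + a = q + 1 + p.1 :=
    UnSI_fw (s := q + 1) (by simp) (by simp) (by omega) (by omega) b8 b12 t2 t3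
  have n2 : u = r2 :=
    UnSI_bw (e := v) (by simp) (by simp) (by omega) (by omega)
      (fun t h1 h2 => b9 t (by omega) h2) b15 (fun t h1 h2 => s5 t (by omega) (by omega)) s4
  have n3 : A1 = p.1 := Fin.ext (by omega)
  -- `MC`
  obtain ⟨w0, d1, d2⟩ := at_cat.1 gC
  obtain ⟨rfl, -⟩ := at_LC.1 d1
  obtain ⟨w1, d3, d4⟩ := at_cat.1 d2
  obtain ⟨w2, d5, d6⟩ := at_cat.1 d4
  obtain ⟨rfl, d7⟩ := at_LC.1 d5
  obtain ⟨d8, -, d9⟩ := at_ST.1 d3
  obtain ⟨w3, d10, d11⟩ := at_cat.1 d6
  obtain ⟨d12, -⟩ := at_LC.1 d11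
  obtain ⟨a', j3, d13, -, d14, d15, d16⟩ := at_Sync_LC.1 d10
  obtain ⟨w4, d17, d18⟩ := at_cat.1 d14
  obtain ⟨rfl, d19⟩ := at_LC.1 d17
  obtain ⟨u', d20, d21⟩ := at_cat.1 d18
  obtain ⟨rfl, d22⟩ := at_LC.1 d21
  have l4 := d20.le
  have m1 : w1 = q + 1 + p.1 :=
    UnSI_fw (s := q + 1) (by simp) (by simp) d8 (by omega) d9 d7 t2 t3
  subst m1
  have m2 : q + 1 + p.1 + 1 + a' = q + 1 + p.1 + 1 + p.2 :=
    UnSI_fw (s := q + 1 + p.1 + 1) (by simp) (by simp) (by omega) (by omega) d15 d19 t4 t5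
  have m3 : u' = s :=
    UnSI_bw (e := w3) (by simp) (by simp) (by omega) (by omega)
      (fun t h1 h2 => d16 t (by omega) h2) d22 (fun t h1 h2 => z2 t (by omega) (by omega)) z1
  have m4 : C1 = p.2 := Fin.ext (by omega)
  subst n3
  subst m4
  exact ⟨k2, j1, hi1, hj1, hj2, ey, hD1, hD2⟩

theorem itemR_sound {j x z z0 : ℕ} {p : Fin K × Fin K} (hj : j < w.length)
    (hz0 : j * dD G pd ≤ z0) (hz : z = z0 + (itm (α := α) p).length) (hz' : z ≤ posx G pd j)
    (hrd : Rd (enc G pd w) z0 (itm p)) (hIR : RSound G pd w (z - x)) (hIL : LSound G pd w (z - x))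
    (h : At (enc G pd w) (ItemR SU) x z) :
    z ≤ posm G pd j ∧ ∃ i k, x = posx G pd i ∧ i < k ∧ k < j ∧ G.D p.1 (seg w i k) ∧
      G.D p.2 (seg w k j) := by
  obtain ⟨r2, g8, g1⟩ := at_cat.1 h
  obtain ⟨gB, g2⟩ := at_inter.1 g1
  obtain ⟨e1, g9, g3⟩ := at_cat.1 g2
  obtain ⟨s, gG, g4⟩ := at_cat.1 g3
  obtain ⟨gC, g5⟩ := at_inter.1 g4
  obtain ⟨e2, g15, g6⟩ := at_cat.1 g5
  obtain ⟨y, g16, g17⟩ := at_cat.1 g6
  obtain ⟨f1, -, f3⟩ := at_ST.1 g17
  obtain ⟨c, k, A1, hk, er2, ee1⟩ := nmE_inv G pd w g9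
  obtain ⟨u1, g10, g11⟩ := at_cat.1 gG
  obtain ⟨u2, g12, g14⟩ := at_cat.1 g11
  obtain ⟨rfl, f4⟩ := at_LC.1 g12
  obtain ⟨f5, -, f6⟩ := at_ST.1 g10
  obtain ⟨f7, -, f8⟩ := at_ST.1 g14
  obtain ⟨c2, k2, C1, hk2, es, ee2⟩ := nmS_inv G pd w g15
  have l1 := g8.le
  have l2 := g16.le
  obtain ⟨rfl, i1, hi1, er1, hD1⟩ := hIR x r2 (by omega) c k A1 hk er2 g8
  have hlen := UnSI_len (α := α) (p := p)
  obtain ⟨rfl, rfl⟩ := UnSI_mid G pd w hk (by rw [ee1, er2]) f6 f5 f4 f8 f7 es
  have ee2' : e2 = posC G pd true k2 C1 := by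
    rw [ee2, es]
    rfl
  obtain ⟨j1, hj1, hj2, ey, hD2⟩ := hIL e2 y (by omega) k2 C1 hk ee2' g16
  have ej : j1 = j := by
    rcases Nat.lt_trichotomy j1 j with h' | h' | h'
    · have a1 := UnSI_lt G pd h'
      have a2 : j1 * dD G pd ≤ posx G pd j1 := by
        unfold posx
        omega
      exact (UnSI_tok (UnSI_tt (f3 (posx G pd j1) (by omega) (by omega)))
        (enc_x G pd w (h'.trans hj))).elim
    · exact h'
    · have a1 := UnSI_lt G pd h'
      omega
  subst ej
  have hzm : z ≤ posm G pd j1 := by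
    by_contra hc
    have a2 : j1 * dD G pd ≤ posm G pd j1 := by
      unfold posm
      omega
    exact UnSI_tokm (f3 (posm G pd j1) (by omega) (by omega)) (enc_m G pd w hj)
  -- names
  obtain ⟨t1, t2, t3, t4, t5⟩ := UnSI_itm hrd
  obtain ⟨-, -, -, s4, s5, s6⟩ := UnSI_sect G pd w hk false A1
  obtain ⟨z1, z2, z3, -, -, -⟩ := UnSI_sect G pd w hk true C1
  rw [← er2] at s4 s5 s6
  rw [← es] at z1 z2 z3
  -- `MBR`
  obtain ⟨v0, b1, b2⟩ := at_cat.1 gB
  obtain ⟨rfl, -⟩ := at_LC.1 b1
  obtain ⟨v1, b3, b4⟩ := at_cat.1 b2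
  obtain ⟨v2, b5, b6⟩ := at_cat.1 b4
  obtain ⟨rfl, b7⟩ := at_LC.1 b5
  obtain ⟨v3, b8, b9⟩ := at_cat.1 b6
  obtain ⟨b10, b11⟩ := at_LC.1 b9
  obtain ⟨b12, -, b13⟩ := at_ST.1 b8
  obtain ⟨a, j2, b14, -, b15, b16, b17⟩ := at_Sync_LC.1 b3
  obtain ⟨v4, b18, b19⟩ := at_cat.1 b15
  obtain ⟨rfl, b20⟩ := at_LC.1 b18
  obtain ⟨u, b21, b22⟩ := at_cat.1 b19
  obtain ⟨rfl, b23⟩ := at_LC.1 b22
  have l3 := b21.le
  have n1 : r2 + 1 + a = r2 + 1 + A1 :=
    UnSI_fw (s := r2 + 1) (by simp) (by simp) (by omega) (by omega) b16 b20 s5 s6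
  have n2 : v1 = z0 + 1 + p.1 :=
    UnSI_bw (e := v3) (by simp) (by simp) (by omega) (by omega)
      (fun t h1 h2 => b13 t (by omega) h2) b7 (fun t h1 h2 => t4 t (by omega) (by omega)) t3
  have n3 : u = z0 :=
    UnSI_bw (e := v1) (by simp) (by simp) (by omega) (by omega)
      (fun t h1 h2 => b17 t (by omega) h2) b23 (fun t h1 h2 => t2 t (by omega) (by omega)) t1
  have n4 : A1 = p.1 := Fin.ext (by omega)
  -- `MCR`
  obtain ⟨w0, d1, d2⟩ := at_cat.1 gC
  obtain ⟨rfl, -⟩ := at_LC.1 d1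
  obtain ⟨w3, d10, d11⟩ := at_cat.1 d2
  obtain ⟨d12, -⟩ := at_LC.1 d11
  obtain ⟨a', j3, d13, -, d14, d15, d16⟩ := at_Sync_LC.1 d10
  obtain ⟨w4, d17, d18⟩ := at_cat.1 d14
  obtain ⟨rfl, d19⟩ := at_LC.1 d17
  obtain ⟨u', d20, d21⟩ := at_cat.1 d18
  obtain ⟨rfl, d22⟩ := at_LC.1 d21
  have l4 := d20.le
  have m1 : s + 1 + a' = s + 1 + C1 :=
    UnSI_fw (s := s + 1) (by simp) (by simp) (by omega) (by omega) d15 d19 z2 z3
  have m2 : u' = z0 + 1 + p.1 :=
    UnSI_bw (e := w3) (by simp) (by simp) (by omega) (by omega)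
      (fun t h1 h2 => d16 t (by omega) h2) d22 (fun t h1 h2 => t4 t (by omega) (by omega)) t3
  have m4 : C1 = p.2 := Fin.ext (by omega)
  subst n4
  subst m4
  exact ⟨hzm, i1, k2, er1, hi1, hj1, hD1, hD2⟩

end Pool.Agent.H29.CJ

end S_UnSI

section S_UnSS

/-!
# Universal language: soundness

Use only the STATEMENTS of the imported files.

Prove `RSound N ∧ LSound N` by induction on `N`; step: segments of length exactly `N` (unfold by `sU_eq`, `PhiU`).
(LL) `x' = posC true i A`.
 `BaseL`: `a`, `r`, `ST isb` on `[x', r)`, `b a` at `r`, `ST tok` on `[r+1, y'-1)`, `x a` at `y' - 1`.  `cont_b`: `r < posE true i A ≤ posx i`, `G.base A a`.  `enc_isx`: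
  `y' - 1 = posx i'`, `a = w[i']`.  No `x` letter in `[x', y'-1)` and `posm i < x' ≤ posx i`, so `i' = i`, `y' = (i+1) D`, `seg w i (i+1) = [w[i]]`.
 Rule: `ST inner` on `[x', r)`, `R` at `r`, `IL` on `[r+1, y')`.  `cont_R`: `ρ`, `Rd (r+1) (ρ.flatMap itm ++ [ch])`, `ch ≠ I`.
  Claim (induction on a final part `ρ'` of `ρ`, position `q` with `Rd q (ρ'.flatMap itm ++ [ch])`, `posm i < q`, `q + |ρ'.flatMap itm| ≤ posE true i A ≤ posx i`,
  `At IL q y'`): every `p ∈ ρ'` has `k, j` with `i < k < j ≤ n`, `y' = j D`, `G.D p.1 (seg w i k)`, `G.D p.2 (seg w k j)`.  For `ρ' = p :: ρ''` the letter at `q` is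
  `I`, so the first alternative of `IL` is impossible; `itemL_sound` (with `RSound`, `LSound` for `y' - q < N`, monotone in `N`) and `cat ItT IL`: the `ItT` segment
  from `q` is exactly `itm p` (`I`, `l`s up to the first `o`, ...), continue with `q + |itm p|`.
  As `ρ ≠ []` (`G.ne`): `y' = j D`; the `j` is the same for all `p` (`dD_pos`).  `G.D A (seg w i j)` by `Gr.D_iff`, `seg_append`.
(RL) `y' = posE c j A`.
 `BaseR`: `x a` at `x'`, `ST tokm` on `[x'+1, r)`, `b a` at `r`, `ST inner` on `[r+1, y')`.  `back_b`: `posC c j A ≤ r`, `G.base A a`.  `enc_isx`: `x' = posx i`, `a = w[i]`.  No `x`, no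
  `m` in `[x'+1, r)`; `r` lies in chunk `j`, so `i + 1 = j` (if `i + 1 < j` then `posx (i+1)` is in between; `i < j` because `posx i < r ≤ posx j`...), and
  `c = false` (otherwise `posm j` is in between).  `seg w i j = [w[i]]`.
 `IR`: `z` with `At IR x' z`, and `z = y'` or (`R` at `z`, `ST inner` on `[z+1, y')`).  `back_R`: three cases.
  (b) `z - 1` carries a `b` letter: `IR` on `[x', z)` unfolds to: `z - 1` carries `R` (impossible), or `cat IR ItT`, whose last letter is `o` (impossible).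
  (c) the word reads `S l^A o` ending at `z`: `z - 1` carries `o`, not `R`; `cat IR ItT`: `I l* o l* o` ends at `z`: the last `o` is at `z - 1`, then going left only `l`s
   until an `o`; but going left from `z - 1` we meet `A` letters `l` and then `S`: contradiction.
  (a) `ρ ∈ G.rules A`, `Rd z0 (rul ρ)`, `z = z0 + |rul ρ|`, `posC c j A ≤ z0`.  Claim (induction on an initial part `ρ₀` of `ρ`, from the right:
   `List.reverseRecOn`): if `At IR x' (z0 + 1 + |ρ₀.flatMap itm|)` then every `p ∈ ρ₀` satisfies the conclusion of `itemR_sound` (`c = false` follows from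
   `z ≤ posm j` when `ρ₀ ≠ []`).  For `ρ₀ ++ [p]` the last letter is `o`, so the first alternative of `IR` is impossible; `itemR_sound`, and the `ItT` segment
   ending at `z` is exactly `itm p` (read backwards: `o`, `l`s, `o`, `l`s, `I`).
   All `p` have the same `i` (`x' = posx i`, `dD_pos`), `ρ ≠ []`.
-/

set_option autoImplicit false

namespace Pool.Agent.H29.CJ

open Ct

variable {α : Type} [Fintype α] {K : ℕ} (G : Gr α K) (pd : ℕ) (w : List α)

theorem UnSS_get {β : Type} {v : List β} {t : ℕ} {P : β → Prop} {a : β} (h : Is v t P)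
    (ha : v[t]? = some a) : P a := by
  obtain ⟨b', hb, hP⟩ := h
  rw [ha] at hb
  obtain rfl := Option.some.inj hb
  exact hP

theorem UnSS_itm_len (p : Fin K × Fin K) :
    (itm (α := α) p).length = p.1.val + p.2.val + 3 := by
  simp [itm]
  omega

theorem UnSS_itm_facts {v : List (Ct α)} {q : ℕ} {p : Fin K × Fin K} (h : Rd v q (itm p)) :
    v[q]? = some I ∧ (∀ t, q < t → t < q + 1 + p.1.val → v[t]? = some l) ∧
    v[q + 1 + p.1.val]? = some o ∧
    (∀ t, q + 1 + p.1.val < t → t < q + 2 + p.1.val + p.2.val → v[t]? = some l) ∧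
    v[q + 2 + p.1.val + p.2.val]? = some o := by
  have g : ∀ t, t < p.1.val + p.2.val + 3 → v[q + t]? = (itm (α := α) p)[t]? :=
    fun t ht => h.get (by rw [UnSS_itm_len]; exact ht)
  refine ⟨?_, ?_, ?_, ?_, ?_⟩
  · have := g 0 (by omega)
    simpa [itm] using this
  · intro t h1 h2
    obtain ⟨s, rfl⟩ : ∃ s, t = q + (s + 1) := ⟨t - q - 1, by omega⟩
    rw [g (s + 1) (by omega)]
    unfold itm
    rw [List.getElem?_cons_succ, List.getElem?_append_left (by rw [List.length_replicate]; omega),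
      List.getElem?_replicate, if_pos (by omega)]
  · have := g (p.1.val + 1) (by omega)
    rw [show q + 1 + p.1.val = q + (p.1.val + 1) by omega, this]
    unfold itm
    rw [List.getElem?_cons_succ, List.getElem?_append_right (by rw [List.length_replicate]),
      List.length_replicate, Nat.sub_self]
    rfl
  · intro t h1 h2
    obtain ⟨s, rfl⟩ : ∃ s, t = q + (p.1.val + (s + 1) + 1) := ⟨t - q - p.1.val - 2, by omega⟩
    rw [g _ (by omega)]
    unfold itm
    rw [List.getElem?_cons_succ, List.getElem?_append_right (by rw [List.length_replicate]; omega),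
      List.length_replicate, Nat.add_sub_cancel_left, List.getElem?_cons_succ,
      List.getElem?_append_left (by rw [List.length_replicate]; omega),
      List.getElem?_replicate, if_pos (by omega)]
  · have := g (p.1.val + (p.2.val + 1) + 1) (by omega)
    rw [show q + 2 + p.1.val + p.2.val = q + (p.1.val + (p.2.val + 1) + 1) by omega, this]
    unfold itm
    rw [List.getElem?_cons_succ, List.getElem?_append_right (by rw [List.length_replicate]; omega),
      List.length_replicate, Nat.add_sub_cancel_left, List.getElem?_cons_succ,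
      List.getElem?_append_right (by rw [List.length_replicate]),
      List.length_replicate, Nat.sub_self]
    rfl

/-- decomposition of an item segment -/
theorem UnSS_ItT {v : List (Ct α)} {q z : ℕ} (h : At v ItT q z) :
    ∃ k, q < k ∧ k + 2 ≤ z ∧ Is v q (· = I) ∧ (∀ t, q < t → t < k → Is v t (· = l)) ∧
      Is v k (· = o) ∧ (∀ t, k < t → t < z - 1 → Is v t (· = l)) ∧ Is v (z - 1) (· = o) := by
  obtain ⟨k1, h1, h⟩ := at_cat.1 h
  obtain ⟨k2, h2, h⟩ := at_cat.1 h
  obtain ⟨k3, h3, h⟩ := at_cat.1 h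
  obtain ⟨k4, h4, h5⟩ := at_cat.1 h
  obtain ⟨rfl, h1'⟩ := at_LC.1 h1
  obtain ⟨h21, h22, h23⟩ := at_ST.1 h2
  obtain ⟨rfl, h3'⟩ := at_LC.1 h3
  obtain ⟨h41, h42, h43⟩ := at_ST.1 h4
  obtain ⟨rfl, h5'⟩ := at_LC.1 h5
  refine ⟨k2, by omega, by omega, h1', fun t ht1 ht2 => h23 t (by omega) ht2, h3',
    fun t ht1 ht2 => h43 t (by omega) (by omega), ?_⟩
  rw [Nat.add_sub_cancel]
  exact h5'

theorem UnSS_ItT_L {v : List (Ct α)} {q z : ℕ} {p : Fin K × Fin K} (hr : Rd v q (itm p))
    (h : At v ItT q z) : z = q + (itm (α := α) p).length := by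
  obtain ⟨f1, f2, f3, f4, f5⟩ := UnSS_itm_facts hr
  obtain ⟨k, g1, g2, g3, g4, g5, g6, g7⟩ := UnSS_ItT h
  rw [UnSS_itm_len]
  have hk : k = q + 1 + p.1.val := by
    rcases lt_trichotomy k (q + 1 + p.1.val) with hlt | heq | hgt
    · have := UnSS_get g5 (f2 k g1 hlt)
      cases this
    · exact heq
    · have := UnSS_get (g4 _ (by omega) hgt) f3
      cases this
  have hz : z - 1 = q + 2 + p.1.val + p.2.val := by
    rcases lt_trichotomy (z - 1) (q + 2 + p.1.val + p.2.val) with hlt | heq | hgt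
    · have := UnSS_get g7 (f4 _ (by omega) hlt)
      cases this
    · exact heq
    · have := UnSS_get (g6 _ (by omega) hgt) f5
      cases this
  omega

theorem UnSS_ItT_R {v : List (Ct α)} {x' z z0 : ℕ} {p : Fin K × Fin K} (hr : Rd v z0 (itm p))
    (hz : z = z0 + (itm (α := α) p).length) (h : At v ItT x' z) : x' = z0 := by
  obtain ⟨f1, f2, f3, f4, f5⟩ := UnSS_itm_facts hr
  obtain ⟨k, g1, g2, g3, g4, g5, g6, g7⟩ := UnSS_ItT h
  rw [UnSS_itm_len] at hz
  have hk : k = z0 + 1 + p.1.val := by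
    rcases lt_trichotomy k (z0 + 1 + p.1.val) with hlt | heq | hgt
    · have := UnSS_get (g6 _ hlt (by omega)) f3
      cases this
    · exact heq
    · have := UnSS_get g5 (f4 k hgt (by omega))
      cases this
  rcases lt_trichotomy x' z0 with hlt | heq | hgt
  · have := UnSS_get (g4 _ hlt (by omega)) f1
    cases this
  · exact heq
  · have := UnSS_get g3 (f2 x' hgt (by omega))
    cases this

theorem UnSS_LL : (SU .LL : Set (List (Ct α))) =
    BaseL ∪ cat (ST inner) (cat (LC (· = R)) (SU .IL)) := sU_eq _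

theorem UnSS_IL : (SU .IL : Set (List (Ct α))) =
    cat (LC (· ≠ I)) Set.univ ∪ (ItemL SU ∩ cat ItT (SU .IL)) := sU_eq _

theorem UnSS_RL : (SU .RL : Set (List (Ct α))) =
    BaseR ∪ cat (SU .IR) ({[]} ∪ cat (LC (· = R)) (ST inner)) := sU_eq _

theorem UnSS_IR : (SU .IR : Set (List (Ct α))) =
    cat Set.univ (LC (· = R)) ∪ (ItemR SU ∩ cat (SU .IR) ItT) := sU_eq _

variable {G pd w}

theorem UnSS_RSound_mono {M N : ℕ} (h : M ≤ N) (h' : RSound G pd w N) : RSound G pd w M :=
  fun x' y' hxy => h' x' y' (lt_of_lt_of_le hxy h)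

theorem UnSS_LSound_mono {M N : ℕ} (h : M ≤ N) (h' : LSound G pd w N) : LSound G pd w M :=
  fun x' y' hxy => h' x' y' (lt_of_lt_of_le hxy h)

/-- the items of a rule, from left to right -/
theorem UnSS_itemsL {N i : ℕ} (hi : i < w.length) (hR : RSound G pd w N) (hL : LSound G pd w N)
    (ρ : List (Fin K × Fin K)) :
    ∀ q y, posm G pd i < q → q + (ρ.flatMap (itm (α := α))).length ≤ posx G pd i →
      Rd (enc G pd w) q (ρ.flatMap itm) → At (enc G pd w) (SU .IL) q y → y - q ≤ N →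
      ∀ p ∈ ρ, ∃ k j, i < k ∧ k < j ∧ j ≤ w.length ∧ y = j * dD G pd ∧ G.D p.1 (seg w i k) ∧
        G.D p.2 (seg w k j) := by
  induction ρ with
  | nil =>
    intro q y _ _ _ _ _ p hp
    cases hp
  | cons p0 ρ ih =>
    intro q y hq hq' hrd hat hN
    rw [List.flatMap_cons, List.length_append] at hq'
    rw [List.flatMap_cons] at hrd
    have hrd1 := hrd.append_left
    have hrd2 := hrd.append_right
    obtain ⟨f1, -, -, -, -⟩ := UnSS_itm_facts hrd1
    rw [UnSS_IL] at hat
    rcases at_union.1 hat with hat | hat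
    · obtain ⟨k, h1, -⟩ := at_cat.1 hat
      obtain ⟨-, h1'⟩ := at_LC.1 h1
      have h1'' := UnSS_get h1' f1
      exact absurd rfl h1''
    · obtain ⟨h1, h2⟩ := at_inter.1 hat
      obtain ⟨z, h3, h4⟩ := at_cat.1 h2
      have hz := UnSS_ItT_L hrd1 h3
      subst hz
      have key := itemL_sound G pd w hi hq (by omega) hrd1 (UnSS_RSound_mono hN hR)
        (UnSS_LSound_mono hN hL) h1
      have rest := ih (q + (itm (α := α) p0).length) y (by omega) (by omega) hrd2 h4 (by omega)
      intro p hp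
      rcases List.mem_cons.1 hp with rfl | hp
      · exact key
      · exact rest p hp

/-- the items of a rule, from right to left -/
theorem UnSS_itemsR {N j x' z0 : ℕ} (hj : j < w.length) (hR : RSound G pd w N)
    (hL : LSound G pd w N) (hz0 : j * dD G pd ≤ z0) (ρ : List (Fin K × Fin K)) :
    Rd (enc G pd w) (z0 + 1) (ρ.flatMap itm) →
      z0 + 1 + (ρ.flatMap (itm (α := α))).length ≤ posx G pd j →
      At (enc G pd w) (SU .IR) x' (z0 + 1 + (ρ.flatMap (itm (α := α))).length) →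
      z0 + 1 + (ρ.flatMap (itm (α := α))).length - x' ≤ N →
      ∀ p ∈ ρ, z0 < posm G pd j ∧ ∃ i k, x' = posx G pd i ∧ i < k ∧ k < j ∧
        G.D p.1 (seg w i k) ∧ G.D p.2 (seg w k j) := by
  induction ρ using List.reverseRecOn with
  | nil =>
    intro _ _ _ _ p hp
    cases hp
  | append_singleton ρ p0 ih =>
    intro hrd hle hat hN
    have hfl : (ρ ++ [p0]).flatMap (itm (α := α)) = ρ.flatMap itm ++ itm p0 := by
      rw [List.flatMap_append]
      simp
    rw [hfl] at hrd hle hat hN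
    rw [List.length_append] at hle hat hN
    have hrd1 := hrd.append_left
    have hrd2 := hrd.append_right
    obtain ⟨-, -, -, -, f5⟩ := UnSS_itm_facts hrd2
    have hlen := UnSS_itm_len (α := α) p0
    rw [UnSS_IR] at hat
    rcases at_union.1 hat with hat | hat
    · obtain ⟨k, -, h1⟩ := at_cat.1 hat
      obtain ⟨hk, h1'⟩ := at_LC.1 h1
      have hk' : k = z0 + 1 + (ρ.flatMap (itm (α := α))).length + 2 + p0.1.val + p0.2.val := by
        omega
      rw [hk'] at h1'
      have := UnSS_get h1' f5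
      cases this
    · obtain ⟨h1, h2⟩ := at_inter.1 hat
      obtain ⟨z, h3, h4⟩ := at_cat.1 h2
      have hz := UnSS_ItT_R hrd2 (by omega) h4
      subst hz
      have key := itemR_sound G pd w (z0 := z0 + 1 + (ρ.flatMap (itm (α := α))).length) hj
        (by omega) (by omega) hle hrd2 (UnSS_RSound_mono hN hR)
        (UnSS_LSound_mono hN hL) h1
      have rest := ih hrd1 (by omega) h3 (by omega)
      intro p hp
      rcases List.mem_append.1 hp with hp | hp
      · exact rest p hp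
      · rw [List.mem_singleton] at hp
        subst hp
        exact ⟨by omega, key.2⟩

theorem UnSS_mul {a b : ℕ} (h : a * dD G pd = b * dD G pd) : a = b :=
  Nat.eq_of_mul_eq_mul_right (dD_pos G pd) h

theorem UnSS_mul_lt {a b : ℕ} (h : a * dD G pd < b * dD G pd) : a < b :=
  lt_of_mul_lt_mul_right h (Nat.zero_le _)

theorem UnSS_mul_le {a b : ℕ} (h : a ≤ b) : a * dD G pd ≤ b * dD G pd :=
  Nat.mul_le_mul_right _ h

theorem UnSS_posx_succ (i : ℕ) : posx G pd i + 1 = (i + 1) * dD G pd := by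
  unfold posx dD
  ring

theorem UnSS_posx_inj {a b : ℕ} (h : posx G pd a = posx G pd b) : a = b := by
  have h1 := UnSS_posx_succ (G := G) (pd := pd) a
  have h2 := UnSS_posx_succ (G := G) (pd := pd) b
  have h3 : (a + 1) * dD G pd = (b + 1) * dD G pd := by omega
  have := UnSS_mul h3
  omega

theorem UnSS_posx_lt {a b : ℕ} (h : posx G pd a < posx G pd b) : a < b := by
  have h1 := UnSS_posx_succ (G := G) (pd := pd) a
  have h2 := UnSS_posx_succ (G := G) (pd := pd) b
  have h3 : (a + 1) * dD G pd < (b + 1) * dD G pd := by omega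
  have := UnSS_mul_lt h3
  omega

theorem UnSS_CE (c : Bool) (i : ℕ) (A : Fin K) :
    posC G pd c i A ≤ posE G pd c i A ∧ secS G pd c i A + 2 ≤ posC G pd c i A := by
  unfold posE posC
  omega

theorem UnSS_seg_one {i : ℕ} (hi : i < w.length) : seg w i (i + 1) = [w[i]] :=
  atl_seg_one (List.getElem?_eq_getElem hi)

theorem UnSS_stepL {N : ℕ} (hR : RSound G pd w N) (hL : LSound G pd w N) :
    LSound G pd w (N + 1) := by
  intro x' y' hxy i A hi hx' hat
  obtain ⟨hCE, hSC⟩ := UnSS_CE (G := G) (pd := pd) true i A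
  obtain ⟨-, -, o3, o4, o5, o6, o7⟩ := pos_order G pd i A
  rw [UnSS_LL] at hat
  rcases at_union.1 hat with hat | hat
  · obtain ⟨g1, g2, a, g3⟩ := hat
    have hat : At (enc G pd w) (cat (ST isb) (cat (LC (· = b a)) (cat (ST tok) (LC (· = x a)))))
      x' y' := ⟨g1, g2, g3⟩
    obtain ⟨r, h1, hat⟩ := at_cat.1 hat
    obtain ⟨k2, h2, hat⟩ := at_cat.1 hat
    obtain ⟨k3, h3, h4⟩ := at_cat.1 hat
    obtain ⟨h11, h12, h13⟩ := at_ST.1 h1
    obtain ⟨rfl, a2, h2, rfl⟩ := at_LC.1 h2
    obtain ⟨h31, h32, h33⟩ := at_ST.1 h3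
    obtain ⟨rfl, a4, h4, rfl⟩ := at_LC.1 h4
    obtain ⟨c1, c2⟩ := cont_b G pd w (c := true) (A := A) hi (by omega)
      (fun t ht1 ht2 => h13 t (by omega) ht2) h2
    obtain ⟨i', hi', e1, e2⟩ := enc_isx G pd w h4
    have hii : i' = i := by
      rcases lt_trichotomy i' i with hlt | heq | hgt
      · exfalso
        have u1 := UnSS_posx_succ (G := G) (pd := pd) i'
        have u2 : (i' + 1) * dD G pd ≤ i * dD G pd := UnSS_mul_le hlt
        omega
      · exact heq
      · exfalso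
        have u1 := UnSS_posx_succ (G := G) (pd := pd) i'
        have u2 := UnSS_posx_succ (G := G) (pd := pd) i
        have u3 : (i + 1) * dD G pd < (i' + 1) * dD G pd :=
          Nat.mul_lt_mul_of_pos_right (by omega) (dD_pos G pd)
        have u4 := h33 (posx G pd i) (by omega) (by omega)
        exact UnSS_get u4 (enc_x G pd w hi) ⟨_, rfl⟩
    subst hii
    refine ⟨i' + 1, by omega, by omega, by omega, ?_⟩
    rw [UnSS_seg_one hi', ← e2]
    exact Gr.D.base c2
  · obtain ⟨r, h1, hat⟩ := at_cat.1 hat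
    obtain ⟨k2, h2, h3⟩ := at_cat.1 hat
    obtain ⟨h11, h12, h13⟩ := at_ST.1 h1
    obtain ⟨rfl, h2'⟩ := at_LC.1 h2
    obtain ⟨c1, ρ, hρ, ch, hch, c2, c3⟩ := cont_R G pd w (c := true) (A := A) hi (by omega)
      (fun t ht1 ht2 => h13 t (by omega) ht2) h2'
    have hle := h3.le
    have key := UnSS_itemsL hi hR hL ρ (r + 1) y' (by omega) (by omega) c3.append_left h3
      (by omega)
    obtain ⟨p0, hp0⟩ := List.exists_mem_of_ne_nil ρ (G.ne A ρ hρ)
    obtain ⟨k, j, e1, e2, e3, e4, e5, e6⟩ := key p0 hp0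
    refine ⟨j, by omega, e3, e4, ?_⟩
    rw [Gr.D_iff]
    refine Or.inr ⟨ρ, hρ, fun p hp => ?_⟩
    obtain ⟨k', j', d1, d2, d3, d4, d5, d6⟩ := key p hp
    have : j' = j := UnSS_mul (by rw [← d4, e4])
    subst this
    exact ⟨seg w i k', seg w k' j', seg_append (by omega) (by omega) w, d5, d6⟩

theorem UnSS_stepR {N : ℕ} (hR : RSound G pd w N) (hL : LSound G pd w N) :
    RSound G pd w (N + 1) := by
  intro x' y' hxy c j A hj hy' hat
  obtain ⟨hCE, hSC⟩ := UnSS_CE (G := G) (pd := pd) c j A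
  obtain ⟨o1, o2, o3, o4, o5, o6, o7⟩ := pos_order G pd j A
  have hsec : j * dD G pd ≤ secS G pd c j A := by
    cases c
    · exact o1
    · omega
  have hEx : posE G pd c j A ≤ posx G pd j := by
    cases c
    · omega
    · omega
  rw [UnSS_RL] at hat
  rcases at_union.1 hat with hat | hat
  · obtain ⟨g1, g2, a, g3⟩ := hat
    have hat : At (enc G pd w) (cat (LC (· = x a)) (cat (ST tokm) (cat (LC (· = b a)) (ST inner))))
      x' y' := ⟨g1, g2, g3⟩
    obtain ⟨k1, h1, hat⟩ := at_cat.1 hat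
    obtain ⟨r, h2, hat⟩ := at_cat.1 hat
    obtain ⟨k3, h3, h4⟩ := at_cat.1 hat
    obtain ⟨rfl, a1, h1, rfl⟩ := at_LC.1 h1
    obtain ⟨h21, h22, h23⟩ := at_ST.1 h2
    obtain ⟨rfl, a3, h3, rfl⟩ := at_LC.1 h3
    obtain ⟨h41, h42, h43⟩ := at_ST.1 h4
    obtain ⟨c1, c2⟩ := back_b G pd w (c := c) (i := j) (A := A) hj (by omega)
      (fun t ht1 ht2 => h43 t (by omega) (by omega)) h3
    obtain ⟨i, hi, e1, e2⟩ := enc_isx G pd w h1
    have hij : i < j := UnSS_posx_lt (G := G) (pd := pd) (by omega)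
    have u1 := UnSS_posx_succ (G := G) (pd := pd) i
    have hij2 : i + 1 = j := by
      by_contra hne
      have u2 := UnSS_posx_succ (G := G) (pd := pd) (i + 1)
      have u3 : (i + 1 + 1) * dD G pd ≤ j * dD G pd := UnSS_mul_le (by omega)
      have u4 : (i + 1) * dD G pd < (i + 1 + 1) * dD G pd :=
        Nat.mul_lt_mul_of_pos_right (by omega) (dD_pos G pd)
      have u5 := h23 (posx G pd (i + 1)) (by omega) (by omega)
      exact (UnSS_get u5 (enc_x G pd w (i := i + 1) (by omega))).1 ⟨_, rfl⟩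
    subst hij2
    refine ⟨?_, i, by omega, e1, ?_⟩
    · cases c
      · rfl
      · exfalso
        have u5 := h23 (posm G pd (i + 1)) (by omega) (by omega)
        obtain ⟨b1, hb1, hb2⟩ := enc_m G pd w hj
        exact (UnSS_get u5 hb1).2 hb2
    · rw [UnSS_seg_one hi, ← e2]
      exact Gr.D.base c2
  · obtain ⟨z, h1, h2⟩ := at_cat.1 hat
    have hb : z = posE G pd c j A ∨ (z < posE G pd c j A ∧ Is (enc G pd w) z (· = R) ∧
        ∀ t, z < t → t < posE G pd c j A → Is (enc G pd w) t inner) := by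
      rcases at_union.1 h2 with h2 | h2
      · left
        rw [(at_eps.1 h2).1, hy']
      · right
        obtain ⟨k, h3, h4⟩ := at_cat.1 h2
        obtain ⟨rfl, h3'⟩ := at_LC.1 h3
        obtain ⟨h41, h42, h43⟩ := at_ST.1 h4
        exact ⟨by omega, h3', fun t ht1 ht2 => h43 t (by omega) (by omega)⟩
    have hzy : z ≤ y' := h2.le
    have hxz : x' ≤ z := h1.le
    rcases back_R G pd w hj hb with ⟨ρ, hρ, z0, b1, b2, b3⟩ | ⟨b1, b2⟩ | ⟨b1, b2⟩
    · have hlen : (rul (α := α) ρ).length = 1 + (ρ.flatMap (itm (α := α))).length := by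
        unfold rul
        rw [List.length_cons]
        omega
      have hrd : Rd (enc G pd w) (z0 + 1) (ρ.flatMap itm) := by
        have b4 : Rd (enc G pd w) z0 ([R] ++ ρ.flatMap itm) := b3
        have := b4.append_right
        exact this
      have hz : z = z0 + 1 + (ρ.flatMap (itm (α := α))).length := by omega
      rw [hz] at h1
      have key := UnSS_itemsR hj hR hL (z0 := z0) (by omega) ρ hrd (by omega) h1 (by omega)
      obtain ⟨p0, hp0⟩ := List.exists_mem_of_ne_nil ρ (G.ne A ρ hρ)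
      obtain ⟨e0, i, k, e1, e2, e3, e4, e5⟩ := key p0 hp0
      refine ⟨?_, i, by omega, e1, ?_⟩
      · cases c
        · rfl
        · exfalso
          omega
      · rw [Gr.D_iff]
        refine Or.inr ⟨ρ, hρ, fun p hp => ?_⟩
        obtain ⟨-, i', k', d1, d2, d3, d4, d5⟩ := key p hp
        have : i' = i := UnSS_posx_inj (G := G) (pd := pd) (by rw [← d1, e1])
        subst this
        exact ⟨seg w i' k', seg w k' j, seg_append (by omega) (by omega) w, d4, d5⟩
    · exfalso
      rw [UnSS_IR] at h1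
      rcases at_union.1 h1 with h1 | h1
      · obtain ⟨k, -, h3⟩ := at_cat.1 h1
        obtain ⟨rfl, a1, h3, rfl⟩ := at_LC.1 h3
        rw [Nat.add_sub_cancel] at b2
        obtain ⟨a2, h4⟩ := UnSS_get b2 h3
        cases h4
      · obtain ⟨-, h3⟩ := at_inter.1 h1
        obtain ⟨k, -, h3⟩ := at_cat.1 h3
        obtain ⟨k2, -, -, -, -, -, -, a1, h4, rfl⟩ := UnSS_ItT h3
        obtain ⟨a2, h4⟩ := UnSS_get b2 h4
        cases h4
    · exfalso
      have f0 : ∀ t, t < A.val + 2 → (enc G pd w)[z - (A.val + 2) + t]? =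
          ((S :: (List.replicate A l ++ [o]) : List (Ct α)))[t]? := by
        intro t ht
        exact b2.get (by simp; omega)
      have f1 : (enc G pd w)[z - (A.val + 2)]? = some S := by
        have := f0 0 (by omega)
        simpa using this
      have f2 : ∀ t, z - (A.val + 2) < t → t < z - 1 → (enc G pd w)[t]? = some l := by
        intro t ht1 ht2
        obtain ⟨s, rfl⟩ : ∃ s, t = z - (A.val + 2) + (s + 1) :=
          ⟨t - (z - (A.val + 2)) - 1, by omega⟩
        rw [f0 (s + 1) (by omega), List.getElem?_cons_succ,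
          List.getElem?_append_left (by rw [List.length_replicate]; omega),
          List.getElem?_replicate, if_pos (by omega)]
      have f3 : (enc G pd w)[z - 1]? = some o := by
        rw [show z - 1 = z - (A.val + 2) + (A.val + 1) by omega, f0 (A.val + 1) (by omega),
          List.getElem?_cons_succ, List.getElem?_append_right (by rw [List.length_replicate]),
          List.length_replicate, Nat.sub_self]
        rfl
      rw [UnSS_IR] at h1
      rcases at_union.1 h1 with h1 | h1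
      · obtain ⟨k, -, h3⟩ := at_cat.1 h1
        obtain ⟨rfl, h3'⟩ := at_LC.1 h3
        rw [Nat.add_sub_cancel] at f3
        have := UnSS_get h3' f3
        cases this
      · obtain ⟨-, h3⟩ := at_inter.1 h1
        obtain ⟨k, -, h3⟩ := at_cat.1 h3
        obtain ⟨k2, q1, q2, q3, q4, q5, q6, q7⟩ := UnSS_ItT h3
        rcases lt_trichotomy k2 (z - (A.val + 2)) with hlt | heq | hgt
        · have := UnSS_get (q6 _ hlt (by omega)) f1
          cases this
        · rw [heq] at q5
          have := UnSS_get q5 f1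
          cases this
        · have := UnSS_get q5 (f2 k2 hgt (by omega))
          cases this

variable (G pd w)

theorem un_sound (N : ℕ) : RSound G pd w N ∧ LSound G pd w N := by
  induction N with
  | zero =>
    constructor
    · intro x' y' h
      exact absurd h (Nat.not_lt_zero _)
    · intro x' y' h
      exact absurd h (Nat.not_lt_zero _)
  | succ N ih => exact ⟨UnSS_stepR ih.1 ih.2, UnSS_stepL ih.1 ih.2⟩

end Pool.Agent.H29.CJ

end S_UnSS

section S_UnT

/-!
# The universal language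

Use only the STATEMENTS of the imported files.

(←) `un_complete` with `i = 0`, `j = w.length`: `LL` on `[posC true 0 0, w.length D)`.  `posC true 0 0 = posm 0 + 1 + 0 + 2` as `oS G 0 = 0`
(`take 0`).  `ST tokm` on `[0, posm 0)`, `m` at `posm 0`, and `enc_sect`: `S, o` at `posm 0 + 1, posm 0 + 2`.  `at_full`.
(→) `at_full` and `at_cat`: `ST tokm` on `[0, r)`, `m` at `r`, `S` at `r + 1`, `o` at `r + 2`, `LL` on `[r + 3, length)`.  `enc_ism`: `r = posm i`; if `i > 0` then
`posm 0` would be in `[0, r)`; so `r = posm 0` and `r + 3 = posC true 0 0`.  `un_sound` (`N` large): `length = j D`, so `j = w.length` (`enc_length`, `dD_pos`), and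
`seg w 0 w.length = w`.
-/

set_option autoImplicit false

namespace Pool.Agent.H29.CJ

open Ct

private theorem UnT_secS {α : Type} [Fintype α] {k : ℕ} (G : Gr α (k + 1)) (pd : ℕ) :
    secS G pd true 0 0 = posm G pd 0 + 1 := by
  have h1 : oS G (0 : Fin (k + 1)) = 0 := by
    simp [oS]
  unfold secS posm
  rw [h1]
  simp

private theorem UnT_posC {α : Type} [Fintype α] {k : ℕ} (G : Gr α (k + 1)) (pd : ℕ) :
    posC G pd true 0 0 = posm G pd 0 + 3 := by
  unfold posC
  rw [UnT_secS]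
  simp

theorem LU_iff {α : Type} [Fintype α] {k : ℕ} (G : Gr α (k + 1)) (pd : ℕ) {w : List α}
    (hw : w ≠ []) : enc G pd w ∈ LU ↔ G.D 0 w := by
  have hpos : 0 < w.length := List.length_pos_iff.2 hw
  have hD := dD_pos G pd
  have hlen := enc_length G pd w
  have hord := pos_order G pd 0 (0 : Fin (k + 1))
  have hle : 1 * dD G pd ≤ w.length * dD G pd := Nat.mul_le_mul_right _ hpos
  have hsect := enc_sect G pd w hpos true (0 : Fin (k + 1))
  rw [UnT_secS] at hsect
  constructor
  · intro h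
    obtain ⟨r, h1, h2⟩ := at_cat.1 (at_full.2 h)
    obtain ⟨r1, h3, h4⟩ := at_cat.1 h2
    obtain ⟨r2, h5, h6⟩ := at_cat.1 h4
    obtain ⟨r3, h7, h8⟩ := at_cat.1 h6
    obtain ⟨rfl, hm⟩ := at_LC.1 h3
    obtain ⟨rfl, -⟩ := at_LC.1 h5
    obtain ⟨rfl, -⟩ := at_LC.1 h7
    obtain ⟨i, hi, hr⟩ := enc_ism G pd w hm
    have hi0 : i = 0 := by
      by_contra hne
      have h9 : dD G pd ≤ i * dD G pd := Nat.le_mul_of_pos_left _ (Nat.pos_of_ne_zero hne)
      have h10 : posm G pd 0 < r := by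
        rw [hr]
        unfold posm
        omega
      obtain ⟨-, -, h11⟩ := at_ST.1 h1
      obtain ⟨a, -, h12, h13⟩ := (h11 _ (Nat.zero_le _) h10).and (enc_m G pd w hpos)
      exact h12.2 h13
    subst hi0
    rw [hr] at h8
    have h9 : posm G pd 0 + 1 + 1 + 1 = posC G pd true 0 0 := by rw [UnT_posC]
    rw [h9] at h8
    obtain ⟨j, hj0, hj, hy, hG⟩ := (un_sound G pd w ((enc G pd w).length + 1)).2
      (posC G pd true 0 0) (enc G pd w).length (by omega) 0 0 hpos rfl h8
    rw [hlen] at hy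
    have hjw : w.length = j := Nat.eq_of_mul_eq_mul_right hD hy
    rw [← hjw, seg_full] at hG
    exact hG
  · intro h
    have hc := (un_complete G pd w (i := 0) (j := w.length) (A := 0) hpos le_rfl
      (by rw [seg_full]; exact h)).1
    have hS : Is (enc G pd w) (posm G pd 0 + 1) (· = S) := by
      refine ⟨S, ?_, rfl⟩
      have h1 := hsect.get (t := 0) (by simp [sect])
      have h2 : posm G pd 0 + 1 + 0 = posm G pd 0 + 1 := Nat.add_zero _
      rw [h2] at h1
      rw [h1]
      simp [sect]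
    have ho : Is (enc G pd w) (posm G pd 0 + 1 + 1) (· = o) := by
      refine ⟨o, ?_, rfl⟩
      have h1 := hsect.get (t := 1) (by simp [sect])
      rw [h1]
      simp [sect]
    apply at_full.1
    have hposx : posx G pd 0 < w.length * dD G pd := by
      have h1 := hord.2.2.2.2.1
      have h2 : (0 + 1) * dD G pd = 1 * dD G pd := by rw [Nat.zero_add]
      omega
    refine at_cat.2 ⟨posm G pd 0, at_ST.2 ⟨Nat.zero_le _, ?_, ?_⟩,
      at_cat.2 ⟨posm G pd 0 + 1, at_LC.2 ⟨rfl, enc_m G pd w hpos⟩,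
      at_cat.2 ⟨posm G pd 0 + 1 + 1, at_LC.2 ⟨rfl, hS⟩,
      at_cat.2 ⟨posm G pd 0 + 1 + 1 + 1, at_LC.2 ⟨rfl, ho⟩, ?_⟩⟩⟩⟩
    · rw [hlen]
      omega
    · intro t _ ht
      have h0 : 0 * dD G pd ≤ t := by rw [Nat.zero_mul]; exact Nat.zero_le _
      exact enc_tokm G pd w (by omega)
        (fun j => no_x_between G pd h0 (by omega) j)
        (fun j => no_m_first G pd h0 ht j)
    · have h9 : posm G pd 0 + 1 + 1 + 1 = posC G pd true 0 0 := by rw [UnT_posC]
      rw [h9, hlen]
      exact hc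

end Pool.Agent.H29.CJ

end S_UnT
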