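import Mathlib
import Pool.Agent.H29.CL.M1
import Pool.Agent.H29.CL.M3
import Pool.Agent.H29.CL.M9

/-! Conjunctive languages and homomorphisms, part M11: this file joins several modules to save build time. -/

section S_WrD

/-!
# The diagonal language: definitions

Letters `Om`: content letter (`Ct Lt`), auxiliary letter (`Ct Lt`), arithmetic mark (`Mk`), flag (`Bool`).
-/

set_option autoImplicit false

namespace Pool.Agent.H29.CJ

/-- arithmetic marks -/
inductive Mk : Type
  | no | st | b (v : Bool) | xx | dd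
  deriving DecidableEq, Fintype

abbrev Om : Type := Ct Lt × Ct Lt × Mk × Bool

def con (a : Om) : Ct Lt := a.1
def aux (a : Om) : Ct Lt := a.2.1
def mrk (a : Om) : Mk := a.2.2.1
def del (a : Om) : Prop := a.2.2.2 = true
/-- positions whose content is a letter `x _` -/
def isX (a : Om) : Prop := isx a.1

noncomputable section

open Classical

noncomputable instance fintype_CtLt : Fintype (Ct Lt) :=
  Fintype.ofSurjective
    (fun s : Fin 8 ⊕ (Lt ⊕ Lt) => match s with
      | .inl 0 => Ct.S | .inl 1 => Ct.E | .inl 2 => Ct.o | .inl 3 => Ct.l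
      | .inl 4 => Ct.m | .inl 5 => Ct.R | .inl 6 => Ct.I | .inl 7 => Ct.p
      | .inr (.inl a) => Ct.b a | .inr (.inr a) => Ct.x a)
    (by
      intro c
      cases c with
      | S => exact ⟨.inl 0, rfl⟩
      | E => exact ⟨.inl 1, rfl⟩
      | o => exact ⟨.inl 2, rfl⟩
      | l => exact ⟨.inl 3, rfl⟩
      | m => exact ⟨.inl 4, rfl⟩
      | R => exact ⟨.inl 5, rfl⟩
      | I => exact ⟨.inl 6, rfl⟩
      | p => exact ⟨.inl 7, rfl⟩
      | b a => exact ⟨.inr (.inl a), rfl⟩
      | x a => exact ⟨.inr (.inr a), rfl⟩)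

/-- binary code of a content letter (all codes have the same length) -/
def codeT (c : Ct Lt) : List Bool :=
  (Finset.univ : Finset (Ct Lt)).toList.map (fun d => decide (d = c))

/-- value of the binary word `1 l` -/
def val (l : List Bool) : ℕ := l.foldl (fun p b => 2 * p + (if b then 1 else 0)) 1

/-- the bits marked in a word -/
def mseq (ω : List Om) : List Bool :=
  ω.filterMap (fun a => match mrk a with | .b v => some v | _ => none)

/-- text segments whose auxiliary track is the reversed content -/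
def PalT : Set (List Om) := {u | (∀ a ∈ u, ¬ isX a) ∧ u.map con = (u.map aux).reverse}

/-- consecutive text segments around a letter: the second auxiliary track is the reversed first text -/
def Adj : Set (List Om) :=
  {w | ∃ u a v, w = u ++ a :: v ∧ isX a ∧ (∀ b ∈ u, ¬ isX b) ∧ (∀ b ∈ v, ¬ isX b) ∧
    u.map con = (v.map aux).reverse}

/-- marks spelling the bits `l`, up to the last of these marks -/
def BitsL : List Bool → Set (List Om)
  | [] => {[]}
  | b :: l => cat (ST (fun a => mrk a = .no)) (cat (LC (fun a => mrk a = .b b)) (BitsL l))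

/-- marks spelling the code of a list of content letters -/
def GpL (s : List (Ct Lt)) : Set (List Om) := BitsL (s.flatMap codeT)

/-- core of the link: the last mark before the powers of two, up to some letter `x _` -/
def Core0 : Set (List Om) :=
  cat (ST (fun a => mrk a = .no)) (cat (LC (fun a => mrk a = .xx)) (cat Set.univ (LC isX)))

/-- the marks spell the code of `s`, and the word ends with a text segment with auxiliary track
`s` reversed -/
def LnkC : Set (List Om) :=
  {w | ∃ (s : List (Ct Lt)) (g c v : List Om), w = g ++ (c ++ v) ∧ g ∈ GpL s ∧ c ∈ Core0 ∧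
    v.map aux = s.reverse ∧ ∀ b ∈ v, ¬ isX b}

def Dbl0 : Set (List Om) :=
  cat (Sync (LC (fun _ => True)) (LC (fun a => mrk a ≠ .no)) (LC (fun a => mrk a = .no)))
    (LC (fun a => mrk a ≠ .no))

def Dbl1 : Set (List Om) :=
  cat (Sync (LC (fun _ => True)) (cat (LC (fun a => mrk a ≠ .no)) (LC (fun a => mrk a = .no)))
    (LC (fun a => mrk a = .no))) (LC (fun a => mrk a ≠ .no))

/-- equidistant flags -/
def BlkG {α : Type} (P : α → Prop) : Set (List α) :=
  cat (ST (fun x => ¬ P x)) (LC P) ∪
  cat ({[]} ∪ cat Set.univ (LC P))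
    (cat (Sync (LC (fun x => ¬ P x)) (LC P) (LC (fun x => ¬ P x))) (LC P))

def W1 : Set (List Om) := {ω | ω.map con ∈ LU}

def W2 : Set (List Om) :=
  cat Set.univ (LC isX) ∩
  AllPre isX (cat PalT (LC isX) ∪
    (cat ({[]} ∪ cat Set.univ (LC isX)) (cat Adj (LC isX)) ∩
      cat (cat Set.univ (LC isX)) (cat PalT (LC isX))))

def W3 : Set (List Om) :=
  (cat (LC (fun a => mrk a = .st)) (ST (fun a => mrk a ≠ .st)) ∩
    (cat (ST (fun a => mrk a ≠ .xx ∧ mrk a ≠ .dd)) (cat (LC (fun a => mrk a = .xx))
      (ST (fun a => mrk a = .no ∨ mrk a = .dd))) ∩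
    cat Set.univ (LC (fun a => mrk a ≠ .no)))) ∩
  (AllPre (fun a => mrk a = .b false ∨ mrk a = .dd) Dbl0 ∩
    AllPre (fun a => mrk a = .b true ∨ mrk a = .xx) Dbl1)

def W4 : Set (List Om) :=
  cat (LC (fun a => mrk a = .st)) (cat LnkC (cat (LC isX) Set.univ))

/-- weight: flags minus letters `sg` -/
def wD (a : Om) : ℤ := (if del a then 1 else 0) - (if con a = Ct.x Lt.sg then 1 else 0)

/-- a chunk whose letter is `nz` -/
def ChN : Set (List Om) :=
  cat (ST (fun a => ¬ isX a)) (LC (fun a => ∃ y, con a = Ct.x y ∧ Lt.isNZ y))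
/-- a chunk whose letter is `z` -/
def ChZ : Set (List Om) :=
  cat (ST (fun a => ¬ isX a)) (LC (fun a => ∃ y, con a = Ct.x y ∧ Lt.isZ y))

def W5 : Set (List Om) :=
  (AllPre del (BlkG del) ∩ (cat Set.univ (LC del) ∩ WT wD 0)) ∩
  cat (Sync ChN (cat ChZ (cat Set.univ (LC del))) (LC (fun a => ¬ del a)))
    (cat (LC del) Set.univ)

/-- the diagonal language -/
def Ldg : Set (List Om) := W1 ∩ (W2 ∩ (W3 ∩ (W4 ∩ W5)))

/-- the value attached to a text -/
def valC (t : List (Ct Lt)) : ℕ := val (t.flatMap codeT ++ [true])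

/-- chunk structure: content and auxiliary track of `ω` -/
structure Chk (ω : List Om) (t : List (Ct Lt)) (w' : List Lt) : Prop where
  ne : w' ≠ []
  tk : ∀ c ∈ t, tok c
  con_eq : ω.map con = w'.flatMap (fun a => t ++ [Ct.x a])
  aux_eq : ∀ i < w'.length,
    seg (ω.map aux) (i * (t.length + 1)) (i * (t.length + 1) + t.length) = t.reverse

end

end Pool.Agent.H29.CJ

end S_WrD

section S_WrC

/-!
# The diagonal language is conjunctive

Use only the STATEMENTS of the imported files (`Clo`, `Clo2`, `Wts`, `UnCj`).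

`Om` is finite.  `W1`: `IsConj.preimage con isConj_LU`.  `PalT`: guarded solution (`isConj_of_sys`, `Unit`, `μ = 0`) of
`X = {[]} ∪ {[a] : ¬ isX a, con a = aux a} ∪ ⋃_{(a,b): ¬ isX a, ¬ isX b, con a = aux b, con b = aux a} {[a]} X {[b]}`
(decompose a word of length `≥ 2` as `a :: (u ++ [b])`).  `Adj`: guarded solution of
`X = LC isX ∪ ⋃_{(a,b): ¬ isX a, ¬ isX b, con a = aux b} {[a]} X {[b]}`.
`BitsL l`: induction on `l`.  `LnkC`: guarded solution of `X = Core0 ∪ ⋃_σ GpL [σ] · X · LC (aux = σ ∧ ¬ isX)`:
closedness: `g' ∈ GpL [σ]`, `g ∈ GpL s` give `g' ++ g ∈ GpL (σ :: s)` (`BitsL_append`), `(σ :: s).reverse = s.reverse ++ [σ]`; conversely split `v` at its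
last letter and `g` at the end of the code of the first `σ`.  The `X`-part is shorter because of the last letter.
Finite unions over `Om × Om` and `Ct Lt` by `Poly.exF`, `Poly.iteP`.  Everything else by the closure lemmas; `wD` has values in `{-1, 0, 1}`.
-/

set_option autoImplicit false

namespace Pool.Agent.H29.CJ

theorem BitsL_append (l l' : List Bool) : BitsL (l ++ l') = cat (BitsL l) (BitsL l') := by
  induction l with
  | nil =>
    change BitsL l' = cat {[]} (BitsL l')
    rw [Clo2_one_cat]
  | cons b l ih =>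
    change cat (ST (fun a => mrk a = .no)) (cat (LC (fun a => mrk a = .b b)) (BitsL (l ++ l')))
      = cat (cat (ST (fun a => mrk a = .no)) (cat (LC (fun a => mrk a = .b b)) (BitsL l))) (BitsL l')
    rw [ih, Clo2_cat_assoc, Clo2_cat_assoc]

theorem WrC_BitsL (l : List Bool) : IsConj (BitsL l) := by
  induction l with
  | nil => exact isConj_eps
  | cons b l ih => exact (isConj_ST _).cat ((isConj_LC _).cat ih)

theorem WrC_PalT : IsConj PalT := by
  have key := isConj_of_sys (α := Om) (ι := Unit)
    (Φ := fun _ X => ({[]} ∪ LC (fun a => ¬ isX a ∧ con a = aux a)) ∪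
      {w | ∃ p : Om × Om, w ∈ {w | (¬ isX p.1 ∧ ¬ isX p.2 ∧ con p.1 = aux p.2 ∧ con p.2 = aux p.1) ∧
        w ∈ cat {[p.1]} (cat (X ()) {[p.2]})}})
    (fun _ => ((Poly.cst _ isConj_eps).union (Poly.cst _ (isConj_LC _))).union
      (Poly.exF fun p => Poly.iteP ((Poly.cst _ (isConj_sym _)).cat
        ((Poly.var ()).cat (Poly.cst _ (isConj_sym _)))) _))
    (fun _ => PalT) (fun _ => 0) ?_ ?_
  · exact key ()
  · intro _ w hw
    rcases hw with (hw | hw) | hw
    · have h1 : w = [] := hw
      subst h1
      exact ⟨fun a ha => by simp at ha, rfl⟩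
    · obtain ⟨a, ⟨ha, ha'⟩, rfl⟩ := hw
      refine ⟨fun b hb => ?_, ?_⟩
      · rw [List.mem_singleton] at hb
        subst hb
        exact ha
      · simp [ha']
    · obtain ⟨⟨a, b⟩, ⟨ha, hb, h1, h2⟩, x, hx, y, ⟨u, hu, z, hz, rfl⟩, rfl⟩ := hw
      have hx' : x = [a] := hx
      have hz' : z = [b] := hz
      subst hx' hz'
      obtain ⟨hu1, hu2⟩ := hu
      refine ⟨fun c hc => ?_, ?_⟩
      · simp only [List.singleton_append, List.mem_cons, List.mem_append, List.not_mem_nil,
          or_false] at hc
        rcases hc with rfl | hc | rfl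
        · exact ha
        · exact hu1 c hc
        · exact hb
      · simp only [List.map_append, List.map_cons, List.map_nil, List.reverse_append,
          List.reverse_cons, List.reverse_nil, List.nil_append, hu2]
        simp only at h1 h2
        rw [h1, h2]
        simp
  · intro _ w hw
    obtain ⟨hw1, hw2⟩ := hw
    cases w with
    | nil => exact Or.inl (Or.inl rfl)
    | cons a w =>
      rcases List.eq_nil_or_concat w with rfl | ⟨u, b, rfl⟩
      · refine Or.inl (Or.inr ⟨a, ⟨hw1 a (by simp), ?_⟩, rfl⟩)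
        simpa using hw2
      · rw [List.concat_eq_append] at *
        have h3 : con a :: (u.map con ++ [con b]) = aux b :: ((u.map aux).reverse ++ [aux a]) := by
          simpa using hw2
        have h4 := List.cons.inj h3
        have h5 := List.append_inj' h4.2 rfl
        refine Or.inr ⟨(a, b), ⟨hw1 a (by simp), hw1 b (by simp), h4.1, ?_⟩, [a], rfl, u ++ [b],
          ⟨u, ⟨⟨fun c hc => hw1 c (by simp [hc]), h5.1⟩, Or.inl ?_⟩, [b], rfl, rfl⟩, rfl⟩
        · exact List.singleton_inj.1 h5.2
        · simp only [List.length_cons, List.length_append]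
          omega

theorem WrC_Adj : IsConj Adj := by
  have key := isConj_of_sys (α := Om) (ι := Unit)
    (Φ := fun _ X => LC isX ∪
      {w | ∃ p : Om × Om, w ∈ {w | (¬ isX p.1 ∧ ¬ isX p.2 ∧ con p.1 = aux p.2) ∧
        w ∈ cat {[p.1]} (cat (X ()) {[p.2]})}})
    (fun _ => (Poly.cst _ (isConj_LC _)).union
      (Poly.exF fun p => Poly.iteP ((Poly.cst _ (isConj_sym _)).cat
        ((Poly.var ()).cat (Poly.cst _ (isConj_sym _)))) _))
    (fun _ => Adj) (fun _ => 0) ?_ ?_
  · exact key ()
  · intro _ w hw
    rcases hw with hw | hw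
    · obtain ⟨a, ha, rfl⟩ := hw
      exact ⟨[], a, [], rfl, ha, fun b hb => by simp at hb, fun b hb => by simp at hb, rfl⟩
    · obtain ⟨⟨b, c⟩, ⟨hb, hc, h1⟩, x, hx, y, ⟨t, ht, z, hz, rfl⟩, rfl⟩ := hw
      have hx' : x = [b] := hx
      have hz' : z = [c] := hz
      subst hx' hz'
      obtain ⟨u, a, v, rfl, ha, hu, hv, huv⟩ := ht
      refine ⟨b :: u, a, v ++ [c], by simp, ha, ?_, ?_, ?_⟩
      · intro d hd
        rw [List.mem_cons] at hd
        rcases hd with rfl | hd
        · exact hb
        · exact hu d hd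
      · intro d hd
        rw [List.mem_append, List.mem_singleton] at hd
        rcases hd with hd | rfl
        · exact hv d hd
        · exact hc
      · simp only at h1
        simp only [List.map_append, List.map_cons, List.map_nil, List.reverse_append,
          List.reverse_cons, List.reverse_nil, List.nil_append, huv, h1]
        simp
  · intro _ w hw
    obtain ⟨u, a, v, rfl, ha, hu, hv, huv⟩ := hw
    cases u with
    | nil =>
      have h1 : v = [] := by
        rcases List.eq_nil_or_concat v with rfl | ⟨v', c, rfl⟩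
        · rfl
        · exfalso
          simp at huv
      subst h1
      exact Or.inl ⟨a, ha, rfl⟩
    | cons b u =>
      rcases List.eq_nil_or_concat v with rfl | ⟨v', c, rfl⟩
      · exfalso
        simp at huv
      · rw [List.concat_eq_append] at *
        have h3 : con b :: u.map con = aux c :: (v'.map aux).reverse := by simpa using huv
        have h4 := List.cons.inj h3
        refine Or.inr ⟨(b, c), ⟨hu b (by simp), hv c (by simp), h4.1⟩, [b], rfl,
          (u ++ a :: v') ++ [c], ⟨u ++ a :: v', ⟨⟨u, a, v', rfl, ha,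
            fun d hd => hu d (by simp [hd]), fun d hd => hv d (by simp [hd]), h4.2⟩, Or.inl ?_⟩,
            [c], rfl, rfl⟩, by simp⟩
        simp only [List.length_cons, List.length_append]
        omega

theorem WrC_Core0 : IsConj Core0 :=
  (isConj_ST _).cat ((isConj_LC _).cat (isConj_univ.cat (isConj_LC _)))

theorem WrC_GpL (s : List (Ct Lt)) : IsConj (GpL s) := WrC_BitsL _

theorem WrC_GpL_cons (σ : Ct Lt) (s : List (Ct Lt)) : GpL (σ :: s) = cat (GpL [σ]) (GpL s) := by
  unfold GpL
  rw [← BitsL_append]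
  simp

theorem WrC_LnkC : IsConj LnkC := by
  have key := isConj_of_sys (α := Om) (ι := Unit)
    (Φ := fun _ X => Core0 ∪
      {w | ∃ σ : Ct Lt, w ∈ cat (GpL [σ]) (cat (X ()) (LC (fun a => aux a = σ ∧ ¬ isX a)))})
    (fun _ => (Poly.cst _ WrC_Core0).union
      (Poly.exF fun σ => (Poly.cst _ (WrC_GpL _)).cat
        ((Poly.var ()).cat (Poly.cst _ (isConj_LC _)))))
    (fun _ => LnkC) (fun _ => 0) ?_ ?_
  · exact key ()
  · intro _ w hw
    rcases hw with hw | hw
    · exact ⟨[], [], w, [], by simp, rfl, hw, rfl, fun b hb => by simp at hb⟩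
    · obtain ⟨σ, g', hg', y, ⟨x, hx, z, ⟨a, ⟨ha1, ha2⟩, rfl⟩, rfl⟩, rfl⟩ := hw
      obtain ⟨s, g, c, v, rfl, hg, hc, hv1, hv2⟩ := hx
      refine ⟨σ :: s, g' ++ g, c, v ++ [a], by simp, ?_, hc, ?_, ?_⟩
      · rw [WrC_GpL_cons]
        exact ⟨g', hg', g, hg, rfl⟩
      · simp [hv1, ha1]
      · intro b hb
        rw [List.mem_append, List.mem_singleton] at hb
        rcases hb with hb | rfl
        · exact hv2 b hb
        · exact ha2
  · intro _ w hw
    obtain ⟨s, g, c, v, rfl, hg, hc, hv1, hv2⟩ := hw
    cases s with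
    | nil =>
      have h1 : g = [] := hg
      have h2 : v = [] := by simpa using hv1
      subst h1 h2
      exact Or.inl (by simpa using hc)
    | cons σ s =>
      rw [WrC_GpL_cons] at hg
      obtain ⟨g1, hg1, g2, hg2, rfl⟩ := hg
      rcases List.eq_nil_or_concat v with rfl | ⟨v', a, rfl⟩
      · exfalso
        simp at hv1
      · rw [List.concat_eq_append] at *
        rw [List.reverse_cons, List.map_append] at hv1
        have h5 := List.append_inj' hv1 rfl
        have h6 : aux a = σ := List.singleton_inj.1 h5.2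
        refine Or.inr ⟨σ, g1, hg1, (g2 ++ (c ++ v')) ++ [a], ⟨g2 ++ (c ++ v'),
          ⟨⟨s, g2, c, v', rfl, hg2, hc, h5.1, fun b hb => hv2 b (by simp [hb])⟩, Or.inl ?_⟩, [a],
          ⟨a, ⟨h6, hv2 a (by simp)⟩, rfl⟩, rfl⟩, by simp⟩
        simp only [List.length_cons, List.length_append, List.length_nil]
        omega

theorem WrC_wD (a : Om) : wD a = -1 ∨ wD a = 0 ∨ wD a = 1 := by
  unfold wD
  split_ifs <;> simp

theorem WrC_W1 : IsConj W1 := IsConj.preimage con isConj_LU

theorem WrC_W2 : IsConj W2 :=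
  (isConj_univ.cat (isConj_LC _)).inter (IsConj.allPre _
    ((WrC_PalT.cat (isConj_LC _)).union
      (((isConj_eps.union (isConj_univ.cat (isConj_LC _))).cat (WrC_Adj.cat (isConj_LC _))).inter
        ((isConj_univ.cat (isConj_LC _)).cat (WrC_PalT.cat (isConj_LC _))))))

theorem WrC_Dbl0 : IsConj Dbl0 :=
  ((isConj_LC _).sync (isConj_LC _) (isConj_LC _)).cat (isConj_LC _)

theorem WrC_Dbl1 : IsConj Dbl1 :=
  ((isConj_LC _).sync ((isConj_LC _).cat (isConj_LC _)) (isConj_LC _)).cat (isConj_LC _)

theorem WrC_W3 : IsConj W3 :=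
  (((isConj_LC _).cat (isConj_ST _)).inter
    (((isConj_ST _).cat ((isConj_LC _).cat (isConj_ST _))).inter
      (isConj_univ.cat (isConj_LC _)))).inter
    ((IsConj.allPre _ WrC_Dbl0).inter (IsConj.allPre _ WrC_Dbl1))

theorem WrC_W4 : IsConj W4 :=
  (isConj_LC _).cat (WrC_LnkC.cat ((isConj_LC _).cat isConj_univ))

theorem WrC_BlkG (P : Om → Prop) : IsConj (BlkG P) :=
  ((isConj_ST _).cat (isConj_LC _)).union
    ((isConj_eps.union (isConj_univ.cat (isConj_LC _))).cat
      (((isConj_LC _).sync (isConj_LC _) (isConj_LC _)).cat (isConj_LC _)))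

theorem WrC_ChN : IsConj ChN := (isConj_ST _).cat (isConj_LC _)

theorem WrC_ChZ : IsConj ChZ := (isConj_ST _).cat (isConj_LC _)

theorem WrC_W5 : IsConj W5 :=
  ((IsConj.allPre _ (WrC_BlkG del)).inter
    ((isConj_univ.cat (isConj_LC _)).inter (isConj_WT wD WrC_wD 0))).inter
  ((WrC_ChN.sync (WrC_ChZ.cat (isConj_univ.cat (isConj_LC _))) (isConj_LC _)).cat
    ((isConj_LC _).cat isConj_univ))

theorem isConj_Ldg : IsConj Ldg :=
  WrC_W1.inter (WrC_W2.inter (WrC_W3.inter (WrC_W4.inter WrC_W5)))

end Pool.Agent.H29.CJ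

end S_WrC

section S_GridG

/-!
# Equidistant flags, general alphabet

The proof is the one of `Pool/Agent/H29/CJ/Grid.lean` (`grid_of_AllPre`), word for word, with `BlkG` in place of `BlkPair`: copy it (the private lemmas too).
-/

set_option autoImplicit false

namespace Pool.Agent.H29.CJ

private theorem GridG_comb (F : ℕ → Prop) (N : ℕ) (hN : ∀ t, F t → t < N)
    (h : ∀ t, F t → (∀ s, s < t → ¬ F s) ∨ ∃ k q : ℕ, q + 2 * (k + 1) = t + 1 ∧
      (q = 0 ∨ (0 < q ∧ F (q - 1))) ∧ F (q + k) ∧ (∀ s, q ≤ s → s < q + k → ¬ F s)) :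
    ∃ β r : ℕ, 0 < β ∧ ∀ i < N, (F i ↔ β ∣ i + 1 ∧ i + 1 ≤ β * r) := by
  classical
  by_cases hex : ∃ t, F t
  · set n := Nat.find hex with hn
    have hFn : F n := Nat.find_spec hex
    have hmin : ∀ s, F s → n ≤ s := fun s hs => Nat.find_min' hex hs
    have claim : ∀ t, F t → (n + 1) ∣ t + 1 ∧ ∀ s, s ≤ t → (n + 1) ∣ s + 1 → F s := by
      intro t
      induction t using Nat.strong_induction_on with
      | _ t ih =>
        intro ht
        rcases h t ht with h1 | ⟨k, q, hq, hq0, hk, hno⟩
        · have htn : t = n := by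
            have h2 := hmin t ht
            rcases Nat.lt_or_ge n t with h3 | h3
            · exact absurd hFn (h1 n h3)
            · omega
          subst htn
          refine ⟨dvd_refl _, fun s hs hd => ?_⟩
          have h2 := Nat.le_of_dvd (Nat.succ_pos s) hd
          have h3 : s = n := by omega
          rw [h3]; exact hFn
        · obtain ⟨ih1, ih2⟩ := ih (q + k) (by omega) hk
          have hkb : (n + 1) ∣ q ∧ k = n := by
            rcases hq0 with rfl | ⟨hqpos, hFq⟩
            · refine ⟨dvd_zero _, ?_⟩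
              have h2 := hmin _ hk
              rcases Nat.lt_or_ge n k with h3 | h3
              · exact absurd hFn (hno n (by omega) (by omega))
              · omega
            · obtain ⟨jh1, jh2⟩ := ih (q - 1) (by omega) hFq
              have e1 : q - 1 + 1 = q := by omega
              rw [e1] at jh1
              refine ⟨jh1, ?_⟩
              have hd : (n + 1) ∣ k + 1 := by
                have h2 : q + k + 1 = q + (k + 1) := by ring
                rw [h2] at ih1
                exact (Nat.dvd_add_right jh1).1 ih1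
              have h3 := Nat.le_of_dvd (Nat.succ_pos k) hd
              rcases Nat.lt_or_ge n k with h4 | h4
              · exfalso
                refine hno (q + n) (by omega) (by omega) (ih2 (q + n) (by omega) ?_)
                have h5 : q + n + 1 = q + (n + 1) := by ring
                rw [h5]
                exact dvd_add jh1 (dvd_refl _)
              · omega
          obtain ⟨hdq, rfl⟩ := hkb
          have et : t + 1 = q + (n + 1) * 2 := by omega
          refine ⟨?_, fun s hs hd => ?_⟩
          · rw [et]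
            exact dvd_add hdq (Dvd.intro _ rfl)
          · rcases Nat.lt_or_ge (q + n) s with h3 | h3
            · obtain ⟨c, hc⟩ := hdq
              obtain ⟨d, hd'⟩ := hd
              have h4 : (n + 1) * (c + 1) < (n + 1) * d := by
                rw [← hd', Nat.mul_add, ← hc]
                omega
              have h5 : c + 1 < d := Nat.lt_of_mul_lt_mul_left h4
              have h6 : (n + 1) * (c + 2) ≤ (n + 1) * d := Nat.mul_le_mul_left _ h5
              have h7 : (n + 1) * (c + 2) = q + (n + 1) * 2 := by rw [Nat.mul_add, ← hc]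
              have h8 : s = t := by omega
              rw [h8]; exact ht
            · exact ih2 s h3 hd
    set T := Nat.findGreatest F N with hT
    have hFT : F T := Nat.findGreatest_spec (P := F) (hN n hFn).le hFn
    obtain ⟨⟨r, hr⟩, hT2⟩ := claim T hFT
    refine ⟨n + 1, r, Nat.succ_pos n, fun i hi => ⟨fun hFi => ⟨(claim i hFi).1, ?_⟩, fun hd => ?_⟩⟩
    · rw [← hr]
      have := Nat.le_findGreatest (P := F) hi.le hFi
      omega
    · refine hT2 i ?_ hd.1
      have := hd.2
      rw [← hr] at this
      omega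
  · refine ⟨1, 0, one_pos, fun i _ => ⟨fun hi => absurd ⟨i, hi⟩ hex, fun hd => ?_⟩⟩
    have := hd.2
    omega

private theorem GridG_not {α : Type} {P : α → Prop} {w : List α} {i : ℕ} (h : Is w i (fun x => ¬ P x)) :
    ¬ Is w i P := by
  rintro ⟨a, ha, hP⟩
  obtain ⟨b, hb, hnP⟩ := h
  rw [ha] at hb
  exact hnP (Option.some.inj hb ▸ hP)

theorem gridG {α : Type} {P : α → Prop} {w : List α} (h : w ∈ AllPre P (BlkG P)) :
    ∃ β r : ℕ, 0 < β ∧ ∀ i < w.length, (Is w i P ↔ β ∣ i + 1 ∧ i + 1 ≤ β * r) := by
  have h0 := (at_AllPre.1 (at_full.2 h)).2.2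
  apply GridG_comb (fun i => Is w i P) w.length (fun t ht => ht.lt)
  intro t ht
  have h1 := h0 t (Nat.zero_le t) ht.lt ht
  rcases at_union.1 h1 with h2 | h2
  · left
    obtain ⟨k, h3, h4⟩ := at_cat.1 h2
    obtain ⟨h5, _⟩ := at_LC.1 h4
    obtain ⟨_, _, h6⟩ := at_ST.1 h3
    intro s hs
    exact GridG_not (h6 s (Nat.zero_le s) (by omega))
  · right
    obtain ⟨q, h3, h4⟩ := at_cat.1 h2
    obtain ⟨k2, h5, h6⟩ := at_cat.1 h4
    obtain ⟨h7, _⟩ := at_LC.1 h6
    obtain ⟨k, j', h8, _, h9, h10, h11⟩ := at_Sync_LC.1 h5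
    obtain ⟨h12, h13⟩ := at_LC.1 h9
    refine ⟨k, q, by omega, ?_, h13, fun s hs1 hs2 => GridG_not (h10 s hs1 hs2)⟩
    rcases at_union.1 h3 with h14 | h14
    · left
      exact (at_eps.1 h14).1.symm
    · right
      obtain ⟨k3, _, h16⟩ := at_cat.1 h14
      obtain ⟨h17, h18⟩ := at_LC.1 h16
      subst h17
      exact ⟨Nat.succ_pos _, by simpa using h18⟩

end Pool.Agent.H29.CJ

end S_GridG

section S_WrT

/-!
# Text structure of the words of the diagonal language

Use only the STATEMENTS of `AtL` (or work with lists directly).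

`ω ∈ W2`: the last letter is an `isX` letter.  Show by induction on the number of `isX` letters (or strong induction on the length) the following: if `ω` ends
with an `isX` letter and `ω ∈ AllPre isX (...)`, then there are `t, w'` with `Chk ω t w'`.  Write `ω = ω₀ ++ (v ++ [a])` with `isX a`, no `isX` letter in `v`, and `ω₀ = []` or
`ω₀` ends with an `isX` letter (and then `ω₀` satisfies the same hypothesis: initial segments of `ω₀` are initial segments of `ω`).  `a.1 = x y`.
* `ω₀ = []`: `v ++ [a]` belongs to the first alternative (the second contains two `isX` letters), or in any case `v ∈ PalT`; `t = v.map con`, `w' = [y]`,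
  `t.reverse = v.map aux`.
* `ω₀ ≠ []`: `ω ∉ cat PalT (LC isX)` (two `isX` letters), so the second alternative: `ω = r ++ (u ++ a' :: v') ++ [a]` with `r = []` or `r` ending with an
  `isX` letter, `isX a'`, no `isX` in `u, v'`, `u.map con = (v'.map aux).reverse`; comparing the positions of the last two `isX` letters: `v' = v`,
  `ω₀ = r ++ u ++ [a']`, `u` is the last text segment of `ω₀`, so `u.map con = t` (induction; last chunk of `ω₀`); hence `v.map aux = t.reverse`.  And
  `v ∈ PalT` from the other factor: `v.map con = (v.map aux).reverse = t`.  So the new chunk is `t ++ [x y]`, `w' = w'₀ ++ [y]`.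
`aux_eq` for the chunks of `ω₀` by induction, for the last chunk from `v.map aux = t.reverse` (`seg` of a concatenation).
-/

set_option autoImplicit false

namespace Pool.Agent.H29.CJ

def WrT_E (r : List Om) : Prop := r = [] ∨ ∃ g a, r = g ++ [a] ∧ isX a

def WrT_L : Set (List Om) := cat PalT (LC isX) ∪
    (cat ({[]} ∪ cat Set.univ (LC isX)) (cat Adj (LC isX)) ∩
      cat (cat Set.univ (LC isX)) (cat PalT (LC isX)))

theorem WrT_split (p : List Om) : ∃ r v, p = r ++ v ∧ WrT_E r ∧ ∀ b ∈ v, ¬ isX b := by
  induction p using List.reverseRecOn with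
  | nil => exact ⟨[], [], rfl, Or.inl rfl, by simp⟩
  | append_singleton p a ih =>
    by_cases ha : isX a
    · exact ⟨p ++ [a], [], by simp, Or.inr ⟨p, a, rfl, ha⟩, by simp⟩
    · obtain ⟨r, v, rfl, hr, hv⟩ := ih
      refine ⟨r, v ++ [a], by simp, hr, ?_⟩
      intro b hb
      rcases List.mem_append.1 hb with hb | hb
      · exact hv b hb
      · rw [List.mem_singleton] at hb
        subst hb
        exact ha

theorem WrT_uniq {u v u' v' : List Om} {a a' : Om} (ha : isX a) (ha' : isX a')
    (hv : ∀ b ∈ v, ¬ isX b) (hv' : ∀ b ∈ v', ¬ isX b)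
    (h : u ++ a :: v = u' ++ a' :: v') : u = u' ∧ a = a' ∧ v = v' := by
  rcases List.append_eq_append_iff.1 h with ⟨s, h1, h2⟩ | ⟨s, h1, h2⟩
  · cases s with
    | nil =>
      rw [List.append_nil] at h1
      rw [List.nil_append] at h2
      injection h2 with h3 h4
      exact ⟨h1.symm, h3, h4⟩
    | cons c s =>
      rw [List.cons_append] at h2
      injection h2 with h3 h4
      exact absurd ha' (hv a' (by rw [h4]; simp))
  · cases s with
    | nil =>
      rw [List.append_nil] at h1
      rw [List.nil_append] at h2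
      injection h2 with h3 h4
      exact ⟨h1, h3.symm, h4.symm⟩
    | cons c s =>
      rw [List.cons_append] at h2
      injection h2 with h3 h4
      exact absurd ha (hv' a (by rw [h4]; simp))

theorem WrT_uniq2 {r u r' u' : List Om} (hr : WrT_E r) (hr' : WrT_E r') (hu : ∀ b ∈ u, ¬ isX b)
    (hu' : ∀ b ∈ u', ¬ isX b) (h : r ++ u = r' ++ u') : r = r' ∧ u = u' := by
  rcases hr with rfl | ⟨g, a, rfl, ha⟩
  · rcases hr' with rfl | ⟨g', a', rfl, ha'⟩
    · exact ⟨rfl, h⟩
    · exact absurd ha' (hu a' (by rw [List.nil_append] at h; rw [h]; simp))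
  · rcases hr' with rfl | ⟨g', a', rfl, ha'⟩
    · exact absurd ha (hu' a (by rw [List.nil_append] at h; rw [← h]; simp))
    · rw [List.append_assoc, List.append_assoc] at h
      obtain ⟨rfl, rfl, rfl⟩ := WrT_uniq ha ha' hu hu' h
      exact ⟨rfl, rfl⟩

theorem WrT_last {p p' : List Om} {a a' : Om} (h : p ++ [a] = p' ++ [a']) : p = p' ∧ a = a' := by
  have h1 := List.append_inj' h rfl
  exact ⟨h1.1, by simpa using h1.2⟩

theorem WrT_seg_left {β : Type} {u v : List β} {i j : ℕ} (h : j ≤ u.length) :
    seg (u ++ v) i j = seg u i j := by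
  unfold seg
  rw [List.take_append_of_le_length h]

theorem WrT_seg_right {β : Type} (u v w : List β) {i j : ℕ} (h : i = u.length)
    (h' : j = i + v.length) : seg (u ++ (v ++ w)) i j = v := by
  subst h
  subst h'
  unfold seg
  rw [← List.append_assoc, ← List.length_append, List.take_left, List.drop_left]

theorem WrT_main (n : ℕ) : ∀ (p : List Om) (a : Om), p.length < n → isX a →
    p ++ [a] ∈ AllPre isX WrT_L →
    ∃ (t : List (Ct Lt)) (w' : List Lt), Chk (p ++ [a]) t w' ∧
      ∀ r u, p = r ++ u → WrT_E r → (∀ b ∈ u, ¬ isX b) → u.map con = t := by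
  induction n with
  | zero =>
    intro p a h
    exact absurd h (Nat.not_lt_zero _)
  | succ n ih =>
    intro p a hn ha hall
    obtain ⟨r, v, rfl, hr, hv⟩ := WrT_split p
    obtain ⟨y, hy⟩ := id ha
    have hmem : r ++ v ++ [a] ∈ WrT_L := hall (r ++ v) a [] rfl ha
    rcases id hr with rfl | ⟨p', a', rfl, ha'⟩
    · rw [List.nil_append] at hmem
      have hpal : v.map con = (v.map aux).reverse := by
        rcases hmem with ⟨u, hu, v1, ⟨a1, ha1, rfl⟩, e⟩ | ⟨-, g1, ⟨g, -, v1, ⟨a1, ha1, rfl⟩, rfl⟩, g2,
          ⟨u, hu, v2, ⟨a2, ha2, rfl⟩, rfl⟩, e⟩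
        · obtain ⟨rfl, rfl⟩ := WrT_last e
          exact hu.2
        · exfalso
          rw [← List.append_assoc] at e
          obtain ⟨e1, -⟩ := WrT_last e
          exact hv a1 (by rw [e1]; simp) ha1
      refine ⟨v.map con, [y], ⟨by simp, ?_, ?_, ?_⟩, ?_⟩
      · intro c hc
        obtain ⟨b, hb, rfl⟩ := List.mem_map.1 hc
        exact hv b hb
      · simp [con, hy]
      · intro i hi
        have hi0 : i = 0 := by simpa using hi
        subst hi0
        rw [hpal, List.reverse_reverse, List.nil_append, List.map_append]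
        exact WrT_seg_right [] (v.map aux) _ (by simp) (by simp)
      · intro r u e hr' hu
        rw [(WrT_uniq2 hr hr' hv hu e).2]
    · have hall' : p' ++ [a'] ∈ AllPre isX WrT_L := by
        intro p2 b q e hb
        exact hall p2 b (q ++ (v ++ [a])) (by rw [List.append_assoc, e]; simp) hb
      obtain ⟨t, w', hchk, hlast⟩ := ih p' a' (by
        simp only [List.length_append, List.length_singleton] at hn
        omega) ha' hall'
      rcases hmem with ⟨u, hu, v1, ⟨a1, ha1, rfl⟩, e⟩ | ⟨⟨r', hr', z, ⟨z1, ⟨u', a1, v', rfl, ha1, hu', hv',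
          hadj⟩, z2, ⟨a2, ha2, rfl⟩, rfl⟩, e1⟩, g1, ⟨g, -, v1, ⟨a3, ha3, rfl⟩, rfl⟩, g2,
          ⟨u3, hu3, v2, ⟨a4, ha4, rfl⟩, rfl⟩, e2⟩
      · exfalso
        obtain ⟨e1, -⟩ := WrT_last e
        exact hu.1 a' (by rw [← e1]; simp) ha'
      · have hr'E : WrT_E r' := by
          rcases hr' with hr' | ⟨g', -, v3, ⟨a5, ha5, rfl⟩, rfl⟩
          · exact Or.inl hr'
          · exact Or.inr ⟨g', a5, rfl, ha5⟩
        rw [← List.append_assoc, ← List.append_assoc] at e1
        obtain ⟨e1, -⟩ := WrT_last e1
        rw [List.append_assoc p'] at e1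
        obtain ⟨e3, e4, e5⟩ := WrT_uniq ha' ha1 hv hv' e1
        rw [← List.append_assoc] at e2
        obtain ⟨e2, -⟩ := WrT_last e2
        rw [List.append_assoc, List.append_assoc] at e2
        obtain ⟨-, -, e6⟩ := WrT_uniq ha' ha3 hv hu3.1 e2
        have hut : u'.map con = t := hlast r' u' e3 hr'E hu'
        have hva : v.map aux = t.reverse := by
          rw [e5, ← hut, hadj, List.reverse_reverse]
        have hvc : v.map con = t := by
          have := hu3.2
          rw [← e6] at this
          rw [this, hva, List.reverse_reverse]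
        have hvl : v.length = t.length := by rw [← hvc, List.length_map]
        have hlen : (p' ++ [a']).length = w'.length * (t.length + 1) := by
          have := congrArg List.length hchk.con_eq
          rw [List.length_map] at this
          rw [this]
          simp
        refine ⟨t, w' ++ [y], ⟨by simp, hchk.tk, ?_, ?_⟩, ?_⟩
        · rw [List.append_assoc, List.map_append, hchk.con_eq, List.flatMap_append]
          simp [con, hy]
          exact hvc
        · intro i hi
          have e9 : (p' ++ [a'] ++ v ++ [a]).map aux =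
              (p' ++ [a']).map aux ++ (v.map aux ++ [a].map aux) := by simp
          rw [e9]
          rw [List.length_append, List.length_singleton] at hi
          rcases Nat.lt_or_ge i w'.length with h1 | h1
          · rw [WrT_seg_left]
            · exact hchk.aux_eq i h1
            · rw [List.length_map, hlen]
              calc i * (t.length + 1) + t.length ≤ (i + 1) * (t.length + 1) := by ring_nf; omega
                _ ≤ _ := Nat.mul_le_mul_right _ h1
          · have h2 : i = w'.length := by omega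
            subst h2
            rw [← hva]
            exact WrT_seg_right _ _ _ (by rw [List.length_map, hlen]) (by simp [hvl])
        · intro r u e hr' hu
          rw [← (WrT_uniq2 hr hr' hv hu e).2]
          exact hvc

theorem text_struct {ω : List Om} (h : ω ∈ W2) : ∃ (t : List (Ct Lt)) (w' : List Lt), Chk ω t w' := by
  obtain ⟨⟨p, -, v, ⟨a, ha, rfl⟩, rfl⟩, h2⟩ := h
  obtain ⟨t, w', h3, -⟩ := WrT_main (p.length + 1) p a (Nat.lt_succ_self _) ha h2
  exact ⟨t, w', h3⟩

end Pool.Agent.H29.CJ

end S_WrT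

section S_WrB

/-!
# The link: the marked bits are the code of the text

`ω ∈ W4`: `ω = a₀ :: ((g ++ (c ++ v)) ++ a₁ :: r)` with `mrk a₀ = st`, `g ∈ GpL s`, `c ∈ Core0`, `v.map aux = s.reverse`, no `isX` letter in `v`, `isX a₁`.
* `s = t`: `c` ends with an `isX` letter, `v` has none, then `a₁`: so `v` is exactly a text segment: with `D = t.length + 1`, by `Chk.con_eq` the `isX` positions of
  `ω` are exactly the positions `i D + t.length`; so the start of `v` is `i D` with `i ≥ 1` and `v.length = t.length`, `v.map aux = seg (ω.map aux) (i D) (i D + t.length) =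
  t.reverse` (`Chk.aux_eq`; `i < w'.length`).  Hence `s.reverse = t.reverse`.
* `mseq ω = s.flatMap codeT`: `mseq` is additive over `++`.  `mseq [a₀] = []`.  `mseq g = s.flatMap codeT` (for `BitsL l`: induction on `l`; unmarked letters
  contribute nothing).  `c = c₁ ++ (e :: c₂)` with `c₁` unmarked, `mrk e = xx`.  From `ω ∈ W3` (second factor): `ω = p ++ e' :: q` with no `xx` in `p`, `mrk e' = xx`, `q` only marks
  `no, dd`.  So there is only one `xx` letter, `e = e'` at the same position, and everything after `e` has marks `no, dd`: contributes nothing.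
-/

set_option autoImplicit false

namespace Pool.Agent.H29.CJ

theorem mseq_append (u v : List Om) : mseq (u ++ v) = mseq u ++ mseq v := by
  simp [mseq]

private theorem WrB_mseq_bits (l : List Bool) (g : List Om) (h : g ∈ BitsL l) : mseq g = l := by
  induction l generalizing g with
  | nil =>
    have h1 : g = [] := h
    subst h1
    rfl
  | cons b l ih =>
    obtain ⟨u, hu, w, hw, rfl⟩ := h
    obtain ⟨x, hx, y, hy, rfl⟩ := hw
    obtain ⟨a, ha, rfl⟩ := hx
    rw [mseq_append, mseq_append, ih y hy]
    have h1 : mseq u = [] := by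
      unfold mseq
      rw [List.filterMap_eq_nil_iff]
      intro c hc
      rw [hu c hc]
    have h2 : mseq [a] = [b] := by
      simp [mseq, ha]
    rw [h1, h2]
    rfl

private theorem WrB_isx (t : List (Ct Lt)) (ht : ∀ c ∈ t, tok c) (w' : List Lt) (k : ℕ) (c : Ct Lt)
    (h : (w'.flatMap (fun a => t ++ [Ct.x a]))[k]? = some c) :
    isx c ↔ k % (t.length + 1) = t.length := by
  induction w' generalizing k with
  | nil => simp at h
  | cons a w' ih =>
    rw [List.flatMap_cons] at h
    rcases Nat.lt_or_ge k (t.length + 1) with hk | hk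
    · rw [List.getElem?_append_left (by simpa using hk)] at h
      rw [Nat.mod_eq_of_lt hk]
      rcases Nat.lt_or_ge k t.length with hk2 | hk2
      · rw [List.getElem?_append_left hk2] at h
        have hc : c ∈ t := List.mem_of_getElem? h
        have h2 : ¬ isx c := ht c hc
        exact ⟨fun h3 => absurd h3 h2, fun h3 => absurd h3 (by omega)⟩
      · have hk3 : k = t.length := by omega
        subst hk3
        rw [List.getElem?_append_right (le_refl _)] at h
        simp at h
        exact ⟨fun _ => rfl, fun _ => ⟨a, h.symm⟩⟩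
    · rw [List.getElem?_append_right (by simpa using hk)] at h
      have h2 := ih (k - (t ++ [Ct.x a]).length) h
      rw [h2]
      have e : (t ++ [Ct.x a]).length = t.length + 1 := by simp
      rw [e, ← Nat.mod_eq_sub_mod hk]

private theorem WrB_len (t : List (Ct Lt)) (w' : List Lt) :
    (w'.flatMap (fun a => t ++ [Ct.x a])).length = w'.length * (t.length + 1) := by
  induction w' with
  | nil => simp
  | cons a w' ih =>
    rw [List.flatMap_cons, List.length_append, ih]
    simp
    ring

private theorem WrB_arith {T pf V : ℕ} (h1 : pf % (T + 1) = T) (h2 : (pf + 1 + V) % (T + 1) = T)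
    (h3 : ∀ j < V, (pf + 1 + j) % (T + 1) ≠ T) :
    V = T ∧ pf + 1 = (pf / (T + 1) + 1) * (T + 1) := by
  have e1 := Nat.div_add_mod pf (T + 1)
  rw [h1] at e1
  have e2 := Nat.div_add_mod (pf + 1 + V) (T + 1)
  rw [h2] at e2
  set q := pf / (T + 1) with hq
  set q' := (pf + 1 + V) / (T + 1) with hq'
  have hVT : V ≤ T := by
    by_contra hcon
    push Not at hcon
    apply h3 T hcon
    have e3 : pf + 1 + T = T + (T + 1) * (q + 1) := by
      rw [Nat.mul_add, mul_one]
      omega
    rw [e3, Nat.add_mul_mod_self_left]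
    exact Nat.mod_eq_of_lt (by omega)
  have e4 : (T + 1) * q' = (T + 1) * q + 1 + V := by omega
  have hlt : q < q' := by
    by_contra hcon
    push Not at hcon
    have := Nat.mul_le_mul_left (T + 1) hcon
    omega
  have hge : (T + 1) * (q + 1) ≤ (T + 1) * q' := Nat.mul_le_mul_left _ hlt
  rw [Nat.mul_add, mul_one] at hge
  refine ⟨by omega, ?_⟩
  rw [Nat.add_mul, one_mul, mul_comm q]
  omega

theorem link_sound {ω : List Om} {t : List (Ct Lt)} {w' : List Lt} (hc : Chk ω t w')
    (h3 : ω ∈ W3) (h4 : ω ∈ W4) : mseq ω = t.flatMap codeT := by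
  obtain ⟨u0, ⟨a0, ha0, rfl⟩, v0, ⟨lk, hlk, r0, ⟨x1, ⟨a1, ha1, rfl⟩, r, _, rfl⟩, rfl⟩, hω⟩ := h4
  obtain ⟨s, g, c, v, rfl, hg, hcc, hvs, hvx⟩ := hlk
  obtain ⟨c1, hc1, y1, ⟨y2, ⟨e, he, rfl⟩, y3, ⟨c2, _, y4, ⟨f, hf, rfl⟩, rfl⟩, rfl⟩, rfl⟩ := hcc
  -- the only mark xx
  obtain ⟨⟨_, ⟨p, hp, z1, ⟨z2, ⟨e', he', rfl⟩, q, hq, rfl⟩, hω2⟩, _⟩, _⟩ := h3
  set P : List Om := [a0] ++ (g ++ c1) with hP
  set Q : List Om := c2 ++ ([f] ++ (v ++ ([a1] ++ r))) with hQ
  have hω3 : ω = P ++ ([e] ++ Q) := by
    rw [hω, hP, hQ]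
    simp only [List.append_assoc]
  have hget : ω[P.length]? = some e := by
    rw [hω3, List.getElem?_append_right (le_refl _)]
    simp
  have hlen : P.length = p.length := by
    rcases lt_trichotomy P.length p.length with h | h | h
    · exfalso
      rw [hω2, List.getElem?_append_left h] at hget
      have := hp e (List.mem_of_getElem? hget)
      exact this.1 he
    · exact h
    · exfalso
      rw [hω2, List.getElem?_append_right h.le] at hget
      obtain ⟨n, hn⟩ : ∃ n, P.length - p.length = n + 1 := ⟨P.length - p.length - 1, by omega⟩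
      rw [hn] at hget
      have hget2 : q[n]? = some e := by simpa using hget
      have h5 : mrk e = Mk.no ∨ mrk e = Mk.dd := hq e (List.mem_of_getElem? hget2)
      rw [he] at h5
      rcases h5 with h5 | h5 <;> cases h5
  have hQq : Q = q := by
    have h5 : P ++ ([e] ++ Q) = p ++ ([e'] ++ q) := by rw [← hω3, hω2]
    have h6 := List.append_inj_right h5 hlen
    have h7 : e :: Q = e' :: q := h6
    exact (List.cons.inj h7).2
  have hmQ : mseq Q = [] := by
    unfold mseq
    rw [List.filterMap_eq_nil_iff]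
    intro b hb
    rw [hQq] at hb
    rcases hq b hb with h5 | h5 <;> rw [h5]
  have hmc1 : mseq c1 = [] := by
    unfold mseq
    rw [List.filterMap_eq_nil_iff]
    intro b hb
    rw [hc1 b hb]
  have hma0 : mseq [a0] = [] := by simp [mseq, ha0]
  have hme : mseq [e] = [] := by simp [mseq, he]
  have hmseq : mseq ω = s.flatMap codeT := by
    rw [hω3, hP, mseq_append, mseq_append, mseq_append, mseq_append, hmQ, hmc1, hma0, hme,
      WrB_mseq_bits _ g hg]
    simp
  -- the text
  set U : List Om := [a0] ++ (g ++ (c1 ++ ([e] ++ c2))) with hU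
  have hω4 : ω = U ++ ([f] ++ (v ++ ([a1] ++ r))) := by
    rw [hω, hU]
    simp only [List.append_assoc]
  have hX : ∀ (k : ℕ) (b : Om), ω[k]? = some b → (isX b ↔ k % (t.length + 1) = t.length) := by
    intro k b hb
    have h5 : (ω.map con)[k]? = some (con b) := by rw [List.getElem?_map, hb]; rfl
    rw [hc.con_eq] at h5
    exact WrB_isx t hc.tk w' k (con b) h5
  have hgf : ω[U.length]? = some f := by
    rw [hω4, List.getElem?_append_right (le_refl _)]
    simp
  have hga : ω[U.length + 1 + v.length]? = some a1 := by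
    rw [hω4, List.getElem?_append_right (by omega)]
    have e5 : U.length + 1 + v.length - U.length = v.length + 1 := by omega
    rw [e5]
    simp
  have hgv : ∀ j < v.length, ∃ b ∈ v, ω[U.length + 1 + j]? = some b := by
    intro j hj
    refine ⟨v[j], List.getElem_mem hj, ?_⟩
    rw [hω4, List.getElem?_append_right (by omega)]
    have e5 : U.length + 1 + j - U.length = j + 1 := by omega
    rw [e5]
    simp [List.getElem?_append_left hj]
  obtain ⟨hvt, hpos⟩ := WrB_arith (T := t.length) (pf := U.length) (V := v.length)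
    ((hX _ f hgf).1 hf) ((hX _ a1 hga).1 ha1) (by
      intro j hj hcon
      obtain ⟨b, hb, hb2⟩ := hgv j hj
      exact hvx b hb ((hX _ b hb2).2 hcon))
  have hlenω : ω.length = w'.length * (t.length + 1) := by
    have h5 : (ω.map con).length = w'.length * (t.length + 1) := by
      rw [hc.con_eq, WrB_len]
    rwa [List.length_map] at h5
  have hi : U.length / (t.length + 1) + 1 < w'.length := by
    have h5 : U.length + 1 + v.length < ω.length := by
      obtain ⟨h6, _⟩ := List.getElem?_eq_some_iff.1 hga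
      exact h6
    rw [hlenω, hpos] at h5
    exact Nat.lt_of_mul_lt_mul_right (a := t.length + 1) (by omega)
  have hseg := hc.aux_eq _ hi
  rw [← hpos] at hseg
  have hseg2 : seg (ω.map aux) (U.length + 1) (U.length + 1 + t.length) = v.map aux := by
    have e6 : ω.map aux = (U ++ [f]).map aux ++ (v.map aux ++ ([a1] ++ r).map aux) := by
      rw [hω4]
      simp [List.map_append]
    have e7 : U.length + 1 = ((U ++ [f]).map aux).length := by simp
    have e8 : t.length = (v.map aux).length := by rw [List.length_map, hvt]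
    rw [e6, e8, e7]
    unfold seg
    rw [← List.append_assoc, ← List.length_append, List.take_left, List.drop_left]
  rw [hseg2, hvs] at hseg
  have hst : s = t := List.reverse_injective hseg
  rw [hmseq, hst]

end Pool.Agent.H29.CJ

end S_WrB

section S_WrA

/-!
# The arithmetic marks

Use only the STATEMENTS of `AtL`.

`val (l ++ [v]) = 2 * val l + [v]` (`List.foldl_append`), `val [] = 1`.
Let `r` be a marked position (`mrk ≠ no`) of `ω`, `u = ω.take (r + 1)`.  Claim (strong induction on `r`):
 `mrk ∈ {st, b _}`: `r + 1 = val (mseq u)`;  `mrk = xx`: `r + 1 = val (mseq u ++ [true])`;  `mrk = dd`: `r + 1 = val (mseq u ++ [true]) * 2^j` for some `j`.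
From `W3`: position `0` carries `st` and no other position does; there is a position `e` carrying `xx`, positions `< e` carry neither `xx` nor `dd`, positions
`> e` carry `no` or `dd`.  `AllPre` (`at_full`, `at_AllPre`, `at_cat`, `at_Sync_LC`, `at_LC`): for `mrk = b false` or `dd` at `r` there is `k` with `r + 1 = 2 (k + 1)`,
position `k` marked, positions `k+1, ..., r-1` unmarked; for `mrk = b true` or `xx` at `r`: `r + 1 = 2 (k+1) + 1`, position `k` marked, positions `k+1, ..., r-1`
unmarked (`k + 1 ≤ r - 1` included).  `mseq (ω.take (r+1)) = mseq (ω.take (k+1)) ++ mseq [letter r]`.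
 `st`: `r = 0`, `mseq = []`.  `b v`: `r < e`, so `k < e` carries `st` or `b _`; use the claim for `k`.  `xx`: `r = e`, `k < e`, the same.  `dd`: `r > e`; `k ≥ e` because `e` is marked and
 `e < r`; so `k` carries `xx` or `dd`; `mseq` unchanged; `j` increases by one (`xx`: `j = 0`).
Finally the last position of `ω` is marked (`W3`, third factor) and is `≥ e`, so it carries `xx` or `dd`; `ω.take (last + 1) = ω`.
-/

set_option autoImplicit false

namespace Pool.Agent.H29.CJ

theorem wrA_val_append (l : List Bool) (v : Bool) :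
    val (l ++ [v]) = 2 * val l + (if v then 1 else 0) := by
  unfold val
  rw [List.foldl_append]
  rfl

theorem wrA_mseq_append (u v : List Om) : mseq (u ++ v) = mseq u ++ mseq v := by
  unfold mseq
  rw [List.filterMap_append]

theorem wrA_mseq_b {a : Om} {v : Bool} (h : mrk a = .b v) : mseq [a] = [v] := by
  simp [mseq, h]

theorem wrA_mseq_no {a : Om} (h : ∀ v, mrk a ≠ .b v) : mseq [a] = [] := by
  unfold mseq
  cases e : mrk a with
  | b v => exact absurd e (h v)
  | no => simp [e]
  | st => simp [e]
  | xx => simp [e]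
  | dd => simp [e]

theorem wrA_take_succ {ω : List Om} {r : ℕ} {a : Om} (h : ω[r]? = some a) :
    mseq (ω.take (r + 1)) = mseq (ω.take r) ++ mseq [a] := by
  rw [List.take_add_one, h, wrA_mseq_append]
  rfl

theorem wrA_take_no {ω : List Om} {i j : ℕ} (hij : i ≤ j)
    (h : ∀ t, i ≤ t → t < j → Is ω t (fun a => mrk a = .no)) :
    mseq (ω.take j) = mseq (ω.take i) := by
  induction j, hij using Nat.le_induction with
  | base => rfl
  | succ j hj ih =>
    obtain ⟨a, ha, h0⟩ := h j hj (Nat.lt_succ_self j)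
    have h0' : mrk a = .no := h0
    rw [wrA_take_succ ha, ih (fun t h1 h2 => h t h1 (by omega)),
      wrA_mseq_no (fun v e => by rw [h0'] at e; cases e), List.append_nil]

/-- the facts contained in `W3` -/
structure WrAF (ω : List Om) (e : ℕ) : Prop where
  st0 : ∀ t a, ω[t]? = some a → mrk a = .st → t = 0
  lt : ∀ t a, ω[t]? = some a → t < e → mrk a ≠ .xx ∧ mrk a ≠ .dd
  eq : ∃ a, ω[e]? = some a ∧ mrk a = .xx
  gt : ∀ t a, ω[t]? = some a → e < t → mrk a = .no ∨ mrk a = .dd
  d0 : ∀ r a, ω[r]? = some a → (mrk a = .b false ∨ mrk a = .dd) →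
    ∃ k, r = 2 * k + 1 ∧ (∃ a', ω[k]? = some a' ∧ mrk a' ≠ .no) ∧
      ∀ s, k + 1 ≤ s → s < r → Is ω s (fun a => mrk a = .no)
  d1 : ∀ r a, ω[r]? = some a → (mrk a = .b true ∨ mrk a = .xx) →
    ∃ k, r = 2 * k + 2 ∧ (∃ a', ω[k]? = some a' ∧ mrk a' ≠ .no) ∧
      ∀ s, k + 1 ≤ s → s < r → Is ω s (fun a => mrk a = .no)
  last : ∃ k a, ω.length = k + 1 ∧ ω[k]? = some a ∧ mrk a ≠ .no

theorem wrA_dbl0 {ω : List Om} {r : ℕ} (h : At ω Dbl0 0 (r + 1)) :
    ∃ k, r = 2 * k + 1 ∧ (∃ a', ω[k]? = some a' ∧ mrk a' ≠ .no) ∧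
      ∀ s, k + 1 ≤ s → s < r → Is ω s (fun a => mrk a = .no) := by
  obtain ⟨q, h1, h2⟩ := at_cat.1 h
  obtain ⟨e, -⟩ := at_LC.1 h2
  obtain rfl : q = r := by omega
  obtain ⟨k, j', h3, -, h5, -, h7⟩ := at_Sync_LC.1 h1
  obtain ⟨h8, h9⟩ := at_LC.1 h5
  rw [Nat.zero_add] at h8 h9
  refine ⟨k, by omega, h9, fun s hs1 hs2 => h7 s (by omega) hs2⟩

theorem wrA_dbl1 {ω : List Om} {r : ℕ} (h : At ω Dbl1 0 (r + 1)) :
    ∃ k, r = 2 * k + 2 ∧ (∃ a', ω[k]? = some a' ∧ mrk a' ≠ .no) ∧
      ∀ s, k + 1 ≤ s → s < r → Is ω s (fun a => mrk a = .no) := by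
  obtain ⟨q, h1, h2⟩ := at_cat.1 h
  obtain ⟨e, -⟩ := at_LC.1 h2
  obtain rfl : q = r := by omega
  obtain ⟨k, j', h3, -, h5, -, h7⟩ := at_Sync_LC.1 h1
  obtain ⟨q', h8, h9⟩ := at_cat.1 h5
  obtain ⟨h10, h11⟩ := at_LC.1 h8
  obtain ⟨h12, h13⟩ := at_LC.1 h9
  rw [Nat.zero_add] at h10 h11
  subst h10
  refine ⟨k, by omega, h11, fun s hs1 hs2 => ?_⟩
  rcases Nat.lt_or_ge s j' with hs | hs
  · obtain rfl : s = k + 1 := by omega
    exact h13
  · exact h7 s hs hs2

theorem wrA_facts {ω : List Om} (h3 : ω ∈ W3) : ∃ e, WrAF ω e := by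
  obtain ⟨⟨hA, hB, hC⟩, hD, hE⟩ := h3
  obtain ⟨k1, a1, a2⟩ := at_cat.1 (at_full.2 hA)
  obtain ⟨a3, -⟩ := at_LC.1 a1
  obtain ⟨-, -, a4⟩ := at_ST.1 a2
  obtain ⟨e, b1, b2⟩ := at_cat.1 (at_full.2 hB)
  obtain ⟨-, -, b3⟩ := at_ST.1 b1
  obtain ⟨k2, b4, b5⟩ := at_cat.1 b2
  obtain ⟨b6, b7⟩ := at_LC.1 b4
  obtain ⟨-, -, b8⟩ := at_ST.1 b5
  obtain ⟨k3, c1, c2⟩ := at_cat.1 (at_full.2 hC)
  obtain ⟨c3, c4⟩ := at_LC.1 c2
  obtain ⟨-, -, d1⟩ := at_AllPre.1 (at_full.2 hD)
  obtain ⟨-, -, e1⟩ := at_AllPre.1 (at_full.2 hE)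
  have lt_of : ∀ t (a : Om), ω[t]? = some a → t < ω.length := by
    intro t a h
    obtain ⟨h, _⟩ := List.getElem?_eq_some_iff.1 h
    exact h
  refine ⟨e, ?_, ?_, b7, ?_, ?_, ?_, ?_⟩
  · intro t a ha hs
    by_contra hne
    obtain ⟨a', ha', hn⟩ := a4 t (by omega) (lt_of t a ha)
    rw [ha] at ha'
    obtain rfl : a = a' := Option.some.inj ha'
    exact hn hs
  · intro t a ha ht
    obtain ⟨a', ha', hn⟩ := b3 t (Nat.zero_le t) ht
    rw [ha] at ha'
    obtain rfl : a = a' := Option.some.inj ha'
    exact hn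
  · intro t a ha ht
    obtain ⟨a', ha', hn⟩ := b8 t (by omega) (lt_of t a ha)
    rw [ha] at ha'
    obtain rfl : a = a' := Option.some.inj ha'
    exact hn
  · intro r a ha hm
    exact wrA_dbl0 (d1 r (Nat.zero_le r) (lt_of r a ha) ⟨a, ha, hm⟩)
  · intro r a ha hm
    exact wrA_dbl1 (e1 r (Nat.zero_le r) (lt_of r a ha) ⟨a, ha, hm⟩)
  · obtain ⟨a, ha, hn⟩ := c4
    exact ⟨k3, a, c3, ha, hn⟩

theorem wrA_claim {ω : List Om} {e : ℕ} (F : WrAF ω e) (r : ℕ) :
    ∀ a, ω[r]? = some a →
      ((mrk a = .st ∨ ∃ v, mrk a = .b v) → r + 1 = val (mseq (ω.take (r + 1)))) ∧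
      (mrk a = .xx → r + 1 = val (mseq (ω.take (r + 1)) ++ [true])) ∧
      (mrk a = .dd → ∃ j, r + 1 = val (mseq (ω.take (r + 1)) ++ [true]) * 2 ^ j) := by
  induction r using Nat.strong_induction_on with
  | _ r ih =>
  intro a ha
  -- the mark at `e`
  obtain ⟨ae, hae, hxe⟩ := F.eq
  have hre : ∀ {m : Mk}, mrk a = m → m ≠ .no → m ≠ .dd → m ≠ .xx → r < e := by
    intro m hm h1 h2 h3
    rcases lt_trichotomy r e with h | h | h
    · exact h
    · subst h
      rw [ha] at hae
      obtain rfl : a = ae := Option.some.inj hae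
      rw [hm] at hxe
      exact absurd hxe h3
    · rcases F.gt r a ha h with h | h
      · rw [hm] at h
        exact absurd h h1
      · rw [hm] at h
        exact absurd h h2
  -- the value at a marked position before `e`
  have hk : ∀ k < r, k < e → (∃ a', ω[k]? = some a' ∧ mrk a' ≠ .no) →
      k + 1 = val (mseq (ω.take (k + 1))) := by
    rintro k hkr hke ⟨a', ha', hn⟩
    refine (ih k hkr a' ha').1 ?_
    obtain ⟨h1, h2⟩ := F.lt k a' ha' hke
    cases e : mrk a' with
    | no => exact absurd e hn
    | st => exact Or.inl rfl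
    | b v => exact Or.inr ⟨v, rfl⟩
    | xx => exact absurd e h1
    | dd => exact absurd e h2
  have hseq : ∀ k < r, (∀ s, k + 1 ≤ s → s < r → Is ω s (fun a => mrk a = .no)) →
      mseq (ω.take (r + 1)) = mseq (ω.take (k + 1)) ++ mseq [a] := by
    intro k hkr hno
    rw [wrA_take_succ ha, wrA_take_no (show k + 1 ≤ r from hkr) hno]
  refine ⟨?_, ?_, ?_⟩
  · rintro (h | ⟨v, h⟩)
    · obtain rfl := F.st0 r a ha h
      rw [wrA_take_succ ha, wrA_mseq_no (fun v e => by rw [h] at e; cases e)]
      simp [mseq, val]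
    · have hr : r < e := hre h (by intro h; cases h) (by intro h; cases h) (by intro h; cases h)
      cases v with
      | false =>
        obtain ⟨k, h1, h2, h3⟩ := F.d0 r a ha (Or.inl h)
        rw [hseq k (by omega) h3, wrA_mseq_b h, wrA_val_append, ← hk k (by omega) (by omega) h2]
        simp
        omega
      | true =>
        obtain ⟨k, h1, h2, h3⟩ := F.d1 r a ha (Or.inl h)
        rw [hseq k (by omega) h3, wrA_mseq_b h, wrA_val_append, ← hk k (by omega) (by omega) h2]
        simp
        omega
  · intro h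
    have hr : r ≤ e := by
      by_contra hgt
      rcases F.gt r a ha (by omega) with h' | h' <;> rw [h] at h' <;> cases h'
    obtain ⟨k, h1, h2, h3⟩ := F.d1 r a ha (Or.inr h)
    rw [hseq k (by omega) h3, wrA_mseq_no (fun v e => by rw [h] at e; cases e), List.append_nil,
      wrA_val_append, ← hk k (by omega) (by omega) h2]
    simp
    omega
  · intro h
    have hr : e < r := by
      by_contra hgt
      rcases Nat.lt_or_ge r e with h' | h'
      · exact (F.lt r a ha h').2 h
      · obtain rfl : r = e := by omega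
        rw [ha] at hae
        obtain rfl : a = ae := Option.some.inj hae
        rw [h] at hxe
        cases hxe
    obtain ⟨k, h1, ⟨a', ha', hn⟩, h3⟩ := F.d0 r a ha (Or.inr h)
    have hke : e ≤ k := by
      by_contra hlt
      obtain ⟨a'', ha'', hno⟩ := h3 e (by omega) hr
      have hno' : mrk a'' = .no := hno
      rw [hae] at ha''
      obtain rfl : ae = a'' := Option.some.inj ha''
      rw [hxe] at hno'
      cases hno'
    rw [hseq k (by omega) h3, wrA_mseq_no (fun v e => by rw [h] at e; cases e), List.append_nil]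
    rcases Nat.eq_or_lt_of_le hke with he | he
    · subst he
      have hx : mrk a' = .xx := by
        rw [hae] at ha'
        obtain rfl : ae = a' := Option.some.inj ha'
        exact hxe
      refine ⟨1, ?_⟩
      rw [← (ih e (by omega) a' ha').2.1 hx]
      omega
    · have hd : mrk a' = .dd := by
        rcases F.gt k a' ha' he with h' | h'
        · exact absurd h' hn
        · exact h'
      obtain ⟨j, hj⟩ := (ih k (by omega) a' ha').2.2 hd
      refine ⟨j + 1, ?_⟩
      rw [pow_succ, ← mul_assoc, ← hj]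
      omega

theorem arith_sound {ω : List Om} (h3 : ω ∈ W3) :
    ∃ h : ℕ, ω.length = val (mseq ω ++ [true]) * 2 ^ h := by
  obtain ⟨e, F⟩ := wrA_facts h3
  obtain ⟨k, a, h1, h2, h4⟩ := F.last
  obtain ⟨ae, hae, hxe⟩ := F.eq
  have hek : e ≤ k := by
    obtain ⟨h, _⟩ := List.getElem?_eq_some_iff.1 hae
    omega
  have ht : ω.take (k + 1) = ω := by
    rw [← h1, List.take_length]
  obtain ⟨-, c2, c3⟩ := wrA_claim F k a h2
  rw [ht] at c2 c3
  rcases Nat.eq_or_lt_of_le hek with he | he
  · subst he
    rw [hae] at h2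
    obtain rfl : ae = a := Option.some.inj h2
    refine ⟨0, ?_⟩
    rw [h1, pow_zero, mul_one]
    exact c2 hxe
  · rcases F.gt k a h2 he with h' | h'
    · exact absurd h' h4
    · obtain ⟨j, hj⟩ := c3 h'
      exact ⟨j, by rw [h1]; exact hj⟩

end Pool.Agent.H29.CJ

end S_WrA

section S_WrP

/-!
# The product relation

Use only the STATEMENTS of the imported files (`gridG`, `AtL`).

Let `D = t.length + 1`, `n = ω.length = w'.length * D` (`Chk.con_eq`).  The `isX` positions are `i D + t.length` with content `x w'[i]`.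
`gridG`: `β > 0, r` with: position `i < n` is flagged iff `β ∣ i + 1 ≤ β r`.  The last position is flagged: `β ∣ n`, `n ≤ β r`; so flagged iff `β ∣ i + 1`; the number of
flagged positions is `n / β` (`wt` of the indicator; induction on initial segments).  `wt wD ω = 0`: `n / β = number of letters with content x sg = w'.count sg`
(count of the `isX` positions: induction on `w'`, texts contribute nothing since `tok`).  So `n = β * w'.count sg`.
Last factor of `W5`: `Sync ChN (...) (LC ¬ del)` with exponent `k`: `k` consecutive `ChN` from position `0`: each is a chunk: from `i D` to `(i+1) D` with `w'[i]` an `nz`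
letter (the next `isX` position after `i D` is `i D + t.length`); then `ChZ`: `w'[k]` is a `z` letter; so `w' = p ++ x :: q` with `p = w'.take k`.  Then `univ`, a flagged letter at
position `s`, then `k` unflagged letters and a flagged one at `s + k + 1`: consecutive flagged positions, so `β = k + 1` (`β ∣ s + 1`, `β ∣ s + k + 2`, none between;
`s + 1 + β` is the next multiple).  So `n = (k + 1) * w'.count sg`.
-/

set_option autoImplicit false

namespace Pool.Agent.H29.CJ

theorem WrP_len (t : List (Ct Lt)) (w' : List Lt) :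
    (w'.flatMap (fun a => t ++ [Ct.x a])).length = w'.length * (t.length + 1) := by
  induction w' with
  | nil => simp
  | cons a w ih =>
    rw [List.flatMap_cons, List.length_append, ih]
    simp only [List.length_append, List.length_cons, List.length_nil]
    ring

theorem WrP_get (t : List (Ct Lt)) (w' : List Lt) (i j : ℕ) (a : Lt) (ha : w'[i]? = some a)
    (hj : j < t.length + 1) :
    (w'.flatMap (fun a => t ++ [Ct.x a]))[i * (t.length + 1) + j]? = (t ++ [Ct.x a])[j]? := by
  induction w' generalizing i with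
  | nil => simp at ha
  | cons b w ih =>
    rw [List.flatMap_cons]
    have hl : (t ++ [Ct.x b]).length = t.length + 1 := by simp
    cases i with
    | zero =>
      have hab : b = a := by simpa using ha
      rw [List.getElem?_append_left (by rw [hl]; omega), hab]
      simp
    | succ i =>
      have ha' : w[i]? = some a := by simpa using ha
      have e : (i + 1) * (t.length + 1) + j - (t.length + 1) = i * (t.length + 1) + j := by
        rw [Nat.add_mul, Nat.one_mul]
        omega
      rw [List.getElem?_append_right (by rw [hl, Nat.add_mul, Nat.one_mul]; omega), hl, e]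
      exact ih i ha'

theorem WrP_con {ω : List Om} {t : List (Ct Lt)} {w' : List Lt} (hc : Chk ω t w') {s i j : ℕ}
    {a : Om} {b : Lt} (ha : ω[s]? = some a) (hb : w'[i]? = some b)
    (hs : s = i * (t.length + 1) + j) (hj : j < t.length + 1) :
    (t ++ [Ct.x b])[j]? = some (con a) := by
  rw [← WrP_get t w' i j b hb hj, ← hc.con_eq, ← hs, List.getElem?_map, ha]
  rfl

theorem WrP_n {ω : List Om} {t : List (Ct Lt)} {w' : List Lt} (hc : Chk ω t w') :
    ω.length = w'.length * (t.length + 1) := by
  rw [← WrP_len t w', ← hc.con_eq, List.length_map]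

/-- positions of the letters `x _` -/
theorem WrP_isx {ω : List Om} {t : List (Ct Lt)} {w' : List Lt} (hc : Chk ω t w') {s : ℕ}
    {P : Lt → Prop} (h : Is ω s (fun a => ∃ y, con a = Ct.x y ∧ P y)) :
    ∃ (i : ℕ) (y : Lt), w'[i]? = some y ∧ P y ∧ s = i * (t.length + 1) + t.length := by
  obtain ⟨a, ha, y, hy, hP⟩ := h
  have hlt : s < ω.length := (List.getElem?_eq_some_iff.1 ha).1
  rw [WrP_n hc] at hlt
  have hi : s / (t.length + 1) < w'.length := Nat.div_lt_of_lt_mul (by rw [Nat.mul_comm]; exact hlt)
  have hj : s % (t.length + 1) < t.length + 1 := Nat.mod_lt _ (Nat.succ_pos _)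
  have hs : s = s / (t.length + 1) * (t.length + 1) + s % (t.length + 1) := by
    rw [Nat.mul_comm]
    exact (Nat.div_add_mod s (t.length + 1)).symm
  have hb : w'[s / (t.length + 1)]? = some (w'[s / (t.length + 1)]) := List.getElem?_eq_getElem hi
  have h1 := WrP_con hc ha hb hs hj
  rcases Nat.lt_or_ge (s % (t.length + 1)) t.length with h2 | h2
  · exfalso
    rw [List.getElem?_append_left h2] at h1
    have h3 : con a ∈ t := List.mem_of_getElem? h1
    exact hc.tk _ h3 ⟨y, hy⟩
  · have h3 : s % (t.length + 1) = t.length := by omega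
    rw [h3, List.getElem?_append_right le_rfl, Nat.sub_self] at h1
    have h4 : Ct.x (w'[s / (t.length + 1)]) = con a := by simpa using h1
    rw [hy] at h4
    have h5 : w'[s / (t.length + 1)] = y := by
      injection h4
    refine ⟨s / (t.length + 1), y, by rw [hb, h5], hP, ?_⟩
    rw [h3] at hs
    exact hs

theorem WrP_isX {ω : List Om} {t : List (Ct Lt)} {w' : List Lt} (hc : Chk ω t w') {i : ℕ}
    (hi : i < w'.length) : Is ω (i * (t.length + 1) + t.length) isX := by
  have hlt : i * (t.length + 1) + t.length < ω.length := by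
    rw [WrP_n hc]
    have h1 : (i + 1) * (t.length + 1) ≤ w'.length * (t.length + 1) :=
      Nat.mul_le_mul_right _ hi
    rw [Nat.add_mul, Nat.one_mul] at h1
    omega
  have ha : ω[i * (t.length + 1) + t.length]? = some (ω[i * (t.length + 1) + t.length]) :=
    List.getElem?_eq_getElem hlt
  have hb : w'[i]? = some w'[i] := List.getElem?_eq_getElem hi
  have h1 := WrP_con hc ha hb rfl (Nat.lt_succ_self _)
  rw [List.getElem?_append_right le_rfl, Nat.sub_self] at h1
  have h4 : Ct.x w'[i] = con (ω[i * (t.length + 1) + t.length]) := by simpa using h1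
  exact ⟨_, ha, w'[i], h4.symm⟩

/-- a chunk starting at a chunk boundary -/
theorem WrP_chunk {ω : List Om} {t : List (Ct Lt)} {w' : List Lt} (hc : Chk ω t w') {i j : ℕ}
    {P : Lt → Prop}
    (h : At ω (cat (ST (fun a => ¬ isX a)) (LC (fun a => ∃ y, con a = Ct.x y ∧ P y)))
      (i * (t.length + 1)) j) :
    j = (i + 1) * (t.length + 1) ∧ ∃ y, w'[i]? = some y ∧ P y := by
  obtain ⟨e, h1, h2⟩ := at_cat.1 h
  obtain ⟨h3, h4⟩ := at_LC.1 h2
  obtain ⟨h5, _, h6⟩ := at_ST.1 h1
  obtain ⟨i2, y, hy, hP, he⟩ := WrP_isx hc h4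
  have hi2 : i2 < w'.length := (List.getElem?_eq_some_iff.1 hy).1
  have hle : i ≤ i2 := by
    by_contra hlt
    rw [not_le] at hlt
    have h7 : (i2 + 1) * (t.length + 1) ≤ i * (t.length + 1) := Nat.mul_le_mul_right _ hlt
    rw [Nat.add_mul, Nat.one_mul] at h7
    omega
  rcases Nat.eq_or_lt_of_le hle with h8 | h8
  · subst h8
    refine ⟨?_, y, hy, hP⟩
    rw [Nat.add_mul, Nat.one_mul]
    omega
  · exfalso
    have h7 : (i + 1) * (t.length + 1) ≤ i2 * (t.length + 1) := Nat.mul_le_mul_right _ h8
    rw [Nat.add_mul, Nat.one_mul] at h7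
    obtain ⟨a, ha, hna⟩ := h6 (i * (t.length + 1) + t.length) (by omega) (by omega)
    obtain ⟨b, hb, hxb⟩ := WrP_isX hc (i := i) (by omega)
    rw [ha] at hb
    obtain rfl : a = b := Option.some.inj hb
    exact hna hxb

theorem WrP_div {ω : List Om} {β : ℕ} (_hβ : 0 < β)
    (h : ∀ i < ω.length, (Is ω i del ↔ β ∣ i + 1)) (f : Om → ℤ)
    (hf1 : ∀ a, del a → f a = 1) (hf0 : ∀ a, ¬ del a → f a = 0) (m : ℕ) (hm : m ≤ ω.length) :
    pre f ω m = ((m / β : ℕ) : ℤ) := by
  induction m with
  | zero => simp [pre_zero]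
  | succ m ih =>
    have ha : ω[m]? = some ω[m] := List.getElem?_eq_getElem (by omega)
    rw [pre_succ ha, ih (by omega), Nat.succ_div]
    by_cases hd : β ∣ m + 1
    · have h1 := (h m (by omega)).2 hd
      obtain ⟨b, hb, hdb⟩ := h1
      rw [ha] at hb
      obtain rfl : ω[m] = b := Option.some.inj hb
      rw [hf1 _ hdb, if_pos hd]
      push_cast
      ring
    · have h1 : ¬ del ω[m] := fun h2 => hd ((h m (by omega)).1 ⟨_, ha, h2⟩)
      rw [hf0 _ h1, if_neg hd]
      push_cast
      ring

theorem WrP_cnt (t : List (Ct Lt)) (ht : ∀ c ∈ t, tok c) (w' : List Lt) (g : Ct Lt → ℤ)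
    (hg1 : g (Ct.x Lt.sg) = 1) (hg0 : ∀ c, c ≠ Ct.x Lt.sg → g c = 0) :
    wt g (w'.flatMap (fun a => t ++ [Ct.x a])) = (w'.count Lt.sg : ℤ) := by
  have h0 : ∀ u : List (Ct Lt), (∀ c ∈ u, tok c) → wt g u = 0 := by
    intro u
    induction u with
    | nil => intro _; simp [wt]
    | cons c u ih =>
      intro hu
      have h1 : tok c := hu c List.mem_cons_self
      have h2 : c ≠ Ct.x Lt.sg := fun e => h1 ⟨Lt.sg, e⟩
      have h3 := ih (fun d hd => hu d (List.mem_cons_of_mem c hd))
      unfold wt at h3 ⊢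
      rw [List.map_cons, List.sum_cons, h3, hg0 c h2]
      rfl
  induction w' with
  | nil => simp [wt]
  | cons a w ih =>
    rw [List.flatMap_cons, atl_wt_append, atl_wt_append, ih, h0 t ht]
    have h1 : wt g [Ct.x a] = g (Ct.x a) := by simp [wt]
    rw [h1, List.count_cons]
    by_cases ha : a = Lt.sg
    · subst ha
      rw [hg1]
      simp
      ring
    · have h2 : Ct.x a ≠ Ct.x Lt.sg := by
        intro e
        injection e with e
        exact ha e
      rw [hg0 _ h2]
      have h3 : (a == Lt.sg) = false := by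
        rw [beq_eq_false_iff_ne]
        exact ha
      rw [h3]
      simp

theorem prod_sound {ω : List Om} {t : List (Ct Lt)} {w' : List Lt} (hc : Chk ω t w')
    (h5 : ω ∈ W5) :
    ∃ p x q, w' = p ++ x :: q ∧ (∀ b ∈ p, Lt.isNZ b) ∧ Lt.isZ x ∧
      ω.length = (p.length + 1) * w'.count Lt.sg := by
  classical
  obtain ⟨⟨hA, hB, hC⟩, hE⟩ := h5
  obtain ⟨β, r, hβ, hgr⟩ := gridG hA
  -- the last position is flagged
  obtain ⟨e0, _, hB2⟩ := at_cat.1 (at_full.2 hB)
  obtain ⟨hn, hB3⟩ := at_LC.1 hB2
  have hlast := (hgr e0 (by omega)).1 hB3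
  rw [← hn] at hlast
  have hfl : ∀ i < ω.length, (Is ω i del ↔ β ∣ i + 1) := by
    intro i hi
    rw [hgr i hi]
    exact ⟨fun h => h.1, fun h => ⟨h, by omega⟩⟩
  -- counting
  obtain ⟨f, hf⟩ : ∃ f : Om → ℤ, f = fun a => if del a then 1 else 0 := ⟨_, rfl⟩
  obtain ⟨g, hg⟩ : ∃ g : Ct Lt → ℤ, g = fun c => if c = Ct.x Lt.sg then 1 else 0 := ⟨_, rfl⟩
  have hwt : wt wD ω = wt f ω - wt g (ω.map con) := by
    have h1 : ∀ u : List Om, wt wD u = wt f u - wt g (u.map con) := by
      intro u
      induction u with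
      | nil => simp [wt]
      | cons a u ih =>
        unfold wt at ih ⊢
        simp only [List.map_cons, List.sum_cons]
        rw [ih]
        have h2 : wD a = f a - g (con a) := by
          rw [hf, hg]
          unfold wD
          congr 1
        rw [h2]
        ring
    exact h1 ω
  have hC' : wt wD ω = 0 := hC
  have h6 : wt f ω = ((ω.length / β : ℕ) : ℤ) := by
    have h7 := WrP_div hβ hfl f (fun a ha => by rw [hf]; simp only; rw [if_pos ha])
      (fun a ha => by rw [hf]; simp only; rw [if_neg ha]) ω.length le_rfl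
    rw [← h7]
    unfold pre
    rw [List.take_length]
  have h8 : wt g (ω.map con) = (w'.count Lt.sg : ℤ) := by
    rw [hc.con_eq]
    exact WrP_cnt t hc.tk w' g (by rw [hg]; simp) (fun c hc' => by rw [hg]; simp only; rw [if_neg hc'])
  have h9 : ω.length / β = w'.count Lt.sg := by
    rw [hwt, h6, h8] at hC'
    have : ((ω.length / β : ℕ) : ℤ) = (w'.count Lt.sg : ℤ) := by linarith
    exact_mod_cast this
  have h10 : ω.length = β * w'.count Lt.sg := by
    rw [← h9]
    exact (Nat.mul_div_cancel' hlast.1).symm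
  -- the last factor
  obtain ⟨m, hE1, hE2⟩ := at_cat.1 (at_full.2 hE)
  obtain ⟨m', hE3, hE4⟩ := at_cat.1 hE2
  obtain ⟨hm', hEm⟩ := at_LC.1 hE3
  obtain ⟨k, i', j', h11, h12, h13⟩ := at_Sync.1 hE1
  obtain ⟨h14, _, h15⟩ := at_pw_LC.1 h13
  obtain ⟨a1, h16, h17⟩ := at_cat.1 h12
  obtain ⟨a2, h18, h19⟩ := at_cat.1 h17
  obtain ⟨h20, h21⟩ := at_LC.1 h19
  have hd1 : β ∣ j' := by
    have := (hfl a2 h21.lt).1 h21
    rwa [← h20] at this
  have hd2 : β ∣ m + 1 := (hfl m hEm.lt).1 hEm
  have hd3 : β ∣ k + 1 := by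
    have e : m + 1 = j' + (k + 1) := by omega
    rw [e] at hd2
    exact (Nat.dvd_add_right hd1).1 hd2
  have hβk : β = k + 1 := by
    have h22 := Nat.le_of_dvd (Nat.succ_pos k) hd3
    rcases Nat.eq_or_lt_of_le h22 with h23 | h23
    · exact h23
    · exfalso
      have h24 := h15 (j' + β - 1) (by omega) (by omega)
      obtain ⟨a, ha, hna⟩ := h24
      have h25 : β ∣ j' + β - 1 + 1 := by
        have e : j' + β - 1 + 1 = j' + β := by omega
        rw [e]
        exact dvd_add hd1 (dvd_refl _)
      have hlt : j' + β - 1 < ω.length := (List.getElem?_eq_some_iff.1 ha).1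
      obtain ⟨b, hb, hdb⟩ := (hfl _ hlt).2 h25
      rw [ha] at hb
      obtain rfl : a = b := Option.some.inj hb
      exact hna hdb
  -- chunks
  obtain ⟨_, p, p0, pk, hp⟩ := at_pw.1 h11
  have hch : ∀ s, s ≤ k → p s = s * (t.length + 1) ∧ ∀ i, i < s → ∃ y, w'[i]? = some y ∧ Lt.isNZ y := by
    intro s
    induction s with
    | zero => intro _; exact ⟨by rw [p0]; simp, fun i hi => absurd hi (Nat.not_lt_zero i)⟩
    | succ s ih =>
      intro hs
      obtain ⟨ih1, ih2⟩ := ih (by omega)
      have h26 := hp s (by omega)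
      rw [ih1] at h26
      obtain ⟨h27, h28⟩ := WrP_chunk hc h26
      refine ⟨h27, fun i hi => ?_⟩
      rcases Nat.lt_or_ge i s with h29 | h29
      · exact ih2 i h29
      · obtain rfl : i = s := by omega
        exact h28
  obtain ⟨hk1, hk2⟩ := hch k le_rfl
  rw [pk] at hk1
  rw [hk1] at h16
  obtain ⟨_, x, hx, hxZ⟩ := WrP_chunk hc h16
  obtain ⟨hkl, hkx⟩ := List.getElem?_eq_some_iff.1 hx
  refine ⟨w'.take k, x, w'.drop (k + 1), ?_, ?_, hxZ, ?_⟩
  · conv_lhs => rw [← List.take_append_drop k w']
    rw [List.drop_eq_getElem_cons hkl, hkx]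
  · intro b hb
    obtain ⟨i, hi⟩ := List.mem_iff_getElem?.1 hb
    rw [List.getElem?_take] at hi
    by_cases hik : i < k
    · rw [if_pos hik] at hi
      obtain ⟨y, hy, hyN⟩ := hk2 i hik
      rw [hi] at hy
      obtain rfl : b = y := Option.some.inj hy
      exact hyN
    · rw [if_neg hik] at hi
      cases hi
  · rw [List.length_take, min_eq_left hkl.le, h10, hβk]

end Pool.Agent.H29.CJ

end S_WrP

section S_WrV

/-!
# Decoding

* `val (l ++ [v]) = 2 * val l + [v]`, `val l ≥ 1`, `val (l ++ [true])` is odd.  `val` is injective: reverse induction (`List.reverseRecOn`) on both lists: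
  `val [] = 1`, `val (l ++ [v]) ≥ 2`; parity gives the last bit.
* `val_pow_inj`: odd parts: `a 2^h = a' 2^h'` with `a, a'` odd implies `a = a'` (if `h < h'` then `a = a' 2^(h'-h)` is even).  Then injectivity of `val`.
* `codeT c` has length `Fintype.card (Ct Lt)` for all `c`; `codeT c = codeT c'` implies `c = c'` (the entry of `c` is `true` exactly at `c`).
  `codeT_flatMap_inj`: induction on `t`, cutting off the first `card` bits (`List.append_inj`); lengths: a nonempty list has a nonempty code (`card > 0`).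
-/

set_option autoImplicit false

namespace Pool.Agent.H29.CJ

theorem val_append (l : List Bool) (v : Bool) :
    val (l ++ [v]) = 2 * val l + (if v then 1 else 0) := by
  simp [val]

theorem val_pos (l : List Bool) : 1 ≤ val l := by
  induction l using List.reverseRecOn with
  | nil => simp [val]
  | append_singleton l v ih =>
    rw [val_append]
    exact le_trans (by omega) (Nat.le_add_right _ _)

theorem wrV_val_inj (l : List Bool) : ∀ l' : List Bool, val l = val l' → l = l' := by
  induction l using List.reverseRecOn with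
  | nil =>
    intro l' e
    rcases l'.eq_nil_or_concat' with h | ⟨L, b, h⟩
    · exact h.symm
    · subst h
      rw [val_append] at e
      have h1 := val_pos L
      have h2 : val [] = 1 := by simp [val]
      exfalso
      omega
  | append_singleton l v ih =>
    intro l' e
    rcases l'.eq_nil_or_concat' with h | ⟨L, b, h⟩
    · subst h
      rw [val_append] at e
      have h1 := val_pos l
      have h2 : val [] = 1 := by simp [val]
      exfalso
      omega
    · subst h
      rw [val_append, val_append] at e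
      cases v <;> cases b <;> simp at e
      · rw [ih L e]
      · exfalso
        omega
      · exfalso
        omega
      · rw [ih L e]

theorem wrV_odd {a a' h h' : ℕ} (ha : a % 2 = 1) (ha' : a' % 2 = 1)
    (e : a * 2 ^ h = a' * 2 ^ h') : a = a' := by
  rcases lt_trichotomy h h' with hl | hl | hl
  · exfalso
    obtain ⟨d, rfl⟩ := Nat.exists_eq_add_of_lt hl
    have h1 : a * 2 ^ h = (2 * (a' * 2 ^ d)) * 2 ^ h := by
      rw [e]
      ring
    have h2 := Nat.eq_of_mul_eq_mul_right (by positivity) h1
    omega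
  · subst hl
    exact Nat.eq_of_mul_eq_mul_right (by positivity) e
  · exfalso
    obtain ⟨d, rfl⟩ := Nat.exists_eq_add_of_lt hl
    have h1 : a' * 2 ^ h' = (2 * (a * 2 ^ d)) * 2 ^ h' := by
      rw [← e]
      ring
    have h2 := Nat.eq_of_mul_eq_mul_right (by positivity) h1
    omega

theorem val_pow_inj {l l' : List Bool} {h h' : ℕ}
    (e : val (l ++ [true]) * 2 ^ h = val (l' ++ [true]) * 2 ^ h') : l = l' := by
  have h1 : val (l ++ [true]) = 2 * val l + 1 := by
    rw [val_append]
    simp
  have h2 : val (l' ++ [true]) = 2 * val l' + 1 := by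
    rw [val_append]
    simp
  have h3 := wrV_odd (by omega) (by omega) e
  exact wrV_val_inj l l' (by omega)

theorem wrV_len (c : Ct Lt) : (codeT c).length = Fintype.card (Ct Lt) := by
  unfold codeT
  rw [List.length_map, Finset.length_toList, Finset.card_univ]

theorem wrV_codeT_inj {c c' : Ct Lt} (h : codeT c = codeT c') : c = c' := by
  unfold codeT at h
  have h1 := List.map_inj_left.1 h c (Finset.mem_toList.2 (Finset.mem_univ c))
  simpa using h1

theorem wrV_ne (c : Ct Lt) (u : List Bool) : codeT c ++ u ≠ [] := by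
  intro h
  have h1 := congrArg List.length h
  rw [List.length_append, wrV_len] at h1
  have h2 : 0 < Fintype.card (Ct Lt) := Fintype.card_pos_iff.2 ⟨c⟩
  simp at h1
  omega

theorem codeT_flatMap_inj {t t' : List (Ct Lt)} (e : t.flatMap codeT = t'.flatMap codeT) :
    t = t' := by
  induction t generalizing t' with
  | nil =>
    cases t' with
    | nil => rfl
    | cons c' s' =>
      rw [List.flatMap_nil, List.flatMap_cons] at e
      exact absurd e.symm (wrV_ne c' _)
  | cons c s ih =>
    cases t' with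
    | nil =>
      rw [List.flatMap_nil, List.flatMap_cons] at e
      exact absurd e (wrV_ne c _)
    | cons c' s' =>
      rw [List.flatMap_cons, List.flatMap_cons] at e
      obtain ⟨h1, h2⟩ := List.append_inj e (by rw [wrV_len, wrV_len])
      rw [wrV_codeT_inj h1, ih h2]

end Pool.Agent.H29.CJ

end S_WrV
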