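import Mathlib
import Pool.Agent.H29.CL.M3

/-! Conjunctive languages and homomorphisms, part M4: this file joins several modules to save build time. -/

section S_LkS

/-!
# Soundness of the table lookups

Use only the STATEMENTS of the imported files (`CntL`, `AtL`).

`Adr j k A`: record number `j`, row number `k`, bit number `A` of a table, read from just after its `tau`.

(0) `LkP`: if `At w LkP y e` then `y < ln`, `y` is a `t` letter, and for some `j, t`: `Lo Z y = b1 * j + 1`,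
`Is w t tau`, `At w (pw Rec j) (t+1) e`.
 First alternative (`isZT` letter at `y`): `Lo Z y = 1` (`isZ_iff_Lo`), `j = 0`, `e = t + 1` (`pw Rec 0 = {[]}`, `at_eps`).
 Second alternative: `y` is a `TT` letter, then by `at_Sync` there is `i` with: from `y + 1` a chain of `i` steps
 `n* tt` to `y₁`, then `n* zt` to `y₂` (so `y₂ - 1` is a `z` letter), then anything, `tau` at `t`, one `Rec`, and then `i`
 `Rec`s ending at `e`.  So `At w (pw Rec (i+1)) (t+1) e` (`pw_succ`).  A step `n* tt` (or `n* zt`) from a position `q` with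
 `b1 ∣ q` leads to `q + b1`: the first `t` letter at or after `q` is at `q + b1 - 1` (`FS.ht`; all positions of
 the step except the last are not `t` letters, and all positions are `< ln`).  So `y₁ = y + 1 + b1 i`,
 `y₂ = y + 1 + b1 (i+1)`, there is no `z` letter in `[y, y₂ - 1)`, and `y₂ - 1` is one, so
 `Lo Z y = y₂ - y = b1 (i + 1) + 1` (the next multiple of `Z` above `y` is `y₂`; use `FS.hz` and `add_Lo`).
(1) `LkE = n* LkP`: from `x` there are `k` letters `n` up to `y = x + k`, which is a `t` letter (so `y < ln`, hence `x < ln`); none of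
 `x, ..., y - 1` is a `t` letter, `b1 ∣ y + 1`, so `k < b1`; no `z` letter in `[x, y)`, so `Lo Z x = k + Lo Z y`.
(2) `LkA`: by `at_Sync` (`U = LC isN`, `V = Row`, `Z = LkP br`) there are `k` letters `n`, then `LkP` from `y = x + k` to the
 position of `br`, then `k` `Row`s, then `row`, then `A` bits.  Same computation as (1).
-/

set_option autoImplicit false

namespace Pool.Agent.H29.CJ

open Lt

/-- address of a bit, read from just after the `tau` of its table -/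
def Adr (j k A : ℕ) : Set (List Lt) :=
  cat (pw Rec j) (cat (LC (· = br)) (cat (pw Row k) (cat (LC (· = row)) (pw (LC isBit) A))))

variable {w : List Lt} {Z b1 b2 ln : ℕ}

private theorem lks_N (h : FS w Z b1 b2 ln) {i : ℕ} (hi : Is w i isN) :
    i < ln ∧ ¬ b1 ∣ i + 1 ∧ ¬ Z ∣ i + 1 := by
  have hl : i < ln := lt_ln h (hi.mono fun a ha => by
    obtain ⟨g, rfl⟩ := ha; exact ⟨_, _, _, rfl⟩)
  refine ⟨hl, ?_, ?_⟩
  · intro hd
    obtain ⟨a, _, ⟨g, h1⟩, ⟨z, g', h2⟩⟩ := hi.and ((h.ht i hl).2 hd)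
    rw [h1] at h2
    injection h2 with e1 e2 e3
    exact Bool.false_ne_true e2
  · intro hd
    obtain ⟨a, _, ⟨g, h1⟩, ⟨z, g', h2⟩⟩ := hi.and ((h.hz i hl).2 hd)
    rw [h1] at h2
    injection h2 with e1 e2 e3
    exact Bool.false_ne_true e1

private theorem lks_TT (h : FS w Z b1 b2 ln) {i : ℕ} (hi : Is w i isTT) :
    i < ln ∧ b1 ∣ i + 1 ∧ ¬ Z ∣ i + 1 := by
  have hl : i < ln := lt_ln h (hi.mono fun a ha => by
    obtain ⟨g, rfl⟩ := ha; exact ⟨_, _, _, rfl⟩)
  refine ⟨hl, ?_, ?_⟩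
  · exact (h.ht i hl).1 (hi.mono fun a ha => by
      obtain ⟨g, rfl⟩ := ha; exact ⟨_, _, rfl⟩)
  · intro hd
    obtain ⟨a, _, ⟨g, h1⟩, ⟨z, g', h2⟩⟩ := hi.and ((h.hz i hl).2 hd)
    rw [h1] at h2
    injection h2 with e1 e2 e3
    exact Bool.false_ne_true e1

private theorem lks_ZT (h : FS w Z b1 b2 ln) {i : ℕ} (hi : Is w i isZT) :
    i < ln ∧ b1 ∣ i + 1 ∧ Lo Z i = 1 := by
  have hl : i < ln := lt_ln h (hi.mono fun a ha => by
    obtain ⟨g, rfl⟩ := ha; exact ⟨_, _, _, rfl⟩)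
  refine ⟨hl, ?_, ?_⟩
  · exact (h.ht i hl).1 (hi.mono fun a ha => by
      obtain ⟨g, rfl⟩ := ha; exact ⟨_, _, rfl⟩)
  · exact (isZ_iff_Lo h hl).1 (hi.mono fun a ha => by
      obtain ⟨g, rfl⟩ := ha; exact ⟨_, _, rfl⟩)

private theorem lks_div {Z x y : ℕ} (hxy : x ≤ y) (hn : ∀ s, x ≤ s → s < y → ¬ Z ∣ s + 1) :
    y / Z = x / Z := by
  induction y, hxy using Nat.le_induction with
  | base => rfl
  | succ y hy ih =>
    rw [Nat.succ_div, if_neg (hn y hy (Nat.lt_succ_self y)), add_zero]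
    exact ih (fun s h1 h2 => hn s h1 (by omega))

private theorem lks_Lo {Z x y : ℕ} (hZ : 0 < Z) (hxy : x ≤ y)
    (hn : ∀ s, x ≤ s → s < y → ¬ Z ∣ s + 1) : Lo Z x = (y - x) + Lo Z y := by
  have h1 := add_Lo hZ x
  have h2 := add_Lo hZ y
  rw [lks_div hxy hn] at h2
  omega

/-- the first multiple of `b` after the multiple `q` -/
private theorem lks_next {b q y : ℕ} (hb : 0 < b) (hq : b ∣ q) (hqy : q ≤ y) (hy : b ∣ y + 1)
    (hn : ∀ s, q ≤ s → s < y → ¬ b ∣ s + 1) : y + 1 = q + b := by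
  have h1 : b ∣ (y + 1) - q := Nat.dvd_sub hy hq
  have h2 : b ≤ (y + 1) - q := Nat.le_of_dvd (by omega) h1
  rcases Nat.lt_or_ge (q + b) (y + 1) with h3 | h3
  · exfalso
    apply hn (q + b - 1) (by omega) (by omega)
    have h4 : q + b - 1 + 1 = q + b := by omega
    rw [h4]
    exact Nat.dvd_add hq (dvd_refl b)
  · omega

private theorem lks_step (h : FS w Z b1 b2 ln) {q q' : ℕ} (hq : b1 ∣ q)
    (hs : At w (cat (ST isN) (LC isTT)) q q') :
    q' = q + b1 ∧ ∀ s, q ≤ s → s < q' → ¬ Z ∣ s + 1 := by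
  obtain ⟨y, h1, h2⟩ := at_cat.1 hs
  obtain ⟨h3, h4, h5⟩ := at_ST.1 h1
  obtain ⟨rfl, h6⟩ := at_LC.1 h2
  obtain ⟨h7, h8, h9⟩ := lks_TT h h6
  refine ⟨lks_next h.b1pos hq h3 h8 (fun s h10 h11 => (lks_N h (h5 s h10 h11)).2.1), ?_⟩
  intro s h10 h11
  rcases Nat.lt_succ_iff_lt_or_eq.1 h11 with h12 | h12
  · exact (lks_N h (h5 s h10 h12)).2.2
  · rw [h12]; exact h9

private theorem lks_chain (h : FS w Z b1 b2 ln) (k : ℕ) : ∀ {q q' : ℕ}, b1 ∣ q →
    At w (pw (cat (ST isN) (LC isTT)) k) q q' →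
    q' = q + b1 * k ∧ ∀ s, q ≤ s → s < q' → ¬ Z ∣ s + 1 := by
  induction k with
  | zero =>
    intro q q' _ hs
    obtain ⟨rfl, _⟩ := at_eps.1 hs
    exact ⟨by simp, fun s h1 h2 => by omega⟩
  | succ k ih =>
    intro q q' hq hs
    obtain ⟨r, h1, h2⟩ := at_pw_succ.1 hs
    obtain ⟨h3, h4⟩ := lks_step h hq h1
    have hr : b1 ∣ r := by rw [h3]; exact Nat.dvd_add hq (dvd_refl b1)
    obtain ⟨h5, h6⟩ := ih hr h2
    refine ⟨by rw [h5, h3]; ring, ?_⟩
    intro s h7 h8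
    rcases Nat.lt_or_ge s r with h9 | h9
    · exact h4 s h7 h9
    · exact h6 s h9 h8

private theorem lks_P (h : FS w Z b1 b2 ln) {y e : ℕ} (hP : At w LkP y e) :
    y < ln ∧ b1 ∣ y + 1 ∧ ∃ t j, Lo Z y = b1 * j + 1 ∧ Is w t (· = tau) ∧
      At w (pw Rec j) (t + 1) e := by
  rcases at_union.1 hP with hP | hP
  · obtain ⟨k, h1, h2⟩ := at_cat.1 hP
    obtain ⟨rfl, h3⟩ := at_LC.1 h1
    obtain ⟨t, _, h5⟩ := at_cat.1 h2
    obtain ⟨rfl, h6⟩ := at_LC.1 h5
    obtain ⟨h7, h8, h9⟩ := lks_ZT h h3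
    refine ⟨h7, h8, t, 0, by rw [h9]; simp, h6, ?_⟩
    exact at_eps.2 ⟨rfl, hP.le_length⟩
  · obtain ⟨k, h1, h2⟩ := at_cat.1 hP
    obtain ⟨rfl, h3⟩ := at_LC.1 h1
    obtain ⟨h7, h8, h9⟩ := lks_TT h h3
    obtain ⟨i, i', j', h4, h5, h6⟩ := at_Sync.1 h2
    obtain ⟨h10, h11⟩ := lks_chain h i h8 h4
    obtain ⟨y3, h12, h13⟩ := at_cat.1 h5
    obtain ⟨h14, _, h15⟩ := at_ST.1 h12
    obtain ⟨y4, h16, h17⟩ := at_cat.1 h13
    obtain ⟨rfl, h18⟩ := at_LC.1 h16
    obtain ⟨t, _, h19⟩ := at_cat.1 h17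
    obtain ⟨t', h20, h21⟩ := at_cat.1 h19
    obtain ⟨rfl, h22⟩ := at_LC.1 h20
    obtain ⟨h23, h24, h25⟩ := lks_ZT h h18
    have hi' : b1 ∣ i' := by
      rw [h10]; exact Nat.dvd_add h8 (Nat.dvd_mul_right b1 i)
    have h26 : y3 + 1 = i' + b1 :=
      lks_next h.b1pos hi' h14 h24 (fun s h27 h28 => (lks_N h (h15 s h27 h28)).2.1)
    have hy3 : y ≤ y3 := by omega
    have h27 : Lo Z y = (y3 - y) + Lo Z y3 := by
      refine lks_Lo h.Zpos hy3 ?_
      intro s h28 h29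
      rcases Nat.lt_or_ge s (y + 1) with h30 | h30
      · have : s = y := by omega
        rw [this]; exact h9
      · rcases Nat.lt_or_ge s i' with h31 | h31
        · exact h11 s h30 h31
        · exact (lks_N h (h15 s h31 h29)).2.2
    refine ⟨h7, h8, t, i + 1, ?_, h22, at_pw_succ.2 ⟨j', h21, h6⟩⟩
    rw [h27, h25]
    have h32 : b1 * (i + 1) = b1 * i + b1 := by ring
    rw [h32]
    omega

/-- the number of `n` letters before the `t` letter at `y` is less than `b1` -/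
private theorem lks_k (h : FS w Z b1 b2 ln) {x y : ℕ} (hxy : x ≤ y) (hy : b1 ∣ y + 1)
    (hn : ∀ s, x ≤ s → s < y → Is w s isN) : y - x < b1 := by
  by_contra hc
  have hb := h.b1pos
  have h1 := (lks_N h (hn (y - b1) (by omega) (by omega))).2.1
  apply h1
  have h2 : y - b1 + 1 = (y + 1) - b1 := by omega
  rw [h2]
  exact Nat.dvd_sub hy (dvd_refl b1)

theorem lkE_sound (h : FS w Z b1 b2 ln) {x e : ℕ} (hE : At w LkE x e) :
    x < ln ∧ ∃ t j k, Lo Z x = b1 * j + k + 1 ∧ k < b1 ∧ Is w t (· = tau) ∧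
      At w (pw Rec j) (t + 1) e := by
  obtain ⟨y, h1, h2⟩ := at_cat.1 hE
  obtain ⟨h3, _, h5⟩ := at_ST.1 h1
  obtain ⟨h6, h7, t, j, h8, h9, h10⟩ := lks_P h h2
  have h11 := lks_Lo h.Zpos h3 (fun s h12 h13 => (lks_N h (h5 s h12 h13)).2.2)
  refine ⟨by omega, t, j, y - x, ?_, lks_k h h3 h7 h5, h9, h10⟩
  rw [h11, h8]
  ring

theorem lkA_sound (h : FS w Z b1 b2 ln) {A x e : ℕ} (hA : At w (LkA A) x e) :
    x < ln ∧ ∃ t j k, Lo Z x = b1 * j + k + 1 ∧ k < b1 ∧ Is w t (· = tau) ∧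
      At w (Adr j k A) (t + 1) e := by
  obtain ⟨p, h1, h2⟩ := at_cat.1 hA
  obtain ⟨k, y, j', h3, h4, h5⟩ := at_Sync.1 h1
  obtain ⟨rfl, _, h7⟩ := at_pw_LC.1 h3
  obtain ⟨q, h8, h9⟩ := at_cat.1 h4
  obtain ⟨h10, h11, t, j, h12, h13, h14⟩ := lks_P h h8
  have h15 := lks_Lo h.Zpos (Nat.le_add_right x k)
    (fun s h16 h17 => (lks_N h (h7 s h16 h17)).2.2)
  have h16 := lks_k h (Nat.le_add_right x k) h11 h7
  refine ⟨by omega, t, j, k, ?_, by omega, h13, ?_⟩
  · rw [h15, h12]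
    have : x + k - x = k := by omega
    rw [this]
    ring
  · exact at_cat.2 ⟨q, h14, at_cat.2 ⟨j', h9, at_cat.2 ⟨p, h5, h2⟩⟩⟩

end Pool.Agent.H29.CJ

end S_LkS

section S_AdrU

/-!
# Uniqueness of addresses

Use only the STATEMENTS of `AtL` (and the definitions).

Letters of `Rec` words are in `{emp, br, row, bit}`: no `tau`.  The same for `Adr j k A`.
(1) `t = t'`: all letters of `[t+1, e)` are not `tau`, so `pre cTau w e = pre cTau w (t+1)` (`pre_eq_of_zero`), and the same for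
 `t', e'`.  If `t < t'` then `pre cTau w (t'+1) = pre cTau w t' + 1 ≥ pre cTau w (t+1) + 1` (`pre_succ`, `pre_mono`), contradiction.
(2) For `s = t + 1` let `N q` be the number of letters `emp` or `br` in `[s, q)` (a weight function, `pre`).  If
 `At w (pw Rec j) s q` then `N q = j` (each `Rec` contains exactly one letter `emp/br`, namely its first).  So if
 moreover `q` carries `emp` or `br`, then `q` is determined by `j` and `s` (two such positions `q < q'` would give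
 `N q' ≥ N q + 1`).  This gives `adr_not_em`: the position of the `br` of the address and `e'` coincide, but carry
 different letters.
(3) `adr_uniq`: the position `q` of `br` is the same for both.  From `q + 1` on: `At w (pw Row k) (q+1) r` and `r` carries
 `row`: the number of `row` letters in `[q+1, r)` is `k`, all letters of `[q+1, r)` are `row` or bits, so `r` is determined in
 the same way.  Then `e = r + 1 + A` (`at_pw_LC`).
-/

set_option autoImplicit false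

namespace Pool.Agent.H29.CJ

open Lt

variable {w : List Lt}

/-- counts `emp` and `br` -/
def adrU_nE : Lt → ℤ | emp => 1 | br => 1 | _ => 0

/-- counts `row` -/
def adrU_nR : Lt → ℤ | row => 1 | _ => 0

theorem adrU_pw {f : Lt → ℤ} {c : ℤ} {L : Set (List Lt)}
    (hL : ∀ s q, At w L s q → pre f w q = pre f w s + c) :
    ∀ (n s q : ℕ), At w (pw L n) s q → pre f w q = pre f w s + n * c := by
  intro n
  induction n with
  | zero =>
    intro s q h
    obtain ⟨rfl, _⟩ := at_eps.1 h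
    simp
  | succ n ih =>
    intro s q h
    obtain ⟨k, h1, h2⟩ := at_pw_succ.1 h
    rw [ih k q h2, hL s k h1]
    push_cast
    ring

theorem adrU_LC {f : Lt → ℤ} {P : Lt → Prop} {c : ℤ} (hP : ∀ a, P a → f a = c) :
    ∀ s q, At w (LC P) s q → pre f w q = pre f w s + c := by
  intro s q h
  obtain ⟨rfl, a, ha, hPa⟩ := at_LC.1 h
  rw [pre_succ ha, hP a hPa]

theorem adrU_ST {f : Lt → ℤ} {P : Lt → Prop} (hP : ∀ a, P a → f a = 0) :
    ∀ s q, At w (ST P) s q → pre f w q = pre f w s := by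
  intro s q h
  obtain ⟨h1, h2, h3⟩ := at_ST.1 h
  exact pre_eq_of_zero h1 h2 (fun t ht1 ht2 => (h3 t ht1 ht2).mono hP)

theorem adrU_rec {f : Lt → ℤ} {c : ℤ} (he : f emp = c) (hb : f br = c)
    (h0 : ∀ a, isRB a → f a = 0) :
    ∀ s q, At w Rec s q → pre f w q = pre f w s + c := by
  intro s q h
  rcases at_union.1 h with h | h
  · exact adrU_LC (fun a ha => by rw [ha]; exact he) s q h
  · obtain ⟨k, h1, h2⟩ := at_cat.1 h
    rw [adrU_ST h0 k q h2, adrU_LC (c := c) (fun a ha => by rw [ha]; exact hb) s k h1]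

theorem adrU_row {f : Lt → ℤ} {c : ℤ} (hr : f row = c) (h0 : ∀ a, isBit a → f a = 0) :
    ∀ s q, At w Row s q → pre f w q = pre f w s + c := by
  intro s q h
  obtain ⟨k, h1, h2⟩ := at_cat.1 h
  rw [adrU_ST h0 k q h2, adrU_LC (c := c) (fun a ha => by rw [ha]; exact hr) s k h1]

theorem adrU_uniq {f : Lt → ℤ} (hf : ∀ a, 0 ≤ f a) {P P' : Lt → Prop} {q q' : ℕ}
    (h : Is w q P) (h' : Is w q' P') (hP : ∀ a, P a → f a = 1) (hP' : ∀ a, P' a → f a = 1)
    (he : pre f w q = pre f w q') : q = q' := by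
  obtain ⟨a, ha, hPa⟩ := h
  obtain ⟨b, hb, hPb⟩ := h'
  have h1 := pre_succ (f := f) ha
  have h2 := pre_succ (f := f) hb
  rw [hP a hPa] at h1
  rw [hP' b hPb] at h2
  rcases lt_trichotomy q q' with hlt | heq | hgt
  · have h3 := pre_mono (w := w) hf (by omega : q + 1 ≤ q')
    omega
  · exact heq
  · have h3 := pre_mono (w := w) hf (by omega : q' + 1 ≤ q)
    omega

theorem adrU_cTau_nonneg (a : Lt) : 0 ≤ cTau a := by
  cases a <;> simp [cTau]

theorem adrU_nE_nonneg (a : Lt) : 0 ≤ adrU_nE a := by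
  cases a <;> simp [adrU_nE]

theorem adrU_nR_nonneg (a : Lt) : 0 ≤ adrU_nR a := by
  cases a <;> simp [adrU_nR]

theorem adrU_bit0 (a : Lt) (h : isBit a) : cTau a = 0 ∧ adrU_nE a = 0 ∧ adrU_nR a = 0 := by
  obtain ⟨b, rfl⟩ := h
  exact ⟨rfl, rfl, rfl⟩

theorem adrU_rb0 (a : Lt) (h : isRB a) : cTau a = 0 ∧ adrU_nE a = 0 := by
  rcases h with rfl | ⟨b, rfl⟩
  · exact ⟨rfl, rfl⟩
  · exact ⟨rfl, rfl⟩

theorem adrU_split {j k A s e : ℕ} (h : At w (Adr j k A) s e) :
    ∃ q r, At w (pw Rec j) s q ∧ Is w q (· = br) ∧ At w (pw Row k) (q + 1) r ∧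
      Is w r (· = row) ∧ e = r + 1 + A ∧ pre cTau w e = pre cTau w s := by
  obtain ⟨q, h1, h2⟩ := at_cat.1 h
  obtain ⟨q1, h3, h4⟩ := at_cat.1 h2
  have h3' := h3
  obtain ⟨rfl, hq⟩ := at_LC.1 h3
  obtain ⟨r, h5, h6⟩ := at_cat.1 h4
  obtain ⟨r1, h7, h8⟩ := at_cat.1 h6
  have h7' := h7
  obtain ⟨rfl, hr⟩ := at_LC.1 h7
  obtain ⟨h9, _, _⟩ := at_pw_LC.1 h8
  refine ⟨q, r, h1, hq, h5, hr, h9, ?_⟩
  have k1 := adrU_pw (adrU_rec (w := w) (f := cTau) (c := 0) rfl rfl
    (fun a ha => (adrU_rb0 a ha).1)) j s q h1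
  have k2 := adrU_LC (w := w) (f := cTau) (c := 0) (P := (· = br))
    (fun a ha => by rw [ha]; rfl) _ _ h3'
  have k3 := adrU_pw (adrU_row (w := w) (f := cTau) (c := 0) rfl
    (fun a ha => (adrU_bit0 a ha).1)) k _ _ h5
  have k4 := adrU_LC (w := w) (f := cTau) (c := 0) (P := (· = row))
    (fun a ha => by rw [ha]; rfl) _ _ h7'
  have k5 := adrU_pw (adrU_LC (w := w) (f := cTau) (c := 0) (P := isBit)
    (fun a ha => (adrU_bit0 a ha).1)) A _ _ h8
  rw [mul_zero] at k1 k3 k5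
  omega

theorem adrU_tau_eq {t t' s s' : ℕ} (ht : Is w t (· = tau)) (ht' : Is w t' (· = tau))
    (hs : pre cTau w s = pre cTau w (t + 1)) (hs' : pre cTau w s' = pre cTau w (t' + 1))
    (hc : pre cTau w s = pre cTau w s') : t = t' := by
  refine adrU_uniq adrU_cTau_nonneg ht ht' (fun a ha => by rw [ha]; rfl)
    (fun a ha => by rw [ha]; rfl) ?_
  obtain ⟨a, ha, hPa⟩ := ht
  obtain ⟨b, hb, hPb⟩ := ht'
  have h1 := pre_succ (f := cTau) ha
  have h2 := pre_succ (f := cTau) hb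
  have h3 : cTau a = 1 := by rw [hPa]; rfl
  have h4 : cTau b = 1 := by rw [hPb]; rfl
  omega

theorem adr_uniq {j k A t t' e e' : ℕ} (ht : Is w t (· = tau)) (ht' : Is w t' (· = tau))
    (h : At w (Adr j k A) (t + 1) e) (h' : At w (Adr j k A) (t' + 1) e')
    (hc : pre cTau w e = pre cTau w e') : e = e' := by
  obtain ⟨q, r, h1, hq, h2, hr, h3, h4⟩ := adrU_split h
  obtain ⟨q', r', h1', hq', h2', hr', h3', h4'⟩ := adrU_split h'
  obtain rfl : t = t' := adrU_tau_eq ht ht' h4 h4' hc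
  have hE := adrU_rec (w := w) (f := adrU_nE) (c := 1) rfl rfl (fun a ha => (adrU_rb0 a ha).2)
  have hR := adrU_row (w := w) (f := adrU_nR) (c := 1) rfl (fun a ha => (adrU_bit0 a ha).2.2)
  obtain rfl : q = q' := adrU_uniq adrU_nE_nonneg hq hq' (fun a ha => by rw [ha]; rfl)
    (fun a ha => by rw [ha]; rfl) (by rw [adrU_pw hE j _ _ h1, adrU_pw hE j _ _ h1'])
  obtain rfl : r = r' := adrU_uniq adrU_nR_nonneg hr hr' (fun a ha => by rw [ha]; rfl)
    (fun a ha => by rw [ha]; rfl) (by rw [adrU_pw hR k _ _ h2, adrU_pw hR k _ _ h2'])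
  rw [h3, h3']

theorem adr_not_em {j k A t t' e e' : ℕ} (ht : Is w t (· = tau)) (ht' : Is w t' (· = tau))
    (h : At w (Adr j k A) (t + 1) e) (h' : At w (pw Rec j) (t' + 1) e')
    (hc : pre cTau w e = pre cTau w e') (he : Is w e' (· = emp)) : False := by
  obtain ⟨q, r, h1, hq, h2, hr, h3, h4⟩ := adrU_split h
  have k1 := adrU_pw (adrU_rec (w := w) (f := cTau) (c := 0) rfl rfl
    (fun a ha => (adrU_rb0 a ha).1)) j _ _ h'
  rw [mul_zero, add_zero] at k1
  obtain rfl : t = t' := adrU_tau_eq ht ht' h4 k1 hc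
  have hE := adrU_rec (w := w) (f := adrU_nE) (c := 1) rfl rfl (fun a ha => (adrU_rb0 a ha).2)
  obtain rfl : q = e' := adrU_uniq adrU_nE_nonneg hq he (fun a ha => by rw [ha]; rfl)
    (fun a ha => by rw [ha]; rfl) (by rw [adrU_pw hE j _ _ h1, adrU_pw hE j _ _ h'])
  obtain ⟨a, _, ha1, ha2⟩ := hq.and he
  rw [ha1] at ha2
  cases ha2

end Pool.Agent.H29.CJ

end S_AdrU

section S_TrS

/-!
# Soundness of the exact translations

Use only the STATEMENTS of the imported files.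

`At w (Tr f) x y`: all positions of `[x, y)` are left letters; the number of `g` letters in `[x, y)` is `2`, so
`x < y`, `x < ln`, `y ≤ ln` (`lt_ln`); the number of `z` letters is `[f]`, so `y / Z = x / Z + [f]` by `pre_cZ`.
There is `m` with `At w EqG x m`, `At w EqG m y`.  `At w EqG p q` means: `q = p`, or there is `a` with `q = p + 2 (a + 1)` and
position `p + a` is a `g` letter (`at_Sync_LC`: `a` left letters, a `g` letter, `a` left letters, one left letter).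
Write `β = b2`.  `g` letters below `ln`: the positions `c` with `β ∣ c + 1` (`FS.hg`).  By `pre_cG`: `y/β = x/β + 2`.
Let `r = β - x % β`, `1 ≤ r ≤ β`: the `g` letters after `x` are at `x + r - 1`, `x + r + β - 1`, `x + r + 2β - 1`, ... and
`x + r + β ≤ y < x + r + 2β`.
 Case `m = x` (first part empty): `y = x + 2 (a+1)` (the second part is nonempty), `x + a` is a `g` letter, so
   `a + 1 = r + i β`.  `i = 0`: `y = x + 2 r ≥ x + r + β`, so `r = β` and `y = x + 2β`.  `i ≥ 1`: `y ≥ x + 2r + 2β`, contradiction.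
 Case `m > x`: `m = x + 2 (a + 1)`, `a + 1 = r + i β`; `i ≥ 1` gives `m ≥ x + 2r + 2β > y`, contradiction.  So `m = x + 2r`.
   If `r = β`: `m = x + 2β`; a nonempty second part would contain the `g` letter at `m + a' < y`, `β ∣ m + a' + 1`,
   `m + a' + 1 > x + 2 β`, so `≥ x + r + 2 β = x + 3β` (as `β ∣ x` now), contradiction with `y < x + 3 β`; so `y = m`.
   If `r < β`: `m < x + r + β ≤ y`, so the second part is nonempty, `y = m + 2 (a' + 1)`, `β ∣ m + a' + 1`; the first multiple of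
   `β` after `m` is `x + r + β` (as `x + r ≤ m < x + r + β`), so `a' + 1 = β - r + i β`, and `i ≥ 1` gives `y ≥ x + 4β`,
   contradiction.  So `y = x + 2 r + 2 (β - r) = x + 2β`.
-/

set_option autoImplicit false

namespace Pool.Agent.H29.CJ

open Lt

variable {w : List Lt} {Z b1 b2 ln : ℕ}

private theorem TrS_eqg {p q : ℕ} (h : At w EqG p q) :
    q = p ∨ ∃ a, q = p + 2 * (a + 1) ∧ Is w (p + a) isG := by
  rcases at_union.1 h with h1 | h1
  · left
    exact (at_eps.1 h1).1.symm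
  · right
    obtain ⟨k, h2, h3⟩ := at_cat.1 h1
    obtain ⟨rfl, -⟩ := at_LC.1 h3
    obtain ⟨a, j', h4, -, h5, -, -⟩ := at_Sync_LC.1 h2
    obtain ⟨rfl, h6⟩ := at_LC.1 h5
    exact ⟨a, by omega, h6⟩

private theorem TrS_zero {β e t : ℤ} (h0 : 0 < β) (h : 2 * (β * e) = t) (h1 : -(2 * β) < t)
    (h2 : t < 2 * β) : e = 0 := by
  rcases lt_trichotomy e 0 with h3 | h3 | h3
  · exfalso
    have : β * e ≤ β * (-1) := mul_le_mul_of_nonneg_left (by omega) h0.le
    linarith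
  · exact h3
  · exfalso
    have : β * 1 ≤ β * e := mul_le_mul_of_nonneg_left (by omega) h0.le
    linarith

private theorem TrS_A {β x y c : ℕ} (hβ : 0 < β) (hxy : y / β = x / β + 2)
    (h : y + x = 2 * (β * c)) : y = x + 2 * β := by
  have hx := Nat.div_add_mod x β
  have hx' := Nat.mod_lt x hβ
  have hy := Nat.div_add_mod y β
  have hy' := Nat.mod_lt y hβ
  rw [hxy] at hy
  generalize x / β = X at *
  generalize x % β = ρ at *
  generalize y % β = σ at *
  zify at *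
  have h1 : 2 * ((β : ℤ) * (c - X - 1)) = ρ + σ := by linarith
  have h2 := TrS_zero hβ h1 (by omega) (by omega)
  rw [h2, mul_zero, mul_zero] at h1
  have h3 : (ρ : ℤ) = 0 := by omega
  have h4 : (σ : ℤ) = 0 := by omega
  rw [h3] at hx
  rw [h4] at hy
  linarith

private theorem TrS_B {β x y : ℕ} (hβ : 0 < β) (hxy : y / β = x / β + 2) (e : ℤ)
    (h : (y : ℤ) - x = 2 * (β * e)) : y = x + 2 * β := by
  have hx := Nat.div_add_mod x β
  have hx' := Nat.mod_lt x hβ
  have hy := Nat.div_add_mod y β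
  have hy' := Nat.mod_lt y hβ
  rw [hxy] at hy
  generalize x / β = X at *
  generalize x % β = ρ at *
  generalize y % β = σ at *
  zify at *
  have h1 : 2 * ((β : ℤ) * (e - 1)) = σ - ρ := by linarith
  have h2 := TrS_zero hβ h1 (by omega) (by omega)
  rw [h2, mul_zero, mul_zero] at h1
  linarith

private theorem TrS_arith {β x y m : ℕ} (hβ : 0 < β) (hxy : y / β = x / β + 2)
    (h1 : m = x ∨ ∃ a, m = x + 2 * (a + 1) ∧ β ∣ x + a + 1)
    (h2 : y = m ∨ ∃ a, y = m + 2 * (a + 1) ∧ β ∣ m + a + 1) : y = x + 2 * β := by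
  rcases h1 with rfl | ⟨a, h1, c, hc⟩
  · rcases h2 with rfl | ⟨a', h2, d, hd⟩
    · omega
    · exact TrS_A (c := d) hβ hxy (by omega)
  · rcases h2 with rfl | ⟨a', h2, d, hd⟩
    · exact TrS_A (c := c) hβ hxy (by omega)
    · refine TrS_B hβ hxy ((d : ℤ) - c) ?_
      have e1 : (y : ℤ) + m = 2 * (β * d) := by
        have : y + m = 2 * (β * d) := by omega
        exact_mod_cast this
      have e2 : (m : ℤ) + x = 2 * (β * c) := by
        have : m + x = 2 * (β * c) := by omega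
        exact_mod_cast this
      linarith

theorem tr_sound (h : FS w Z b1 b2 ln) {f : Bool} {x y : ℕ} (hT : At w (Tr f) x y) :
    x < ln ∧ y ≤ ln ∧ y = x + 2 * b2 ∧ y / Z = x / Z + (if f then 1 else 0) := by
  obtain ⟨h1, h2⟩ := at_inter.1 hT
  obtain ⟨h3, h4⟩ := at_inter.1 h1
  obtain ⟨h5, h6⟩ := at_inter.1 h2
  obtain ⟨hxy, hyl, hleft⟩ := at_ST.1 h4
  obtain ⟨-, -, hG⟩ := at_WT.1 h5
  obtain ⟨-, -, hZ⟩ := at_WT.1 h6
  obtain ⟨m, hm1, hm2⟩ := at_cat.1 h3
  have hlt : x < y := by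
    rcases Nat.eq_or_lt_of_le hxy with h7 | h7
    · rw [h7, sub_self] at hG
      omega
    · exact h7
  have hyln : y ≤ ln := by
    have := lt_ln h (hleft (y - 1) (by omega) (by omega))
    omega
  have hxln : x < ln := by omega
  have hG1 := pre_cG h hyln
  have hG2 := pre_cG h hxln.le
  have hZ1 := pre_cZ h hyln
  have hZ2 := pre_cZ h hxln.le
  rw [hG1, hG2] at hG
  rw [hZ1, hZ2] at hZ
  have hGn : y / b2 = x / b2 + 2 := by
    have : ((y / b2 : ℕ) : ℤ) = ((x / b2 : ℕ) : ℤ) + 2 := by linarith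
    exact_mod_cast this
  have hZn : y / Z = x / Z + (if f then 1 else 0) := by
    cases f
    · simp only [Bool.false_eq_true, if_false] at hZ ⊢
      have : ((y / Z : ℕ) : ℤ) = ((x / Z : ℕ) : ℤ) + 0 := by linarith
      exact_mod_cast this
    · simp only [if_true] at hZ ⊢
      have : ((y / Z : ℕ) : ℤ) = ((x / Z : ℕ) : ℤ) + 1 := by linarith
      exact_mod_cast this
  refine ⟨hxln, hyln, ?_, hZn⟩
  have hmy := hm2.le
  refine TrS_arith (m := m) h.b2pos hGn ?_ ?_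
  · rcases TrS_eqg hm1 with h7 | ⟨a, ha, hg⟩
    · exact Or.inl h7
    · exact Or.inr ⟨a, ha, (h.hg (x + a) (by omega)).1 hg⟩
  · rcases TrS_eqg hm2 with h7 | ⟨a, ha, hg⟩
    · exact Or.inl h7
    · exact Or.inr ⟨a, ha, (h.hg (m + a) (by omega)).1 hg⟩

end Pool.Agent.H29.CJ

end S_TrS

section S_MSh

/-!
# The main system: unfolding and shape

Use only the STATEMENTS of the imported files.

* `phi_mono`: cases on `v`, `cat_mono`, unions, intersections.
* `sl_eq`: `Lfp_eq` with `phi_mono`.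
* `q_shape` / `main_shape`: for `At w (Sl G v) x e` we show `x < ln`, `x < e` and, for `v = main A`, that `e - 1` is a `mu`
  letter.  Strong induction on `e - x`, then on the rank `main, q1, q2, q3 ↦ 0, 2, 1, 0`... : unfold once by `sl_eq`:
  `main A`: `MainLk A`: `x < ln` by `lkA_sound`, and the second factor ends with `mu` (so `x < e`).  Rule: pick `p ∈ ρ`
  (`G.ne`): in `Step`, `UL G _` words are nonempty (`G.T0`), their first letter is a left letter (`lt_ln`), and the rest is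
  a shorter `main` segment; `Lg`: the first factor is in `q1` (a shorter segment: it is followed by at least `rr` and `mu`)
  and the word ends with `mu`.
  `q1`: first letter left and at least one letter; or `q2` on a shorter segment.  `q2`: `Tr` (`tr_sound`) or `q3` on the same
  segment.  `q3`: first letter `nz` or `z`.
-/

set_option autoImplicit false

namespace Pool.Agent.H29.CJ

open Lt

variable {K : ℕ} (G : USys K) {w : List Lt} {Z b1 b2 ln : ℕ}

theorem phi_mono (v : Vr K) (X Y : Vr K → Set (List Lt)) (hXY : ∀ i, X i ⊆ Y i) :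
    Phi G v X ⊆ Phi G v Y := by
  have hLg : ∀ B C, Lg X B C ⊆ Lg Y B C := fun B C =>
    cat_mono (Set.inter_subset_inter (hXY _)
      (cat_mono subset_rfl (Set.inter_subset_inter subset_rfl (cat_mono (hXY _) subset_rfl))))
      subset_rfl
  have hStep : ∀ p, Step G X p ⊆ Step G Y p := fun p =>
    Set.union_subset_union
      (Set.union_subset_union (cat_mono subset_rfl (hXY _)) (cat_mono subset_rfl (hXY _)))
      (Set.union_subset_union (hLg _ _) (hLg _ _))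
  cases v with
  | main A =>
    apply Set.union_subset_union subset_rfl
    rintro u ⟨ρ, hρ, hu⟩
    exact ⟨ρ, hρ, fun p hp => hStep p (hu p hp)⟩
  | q1 B f =>
    apply Set.union_subset_union
    · apply Set.union_subset_union (cat_mono subset_rfl (cat_mono (hXY _) subset_rfl))
      rintro u ⟨hf, hu⟩
      exact ⟨hf, cat_mono subset_rfl (cat_mono (hXY _) subset_rfl) hu⟩
    · exact cat_mono (hXY _) subset_rfl
  | q2 B f =>
    apply Set.union_subset_union
    · apply Set.union_subset_union (cat_mono subset_rfl (cat_mono (hXY _) subset_rfl))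
      rintro u ⟨hf, hu⟩
      exact ⟨hf, cat_mono subset_rfl (cat_mono (hXY _) subset_rfl) hu⟩
    · exact hXY _
  | q3 B f =>
    apply Set.union_subset_union (cat_mono subset_rfl (cat_mono (hXY _) subset_rfl))
    rintro u ⟨hf, hu⟩
    exact ⟨hf, cat_mono subset_rfl (cat_mono (hXY _) subset_rfl) hu⟩

theorem sl_eq (v : Vr K) : Sl G v = Phi G v (Sl G) := Lfp_eq (phi_mono G) v

private theorem msh_nz (h : FS w Z b1 b2 ln) {M : Set (List Lt)} {x e : ℕ}
    (hA : At w (cat (LC isNZ) M) x e) : x < ln ∧ x < e := by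
  obtain ⟨k, h1, h2⟩ := at_cat.1 hA
  obtain ⟨rfl, h3⟩ := at_LC.1 h1
  refine ⟨lt_ln h (h3.mono ?_), h2.le⟩
  rintro a ⟨t, g, rfl⟩
  exact ⟨_, _, _, rfl⟩

private theorem msh_z (h : FS w Z b1 b2 ln) {M : Set (List Lt)} {x e : ℕ}
    (hA : At w (cat (LC isZ) M) x e) : x < ln ∧ x < e := by
  obtain ⟨k, h1, h2⟩ := at_cat.1 hA
  obtain ⟨rfl, h3⟩ := at_LC.1 h1
  refine ⟨lt_ln h (h3.mono ?_), h2.le⟩
  rintro a ⟨t, g, rfl⟩
  exact ⟨_, _, _, rfl⟩

private theorem msh_tr (h : FS w Z b1 b2 ln) {M : Set (List Lt)} {f : Bool} {x e : ℕ}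
    (hA : At w (cat (Tr f) M) x e) : x < ln ∧ x < e := by
  obtain ⟨k, h1, h2⟩ := at_cat.1 hA
  obtain ⟨h3, _, h5, _⟩ := tr_sound h h1
  have := h2.le
  have := h.b2pos
  exact ⟨h3, by omega⟩

private theorem msh_q3 (h : FS w Z b1 b2 ln) {B : Fin K} {f : Bool} {x e : ℕ}
    (hA : At w (Sl G (.q3 B f)) x e) : x < ln ∧ x < e := by
  rw [sl_eq] at hA
  rcases at_union.1 hA with hA | hA
  · exact msh_nz h hA
  · exact msh_z h ((at_ite _ _).1 hA).2

private theorem msh_q2 (h : FS w Z b1 b2 ln) {B : Fin K} {f : Bool} {x e : ℕ}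
    (hA : At w (Sl G (.q2 B f)) x e) : x < ln ∧ x < e := by
  rw [sl_eq] at hA
  rcases at_union.1 hA with hA | hA
  · rcases at_union.1 hA with hA | hA
    · exact msh_tr h hA
    · exact msh_tr h ((at_ite _ _).1 hA).2
  · exact msh_q3 G h hA

private theorem msh_q1 (h : FS w Z b1 b2 ln) {B : Fin K} {f : Bool} {x e : ℕ}
    (hA : At w (Sl G (.q1 B f)) x e) : x < ln ∧ x < e := by
  rw [sl_eq] at hA
  rcases at_union.1 hA with hA | hA
  · rcases at_union.1 hA with hA | hA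
    · exact msh_nz h hA
    · exact msh_z h ((at_ite _ _).1 hA).2
  · obtain ⟨k, h1, h2⟩ := at_cat.1 hA
    obtain ⟨h3, h4⟩ := msh_q2 G h h1
    have := h2.le
    exact ⟨h3, by omega⟩

private theorem msh_lg (h : FS w Z b1 b2 ln) {B C : Fin K} {x e : ℕ}
    (hA : At w (Lg (Sl G) B C) x e) : x < ln ∧ x < e ∧ Is w (e - 1) (· = mu) := by
  obtain ⟨k, h1, h2⟩ := at_cat.1 hA
  obtain ⟨h3, h4⟩ := msh_q1 G h (at_inter.1 h1).1
  have h5 := h2.le
  obtain ⟨l, h6, h7⟩ := at_cat.1 h2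
  obtain ⟨m, h8, h9⟩ := at_cat.1 h7
  obtain ⟨rfl, h10⟩ := at_LC.1 h9
  exact ⟨h3, by omega, by simpa using h10⟩

private theorem msh_ul (h : FS w Z b1 b2 ln) {A : Fin K} {S : Set (List Lt)} {x k : ℕ}
    (hA : At w (UL G A ∩ S) x k) : x < ln ∧ x < k := by
  obtain ⟨h1, h2, h3, h4⟩ := (at_inter.1 hA).1
  have hlt : x < k := by
    rcases h1.lt_or_eq with hlt | rfl
    · exact hlt
    · exfalso
      rw [atl_seg_self] at h4
      exact G.T0 A h4
  refine ⟨?_, hlt⟩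
  have h5 : At w (ST isLeft) x k := ⟨h1, h2, h3⟩
  exact lt_ln h ((at_ST.1 h5).2.2 x le_rfl hlt)

private theorem msh_main (h : FS w Z b1 b2 ln) (n : ℕ) : ∀ (A : Fin K) (x e : ℕ), e - x ≤ n →
    At w (Sl G (.main A)) x e → x < ln ∧ x < e ∧ Is w (e - 1) (· = mu) := by
  induction n with
  | zero =>
    intro A x e hn hA
    have hxe : x = e := by have := hA.le; omega
    subst hxe
    exfalso
    rw [sl_eq] at hA
    rcases at_union.1 hA with hA | hA
    · obtain ⟨k, h1, h2⟩ := at_cat.1 hA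
      obtain ⟨l, h3, h4⟩ := at_cat.1 (at_inter.1 (at_inter.1 h2).1).1
      obtain ⟨rfl, -⟩ := at_LC.1 h3
      have := h1.le
      have := h4.le
      omega
    · obtain ⟨h1, h2, ρ, hρ, h3⟩ := hA
      obtain ⟨p, hp⟩ := List.exists_mem_of_ne_nil ρ (G.ne A ρ hρ)
      have h4 : At w (Step G (Sl G) p) x x := ⟨h1, h2, h3 p hp⟩
      rcases at_union.1 h4 with h4 | h4
      · rcases at_union.1 h4 with h4 | h4
        · obtain ⟨k, h5, h6⟩ := at_cat.1 h4
          have := (msh_ul G h h5).2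
          have := h6.le
          omega
        · obtain ⟨k, h5, h6⟩ := at_cat.1 h4
          have := (msh_ul G h h5).2
          have := h6.le
          omega
      · rcases at_union.1 h4 with h4 | h4
        · have := (msh_lg G h h4).2.1
          omega
        · have := (msh_lg G h h4).2.1
          omega
  | succ n ih =>
    intro A x e hn hA
    rw [sl_eq] at hA
    rcases at_union.1 hA with hA | hA
    · obtain ⟨k, h1, h2⟩ := at_cat.1 hA
      obtain ⟨h3, -⟩ := lkA_sound h h1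
      have hk := h1.le
      obtain ⟨l, h5, h6⟩ := at_cat.1 (at_inter.1 (at_inter.1 h2).1).2
      obtain ⟨rfl, h7⟩ := at_LC.1 h6
      have := h5.le
      exact ⟨h3, by omega, by simpa using h7⟩
    · obtain ⟨h1, h2, ρ, hρ, h3⟩ := hA
      obtain ⟨p, hp⟩ := List.exists_mem_of_ne_nil ρ (G.ne A ρ hρ)
      have h4 : At w (Step G (Sl G) p) x e := ⟨h1, h2, h3 p hp⟩
      rcases at_union.1 h4 with h4 | h4
      · rcases at_union.1 h4 with h4 | h4
        · obtain ⟨k, h5, h6⟩ := at_cat.1 h4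
          obtain ⟨h7, h8⟩ := msh_ul G h h5
          obtain ⟨-, h9, h10⟩ := ih _ k e (by omega) h6
          exact ⟨h7, by omega, h10⟩
        · obtain ⟨k, h5, h6⟩ := at_cat.1 h4
          obtain ⟨h7, h8⟩ := msh_ul G h h5
          obtain ⟨-, h9, h10⟩ := ih _ k e (by omega) h6
          exact ⟨h7, by omega, h10⟩
      · rcases at_union.1 h4 with h4 | h4
        · exact msh_lg G h h4
        · exact msh_lg G h h4

theorem main_shape (h : FS w Z b1 b2 ln) {A : Fin K} {x e : ℕ}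
    (hA : At w (Sl G (.main A)) x e) : x < ln ∧ x < e ∧ Is w (e - 1) (· = mu) :=
  msh_main G h (e - x) A x e le_rfl hA

theorem q_shape (h : FS w Z b1 b2 ln) {v : Vr K} {x e : ℕ} (hA : At w (Sl G v) x e) :
    x < ln ∧ x < e := by
  cases v with
  | main A => exact ⟨(main_shape G h hA).1, (main_shape G h hA).2.1⟩
  | q1 B f => exact msh_q1 G h hA
  | q2 B f => exact msh_q2 G h hA
  | q3 B f => exact msh_q3 G h hA

end Pool.Agent.H29.CJ

end S_MSh

section S_QCh

/-!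
# Soundness of the peeling nonterminals

Use only the STATEMENTS of the imported files.

Unfold with `sl_eq` and `Phi`; use `at_cat, at_union, at_ite, at_LC`.
`q3 B f` at `[x, y)`: `nz`, `main B`, `RI f`: the `nz` letter at `x < ln` is not a `z` letter, so `(x+1)/Z = x/Z`.  Or `f = false` and
`z`, `main B`, `RI true`: `(x+1)/Z = x/Z + 1` (`Z ∣ x + 1`).  Here `x < ln` (`lt_ln`), `xb = x + 1`.
`q2 B f` at `[x, y)` (strong induction on `y - x`): `Tr false`, `q2 B f`, `Rec'`: `tr_sound` moves `x` to `x + 2 b2` with the same quotient;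
`j` increases by one (`at_pw_succ'` for the chain of `Rec'` at the right end).  `Tr true` (only `f = false`): quotient plus one, and then
`q2 B true`.  Or `q3 B f`.
`q1 B f` at `[x, r)` (strong induction): `nz`, `q1 B f`, `rr`; or `f = false`: `z`, `q1 B true`, `rr`; or `q2 B f`, `pp` (`k = 0`, `r = yP + 1`).
The flag `b`: the index of `RI`.  If `f = true` then `b = true` and no `z` letter is passed; if `f = false` then the number of
passed `z` letters is `[b]`.
-/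

set_option autoImplicit false

namespace Pool.Agent.H29.CJ

open Lt

variable {K : ℕ} (G : USys K) {w : List Lt} {Z b1 b2 ln : ℕ}

/-- what the flag and the number of passed `z` letters say -/
def Flg (Z : ℕ) (f b : Bool) (x xb : ℕ) : Prop :=
  (f = true → b = true ∧ xb / Z = x / Z) ∧ (f = false → xb / Z = x / Z + (if b then 1 else 0))

theorem QCh_same {f b : Bool} {x x1 xb : ℕ} (h : x1 / Z = x / Z) (hF : Flg Z f b x1 xb) :
    Flg Z f b x xb := by
  unfold Flg at hF ⊢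
  rw [← h]
  exact hF

theorem QCh_up {b : Bool} {x x1 xb : ℕ} (h : x1 / Z = x / Z + 1) (hF : Flg Z true b x1 xb) :
    b = true ∧ Flg Z false b x xb := by
  obtain ⟨h1, h2⟩ := hF.1 rfl
  refine ⟨h1, fun hf => ?_, fun _ => ?_⟩
  · cases hf
  · rw [h1, h2, h]
    simp

theorem QCh_refl (f : Bool) (x : ℕ) {x1 : ℕ} (h : x1 / Z = x / Z) : Flg Z f f x x1 := by
  refine ⟨fun hf => ⟨hf, h⟩, fun hf => ?_⟩
  rw [hf, h]
  simp

theorem QCh_nz (h : FS w Z b1 b2 ln) {x : ℕ} (hx : Is w x isNZ) : (x + 1) / Z = x / Z := by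
  have hl : x < ln := lt_ln h (hx.mono fun a ⟨t, g, e⟩ => ⟨false, t, g, e⟩)
  exact Nat.succ_div_of_not_dvd ((isNZ_iff h hl).1 hx)

theorem QCh_z (h : FS w Z b1 b2 ln) {x : ℕ} (hx : Is w x isZ) : (x + 1) / Z = x / Z + 1 := by
  have hl : x < ln := lt_ln h (hx.mono fun a ⟨t, g, e⟩ => ⟨true, t, g, e⟩)
  exact Nat.succ_div_of_dvd ((h.hz x hl).1 hx)

theorem QCh_at_if {f : Bool} {L : Set (List Lt)} {x y : ℕ} (hA : At w {u | f = false ∧ u ∈ L} x y) :
    f = false ∧ At w L x y := (at_ite (f = false) L).1 hA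

theorem q3_sound (h : FS w Z b1 b2 ln) {B : Fin K} {f : Bool} {x y : ℕ}
    (hq : At w (Sl G (.q3 B f)) x y) :
    ∃ (eb : ℕ) (b : Bool), Flg Z f b x (x + 1) ∧ At w (Sl G (.main B)) (x + 1) eb ∧
      At w (RI b) eb y := by
  rw [sl_eq] at hq
  rcases at_union.1 hq with h1 | h1
  · obtain ⟨k, h2, h3⟩ := at_cat.1 h1
    obtain ⟨rfl, h4⟩ := at_LC.1 h2
    obtain ⟨eb, h5, h6⟩ := at_cat.1 h3
    exact ⟨eb, f, QCh_refl f x (QCh_nz h h4), h5, h6⟩
  · obtain ⟨hf, h1⟩ := QCh_at_if h1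
    obtain ⟨k, h2, h3⟩ := at_cat.1 h1
    obtain ⟨rfl, h4⟩ := at_LC.1 h2
    obtain ⟨eb, h5, h6⟩ := at_cat.1 h3
    refine ⟨eb, true, ?_, h5, h6⟩
    rw [hf]
    exact (QCh_up (QCh_z h h4) (QCh_refl true (x + 1) rfl)).2

theorem QCh_q2 (h : FS w Z b1 b2 ln) {B : Fin K} (n : ℕ) : ∀ {f : Bool} {x y : ℕ}, y - x < n →
    At w (Sl G (.q2 B f)) x y →
    ∃ (j xb eb yc : ℕ) (b : Bool), xb = x + 2 * b2 * j + 1 ∧ Flg Z f b x xb ∧
      At w (Sl G (.main B)) xb eb ∧ At w (RI b) eb yc ∧ At w (pw Rec' j) yc y := by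
  induction n with
  | zero => intro f x y hn; omega
  | succ n ih =>
    intro f x y hn hq
    have hxy := hq.le
    rw [sl_eq] at hq
    have hb := h.b2pos
    rcases at_union.1 hq with h0 | h1
    · rcases at_union.1 h0 with h1 | h1
      · obtain ⟨x1, h2, h3⟩ := at_cat.1 h1
        obtain ⟨y1, h4, h5⟩ := at_cat.1 h3
        obtain ⟨g1, g2, g3, g4⟩ := tr_sound h h2
        have l1 := h4.le
        have l2 := h5.le
        obtain ⟨j, xb, eb, yc, b, e1, e2, e3, e4, e5⟩ := ih (by omega) h4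
        refine ⟨j + 1, xb, eb, yc, b, ?_, QCh_same ?_ e2, e3, e4, at_pw_succ'.2 ⟨y1, e5, h5⟩⟩
        · rw [e1, g3]
          ring
        · rw [g4]
          simp
      · obtain ⟨hf, h1⟩ := QCh_at_if h1
        obtain ⟨x1, h2, h3⟩ := at_cat.1 h1
        obtain ⟨y1, h4, h5⟩ := at_cat.1 h3
        obtain ⟨g1, g2, g3, g4⟩ := tr_sound h h2
        have l1 := h4.le
        have l2 := h5.le
        obtain ⟨j, xb, eb, yc, b, e1, e2, e3, e4, e5⟩ := ih (by omega) h4
        refine ⟨j + 1, xb, eb, yc, b, ?_, ?_, e3, e4, at_pw_succ'.2 ⟨y1, e5, h5⟩⟩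
        · rw [e1, g3]
          ring
        · rw [hf]
          exact (QCh_up (by rw [g4]; simp) e2).2
    · obtain ⟨eb, b, h2, h3, h4⟩ := q3_sound G h h1
      exact ⟨0, x + 1, eb, y, b, by omega, h2, h3, h4, at_eps.2 ⟨rfl, h4.le_length⟩⟩

theorem q2_sound (h : FS w Z b1 b2 ln) {B : Fin K} {f : Bool} {x y : ℕ}
    (hq : At w (Sl G (.q2 B f)) x y) :
    ∃ (j xb eb yc : ℕ) (b : Bool), xb = x + 2 * b2 * j + 1 ∧ Flg Z f b x xb ∧
      At w (Sl G (.main B)) xb eb ∧ At w (RI b) eb yc ∧ At w (pw Rec' j) yc y :=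
  QCh_q2 G h (y - x + 1) (by omega) hq

theorem QCh_q1 (h : FS w Z b1 b2 ln) {B : Fin K} (n : ℕ) : ∀ {f : Bool} {x r : ℕ}, r - x < n →
    At w (Sl G (.q1 B f)) x r →
    ∃ (k j xb eb yc yP : ℕ) (b : Bool), xb = x + k + 2 * b2 * j + 1 ∧ Flg Z f b x xb ∧
      At w (Sl G (.main B)) xb eb ∧ At w (RI b) eb yc ∧ At w (pw Rec' j) yc yP ∧
      Is w yP (· = pp) ∧ r = yP + 1 + k ∧ ∀ t, yP < t → t < r → Is w t (· = rr) := by
  induction n with
  | zero => intro f x y hn; omega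
  | succ n ih =>
    intro f x r hn hq
    have hxy := hq.le
    rw [sl_eq] at hq
    rcases at_union.1 hq with h0 | h1
    · rcases at_union.1 h0 with h1 | h1
      · obtain ⟨x1, h2, h3⟩ := at_cat.1 h1
        obtain ⟨rfl, g1⟩ := at_LC.1 h2
        obtain ⟨r1, h4, h5⟩ := at_cat.1 h3
        obtain ⟨rfl, g2⟩ := at_LC.1 h5
        have l1 := h4.le
        obtain ⟨k, j, xb, eb, yc, yP, b, e1, e2, e3, e4, e5, e6, e7, e8⟩ := ih (by omega) h4
        refine ⟨k + 1, j, xb, eb, yc, yP, b, by omega, QCh_same (QCh_nz h g1) e2, e3, e4, e5, e6,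
          by omega, fun t ht1 ht2 => ?_⟩
        rcases Nat.lt_or_ge t r1 with ht | ht
        · exact e8 t ht1 ht
        · obtain rfl : t = r1 := by omega
          exact g2
      · obtain ⟨hf, h1⟩ := QCh_at_if h1
        obtain ⟨x1, h2, h3⟩ := at_cat.1 h1
        obtain ⟨rfl, g1⟩ := at_LC.1 h2
        obtain ⟨r1, h4, h5⟩ := at_cat.1 h3
        obtain ⟨rfl, g2⟩ := at_LC.1 h5
        have l1 := h4.le
        obtain ⟨k, j, xb, eb, yc, yP, b, e1, e2, e3, e4, e5, e6, e7, e8⟩ := ih (by omega) h4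
        refine ⟨k + 1, j, xb, eb, yc, yP, b, by omega, ?_, e3, e4, e5, e6,
          by omega, fun t ht1 ht2 => ?_⟩
        · rw [hf]
          exact (QCh_up (QCh_z h g1) e2).2
        rcases Nat.lt_or_ge t r1 with ht | ht
        · exact e8 t ht1 ht
        · obtain rfl : t = r1 := by omega
          exact g2
    · obtain ⟨y1, h2, h3⟩ := at_cat.1 h1
      obtain ⟨rfl, g1⟩ := at_LC.1 h3
      obtain ⟨j, xb, eb, yc, b, e1, e2, e3, e4, e5⟩ := q2_sound G h h2
      exact ⟨0, j, xb, eb, yc, y1, b, by omega, e2, e3, e4, e5, g1, by omega,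
        fun t ht1 ht2 => by omega⟩

theorem q1_sound (h : FS w Z b1 b2 ln) {B : Fin K} {f : Bool} {x r : ℕ}
    (hq : At w (Sl G (.q1 B f)) x r) :
    ∃ (k j xb eb yc yP : ℕ) (b : Bool), xb = x + k + 2 * b2 * j + 1 ∧ Flg Z f b x xb ∧
      At w (Sl G (.main B)) xb eb ∧ At w (RI b) eb yc ∧ At w (pw Rec' j) yc yP ∧
      Is w yP (· = pp) ∧ r = yP + 1 + k ∧ ∀ t, yP < t → t < r → Is w t (· = rr) :=
  QCh_q1 G h (r - x + 1) (by omega) hq

end Pool.Agent.H29.CJ

end S_QCh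

section S_LIIS

/-!
# Soundness of the menu side

Use only the STATEMENTS of the imported files.

`At w (LII (Sl G) C) x r`: there is `xc` with `At w Load xc r` and `At w (cat (main C) RII) xc r`.
`xc < ln` by `main_shape`.  `Load` at `[xc, r)` (`at_Sync_LC` with `U = LC isNZ`, `V = LC rr`): `k` letters `nz` from `xc`, `k` letters
`rr` before `r`, the middle: `Sync (Tr false) (z univ cc) Rec'`, then `pp` at `yP`, `yP + 1 + k = r`.  The inner `Sync` (`at_Sync`,
`at_pw` or induction on the number `j` with `at_pw_succ`): `j` translations `Tr false` from `xc + k` to `y₀ = xc + k + 2 b2 j`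
(`tr_sound`, no `z` passed: quotients equal), a `z` letter at `y₀`, anything, a `cc` letter at `yc - 1`, and `j` `Rec'`s from `yc`
to `yP`.  The `nz` letters are not `z` letters (`isNZ_iff`, `Nat.succ_div`), so `(xc + k)/Z = xc/Z`, hence `y₀ / Z = xc / Z` and
`Z ∣ y₀ + 1`, `y₀ < ln` (`hz`), so `y₀ + 1 = Z (xc/Z + 1)` and `Lo Z xc = y₀ + 1 - xc = k + 2 b2 j + 1` (`add_Lo`).
-/

set_option autoImplicit false

namespace Pool.Agent.H29.CJ

open Lt

variable {K : ℕ} (G : USys K) {w : List Lt} {Z b1 b2 ln : ℕ}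

private theorem liis_chain (h : FS w Z b1 b2 ln) (j : ℕ) : ∀ {p q : ℕ},
    At w (pw (Tr false) j) p q → q = p + 2 * b2 * j ∧ q / Z = p / Z := by
  induction j with
  | zero =>
    intro p q hs
    obtain ⟨rfl, _⟩ := at_eps.1 hs
    exact ⟨by simp, rfl⟩
  | succ j ih =>
    intro p q hs
    obtain ⟨m, h1, h2⟩ := at_pw_succ.1 hs
    obtain ⟨-, -, h3, h4⟩ := tr_sound h h1
    obtain ⟨h5, h6⟩ := ih h2
    refine ⟨?_, ?_⟩
    · rw [h5, h3]
      ring
    · rw [h6, h4]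
      simp

private theorem liis_div (h : FS w Z b1 b2 ln) {x k : ℕ}
    (hn : ∀ t, x ≤ t → t < x + k → Is w t isNZ) : (x + k) / Z = x / Z := by
  induction k with
  | zero => rfl
  | succ k ih =>
    have h1 := hn (x + k) (by omega) (by omega)
    have h2 : x + k < ln := lt_ln h (h1.mono (by rintro a ⟨t, g, rfl⟩; exact ⟨_, _, _, rfl⟩))
    have h3 := (isNZ_iff h h2).1 h1
    have h4 : x + (k + 1) = x + k + 1 := rfl
    rw [h4, Nat.succ_div, if_neg h3, add_zero]
    exact ih (fun t h5 h6 => hn t h5 (by omega))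

theorem LII_sound (h : FS w Z b1 b2 ln) {C : Fin K} {x r : ℕ} (hL : At w (LII (Sl G) C) x r) :
    ∃ (xc ec k j yc yP : ℕ), x ≤ xc ∧ xc < ln ∧ Lo Z xc = k + 2 * b2 * j + 1 ∧
      At w (Sl G (.main C)) xc ec ∧ At w RII ec r ∧ 0 < yc ∧ Is w (yc - 1) (· = cc) ∧
      At w (pw Rec' j) yc yP ∧ Is w yP (· = pp) ∧ r = yP + 1 + k ∧
      ∀ t, yP < t → t < r → Is w t (· = rr) := by
  obtain ⟨xc, h1, h2⟩ := at_cat.1 hL
  obtain ⟨hLoad, hcat⟩ := at_inter.1 h2
  obtain ⟨ec, hmain, hRII⟩ := at_cat.1 hcat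
  have hxc : xc < ln := (main_shape G h hmain).1
  obtain ⟨k, j', hr, hrw, hmid, hnz, hrr⟩ := at_Sync_LC.1 hLoad
  obtain ⟨yP, hS, hpp⟩ := at_cat.1 hmid
  obtain ⟨rfl, hpp'⟩ := at_LC.1 hpp
  obtain ⟨j, y0, yc, hTr, hM, hRec⟩ := at_Sync.1 hS
  obtain ⟨y1, hz, hM⟩ := at_cat.1 hM
  obtain ⟨rfl, hz'⟩ := at_LC.1 hz
  obtain ⟨y2, hu, hc⟩ := at_cat.1 hM
  obtain ⟨rfl, hc'⟩ := at_LC.1 hc
  obtain ⟨hy0, hq⟩ := liis_chain h j hTr
  have hq2 := liis_div h hnz
  have hy0ln : y0 < ln := lt_ln h (hz'.mono (by rintro a ⟨t, g, rfl⟩; exact ⟨_, _, _, rfl⟩))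
  have hdvd : Z ∣ y0 + 1 := (h.hz y0 hy0ln).1 hz'
  have hLo1 := (CntL_dvd h.Zpos y0).1 hdvd
  have hA1 := add_Lo h.Zpos y0
  have hA2 := add_Lo h.Zpos xc
  rw [hq, hq2, hLo1] at hA1
  refine ⟨xc, ec, k, j, y2 + 1, yP, h1.le, hxc, ?_, hmain, hRII, by omega, by simpa using hc',
    hRec, hpp', by omega, fun t ht1 ht2 => hrr t (by omega) ht2⟩
  omega

end Pool.Agent.H29.CJ

end S_LIIS

section S_LgS

/-!
# Soundness of the large steps

Use only the STATEMENTS of the imported files.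

`At w (Lg (Sl G) B C) x e`: there is `r` with `At (q1 B false) x r`, `At (LII (Sl G) C) x r`, an `rr` letter at `r`, then non-`mu` letters
and a `mu` letter at `e - 1`.  Apply `q1_sound` (data `k j xb eb yc yP b`) and `LII_sound` (data `xc ec k' j' yc' yP'`).
(1) `yP = yP'` and `k = k'`: both are the last position before `r` carrying `pp`, all later ones below `r` carry `rr` (if `yP < yP'`
 then `yP'` carries `rr` and `pp`).
(2) `yc = yc'`, `j = j'`: `Rec'` words have letters in `{ee, pp, rr}` and contain exactly one letter `ee` or `pp`.  `yc - 1` carries `cc`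
 (from `RI b ⊆ cat univ (LC cc)`, so `0 < yc`), `yc' - 1` carries `cc`, and there is no `cc` in `[yc, yP)` and `[yc', yP)`; so `yc = yc'`.
 The number of letters `ee/pp` in `[yc, yP)` is `j` and `j'` (weight function; induction on the power).
(3) Weights.  `eb - 1` and `ec - 1` carry `mu` (`main_shape`), so `pre wC w eb = 0`, `pre wC w ec = pre wK w ec = 0` (`FS.cmu`).
 `RI b`: `pre wRI w yc - pre wRI w eb = [b] - 1`, so `(# mu(yc) - wC(yc)) - # mu(eb) = [b] - 1` (`pre_wRI`).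
 `RII`: `pre wRII w r - pre wRII w ec = -1`: `# mu(r) + wC(r) - wK(r) - # mu(ec) = -1`.  `FS.crr` at `r`:
 `pre wKM w (r+1) = 0 = pre wKM w r`, so `wK(r) = # mu(r)`.  Hence `wC(r) = # mu(ec) - 1`.
 Between `yc` and `r` only letters `ee, pp, rr`: `wC(yc) = wC(r)`, `# mu(yc) = # mu(r)`.  `# mu(e) = # mu(r) + 1`.
 So with `n = # mu(e)`, `nb = # mu(eb)`, `nc = # mu(ec)`: `nb + nc = n + 1 - [b]`.
 `1 ≤ nb, nc` (there is a `mu` letter before), `nb ≤ n`, `nc ≤ n` (`pre_mono`, `eb ≤ e`, `ec ≤ e`).  The counts are natural numbers.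
(4) Values.  `xb = x + σ`, `σ = k + 2 b2 j + 1 = Lo Z xc`, `xb / Z = x / Z + [b]` (`Flg` for `f = false`), so by `add_Lo`:
 `Lo Z xb = Z (x/Z + [b] + 1) - x - σ = Lo Z x + Z [b] - σ`.  So
 `Z (nb - 1) + Lo Z xb + Z (nc - 1) + Lo Z xc = Z (n - 1 - [b]) + Lo Z x + Z [b] = Z (n - 1) + Lo Z x`.
-/

set_option autoImplicit false

namespace Pool.Agent.H29.CJ

open Lt

variable {K : ℕ} (G : USys K) {w : List Lt} {Z b1 b2 ln : ℕ}

/-- number of the letters that start a record -/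
private def LgS_f (a : Lt) : ℤ := if a = ee ∨ a = pp then 1 else 0

private theorem LgS_clash {i : ℕ} {a b : Lt} (h1 : Is w i (· = a)) (h2 : Is w i (· = b)) :
    a = b := by
  obtain ⟨c, -, h3, h4⟩ := h1.and h2
  exact h3.symm.trans h4

private theorem LgS_rec {i j : ℕ} (h : At w Rec' i j) :
    pre LgS_f w j = pre LgS_f w i + 1 ∧
      ∀ t, i ≤ t → t < j → Is w t (fun a => a = ee ∨ a = pp ∨ a = rr) := by
  rcases at_union.1 h with h1 | h1
  · obtain ⟨rfl, h2⟩ := at_LC.1 h1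
    obtain ⟨a, ha, rfl⟩ := h2
    refine ⟨?_, fun t ht1 ht2 => ?_⟩
    · rw [pre_succ ha]
      rfl
    · obtain rfl : t = i := by omega
      exact ⟨_, ha, Or.inl rfl⟩
  · obtain ⟨k, h2, h3⟩ := at_cat.1 h1
    obtain ⟨rfl, h4⟩ := at_LC.1 h2
    obtain ⟨h5, h6, h7⟩ := at_ST.1 h3
    obtain ⟨a, ha, rfl⟩ := h4
    refine ⟨?_, fun t ht1 ht2 => ?_⟩
    · rw [pre_eq_of_zero h5 h6 (fun t ht1 ht2 => (h7 t ht1 ht2).mono ?_), pre_succ ha]
      · rfl
      · rintro a rfl
        rfl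
    · rcases Nat.eq_or_lt_of_le ht1 with rfl | hlt
      · exact ⟨_, ha, Or.inr (Or.inl rfl)⟩
      · exact (h7 t hlt ht2).mono fun a e => Or.inr (Or.inr e)

private theorem LgS_pw (n : ℕ) : ∀ {i j : ℕ}, At w (pw Rec' n) i j →
    pre LgS_f w j = pre LgS_f w i + n ∧
      ∀ t, i ≤ t → t < j → Is w t (fun a => a = ee ∨ a = pp ∨ a = rr) := by
  induction n with
  | zero =>
    intro i j h
    obtain ⟨rfl, -⟩ := at_eps.1 h
    exact ⟨by simp, fun t ht1 ht2 => by omega⟩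
  | succ n ih =>
    intro i j h
    obtain ⟨k, h1, h2⟩ := at_pw_succ.1 h
    obtain ⟨e1, e2⟩ := LgS_rec h1
    obtain ⟨e3, e4⟩ := ih h2
    refine ⟨?_, fun t ht1 ht2 => ?_⟩
    · rw [e3, e1]
      push_cast
      ring
    · rcases Nat.lt_or_ge t k with ht | ht
      · exact e2 t ht1 ht
      · exact e4 t ht ht2

private theorem LgS_nocc {i : ℕ} (h : Is w i (fun a => a = ee ∨ a = pp ∨ a = rr))
    (h' : Is w i (· = cc)) : False := by
  obtain ⟨c, -, h3, h4⟩ := h.and h'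
  rcases h3 with h3 | h3 | h3 <;>
  · rw [h3] at h4
    cases h4

private theorem LgS_muPos {e : ℕ} (h : Is w (e - 1) (· = mu)) (he : 0 < e) :
    1 ≤ pre cMu w e := by
  obtain ⟨a, ha, rfl⟩ := h
  obtain ⟨e1, rfl⟩ : ∃ e1, e = e1 + 1 := ⟨e - 1, by omega⟩
  rw [Nat.add_sub_cancel] at ha
  rw [pre_succ ha]
  have h1 : pre cMu w 0 ≤ pre cMu w e1 :=
    pre_mono (fun a => by cases a <;> simp [cMu]) (Nat.zero_le _)
  rw [pre_zero] at h1
  have h2 : cMu mu = 1 := rfl
  omega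

theorem Lg_sound (h : FS w Z b1 b2 ln) {B C : Fin K} {x e : ℕ}
    (hL : At w (Lg (Sl G) B C) x e) :
    ∃ (xb eb xc ec nb nc n : ℕ), At w (Sl G (.main B)) xb eb ∧ At w (Sl G (.main C)) xc ec ∧
      pre cMu w eb = nb ∧ pre cMu w ec = nc ∧ pre cMu w e = n ∧
      1 ≤ nb ∧ nb ≤ n ∧ 1 ≤ nc ∧ nc ≤ n ∧ 0 < e ∧ Is w (e - 1) (· = mu) ∧
      (Z * (nb - 1) + Lo Z xb) + (Z * (nc - 1) + Lo Z xc) = Z * (n - 1) + Lo Z x := by
  obtain ⟨r, h1, h2⟩ := at_cat.1 hL
  obtain ⟨hq, hl⟩ := at_inter.1 h1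
  obtain ⟨r1, h3, h4⟩ := at_cat.1 h2
  obtain ⟨rfl, hrr⟩ := at_LC.1 h3
  obtain ⟨e1, h5, h6⟩ := at_cat.1 h4
  obtain ⟨rfl, hmu⟩ := at_LC.1 h6
  obtain ⟨g1, g2, g3⟩ := at_ST.1 h5
  obtain ⟨k, j, xb, eb, yc, yP, b, exb, hF, hB, hRI, hpw, hpp, hr, hrrs⟩ := q1_sound G h hq
  obtain ⟨xc, ec, k', j', yc', yP', hx, hxc, hLo, hC, hRII, hyc', hcc', hpw', hpp', hr',
    hrrs'⟩ := LII_sound G h hl
  -- the cut positions agree
  have eyP : yP' = yP := by
    rcases Nat.lt_trichotomy yP' yP with hlt | heq | hlt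
    · cases LgS_clash hpp (hrrs' yP hlt (by omega))
    · exact heq
    · cases LgS_clash hpp' (hrrs yP' hlt (by omega))
  subst eyP
  obtain rfl : k' = k := by omega
  obtain ⟨f1, f2⟩ := LgS_pw j hpw
  obtain ⟨f3, f4⟩ := LgS_pw j' hpw'
  obtain ⟨hRI1, hRI2⟩ := at_inter.1 hRI
  obtain ⟨yc0, hRI3, hRI4⟩ := at_cat.1 hRI1
  obtain ⟨hyc, hcc⟩ := at_LC.1 hRI4
  have l1 := hpw.le
  have l2 := hpw'.le
  have eyc : yc' = yc := by
    rcases Nat.lt_trichotomy yc' yc with hlt | heq | hlt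
    · exact (LgS_nocc (f4 yc0 (by omega) (by omega)) hcc).elim
    · exact heq
    · exact (LgS_nocc (f2 (yc' - 1) (by omega) (by omega)) hcc').elim
  subst eyc
  obtain rfl : j' = j := by
    have : (j' : ℤ) = j := by omega
    exact_mod_cast this
  -- shapes
  obtain ⟨sb1, sb2, sb3⟩ := main_shape G h hB
  obtain ⟨sc1, sc2, sc3⟩ := main_shape G h hC
  have heb : eb - 1 + 1 = eb := by omega
  have hec : ec - 1 + 1 = ec := by omega
  have wb := h.cmu _ sb3
  have wc := h.cmu _ sc3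
  rw [heb] at wb
  rw [hec] at wc
  -- weights
  obtain ⟨-, -, v1⟩ := at_WT.1 hRI2
  obtain ⟨-, -, v2⟩ := at_WT.1 hRII
  rw [pre_wRI, pre_wRI] at v1
  rw [pre_wRII, pre_wRII] at v2
  have v3 := h.crr _ hrr
  obtain ⟨a, ha, rfl⟩ := hrr
  rw [pre_succ ha, pre_wKM] at v3
  have v3' : wKM rr = 0 := rfl
  have hlen : r < w.length := CntL_lt ha
  have hlet : ∀ t, yc' ≤ t → t < r → Is w t (fun a => a = ee ∨ a = pp ∨ a = rr) := by
    intro t ht1 ht2
    rcases Nat.lt_trichotomy t yP' with hlt | heq | hlt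
    · exact f2 t ht1 hlt
    · rw [heq]
      exact hpp.mono fun a e => Or.inr (Or.inl e)
    · exact (hrrs t hlt ht2).mono fun a e => Or.inr (Or.inr e)
  have v4 : pre wC w r = pre wC w yc' :=
    pre_eq_of_zero (by omega) hlen.le fun t ht1 ht2 => (hlet t ht1 ht2).mono
      (by rintro a (rfl | rfl | rfl) <;> rfl)
  have v5 : pre cMu w r = pre cMu w yc' :=
    pre_eq_of_zero (by omega) hlen.le fun t ht1 ht2 => (hlet t ht1 ht2).mono
      (by rintro a (rfl | rfl | rfl) <;> rfl)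
  have v6 : pre cMu w e1 = pre cMu w (r + 1) :=
    pre_eq_of_zero g1 g2 fun t ht1 ht2 => (g3 t ht1 ht2).mono
      (by
        intro a ha
        cases a <;> first | rfl | exact absurd rfl ha)
  have v7 : pre cMu w (r + 1) = pre cMu w r := by
    rw [pre_succ ha]
    have : cMu rr = 0 := rfl
    omega
  have v8 : pre cMu w (e1 + 1) = pre cMu w e1 + 1 := by
    obtain ⟨c, hc, rfl⟩ := hmu
    rw [pre_succ hc]
    rfl
  have mono : ∀ {i l : ℕ}, i ≤ l → pre cMu w i ≤ pre cMu w l := fun hil =>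
    pre_mono (fun a => by cases a <;> simp [cMu]) hil
  have l3 := hRI.le
  have l4 := hRII.le
  have nb1 := LgS_muPos sb3 (by omega)
  have nc1 := LgS_muPos sc3 (by omega)
  have nb2 : pre cMu w eb ≤ pre cMu w (e1 + 1) := mono (by omega)
  have nc2 : pre cMu w ec ≤ pre cMu w (e1 + 1) := mono (by omega)
  obtain ⟨nb, hnb⟩ : ∃ nb : ℕ, pre cMu w eb = (nb : ℤ) + 1 :=
    ⟨(pre cMu w eb - 1).toNat, by omega⟩
  obtain ⟨nc, hnc⟩ : ∃ nc : ℕ, pre cMu w ec = (nc : ℤ) + 1 :=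
    ⟨(pre cMu w ec - 1).toNat, by omega⟩
  have hbb : (if b = true then (0 : ℤ) else -1) = (if b = true then 1 else 0 : ℤ) - 1 := by
    cases b <;> simp
  have hn : pre cMu w (e1 + 1) = (nb : ℤ) + nc + 1 + (if b = true then 1 else 0 : ℤ) := by
    rw [hbb] at v1
    omega
  -- values
  have u1 := hF.2 rfl
  have u2 := add_Lo h.Zpos xb
  have u3 := add_Lo h.Zpos x
  refine ⟨xb, eb, xc, ec, nb + 1, nc + 1, nb + nc + 1 + (if b = true then 1 else 0), hB, hC,
    by rw [hnb]; push_cast; ring, by rw [hnc]; push_cast; ring, ?_, by omega, by omega, by omega,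
    by omega, by omega, by simpa using hmu, ?_⟩
  · rw [hn]
    cases b <;> simp
  · rw [u1] at u2
    cases b
    · simp only [Bool.false_eq_true, if_false, Nat.add_zero, Nat.add_sub_cancel] at u2 ⊢
      rw [Nat.mul_add Z nb nc]
      omega
    · simp only [if_true, Nat.add_sub_cancel] at u2 ⊢
      rw [Nat.mul_add] at u2 u3
      rw [Nat.mul_add] at u2
      rw [Nat.mul_add, Nat.mul_add]
      omega

end Pool.Agent.H29.CJ

end S_LgS

section S_TSd

/-!
# Soundness of the table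

Use only the STATEMENTS of the imported files.

`At w (MainLk A) x e`: there is `q` with `At w (LkA A) x q`, position `q` carries `bit true`, `e - 1` carries `mu`, and
`pre wTM w e = pre wTM w q`.  `lkA_sound`: `Lo Z x = b1 j + k + 1`, `k < b1`, `tau` at `t`, `At w (Adr j k A) (t+1) q`.
`exists_sg` gives `s` with an `sg` letter and `pre cSg w (s+1) = n`.  Let `x0 = Z - Lo Z x < Z` (`Lo_pos`, `Lo_le`), `Lo Z x0 = Lo Z x`
(definition of `Lo`, `x0 % Z = x0`).  By `hOK`, `At w (OK G A) x0 (s+1)`; three cases (`at_union`).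
* `Sta`: done.
* `StLk A`: there is `q'` with `At w (LkA A) x0 q'`, `bit false` at `q'`, `pre wTS w (s+1) = pre wTS w q'`.  `lkA_sound` with the
  same `Lo`: `j' = j`, `k' = k` (division with remainder), `At w (Adr j k A) (t'+1) q'`.
  Counts (`pre_wTM`, `pre_wTS`, `pre_zero_of_reg`, `pre_tot_of_reg`): at `q` and `q'` (region 3): `cMu = cSg = cTh = 0`.  At `e`
  (letter `mu` at `e - 1`, region 5): `cTau, cTh` are total.  At `s + 1`: `cTau, cTh` are total.  So
  `cTau(q) = tauTot + n - thTot` and `cTau(q') = tauTot + n - thTot`.  `adr_uniq`: `q = q'`, contradiction.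
* `StEm`: there is `q'` with `At w LkE x0 q'`, `emp` at `q'`, same weight equation; `lkE_sound`, `adr_not_em`.
-/

set_option autoImplicit false

namespace Pool.Agent.H29.CJ

open Lt

variable {K : ℕ} (G : USys K) {w : List Lt} {Z b1 b2 ln : ℕ}

private lemma tsd_div {b j k j' k' : ℕ} (hk : k < b) (hk' : k' < b)
    (h : b * j + k + 1 = b * j' + k' + 1) : j = j' ∧ k = k' := by
  have h1 : b * j + k = b * j' + k' := by omega
  have hb : 0 < b := by omega
  have hj : j = j' := by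
    have e1 : (b * j + k) / b = j := by
      rw [Nat.mul_add_div hb, Nat.div_eq_of_lt hk, Nat.add_zero]
    have e2 : (b * j' + k') / b = j' := by
      rw [Nat.mul_add_div hb, Nat.div_eq_of_lt hk', Nat.add_zero]
    rw [← e1, ← e2, h1]
  subst hj
  exact ⟨rfl, by omega⟩

private lemma tsd_reg3 {a c : Lt} (hc : reg c ≤ 3) (h : reg a ≤ reg c) :
    cMu a = 0 ∧ cTh a = 0 ∧ cSg a = 0 := by
  cases a <;> simp_all [reg, cMu, cTh, cSg] <;> omega

private lemma tsd_reg5 {a c : Lt} (hc : 5 ≤ reg c) (h : reg c ≤ reg a) :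
    cTau a = 0 ∧ cTh a = 0 := by
  cases a <;> simp_all [reg, cTau, cTh] <;> omega

/-- the cut of a lookup -/
private lemma tsd_split {L : Set (List Lt)} {c d : Lt} {f : Lt → ℤ} {x e : ℕ}
    (h : At w (cat L ((cat (LC (· = c)) Set.univ ∩ cat Set.univ (LC (· = d))) ∩ WT f 0)) x e) :
    ∃ q k, At w L x q ∧ w[q]? = some c ∧ e = k + 1 ∧ w[k]? = some d ∧ pre f w e = pre f w q := by
  obtain ⟨q, hq, h2⟩ := at_cat.1 h
  obtain ⟨h3, h4⟩ := at_inter.1 h2
  obtain ⟨h5, h6⟩ := at_inter.1 h3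
  obtain ⟨k1, h7, -⟩ := at_cat.1 h5
  obtain ⟨k, -, h8⟩ := at_cat.1 h6
  obtain ⟨-, a, ha, hac⟩ := at_LC.1 h7
  obtain ⟨he, b, hb, hbd⟩ := at_LC.1 h8
  have h9 := (at_WT.1 h4).2.2
  exact ⟨q, k, hq, by rw [ha, hac], he, by rw [hb, hbd], by linarith⟩

theorem tab_sound (h : FS w Z b1 b2 ln)
    (hOK : ∀ x0 < Z, ∀ s, Is w s (· = sg) → ∀ A, At w (OK G A) x0 (s + 1))
    {A : Fin K} {x e n : ℕ} (hM : At w (MainLk A) x e) (hn : pre cMu w e = n) (h1 : 1 ≤ n)
    (hle : (n : ℤ) ≤ wt cSg w) :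
    ∃ x0 < Z, Lo Z x0 = Lo Z x ∧ ∃ s, Is w s (· = sg) ∧ pre cSg w (s + 1) = n ∧
      At w (Sta G A) x0 (s + 1) := by
  obtain ⟨q, km, hq, hqb, he, hkm, hw⟩ := tsd_split hM
  obtain ⟨-, t, j, k, hLo, hk, ht, hadr⟩ := lkA_sound h hq
  obtain ⟨s, hs, hsn⟩ := exists_sg w h1 hle
  have hL1 := Lo_pos h.Zpos x
  have hL2 := Lo_le Z x
  have hx0 : Z - Lo Z x < Z := by omega
  have hLx0 : Lo Z (Z - Lo Z x) = Lo Z x := by
    have : (Z - Lo Z x) % Z = Z - Lo Z x := Nat.mod_eq_of_lt hx0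
    show Z - (Z - Lo Z x) % Z = Lo Z x
    rw [this]
    omega
  -- count at `q`
  have hcq : pre cTau w q = wt cTau w + n - wt cTh w := by
    have e1 := pre_wTM w q
    have e2 := pre_wTM w e
    have z1 : pre cMu w q = 0 := pre_zero_of_reg h hqb fun a ha => (tsd_reg3 (by simp [reg]) ha).1
    have z2 : pre cTh w q = 0 := pre_zero_of_reg h hqb fun a ha => (tsd_reg3 (by simp [reg]) ha).2.1
    have z3 : pre cTau w e = wt cTau w := by
      rw [he]
      exact (pre_tot_of_reg h hkm fun a ha => (tsd_reg5 (by simp [reg]) ha).1).2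
    have z4 : pre cTh w e = wt cTh w := by
      rw [he]
      exact (pre_tot_of_reg h hkm fun a ha => (tsd_reg5 (by simp [reg]) ha).2).2
    linarith
  -- count at the other lookup
  have hcq' : ∀ {c : Lt} {q' : ℕ}, reg c = 3 → w[q']? = some c → pre wTS w (s + 1) = pre wTS w q' →
      pre cTau w q' = wt cTau w + n - wt cTh w := by
    intro c q' hc hq' hw'
    obtain ⟨a0, ha0, ha0'⟩ := hs
    have hs' : w[s]? = some sg := by rw [ha0, ha0']
    have e1 := pre_wTS w q'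
    have e2 := pre_wTS w (s + 1)
    have z1 : pre cSg w q' = 0 := pre_zero_of_reg h hq' fun a ha => (tsd_reg3 hc.le ha).2.2
    have z2 : pre cTh w q' = 0 := pre_zero_of_reg h hq' fun a ha => (tsd_reg3 hc.le ha).2.1
    have z3 : pre cTau w (s + 1) = wt cTau w :=
      (pre_tot_of_reg h hs' fun a ha => (tsd_reg5 (by simp [reg]) ha).1).2
    have z4 : pre cTh w (s + 1) = wt cTh w :=
      (pre_tot_of_reg h hs' fun a ha => (tsd_reg5 (by simp [reg]) ha).2).2
    linarith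
  refine ⟨Z - Lo Z x, hx0, hLx0, s, hs, hsn, ?_⟩
  rcases at_union.1 (hOK _ hx0 s hs A) with h2 | h2
  · exact h2
  · exfalso
    rcases at_union.1 h2 with h3 | h3
    · obtain ⟨q', k', hq', hqb', -, -, hw'⟩ := tsd_split h3
      obtain ⟨-, t', j', k'', hLo', hk'', ht', hadr'⟩ := lkA_sound h hq'
      rw [hLx0, hLo] at hLo'
      obtain ⟨rfl, rfl⟩ := tsd_div hk hk'' hLo'
      have hc' := hcq' rfl hqb' hw'
      have := adr_uniq ht ht' hadr hadr' (by rw [hcq, hc'])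
      subst this
      rw [hqb] at hqb'
      simp at hqb'
    · obtain ⟨q', k', hq', hqb', -, -, hw'⟩ := tsd_split h3
      obtain ⟨-, t', j', k'', hLo', hk'', ht', hadr'⟩ := lkE_sound h hq'
      rw [hLx0, hLo] at hLo'
      obtain ⟨rfl, rfl⟩ := tsd_div hk hk'' hLo'
      have hc' := hcq' rfl hqb' hw'
      exact adr_not_em ht ht' hadr hadr' (by rw [hcq, hc']) ⟨_, hqb', rfl⟩

end Pool.Agent.H29.CJ

end S_TSd

section S_StS

/-!
# Soundness of the start claims

Use only the STATEMENTS of the imported files.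

`MSound w Z G m`: all main claims of value `m` are true.
Given `At w (Sta G A) x e`, `x < Z`, `n = #sg(e)`, `m = Z (n-1) + Lo Z x`.  In all cases `e - 1` carries `sg` (so `n ≥ 1`, `n ≤ wt cSg w` by
`pre_le_wt`).  As `x < Z`: `x / Z = 0`, `x + Lo Z x = Z` (`add_Lo`), so `m + x = Z n`.
* base: `G.base A`, `x` carries a `z` letter, then non-`sg` letters, then `sg` at `e - 1`.  `Z ∣ x + 1`, so `Lo Z x = 1`;
  no `sg` before `x` (left region) nor up to `e - 1`, so `n = 1`, `m = 1`; `G.Tiff`.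
* rule `ρ`: by `G.Tiff` it suffices to find for each `p ∈ ρ` the numbers `m₁, m₂`.  Cases of `StStep`:
 - `cat (UL G p.2) (Gam G p.1)`: `y` with `At w (UL G p.2) x y`: all letters of `[x, y)` left, `G.T p.2 (y - x)` (`length_seg`), so `y > x`
   (`G.T0`).  `Gam`: `q` with `At w RJ1 y q`, `At w (main p.1) y e₁`, `At w RJ2 e₁ q`, then non-`sg` letters and `sg` at `e - 1`.
   `main_shape`: `y < ln`, `mu` at `e₁ - 1`.  `q - 1` carries `io` or `ib` (region 7).
   `FS.csg` at `e - 1`: `wZN(e) = 0`, `wMT(e) = 1`.  By `pre_tot_of_reg` applied at `q - 1` and `e - 1` (regions 7): `wZN(q) = wZN(e) = 0`,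
   `wMT(q) = 1`.  `wZN(y) = y / Z` (`pre_wZN`, `pre_cZ`, `cNu` vanishes on left letters: `pre_left`), `wI(y) = 0` (`pre_left`).
   `RJ1`: `wZN(q) + wI(q) - wZN(y) - wI(y) = 0`, so `wI(q) = y / Z`.
   At `e₁` (letter `mu`, region 5, at `e₁ - 1`): `cTp = cSg = wI = 0` (`pre_zero_of_reg` at `e₁ - 1` and `pre_succ`), so
   `wJ2(e₁) = #mu(e₁)`.  `RJ2`: `1 + #sg(q) - wI(q) - #mu(e₁) = 0`.  `#sg(e) = #sg(q) + 1 = n`.  So `#mu(e₁) = n - y/Z`.
   `#mu(e₁) ≥ 1`.  Value of the main claim `(y, e₁)`: `m₁ = Z (n - y/Z - 1) + Lo Z y`, and `y + Lo Z y = Z (y/Z + 1)`, so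
   `m₁ + y = Z n`, `m₁ = m - (y - x) < m`.  `IH` gives `G.T p.1 m₁`; `m₁ + (y - x) = m`.
 - the symmetric case.
 - `cat (Lg p.1 p.2 ∪ Lg p.2 p.1) RJ3`: `Lg_sound` at `(x, e₁)`: `mu` at `e₁ - 1`, `n' = #mu(e₁)`; `RJ3`: `sg` at `e - 1`,
   `wMT(e) + #sg(e) - #mu(e₁) = 1` (`cTp = cSg = 0` at `e₁`), so `n' = n`.  The two values are `≥ 1` (`Lo_pos`), so `< m`; apply
   `IH` to both; `nb, nc ≤ n ≤ wt cSg w`.
-/

set_option autoImplicit false

namespace Pool.Agent.H29.CJ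

open Lt

variable {K : ℕ} (G : USys K) {w : List Lt} {Z b1 b2 ln : ℕ}

/-- all main claims of value `m` are true -/
def MSound (w : List Lt) (Z : ℕ) (G : USys K) (m : ℕ) : Prop :=
  ∀ (A : Fin K) (x e n : ℕ), At w (Sl G (.main A)) x e → pre cMu w e = n → 1 ≤ n →
    (n : ℤ) ≤ wt cSg w → Z * (n - 1) + Lo Z x = m → G.T A m

/-- a word of `cat L (LC P)` ends with a `P` letter -/
private theorem sts_end {L : Set (List Lt)} {P : Lt → Prop} {x e : ℕ}
    (hA : At w (cat L (LC P)) x e) : ∃ s, e = s + 1 ∧ At w L x s ∧ Is w s P := by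
  obtain ⟨k, h1, h2⟩ := at_cat.1 hA
  obtain ⟨rfl, h3⟩ := at_LC.1 h2
  exact ⟨k, rfl, h1, h3⟩

private theorem sts_end' {L : Set (List Lt)} {P : Lt → Prop} {x e : ℕ}
    (hA : At w (cat L (LC P)) x e) : 0 < e ∧ Is w (e - 1) P := by
  obtain ⟨s, rfl, _, h⟩ := sts_end hA
  exact ⟨Nat.succ_pos s, h⟩

private theorem sts_gam_end {B : Fin K} {x e : ℕ} (hA : At w (Gam G B) x e) :
    0 < e ∧ Is w (e - 1) (· = sg) := by
  obtain ⟨k, _, h2⟩ := at_cat.1 hA
  exact sts_end' h2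

private theorem sts_step_end {p : Fin K × Fin K} {x e : ℕ} (hA : At w (StStep G p) x e) :
    0 < e ∧ Is w (e - 1) (· = sg) := by
  rcases at_union.1 hA with h1 | h1
  · rcases at_union.1 h1 with h2 | h2
    · obtain ⟨k, _, h3⟩ := at_cat.1 h2
      exact sts_gam_end G h3
    · obtain ⟨k, _, h3⟩ := at_cat.1 h2
      exact sts_gam_end G h3
  · obtain ⟨k, _, h3⟩ := at_cat.1 h1
    exact sts_end' (at_inter.1 h3).1

/-- the facts about an end `s + 1` of a start claim -/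
private theorem sts_Zle (h : FS w Z b1 b2 ln) : Z ≤ ln := Nat.le_of_dvd h.lnpos h.Zln

private theorem sts_nonneg {f : Lt → ℤ} (hf : ∀ a, 0 ≤ f a) (i : ℕ) : 0 ≤ pre f w i := by
  have := pre_mono (w := w) hf (Nat.zero_le i)
  rw [pre_zero] at this
  exact this

private theorem sts_cSg_nonneg : ∀ a, 0 ≤ cSg a := by
  intro a; cases a <;> simp [cSg]

private theorem sts_cMu_nonneg : ∀ a, 0 ≤ cMu a := by
  intro a; cases a <;> simp [cMu]

private theorem sts_succ_of_is {f : Lt → ℤ} {c : Lt} {s : ℕ} (hs : Is w s (· = c)) :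
    pre f w (s + 1) = pre f w s + f c := by
  obtain ⟨a, ha, rfl⟩ := hs
  exact pre_succ ha

/-- counts of `sg` after a stretch without `sg` letters followed by `sg` -/
private theorem sts_cnt {q s : ℕ} (h1 : At w (ST (· ≠ sg)) q s) (hs : Is w s (· = sg)) :
    pre cSg w (s + 1) = pre cSg w q + 1 := by
  obtain ⟨h2, h3, h4⟩ := at_ST.1 h1
  rw [sts_succ_of_is hs]
  have : pre cSg w s = pre cSg w q := by
    refine pre_eq_of_zero h2 h3 (fun t ht1 ht2 => (h4 t ht1 ht2).mono ?_)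
    intro a ha
    cases a <;> simp_all [cSg]
  rw [this]
  simp [cSg]

/-- counts at the end of a main claim (position after a `mu` letter) -/
private theorem sts_mu (h : FS w Z b1 b2 ln) {e₁ : ℕ} (he : 0 < e₁) (hmu : Is w (e₁ - 1) (· = mu)) :
    pre cTp w e₁ = 0 ∧ pre cSg w e₁ = 0 ∧ pre wI w e₁ = 0 ∧ 1 ≤ pre cMu w e₁ := by
  obtain ⟨t, rfl⟩ : ∃ t, e₁ = t + 1 := ⟨e₁ - 1, by omega⟩
  have hmu' : Is w t (· = mu) := hmu
  have hmu2 : w[t]? = some mu := by
    obtain ⟨a, ha, rfl⟩ := hmu'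
    exact ha
  refine ⟨?_, ?_, ?_, ?_⟩
  · rw [sts_succ_of_is hmu', pre_zero_of_reg h hmu2]
    · simp [cTp]
    · intro a ha
      cases a <;> simp_all [reg, cTp]
  · rw [sts_succ_of_is hmu', pre_zero_of_reg h hmu2]
    · simp [cSg]
    · intro a ha
      cases a <;> simp_all [reg, cSg]
  · rw [sts_succ_of_is hmu', pre_zero_of_reg h hmu2]
    · simp [wI]
    · intro a ha
      cases a <;> simp_all [reg, wI]
  · rw [sts_succ_of_is hmu']
    have := sts_nonneg (w := w) sts_cMu_nonneg t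
    simp only [cMu]
    omega

/-- the small step -/
private theorem sts_gam (h : FS w Z b1 b2 ln) {m : ℕ} (IH : ∀ m' < m, MSound w Z G m')
    {B C : Fin K} {x e n : ℕ} (hA : At w (cat (UL G C) (Gam G B)) x e) (hx : x < Z)
    (hn : pre cSg w e = n) (hm : Z * (n - 1) + Lo Z x = m) :
    ∃ m₁ m₂, m₁ + m₂ = m ∧ G.T B m₁ ∧ G.T C m₂ := by
  obtain ⟨y, hU, hG⟩ := at_cat.1 hA
  have hUT : G.T C (y - x) := by
    have h1 := hU.2.2.2
    rw [length_seg hU.1 hU.2.1] at h1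
    exact h1
  have hxy : x < y := by
    have h1 := hU.1
    rcases Nat.lt_or_ge x y with h2 | h2
    · exact h2
    · exfalso
      have h3 : y - x = 0 := by omega
      rw [h3] at hUT
      exact G.T0 C hUT
  obtain ⟨q, hq, hqe⟩ := at_cat.1 hG
  obtain ⟨hJ1, hq2⟩ := at_inter.1 hq
  obtain ⟨e₁, hM, hJ2⟩ := at_cat.1 hq2
  obtain ⟨hyl, hye, hmu⟩ := main_shape G h hM
  obtain ⟨hJ2a, hJ2b⟩ := at_inter.1 hJ2
  obtain ⟨q', rfl, _, hio⟩ := sts_end hJ2a
  obtain ⟨s, rfl, hST, hsg⟩ := sts_end hqe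
  have hJ1w := (at_WT.1 hJ1).2.2
  have hJ2w := (at_WT.1 hJ2b).2.2
  obtain ⟨_, c1, c2⟩ := h.csg s hsg
  have hsg2 : w[s]? = some sg := by
    obtain ⟨a, ha, rfl⟩ := hsg
    exact ha
  obtain ⟨c, hc, hcio⟩ := hio
  have hregc : reg c = 7 := by
    rcases hcio with rfl | rfl <;> rfl
  have f1 : ∀ a, 7 ≤ reg a → wZN a = 0 := by
    intro a ha
    cases a <;> simp_all [reg, wZN]
  have f2 : ∀ a, 7 ≤ reg a → wMT a = 0 := by
    intro a ha
    cases a <;> simp_all [reg, wMT]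
  have g1 : pre wZN w (q' + 1) = 0 := by
    rw [(pre_tot_of_reg h hc (f := wZN) (by rw [hregc]; exact f1)).2,
      ← (pre_tot_of_reg h hsg2 (f := wZN) f1).2]
    exact c1
  have g2 : pre wMT w (q' + 1) = 1 := by
    rw [(pre_tot_of_reg h hc (f := wMT) (by rw [hregc]; exact f2)).2,
      ← (pre_tot_of_reg h hsg2 (f := wMT) f2).2]
    exact c2
  have g3 : pre wZN w y = ((y / Z : ℕ) : ℤ) := by
    rw [pre_wZN, pre_cZ h hyl.le, pre_left h hyl.le (f := cNu)]
    · simp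
    · rintro a ⟨z, t, g, rfl⟩
      rfl
  have g4 : pre wI w y = 0 := by
    refine pre_left h hyl.le ?_
    rintro a ⟨z, t, g, rfl⟩
    rfl
  rw [pre_wJ1, pre_wJ1, g1, g3, g4] at hJ1w
  obtain ⟨k1, k2, k3, k4⟩ := sts_mu h (by omega) hmu
  rw [pre_wJ2, pre_wJ2, g2, pre_wMT w e₁, k1, k2, k3] at hJ2w
  have k5 := sts_cnt hST hsg
  rw [hn] at k5
  have k6 : pre cMu w e₁ = (n : ℤ) - ((y / Z : ℕ) : ℤ) := by linarith
  have k7 : y / Z + 1 ≤ n := by
    have : ((y / Z : ℕ) : ℤ) + 1 ≤ n := by linarith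
    exact_mod_cast this
  have k8 : (n : ℤ) ≤ wt cSg w := by
    rw [← hn]
    exact pre_le_wt sts_cSg_nonneg w _
  have hl1 := add_Lo h.Zpos x
  have hl2 := add_Lo h.Zpos y
  rw [Nat.div_eq_of_lt hx] at hl1
  obtain ⟨d, hd⟩ := Nat.exists_eq_add_of_le k7
  have e1 : n - y / Z - 1 = d := by
    rw [hd]
    generalize y / Z = t
    omega
  have e2 : n - 1 = y / Z + d := by
    rw [hd]
    generalize y / Z = t
    omega
  have key : Z * (n - y / Z - 1) + Lo Z y + (y - x) = m := by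
    rw [← hm, e1, e2]
    have h3 : Z * (y / Z + d) = Z * (y / Z) + Z * d := by ring
    have h4 : Z * (y / Z + 1) = Z * (y / Z) + Z := by ring
    omega
  refine ⟨_, _, key, ?_, hUT⟩
  have hlt : Z * (n - y / Z - 1) + Lo Z y < m := by
    generalize Z * (n - y / Z - 1) + Lo Z y = v at key
    omega
  refine IH _ hlt B y e₁ (n - y / Z) hM ?_ (by omega) ?_ rfl
  · rw [k6]
    push_cast [Nat.cast_sub (show y / Z ≤ n by omega)]
    rfl
  · have : ((n - y / Z : ℕ) : ℤ) ≤ n := by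
      exact_mod_cast Nat.sub_le n (y / Z)
    exact this.trans k8

/-- the large step -/
private theorem sts_lg (h : FS w Z b1 b2 ln) {m : ℕ} (IH : ∀ m' < m, MSound w Z G m')
    {B C : Fin K} {x e₁ e n : ℕ} (hA : At w (Lg (Sl G) B C) x e₁) (hJ : At w RJ3 e₁ e)
    (hn : pre cSg w e = n) (hm : Z * (n - 1) + Lo Z x = m) :
    ∃ m₁ m₂, m₁ + m₂ = m ∧ G.T B m₁ ∧ G.T C m₂ := by
  obtain ⟨xb, eb, xc, ec, nb, nc, n', hB, hC, hnb, hnc, hn', hb1, hb2, hc1, hc2, he, hmu, hv⟩ :=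
    Lg_sound G h hA
  obtain ⟨hJa, hJb⟩ := at_inter.1 hJ
  obtain ⟨s, rfl, _, hsg⟩ := sts_end hJa
  have hJw := (at_WT.1 hJb).2.2
  obtain ⟨_, c1, c2⟩ := h.csg s hsg
  obtain ⟨k1, k2, k3, k4⟩ := sts_mu h he hmu
  rw [pre_wJ3, pre_wJ3, c2, hn, pre_wMT w e₁, k1, k2, hn'] at hJw
  have hnn : n' = n := by
    have : (n' : ℤ) = n := by linarith
    exact_mod_cast this
  subst hnn
  have k8 : (n' : ℤ) ≤ wt cSg w := by
    rw [← hn]
    exact pre_le_wt sts_cSg_nonneg w _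
  have l1 := Lo_pos h.Zpos xb
  have l2 := Lo_pos h.Zpos xc
  refine ⟨_, _, hv.trans hm, ?_, ?_⟩
  · refine IH _ (by omega) B xb eb nb hB hnb hb1 ?_ rfl
    have : (nb : ℤ) ≤ n' := by exact_mod_cast hb2
    exact this.trans k8
  · refine IH _ (by omega) C xc ec nc hC hnc hc1 ?_ rfl
    have : (nc : ℤ) ≤ n' := by exact_mod_cast hc2
    exact this.trans k8

theorem sta_sound (h : FS w Z b1 b2 ln) {m : ℕ} (IH : ∀ m' < m, MSound w Z G m')
    {A : Fin K} {x e n : ℕ} (hA : At w (Sta G A) x e) (hx : x < Z) (hn : pre cSg w e = n)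
    (hm : Z * (n - 1) + Lo Z x = m) : G.T A m := by
  have hxl : x < ln := lt_of_lt_of_le hx (sts_Zle h)
  rcases at_union.1 hA with h1 | h1
  · obtain ⟨hb, h2⟩ := (at_ite _ _).1 h1
    obtain ⟨k, h3, h4⟩ := at_cat.1 h2
    obtain ⟨rfl, h5⟩ := at_LC.1 h3
    obtain ⟨s, rfl, h6, h7⟩ := sts_end h4
    have h8 := (isZ_iff_Lo h hxl).1 h5
    have h9 := sts_cnt h6 h7
    have h10 : pre cSg w (x + 1) = 0 := by
      refine pre_left h (by omega) ?_
      rintro a ⟨z, t, g, rfl⟩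
      rfl
    rw [hn, h10] at h9
    have h11 : n = 1 := by
      have : (n : ℤ) = 1 := by linarith
      exact_mod_cast this
    subst h11
    have h12 : m = 1 := by
      rw [← hm, h8]
      simp
    exact (G.Tiff A m).2 (Or.inl ⟨h12, hb⟩)
  · obtain ⟨h2, h3, ρ, hρ, h4⟩ := h1
    refine (G.Tiff A m).2 (Or.inr ⟨ρ, hρ, fun p hp => ?_⟩)
    have h5 : At w (StStep G p) x e := ⟨h2, h3, h4 p hp⟩
    rcases at_union.1 h5 with h6 | h6
    · rcases at_union.1 h6 with h7 | h7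
      · exact sts_gam G h IH h7 hx hn hm
      · obtain ⟨m₁, m₂, a1, a2, a3⟩ := sts_gam G h IH h7 hx hn hm
        exact ⟨m₂, m₁, by omega, a3, a2⟩
    · obtain ⟨e₁, h7, h8⟩ := at_cat.1 h6
      rcases at_union.1 h7 with h9 | h9
      · exact sts_lg G h IH h9 h8 hn hm
      · obtain ⟨m₁, m₂, a1, a2, a3⟩ := sts_lg G h IH h9 h8 hn hm
        exact ⟨m₂, m₁, by omega, a3, a2⟩

theorem sta_end (h : FS w Z b1 b2 ln) {A : Fin K} {x e : ℕ} (hA : At w (Sta G A) x e) :
    0 < e ∧ Is w (e - 1) (· = sg) := by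
  rcases at_union.1 hA with h1 | h1
  · obtain ⟨_, h2⟩ := (at_ite _ _).1 h1
    obtain ⟨k, h3, h4⟩ := at_cat.1 h2
    exact sts_end' h4
  · obtain ⟨h2, h3, ρ, hρ, h4⟩ := h1
    obtain ⟨p, hp⟩ := List.exists_mem_of_ne_nil ρ (G.ne A ρ hρ)
    exact sts_step_end G ⟨h2, h3, h4 p hp⟩

end Pool.Agent.H29.CJ

end S_StS

section S_MnS

/-!
# Soundness of the speed-up language

Use only the STATEMENTS of the imported files.

(1) `main_sound`: `MSound w Z G m` for all `m`, by strong induction.  `At w (main A) x e`, unfold by `sl_eq`.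
 `MainLk A`: `tab_sound` gives `x0, s`; `sta_sound` with the induction hypothesis (values `< m`) and the same value
 (`Lo Z x0 = Lo Z x`).  Rule `ρ`: by `G.Tiff` find `m₁, m₂` for each `p ∈ ρ`; `Step` cases:
 - `cat (UL G p.2 ∩ ST isNZ) (main p.1)`: `y` with `G.T p.2 (y - x)`, `y > x`, all letters of `[x, y)` are `nz`; `y < ln` (`main_shape`);
   no multiple of `Z` among `x + 1, ..., y` (`isNZ_iff`), so `y / Z = x / Z` and `Lo Z y + (y - x) = Lo Z x` (`add_Lo`).
   The main claim `(y, e)` has value `m - (y - x) < m`.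
 - symmetric; - `Lg p.1 p.2`, `Lg p.2 p.1`: `Lg_sound`, both values `≥ 1` so `< m`, counts `≤ n`.
(2) `WG_sound`: `fs_of_fmt` gives `Z ...`; `Z = p.length + 1`: position `p.length` is the first `z` letter (`isZ` at `i < ln` iff
 `Z ∣ i + 1`; position `Z - 1 < ln` is a `z` letter since `Z ∣ ln`, `0 < ln`; positions before `p.length` are `nz`).
 `hOK`: from `w ∈ AllSuf isNZ (AllPre sg ...)`: `at_full`, `at_AllSuf`, `at_AllPre`: for `x0 < Z` all positions below `x0` are `nz`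
 letters; then for an `sg` letter at `s` (`s ≥ ln > x0`, as `sg` is not left) `At w _ x0 (s+1)`; intersect over `A`.
 The whole word is in `Sta G 0` at `[0, w.length)`, `sta_end`: the last letter is `sg`.  `pre cSg w w.length = wt cSg w = w.count sg`
 (induction on the list).  `sta_sound` with `x = 0`, `Lo Z 0 = Z`, `n = w.count sg ≥ 1`: value `Z (n-1) + Z = Z n`.
-/

set_option autoImplicit false

namespace Pool.Agent.H29.CJ

open Lt

variable {w : List Lt} {Z b1 b2 ln : ℕ}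

theorem MnS_div {Z : ℕ} (hZ : 0 < Z) {x y : ℕ} (hxy : x ≤ y)
    (hno : ∀ t, x ≤ t → t < y → ¬ Z ∣ t + 1) : y / Z = x / Z := by
  have h1 : x / Z ≤ y / Z := Nat.div_le_div_right hxy
  by_contra hne
  have h2 : x / Z + 1 ≤ y / Z := by omega
  have h3 : Z * (x / Z + 1) ≤ y := by
    calc Z * (x / Z + 1) ≤ Z * (y / Z) := Nat.mul_le_mul_left _ h2
      _ ≤ y := Nat.mul_div_le y Z
  have h4 : x < Z * (x / Z + 1) := by
    have := Nat.lt_mul_div_succ x hZ
    exact this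
  have h5 : Z * (x / Z + 1) - 1 + 1 = Z * (x / Z + 1) := by omega
  refine hno (Z * (x / Z + 1) - 1) (by omega) (by omega) ?_
  rw [h5]
  exact Dvd.intro _ rfl

theorem MnS_nz {K : ℕ} (G : USys K) (h : FS w Z b1 b2 ln) {A B : Fin K} {x e m n : ℕ}
    (IH : ∀ m' < m, MSound w Z G m')
    (hA : At w (cat (UL G B ∩ ST isNZ) (Sl G (.main A))) x e) (hn : pre cMu w e = n)
    (h1 : 1 ≤ n) (hle : (n : ℤ) ≤ wt cSg w) (hm : Z * (n - 1) + Lo Z x = m) :
    ∃ m1 m2, m1 + m2 = m ∧ G.T A m1 ∧ G.T B m2 := by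
  obtain ⟨y, hxy, hye⟩ := at_cat.1 hA
  obtain ⟨hU, hS⟩ := at_inter.1 hxy
  have hle1 : x ≤ y := hU.1
  have hle2 : y ≤ w.length := hU.2.1
  have hT : G.T B (y - x) := by
    have := hU.2.2.2
    rwa [length_seg hle1 hle2] at this
  have hlt : 0 < y - x := by
    rcases Nat.eq_zero_or_pos (y - x) with h0 | h0
    · rw [h0] at hT
      exact absurd hT (G.T0 B)
    · exact h0
  obtain ⟨-, -, hS3⟩ := at_ST.1 hS
  have hyl : y < ln := (main_shape G h hye).1
  have hdiv : y / Z = x / Z := MnS_div h.Zpos hle1 (fun t h1 h2 =>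
    (isNZ_iff h (by omega)).1 (hS3 t h1 h2))
  have e1 := add_Lo h.Zpos x
  have e2 := add_Lo h.Zpos y
  rw [hdiv, ← e1] at e2
  have hlt2 : Z * (n - 1) + Lo Z y < m := by omega
  have hT1 := IH _ hlt2 A y e n hye hn h1 hle rfl
  exact ⟨Z * (n - 1) + Lo Z y, y - x, by omega, hT1, hT⟩

theorem MnS_lg {K : ℕ} (G : USys K) (h : FS w Z b1 b2 ln) {B C : Fin K} {x e m n : ℕ}
    (IH : ∀ m' < m, MSound w Z G m')
    (hA : At w (Lg (Sl G) B C) x e) (hn : pre cMu w e = n)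
    (hle : (n : ℤ) ≤ wt cSg w) (hm : Z * (n - 1) + Lo Z x = m) :
    ∃ m1 m2, m1 + m2 = m ∧ G.T B m1 ∧ G.T C m2 := by
  obtain ⟨xb, eb, xc, ec, nb, nc, n', hb, hc, hnb, hnc, hn', hb1, hb2, hc1, hc2, -, -, hval⟩ :=
    Lg_sound G h hA
  have hnn : n' = n := by
    have : (n' : ℤ) = n := by rw [← hn', ← hn]
    exact_mod_cast this
  subst hnn
  have p1 := Lo_pos h.Zpos xb
  have p2 := Lo_pos h.Zpos xc
  have hT1 := IH (Z * (nb - 1) + Lo Z xb) (by omega) B xb eb nb hb hnb hb1 (by omega) rfl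
  have hT2 := IH (Z * (nc - 1) + Lo Z xc) (by omega) C xc ec nc hc hnc hc1 (by omega) rfl
  exact ⟨_, _, by omega, hT1, hT2⟩

theorem main_sound {K : ℕ} (G : USys K) (h : FS w Z b1 b2 ln)
    (hOK : ∀ x0 < Z, ∀ s, Is w s (· = sg) → ∀ A, At w (OK G A) x0 (s + 1)) (m : ℕ) :
    MSound w Z G m := by
  induction m using Nat.strong_induction_on with
  | _ m IH =>
  intro A x e n hA hn h1 hle hm
  rw [sl_eq] at hA
  rcases at_union.1 hA with hM | hR
  · obtain ⟨x0, hx0, hLo, s, hs, hs2, hSt⟩ := tab_sound G h hOK hM hn h1 hle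
    exact sta_sound G h IH hSt hx0 hs2 (by rw [hLo]; exact hm)
  · obtain ⟨ρ, hρ, hR1⟩ := (at_exL (G.rules A)
      (fun ρ => {u | ∀ p ∈ ρ, u ∈ Step G (Sl G) p})).1 hR
    obtain ⟨-, -, hR2⟩ := (at_allL ρ (fun p => Step G (Sl G) p)).1 hR1
    refine (G.Tiff A m).2 (Or.inr ⟨ρ, hρ, fun p hp => ?_⟩)
    rcases at_union.1 (hR2 p hp) with h2 | h2
    · rcases at_union.1 h2 with h3 | h3
      · exact MnS_nz G h IH h3 hn h1 hle hm
      · obtain ⟨m1, m2, e1, e2, e3⟩ := MnS_nz G h IH h3 hn h1 hle hm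
        exact ⟨m2, m1, by omega, e3, e2⟩
    · rcases at_union.1 h2 with h3 | h3
      · exact MnS_lg G h IH h3 hn hle hm
      · obtain ⟨m1, m2, e1, e2, e3⟩ := MnS_lg G h IH h3 hn hle hm
        exact ⟨m2, m1, by omega, e3, e2⟩

theorem MnS_wt (u : List Lt) : wt cSg u = (u.count Lt.sg : ℤ) := by
  induction u with
  | nil => simp [wt]
  | cons a u ih =>
    unfold wt at ih ⊢
    rw [List.map_cons, List.sum_cons, ih, List.count_cons]
    by_cases ha : a = Lt.sg
    · subst ha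
      simp [cSg]
      ring
    · have h1 : cSg a = 0 := by
        cases a <;> first | rfl | exact absurd rfl ha
      simp [h1, ha]

theorem WG_sound {k : ℕ} (G : USys (k + 1)) {w : List Lt} (hw : w ∈ WG G) {p q : List Lt}
    {x : Lt} (hpx : w = p ++ x :: q) (hp : ∀ b ∈ p, isNZ b) (hx : isZ x) :
    G.T 0 ((p.length + 1) * w.count Lt.sg) := by
  obtain ⟨hF, hSuf, hSta⟩ := hw
  obtain ⟨Z, b1, b2, ln, h⟩ := fs_of_fmt hF
  have hx1 : w[p.length]? = some x := by
    rw [hpx]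
    simp
  have hxl : isLeft x := by
    obtain ⟨t, g, e⟩ := hx
    exact ⟨true, t, g, e⟩
  have hpl : p.length < ln := lt_ln h ⟨x, hx1, hxl⟩
  have hd : Z ∣ p.length + 1 := (h.hz _ hpl).1 ⟨x, hx1, hx⟩
  have hpn : ∀ i, i < p.length → ¬ Z ∣ i + 1 := by
    intro i hi
    refine (isNZ_iff h (by omega)).1 ⟨p[i], ?_, hp _ (List.getElem_mem hi)⟩
    rw [hpx, List.getElem?_append_left hi, List.getElem?_eq_getElem hi]
  have hZ : Z = p.length + 1 := by
    have h1 : Z ≤ p.length + 1 := Nat.le_of_dvd (Nat.succ_pos _) hd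
    rcases Nat.lt_or_ge Z (p.length + 1) with h2 | h2
    · have h3 := h.Zpos
      exfalso
      refine hpn (Z - 1) (by omega) ?_
      rw [Nat.sub_add_cancel h3]
    · omega
  have hZl : Z ≤ ln := Nat.le_of_dvd h.lnpos h.Zln
  have hlnw := h.lnle
  have hOK : ∀ x0 < Z, ∀ s, Is w s (· = sg) → ∀ A, At w (OK G A) x0 (s + 1) := by
    intro x0 hx0 s hs A
    have h1 := (at_AllSuf.1 (at_full.2 hSuf)).2.2 x0 (Nat.zero_le _) (by omega) (by
      intro t _ ht
      refine (isNZ_iff h (by omega)).2 (fun hdt => ?_)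
      have := Nat.le_of_dvd (Nat.succ_pos _) hdt
      omega)
    have hsl : ln ≤ s := by
      by_contra hcon
      push Not at hcon
      obtain ⟨b, hb, z, t, g, hb2⟩ := h.left s hcon
      obtain ⟨c, hc, hc2⟩ := hs
      rw [hb] at hc
      have hc3 : c = sg := hc2
      have : b = c := Option.some.inj hc
      rw [hb2, hc3] at this
      cases this
    have h2 := (at_AllPre.1 h1).2.2 s (by omega) hs.lt hs
    exact ⟨h2.1, h2.2.1, h2.2.2 A⟩
  have hS : At w (Sta G 0) 0 w.length := at_full.2 hSta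
  obtain ⟨hw0, hlast⟩ := sta_end G h hS
  have hcnt : pre cSg w w.length = (w.count Lt.sg : ℤ) := by
    unfold pre
    rw [List.take_length, MnS_wt]
  have hpos : 1 ≤ w.count Lt.sg := by
    obtain ⟨b, hb, hb2⟩ := hlast
    have hb3 : b = Lt.sg := hb2
    subst hb3
    exact List.count_pos_iff.2 (List.mem_of_getElem? hb)
  have hfin := sta_sound G h (m := Z * w.count Lt.sg) (fun m' _ => main_sound G h hOK m') hS h.Zpos
    hcnt (by
      have e1 : Lo Z 0 = Z := by simp [Lo]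
      rw [e1]
      obtain ⟨c, hc⟩ : ∃ c, w.count Lt.sg = c + 1 := ⟨w.count Lt.sg - 1, by omega⟩
      rw [hc, Nat.add_sub_cancel]
      ring)
  rw [← hZ]
  exact hfin

end Pool.Agent.H29.CJ

end S_MnS
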