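import Mathlib
import Pool.Agent.H29.CL.M3

/-! Conjunctive languages and homomorphisms, part M5: this file joins several modules to save build time. -/

section S_CpD

/-!
# The speed-up language: the certificate word and its interface

`Prm K` collects the parameters of a certificate, `word P` is the certificate, `Mdl P w` lists the facts about
positions in `w` used by the completeness proof (they hold for `w = word P`).
-/

set_option autoImplicit false

namespace Pool.Agent.H29.CJ

open Lt Classical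

/-- Parameters: block length `Z`, number of tables `B`, group lengths `b1`, `b2`, number of left blocks `Nz`,
filler `F`, truth table `TT`, nonempty records `Cm g j` of the tables and `Mn i j` of the menus. -/
structure Prm (K : ℕ) where
  Z : ℕ
  B : ℕ
  b1 : ℕ
  b2 : ℕ
  Nz : ℕ
  F : ℕ
  TT : Fin K → ℕ → Prop
  Cm : ℕ → ℕ → Prop
  Mn : ℕ → ℕ → Prop

/-- Arithmetic conditions on the parameters. -/
structure Prm.Good {K : ℕ} (P : Prm K) : Prop where
  Zpos : 0 < P.Z
  Bpos : 0 < P.B
  b1pos : 0 < P.b1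
  b1Z : P.b1 ∣ P.Z
  b2pos : 0 < P.b2
  b2Z : 2 * P.b2 ∣ P.Z
  Nzpos : 0 < P.Nz

noncomputable section

variable {K : ℕ} (P : Prm K)

/-- left letter number `i` -/
def lefL (i : ℕ) : Lt := a (decide (P.Z ∣ i + 1)) (decide (P.b1 ∣ i + 1)) (decide (P.b2 ∣ i + 1))

def leftW : List Lt := (List.range (P.Nz * P.Z)).map (lefL P)

def rowW (m : ℕ) : List Lt := row :: (List.finRange K).map (fun A => bit (decide (P.TT A m)))

def recW (g j : ℕ) : List Lt :=
  if P.Cm g j then br :: (List.range P.b1).flatMap (fun k => rowW P (P.Z * g + P.b1 * j + k + 1))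
  else [emp]

def tabW (g : ℕ) : List Lt := tau :: (List.range (P.Z / P.b1)).flatMap (recW P g)

def cenW : List Lt := (List.range P.B).flatMap (tabW P)

def mrecW (i j : ℕ) : List Lt :=
  if P.Mn i j then pp :: List.replicate (2 * P.b2) rr else [ee]

def grpW (i : ℕ) : List Lt := cc :: (List.range (P.Z / (2 * P.b2))).flatMap (mrecW P i)

def zoneW (g : ℕ) : List Lt :=
  List.replicate g ka ++ ((List.range g).flatMap (fun i => grpW P (i + 1)) ++
    (List.replicate g cb ++ (List.replicate g kb ++ [mu])))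

def mainW : List Lt := (List.range P.B).flatMap (zoneW P)

def szW : List Lt := List.replicate P.Nz io ++ (List.replicate P.Nz ib ++ [sg])

def stW : List Lt := (List.range P.B).flatMap (fun _ => szW P)

/-- the certificate -/
def word : List Lt :=
  leftW P ++ (List.replicate P.Nz nu ++ (List.replicate P.F fi ++ (cenW P ++
    (List.replicate P.B th ++ (mainW P ++ (List.replicate (P.B - 1) tp ++ stW P))))))

/-- position of the `tau` of table `g` -/
def oTab (g : ℕ) : ℕ := P.Nz * P.Z + P.Nz + P.F + ((List.range g).flatMap (tabW P)).length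
/-- start of record `j` of table `g` -/
def oRec (g j : ℕ) : ℕ := oTab P g + 1 + ((List.range j).flatMap (recW P g)).length
/-- start of row `k` of the (nonempty) record `j` of table `g` -/
def oRow (g j k : ℕ) : ℕ := oRec P g j + 1 + k * (K + 1)
/-- start of zone `g` of the main region -/
def oZone (g : ℕ) : ℕ := oTab P P.B + P.B + ((List.range g).flatMap (zoneW P)).length
/-- position just after the `mu` of zone `g` -/
def oMu (g : ℕ) : ℕ := oZone P (g + 1)
/-- position of the `cc` of group `i + 1` of zone `g` (`i < g`) -/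
def oGrp (g i : ℕ) : ℕ := oZone P g + g + ((List.range i).flatMap (fun i => grpW P (i + 1))).length
/-- start of menu record `j` of group `i + 1` of zone `g` -/
def oMr (g i j : ℕ) : ℕ := oGrp P g i + 1 + ((List.range j).flatMap (mrecW P (i + 1))).length
/-- start of start zone `g` -/
def oSz (g : ℕ) : ℕ := oZone P P.B + (P.B - 1) + g * (2 * P.Nz + 1)
/-- position just after the `sg` of start zone `g` -/
def oSg (g : ℕ) : ℕ := oSz P (g + 1)
/-- a position of start zone `g` with `#io - #ib = k` -/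
def oIo (g k : ℕ) : ℕ := oSz P g + (if k = 0 then 2 * P.Nz else k)

/-- Interface of the certificate word: the facts about the positions. -/
structure Mdl (w : List Lt) : Prop where
  left : ∀ i < P.Nz * P.Z, w[i]? = some (lefL P i)
  tau_at : ∀ g < P.B, 0 < oRec P g 0 ∧ Is w (oRec P g 0 - 1) (· = tau) ∧
    P.Nz * P.Z ≤ oRec P g 0 - 1
  rec_step : ∀ g < P.B, ∀ j < P.Z / P.b1, At w Rec (oRec P g j) (oRec P g (j + 1))
  rec_emp : ∀ g < P.B, ∀ j < P.Z / P.b1, ¬ P.Cm g j → Is w (oRec P g j) (· = emp)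
  rec_br : ∀ g < P.B, ∀ j < P.Z / P.b1, P.Cm g j → Is w (oRec P g j) (· = br)
  row_step : ∀ g < P.B, ∀ j < P.Z / P.b1, P.Cm g j → ∀ k < P.b1,
    At w Row (oRow P g j k) (oRow P g j (k + 1)) ∧ Is w (oRow P g j k) (· = row)
  row_bit : ∀ g < P.B, ∀ j < P.Z / P.b1, P.Cm g j → ∀ k < P.b1, ∀ A : Fin K,
    w[oRow P g j k + 1 + A]? = some (bit (decide (P.TT A (P.Z * g + P.b1 * j + k + 1))))
  row_le : ∀ g < P.B, ∀ j < P.Z / P.b1, P.Cm g j → ∀ k < P.b1, ∀ A : Fin K, ∀ g' < P.B,
    oRow P g j k + 1 + A < oMu P g' - 1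
  rec_le : ∀ g < P.B, ∀ j < P.Z / P.b1, ∀ g' < P.B, oRec P g j < oMu P g' - 1
  mu_at : ∀ g < P.B, 0 < oMu P g ∧ Is w (oMu P g - 1) (· = mu)
  mu_le : ∀ g i, g < P.B → i < P.B → i < g → ∀ i' < g, oMu P i ≤ oGrp P g i'
  grp_at : ∀ g < P.B, ∀ i < g, Is w (oGrp P g i) (· = cc) ∧ P.Nz * P.Z ≤ oGrp P g i
  mr_step : ∀ g < P.B, ∀ i < g, ∀ j < P.Z / (2 * P.b2),
    At w Rec' (oMr P g i j) (oMr P g i (j + 1))
  mr_pp : ∀ g < P.B, ∀ i < g, ∀ j < P.Z / (2 * P.b2), P.Mn (i + 1) j →
    Is w (oMr P g i j) (· = pp) ∧ (∀ k < 2 * P.b2, Is w (oMr P g i j + 1 + k) (· = rr)) ∧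
    oMr P g i j + 1 + 2 * P.b2 < oMu P g ∧
    (∀ t, oMr P g i j ≤ t → t < oMu P g - 1 → Is w t (· ≠ mu))
  mu_io : ∀ g < P.B, ∀ g' < P.B, ∀ k, oMu P g ≤ oIo P g' k
  io_at : ∀ g < P.B, ∀ k < P.Nz, 0 < oIo P g k ∧ Is w (oIo P g k - 1) isIO ∧
    oIo P g k ≤ oSg P g - 1 ∧ (∀ t, oIo P g k ≤ t → t < oSg P g - 1 → Is w t (· ≠ sg))
  sg_at : ∀ g < P.B, 0 < oSg P g ∧ Is w (oSg P g - 1) (· = sg)
  sg_only : ∀ s, Is w s (· = sg) → ∃ g < P.B, s = oSg P g - 1
  sg_first : ∀ t < oSg P 0 - 1, Is w t (· ≠ sg)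
  sg_last : oSg P (P.B - 1) = w.length
  -- weights
  TM_row : ∀ g < P.B, ∀ j < P.Z / P.b1, P.Cm g j → ∀ k < P.b1, ∀ A : Fin K,
    pre wTM w (oRow P g j k + 1 + A) = g + 1
  TS_row : ∀ g < P.B, ∀ j < P.Z / P.b1, P.Cm g j → ∀ k < P.b1, ∀ A : Fin K,
    pre wTS w (oRow P g j k + 1 + A) = g + 1
  TS_rec : ∀ g < P.B, ∀ j < P.Z / P.b1, pre wTS w (oRec P g j) = g + 1
  TM_mu : ∀ g < P.B, pre wTM w (oMu P g) = g + 1
  TS_sg : ∀ g < P.B, pre wTS w (oSg P g) = g + 1
  RI_mu : ∀ g < P.B, pre wRI w (oMu P g) = g + 1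
  RI_grp : ∀ g < P.B, ∀ i < g, pre wRI w (oMr P g i 0) = (g : ℤ) - (i + 1)
  RII_mu : ∀ g < P.B, pre wRII w (oMu P g) = g + 1
  RII_mr : ∀ g < P.B, ∀ i < g, ∀ j < P.Z / (2 * P.b2), P.Mn (i + 1) j → ∀ k < 2 * P.b2,
    pre wRII w (oMr P g i j + 1 + k) = i + 1
  J1_left : ∀ y ≤ P.Nz * P.Z, pre wJ1 w y = ((y / P.Z : ℕ) : ℤ)
  J1_io : ∀ g < P.B, ∀ k < P.Nz, pre wJ1 w (oIo P g k) = k
  J2_mu : ∀ g < P.B, pre wJ2 w (oMu P g) = g + 1
  J2_io : ∀ g < P.B, ∀ k < P.Nz, pre wJ2 w (oIo P g k) = 1 + (g : ℤ) - k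
  J3_mu : ∀ g < P.B, pre wJ3 w (oMu P g) = g + 1
  J3_sg : ∀ g < P.B, pre wJ3 w (oSg P g) = g + 2

/-- The record of a value is nonempty in the tables. -/
def CmV (m : ℕ) : Prop := P.Cm ((m - 1) / P.Z) ((m - 1) % P.Z / P.b1)

/-- The record of a value is nonempty in the menus. -/
def MnV (m : ℕ) : Prop := P.Mn ((m - 1) / P.Z) ((m - 1) % P.Z / (2 * P.b2))

/-- The selection conditions linking the grammar `G` and the parameters. -/
structure Sel (G : USys K) (Y LY : ℕ) : Prop where
  good : P.Good
  TTeq : ∀ A m, P.TT A m ↔ G.T A m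
  Y1 : 1 ≤ Y
  YLY : Y ≤ LY
  ZLY : P.Z < LY
  hY : ∀ m, 1 ≤ m → m ≤ P.Z * P.B → (m - 1) % P.Z + 1 ≤ Y → CmV P m
  hsel : ∀ p : Fin K × Fin K, ∀ m ≤ P.Z * P.B,
    (∃ b c, b + c = m ∧ G.T p.1 b ∧ G.T p.2 c) →
    (∃ b c, b + c = m ∧ G.T p.1 b ∧ G.T p.2 c ∧ (b < Y ∨ c < Y)) ∨
    (∃ b c, b + c = m ∧ G.T p.1 b ∧ G.T p.2 c ∧ LY ≤ b ∧ LY ≤ c ∧ (MnV P b ∨ MnV P c)) ∨
    (CmV P m ∧ ∃ b c, b + c = m ∧ G.T p.1 b ∧ G.T p.2 c ∧ (b < LY ∨ c < LY))
  hNz : LY / P.Z + P.Z * P.B / LY + 4 ≤ P.Nz

end

end Pool.Agent.H29.CJ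

end S_CpD

section S_FlM

/-!
# Positions in a `flatMap` over a range

Use only the STATEMENTS of `AtL`.

`List.range n = List.range j ++ j :: (the rest)` for `j < n` (`List.range_eq_append_iff`, or write
`n = j + (1 + t)` and use `List.range_add`, `List.range_succ`, `List.flatMap_append`).  Everything else is
`List.length_append`, `List.getElem?_append`, `pre_append`.
-/

set_option autoImplicit false

namespace Pool.Agent.H29.CJ

variable {β : Type}

theorem range_flatMap_le (f : ℕ → List β) {j n : ℕ} (h : j ≤ n) :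
    ∃ r : List β, (List.range n).flatMap f = (List.range j).flatMap f ++ r := by
  obtain ⟨t, rfl⟩ := Nat.exists_eq_add_of_le h
  rw [List.range_add, List.flatMap_append]
  exact ⟨_, rfl⟩

private theorem flm_succ (f : ℕ → List β) (j : ℕ) :
    (List.range (j + 1)).flatMap f = (List.range j).flatMap f ++ f j := by
  rw [List.range_succ, List.flatMap_append, List.flatMap_cons, List.flatMap_nil, List.append_nil]

theorem range_flatMap_split (f : ℕ → List β) {j n : ℕ} (h : j < n) :
    ∃ r : List β, (List.range n).flatMap f = (List.range j).flatMap f ++ (f j ++ r) := by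
  obtain ⟨r, hr⟩ := range_flatMap_le f (Nat.succ_le_of_lt h)
  refine ⟨r, ?_⟩
  rw [hr, Nat.succ_eq_add_one, flm_succ, List.append_assoc]

theorem length_flatMap_succ (f : ℕ → List β) (j : ℕ) :
    ((List.range (j + 1)).flatMap f).length = ((List.range j).flatMap f).length + (f j).length := by
  rw [flm_succ, List.length_append]

theorem length_flatMap_mono (f : ℕ → List β) {i j : ℕ} (h : i ≤ j) :
    ((List.range i).flatMap f).length ≤ ((List.range j).flatMap f).length := by
  obtain ⟨r, hr⟩ := range_flatMap_le f h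
  rw [hr, List.length_append]
  exact Nat.le_add_right _ _

/-- all pieces of the same length -/
theorem length_flatMap_const (f : ℕ → List β) {c n : ℕ} (h : ∀ j < n, (f j).length = c) :
    ((List.range n).flatMap f).length = n * c := by
  induction n with
  | zero => simp
  | succ n ih =>
    rw [length_flatMap_succ, ih (fun j hj => h j (Nat.lt_succ_of_lt hj)), h n (Nat.lt_succ_self n)]
    ring

/-- letter number `t` of piece `j` -/
theorem getElem?_flatMap (f : ℕ → List β) {j n t : ℕ} (h : j < n) (ht : t < (f j).length)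
    (u v : List β) :
    (u ++ ((List.range n).flatMap f ++ v))[u.length + ((List.range j).flatMap f).length + t]? =
      (f j)[t]? := by
  obtain ⟨r, hr⟩ := range_flatMap_split f h
  rw [hr, List.getElem?_append_right (by omega), List.append_assoc,
    List.getElem?_append_right (by omega), List.append_assoc]
  have e : u.length + ((List.range j).flatMap f).length + t - u.length
      - ((List.range j).flatMap f).length = t := by omega
  rw [e, List.getElem?_append_left ht]

/-- piece `j` as a segment -/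
theorem at_flatMap (f : ℕ → List β) {j n : ℕ} (h : j < n) (u v : List β) {L : Set (List β)}
    (hL : f j ∈ L) :
    At (u ++ ((List.range n).flatMap f ++ v)) L (u.length + ((List.range j).flatMap f).length)
      (u.length + ((List.range (j + 1)).flatMap f).length) := by
  obtain ⟨r, hr⟩ := range_flatMap_split f h
  have h1 := At.mk' (w := u ++ ((List.range n).flatMap f ++ v)) (L := L) (u := f j)
    (u ++ (List.range j).flatMap f) (r ++ v) (by rw [hr]; simp only [List.append_assoc]) hL
  rw [List.length_append] at h1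
  rw [length_flatMap_succ, ← Nat.add_assoc]
  exact h1

theorem wt_flatMap_const (g : β → ℤ) (f : ℕ → List β) {c : ℤ} {n : ℕ}
    (h : ∀ j < n, wt g (f j) = c) : wt g ((List.range n).flatMap f) = n * c := by
  induction n with
  | zero => simp [wt]
  | succ n ih =>
    rw [flm_succ, atl_wt_append, ih (fun j hj => h j (Nat.lt_succ_of_lt hj)),
      h n (Nat.lt_succ_self n)]
    push_cast
    ring

theorem wt_replicate (g : β → ℤ) (n : ℕ) (b : β) : wt g (List.replicate n b) = n * g b := by
  simp [wt]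

theorem wt_zero (g : β → ℤ) (u : List β) (h : ∀ b ∈ u, g b = 0) : wt g u = 0 := by
  unfold wt
  apply List.sum_eq_zero
  intro x hx
  obtain ⟨b, hb, rfl⟩ := List.mem_map.1 hx
  exact h b hb

/-- `pre` at a cut of the word -/
theorem pre_cut (g : β → ℤ) (u v : List β) {i : ℕ} (hi : i = u.length) :
    pre g (u ++ v) i = wt g u := by
  rw [hi]
  exact pre_append g u v

end Pool.Agent.H29.CJ

end S_FlM

section S_MdA

/-!
# Positions of the certificate word: left region and tables

Use only the STATEMENTS of the imported files (`FlM`, `AtL`).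

Write `word P = U ++ ((List.range B).flatMap (tabW P) ++ V)` with `U = leftW ++ nu^Nz ++ fi^F` (reassociate; `U.length =
Nz * Z + Nz + F`).  Table `g` starts at `oTab P g`; inside it, `tabW g = tau :: (flatMap recW)`: write
`word P = U' ++ ((List.range (Z/b1)).flatMap (recW P g) ++ V')` with `U'.length = oTab P g + 1` (use
`range_flatMap_split`), so record `j` starts at `oRec P g j`; in a nonempty record, after `br`, rows are the pieces of a
`flatMap` over `range b1`, all of length `K + 1` (`length_flatMap_const`), so row `k` starts at `oRow P g j k`, and bit `A`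
of it is at `oRow P g j k + 1 + A` (`List.getElem?_map`, `List.getElem?_finRange`).
`row_le`, `rec_le`: everything in table `g < B` is before `oTab P B`, and `oMu P g' - 1 ≥ oZone P g' ≥ oTab P B + B > oTab P B`
(zone `g'` is nonempty, its last letter is `mu`).
-/

set_option autoImplicit false

namespace Pool.Agent.H29.CJ

open Lt Classical

variable {K : ℕ} (P : Prm K)

/-- the part before the tables -/
private noncomputable def MdA_U : List Lt :=
  leftW P ++ (List.replicate P.Nz nu ++ List.replicate P.F fi)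

private noncomputable def MdA_V : List Lt :=
  List.replicate P.B th ++ (mainW P ++ (List.replicate (P.B - 1) tp ++ stW P))

private theorem MdA_word :
    word P = MdA_U P ++ ((List.range P.B).flatMap (tabW P) ++ MdA_V P) := by
  unfold word MdA_U MdA_V cenW
  simp only [List.append_assoc]

private theorem MdA_Ulen : (MdA_U P).length = P.Nz * P.Z + P.Nz + P.F := by
  unfold MdA_U leftW
  simp only [List.length_append, List.length_map, List.length_range, List.length_replicate]
  omega

private theorem MdA_tab {g : ℕ} (hg : g < P.B) :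
    ∃ p q, word P = p ++ (tabW P g ++ q) ∧ p.length = oTab P g := by
  obtain ⟨r, hr⟩ := range_flatMap_split (tabW P) hg
  refine ⟨MdA_U P ++ (List.range g).flatMap (tabW P), r ++ MdA_V P, ?_, ?_⟩
  · rw [MdA_word, hr]
    simp only [List.append_assoc]
  · rw [List.length_append, MdA_Ulen]
    rfl

private theorem MdA_rec {g j : ℕ} (hg : g < P.B) (hj : j < P.Z / P.b1) :
    ∃ p q, word P = p ++ (recW P g j ++ q) ∧ p.length = oRec P g j := by
  obtain ⟨p, q, h1, h2⟩ := MdA_tab P hg
  obtain ⟨r, hr⟩ := range_flatMap_split (recW P g) hj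
  refine ⟨p ++ (tau :: (List.range j).flatMap (recW P g)), r ++ q, ?_, ?_⟩
  · rw [h1, tabW, hr]
    simp only [List.append_assoc, List.cons_append]
  · rw [List.length_append, h2, List.length_cons]
    unfold oRec
    omega

private theorem MdA_rowlen (m : ℕ) : (rowW P m).length = K + 1 := by
  unfold rowW
  rw [List.length_cons, List.length_map, List.length_finRange]

private theorem MdA_recCm {g j : ℕ} (hC : P.Cm g j) :
    recW P g j = br :: (List.range P.b1).flatMap (fun k => rowW P (P.Z * g + P.b1 * j + k + 1)) := by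
  unfold recW
  rw [if_pos hC]

private theorem MdA_recEmp {g j : ℕ} (hC : ¬ P.Cm g j) : recW P g j = [emp] := by
  unfold recW
  rw [if_neg hC]

private theorem MdA_row {g j k : ℕ} (hg : g < P.B) (hj : j < P.Z / P.b1) (hC : P.Cm g j)
    (hk : k < P.b1) :
    ∃ p q, word P = p ++ (rowW P (P.Z * g + P.b1 * j + k + 1) ++ q) ∧ p.length = oRow P g j k := by
  obtain ⟨p, q, h1, h2⟩ := MdA_rec P hg hj
  obtain ⟨r, hr⟩ := range_flatMap_split (fun k => rowW P (P.Z * g + P.b1 * j + k + 1)) hk
  refine ⟨p ++ (br :: (List.range k).flatMap (fun k => rowW P (P.Z * g + P.b1 * j + k + 1))),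
    r ++ q, ?_, ?_⟩
  · rw [h1, MdA_recCm P hC, hr]
    simp only [List.append_assoc, List.cons_append]
  · rw [List.length_append, h2, List.length_cons,
      length_flatMap_const (fun k => rowW P (P.Z * g + P.b1 * j + k + 1)) (c := K + 1)
        (fun i _ => MdA_rowlen P _)]
    unfold oRow
    omega

private theorem MdA_recsucc (g j : ℕ) : oRec P g (j + 1) = oRec P g j + (recW P g j).length := by
  unfold oRec
  rw [length_flatMap_succ]
  omega

private theorem MdA_rowsucc (g j k : ℕ) : oRow P g j (k + 1) = oRow P g j k + (K + 1) := by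
  unfold oRow
  rw [Nat.add_mul, Nat.one_mul]
  omega

private theorem MdA_oTab_succ (g : ℕ) : oTab P (g + 1) = oRec P g (P.Z / P.b1) := by
  unfold oTab oRec
  rw [length_flatMap_succ]
  unfold oTab tabW
  rw [List.length_cons]
  omega

private theorem MdA_oTab_mono {g g' : ℕ} (h : g ≤ g') : oTab P g ≤ oTab P g' := by
  unfold oTab
  have := length_flatMap_mono (tabW P) h
  omega

private theorem MdA_oRec_mono (g : ℕ) {j j' : ℕ} (h : j ≤ j') : oRec P g j ≤ oRec P g j' := by
  unfold oRec
  have := length_flatMap_mono (recW P g) h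
  omega

private theorem MdA_recpos (g j : ℕ) : 0 < (recW P g j).length := by
  by_cases hC : P.Cm g j
  · rw [MdA_recCm P hC]
    simp
  · rw [MdA_recEmp P hC]
    simp

private theorem MdA_le_tab {g j : ℕ} (hg : g < P.B) (hj : j < P.Z / P.b1) :
    oRec P g (j + 1) ≤ oTab P P.B := by
  have h1 := MdA_oRec_mono P g (Nat.succ_le_of_lt hj)
  have h2 := MdA_oTab_mono P (Nat.succ_le_of_lt hg)
  have h3 := MdA_oTab_succ P g
  have h4 : oRec P g (j + 1) ≤ oRec P g (P.Z / P.b1) := h1
  have h5 : oTab P (g + 1) ≤ oTab P P.B := h2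
  omega

private theorem MdA_mu (g' : ℕ) : oTab P P.B ≤ oMu P g' - 1 := by
  unfold oMu oZone
  rw [length_flatMap_succ]
  have h1 : 0 < (zoneW P g').length := by
    unfold zoneW
    simp
  omega

private theorem MdA_at0 {w p q u : List Lt} {x : Lt} {n : ℕ} (h1 : w = p ++ ((x :: u) ++ q))
    (h2 : p.length = n) : w[n]? = some x := by
  subst h1 h2
  rw [List.getElem?_append_right (le_refl _), Nat.sub_self]
  rfl

private theorem MdA_recmem (g j : ℕ) : recW P g j ∈ Rec := by
  by_cases hC : P.Cm g j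
  · rw [MdA_recCm P hC]
    right
    refine ⟨[br], ⟨br, rfl, rfl⟩, _, ?_, rfl⟩
    intro x hx
    obtain ⟨k, _, hx⟩ := List.mem_flatMap.1 hx
    unfold rowW at hx
    rcases List.mem_cons.1 hx with hx | hx
    · exact Or.inl hx
    · obtain ⟨A, _, hA⟩ := List.mem_map.1 hx
      exact Or.inr ⟨_, hA.symm⟩
  · rw [MdA_recEmp P hC]
    exact Or.inl ⟨emp, rfl, rfl⟩

private theorem MdA_rowmem (m : ℕ) : rowW P m ∈ Row := by
  refine ⟨[row], ⟨row, rfl, rfl⟩, (List.finRange K).map (fun A => bit (decide (P.TT A m))), ?_, rfl⟩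
  intro x hx
  obtain ⟨A, _, hA⟩ := List.mem_map.1 hx
  exact ⟨_, hA.symm⟩

theorem mdl_left (hP : P.Good) :
    ∀ i < P.Nz * P.Z, (word P)[i]? = some (lefL P i) := by
  intro i hi
  unfold word
  have h1 : i < (leftW P).length := by
    unfold leftW
    rw [List.length_map, List.length_range]
    exact hi
  rw [List.getElem?_append_left h1]
  unfold leftW
  rw [List.getElem?_map, List.getElem?_range hi]
  rfl

theorem mdl_tau_at (hP : P.Good) :
    ∀ g < P.B, 0 < oRec P g 0 ∧ Is (word P) (oRec P g 0 - 1) (· = tau) ∧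
    P.Nz * P.Z ≤ oRec P g 0 - 1 := by
  intro g hg
  have h0 : oRec P g 0 = oTab P g + 1 := by
    unfold oRec
    simp
  obtain ⟨p, q, h1, h2⟩ := MdA_tab P hg
  rw [h0, Nat.add_sub_cancel]
  refine ⟨Nat.succ_pos _, ⟨tau, ?_, rfl⟩, ?_⟩
  · unfold tabW at h1
    exact MdA_at0 h1 h2
  · unfold oTab
    omega

theorem mdl_rec_step (hP : P.Good) :
    ∀ g < P.B, ∀ j < P.Z / P.b1, At (word P) Rec (oRec P g j) (oRec P g (j + 1)) := by
  intro g hg j hj
  obtain ⟨p, q, h1, h2⟩ := MdA_rec P hg hj
  have h3 := At.mk' p q (w := word P) (u := recW P g j) (by rw [h1, List.append_assoc])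
    (MdA_recmem P g j)
  rw [h2] at h3
  rw [MdA_recsucc]
  exact h3

theorem mdl_rec_emp (hP : P.Good) :
    ∀ g < P.B, ∀ j < P.Z / P.b1, ¬ P.Cm g j → Is (word P) (oRec P g j) (· = emp) := by
  intro g hg j hj hC
  obtain ⟨p, q, h1, h2⟩ := MdA_rec P hg hj
  rw [MdA_recEmp P hC] at h1
  exact ⟨emp, MdA_at0 h1 h2, rfl⟩

theorem mdl_rec_br (hP : P.Good) :
    ∀ g < P.B, ∀ j < P.Z / P.b1, P.Cm g j → Is (word P) (oRec P g j) (· = br) := by
  intro g hg j hj hC
  obtain ⟨p, q, h1, h2⟩ := MdA_rec P hg hj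
  rw [MdA_recCm P hC] at h1
  exact ⟨br, MdA_at0 h1 h2, rfl⟩

theorem mdl_row_step (hP : P.Good) :
    ∀ g < P.B, ∀ j < P.Z / P.b1, P.Cm g j → ∀ k < P.b1,
    At (word P) Row (oRow P g j k) (oRow P g j (k + 1)) ∧ Is (word P) (oRow P g j k) (· = row) := by
  intro g hg j hj hC k hk
  obtain ⟨p, q, h1, h2⟩ := MdA_row P hg hj hC hk
  constructor
  · have h3 := At.mk' p q (w := word P) (u := rowW P (P.Z * g + P.b1 * j + k + 1))
      (by rw [h1, List.append_assoc]) (MdA_rowmem P _)
    rw [h2, MdA_rowlen] at h3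
    rw [MdA_rowsucc]
    exact h3
  · unfold rowW at h1
    exact ⟨row, MdA_at0 h1 h2, rfl⟩

theorem mdl_row_bit (hP : P.Good) :
    ∀ g < P.B, ∀ j < P.Z / P.b1, P.Cm g j → ∀ k < P.b1, ∀ A : Fin K,
    (word P)[oRow P g j k + 1 + A]? = some (bit (decide (P.TT A (P.Z * g + P.b1 * j + k + 1)))) := by
  intro g hg j hj hC k hk A
  obtain ⟨p, q, h1, h2⟩ := MdA_row P hg hj hC hk
  rw [h1, List.getElem?_append_right (by omega)]
  have h3 : oRow P g j k + 1 + (A : ℕ) - p.length = (A : ℕ) + 1 := by omega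
  rw [h3, List.getElem?_append_left (by rw [MdA_rowlen]; have := A.2; omega)]
  unfold rowW
  have h5 : (List.finRange K)[(A : ℕ)]? = some A := by
    have h6 : (A : ℕ) < (List.finRange K).length := by
      rw [List.length_finRange]
      exact A.2
    rw [List.getElem?_eq_getElem h6]
    simp
  rw [List.getElem?_cons_succ, List.getElem?_map, h5]
  rfl

theorem mdl_row_le (hP : P.Good) :
    ∀ g < P.B, ∀ j < P.Z / P.b1, P.Cm g j → ∀ k < P.b1, ∀ A : Fin K, ∀ g' < P.B,
    oRow P g j k + 1 + A < oMu P g' - 1 := by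
  intro g hg j hj hC k hk A g' hg'
  have h1 := MdA_mu P g'
  have h2 := MdA_le_tab P hg hj
  have h3 := MdA_recsucc P g j
  rw [MdA_recCm P hC, List.length_cons,
    length_flatMap_const (fun k => rowW P (P.Z * g + P.b1 * j + k + 1)) (c := K + 1)
      (fun i _ => MdA_rowlen P _)] at h3
  have h4 : oRow P g j k = oRec P g j + 1 + k * (K + 1) := rfl
  have h5 : (k + 1) * (K + 1) ≤ P.b1 * (K + 1) := Nat.mul_le_mul_right _ hk
  rw [Nat.add_mul, Nat.one_mul] at h5
  have h6 := A.2
  omega

theorem mdl_rec_le (hP : P.Good) :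
    ∀ g < P.B, ∀ j < P.Z / P.b1, ∀ g' < P.B, oRec P g j < oMu P g' - 1 := by
  intro g hg j hj g' hg'
  have h1 := MdA_mu P g'
  have h2 := MdA_le_tab P hg hj
  have h3 := MdA_recsucc P g j
  have h4 := MdA_recpos P g j
  omega

end Pool.Agent.H29.CJ

end S_MdA

section S_MdB

/-!
# Positions of the certificate word: main region

Use only the STATEMENTS of the imported files (`FlM`, `AtL`).

Write `word P = U ++ ((List.range B).flatMap (zoneW P) ++ V)` with `U.length = oTab P B + B = oZone P 0`.  Zone `g` is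
`ka^g ++ ((range g).flatMap (fun i => grpW (i+1)) ++ (cb^g ++ (kb^g ++ [mu])))` and occupies `[oZone g, oZone (g+1))`; its last
letter is `mu` (`mu_at`).  Inside: `word P = U' ++ ((range g).flatMap (fun i => grpW (i+1)) ++ V')` with `U'.length = oZone g + g`;
group `i` starts at `oGrp g i` with the letter `cc`; then `(range (Z/(2 b2))).flatMap (mrecW (i+1))` starts at `oGrp g i + 1`, record
`j` at `oMr g i j`.  A nonempty record is `pp rr^(2 b2)`.  After it, still in zone `g`, there are at least `cb^g kb^g mu` with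
`g ≥ 1` letters `cb`, so `oMr g i j + 1 + 2 b2 < oMu g`.  The only `mu` of zone `g` is its last letter (`oMu g - 1`).
-/

set_option autoImplicit false

namespace Pool.Agent.H29.CJ

open Lt Classical

variable {K : ℕ} (P : Prm K)

private def mdbS (w : List Lt) (s : ℕ) (u : List Lt) : Prop := ∀ t < u.length, w[s + t]? = u[t]?

private theorem mdbS_left {w u v : List Lt} {s : ℕ} (h : mdbS w s (u ++ v)) : mdbS w s u := by
  intro t ht
  rw [h t (by rw [List.length_append]; omega), List.getElem?_append_left ht]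

private theorem mdbS_right {w u v : List Lt} {s : ℕ} (h : mdbS w s (u ++ v)) :
    mdbS w (s + u.length) v := by
  intro t ht
  have h1 := h (u.length + t) (by rw [List.length_append]; omega)
  rw [List.getElem?_append_right (by omega), Nat.add_sub_cancel_left] at h1
  rw [Nat.add_assoc]
  exact h1

private theorem mdbS_flat {w : List Lt} {s : ℕ} (f : ℕ → List Lt) {j n : ℕ} (hj : j < n)
    (h : mdbS w s ((List.range n).flatMap f)) :
    mdbS w (s + ((List.range j).flatMap f).length) (f j) := by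
  obtain ⟨r, hr⟩ := range_flatMap_split f hj
  rw [hr] at h
  exact mdbS_left (mdbS_right h)

private theorem mdbS_at {w u : List Lt} {s : ℕ} {L : Set (List Lt)} (h : mdbS w s u)
    (hu : u ∈ L) (h0 : 0 < u.length) : At w L s (s + u.length) := by
  have h1 := h (u.length - 1) (by omega)
  rw [List.getElem?_eq_getElem (by omega : u.length - 1 < u.length)] at h1
  obtain ⟨h2, _⟩ := List.getElem?_eq_some_iff.1 h1
  refine ⟨by omega, by omega, ?_⟩
  have e : seg w s (s + u.length) = u := by
    apply List.ext_getElem?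
    intro t
    rw [getElem?_seg]
    by_cases ht : t < u.length
    · rw [if_pos (by omega)]
      exact h t ht
    · rw [if_neg (by omega), List.getElem?_eq_none (by omega)]
  rw [e]
  exact hu

private theorem mdb_main : mdbS (word P) (oTab P P.B + P.B) ((List.range P.B).flatMap (zoneW P)) := by
  have h0 : mdbS (word P) 0 (word P) := fun t _ => by rw [Nat.zero_add]
  have h1 : mdbS (word P) (0 + (leftW P).length) _ := mdbS_right h0
  have h2 := mdbS_right h1
  have h3 := mdbS_right h2
  have h4 := mdbS_right h3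
  have h5 := mdbS_right h4
  have h6 := mdbS_left h5
  have e : 0 + (leftW P).length + (List.replicate P.Nz nu).length + (List.replicate P.F fi).length +
      (cenW P).length + (List.replicate P.B th).length = oTab P P.B + P.B := by
    unfold oTab leftW cenW
    simp only [List.length_map, List.length_range, List.length_replicate]
    omega
  rw [e] at h6
  exact h6

private theorem mdb_zone {g : ℕ} (hg : g < P.B) : mdbS (word P) (oZone P g) (zoneW P g) :=
  mdbS_flat (zoneW P) hg (mdb_main P)

private theorem mdb_mu (g : ℕ) : oMu P g = oZone P g + (zoneW P g).length := by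
  unfold oMu oZone
  rw [length_flatMap_succ]
  omega

private theorem mdb_zone_mono {i g : ℕ} (h : i ≤ g) : oZone P i ≤ oZone P g := by
  have := length_flatMap_mono (zoneW P) h
  unfold oZone
  omega

private noncomputable def mdbX (g : ℕ) : List Lt :=
  List.replicate g ka ++ ((List.range g).flatMap (fun i => grpW P (i + 1)) ++
    (List.replicate g cb ++ List.replicate g kb))

private theorem mdb_zone_eq (g : ℕ) : zoneW P g = mdbX P g ++ [mu] := by
  unfold zoneW mdbX
  simp only [List.append_assoc]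

private theorem mdbX_ne (g : ℕ) : ∀ x ∈ mdbX P g, x ≠ mu := by
  intro x hx
  unfold mdbX at hx
  rw [List.mem_append, List.mem_append, List.mem_append] at hx
  rcases hx with hx | hx | hx | hx
  · rw [(List.mem_replicate.1 hx).2]; decide
  · obtain ⟨i, _, hi⟩ := List.mem_flatMap.1 hx
    unfold grpW at hi
    rcases List.mem_cons.1 hi with rfl | hi
    · decide
    · obtain ⟨j, _, hj⟩ := List.mem_flatMap.1 hi
      unfold mrecW at hj
      split_ifs at hj with hc
      · rcases List.mem_cons.1 hj with rfl | hj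
        · decide
        · rw [(List.mem_replicate.1 hj).2]; decide
      · rw [List.mem_singleton.1 hj]; decide
  · rw [(List.mem_replicate.1 hx).2]; decide
  · rw [(List.mem_replicate.1 hx).2]; decide

private theorem mdb_zone_len (g : ℕ) : (zoneW P g).length =
    g + ((List.range g).flatMap (fun i => grpW P (i + 1))).length + g + g + 1 := by
  unfold zoneW
  simp only [List.length_append, List.length_replicate, List.length_singleton]
  omega

private theorem mdb_grp {g i : ℕ} (hg : g < P.B) (hi : i < g) :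
    mdbS (word P) (oGrp P g i) (grpW P (i + 1)) := by
  have h := mdb_zone P hg
  unfold zoneW at h
  have h1 := mdbS_left (mdbS_right h)
  rw [List.length_replicate] at h1
  exact mdbS_flat (fun i => grpW P (i + 1)) hi h1

private theorem mdb_grp_end {g i : ℕ} (hi : i < g) :
    oGrp P g i + (grpW P (i + 1)).length < oMu P g := by
  have h1 := length_flatMap_succ (fun i => grpW P (i + 1)) i
  have h2 := length_flatMap_mono (fun i => grpW P (i + 1)) (Nat.succ_le_of_lt hi)
  rw [mdb_mu, mdb_zone_len]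
  unfold oGrp
  simp only [Nat.succ_eq_add_one] at h2
  omega

private theorem mdb_mr {g i j : ℕ} (hg : g < P.B) (hi : i < g) (hj : j < P.Z / (2 * P.b2)) :
    mdbS (word P) (oMr P g i j) (mrecW P (i + 1) j) := by
  have h := mdb_grp P hg hi
  have h1 : mdbS (word P) (oGrp P g i) ([cc] ++ (List.range (P.Z / (2 * P.b2))).flatMap (mrecW P (i + 1))) := h
  have h2 := mdbS_right h1
  exact mdbS_flat (mrecW P (i + 1)) hj h2

private theorem mdb_mr_succ (g i j : ℕ) :
    oMr P g i (j + 1) = oMr P g i j + (mrecW P (i + 1) j).length := by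
  unfold oMr
  rw [length_flatMap_succ]
  omega

private theorem mdb_mr_end {g i j : ℕ} (hj : j < P.Z / (2 * P.b2)) :
    oMr P g i j + (mrecW P (i + 1) j).length ≤ oGrp P g i + (grpW P (i + 1)).length := by
  have h2 := length_flatMap_mono (mrecW P (i + 1)) (Nat.succ_le_of_lt hj)
  have h3 : (grpW P (i + 1)).length =
      ((List.range (P.Z / (2 * P.b2))).flatMap (mrecW P (i + 1))).length + 1 := rfl
  rw [← mdb_mr_succ, h3]
  unfold oMr
  simp only [Nat.succ_eq_add_one] at h2
  omega

theorem mdl_mu_at (hP : P.Good) :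
    ∀ g < P.B, 0 < oMu P g ∧ Is (word P) (oMu P g - 1) (· = mu) := by
  intro g hg
  have h := mdb_zone P hg
  rw [mdb_zone_eq] at h
  have h1 := mdbS_right h 0 (by simp)
  have h2 : oMu P g = oZone P g + (mdbX P g).length + 1 := by
    rw [mdb_mu, mdb_zone_eq, List.length_append, List.length_singleton]
    omega
  rw [h2]
  refine ⟨by omega, mu, ?_, rfl⟩
  rw [Nat.add_sub_cancel]
  simpa using h1

theorem mdl_mu_le (hP : P.Good) :
    ∀ g i, g < P.B → i < P.B → i < g → ∀ i' < g, oMu P i ≤ oGrp P g i' := by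
  intro g i _ _ hi i' _
  have h := mdb_zone_mono P (Nat.succ_le_of_lt hi)
  have h1 : oZone P g ≤ oGrp P g i' := by unfold oGrp; omega
  exact le_trans h h1

theorem mdl_grp_at (hP : P.Good) :
    ∀ g < P.B, ∀ i < g, Is (word P) (oGrp P g i) (· = cc) ∧ P.Nz * P.Z ≤ oGrp P g i := by
  intro g hg i hi
  have h := mdb_grp P hg hi 0 (by simp [grpW])
  refine ⟨⟨cc, ?_, rfl⟩, ?_⟩
  · rw [Nat.add_zero] at h
    rw [h]
    rfl
  · unfold oGrp oZone oTab
    omega

theorem mdl_mr_step (hP : P.Good) :
    ∀ g < P.B, ∀ i < g, ∀ j < P.Z / (2 * P.b2),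
    At (word P) Rec' (oMr P g i j) (oMr P g i (j + 1)) := by
  intro g hg i hi j hj
  rw [mdb_mr_succ]
  refine mdbS_at (mdb_mr P hg hi hj) ?_ ?_
  · unfold mrecW
    split_ifs with hc
    · refine Or.inr ⟨[pp], ⟨pp, rfl, rfl⟩, List.replicate (2 * P.b2) rr, ?_, rfl⟩
      intro x hx
      exact (List.mem_replicate.1 hx).2
    · exact Or.inl ⟨ee, rfl, rfl⟩
  · unfold mrecW
    split_ifs <;> simp

theorem mdl_mr_pp (hP : P.Good) :
    ∀ g < P.B, ∀ i < g, ∀ j < P.Z / (2 * P.b2), P.Mn (i + 1) j →
    Is (word P) (oMr P g i j) (· = pp) ∧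
    (∀ k < 2 * P.b2, Is (word P) (oMr P g i j + 1 + k) (· = rr)) ∧
    oMr P g i j + 1 + 2 * P.b2 < oMu P g ∧
    (∀ t, oMr P g i j ≤ t → t < oMu P g - 1 → Is (word P) t (· ≠ mu)) := by
  intro g hg i hi j hj hM
  have h := mdb_mr P hg hi hj
  have e : mrecW P (i + 1) j = pp :: List.replicate (2 * P.b2) rr := by
    unfold mrecW
    rw [if_pos hM]
  have h1 := mdb_mr_end P (g := g) (i := i) hj
  have h2 := mdb_grp_end P hi
  rw [e] at h h1
  have hl : (pp :: List.replicate (2 * P.b2) rr).length = 2 * P.b2 + 1 := by simp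
  rw [hl] at h1
  refine ⟨⟨pp, ?_, rfl⟩, ?_, by omega, ?_⟩
  · have h3 := h 0 (by omega)
    rw [Nat.add_zero] at h3
    rw [h3]
    rfl
  · intro k hk
    refine ⟨rr, ?_, rfl⟩
    have h3 := h (1 + k) (by omega)
    rw [← Nat.add_assoc] at h3
    rw [h3, Nat.add_comm 1 k, List.getElem?_cons_succ, List.getElem?_replicate, if_pos hk]
  · intro t ht1 ht2
    have h4 := mdb_zone P hg
    rw [mdb_zone_eq] at h4
    have h5 := mdbS_left h4
    have h6 : oMu P g = oZone P g + (mdbX P g).length + 1 := by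
      rw [mdb_mu, mdb_zone_eq, List.length_append, List.length_singleton]
      omega
    have h7 : oZone P g ≤ oMr P g i j := by
      unfold oMr oGrp
      omega
    obtain ⟨s, rfl⟩ : ∃ s, t = oZone P g + s := ⟨t - oZone P g, by omega⟩
    have hs : s < (mdbX P g).length := by omega
    have h8 := h5 s hs
    rw [List.getElem?_eq_getElem hs] at h8
    exact ⟨_, h8, mdbX_ne P g _ (List.getElem_mem hs)⟩

end Pool.Agent.H29.CJ

end S_MdB

section S_MdC

/-!
# Positions of the certificate word: start region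

Use only the STATEMENTS of the imported files (`FlM`, `AtL`).

`word P = U ++ (List.range B).flatMap (fun _ => szW P)` with `U.length = oZone P B + (B - 1) = oSz P 0`, and `szW P` has length
`2 Nz + 1`: `io^Nz ib^Nz sg`.  Zone `g` occupies `[oSz g, oSz (g+1))`, `oSg g = oSz (g+1)`.  `oIo g k = oSz g + k` for `0 < k < Nz`
(the letter before is `io`), `oIo g 0 = oSz g + 2 Nz` (the letter before is `ib`, as `Nz > 0`).  No letter of `U` is `sg` (membership
in each part), so the `sg` letters are exactly the last letters of the zones.  `mu_io`: `oMu g = oZone (g+1) ≤ oZone B`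
(`length_flatMap_mono`).
-/

set_option autoImplicit false

namespace Pool.Agent.H29.CJ

open Lt Classical

variable {K : ℕ} (P : Prm K)

private noncomputable def MdC_U : List Lt :=
  leftW P ++ (List.replicate P.Nz nu ++ (List.replicate P.F fi ++ (cenW P ++
    (List.replicate P.B th ++ (mainW P ++ List.replicate (P.B - 1) tp)))))

private theorem MdC_word : word P = MdC_U P ++ (stW P ++ []) := by
  unfold word MdC_U
  simp only [List.append_assoc, List.append_nil]

private theorem MdC_Ulen : (MdC_U P).length = oSz P 0 := by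
  unfold MdC_U oSz oZone oTab
  simp only [List.length_append, List.length_replicate, leftW, List.length_map, List.length_range,
    cenW, mainW]
  ring

private theorem MdC_szlen : (szW P).length = 2 * P.Nz + 1 := by
  unfold szW
  simp only [List.length_append, List.length_replicate, List.length_singleton]
  ring

private theorem MdC_stlen (g : ℕ) : ((List.range g).flatMap (fun _ => szW P)).length =
    g * (2 * P.Nz + 1) :=
  length_flatMap_const _ (fun _ _ => MdC_szlen P)

private theorem MdC_oSz (g : ℕ) : oSz P g = (MdC_U P).length + g * (2 * P.Nz + 1) := by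
  rw [MdC_Ulen]
  unfold oSz
  ring

private theorem MdC_get {g t : ℕ} (hg : g < P.B) (ht : t < 2 * P.Nz + 1) :
    (word P)[oSz P g + t]? = (szW P)[t]? := by
  have h := getElem?_flatMap (fun _ => szW P) (j := g) (n := P.B) (t := t) hg
    (by rw [MdC_szlen]; exact ht) (MdC_U P) []
  rw [MdC_stlen, ← MdC_oSz] at h
  rw [MdC_word]
  exact h

private theorem MdC_sz_lt {t : ℕ} (ht : t < 2 * P.Nz) :
    ∃ x, (szW P)[t]? = some x ∧ isIO x := by
  unfold szW
  rcases Nat.lt_or_ge t P.Nz with h | h
  · refine ⟨io, ?_, Or.inl rfl⟩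
    rw [List.getElem?_append_left (by rw [List.length_replicate]; exact h),
      List.getElem?_replicate_of_lt h]
  · refine ⟨ib, ?_, Or.inr rfl⟩
    rw [List.getElem?_append_right (by rw [List.length_replicate]; exact h), List.length_replicate,
      List.getElem?_append_left (by rw [List.length_replicate]; omega),
      List.getElem?_replicate_of_lt (by omega)]

private theorem MdC_sz_last : (szW P)[2 * P.Nz]? = some sg := by
  unfold szW
  rw [List.getElem?_append_right (by rw [List.length_replicate]; omega), List.length_replicate,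
    List.getElem?_append_right (by rw [List.length_replicate]; omega), List.length_replicate]
  have : 2 * P.Nz - P.Nz - P.Nz = 0 := by omega
  rw [this]
  rfl

private theorem MdC_io {g t : ℕ} (hg : g < P.B) (ht : t < 2 * P.Nz) :
    Is (word P) (oSz P g + t) isIO := by
  obtain ⟨x, hx, hio⟩ := MdC_sz_lt P ht
  exact ⟨x, (MdC_get P hg (by omega)).trans hx, hio⟩

private theorem MdC_sg {g : ℕ} (hg : g < P.B) : Is (word P) (oSz P g + 2 * P.Nz) (· = sg) :=
  ⟨sg, (MdC_get P hg (by omega)).trans (MdC_sz_last P), rfl⟩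

private theorem MdC_ne {x : Lt} (h : isIO x) : x ≠ sg := by
  rcases h with rfl | rfl <;> simp

private theorem MdC_oSg (g : ℕ) : oSg P g - 1 = oSz P g + 2 * P.Nz := by
  unfold oSg oSz
  have : (g + 1) * (2 * P.Nz + 1) = g * (2 * P.Nz + 1) + (2 * P.Nz + 1) := by ring
  omega

private theorem MdC_U_ne : ∀ x ∈ MdC_U P, x ≠ sg := by
  intro x hx
  unfold MdC_U at hx
  simp only [List.mem_append] at hx
  rcases hx with h | h | h | h | h | h | h
  · unfold leftW at h
    obtain ⟨i, -, rfl⟩ := List.mem_map.1 h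
    unfold lefL
    simp
  · rw [(List.mem_replicate.1 h).2]
    simp
  · rw [(List.mem_replicate.1 h).2]
    simp
  · unfold cenW at h
    obtain ⟨g, -, h⟩ := List.mem_flatMap.1 h
    unfold tabW at h
    rcases List.mem_cons.1 h with rfl | h
    · simp
    obtain ⟨j, -, h⟩ := List.mem_flatMap.1 h
    unfold recW at h
    split_ifs at h with hc
    · rcases List.mem_cons.1 h with rfl | h
      · simp
      obtain ⟨k, -, h⟩ := List.mem_flatMap.1 h
      unfold rowW at h
      rcases List.mem_cons.1 h with rfl | h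
      · simp
      obtain ⟨A, -, rfl⟩ := List.mem_map.1 h
      simp
    · rw [List.mem_singleton.1 h]
      simp
  · rw [(List.mem_replicate.1 h).2]
    simp
  · unfold mainW at h
    obtain ⟨g, -, h⟩ := List.mem_flatMap.1 h
    unfold zoneW at h
    simp only [List.mem_append] at h
    rcases h with h | h | h | h | h
    · rw [(List.mem_replicate.1 h).2]
      simp
    · obtain ⟨i, -, h⟩ := List.mem_flatMap.1 h
      unfold grpW at h
      rcases List.mem_cons.1 h with rfl | h
      · simp
      obtain ⟨j, -, h⟩ := List.mem_flatMap.1 h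
      unfold mrecW at h
      split_ifs at h with hc
      · rcases List.mem_cons.1 h with rfl | h
        · simp
        rw [(List.mem_replicate.1 h).2]
        simp
      · rw [List.mem_singleton.1 h]
        simp
    · rw [(List.mem_replicate.1 h).2]
      simp
    · rw [(List.mem_replicate.1 h).2]
      simp
    · rw [List.mem_singleton.1 h]
      simp
  · rw [(List.mem_replicate.1 h).2]
    simp

private theorem MdC_U_Is {t : ℕ} (ht : t < (MdC_U P).length) : Is (word P) t (· ≠ sg) := by
  refine ⟨(MdC_U P)[t], ?_, MdC_U_ne P _ (List.getElem_mem ht)⟩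
  rw [MdC_word, List.getElem?_append_left ht, List.getElem?_eq_getElem ht]

theorem mdl_mu_io (hP : P.Good) :
    ∀ g < P.B, ∀ g' < P.B, ∀ k, oMu P g ≤ oIo P g' k := by
  intro g hg g' _ k
  have h1 : oMu P g ≤ oZone P P.B := by
    unfold oMu oZone
    have := length_flatMap_mono (zoneW P) (i := g + 1) (j := P.B) (by omega)
    omega
  have h2 : oZone P P.B ≤ oSz P g' := by
    unfold oSz
    omega
  have h3 : oSz P g' ≤ oIo P g' k := by
    unfold oIo
    omega
  omega

theorem mdl_io_at (hP : P.Good) :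
    ∀ g < P.B, ∀ k < P.Nz, 0 < oIo P g k ∧ Is (word P) (oIo P g k - 1) isIO ∧
    oIo P g k ≤ oSg P g - 1 ∧ (∀ t, oIo P g k ≤ t → t < oSg P g - 1 → Is (word P) t (· ≠ sg)) := by
  intro g hg k hk
  have hNz := hP.Nzpos
  have h1 : oSz P g < oIo P g k ∧ oIo P g k ≤ oSz P g + 2 * P.Nz := by
    unfold oIo
    split_ifs with h <;> omega
  rw [MdC_oSg]
  refine ⟨by omega, ?_, h1.2, fun t h2 h3 => ?_⟩
  · have h4 := MdC_io P hg (t := oIo P g k - 1 - oSz P g) (by omega)
    have e : oSz P g + (oIo P g k - 1 - oSz P g) = oIo P g k - 1 := by omega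
    rw [e] at h4
    exact h4
  · have h4 := MdC_io P hg (t := t - oSz P g) (by omega)
    have e : oSz P g + (t - oSz P g) = t := by omega
    rw [e] at h4
    exact h4.mono (fun x hx => MdC_ne hx)

theorem mdl_sg_at (hP : P.Good) :
    ∀ g < P.B, 0 < oSg P g ∧ Is (word P) (oSg P g - 1) (· = sg) := by
  intro g hg
  rw [MdC_oSg]
  refine ⟨?_, MdC_sg P hg⟩
  unfold oSg oSz
  have : (g + 1) * (2 * P.Nz + 1) = g * (2 * P.Nz + 1) + (2 * P.Nz + 1) := by ring
  omega

theorem mdl_sg_only (hP : P.Good) :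
    ∀ s, Is (word P) s (· = sg) → ∃ g < P.B, s = oSg P g - 1 := by
  intro s hs
  have hlen := hs.lt
  obtain ⟨x, hx, rfl⟩ := hs
  have hlt : (word P).length = (MdC_U P).length + P.B * (2 * P.Nz + 1) := by
    rw [MdC_word, List.append_nil, List.length_append]
    unfold stW
    rw [MdC_stlen]
  rcases Nat.lt_or_ge s (MdC_U P).length with h | h
  · exfalso
    obtain ⟨y, hy, hne⟩ := MdC_U_Is P h
    rw [hx] at hy
    exact hne (Option.some.inj hy).symm
  · have hc : 0 < 2 * P.Nz + 1 := by omega
    set c := 2 * P.Nz + 1 with hcd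
    set r := s - (MdC_U P).length with hr
    have hrB : r < P.B * c := by omega
    have hg : r / c < P.B := (Nat.div_lt_iff_lt_mul hc).2 hrB
    have hm : r % c < c := Nat.mod_lt _ hc
    have hdm : r / c * c + r % c = r := by
      have := Nat.div_add_mod r c
      rw [Nat.mul_comm] at this
      exact this
    have hs' : s = oSz P (r / c) + r % c := by
      rw [MdC_oSz, ← hcd]
      omega
    refine ⟨r / c, hg, ?_⟩
    rw [MdC_oSg]
    rcases Nat.lt_or_ge (r % c) (2 * P.Nz) with h2 | h2
    · exfalso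
      obtain ⟨y, hy, hio⟩ := MdC_io P hg h2
      rw [← hs', hx] at hy
      exact MdC_ne hio (Option.some.inj hy).symm
    · omega

theorem mdl_sg_first (hP : P.Good) :
    ∀ t < oSg P 0 - 1, Is (word P) t (· ≠ sg) := by
  intro t ht
  rw [MdC_oSg] at ht
  rcases Nat.lt_or_ge t (MdC_U P).length with h | h
  · exact MdC_U_Is P h
  · rw [MdC_Ulen] at h
    have h4 := MdC_io P hP.Bpos (t := t - oSz P 0) (by omega)
    have e : oSz P 0 + (t - oSz P 0) = t := by omega
    rw [e] at h4
    exact h4.mono (fun x hx => MdC_ne hx)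

theorem mdl_sg_last (hP : P.Good) :
    oSg P (P.B - 1) = (word P).length := by
  have hB := hP.Bpos
  have hlt : (word P).length = (MdC_U P).length + P.B * (2 * P.Nz + 1) := by
    rw [MdC_word, List.append_nil, List.length_append]
    unfold stW
    rw [MdC_stlen]
  rw [hlt]
  unfold oSg
  rw [MdC_oSz, Nat.sub_add_cancel hB]

end Pool.Agent.H29.CJ

end S_MdC

section S_MdV

/-!
# Weights of the certificate word, first part

Use only the STATEMENTS of the imported files (`FlM`, `AtL`).

`pre f w i = wt f u` when `w = u ++ v`, `i = u.length` (`pre_cut`).  For each position write `word P` as `u ++ v` with the obvious `u`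
(`range_flatMap_split`, `range_flatMap_le`) and add up (`wt_append`, `wt_flatMap_const`, `wt_replicate`, `wt_zero`).
Weights of the parts for `wTM = #tau + #mu - #th` and `wTS = #tau + #sg - #th`: `leftW, nu, fi, tp, io, ib`: `0`; `tabW g`: `1`
(records contain only `emp, br, row, bit`); `th^B`: `-B`; `zoneW g`: `1` for `wTM`, `0` for `wTS`; `szW`: `0` for `wTM`, `1` for `wTS`.
At `oRow g j k + 1 + A` and `oRec g j`: `g` full tables, one `tau`, and then only letters of weight `0`: `g + 1`.
-/

set_option autoImplicit false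

namespace Pool.Agent.H29.CJ

open Lt Classical

variable {K : ℕ} (P : Prm K)

theorem MdV_cons (f : Lt → ℤ) (x : Lt) (u : List Lt) : wt f (x :: u) = f x + wt f u := by
  simp [wt]

theorem MdV_nil (f : Lt → ℤ) : wt f [] = 0 := by simp [wt]

/-- the letters of weight zero -/
structure MdV_Z (f : Lt → ℤ) : Prop where
  ha : ∀ x y z, f (Lt.a x y z) = 0
  hnu : f Lt.nu = 0
  hfi : f Lt.fi = 0
  htau : f Lt.tau = 1
  hemp : f Lt.emp = 0
  hbr : f Lt.br = 0
  hrow : f Lt.row = 0
  hbit : ∀ b, f (Lt.bit b) = 0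
  hth : f Lt.th = -1
  hka : f Lt.ka = 0
  hkb : f Lt.kb = 0
  hcc : f Lt.cc = 0
  hcb : f Lt.cb = 0
  hee : f Lt.ee = 0
  hpp : f Lt.pp = 0
  hrr : f Lt.rr = 0
  htp : f Lt.tp = 0
  hio : f Lt.io = 0
  hib : f Lt.ib = 0

theorem MdV_TM : MdV_Z wTM :=
  ⟨fun _ _ _ => rfl, rfl, rfl, rfl, rfl, rfl, rfl, fun _ => rfl, rfl, rfl, rfl, rfl, rfl, rfl, rfl, rfl, rfl,
    rfl, rfl⟩

theorem MdV_TS : MdV_Z wTS :=
  ⟨fun _ _ _ => rfl, rfl, rfl, rfl, rfl, rfl, rfl, fun _ => rfl, rfl, rfl, rfl, rfl, rfl, rfl, rfl, rfl, rfl,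
    rfl, rfl⟩

/-- the part before the tables -/
noncomputable def MdV_U : List Lt := leftW P ++ (List.replicate P.Nz nu ++ List.replicate P.F fi)

theorem MdV_Ulen : (MdV_U P).length = P.Nz * P.Z + P.Nz + P.F := by
  unfold MdV_U leftW
  simp only [List.length_append, List.length_replicate, List.length_map, List.length_range]
  omega

variable {f : Lt → ℤ}

theorem MdV_Uwt (hf : MdV_Z f) : wt f (MdV_U P) = 0 := by
  unfold MdV_U
  rw [atl_wt_append, atl_wt_append, wt_replicate, wt_replicate, hf.hnu, hf.hfi, mul_zero, mul_zero, add_zero,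
    add_zero]
  refine wt_zero f _ fun b hb => ?_
  unfold leftW at hb
  obtain ⟨i, _, rfl⟩ := List.mem_map.1 hb
  exact hf.ha _ _ _

/-- the bits of a row -/
noncomputable def MdV_bits (m : ℕ) : List Lt := (List.finRange K).map (fun A => bit (decide (P.TT A m)))

theorem MdV_bitslen (m : ℕ) : (MdV_bits P m).length = K := by
  unfold MdV_bits
  rw [List.length_map, List.length_finRange]

theorem MdV_bits0 (hf : MdV_Z f) (m : ℕ) : ∀ b ∈ MdV_bits P m, f b = 0 := by
  intro b hb
  unfold MdV_bits at hb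
  obtain ⟨i, _, rfl⟩ := List.mem_map.1 hb
  exact hf.hbit _

theorem MdV_row (m : ℕ) : rowW P m = row :: MdV_bits P m := rfl

theorem MdV_rowlen (m : ℕ) : (rowW P m).length = K + 1 := by
  rw [MdV_row, List.length_cons, MdV_bitslen]

theorem MdV_rowwt (hf : MdV_Z f) (m : ℕ) : wt f (rowW P m) = 0 := by
  rw [MdV_row, MdV_cons, hf.hrow, wt_zero f _ (MdV_bits0 P hf m), add_zero]

theorem MdV_recwt (hf : MdV_Z f) (g j : ℕ) : wt f (recW P g j) = 0 := by
  unfold recW
  split_ifs
  · rw [MdV_cons, hf.hbr, wt_flatMap_const f _ (c := 0) fun k _ => MdV_rowwt P hf _, mul_zero, add_zero]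
  · rw [MdV_cons, MdV_nil, hf.hemp, add_zero]

theorem MdV_tabwt (hf : MdV_Z f) (g : ℕ) : wt f (tabW P g) = 1 := by
  unfold tabW
  rw [MdV_cons, hf.htau, wt_flatMap_const f _ (c := 0) fun k _ => MdV_recwt P hf g _, mul_zero, add_zero]

theorem MdV_mrecwt (hf : MdV_Z f) (i j : ℕ) : wt f (mrecW P i j) = 0 := by
  unfold mrecW
  split_ifs
  · rw [MdV_cons, hf.hpp, wt_replicate, hf.hrr, mul_zero, add_zero]
  · rw [MdV_cons, MdV_nil, hf.hee, add_zero]

theorem MdV_grpwt (hf : MdV_Z f) (i : ℕ) : wt f (grpW P i) = 0 := by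
  unfold grpW
  rw [MdV_cons, hf.hcc, wt_flatMap_const f _ (c := 0) fun k _ => MdV_mrecwt P hf i _, mul_zero, add_zero]

theorem MdV_zonewt (hf : MdV_Z f) (g : ℕ) : wt f (zoneW P g) = f mu := by
  unfold zoneW
  rw [atl_wt_append, atl_wt_append, atl_wt_append, atl_wt_append, wt_replicate, wt_replicate, wt_replicate,
    wt_flatMap_const f _ (c := 0) fun k _ => MdV_grpwt P hf _, MdV_cons, MdV_nil, hf.hka, hf.hkb, hf.hcb]
  ring

theorem MdV_szwt (hf : MdV_Z f) : wt f (szW P) = f sg := by
  unfold szW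
  rw [atl_wt_append, atl_wt_append, wt_replicate, wt_replicate, MdV_cons, MdV_nil, hf.hio, hf.hib]
  ring

theorem MdV_szlen : (szW P).length = 2 * P.Nz + 1 := by
  unfold szW
  simp only [List.length_append, List.length_replicate, List.length_singleton]
  omega

/-- the part before record `j` of table `g` -/
noncomputable def MdV_V (g j : ℕ) : List Lt :=
  MdV_U P ++ ((List.range g).flatMap (tabW P) ++ (tau :: (List.range j).flatMap (recW P g)))

theorem MdV_Vlen (g j : ℕ) : (MdV_V P g j).length = oRec P g j := by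
  unfold MdV_V oRec oTab
  simp only [List.length_append, List.length_cons, MdV_Ulen]
  omega

theorem MdV_Vwt (hf : MdV_Z f) (g j : ℕ) : wt f (MdV_V P g j) = g + 1 := by
  unfold MdV_V
  rw [atl_wt_append, atl_wt_append, MdV_cons, hf.htau, MdV_Uwt P hf,
    wt_flatMap_const f (tabW P) (c := 1) fun i _ => MdV_tabwt P hf i,
    wt_flatMap_const f (recW P g) (c := 0) fun i _ => MdV_recwt P hf g i]
  ring

theorem MdV_Vword {g j : ℕ} (hg : g < P.B) (hj : j < P.Z / P.b1) :
    ∃ v, word P = MdV_V P g j ++ (recW P g j ++ v) := by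
  obtain ⟨r, hr⟩ := range_flatMap_split (tabW P) hg
  obtain ⟨r', hr'⟩ := range_flatMap_split (recW P g) hj
  have ht : tabW P g = tau :: ((List.range j).flatMap (recW P g) ++ (recW P g j ++ r')) := by
    rw [← hr']
    rfl
  rw [ht] at hr
  refine ⟨r' ++ (r ++ (List.replicate P.B th ++ (mainW P ++ (List.replicate (P.B - 1) tp ++ stW P)))), ?_⟩
  unfold word cenW MdV_V MdV_U
  rw [hr]
  simp only [List.append_assoc, List.cons_append]

theorem MdV_rec (hf : MdV_Z f) :
    ∀ g < P.B, ∀ j < P.Z / P.b1, pre f (word P) (oRec P g j) = g + 1 := by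
  intro g hg j hj
  obtain ⟨v, hv⟩ := MdV_Vword P hg hj
  rw [hv, pre_cut f _ _ (MdV_Vlen P g j).symm, MdV_Vwt P hf]

theorem MdV_rowpre (hf : MdV_Z f) :
    ∀ g < P.B, ∀ j < P.Z / P.b1, P.Cm g j → ∀ k < P.b1, ∀ A : Fin K,
    pre f (word P) (oRow P g j k + 1 + A) = g + 1 := by
  intro g hg j hj hC k hk A
  obtain ⟨v, hv⟩ := MdV_Vword P hg hj
  obtain ⟨rf, hrf⟩ : ∃ rf : ℕ → List Lt, rf = fun k => rowW P (P.Z * g + P.b1 * j + k + 1) := ⟨_, rfl⟩
  have hr : recW P g j = br :: (List.range P.b1).flatMap rf := by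
    unfold recW
    rw [if_pos hC, hrf]
  obtain ⟨r, hs⟩ := range_flatMap_split rf hk
  obtain ⟨bb, hbb⟩ : ∃ bb : List Lt, bb = MdV_bits P (P.Z * g + P.b1 * j + k + 1) := ⟨_, rfl⟩
  have hbl : bb.length = K := by rw [hbb, MdV_bitslen]
  have hrk : rf k = row :: (bb.take A ++ bb.drop A) := by
    rw [List.take_append_drop, hbb, hrf]
    rfl
  have hw : word P = (MdV_V P g j ++ (br :: ((List.range k).flatMap rf ++ (row :: bb.take A)))) ++
      (bb.drop A ++ (r ++ v)) := by
    rw [hv, hr, hs, hrk]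
    simp only [List.append_assoc, List.cons_append]
  have hlen : oRow P g j k + 1 + A =
      (MdV_V P g j ++ (br :: ((List.range k).flatMap rf ++ (row :: bb.take A)))).length := by
    have h1 : ((List.range k).flatMap rf).length = k * (K + 1) :=
      length_flatMap_const rf fun i _ => by rw [hrf]; exact MdV_rowlen P _
    have h2 : (bb.take A).length = A := by
      rw [List.length_take, hbl]
      exact min_eq_left A.2.le
    simp only [List.length_append, List.length_cons, h1, h2, MdV_Vlen]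
    unfold oRow
    omega
  rw [hw, pre_cut f _ _ hlen, atl_wt_append, MdV_cons, atl_wt_append, MdV_cons, MdV_Vwt P hf, hf.hbr, hf.hrow,
    wt_flatMap_const f rf (c := 0) fun i _ => by rw [hrf]; exact MdV_rowwt P hf _,
    wt_zero f (bb.take A) fun b hb => MdV_bits0 P hf _ b (by rw [← hbb]; exact List.mem_of_mem_take hb)]
  ring

/-- the part before zone `n` of the main region -/
noncomputable def MdV_M (n : ℕ) : List Lt :=
  MdV_U P ++ (cenW P ++ (List.replicate P.B th ++ (List.range n).flatMap (zoneW P)))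

theorem MdV_Mlen (n : ℕ) : (MdV_M P n).length = oZone P n := by
  unfold MdV_M oZone oTab cenW
  simp only [List.length_append, List.length_replicate, MdV_Ulen]
  omega

theorem MdV_Mwt (hf : MdV_Z f) (n : ℕ) : wt f (MdV_M P n) = n * f mu := by
  unfold MdV_M cenW
  rw [atl_wt_append, atl_wt_append, atl_wt_append, MdV_Uwt P hf, wt_replicate, hf.hth,
    wt_flatMap_const f (tabW P) (c := 1) fun i _ => MdV_tabwt P hf i,
    wt_flatMap_const f (zoneW P) (c := f mu) fun i _ => MdV_zonewt P hf i]
  ring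

theorem MdV_Mpre (hf : MdV_Z f) {n : ℕ} (hn : n ≤ P.B) : pre f (word P) (oZone P n) = n * f mu := by
  obtain ⟨r, hr⟩ := range_flatMap_le (zoneW P) hn
  have hw : word P = MdV_M P n ++ (r ++ (List.replicate (P.B - 1) tp ++ stW P)) := by
    unfold word MdV_M MdV_U mainW
    rw [hr]
    simp only [List.append_assoc]
  rw [hw, pre_cut f _ _ (MdV_Mlen P n).symm, MdV_Mwt P hf]

theorem MdV_Spre (hf : MdV_Z f) {n : ℕ} (hn : n ≤ P.B) :
    pre f (word P) (oSz P n) = P.B * f mu + n * f sg := by
  obtain ⟨r, hr⟩ := range_flatMap_le (fun _ => szW P) hn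
  have hw : word P = (MdV_M P P.B ++ (List.replicate (P.B - 1) tp ++ (List.range n).flatMap (fun _ => szW P))) ++
      r := by
    unfold word MdV_M MdV_U mainW stW
    rw [hr]
    simp only [List.append_assoc]
  have hlen : oSz P n =
      (MdV_M P P.B ++ (List.replicate (P.B - 1) tp ++ (List.range n).flatMap (fun _ => szW P))).length := by
    have h1 : ((List.range n).flatMap (fun _ => szW P)).length = n * (2 * P.Nz + 1) :=
      length_flatMap_const _ fun i _ => MdV_szlen P
    simp only [List.length_append, List.length_replicate, h1, MdV_Mlen]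
    unfold oSz
    omega
  rw [hw, pre_cut f _ _ hlen, atl_wt_append, atl_wt_append, MdV_Mwt P hf, wt_replicate, hf.htp,
    wt_flatMap_const f (fun _ => szW P) (c := f sg) fun i _ => MdV_szwt P hf]
  ring

theorem mdl_TM_row (hP : P.Good) :
    ∀ g < P.B, ∀ j < P.Z / P.b1, P.Cm g j → ∀ k < P.b1, ∀ A : Fin K,
    pre wTM (word P) (oRow P g j k + 1 + A) = g + 1 :=
  MdV_rowpre P MdV_TM

theorem mdl_TS_row (hP : P.Good) :
    ∀ g < P.B, ∀ j < P.Z / P.b1, P.Cm g j → ∀ k < P.b1, ∀ A : Fin K,
    pre wTS (word P) (oRow P g j k + 1 + A) = g + 1 :=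
  MdV_rowpre P MdV_TS

theorem mdl_TS_rec (hP : P.Good) :
    ∀ g < P.B, ∀ j < P.Z / P.b1, pre wTS (word P) (oRec P g j) = g + 1 :=
  MdV_rec P MdV_TS

theorem mdl_TM_mu (hP : P.Good) :
    ∀ g < P.B, pre wTM (word P) (oMu P g) = g + 1 := by
  intro g hg
  unfold oMu
  rw [MdV_Mpre P MdV_TM (Nat.succ_le_of_lt hg)]
  have h : wTM mu = 1 := rfl
  rw [h]
  push_cast
  ring

theorem mdl_TS_sg (hP : P.Good) :
    ∀ g < P.B, pre wTS (word P) (oSg P g) = g + 1 := by
  intro g hg
  unfold oSg
  rw [MdV_Spre P MdV_TS (Nat.succ_le_of_lt hg)]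
  have h : wTS mu = 0 := rfl
  have h' : wTS sg = 1 := rfl
  rw [h, h']
  push_cast
  ring

end Pool.Agent.H29.CJ

end S_MdV

section S_MdU

/-!
# Weights of the certificate word, second part

Use only the STATEMENTS of the imported files (`FlM`, `AtL`).

As in the first part: `pre f w i = wt f u` when `w = u ++ v`, `i = u.length` (`pre_cut`); add up the weights of the parts.
`wRI = #mu - #cc + #cb`: `zoneW g` has weight `1` (`g` letters `cc`, one per group, and `g` letters `cb`), everything outside the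
main region `0`.  At `oMr g i 0 = oGrp g i + 1`: `g` full zones, `ka^g`, `i + 1` letters `cc`: `g - (i + 1)`.
`wRII = #mu + #cc - #cb - #ka + #kb`: `zoneW g` has weight `1`; inside zone `g` after `ka^g` and `i + 1` letters `cc` (and letters
`ee, pp, rr` of weight `0`): `g - g + (i + 1)`.
`wJ1 = #z + #io - #ib - #nu`: in the left region `y / Z` letters `z` among the first `y` (induction on `y`, `Nat.succ_div`); the whole left
region has `Nz`, cancelled by `nu^Nz`; a start zone has weight `0`; inside after `k` letters `io` it is `k`, at the end of `ib^Nz` it is `0`.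
`wJ2 = #mu + #sg - #io + #ib - #tp`, `wJ3 = #mu + #sg - #tp`: main region `B`, `tp^(B-1)`: `-(B-1)` (`B ≥ 1`), each start zone `1`.
-/

set_option autoImplicit false

namespace Pool.Agent.H29.CJ

open Lt Classical

variable {K : ℕ} (P : Prm K)

/-- the word before the main region -/
private noncomputable def MdU_hd : List Lt :=
  leftW P ++ (List.replicate P.Nz nu ++ (List.replicate P.F fi ++ (cenW P ++ List.replicate P.B th)))

private theorem MdU_word :
    word P = MdU_hd P ++ (mainW P ++ (List.replicate (P.B - 1) tp ++ stW P)) := by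
  simp [word, MdU_hd, List.append_assoc]

private theorem MdU_len : (MdU_hd P).length = oTab P P.B + P.B := by
  simp only [MdU_hd, List.length_append, List.length_replicate, oTab, cenW, leftW, List.length_map,
    List.length_range]
  ring

private theorem MdU_reg_cen : ∀ b ∈ cenW P, reg b = 3 := by
  intro b hb
  unfold cenW at hb
  rw [List.mem_flatMap] at hb
  obtain ⟨g, -, hb⟩ := hb
  unfold tabW at hb
  rw [List.mem_cons] at hb
  rcases hb with rfl | hb
  · rfl
  rw [List.mem_flatMap] at hb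
  obtain ⟨j, -, hb⟩ := hb
  unfold recW at hb
  split_ifs at hb
  · rw [List.mem_cons] at hb
    rcases hb with rfl | hb
    · rfl
    rw [List.mem_flatMap] at hb
    obtain ⟨k, -, hb⟩ := hb
    unfold rowW at hb
    rw [List.mem_cons] at hb
    rcases hb with rfl | hb
    · rfl
    rw [List.mem_map] at hb
    obtain ⟨A, -, rfl⟩ := hb
    rfl
  · rw [List.mem_singleton] at hb
    rw [hb]
    rfl

private theorem MdU_hd_zero (f : Lt → ℤ) (hf : ∀ b, reg b ≤ 4 → f b = 0) :
    wt f (MdU_hd P) = 0 := by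
  apply wt_zero
  intro b hb
  apply hf
  unfold MdU_hd at hb
  rw [List.mem_append, List.mem_append, List.mem_append, List.mem_append] at hb
  rcases hb with hb | hb | hb | hb | hb
  · unfold leftW at hb
    rw [List.mem_map] at hb
    obtain ⟨i, -, rfl⟩ := hb
    exact Nat.zero_le _
  · rw [List.eq_of_mem_replicate hb]; decide
  · rw [List.eq_of_mem_replicate hb]; decide
  · rw [MdU_reg_cen P b hb]; decide
  · rw [List.eq_of_mem_replicate hb]; decide

/-- prefix ending in zone `g` -/
private theorem MdU_zone (f : Lt → ℤ) {g : ℕ} (hg : g < P.B) (u v : List Lt)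
    (h : zoneW P g = u ++ v) {i : ℕ} (hi : i = oZone P g + u.length) :
    pre f (word P) i =
      wt f (MdU_hd P) + wt f ((List.range g).flatMap (zoneW P)) + wt f u := by
  obtain ⟨r, hr⟩ := range_flatMap_split (zoneW P) hg
  have e : word P = (MdU_hd P ++ ((List.range g).flatMap (zoneW P) ++ u)) ++
      (v ++ (r ++ (List.replicate (P.B - 1) tp ++ stW P))) := by
    rw [MdU_word, mainW, hr, h]
    simp only [List.append_assoc]
  rw [e, pre_cut f _ _ (i := i), atl_wt_append, atl_wt_append, add_assoc]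
  rw [hi, List.length_append, List.length_append, MdU_len, oZone]
  ring

private theorem MdU_mu (f : Lt → ℤ) {c : ℤ} {g : ℕ} (hg : g < P.B)
    (h : ∀ j < P.B, wt f (zoneW P j) = c) :
    pre f (word P) (oMu P g) = wt f (MdU_hd P) + ((g : ℤ) + 1) * c := by
  have h1 := MdU_zone P f hg (zoneW P g) [] (by simp) (i := oMu P g) (by
    rw [oMu, oZone, oZone, length_flatMap_succ]
    ring)
  rw [h1, wt_flatMap_const f (zoneW P) (c := c) (fun j hj => h j (by omega)), h g hg]
  ring

private theorem MdU_cons (f : Lt → ℤ) (b : Lt) (u : List Lt) : wt f (b :: u) = f b + wt f u := by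
  simp [wt]

private theorem MdU_nil (f : Lt → ℤ) : wt f ([] : List Lt) = 0 := by
  simp [wt]

private theorem MdU_mrec (f : Lt → ℤ) (h1 : f pp = 0) (h2 : f rr = 0) (h3 : f ee = 0) (i j : ℕ) :
    wt f (mrecW P i j) = 0 := by
  unfold mrecW
  split_ifs
  · rw [MdU_cons, wt_replicate, h1, h2]; ring
  · rw [MdU_cons, MdU_nil, h3]; ring

private theorem MdU_grp (f : Lt → ℤ) (h1 : f pp = 0) (h2 : f rr = 0) (h3 : f ee = 0) (i : ℕ) :
    wt f (grpW P i) = f cc := by
  unfold grpW
  rw [MdU_cons, wt_flatMap_const f (mrecW P i) (c := 0) (fun j _ => MdU_mrec P f h1 h2 h3 i j)]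
  ring

private theorem MdU_zoneW (f : Lt → ℤ) (h1 : f pp = 0) (h2 : f rr = 0) (h3 : f ee = 0) (g : ℕ) :
    wt f (zoneW P g) = g * (f ka + f cc + f cb + f kb) + f mu := by
  unfold zoneW
  rw [atl_wt_append, atl_wt_append, atl_wt_append, atl_wt_append, wt_replicate, wt_replicate,
    wt_replicate, MdU_cons, MdU_nil,
    wt_flatMap_const f (fun i => grpW P (i + 1)) (c := f cc)
      (fun j _ => MdU_grp P f h1 h2 h3 (j + 1))]
  ring

private theorem MdU_RI0 : ∀ b, reg b ≤ 4 → wRI b = 0 := by
  intro b hb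
  cases b <;> simp_all [reg, wRI]

private theorem MdU_RII0 : ∀ b, reg b ≤ 4 → wRII b = 0 := by
  intro b hb
  cases b <;> simp_all [reg, wRII]

private theorem MdU_J20 : ∀ b, reg b ≤ 4 → wJ2 b = 0 := by
  intro b hb
  cases b <;> simp_all [reg, wJ2]

private theorem MdU_J30 : ∀ b, reg b ≤ 4 → wJ3 b = 0 := by
  intro b hb
  cases b <;> simp_all [reg, wJ3]

/-- The first part of zone `g`, up to the `cc` of group `i + 1`. -/
private theorem MdU_grpcut {g i : ℕ} (hi : i < g) :
    ∃ r : List Lt, zoneW P g =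
      (List.replicate g ka ++ (List.range i).flatMap (fun i => grpW P (i + 1))) ++
        (grpW P (i + 1) ++ r) := by
  obtain ⟨r, hr⟩ := range_flatMap_split (fun i => grpW P (i + 1)) hi
  refine ⟨r ++ (List.replicate g cb ++ (List.replicate g kb ++ [mu])), ?_⟩
  unfold zoneW
  rw [hr]
  simp only [List.append_assoc]

private theorem MdU_grpwt (f : Lt → ℤ) (h1 : f pp = 0) (h2 : f rr = 0) (h3 : f ee = 0) (g i : ℕ) :
    wt f (List.replicate g ka ++ (List.range i).flatMap (fun i => grpW P (i + 1))) =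
      g * f ka + i * f cc := by
  rw [atl_wt_append, wt_replicate,
    wt_flatMap_const f (fun i => grpW P (i + 1)) (c := f cc)
      (fun j _ => MdU_grp P f h1 h2 h3 (j + 1))]

private theorem MdU_zones (f : Lt → ℤ) {c : ℤ} (h : ∀ j, wt f (zoneW P j) = c) (g : ℕ) :
    wt f ((List.range g).flatMap (zoneW P)) = g * c :=
  wt_flatMap_const f (zoneW P) (c := c) (fun j _ => h j)

private theorem MdU_zRI (j : ℕ) : wt wRI (zoneW P j) = 1 := by
  rw [MdU_zoneW P wRI rfl rfl rfl j]
  simp [wRI]

private theorem MdU_zRII (j : ℕ) : wt wRII (zoneW P j) = 1 := by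
  rw [MdU_zoneW P wRII rfl rfl rfl j]
  simp [wRII]

private theorem MdU_zJ1 (j : ℕ) : wt wJ1 (zoneW P j) = 0 := by
  rw [MdU_zoneW P wJ1 rfl rfl rfl j]
  simp [wJ1]

private theorem MdU_zJ2 (j : ℕ) : wt wJ2 (zoneW P j) = 1 := by
  rw [MdU_zoneW P wJ2 rfl rfl rfl j]
  simp [wJ2]

private theorem MdU_zJ3 (j : ℕ) : wt wJ3 (zoneW P j) = 1 := by
  rw [MdU_zoneW P wJ3 rfl rfl rfl j]
  simp [wJ3]

theorem mdl_RI_mu (hP : P.Good) :
    ∀ g < P.B, pre wRI (word P) (oMu P g) = g + 1 := by
  intro g hg
  rw [MdU_mu P wRI (c := 1) hg (fun j _ => MdU_zRI P j), MdU_hd_zero P wRI MdU_RI0]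
  ring

theorem mdl_RI_grp (hP : P.Good) :
    ∀ g < P.B, ∀ i < g, pre wRI (word P) (oMr P g i 0) = (g : ℤ) - (i + 1) := by
  intro g hg i hi
  obtain ⟨r, hr⟩ := MdU_grpcut P hi
  have h1 := MdU_zone P wRI hg
    ((List.replicate g ka ++ (List.range i).flatMap (fun i => grpW P (i + 1))) ++ [cc])
    ((List.range (P.Z / (2 * P.b2))).flatMap (mrecW P (i + 1)) ++ r) (by
      rw [hr]
      unfold grpW
      simp only [List.append_assoc, List.cons_append, List.nil_append]) (i := oMr P g i 0) (by
      rw [oMr, oGrp]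
      simp only [List.length_append, List.length_replicate, List.range_zero, List.flatMap_nil,
        List.length_nil, List.length_cons]
      ring)
  rw [h1, MdU_hd_zero P wRI MdU_RI0, MdU_zones P wRI (MdU_zRI P), atl_wt_append,
    MdU_grpwt P wRI rfl rfl rfl, MdU_cons, MdU_nil]
  simp only [wRI]
  ring

theorem mdl_RII_mu (hP : P.Good) :
    ∀ g < P.B, pre wRII (word P) (oMu P g) = g + 1 := by
  intro g hg
  rw [MdU_mu P wRII (c := 1) hg (fun j _ => MdU_zRII P j), MdU_hd_zero P wRII MdU_RII0]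
  ring

theorem mdl_RII_mr (hP : P.Good) :
    ∀ g < P.B, ∀ i < g, ∀ j < P.Z / (2 * P.b2), P.Mn (i + 1) j → ∀ k < 2 * P.b2,
    pre wRII (word P) (oMr P g i j + 1 + k) = i + 1 := by
  intro g hg i hi j hj hM k hk
  obtain ⟨r, hr⟩ := MdU_grpcut P hi
  obtain ⟨r', hr'⟩ := range_flatMap_split (mrecW P (i + 1)) hj
  have hrr : List.replicate (2 * P.b2) rr =
      List.replicate k rr ++ List.replicate (2 * P.b2 - k) rr := by
    rw [← List.replicate_add]
    congr 1
    omega
  have hmr : mrecW P (i + 1) j = [pp] ++ (List.replicate k rr ++ List.replicate (2 * P.b2 - k) rr) := by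
    unfold mrecW
    rw [if_pos hM, hrr]
    rfl
  have h1 := MdU_zone P wRII hg
    ((List.replicate g ka ++ (List.range i).flatMap (fun i => grpW P (i + 1))) ++ ([cc] ++
      ((List.range j).flatMap (mrecW P (i + 1)) ++ ([pp] ++ List.replicate k rr))))
    (List.replicate (2 * P.b2 - k) rr ++ (r' ++ r)) (by
      rw [hr]
      unfold grpW
      rw [hr', hmr]
      simp only [List.append_assoc, List.cons_append, List.nil_append])
    (i := oMr P g i j + 1 + k) (by
      rw [oMr, oGrp]
      simp only [List.length_append, List.length_replicate,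
        List.length_nil, List.length_cons]
      ring)
  rw [h1, MdU_hd_zero P wRII MdU_RII0, MdU_zones P wRII (MdU_zRII P), atl_wt_append,
    MdU_grpwt P wRII rfl rfl rfl, atl_wt_append, atl_wt_append, atl_wt_append, MdU_cons, MdU_nil,
    MdU_cons, MdU_nil, wt_replicate,
    wt_flatMap_const wRII (mrecW P (i + 1)) (c := 0)
      (fun j _ => MdU_mrec P wRII rfl rfl rfl (i + 1) j)]
  simp only [wRII]
  ring

private theorem MdU_leftlen : (leftW P).length = P.Nz * P.Z := by
  simp [leftW]

theorem mdl_J1_left (hP : P.Good) :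
    ∀ y ≤ P.Nz * P.Z, pre wJ1 (word P) y = ((y / P.Z : ℕ) : ℤ) := by
  intro y
  induction y with
  | zero => intro _; rw [pre_zero]; simp
  | succ y ih =>
    intro hy
    have h1 : (word P)[y]? = some (lefL P y) := by
      have h2 : y < (leftW P).length := by rw [MdU_leftlen]; omega
      unfold word
      rw [List.getElem?_append_left h2]
      unfold leftW
      rw [List.getElem?_map, List.getElem?_range (by omega)]
      rfl
    rw [pre_succ h1, ih (by omega), Nat.succ_div]
    by_cases hd : P.Z ∣ y + 1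
    · rw [if_pos hd]
      have h3 : wJ1 (lefL P y) = 1 := by
        unfold lefL
        rw [decide_eq_true hd]
        rfl
      rw [h3]
      push_cast
      ring
    · rw [if_neg hd]
      have h3 : wJ1 (lefL P y) = 0 := by
        unfold lefL
        rw [decide_eq_false hd]
        rfl
      rw [h3]
      simp

private theorem MdU_hdJ1 (hP : P.Good) : wt wJ1 (MdU_hd P) = 0 := by
  have h1 : wt wJ1 (leftW P) = P.Nz := by
    have h2 := mdl_J1_left P hP (P.Nz * P.Z) le_rfl
    have h3 : word P = leftW P ++ (List.replicate P.Nz nu ++ (List.replicate P.F fi ++ (cenW P ++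
      (List.replicate P.B th ++ (mainW P ++ (List.replicate (P.B - 1) tp ++ stW P)))))) := rfl
    rw [h3, pre_cut wJ1 _ _ (MdU_leftlen P).symm] at h2
    rw [h2, Nat.mul_div_cancel _ hP.Zpos]
  unfold MdU_hd
  rw [atl_wt_append, atl_wt_append, atl_wt_append, atl_wt_append, wt_replicate, wt_replicate,
    wt_replicate, h1, wt_zero wJ1 (cenW P)]
  · simp [wJ1]
  · intro b hb
    have := MdU_reg_cen P b hb
    cases b <;> simp_all [reg, wJ1]

private theorem MdU_szlen : (szW P).length = 2 * P.Nz + 1 := by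
  simp [szW]
  ring

/-- prefix ending in start zone `g` -/
private theorem MdU_st (f : Lt → ℤ) {g : ℕ} (hg : g < P.B) (u v : List Lt)
    (h : szW P = u ++ v) {i : ℕ} (hi : i = oSz P g + u.length) :
    pre f (word P) i =
      wt f (MdU_hd P) + wt f (mainW P) + (P.B - 1 : ℕ) * f tp + g * wt f (szW P) + wt f u := by
  obtain ⟨r, hr⟩ := range_flatMap_split (fun _ : ℕ => szW P) hg
  have e : word P = (MdU_hd P ++ (mainW P ++ (List.replicate (P.B - 1) tp ++
      ((List.range g).flatMap (fun _ : ℕ => szW P) ++ u)))) ++ (v ++ r) := by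
    rw [MdU_word, stW, hr, h]
    simp only [List.append_assoc]
  rw [e, pre_cut f _ _ (i := i), atl_wt_append, atl_wt_append, atl_wt_append, atl_wt_append,
    wt_replicate, wt_flatMap_const f (fun _ : ℕ => szW P) (c := wt f (szW P)) (fun _ _ => rfl)]
  · ring
  · rw [hi]
    simp only [List.length_append, List.length_replicate]
    rw [MdU_len, length_flatMap_const (fun _ : ℕ => szW P) (c := 2 * P.Nz + 1)
      (fun _ _ => MdU_szlen P), oSz, oZone, mainW]
    ring

private theorem MdU_szwt (f : Lt → ℤ) :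
    wt f (szW P) = P.Nz * f io + P.Nz * f ib + f sg := by
  unfold szW
  rw [atl_wt_append, atl_wt_append, wt_replicate, wt_replicate, MdU_cons, MdU_nil]
  ring

/-- prefix ending at `oIo g k` -/
private theorem MdU_io (f : Lt → ℤ) {g k : ℕ} (hg : g < P.B) (hk : k < P.Nz)
    (hf : f io + f ib = 0) :
    pre f (word P) (oIo P g k) =
      wt f (MdU_hd P) + wt f (mainW P) + (P.B - 1 : ℕ) * f tp + g * wt f (szW P) + k * f io := by
  by_cases h0 : k = 0
  · rw [MdU_st P f hg (List.replicate P.Nz io ++ List.replicate P.Nz ib) [sg]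
      (by simp [szW]) (i := oIo P g k) (by
        rw [oIo, if_pos h0]
        simp only [List.length_append, List.length_replicate]
        ring), atl_wt_append, wt_replicate, wt_replicate, h0]
    have h1 : (P.Nz : ℤ) * f io + P.Nz * f ib = 0 := by
      rw [← mul_add, hf, mul_zero]
    rw [h1]
    push_cast
    ring
  · have hs : List.replicate P.Nz io = List.replicate k io ++ List.replicate (P.Nz - k) io := by
      rw [← List.replicate_add]
      congr 1
      omega
    rw [MdU_st P f hg (List.replicate k io)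
      (List.replicate (P.Nz - k) io ++ (List.replicate P.Nz ib ++ [sg]))
      (by rw [szW, hs]; simp only [List.append_assoc]) (i := oIo P g k) (by
        rw [oIo, if_neg h0]
        simp only [List.length_replicate]), wt_replicate]

private theorem MdU_main (f : Lt → ℤ) {c : ℤ} (h : ∀ j, wt f (zoneW P j) = c) :
    wt f (mainW P) = P.B * c := by
  unfold mainW
  exact MdU_zones P f h P.B

theorem mdl_J1_io (hP : P.Good) :
    ∀ g < P.B, ∀ k < P.Nz, pre wJ1 (word P) (oIo P g k) = k := by
  intro g hg k hk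
  rw [MdU_io P wJ1 hg hk (by rfl), MdU_hdJ1 P hP, MdU_main P wJ1 (MdU_zJ1 P), MdU_szwt]
  simp only [wJ1]
  ring

theorem mdl_J2_mu (hP : P.Good) :
    ∀ g < P.B, pre wJ2 (word P) (oMu P g) = g + 1 := by
  intro g hg
  rw [MdU_mu P wJ2 (c := 1) hg (fun j _ => MdU_zJ2 P j), MdU_hd_zero P wJ2 MdU_J20]
  ring

theorem mdl_J2_io (hP : P.Good) :
    ∀ g < P.B, ∀ k < P.Nz, pre wJ2 (word P) (oIo P g k) = 1 + (g : ℤ) - k := by
  intro g hg k hk
  have hB : 1 ≤ P.B := hP.Bpos
  rw [MdU_io P wJ2 hg hk (by rfl), MdU_hd_zero P wJ2 MdU_J20, MdU_main P wJ2 (MdU_zJ2 P), MdU_szwt]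
  simp only [wJ2]
  rw [Nat.cast_sub hB]
  push_cast
  ring

theorem mdl_J3_mu (hP : P.Good) :
    ∀ g < P.B, pre wJ3 (word P) (oMu P g) = g + 1 := by
  intro g hg
  rw [MdU_mu P wJ3 (c := 1) hg (fun j _ => MdU_zJ3 P j), MdU_hd_zero P wJ3 MdU_J30]
  ring

theorem mdl_J3_sg (hP : P.Good) :
    ∀ g < P.B, pre wJ3 (word P) (oSg P g) = g + 2 := by
  intro g hg
  have hB : 1 ≤ P.B := hP.Bpos
  rw [MdU_st P wJ3 hg (szW P) [] (by simp) (i := oSg P g) (by
      rw [oSg, oSz, oSz, MdU_szlen]
      ring), MdU_hd_zero P wJ3 MdU_J30, MdU_main P wJ3 (MdU_zJ3 P), MdU_szwt]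
  simp only [wJ3]
  rw [Nat.cast_sub hB]
  push_cast
  ring

end Pool.Agent.H29.CJ

end S_MdU

section S_Mdl

/-!
# The certificate word satisfies the interface
-/

set_option autoImplicit false

namespace Pool.Agent.H29.CJ

open Lt Classical

theorem mdl_word {K : ℕ} (P : Prm K) (hP : P.Good) : Mdl P (word P) where
  left := mdl_left P hP
  tau_at := mdl_tau_at P hP
  rec_step := mdl_rec_step P hP
  rec_emp := mdl_rec_emp P hP
  rec_br := mdl_rec_br P hP
  row_step := mdl_row_step P hP
  row_bit := mdl_row_bit P hP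
  row_le := mdl_row_le P hP
  rec_le := mdl_rec_le P hP
  mu_at := mdl_mu_at P hP
  mu_le := mdl_mu_le P hP
  grp_at := mdl_grp_at P hP
  mr_step := mdl_mr_step P hP
  mr_pp := mdl_mr_pp P hP
  mu_io := mdl_mu_io P hP
  io_at := mdl_io_at P hP
  sg_at := mdl_sg_at P hP
  sg_only := mdl_sg_only P hP
  sg_first := mdl_sg_first P hP
  sg_last := mdl_sg_last P hP
  TM_row := mdl_TM_row P hP
  TS_row := mdl_TS_row P hP
  TS_rec := mdl_TS_rec P hP
  TM_mu := mdl_TM_mu P hP
  TS_sg := mdl_TS_sg P hP
  RI_mu := mdl_RI_mu P hP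
  RI_grp := mdl_RI_grp P hP
  RII_mu := mdl_RII_mu P hP
  RII_mr := mdl_RII_mr P hP
  J1_left := mdl_J1_left P hP
  J1_io := mdl_J1_io P hP
  J2_mu := mdl_J2_mu P hP
  J2_io := mdl_J2_io P hP
  J3_mu := mdl_J3_mu P hP
  J3_sg := mdl_J3_sg P hP

end Pool.Agent.H29.CJ

end S_Mdl
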