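import Mathlib
import Pool.Agent.H29.CL.M3
import Pool.Agent.H29.CL.M4
import Pool.Agent.H29.CL.M5

/-! Conjunctive languages and homomorphisms, part M6: this file joins several modules to save build time. -/

section S_CpLk

/-!
# Completeness of the lookups

Use only the STATEMENTS of `AtL` and the interface `Mdl`.

Notation: `Z = P.Z` etc.  Left letters: `M.left`: position `i < Nz Z` carries `a (Z ∣ i+1) (b1 ∣ i+1) (b2 ∣ i+1)`; as `b1 ∣ Z` a
`z` letter is a `zt` letter.  `Lo Z x = Z - x % Z`.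
(0) `LkP`: let `y < Nz Z` with `Lo Z y = b1 j + 1`, `j < Z/b1`, `g < B`.  Then `At w LkP y (oRec g j)`.
 As `b1 ∣ Z` and `Z ∣ y + Lo Z y`, we get `b1 ∣ y + 1`: `y` is a `t` letter.  `j = 0`: `Lo = 1`, `y` is a `zt` letter, then `univ` from `y + 1` to
 `oRec g 0 - 1` (`tau_at`), then `tau`.  `j = i + 1`: `y` is a `tt` letter (`Lo > 1`, not `z`); second alternative with `Sync` exponent `i`:
 from `y + 1` there are `i` steps `n* tt` of length `b1` each (for a position `q` with `b1 ∣ q`, `q + b1 < y + Lo Z y`: letters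
 `q, ..., q + b1 - 2` are `n` letters, `q + b1 - 1` is `tt`), then `n* zt` up to `y + Lo Z y = y + 1 + b1 (i+1)`, then `univ` up to
 `oRec g 0 - 1`, `tau`, `Rec` from `oRec g 0` to `oRec g 1`, and `i` `Rec`s from `oRec g 1` to `oRec g (i+1)` (`rec_step`, `at_pw`).
(1) `lkE_complete`: `Lo Z x = b1 j + k + 1`, `k < b1`: positions `x, ..., x + k - 1` are `n` letters, `y = x + k` has `Lo Z y = b1 j + 1`
 (no multiple of `b1` among `x + 1, ..., x + k`).  `k` may be `0`.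
(2) `lkA_complete`: `Sync (LC isN) (LkP br) Row` with exponent `k`: `k` `n` letters, `LkP` from `x + k` to `oRec g j`, `br`, `k` rows from
 `oRow g j 0 = oRec g j + 1` to `oRow g j k`, then `row`, then `A` bits (`row_bit` for smaller indices).
(3) `mainLk_complete`: after the address, position `oRow g j k + 1 + A` carries `bit true` (`row_bit`), the segment up to `oMu g` ends with `mu`
 (`mu_at`, `row_le`), weights `TM_row`, `TM_mu`.  `stLk_complete`: `bit false`, `sg_at`, `TS_row`, `TS_sg`; the inequality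
 `oRow g j k + 1 + A < oSg g - 1` from `row_le`, `mu_io` and `io_at` (with `k = 0 < Nz`).
 `stEm_complete`: `rec_emp`, `rec_le`, `TS_rec`, `TS_sg`.
 Value: `m = Z g + Lo Z x = Z g + b1 j + k + 1`.
-/

set_option autoImplicit false

namespace Pool.Agent.H29.CJ

open Lt Classical

variable {K : ℕ} {P : Prm K} {w : List Lt}

private lemma cpk_Lo_pos {Z : ℕ} (hZ : 0 < Z) (x : ℕ) : 1 ≤ Lo Z x := by
  have := Nat.mod_lt x hZ
  unfold Lo
  omega

private lemma cpk_Lo_le (Z x : ℕ) : Lo Z x ≤ Z := by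
  unfold Lo
  omega

private lemma cpk_add_Lo {Z : ℕ} (hZ : 0 < Z) (x : ℕ) : x + Lo Z x = Z * (x / Z + 1) := by
  have h1 := Nat.mod_lt x hZ
  have h2 := Nat.div_add_mod x Z
  unfold Lo
  rw [Nat.mul_add, Nat.mul_one]
  omega

private lemma cpk_dvd {Z : ℕ} (hZ : 0 < Z) (x : ℕ) : Z ∣ x + Lo Z x := by
  rw [cpk_add_Lo hZ]
  exact Dvd.intro _ rfl

private lemma cpk_end {Z N x : ℕ} (hZ : 0 < Z) (hx : x < N * Z) : x + Lo Z x ≤ N * Z := by
  rw [cpk_add_Lo hZ, Nat.mul_comm N Z]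
  apply Nat.mul_le_mul_left
  exact (Nat.div_lt_iff_lt_mul hZ).2 hx

/-- a distance smaller than `b` from a multiple of `b` -/
private lemma cpk_not_dvd {b e q : ℕ} (he : b ∣ e) (h1 : q < e) (h2 : e < q + b) : ¬ b ∣ q := by
  intro h
  have h3 := Nat.dvd_sub he h
  have h4 := Nat.le_of_dvd (by omega) h3
  omega

private lemma cpk_not_dvd' {b e q : ℕ} (he : b ∣ e) (h1 : e < q) (h2 : q < e + b) : ¬ b ∣ q := by
  intro h
  have h3 := Nat.dvd_sub h he
  have h4 := Nat.le_of_dvd (by omega) h3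
  omega

private lemma cpk_Lo_add {Z x k : ℕ} (hZ : 0 < Z) (hk : k < Lo Z x) :
    Lo Z (x + k) = Lo Z x - k := by
  have h1 := Nat.mod_lt x hZ
  have h2 : (x + k) % Z = x % Z + k := by
    have h3 : x % Z + k < Z := by
      unfold Lo at hk
      omega
    rw [Nat.add_mod, Nat.mod_eq_of_lt (show k < Z by omega), Nat.mod_eq_of_lt h3]
  unfold Lo
  rw [h2]
  omega

private lemma cpk_isN (hP : P.Good) (M : Mdl P w) {i : ℕ} (hi : i < P.Nz * P.Z)
    (h : ¬ P.b1 ∣ i + 1) : Is w i isN := by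
  refine ⟨_, M.left i hi, ?_⟩
  have hZ : ¬ P.Z ∣ i + 1 := fun h' => h (hP.b1Z.trans h')
  refine ⟨decide (P.b2 ∣ i + 1), ?_⟩
  simp [lefL, h, hZ]

private lemma cpk_isTT (M : Mdl P w) {i : ℕ} (hi : i < P.Nz * P.Z)
    (h : P.b1 ∣ i + 1) (hZ : ¬ P.Z ∣ i + 1) : Is w i isTT := by
  refine ⟨_, M.left i hi, ?_⟩
  refine ⟨decide (P.b2 ∣ i + 1), ?_⟩
  simp [lefL, h, hZ]

private lemma cpk_isZT (hP : P.Good) (M : Mdl P w) {i : ℕ} (hi : i < P.Nz * P.Z)
    (hZ : P.Z ∣ i + 1) : Is w i isZT := by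
  refine ⟨_, M.left i hi, ?_⟩
  have h : P.b1 ∣ i + 1 := hP.b1Z.trans hZ
  refine ⟨decide (P.b2 ∣ i + 1), ?_⟩
  simp [lefL, h, hZ]

private lemma cpk_stN (hP : P.Good) (M : Mdl P w) {x y : ℕ} (hxy : x ≤ y)
    (hy : y ≤ P.Nz * P.Z) (h : ∀ t, x ≤ t → t < y → ¬ P.b1 ∣ t + 1) (hl : y ≤ w.length) :
    At w (ST isN) x y :=
  at_ST.2 ⟨hxy, hl, fun t h1 h2 => cpk_isN hP M (by omega) (h t h1 h2)⟩

private lemma cpk_len (M : Mdl P w) {g : ℕ} (hg : g < P.B) : P.Nz * P.Z ≤ w.length := by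
  obtain ⟨h1, h2, h3⟩ := M.tau_at g hg
  exact h3.trans h2.lt.le

private lemma cpk_tau (M : Mdl P w) {g y : ℕ} (hg : g < P.B) (hy : y ≤ P.Nz * P.Z) :
    At w (cat Set.univ (LC (· = tau))) y (oRec P g 0) := by
  obtain ⟨h1, h2, h3⟩ := M.tau_at g hg
  refine at_cat.2 ⟨oRec P g 0 - 1, at_univ.2 ⟨hy.trans h3, h2.lt.le⟩, at_LC.2 ⟨?_, h2⟩⟩
  omega

/-- the address of a record from a `t` letter -/
private lemma cpk_LkP (hP : P.Good) (M : Mdl P w) {y g j : ℕ} (hy : y < P.Nz * P.Z)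
    (hg : g < P.B) (hLo : Lo P.Z y = P.b1 * j + 1) :
    j < P.Z / P.b1 ∧ At w LkP y (oRec P g j) := by
  have hb := hP.b1pos
  have hZ := hP.Zpos
  have hle := cpk_Lo_le P.Z y
  have hend := cpk_end hZ hy
  have hdv := cpk_dvd hZ y
  have hj : j < P.Z / P.b1 := by
    obtain ⟨q, hq⟩ := hP.b1Z
    have hle' : P.b1 * j + 1 ≤ P.b1 * q := by rw [← hq, ← hLo]; exact hle
    rw [hq, Nat.mul_div_cancel_left q hb]
    by_contra hc
    have h1 : P.b1 * q ≤ P.b1 * j := Nat.mul_le_mul_left _ (by omega)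
    omega
  refine ⟨hj, ?_⟩
  have hdb : P.b1 ∣ y + Lo P.Z y := hP.b1Z.trans hdv
  have hyb : P.b1 ∣ y + 1 := by
    have e : y + Lo P.Z y = P.b1 * j + (y + 1) := by rw [hLo]; ring
    rw [e] at hdb
    exact (Nat.dvd_add_right (Dvd.intro _ rfl)).1 hdb
  have hlen := cpk_len M hg
  rcases j with _ | i
  · -- a z letter
    rw [Nat.mul_zero, Nat.zero_add] at hLo
    rw [hLo] at hdv hend
    refine at_union.2 (Or.inl (at_cat.2 ⟨y + 1, at_LC.2 ⟨rfl, cpk_isZT hP M hy hdv⟩, ?_⟩))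
    exact cpk_tau M hg hend
  · have he : y + Lo P.Z y = y + 1 + P.b1 * i + P.b1 := by rw [hLo]; ring
    have hnz : ∀ q, y ≤ q → q + 1 < y + Lo P.Z y → ¬ P.Z ∣ q + 1 := by
      intro q h1 h2
      refine cpk_not_dvd hdv h2 ?_
      omega
    refine at_union.2 (Or.inr (at_cat.2 ⟨y + 1, at_LC.2 ⟨rfl, cpk_isTT M hy hyb ?_⟩, ?_⟩))
    · apply hnz y le_rfl
      omega
    · refine at_Sync.2 ⟨i, y + 1 + P.b1 * i, oRec P g 1, ?_, ?_, ?_⟩
      · refine at_pw.2 ⟨by omega, fun t => y + 1 + P.b1 * t, by simp, rfl, ?_⟩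
        intro t ht
        have hti : P.b1 * (t + 1) ≤ P.b1 * i := Nat.mul_le_mul_left _ ht
        have e1 : P.b1 * (t + 1) = P.b1 * t + P.b1 := by ring
        have hq : P.b1 ∣ y + 1 + P.b1 * t := dvd_add hyb (Dvd.intro _ rfl)
        show At w (cat (ST isN) (LC isTT)) (y + 1 + P.b1 * t) (y + 1 + P.b1 * (t + 1))
        have e2 : y + 1 + P.b1 * (t + 1) = y + 1 + P.b1 * t + P.b1 := by rw [e1]; ring
        rw [e2]
        set q := y + 1 + P.b1 * t with hqd
        refine at_cat.2 ⟨q + P.b1 - 1, ?_, at_LC.2 ⟨by omega, ?_⟩⟩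
        · refine cpk_stN hP M (by omega) (by omega) ?_ (by omega)
          intro s h1 h2
          exact cpk_not_dvd' hq (by omega) (by omega)
        · apply cpk_isTT M (by omega)
          · have e3 : q + P.b1 - 1 + 1 = q + P.b1 := by omega
            rw [e3]
            exact dvd_add hq dvd_rfl
          · apply hnz
            · omega
            · omega
      · have hq : P.b1 ∣ y + 1 + P.b1 * i := dvd_add hyb (Dvd.intro _ rfl)
        set q := y + 1 + P.b1 * i with hqd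
        refine at_cat.2 ⟨q + P.b1 - 1, ?_, at_cat.2 ⟨q + P.b1, at_LC.2 ⟨by omega, ?_⟩, ?_⟩⟩
        · refine cpk_stN hP M (by omega) (by omega) ?_ (by omega)
          intro s h1 h2
          exact cpk_not_dvd' hq (by omega) (by omega)
        · apply cpk_isZT hP M (by omega)
          have e3 : q + P.b1 - 1 + 1 = q + P.b1 := by omega
          rw [e3, ← he]
          exact hdv
        · have h4 := cpk_tau M hg (show q + P.b1 ≤ P.Nz * P.Z by omega)
          obtain ⟨k, h5, h6⟩ := at_cat.1 h4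
          exact at_cat.2 ⟨k, h5, at_cat.2 ⟨oRec P g 0, h6, M.rec_step g hg 0 (by omega)⟩⟩
      · have hl : oRec P g (i + 1) ≤ w.length := (M.rec_step g hg i (by omega)).le_length
        refine at_pw.2 ⟨hl, fun t => oRec P g (t + 1), rfl, rfl, ?_⟩
        intro t ht
        exact M.rec_step g hg (t + 1) (by omega)

/-- the shift to the next `t` letter -/
private lemma cpk_shift (hP : P.Good) {x j k : ℕ} (hx : x < P.Nz * P.Z)
    (hLo : Lo P.Z x = P.b1 * j + k + 1) (hk : k < P.b1) :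
    x + k < P.Nz * P.Z ∧ Lo P.Z (x + k) = P.b1 * j + 1 ∧
      ∀ t, x ≤ t → t < x + k → ¬ P.b1 ∣ t + 1 := by
  have hZ := hP.Zpos
  have hend := cpk_end hZ hx
  refine ⟨by omega, ?_, ?_⟩
  · rw [cpk_Lo_add hZ (by omega)]
    omega
  · intro t h1 h2
    have hdb : P.b1 ∣ x + Lo P.Z x := hP.b1Z.trans (cpk_dvd hZ x)
    have e : x + Lo P.Z x = P.b1 * j + (x + k + 1) := by rw [hLo]; ring
    rw [e] at hdb
    have hdk : P.b1 ∣ x + k + 1 := (Nat.dvd_add_right (Dvd.intro _ rfl)).1 hdb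
    exact cpk_not_dvd hdk (by omega) (by omega)

theorem lkE_complete (hP : P.Good) (M : Mdl P w) {x g j k : ℕ} (hx : x < P.Nz * P.Z)
    (hg : g < P.B) (hLo : Lo P.Z x = P.b1 * j + k + 1) (hk : k < P.b1) :
    j < P.Z / P.b1 ∧ At w LkE x (oRec P g j) := by
  obtain ⟨h1, h2, h3⟩ := cpk_shift hP hx hLo hk
  obtain ⟨h4, h5⟩ := cpk_LkP hP M h1 hg h2
  refine ⟨h4, at_cat.2 ⟨x + k, ?_, h5⟩⟩
  have hlen := cpk_len M hg
  exact cpk_stN hP M (by omega) h1.le h3 (by omega)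

theorem lkA_complete (hP : P.Good) (M : Mdl P w) {x g j k : ℕ} (hx : x < P.Nz * P.Z)
    (hg : g < P.B) (hLo : Lo P.Z x = P.b1 * j + k + 1) (hk : k < P.b1) (hC : P.Cm g j)
    (A : Fin K) : At w (LkA A) x (oRow P g j k + 1 + A) := by
  obtain ⟨h1, h2, h3⟩ := cpk_shift hP hx hLo hk
  obtain ⟨h4, h5⟩ := cpk_LkP hP M h1 hg h2
  have hlen := cpk_len M hg
  have hr := M.row_step g hg j h4 hC
  have hbit := M.row_bit g hg j h4 hC k hk
  have hrow := (hr k hk).2
  refine at_cat.2 ⟨oRow P g j k, ?_, ?_⟩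
  · refine at_Sync.2 ⟨k, x + k, oRec P g j + 1, ?_, ?_, ?_⟩
    · refine at_pw_LC.2 ⟨rfl, by omega, fun t h6 h7 => ?_⟩
      exact cpk_isN hP M (by omega) (h3 t h6 h7)
    · exact at_cat.2 ⟨oRec P g j, h5, at_LC.2 ⟨rfl, M.rec_br g hg j h4 hC⟩⟩
    · refine at_pw.2 ⟨hrow.lt.le, fun t => oRow P g j t, ?_, rfl, ?_⟩
      · simp [oRow]
      · intro t ht
        exact (hr t (by omega)).1
  · refine at_cat.2 ⟨oRow P g j k + 1, at_LC.2 ⟨rfl, hrow⟩, at_pw_LC.2 ⟨rfl, ?_, ?_⟩⟩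
    · obtain ⟨h6, -⟩ := List.getElem?_eq_some_iff.1 (hbit A)
      exact h6.le
    · intro t h6 h7
      have hA := A.2
      have h8 := hbit ⟨t - (oRow P g j k + 1), by omega⟩
      have e : oRow P g j k + 1 + (t - (oRow P g j k + 1)) = t := by omega
      simp only [e] at h8
      exact ⟨_, h8, _, rfl⟩

/-- the coordinates of a value -/
private lemma cpk_coord (hP : P.Good) {x g m : ℕ} (hm : m = P.Z * g + Lo P.Z x) :
    ∃ j k, Lo P.Z x = P.b1 * j + k + 1 ∧ k < P.b1 ∧ m = P.Z * g + P.b1 * j + k + 1 ∧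
      (CmV P m ↔ P.Cm g j) := by
  have hZ := hP.Zpos
  have hL1 := cpk_Lo_pos hZ x
  have hL2 := cpk_Lo_le P.Z x
  have hd := Nat.div_add_mod (Lo P.Z x - 1) P.b1
  refine ⟨(Lo P.Z x - 1) / P.b1, (Lo P.Z x - 1) % P.b1, by omega,
    Nat.mod_lt _ hP.b1pos, by omega, ?_⟩
  have e1 : m - 1 = P.Z * g + (Lo P.Z x - 1) := by omega
  have e2 : (m - 1) / P.Z = g := by
    rw [e1, Nat.mul_add_div hZ, Nat.div_eq_of_lt (by omega), Nat.add_zero]
  have e3 : (m - 1) % P.Z = Lo P.Z x - 1 := by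
    rw [e1, Nat.mul_add_mod, Nat.mod_eq_of_lt (by omega)]
  unfold CmV
  rw [e2, e3]

/-- the last segment of a lookup -/
private lemma cpk_tail {c d : Lt} {f : Lt → ℤ} {q e : ℕ} (h1 : w[q]? = some c)
    (h2 : Is w (e - 1) (· = d)) (h3 : q < e - 1) (h4 : pre f w e = pre f w q) :
    At w ((cat (LC (· = c)) Set.univ ∩ cat Set.univ (LC (· = d))) ∩ WT f 0) q e := by
  have h5 := h2.lt
  refine at_inter.2 ⟨at_inter.2 ⟨?_, ?_⟩, at_WT.2 ⟨by omega, by omega, by linarith⟩⟩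
  · exact at_cat.2 ⟨q + 1, at_LC.2 ⟨rfl, c, h1, rfl⟩, at_univ.2 ⟨by omega, by omega⟩⟩
  · exact at_cat.2 ⟨e - 1, at_univ.2 ⟨by omega, by omega⟩, at_LC.2 ⟨by omega, h2⟩⟩

/-- a committed true value can be looked up -/
theorem mainLk_complete (hP : P.Good) (M : Mdl P w) {x g m : ℕ} (hx : x < P.Nz * P.Z)
    (hg : g < P.B) (hm : m = P.Z * g + Lo P.Z x) (hC : CmV P m) {A : Fin K} (hA : P.TT A m) :
    At w (MainLk A) x (oMu P g) := by
  obtain ⟨j, k, h1, h2, h3, h4⟩ := cpk_coord hP hm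
  have hC' := h4.1 hC
  have hj := (lkE_complete hP M hx hg h1 h2).1
  have hb := M.row_bit g hg j hj hC' k h2 A
  rw [← h3, decide_eq_true hA] at hb
  refine at_cat.2 ⟨_, lkA_complete hP M hx hg h1 h2 hC' A, ?_⟩
  refine cpk_tail hb (M.mu_at g hg).2 (M.row_le g hg j hj hC' k h2 A g hg) ?_
  rw [M.TM_mu g hg, M.TM_row g hg j hj hC' k h2 A]

private lemma cpk_mu_sg (hP : P.Good) (M : Mdl P w) {g : ℕ} (hg : g < P.B) :
    oMu P g - 1 < oSg P g - 1 ∨ oMu P g ≤ oSg P g - 1 := by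
  have h1 := M.mu_io g hg g hg 0
  have h2 := (M.io_at g hg 0 hP.Nzpos).2.2.1
  right
  omega

/-- a committed false value -/
theorem stLk_complete (hP : P.Good) (M : Mdl P w) {x g m : ℕ} (hx : x < P.Nz * P.Z)
    (hg : g < P.B) (hm : m = P.Z * g + Lo P.Z x) (hC : CmV P m) {A : Fin K} (hA : ¬ P.TT A m) :
    At w (StLk A) x (oSg P g) := by
  obtain ⟨j, k, h1, h2, h3, h4⟩ := cpk_coord hP hm
  have hC' := h4.1 hC
  have hj := (lkE_complete hP M hx hg h1 h2).1
  have hb := M.row_bit g hg j hj hC' k h2 A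
  rw [← h3, decide_eq_false hA] at hb
  refine at_cat.2 ⟨_, lkA_complete hP M hx hg h1 h2 hC' A, ?_⟩
  have h5 := M.row_le g hg j hj hC' k h2 A g hg
  have h6 := cpk_mu_sg hP M hg
  refine cpk_tail hb (M.sg_at g hg).2 (by omega) ?_
  rw [M.TS_sg g hg, M.TS_row g hg j hj hC' k h2 A]

/-- a value that is not committed -/
theorem stEm_complete (hP : P.Good) (M : Mdl P w) {x g m : ℕ} (hx : x < P.Nz * P.Z)
    (hg : g < P.B) (hm : m = P.Z * g + Lo P.Z x) (hC : ¬ CmV P m) :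
    At w StEm x (oSg P g) := by
  obtain ⟨j, k, h1, h2, h3, h4⟩ := cpk_coord hP hm
  have hC' : ¬ P.Cm g j := fun h => hC (h4.2 h)
  obtain ⟨hj, hE⟩ := lkE_complete hP M hx hg h1 h2
  refine at_cat.2 ⟨_, hE, ?_⟩
  have h5 := M.rec_le g hg j hj g hg
  have h6 := cpk_mu_sg hP M hg
  obtain ⟨c, hc, hce⟩ := M.rec_emp g hg j hj hC'
  have hce' : c = emp := hce
  rw [hce'] at hc
  refine cpk_tail hc (M.sg_at g hg).2 (by omega) ?_
  rw [M.TS_sg g hg, M.TS_rec g hg j hj]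

end Pool.Agent.H29.CJ

end S_CpLk

section S_CpTr

/-!
# Completeness of the exact translations

Use only the STATEMENTS of `AtL` and the interface `Mdl`.

Let `β = b2`, `y = x + 2β ≤ Nz Z`.  All letters of `[x, y)` are left letters (`M.left`).  The number of `g` letters (`β ∣ i + 1`) in
`[x, x + 2β)` is `2` and the number of `z` letters is `y/Z - x/Z` (counting multiples: `pre cG w i = i/β`, `pre cZ w i = i/Z` for
`i ≤ Nz Z`, by induction with `pre_succ` and `Nat.succ_div`).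
`cat EqG EqG`: let `r = β - x % β` (`1 ≤ r ≤ β`), so `β ∣ x + r`, position `x + r - 1` is a `g` letter.  First part `[x, x + 2r)`: `EqG` with
exponent `r - 1`: `r - 1` left letters, the `g` letter, `r - 1` left letters, one left letter (`at_Sync_LC`).  Second part
`[x + 2r, x + 2β)`: if `r = β` empty; otherwise exponent `β - r - 1`: position `x + 2r + (β - r) - 1 = x + r + β - 1` is a `g` letter.
-/

set_option autoImplicit false

namespace Pool.Agent.H29.CJ

open Lt Classical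

variable {K : ℕ} {P : Prm K} {w : List Lt}

private theorem CpTr_left (M : Mdl P w) {i : ℕ} (hi : i < P.Nz * P.Z) : Is w i isLeft :=
  ⟨lefL P i, M.left i hi, _, _, _, rfl⟩

private theorem CpTr_len (M : Mdl P w) {y : ℕ} (hy : y ≤ P.Nz * P.Z) : y ≤ w.length := by
  rcases Nat.eq_zero_or_pos y with h | h
  · omega
  · have := (CpTr_left M (show y - 1 < P.Nz * P.Z by omega)).lt
    omega

private theorem CpTr_g (M : Mdl P w) {i : ℕ} (hi : i < P.Nz * P.Z) (h : P.b2 ∣ i + 1) :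
    Is w i isG := by
  refine ⟨lefL P i, M.left i hi, decide (P.Z ∣ i + 1), decide (P.b1 ∣ i + 1), ?_⟩
  unfold lefL
  rw [decide_eq_true h]

private theorem CpTr_preG (M : Mdl P w) {i : ℕ} (hi : i ≤ P.Nz * P.Z) :
    pre cG w i = ((i / P.b2 : ℕ) : ℤ) := by
  induction i with
  | zero => rw [pre_zero, Nat.zero_div]; rfl
  | succ i ih =>
    rw [pre_succ (M.left i (by omega)), ih (by omega), Nat.succ_div]
    by_cases h : P.b2 ∣ i + 1
    · rw [if_pos h]
      have : cG (lefL P i) = 1 := by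
        unfold lefL
        rw [decide_eq_true h]
        rfl
      rw [this]
      push_cast
      ring
    · rw [if_neg h]
      have : cG (lefL P i) = 0 := by
        unfold lefL
        rw [decide_eq_false h]
        rfl
      rw [this]
      push_cast
      ring

private theorem CpTr_preZ (M : Mdl P w) {i : ℕ} (hi : i ≤ P.Nz * P.Z) :
    pre cZ w i = ((i / P.Z : ℕ) : ℤ) := by
  induction i with
  | zero => rw [pre_zero, Nat.zero_div]; rfl
  | succ i ih =>
    rw [pre_succ (M.left i (by omega)), ih (by omega), Nat.succ_div]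
    by_cases h : P.Z ∣ i + 1
    · rw [if_pos h]
      have : cZ (lefL P i) = 1 := by
        unfold lefL
        rw [decide_eq_true h]
        rfl
      rw [this]
      push_cast
      ring
    · rw [if_neg h]
      have : cZ (lefL P i) = 0 := by
        unfold lefL
        rw [decide_eq_false h]
        rfl
      rw [this]
      push_cast
      ring

private theorem CpTr_eq0 (M : Mdl P w) {p : ℕ} (hp : p ≤ P.Nz * P.Z) : At w EqG p p :=
  at_union.2 (Or.inl (at_eps.2 ⟨rfl, CpTr_len M hp⟩))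

private theorem CpTr_eq1 (M : Mdl P w) {p a : ℕ} (hp : p + 2 * (a + 1) ≤ P.Nz * P.Z)
    (hd : P.b2 ∣ p + a + 1) : At w EqG p (p + 2 * (a + 1)) := by
  have hlen := CpTr_len M hp
  refine at_union.2 (Or.inr (at_cat.2 ⟨p + 2 * a + 1, at_Sync_LC.2
    ⟨a, p + a + 1, by omega, by omega, at_LC.2 ⟨rfl, CpTr_g M (by omega) hd⟩,
      fun t _ ht => CpTr_left M (by omega), fun t _ ht => CpTr_left M (by omega)⟩,
    at_LC.2 ⟨by omega, CpTr_left M (by omega)⟩⟩))

theorem tr_complete (hP : P.Good) (M : Mdl P w) {x : ℕ} {f : Bool}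
    (hx : x + 2 * P.b2 ≤ P.Nz * P.Z)
    (hf : (x + 2 * P.b2) / P.Z = x / P.Z + (if f then 1 else 0)) :
    At w (Tr f) x (x + 2 * P.b2) := by
  have hβ := hP.b2pos
  have hlen := CpTr_len M hx
  have hcat : At w (cat EqG EqG) x (x + 2 * P.b2) := by
    have hm := Nat.mod_lt x hβ
    have hdm := Nat.div_add_mod x P.b2
    obtain ⟨r, hr⟩ : ∃ r, r = P.b2 - x % P.b2 := ⟨_, rfl⟩
    have hd : P.b2 ∣ x + r := by
      refine ⟨x / P.b2 + 1, ?_⟩
      rw [Nat.mul_add, Nat.mul_one]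
      omega
    obtain ⟨s, rfl⟩ : ∃ s, r = s + 1 := ⟨r - 1, by omega⟩
    refine at_cat.2 ⟨x + 2 * (s + 1), CpTr_eq1 M (by omega) hd, ?_⟩
    rcases Nat.eq_or_lt_of_le (show s + 1 ≤ P.b2 by omega) with h | h
    · rw [h]
      exact CpTr_eq0 M hx
    · obtain ⟨t, ht⟩ : ∃ t, P.b2 = s + 1 + (t + 1) := ⟨P.b2 - (s + 1) - 1, by omega⟩
      have hd2 : P.b2 ∣ x + 2 * (s + 1) + t + 1 := by
        have e : x + 2 * (s + 1) + t + 1 = (x + (s + 1)) + P.b2 := by omega
        rw [e]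
        exact Dvd.dvd.add hd (dvd_refl _)
      have h3 := CpTr_eq1 M (p := x + 2 * (s + 1)) (a := t) (by omega) hd2
      have e : x + 2 * (s + 1) + 2 * (t + 1) = x + 2 * P.b2 := by omega
      rw [e] at h3
      exact h3
  refine at_inter.2 ⟨at_inter.2 ⟨hcat, at_ST.2 ⟨by omega, hlen, fun t _ ht => CpTr_left M (by omega)⟩⟩,
    at_inter.2 ⟨at_WT.2 ⟨by omega, hlen, ?_⟩, at_WT.2 ⟨by omega, hlen, ?_⟩⟩⟩
  · rw [CpTr_preG M hx, CpTr_preG M (by omega), Nat.add_mul_div_right _ _ hβ]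
    push_cast
    ring
  · rw [CpTr_preZ M hx, CpTr_preZ M (by omega), hf]
    cases f
    · simp
    · simp

end Pool.Agent.H29.CJ

end S_CpTr

section S_CpQ

/-!
# Completeness of the peeling nonterminals

Use only the STATEMENTS of the imported files (`CpTr`, `MSh.sl_eq`, `AtL`).

Fix `B, gs, i, g, b` with `i < g < P.B`, `gs + (i + 1) + [b] = g` and the main claim at `(xb, oMu gs)`.
`RI b` holds from `oMu gs` to `oMr g i 0 = oGrp g i + 1`: it ends with the `cc` letter at `oGrp g i` (`grp_at`, and `oMu gs ≤ oGrp g i`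
by `mu_le`, as `gs < g`), weight `RI_grp - RI_mu = g - (i+1) - (gs + 1) = [b] - 1`.
Say that `(x, f)` is compatible with `(xb, b)` if: `f = true → b = true ∧ xb/Z = x/Z` and `f = false → xb/Z = x/Z + [b]`.
(q3) if `xb = x + 1`, compatible: `At (q3 B f) x (oMr g i 0)`: letter `x` is `nz` (if `xb/Z = x/Z`) or `z` (if `xb/Z = x/Z + 1`; then
 `f = false`, `b = true`), then main, then `RI b`.  In the `nz` case with `f = false`, `b = false`: `RI false`; with `f = true`: `b = true`, `RI true = RI f`.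
 So in the `nz` case `b = f`.
(q2) if `xb = x + 2 b2 j + 1`, compatible, `j ≤ Z/(2 b2)`: `At (q2 B f) x (oMr g i j)`, induction on `j`: `j + 1`: `x' = x + 2 b2`; `x'/Z` is `x/Z` or
 `x/Z + 1` (monotone, `x ≤ x' ≤ xb`, `xb/Z ≤ x/Z + 1`); use `Tr false` (flag stays) or `Tr true` (`f = false`, new flag `true`) by
 `tr_complete`, then `q2` from `x'`, then `Rec'` (`mr_step`).
(q1) if `xb = x + k + 2 b2 j + 1`, compatible, `k ≤ 2 b2`: `At (q1 B f) x (oMr g i j + 1 + k)`, induction on `k`: `k = 0`: `q2` and the `pp` letter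
 (`mr_pp`); `k + 1`: first letter `nz` or `z` at `x`, `q1` from `x + 1`, and the `rr` letter at `oMr g i j + 1 + k`.
All left positions used are `< xb < Nz Z`.
-/

set_option autoImplicit false

namespace Pool.Agent.H29.CJ

open Lt Classical

variable {K : ℕ} (G : USys K) {P : Prm K} {w : List Lt}

private def CpQ_c (Z xb : ℕ) (b : Bool) (x : ℕ) (f : Bool) : Prop :=
  (f = true → b = true ∧ xb / Z = x / Z) ∧ (f = false → xb / Z = x / Z + (if b then 1 else 0))

private theorem CpQ_step {Z xb x x' : ℕ} {b f : Bool} (h : CpQ_c Z xb b x f) (h1 : x ≤ x')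
    (h2 : x' ≤ xb) : (x' / Z = x / Z ∧ CpQ_c Z xb b x' f) ∨
      (x' / Z = x / Z + 1 ∧ f = false ∧ CpQ_c Z xb b x' true) := by
  have h3 := Nat.div_le_div_right (c := Z) h1
  have h4 := Nat.div_le_div_right (c := Z) h2
  obtain ⟨h5, h6⟩ := h
  unfold CpQ_c
  generalize x / Z = X at *
  generalize x' / Z = X' at *
  generalize xb / Z = Xb at *
  cases f <;> cases b <;> simp at h5 h6 ⊢ <;> omega

private theorem CpQ_z (M : Mdl P w) {x : ℕ} (hx : x < P.Nz * P.Z) (h : P.Z ∣ x + 1) :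
    Is w x isZ := by
  refine ⟨_, M.left x hx, decide (P.b1 ∣ x + 1), decide (P.b2 ∣ x + 1), ?_⟩
  unfold lefL
  rw [decide_eq_true h]

private theorem CpQ_nz (M : Mdl P w) {x : ℕ} (hx : x < P.Nz * P.Z) (h : ¬ P.Z ∣ x + 1) :
    Is w x isNZ := by
  refine ⟨_, M.left x hx, decide (P.b1 ∣ x + 1), decide (P.b2 ∣ x + 1), ?_⟩
  unfold lefL
  rw [decide_eq_false h]

private theorem CpQ_RI (M : Mdl P w) {g i gs : ℕ} {b : Bool} (hg : g < P.B) (hi : i < g)
    (hgs : gs + (i + 1) + (if b then 1 else 0) = g) : At w (RI b) (oMu P gs) (oMr P g i 0) := by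
  have hgs' : gs < g := by
    cases b
    · simp at hgs
      omega
    · simp at hgs
      omega
  have e : oMr P g i 0 = oGrp P g i + 1 := by
    unfold oMr
    simp
  obtain ⟨h1, h2⟩ := M.grp_at g hg i hi
  have h3 := M.mu_le g gs hg (by omega) hgs' i hi
  have h4 := h1.lt
  refine at_inter.2 ⟨at_cat.2 ⟨oGrp P g i, at_univ.2 ⟨h3, h4.le⟩, at_LC.2 ⟨e, h1⟩⟩,
    at_WT.2 ⟨by omega, by omega, ?_⟩⟩
  rw [M.RI_grp g hg i hi, M.RI_mu gs (by omega)]
  cases b
  · simp at hgs ⊢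
    omega
  · simp at hgs ⊢
    omega

private theorem CpQ_q3 (M : Mdl P w) {B : Fin K} {x xb g i gs : ℕ} {b f : Bool}
    (hg : g < P.B) (hi : i < g) (hxb : xb = x + 1) (hx : xb < P.Nz * P.Z)
    (hc : CpQ_c P.Z xb b x f)
    (hgs : gs + (i + 1) + (if b then 1 else 0) = g)
    (hmain : At w (Sl G (.main B)) xb (oMu P gs)) :
    At w (Sl G (.q3 B f)) x (oMr P g i 0) := by
  have hRI := CpQ_RI M hg hi hgs
  have hx' : x < P.Nz * P.Z := by omega
  have hsd := Nat.succ_div (a := x) (b := P.Z)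
  rw [sl_eq]
  by_cases hd : P.Z ∣ x + 1
  · rw [if_pos hd] at hsd
    have hb : f = false ∧ b = true := by
      obtain ⟨h5, h6⟩ := hc
      rw [hxb] at h5 h6
      rw [hsd] at h5 h6
      cases f <;> cases b <;> simp at h5 h6 ⊢
    refine at_union.2 (Or.inr ((at_ite _ _).2 ⟨hb.1, at_cat.2 ⟨x + 1, at_LC.2 ⟨rfl, CpQ_z M hx' hd⟩,
      at_cat.2 ⟨oMu P gs, ?_, ?_⟩⟩⟩))
    · rw [← hxb]
      exact hmain
    · rw [hb.2] at hRI
      exact hRI
  · rw [if_neg hd] at hsd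
    have hb : b = f := by
      obtain ⟨h5, h6⟩ := hc
      rw [hxb] at h5 h6
      rw [hsd] at h5 h6
      cases f <;> cases b <;> simp at h5 h6 ⊢
    refine at_union.2 (Or.inl (at_cat.2 ⟨x + 1, at_LC.2 ⟨rfl, CpQ_nz M hx' hd⟩,
      at_cat.2 ⟨oMu P gs, ?_, ?_⟩⟩))
    · rw [← hxb]
      exact hmain
    · rw [hb] at hRI
      exact hRI

private theorem CpQ_q2 (hP : P.Good) (M : Mdl P w) {B : Fin K} {xb g i gs : ℕ} {b : Bool}
    (hg : g < P.B) (hi : i < g) (hx : xb < P.Nz * P.Z)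
    (hgs : gs + (i + 1) + (if b then 1 else 0) = g)
    (hmain : At w (Sl G (.main B)) xb (oMu P gs)) (j : ℕ) :
    ∀ (x : ℕ) (f : Bool), j ≤ P.Z / (2 * P.b2) → xb = x + 2 * P.b2 * j + 1 →
      CpQ_c P.Z xb b x f → At w (Sl G (.q2 B f)) x (oMr P g i j) := by
  induction j with
  | zero =>
    intro x f _ hxb hc
    rw [sl_eq]
    exact at_union.2 (Or.inr (CpQ_q3 G M hg hi (by simpa using hxb) hx hc hgs hmain))
  | succ j ih =>
    intro x f hj hxb hc
    have hxb' : xb = (x + 2 * P.b2) + 2 * P.b2 * j + 1 := by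
      rw [hxb]
      ring
    have hle : x + 2 * P.b2 ≤ xb := by
      rw [hxb', Nat.add_assoc]
      exact Nat.le_add_right _ _
    have hstep := M.mr_step g hg i hi j (by omega)
    have hxl : x + 2 * P.b2 ≤ P.Nz * P.Z := by omega
    rw [sl_eq]
    rcases CpQ_step hc (Nat.le_add_right x (2 * P.b2)) hle with ⟨h1, h2⟩ | ⟨h1, h2, h3⟩
    · have hT := tr_complete (f := false) hP M hxl (by simpa using h1)
      exact at_union.2 (Or.inl (at_union.2 (Or.inl (at_cat.2 ⟨_, hT,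
        at_cat.2 ⟨_, ih _ f (by omega) hxb' h2, hstep⟩⟩))))
    · have hT := tr_complete (f := true) hP M hxl (by simpa using h1)
      exact at_union.2 (Or.inl (at_union.2 (Or.inr ((at_ite _ _).2 ⟨h2, at_cat.2 ⟨_, hT,
        at_cat.2 ⟨_, ih _ true (by omega) hxb' h3, hstep⟩⟩⟩))))

private theorem CpQ_q1 (hP : P.Good) (M : Mdl P w) {B : Fin K} {xb g i gs j : ℕ} {b : Bool}
    (hg : g < P.B) (hi : i < g) (hx : xb < P.Nz * P.Z)
    (hgs : gs + (i + 1) + (if b then 1 else 0) = g)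
    (hmain : At w (Sl G (.main B)) xb (oMu P gs)) (hj : j < P.Z / (2 * P.b2))
    (hMn : P.Mn (i + 1) j) (k : ℕ) :
    ∀ (x : ℕ) (f : Bool), k ≤ 2 * P.b2 → xb = x + k + 2 * P.b2 * j + 1 →
      CpQ_c P.Z xb b x f → At w (Sl G (.q1 B f)) x (oMr P g i j + 1 + k) := by
  obtain ⟨hpp, hrr, -, -⟩ := M.mr_pp g hg i hi j hj hMn
  induction k with
  | zero =>
    intro x f _ hxb hc
    rw [sl_eq]
    exact at_union.2 (Or.inr (at_cat.2 ⟨_, CpQ_q2 G hP M hg hi hx hgs hmain j x f hj.le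
      (by simpa using hxb) hc, at_LC.2 ⟨rfl, hpp⟩⟩))
  | succ k ih =>
    intro x f hk hxb hc
    have hxb' : xb = (x + 1) + k + 2 * P.b2 * j + 1 := by
      rw [hxb]
      ring
    have hle : x + 1 ≤ xb := by
      rw [hxb', Nat.add_assoc, Nat.add_assoc]
      exact Nat.le_add_right _ _
    have hxl : x < P.Nz * P.Z := by omega
    have hsd := Nat.succ_div (a := x) (b := P.Z)
    have hlast := hrr k (by omega)
    rw [sl_eq]
    rcases CpQ_step hc (Nat.le_add_right x 1) hle with ⟨h1, h2⟩ | ⟨h1, h2, h3⟩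
    · have hd : ¬ P.Z ∣ x + 1 := by
        intro hd
        rw [if_pos hd] at hsd
        omega
      exact at_union.2 (Or.inl (at_union.2 (Or.inl (at_cat.2 ⟨_, at_LC.2 ⟨rfl, CpQ_nz M hxl hd⟩,
        at_cat.2 ⟨_, ih _ f (by omega) hxb' h2, at_LC.2 ⟨rfl, hlast⟩⟩⟩))))
    · have hd : P.Z ∣ x + 1 := by
        by_contra hd
        rw [if_neg hd] at hsd
        omega
      exact at_union.2 (Or.inl (at_union.2 (Or.inr ((at_ite _ _).2 ⟨h2, at_cat.2 ⟨_,
        at_LC.2 ⟨rfl, CpQ_z M hxl hd⟩,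
        at_cat.2 ⟨_, ih _ true (by omega) hxb' h3, at_LC.2 ⟨rfl, hlast⟩⟩⟩⟩))))

theorem q1_complete (hP : P.Good) (M : Mdl P w) {B : Fin K} {x xb k j g i gs : ℕ} {b : Bool}
    (hg : g < P.B) (hi : i < g) (hj : j < P.Z / (2 * P.b2)) (hk : k < 2 * P.b2)
    (hMn : P.Mn (i + 1) j) (hxb : xb = x + k + 2 * P.b2 * j + 1) (hx : xb < P.Nz * P.Z)
    (hb : xb / P.Z = x / P.Z + (if b then 1 else 0))
    (hgs : gs + (i + 1) + (if b then 1 else 0) = g)
    (hmain : At w (Sl G (.main B)) xb (oMu P gs)) :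
    At w (Sl G (.q1 B false)) x (oMr P g i j + 1 + k) := by
  refine CpQ_q1 G hP M hg hi hx hgs hmain hj hMn k x false hk.le hxb ⟨?_, fun _ => hb⟩
  intro h
  exact absurd h (by decide)

end Pool.Agent.H29.CJ

end S_CpQ

section S_CpII

/-!
# Completeness of the menu side

Use only the STATEMENTS of the imported files.

`univ` from `x` to `xc`.  `Load` at `[xc, r)`, `r = oMr g i j + 1 + k`: `k` letters `nz` from `xc` (the next `z` letter is at
`xc + Lo - 1 = xc + k + 2 b2 j`), `j` translations `Tr false` by `tr_complete` (quotients by `Z` stay equal up to `xc + k + 2 b2 j`), the `z` letter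
at `xc + k + 2 b2 j`, `univ` up to the `cc` letter at `oGrp g i` (`grp_at`), `j` `Rec'`s from `oMr g i 0 = oGrp g i + 1` to `oMr g i j`
(`mr_step`, `at_pw`), `pp` (`mr_pp`), `k` letters `rr`.
`RII` from `oMu gc = oMu (i + 1)` to `r`: `RII_mr - RII_mu = (i + 1) - (i + 2) = -1`; `oMu (i+1) ≤ oGrp g i ≤ r` by `mu_le` (`i + 1 < g`).
-/

set_option autoImplicit false

namespace Pool.Agent.H29.CJ

open Lt Classical

variable {K : ℕ} (G : USys K) {P : Prm K} {w : List Lt}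

theorem cpII_len (M : Mdl P w) {t : ℕ} (ht : t < P.Nz * P.Z) : t < w.length := by
  have h := M.left t ht
  obtain ⟨h1, _⟩ := List.getElem?_eq_some_iff.1 h
  exact h1

/-- Positions before the next `z` letter. -/
theorem cpII_mod (hP : P.Good) {xc s : ℕ} (hs : s < Lo P.Z xc) :
    (xc + s) / P.Z = xc / P.Z ∧ (xc + s) % P.Z = xc % P.Z + s := by
  have hZ := hP.Zpos
  unfold Lo at hs
  have h1 : xc % P.Z < P.Z := Nat.mod_lt _ hZ
  have h2 : xc % P.Z + s < P.Z := by omega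
  have h3 := Nat.div_add_mod xc P.Z
  have h4 : xc + s = (xc % P.Z + s) + P.Z * (xc / P.Z) := by omega
  constructor
  · rw [h4, Nat.add_mul_div_left _ _ hZ, Nat.div_eq_of_lt h2, Nat.zero_add]
  · rw [h4, Nat.add_mul_mod_self_left, Nat.mod_eq_of_lt h2]

theorem cpII_lt (hP : P.Good) {xc s : ℕ} (hx : xc < P.Nz * P.Z) (hs : s < Lo P.Z xc) :
    xc + s < P.Nz * P.Z := by
  have h1 := (cpII_mod hP hs).1
  have hZ := hP.Zpos
  have h2 : xc / P.Z < P.Nz := by
    rw [Nat.div_lt_iff_lt_mul hZ]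
    exact hx
  have h3 : (xc + s) / P.Z < P.Nz := by rw [h1]; exact h2
  rw [Nat.div_lt_iff_lt_mul hZ] at h3
  exact h3

theorem cpII_nz (hP : P.Good) (M : Mdl P w) {xc s : ℕ} (hx : xc < P.Nz * P.Z)
    (hs : s + 1 < Lo P.Z xc) : Is w (xc + s) isNZ := by
  have h0 := cpII_lt hP hx (s := s) (by omega)
  have h1 := M.left _ h0
  have h2 : ¬ P.Z ∣ xc + s + 1 := by
    intro h
    have h3 := (cpII_mod hP hs).2
    have h4 : (xc + (s + 1)) % P.Z = 0 := by
      rw [← Nat.add_assoc]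
      exact Nat.mod_eq_zero_of_dvd h
    omega
  refine ⟨_, h1, ?_⟩
  unfold lefL isNZ
  rw [decide_eq_false h2]
  exact ⟨_, _, rfl⟩

theorem cpII_z (hP : P.Good) (M : Mdl P w) {xc s : ℕ} (hx : xc < P.Nz * P.Z)
    (hs : s + 1 = Lo P.Z xc) : Is w (xc + s) isZ := by
  have h0 := cpII_lt hP hx (s := s) (by omega)
  have h1 := M.left _ h0
  have h2 : P.Z ∣ xc + s + 1 := by
    have h3 := Nat.div_add_mod xc P.Z
    have h4 : xc % P.Z < P.Z := Nat.mod_lt _ hP.Zpos
    unfold Lo at hs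
    refine ⟨xc / P.Z + 1, ?_⟩
    rw [Nat.mul_add, Nat.mul_one]
    omega
  refine ⟨_, h1, ?_⟩
  unfold lefL isZ
  rw [decide_eq_true h2]
  exact ⟨_, _, rfl⟩

theorem cpII_mr0 (g i : ℕ) : oMr P g i 0 = oGrp P g i + 1 := by
  unfold oMr
  simp

theorem cpII_mr_le (g i j : ℕ) : oGrp P g i + 1 ≤ oMr P g i j := by
  unfold oMr
  omega

theorem LII_complete (hP : P.Good) (M : Mdl P w) {C : Fin K} {x xc k j g i : ℕ}
    (hg : g < P.B) (hi : i + 1 < g) (hj : j < P.Z / (2 * P.b2)) (hk : k < 2 * P.b2)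
    (hMn : P.Mn (i + 1) j) (hxc : x ≤ xc) (hx : xc < P.Nz * P.Z)
    (hLo : Lo P.Z xc = k + 2 * P.b2 * j + 1)
    (hmain : At w (Sl G (.main C)) xc (oMu P (i + 1))) :
    At w (LII (Sl G) C) x (oMr P g i j + 1 + k) := by
  have hig : i < g := by omega
  have hpp := M.mr_pp g hg i hig j hj hMn
  obtain ⟨p1, p2, p3, p4⟩ := hpp
  have hlen : oMr P g i j + 1 + k ≤ w.length := by
    obtain ⟨m1, m2⟩ := M.mu_at g hg
    have := m2.lt
    omega
  have hle := M.mu_le g (i + 1) hg (by omega) hi i hig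
  have hle2 := cpII_mr_le (P := P) g i j
  obtain ⟨g1, g2⟩ := M.grp_at g hg i hig
  refine at_cat.2 ⟨xc, at_univ.2 ⟨hxc, (cpII_len M hx).le⟩, at_inter.2 ⟨?_, ?_⟩⟩
  · -- Load
    refine at_Sync_LC.2 ⟨k, oMr P g i j + 1, rfl, hlen, ?_, ?_, ?_⟩
    · refine at_cat.2 ⟨oMr P g i j, ?_, at_LC.2 ⟨rfl, p1⟩⟩
      have hi' : xc + (k + 2 * P.b2 * j) < P.Nz * P.Z := cpII_lt hP hx (by omega)
      refine at_Sync.2 ⟨j, xc + k + 2 * P.b2 * j, oMr P g i 0, ?_, ?_, ?_⟩
      · refine at_pw.2 ⟨?_, fun t => xc + k + 2 * P.b2 * t, by simp, rfl, fun t ht => ?_⟩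
        · have := cpII_len M hi'
          omega
        · have hmul : 2 * P.b2 * (t + 1) ≤ 2 * P.b2 * j := Nat.mul_le_mul_left _ ht
          have hmul2 : 2 * P.b2 * (t + 1) = 2 * P.b2 * t + 2 * P.b2 := by ring
          have e1 : xc + k + 2 * P.b2 * (t + 1) = xc + k + 2 * P.b2 * t + 2 * P.b2 := by omega
          show At w (Tr false) (xc + k + 2 * P.b2 * t) (xc + k + 2 * P.b2 * (t + 1))
          rw [e1]
          have q1 := cpII_mod hP (xc := xc) (s := k + 2 * P.b2 * t) (by omega)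
          have q2 := cpII_mod hP (xc := xc) (s := k + 2 * P.b2 * t + 2 * P.b2) (by omega)
          have q3 := cpII_lt hP hx (s := k + 2 * P.b2 * t + 2 * P.b2) (by omega)
          refine tr_complete hP M ?_ ?_
          · omega
          · have e2 : xc + k + 2 * P.b2 * t + 2 * P.b2 = xc + (k + 2 * P.b2 * t + 2 * P.b2) := by omega
            have e3 : xc + k + 2 * P.b2 * t = xc + (k + 2 * P.b2 * t) := by omega
            rw [e2, e3, q1.1, q2.1]
            simp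
      · have hz := cpII_z hP M hx (s := k + 2 * P.b2 * j) hLo.symm
        have e4 : xc + k + 2 * P.b2 * j = xc + (k + 2 * P.b2 * j) := by omega
        refine at_cat.2 ⟨xc + k + 2 * P.b2 * j + 1, at_LC.2 ⟨rfl, by rw [e4]; exact hz⟩, ?_⟩
        refine at_cat.2 ⟨oGrp P g i, at_univ.2 ⟨by omega, g1.lt.le⟩, at_LC.2 ⟨cpII_mr0 g i, g1⟩⟩
      · refine at_pw.2 ⟨by omega, fun t => oMr P g i t, rfl, rfl, fun t ht => ?_⟩
        exact M.mr_step g hg i hig t (by omega)
    · intro t h1 h2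
      obtain ⟨s, rfl⟩ := Nat.exists_eq_add_of_le h1
      exact cpII_nz hP M hx (by omega)
    · intro t h1 h2
      obtain ⟨s, rfl⟩ := Nat.exists_eq_add_of_le h1
      exact p2 s (by omega)
  · refine at_cat.2 ⟨oMu P (i + 1), hmain, at_WT.2 ⟨by omega, hlen, ?_⟩⟩
    rw [M.RII_mu (i + 1) (by omega), M.RII_mr g hg i hig j hj hMn k hk]
    push_cast
    ring

end Pool.Agent.H29.CJ

end S_CpII

section S_CpLg

/-!
# Completeness of the large steps

Use only the STATEMENTS of the imported files.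

Given `x < Nz Z` with `x/Z + 1 < Nz`, `m = Z g + Lo Z x`, `g < B`, `m = vb + vc` with `Z < vb`, `Z < vc`, the record of `vc` in the menus
nonempty, and main claims available for `vb` and `vc` at all admissible positions in the same or the next block.
Write `vb = Z gs + lb`, `vc = Z gc + lc` with `1 ≤ lb, lc ≤ Z` (`gs = (vb-1)/Z`, `lb = (vb-1)%Z + 1`), so `gs, gc ≥ 1`.  Put
`i = gc - 1`, `j = (lc - 1)/(2 b2) < Z/(2 b2)`, `k = (lc - 1) % (2 b2)`; `MnV P vc` is `P.Mn gc j = P.Mn (i+1) j`.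
`x + Lo Z x = Z (x/Z + 1)`.  From `Z gs + lb + Z gc + lc = Z g + Lo Z x` and the ranges of `lb, lc, Lo`: `gs + gc + c = g` with `c ∈ {0, 1}` and
`lb + lc = Lo Z x + Z c`.
`xb = x + lc = x + k + 2 b2 j + 1`: `xb + lb = x + Lo Z x + Z c = Z (x/Z + 1 + c)` and `1 ≤ lb ≤ Z`, so `xb/Z = x/Z + c`, `Lo Z xb = lb`,
`xb < Nz Z`.  Main claim of `B` at `(xb, oMu gs)` by `hB`.  `q1_complete` with `b = (c = 1)`.
`xc = Z (x/Z + 2) - lc`: `xc/Z = x/Z + 1`, `Lo Z xc = lc`, `x ≤ xc < Nz Z`.  Main claim of `C` at `(xc, oMu gc)` by `hC`; `gc = i + 1 < g` as `gs ≥ 1`.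
`LII_complete`.  Then the `rr` letter at `oMr g i j + 1 + k` (`mr_pp`), the non-`mu` letters up to `oMu g - 1`, and `mu` (`mu_at`).
-/

set_option autoImplicit false

namespace Pool.Agent.H29.CJ

open Lt Classical

/-- the point at distance `l` before the `z` letter of block `q` -/
private theorem cplg_pt {Z q l y : ℕ} (hl : 1 ≤ l) (hlZ : l ≤ Z) (h : y + l = Z * (q + 1)) :
    y / Z = q ∧ Lo Z y = l := by
  have hZ : 0 < Z := by omega
  have e : y = Z - l + Z * q := by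
    rw [Nat.mul_add, Nat.mul_one] at h
    omega
  have h1 : y / Z = q := by
    rw [e, Nat.add_mul_div_left _ _ hZ, Nat.div_eq_of_lt (by omega), Nat.zero_add]
  have h2 : y % Z = Z - l := by
    rw [e, Nat.add_mul_mod_self_left, Nat.mod_eq_of_lt (by omega)]
  refine ⟨h1, ?_⟩
  unfold Lo
  rw [h2]
  omega

private theorem cplg_Lo {Z x : ℕ} (hZ : 0 < Z) :
    1 ≤ Lo Z x ∧ Lo Z x ≤ Z ∧ x + Lo Z x = Z * (x / Z + 1) := by
  have h1 := Nat.mod_lt x hZ
  have h2 := Nat.div_add_mod x Z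
  unfold Lo
  refine ⟨by omega, by omega, ?_⟩
  rw [Nat.mul_add, Nat.mul_one]
  omega

/-- the carry -/
private theorem cplg_carry {Z g gs gc lb lc L : ℕ} (hZ : 0 < Z) (hb : 1 ≤ lb) (hb' : lb ≤ Z) (hc : 1 ≤ lc)
    (hc' : lc ≤ Z) (hL : 1 ≤ L) (hL' : L ≤ Z) (h : Z * gs + lb + (Z * gc + lc) = Z * g + L) :
    ∃ b : Bool, gs + gc + (if b then 1 else 0) = g ∧ lb + lc = L + Z * (if b then 1 else 0) := by
  rcases Nat.lt_trichotomy (gs + gc) g with h1 | h1 | h1
  · obtain ⟨d, hd⟩ := Nat.exists_eq_add_of_lt h1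
    have hd0 : d = 0 := by
      by_contra hne
      have h2 : 1 ≤ d := Nat.one_le_iff_ne_zero.2 hne
      have h3 : Z * g = Z * gs + Z * gc + Z * d + Z := by
        rw [hd]
        ring
      have h4 : Z * 1 ≤ Z * d := Nat.mul_le_mul_left _ h2
      rw [Nat.mul_one] at h4
      omega
    subst hd0
    refine ⟨true, by simp; omega, ?_⟩
    have h3 : Z * g = Z * gs + Z * gc + Z := by
      rw [hd]
      ring
    simp
    omega
  · refine ⟨false, by simp; exact h1, ?_⟩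
    have h3 : Z * g = Z * gs + Z * gc := by
      rw [← h1]
      ring
    simp
    omega
  · exfalso
    have h2 : g + 1 ≤ gs + gc := h1
    have h3 : Z * (g + 1) ≤ Z * (gs + gc) := Nat.mul_le_mul_left _ h2
    rw [Nat.mul_add, Nat.mul_add, Nat.mul_one] at h3
    omega

variable {K : ℕ} (G : USys K) {P : Prm K} {w : List Lt}

theorem Lg_complete (hP : P.Good) (M : Mdl P w) {B C : Fin K} {x g m vb vc : ℕ}
    (hg : g < P.B) (hx : x < P.Nz * P.Z) (hx' : x / P.Z + 1 < P.Nz)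
    (hm : m = P.Z * g + Lo P.Z x) (hv : vb + vc = m) (hvb : P.Z < vb) (hvc : P.Z < vc)
    (hMn : MnV P vc)
    (hB : ∀ y g', y < P.Nz * P.Z → y / P.Z ≤ x / P.Z + 1 → g' < P.B → vb = P.Z * g' + Lo P.Z y →
      At w (Sl G (.main B)) y (oMu P g'))
    (hC : ∀ y g', y < P.Nz * P.Z → y / P.Z ≤ x / P.Z + 1 → g' < P.B → vc = P.Z * g' + Lo P.Z y →
      At w (Sl G (.main C)) y (oMu P g')) :
    At w (Lg (Sl G) B C) x (oMu P g) := by
  have hZ := hP.Zpos
  have hb2 := hP.b2pos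
  have hb20 : 0 < 2 * P.b2 := by omega
  obtain ⟨hL1, hL2, hL3⟩ := cplg_Lo (x := x) hZ
  -- the decomposition of `vb` and `vc`
  have hvb1 := Nat.div_add_mod (vb - 1) P.Z
  have hvb2 := Nat.mod_lt (vb - 1) hZ
  have hvc1 := Nat.div_add_mod (vc - 1) P.Z
  have hvc2 := Nat.mod_lt (vc - 1) hZ
  have hgs1 : 1 ≤ (vb - 1) / P.Z := (Nat.one_le_div_iff hZ).2 (by omega)
  have hgc1 : 1 ≤ (vc - 1) / P.Z := (Nat.one_le_div_iff hZ).2 (by omega)
  unfold MnV at hMn
  have hj : (vc - 1) % P.Z / (2 * P.b2) < P.Z / (2 * P.b2) := Nat.div_lt_div_of_lt_of_dvd hP.b2Z hvc2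
  have hk := Nat.mod_lt ((vc - 1) % P.Z) hb20
  have hjk := Nat.div_add_mod ((vc - 1) % P.Z) (2 * P.b2)
  set gs := (vb - 1) / P.Z with hgs
  set gc := (vc - 1) / P.Z with hgc
  set rb := (vb - 1) % P.Z with hrb
  set rc := (vc - 1) % P.Z with hrc
  set j := rc / (2 * P.b2) with hjd
  set k := rc % (2 * P.b2) with hkd
  obtain ⟨i, hi⟩ : ∃ i, gc = i + 1 := ⟨gc - 1, by omega⟩
  have hvb3 : vb = P.Z * gs + (rb + 1) := by omega
  have hvc3 : vc = P.Z * gc + (rc + 1) := by omega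
  obtain ⟨b, hb1, hb3⟩ := cplg_carry (g := g) (gs := gs) (gc := gc) (lb := rb + 1) (lc := rc + 1) (L := Lo P.Z x)
    hZ (by omega) (by omega) (by omega) (by omega) hL1 hL2 (by omega)
  have hc1 : (if b then 1 else 0) ≤ 1 := by
    split_ifs <;> omega
  -- the position of `B`
  have hxb : x + (rc + 1) + (rb + 1) = P.Z * (x / P.Z + (if b then 1 else 0) + 1) := by
    have h1 : P.Z * (x / P.Z + (if b then 1 else 0) + 1) = P.Z * (x / P.Z + 1) + P.Z * (if b then 1 else 0) := by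
      ring
    rw [h1]
    omega
  obtain ⟨hxb1, hxb2⟩ := cplg_pt (by omega) (by omega) hxb
  have hNz : P.Z * (x / P.Z + 2) ≤ P.Nz * P.Z := by
    rw [Nat.mul_comm P.Nz]
    exact Nat.mul_le_mul_left _ (by omega)
  have hxb3 : x + (rc + 1) < P.Nz * P.Z := by
    have h1 : P.Z * (x / P.Z + (if b then 1 else 0) + 1) ≤ P.Z * (x / P.Z + 2) :=
      Nat.mul_le_mul_left _ (by omega)
    omega
  have hmb := hB (x + (rc + 1)) gs hxb3 (by rw [hxb1]; omega) (by omega) (by rw [hxb2]; exact hvb3)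
  rw [hi] at hMn
  have hq := q1_complete G hP M (B := B) (x := x) (xb := x + (rc + 1)) (k := k) (j := j) (g := g) (i := i)
    (gs := gs) (b := b) hg (by omega) hj hk hMn (by omega) hxb3 hxb1 (by omega) hmb
  -- the position of `C`
  have hZ2 : P.Z * (x / P.Z + 1 + 1) = P.Z * (x / P.Z + 1) + P.Z := by ring
  have hxc : P.Z * (x / P.Z + 1 + 1) - (rc + 1) + (rc + 1) = P.Z * (x / P.Z + 1 + 1) := by
    omega
  obtain ⟨hxc1, hxc2⟩ := cplg_pt (by omega) (by omega) hxc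
  have hxc3 : P.Z * (x / P.Z + 1 + 1) - (rc + 1) < P.Nz * P.Z := by
    have h1 : x / P.Z + 1 + 1 = x / P.Z + 2 := by omega
    rw [h1] at hZ2 ⊢
    omega
  have hxc4 : x ≤ P.Z * (x / P.Z + 1 + 1) - (rc + 1) := by omega
  have hmc := hC _ gc hxc3 (by rw [hxc1]) (by omega) (by rw [hxc2]; exact hvc3)
  rw [hi] at hmc
  have hl := LII_complete G hP M (C := C) (x := x) (k := k) (j := j) (g := g) (i := i) hg (by omega) hj hk hMn
    hxc4 hxc3 (by rw [hxc2]; omega) hmc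
  -- the right end
  obtain ⟨-, h2, h3, h4⟩ := M.mr_pp g hg i (by omega) j hj hMn
  obtain ⟨h5, h6⟩ := M.mu_at g hg
  refine at_cat.2 ⟨oMr P g i j + 1 + k, at_inter.2 ⟨hq, hl⟩, ?_⟩
  refine at_cat.2 ⟨oMr P g i j + 1 + k + 1, at_LC.2 ⟨rfl, h2 k hk⟩, ?_⟩
  refine at_cat.2 ⟨oMu P g - 1, at_ST.2 ⟨by omega, h6.lt.le, fun t ht1 ht2 => h4 t (by omega) ht2⟩, ?_⟩
  exact at_LC.2 ⟨by omega, h6⟩

end Pool.Agent.H29.CJ

end S_CpLg

section S_CpMn

/-!
# Completeness of the main claims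

Use only the STATEMENTS of the imported files.

Strong induction on `m`.  If `CmV P m`: `mainLk_complete` (`S.TTeq`) and `sl_eq`.  Otherwise `Lo Z x > Y` by `S.hY`
(`m = Z g + Lo Z x`, so `(m-1) % Z + 1 = Lo Z x` and `m ≤ Z B`).  `G.Tiff`: the case `m = 1` would be committed
(`Lo Z x = 1 ≤ Y`).  So there is a rule `ρ`; for each `p ∈ ρ` we show `At w (Step G (Sl G) p) x (oMu g)` by `S.hsel p m`:
 (i) `b + c = m`, `b < Y` (`T p.1 b`, `T p.2 c`): `0 < b` (`G.T0`), `b < Lo Z x`, so `y = x + b` is in the same block, `Lo Z y = Lo Z x - b`,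
   no `z` letter in `[x, y)` (`M.left`: `z` iff `Z ∣ i + 1`), `c = Z g + Lo Z y`, main claim of `p.2` at `(y, oMu g)` by induction
   (`c / LY + 1 ≤ m / LY + 1 ≤ Nz - x/Z`).  This is `cat (UL G p.1 ∩ ST isNZ) (main p.2)`.  `c < Y` symmetric.
 (ii) `LY ≤ b`, `LY ≤ c`, `MnV P b ∨ MnV P c`: `Lg_complete` with `vb := b`, `vc := c` or the other way round; `LY > Z`; main claims
   by induction: `b ≤ m - LY`, so `b / LY + 1 ≤ m / LY ≤ Nz - x/Z - 1 ≤ Nz - y/Z`; `x/Z + 1 < Nz` since `m / LY ≥ 2`.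
 (iii) `CmV P m`: excluded.
-/

set_option autoImplicit false

namespace Pool.Agent.H29.CJ

open Lt Classical

variable {K : ℕ} (G : USys K) {P : Prm K} {w : List Lt}

/-- A short left factor inside the block. -/
private theorem CpMn_small (hP : P.Good) (M : Mdl P w) {C D : Fin K} {x g b : ℕ}
    (hx : x < P.Nz * P.Z) (hT : G.T D b) (hb : b < Lo P.Z x)
    (h : At w (Sl G (.main C)) (x + b) (oMu P g)) :
    At w (cat (UL G D ∩ ST isNZ) (Sl G (.main C))) x (oMu P g) := by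
  have hZ := hP.Zpos
  have hlo := add_Lo hZ x
  have hNz : x / P.Z + 1 ≤ P.Nz := (Nat.div_lt_iff_lt_mul hZ).2 hx
  have hle : P.Z * (x / P.Z + 1) ≤ P.Nz * P.Z := by
    rw [Nat.mul_comm P.Nz]
    exact Nat.mul_le_mul_left _ hNz
  have hxd : x / P.Z * P.Z ≤ x := Nat.div_mul_le_self x P.Z
  have hlen := h.le
  have hlen' := h.le_length
  have hleft : At w (ST isLeft) x (x + b) := by
    refine at_ST.2 ⟨by omega, by omega, fun t h1 h2 => ?_⟩
    exact ⟨_, M.left t (by omega), _, _, _, rfl⟩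
  refine at_cat.2 ⟨x + b, at_inter.2 ⟨⟨by omega, by omega, hleft.2.2, ?_⟩, ?_⟩, h⟩
  · rw [length_seg (by omega) (by omega), Nat.add_sub_cancel_left]
    exact hT
  · refine at_ST.2 ⟨by omega, by omega, fun t h1 h2 => ?_⟩
    refine ⟨_, M.left t (by omega), decide (P.b1 ∣ t + 1), decide (P.b2 ∣ t + 1), ?_⟩
    have hn : ¬ P.Z ∣ t + 1 := by
      rw [CntL_dvd hZ]
      have h3 := add_Lo hZ t
      have h4 : t / P.Z = x / P.Z := by
        apply Nat.div_eq_of_lt_le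
        · omega
        · rw [Nat.mul_comm]
          omega
      rw [h4] at h3
      omega
    unfold lefL
    rw [decide_eq_false hn]

/-- The next left position in the block. -/
private theorem CpMn_next (hP : P.Good) {x b : ℕ} (hx : x < P.Nz * P.Z) (hb : b < Lo P.Z x) :
    (x + b) / P.Z = x / P.Z ∧ Lo P.Z (x + b) = Lo P.Z x - b ∧ x + b < P.Nz * P.Z := by
  have hZ := hP.Zpos
  have hlo := add_Lo hZ x
  have hNz : x / P.Z + 1 ≤ P.Nz := (Nat.div_lt_iff_lt_mul hZ).2 hx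
  have hle : P.Z * (x / P.Z + 1) ≤ P.Nz * P.Z := by
    rw [Nat.mul_comm P.Nz]
    exact Nat.mul_le_mul_left _ hNz
  have hxd : x / P.Z * P.Z ≤ x := Nat.div_mul_le_self x P.Z
  have h4 : (x + b) / P.Z = x / P.Z := by
    apply Nat.div_eq_of_lt_le
    · omega
    · rw [Nat.mul_comm]
      omega
  have h3 := add_Lo hZ (x + b)
  rw [h4] at h3
  exact ⟨h4, by omega, by omega⟩

theorem main_complete {Y LY : ℕ} (S : Sel P G Y LY) (M : Mdl P w) (m : ℕ) :
    ∀ (A : Fin K) (x g : ℕ), G.T A m → m = P.Z * g + Lo P.Z x → g < P.B → x < P.Nz * P.Z →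
      m / LY + 1 ≤ P.Nz - x / P.Z → At w (Sl G (.main A)) x (oMu P g) := by
  induction m using Nat.strong_induction_on with
  | _ m ih =>
  intro A x g hT hm hg hx hN
  have hZ := S.good.Zpos
  have hLY : 0 < LY := lt_of_le_of_lt (Nat.zero_le _) S.ZLY
  have hlo1 := Lo_pos hZ x
  have hlo2 := Lo_le P.Z x
  rw [sl_eq]
  by_cases hC : CmV P m
  · exact at_union.2 (Or.inl (mainLk_complete S.good M hx hg hm hC ((S.TTeq A m).2 hT)))
  -- the value is not committed, so `Lo Z x > Y`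
  have hmB : m ≤ P.Z * P.B := by
    have h1 : P.Z * (g + 1) ≤ P.Z * P.B := Nat.mul_le_mul_left _ hg
    rw [Nat.mul_add, Nat.mul_one] at h1
    omega
  have hmod : (m - 1) % P.Z + 1 = Lo P.Z x := by
    have h1 : m - 1 = (Lo P.Z x - 1) + P.Z * g := by omega
    rw [h1, Nat.add_mul_mod_self_left, Nat.mod_eq_of_lt (by omega)]
    omega
  have hY : Y < Lo P.Z x := by
    by_contra hcon
    exact hC (S.hY m (by omega) hmB (by omega))
  have hY1 := S.Y1
  have hYLY := S.YLY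
  have hZLY := S.ZLY
  -- small steps
  have hsmall : ∀ C D : Fin K, ∀ b c, b + c = m → G.T D b → G.T C c → b < Y →
      At w (cat (UL G D ∩ ST isNZ) (Sl G (.main C))) x (oMu P g) := by
    intro C D b c hbc hb hc hbY
    have hb0 : 0 < b := by
      rcases Nat.eq_zero_or_pos b with h0 | h0
      · rw [h0] at hb
        exact absurd hb (G.T0 D)
      · exact h0
    obtain ⟨h1, h2, h3⟩ := CpMn_next S.good hx (show b < Lo P.Z x by omega)
    refine CpMn_small G S.good M hx hb (by omega) (ih c (by omega) C (x + b) g hc (by omega) hg h3 ?_)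
    rw [h1]
    have h4 : c / LY ≤ m / LY := Nat.div_le_div_right (by omega)
    omega
  -- large steps
  have hlarge : ∀ B C : Fin K, ∀ b c, b + c = m → G.T B b → G.T C c → LY ≤ b → LY ≤ c → MnV P c →
      At w (Lg (Sl G) B C) x (oMu P g) := by
    intro B C b c hbc hb hc hbL hcL hMn
    have hstep : ∀ d, d + LY ≤ m → d / LY + 1 ≤ m / LY := by
      intro d hd
      rw [← Nat.add_div_right d hLY]
      exact Nat.div_le_div_right hd
    have h2 : 2 ≤ m / LY := by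
      rw [Nat.le_div_iff_mul_le hLY]
      omega
    refine Lg_complete G S.good M hg hx (by omega) hm hbc (by omega) (by omega) hMn ?_ ?_
    · intro y g' hy hyx hg' hbv
      have h3 := hstep b (by omega)
      exact ih b (by omega) B y g' hb hbv hg' hy (by omega)
    · intro y g' hy hyx hg' hcv
      have h3 := hstep c (by omega)
      exact ih c (by omega) C y g' hc hcv hg' hy (by omega)
  rcases (G.Tiff A m).1 hT with ⟨h1, _⟩ | ⟨ρ, hρ, hall⟩
  · exfalso
    omega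
  · refine at_union.2 (Or.inr ?_)
    have hall' : ∀ p ∈ ρ, At w (Step G (Sl G) p) x (oMu P g) := by
      intro p hp
      obtain ⟨m₁, m₂, h1, h2, h3⟩ := hall p hp
      rcases S.hsel p m hmB ⟨m₁, m₂, h1, h2, h3⟩ with
        ⟨b, c, hbc, hb, hc, hY' | hY'⟩ | ⟨b, c, hbc, hb, hc, hbL, hcL, hMn | hMn⟩ | ⟨hcm, _⟩
      · exact at_union.2 (Or.inl (at_union.2 (Or.inr (hsmall p.2 p.1 b c hbc hb hc hY'))))
      · exact at_union.2 (Or.inl (at_union.2 (Or.inl
          (hsmall p.1 p.2 c b (by omega) hc hb hY'))))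
      · exact at_union.2 (Or.inr (at_union.2 (Or.inr
          (hlarge p.2 p.1 c b (by omega) hc hb hcL hbL hMn))))
      · exact at_union.2 (Or.inr (at_union.2 (Or.inl
          (hlarge p.1 p.2 b c hbc hb hc hbL hcL hMn))))
      · exact absurd hcm hC
    obtain ⟨p, hp⟩ := List.exists_mem_of_ne_nil ρ (G.ne A ρ hρ)
    have h1 := hall' p hp
    exact ⟨h1.1, h1.2.1, ρ, hρ, fun q hq => (hall' q hq).2.2⟩

end Pool.Agent.H29.CJ

end S_CpMn

section S_CpSt

/-!
# Completeness of the start claims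

Use only the STATEMENTS of the imported files.

`x < Z`, `m = Z g + Lo Z x`, `Lo Z x = Z - x`, so `m + x = Z (g + 1)`.  `G.Tiff`:
* `m = 1`, base: `g = 0`, `Lo Z x = 1`, `x` is the `z` letter `Z - 1` (`M.left`), then no `sg` up to `oSg 0 - 1` (`sg_first`), `sg` (`sg_at`).
* rule `ρ`, `p ∈ ρ`: `S.hsel p m`: in cases (i) and (iii) there are `b + c = m` with `b < LY` or `c < LY` (`Y ≤ LY`); case (ii) large.
 - `b < LY`, `T p.1 b`, `0 < b`: `y = x + b < Z + LY`, `k = y/Z ≤ LY/Z + 1`, so `k < Nz` and `y < Nz Z`; all letters of `[x, y)` are left letters, so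
   `UL G p.1` at `[x, y)`.  `c = m - b = Z (g + 1) - y = Z (g - k) + Lo Z y` (`y + Lo Z y = Z (k+1)`; `c ≥ 1` gives `k ≤ g`).
   `main_complete` for `p.2` at `(y, oMu (g - k))`: `c / LY + 1 ≤ Z B / LY + 1 ≤ Nz - k` by `S.hNz`.
   `Gam`: with `q = oIo g k`: `RJ1` on `[y, q)`: `J1_io - J1_left = k - k = 0`; `RJ2` on `[oMu (g-k), q)`: ends with an `isIO` letter (`io_at`),
   `J2_io - J2_mu = 1 + g - k - (g - k + 1) = 0`; order by `mu_io`; then non-`sg` letters up to `oSg g - 1` and `sg`.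
   This is `cat (UL G p.1) (Gam G p.2)`.  The case `c < LY` is symmetric.
 - large: `Lg_complete` (main claims by `main_complete`: `b / LY + 1 ≤ Z B / LY + 1 ≤ Nz - (x/Z + 1) ≤ Nz - y/Z`) gives `Lg` on `[x, oMu g)`, then `RJ3` on
   `[oMu g, oSg g)`: ends with `sg`, `J3_sg - J3_mu = 1`.
-/

set_option autoImplicit false

namespace Pool.Agent.H29.CJ

open Lt Classical

variable {K : ℕ} (G : USys K) {P : Prm K} {w : List Lt}

/-- the filler up to the next `sg` letter -/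
private theorem CpSt_tail (M : Mdl P w) {g q : ℕ} (hg : g < P.B) (hq : q ≤ oSg P g - 1)
    (hn : ∀ t, q ≤ t → t < oSg P g - 1 → Is w t (· ≠ sg)) :
    At w (cat (ST (· ≠ sg)) (LC (· = sg))) q (oSg P g) := by
  obtain ⟨h1, h2⟩ := M.sg_at g hg
  refine at_cat.2 ⟨oSg P g - 1, at_ST.2 ⟨hq, h2.lt.le, hn⟩, at_LC.2 ⟨by omega, h2⟩⟩

/-- the left region lies before all `mu` letters -/
private theorem CpSt_left (hP : P.Good) (M : Mdl P w) {g : ℕ} (hg : g < P.B) :
    P.Nz * P.Z < oMu P g := by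
  have hz : 0 < P.Z / P.b1 := Nat.div_pos (Nat.le_of_dvd hP.Zpos hP.b1Z) hP.b1pos
  obtain ⟨h1, -, h3⟩ := M.tau_at g hg
  have h4 := M.rec_le g hg 0 hz g hg
  omega

private theorem CpSt_isLeft (M : Mdl P w) {t : ℕ} (ht : t < P.Nz * P.Z) : Is w t isLeft :=
  ⟨lefL P t, M.left t ht, _, _, _, rfl⟩

/-- the small steps -/
private theorem CpSt_small {Y LY : ℕ} (S : Sel P G Y LY) (M : Mdl P w) {B C : Fin K}
    {b c m x g : ℕ} (hb : G.T B b) (hc : G.T C c) (hbc : b + c = m) (hbL : b < LY)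
    (hm : m = P.Z * g + Lo P.Z x) (hg : g < P.B) (hx : x < P.Z) :
    At w (cat (UL G B) (Gam G C)) x (oSg P g) := by
  have hP := S.good
  have hZ := hP.Zpos
  have hb0 : 0 < b := Nat.pos_of_ne_zero (fun h => G.T0 B (h ▸ hb))
  have hc0 : 0 < c := Nat.pos_of_ne_zero (fun h => G.T0 C (h ▸ hc))
  obtain ⟨u, hu⟩ : ∃ u, u = LY / P.Z := ⟨_, rfl⟩
  obtain ⟨v, hv⟩ : ∃ v, v = P.Z * P.B / LY := ⟨_, rfl⟩
  have hN := S.hNz
  rw [← hu, ← hv] at hN
  have hLo : Lo P.Z x = P.Z - x := by unfold Lo; rw [Nat.mod_eq_of_lt hx]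
  obtain ⟨y, hy⟩ : ∃ y, y = x + b := ⟨_, rfl⟩
  obtain ⟨k, hk⟩ : ∃ k, k = y / P.Z := ⟨_, rfl⟩
  have hk1 : k ≤ u + 1 := by
    rw [hk, hu, ← Nat.add_div_right _ hZ]
    exact Nat.div_le_div_right (by omega)
  have hkN : k < P.Nz := by omega
  have hyN : y < P.Nz * P.Z := (Nat.div_lt_iff_lt_mul hZ).1 (hk ▸ hkN)
  have hdm : P.Z * k + y % P.Z = y := by rw [hk]; exact Nat.div_add_mod y P.Z
  have hmod : y % P.Z < P.Z := Nat.mod_lt _ hZ
  have hsum : y + c = P.Z * g + P.Z := by omega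
  have hkg : k ≤ g := by
    by_contra hcon
    have h1 : g + 1 ≤ k := by omega
    have h2 : P.Z * (g + 1) ≤ P.Z * k := Nat.mul_le_mul_left _ h1
    have h3 : P.Z * (g + 1) = P.Z * g + P.Z := by ring
    omega
  have hsub : P.Z * (g - k) = P.Z * g - P.Z * k := Nat.mul_sub _ _ _
  have hle : P.Z * k ≤ P.Z * g := Nat.mul_le_mul_left _ hkg
  have hcv : c = P.Z * (g - k) + Lo P.Z y := by
    unfold Lo
    omega
  have hmB : P.Z * g + P.Z ≤ P.Z * P.B := by
    have h1 : P.Z * (g + 1) ≤ P.Z * P.B := Nat.mul_le_mul_left _ hg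
    have h3 : P.Z * (g + 1) = P.Z * g + P.Z := by ring
    omega
  have hcL : c / LY ≤ v := hv ▸ Nat.div_le_div_right (by omega)
  have hmain := main_complete G S M c C y (g - k) hc hcv (by omega) hyN (by rw [← hk]; clear hu hv; omega)
  have hylen : y < w.length := (CpSt_isLeft M hyN).lt
  have hST : At w (ST isLeft) x y :=
    at_ST.2 ⟨by omega, hylen.le, fun t _ ht2 => CpSt_isLeft M (by omega)⟩
  have hUL : At w (UL G B) x y := by
    refine ⟨by omega, hylen.le, hST.2.2, ?_⟩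
    rw [length_seg (by omega) hylen.le]
    have : y - x = b := by omega
    rw [this]
    exact hb
  have hmu := CpSt_left hP M hg
  obtain ⟨i1, i2, i3, i4⟩ := M.io_at g hg k hkN
  obtain ⟨s1, s2⟩ := M.sg_at g hg
  have hslen := s2.lt
  have m1 := M.mu_io g hg g hg k
  have m2 := M.mu_io (g - k) (by omega) g hg k
  have m3 : oMu P (g - k) ≤ oIo P g k - 1 := by
    by_contra hcon
    have h1 : oMu P (g - k) = oIo P g k := by omega
    obtain ⟨-, h2⟩ := M.mu_at (g - k) (by omega)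
    rw [h1] at h2
    obtain ⟨a, -, h3, h4⟩ := h2.and i2
    rcases h4 with h4 | h4 <;>
    · rw [h3] at h4
      cases h4
  refine at_cat.2 ⟨y, hUL, at_cat.2 ⟨oIo P g k, at_inter.2 ⟨?_, at_cat.2 ⟨oMu P (g - k), hmain, ?_⟩⟩,
    CpSt_tail M hg i3 i4⟩⟩
  · refine at_WT.2 ⟨by omega, by omega, ?_⟩
    rw [M.J1_io g hg k hkN, M.J1_left y hyN.le, ← hk]
    ring
  · refine at_inter.2 ⟨at_cat.2 ⟨oIo P g k - 1, at_univ.2 ⟨m3, by omega⟩,
      at_LC.2 ⟨by omega, i2⟩⟩, at_WT.2 ⟨m2, by omega, ?_⟩⟩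
    rw [M.J2_io g hg k hkN, M.J2_mu (g - k) (by omega)]
    push_cast [hkg]
    ring

/-- the large steps -/
private theorem CpSt_large {Y LY : ℕ} (S : Sel P G Y LY) (M : Mdl P w) {B C : Fin K}
    {b c m x g : ℕ} (hb : G.T B b) (hc : G.T C c) (hbc : b + c = m) (hbL : LY ≤ b)
    (hcL : LY ≤ c) (hMn : MnV P c) (hm : m = P.Z * g + Lo P.Z x) (hg : g < P.B)
    (hx : x < P.Z) : At w (cat (Lg (Sl G) B C) RJ3) x (oSg P g) := by
  have hP := S.good
  have hZ := hP.Zpos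
  obtain ⟨u, hu⟩ : ∃ u, u = LY / P.Z := ⟨_, rfl⟩
  obtain ⟨v, hv⟩ : ∃ v, v = P.Z * P.B / LY := ⟨_, rfl⟩
  have hN := S.hNz
  rw [← hu, ← hv] at hN
  have hZL := S.ZLY
  have hLo : Lo P.Z x = P.Z - x := by unfold Lo; rw [Nat.mod_eq_of_lt hx]
  have hx0 : x / P.Z = 0 := Nat.div_eq_of_lt hx
  have hmB : P.Z * g + P.Z ≤ P.Z * P.B := by
    have h1 : P.Z * (g + 1) ≤ P.Z * P.B := Nat.mul_le_mul_left _ hg
    have h3 : P.Z * (g + 1) = P.Z * g + P.Z := by ring
    omega
  have hbB : b / LY ≤ v := hv ▸ Nat.div_le_div_right (by omega)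
  have hcB : c / LY ≤ v := hv ▸ Nat.div_le_div_right (by omega)
  have hxN : x < P.Nz * P.Z := by
    have : 1 * P.Z ≤ P.Nz * P.Z := Nat.mul_le_mul_right _ (by omega)
    omega
  have hLg : At w (Lg (Sl G) B C) x (oMu P g) := by
    refine Lg_complete G hP M hg hxN (by omega) hm hbc (by omega) (by omega) hMn ?_ ?_
    · intro y g' hy hyx hg' hv
      exact main_complete G S M b B y g' hb hv hg' hy (by omega)
    · intro y g' hy hyx hg' hv
      exact main_complete G S M c C y g' hc hv hg' hy (by omega)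
  obtain ⟨i1, i2, i3, i4⟩ := M.io_at g hg 0 hP.Nzpos
  obtain ⟨s1, s2⟩ := M.sg_at g hg
  have hslen := s2.lt
  have m1 := M.mu_io g hg g hg 0
  refine at_cat.2 ⟨oMu P g, hLg, at_inter.2 ⟨at_cat.2 ⟨oSg P g - 1, at_univ.2 ⟨by omega, by omega⟩,
    at_LC.2 ⟨by omega, s2⟩⟩, at_WT.2 ⟨by omega, by omega, ?_⟩⟩⟩
  rw [M.J3_sg g hg, M.J3_mu g hg]
  ring

theorem sta_complete {Y LY : ℕ} (S : Sel P G Y LY) (M : Mdl P w) {A : Fin K} {m x g : ℕ}
    (hT : G.T A m) (hm : m = P.Z * g + Lo P.Z x) (hg : g < P.B) (hx : x < P.Z) :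
    At w (Sta G A) x (oSg P g) := by
  have hP := S.good
  have hZ := hP.Zpos
  have hN : 4 ≤ P.Nz := (Nat.le_add_left 4 _).trans S.hNz
  have hLo : Lo P.Z x = P.Z - x := by unfold Lo; rw [Nat.mod_eq_of_lt hx]
  have hmB : P.Z * g + P.Z ≤ P.Z * P.B := by
    have h1 : P.Z * (g + 1) ≤ P.Z * P.B := Nat.mul_le_mul_left _ hg
    have h3 : P.Z * (g + 1) = P.Z * g + P.Z := by ring
    omega
  have hxN : x < P.Nz * P.Z := by
    have : 1 * P.Z ≤ P.Nz * P.Z := Nat.mul_le_mul_right _ (by omega)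
    omega
  rcases (G.Tiff A m).1 hT with ⟨h1, hbase⟩ | ⟨ρ, hρ, hp⟩
  · -- base case
    have hg0 : g = 0 := by
      by_contra hcon
      have : P.Z * 1 ≤ P.Z * g := Nat.mul_le_mul_left _ (by omega)
      omega
    subst hg0
    have hx1 : x + 1 = P.Z := by
      rw [Nat.mul_zero] at hm
      omega
    have hisZ : Is w x isZ := by
      refine ⟨lefL P x, M.left x hxN, decide (P.b1 ∣ x + 1), decide (P.b2 ∣ x + 1), ?_⟩
      unfold lefL
      rw [decide_eq_true (show P.Z ∣ x + 1 by rw [hx1])]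
    have hmu := CpSt_left hP M hg
    obtain ⟨i1, i2, i3, i4⟩ := M.io_at 0 hg 0 hP.Nzpos
    have m1 := M.mu_io 0 hg 0 hg 0
    have hcat : At w (cat (LC isZ) (cat (ST (· ≠ sg)) (LC (· = sg)))) x (oSg P 0) :=
      at_cat.2 ⟨x + 1, at_LC.2 ⟨rfl, hisZ⟩, CpSt_tail M hg (by omega)
        (fun t _ ht => M.sg_first t ht)⟩
    exact ⟨hcat.1, hcat.2.1, Or.inl ⟨hbase, hcat.2.2⟩⟩
  · -- rules
    have key : ∀ p ∈ ρ, At w (StStep G p) x (oSg P g) := by
      intro p hpρ
      rcases S.hsel p m (by omega) (hp p hpρ) with ⟨b, c, e1, e2, e3, e4⟩ |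
        ⟨b, c, e1, e2, e3, e4, e5, e6⟩ | ⟨-, b, c, e1, e2, e3, e4⟩
      · have hY := S.YLY
        rcases e4 with e4 | e4
        · exact at_union.2 (Or.inl (at_union.2 (Or.inr
            (CpSt_small G S M e2 e3 e1 (by omega) hm hg hx))))
        · exact at_union.2 (Or.inl (at_union.2 (Or.inl
            (CpSt_small G S M e3 e2 (by omega) (by omega) hm hg hx))))
      · rcases e6 with e6 | e6
        · have h := CpSt_large G S M e3 e2 (by omega) e5 e4 e6 hm hg hx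
          exact at_union.2 (Or.inr (h.mono (cat_mono Set.subset_union_right subset_rfl)))
        · have h := CpSt_large G S M e2 e3 e1 e4 e5 e6 hm hg hx
          exact at_union.2 (Or.inr (h.mono (cat_mono Set.subset_union_left subset_rfl)))
      · rcases e4 with e4 | e4
        · exact at_union.2 (Or.inl (at_union.2 (Or.inr
            (CpSt_small G S M e2 e3 e1 e4 hm hg hx))))
        · exact at_union.2 (Or.inl (at_union.2 (Or.inl
            (CpSt_small G S M e3 e2 (by omega) e4 hm hg hx))))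
    obtain ⟨p0, hp0⟩ := List.exists_mem_of_ne_nil ρ (G.ne A ρ hρ)
    have h0 := key p0 hp0
    exact ⟨h0.1, h0.2.1, Or.inr ⟨ρ, hρ, fun p hpρ => (key p hpρ).2.2⟩⟩

end Pool.Agent.H29.CJ

end S_CpSt

section S_CpW

/-!
# The certificate word belongs to the language

Use only the STATEMENTS of the imported files.

`AllSuf`: `at_full`, `at_AllSuf`, `at_AllPre`: let `t < w.length` be a position such that all positions before it are `nz` letters, and `s ≥ t`
an `sg` letter; then `t < Z` (position `Z - 1` is a `z` letter), `s = oSg g - 1` with `g < B` (`sg_only`), and we need `At w (OK G A) t (oSg g)` for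
all `A`: with `m = Z g + Lo Z t`: if `G.T A m` use `sta_complete`; otherwise `stLk_complete` or `stEm_complete` according to `CmV P m`
(`S.TTeq`).  The set `{w | ∀ A, w ∈ OK G A}` at a segment: unfold `At` (for the empty index set `K = 0` nothing to do; here `K = k + 1`).
`Sta G 0` on the whole word: `sta_complete` with `x = 0`, `g = B - 1`, `m = Z (B - 1) + Z = Z B`, `sg_last`.
-/

set_option autoImplicit false

namespace Pool.Agent.H29.CJ

open Lt Classical

variable {k : ℕ} (G : USys (k + 1)) {P : Prm (k + 1)} {w : List Lt}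

theorem WG_complete {Y LY : ℕ} (S : Sel P G Y LY) (M : Mdl P w) (hF : w ∈ Fmt)
    (hT : G.T 0 (P.Z * P.B)) : w ∈ WG G := by
  have hZ := S.good.Zpos
  have hB := S.good.Bpos
  have hN := S.good.Nzpos
  have hZN : P.Z ≤ P.Nz * P.Z := Nat.le_mul_of_pos_left _ hN
  refine ⟨hF, ?_, ?_⟩
  · refine at_full.1 (at_AllSuf.2 ⟨Nat.zero_le _, le_rfl, fun t _ ht2 hnz => ?_⟩)
    refine at_AllPre.2 ⟨ht2.le, le_rfl, fun s hs1 hs2 hsg => ?_⟩
    -- `t < Z`
    have htZ : t < P.Z := by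
      by_contra hc
      obtain ⟨a, ha, z1, z2, hz⟩ := hnz (P.Z - 1) (Nat.zero_le _) (by omega)
      have h1 := M.left (P.Z - 1) (by omega)
      rw [ha, hz] at h1
      have h2 := Option.some.inj h1
      have h3 : P.Z - 1 + 1 = P.Z := by omega
      unfold lefL at h2
      rw [h3] at h2
      simp at h2
    have htN : t < P.Nz * P.Z := by omega
    obtain ⟨g, hg, hs⟩ := M.sg_only s hsg
    have hpos := (M.sg_at g hg).1
    have hs' : s + 1 = oSg P g := by omega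
    rw [hs']
    have key : ∀ A, At w (OK G A) t (oSg P g) := by
      intro A
      by_cases hA : G.T A (P.Z * g + Lo P.Z t)
      · exact (sta_complete G S M hA rfl hg htZ).mono (fun _ hu => Or.inl hu)
      · by_cases hC : CmV P (P.Z * g + Lo P.Z t)
        · exact (stLk_complete S.good M (A := A) htN hg rfl hC
            (fun h => hA ((S.TTeq A _).1 h))).mono (fun _ hu => Or.inr (Or.inl hu))
        · exact (stEm_complete S.good M htN hg rfl hC).mono (fun _ hu => Or.inr (Or.inr hu))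
    exact ⟨(key 0).1, (key 0).2.1, fun A => (key A).2.2⟩
  · have h1 : P.Z * P.B = P.Z * (P.B - 1) + Lo P.Z 0 := by
      unfold Lo
      rw [Nat.zero_mod, Nat.sub_zero, ← Nat.mul_succ]
      congr 1
      omega
    have h2 := sta_complete G S M (x := 0) (g := P.B - 1) hT h1 (by omega) hZ
    rw [M.sg_last] at h2
    exact at_full.1 h2

end Pool.Agent.H29.CJ

end S_CpW
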