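import Mathlib
import Pool.Agent.H29.CL.M1
import Pool.Agent.H29.CL.M5

/-! Conjunctive languages and homomorphisms, part M7: this file joins several modules to save build time. -/

section S_CpF1

/-!
# The certificate word is well formed, first part: region order and left region

Use only the STATEMENTS of the imported files (`FlM`, `AtL`).

`Srt`: the parts of `word P` have constant region `0,1,2,3,4,5,6,7` in this order (`reg` of every letter of `leftW` is `0`, of `cenW` is `3`,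
of `mainW` is `5`, ...).  So for a split `word P = p ++ x :: q` every letter of `p ++ [x]` has region `≤ reg x`: prove that the list is
sorted by region, e.g. `List.Pairwise (fun u v => reg u ≤ reg v) (word P)` by `List.pairwise_append`, with the bounds of each part.
`LeftOK`: `leftW P = (first Nz Z - 1 letters) ++ [z letter]` (as `Nz, Z > 0`, `Z ∣ Nz Z`), the rest has no left letters.
`isZ → isT ∧ isG`: `Z ∣ i + 1` implies `b1 ∣ i + 1` and `b2 ∣ i + 1`.
`AllPre isZ (BlkPair isZ)` etc.: general lemma for a divisor `β > 0` and a predicate `Q` on letters such that position `i < Nz Z` satisfies `Q` iff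
`β ∣ i + 1` and letters outside the left region do not satisfy `Q`: a flagged position `t`, `t + 1 = c β`.  `c = 1`: the initial segment of length
`t + 1` is in `cat (ST ¬Q) (LC Q)`.  `c ≥ 2`: it is `u ++ v` with `u` of length `(c - 2) β` (empty or ending with a flagged letter) and `v`:
`β - 1` unflagged, flagged, `β - 1` unflagged, flagged.  Use `at_full`-style lemmas: `w ∈ AllPre Q L ↔ ∀ t, Is w t Q → At w L 0 (t+1)`
(`at_AllPre`), `at_cat`, `at_Sync_LC`, `at_ST`, `at_LC`, `at_union`, `at_eps`.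
-/

set_option autoImplicit false

namespace Pool.Agent.H29.CJ

open Lt Classical

variable {K : ℕ} (P : Prm K)

private theorem cp1_rep {c x : Lt} {n : ℕ} (h : x ∈ List.replicate n c) : x = c :=
  List.eq_of_mem_replicate h

private theorem cp1_left {x : Lt} (h : x ∈ leftW P) : reg x = 0 := by
  unfold leftW at h
  obtain ⟨i, _, rfl⟩ := List.mem_map.1 h
  rfl

private theorem cp1_row {m : ℕ} {x : Lt} (h : x ∈ rowW P m) : reg x = 3 := by
  unfold rowW at h
  rcases List.mem_cons.1 h with rfl | h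
  · rfl
  · obtain ⟨A, _, rfl⟩ := List.mem_map.1 h
    rfl

private theorem cp1_rec {g j : ℕ} {x : Lt} (h : x ∈ recW P g j) : reg x = 3 := by
  unfold recW at h
  split_ifs at h with hc
  · rcases List.mem_cons.1 h with rfl | h
    · rfl
    · obtain ⟨k, _, h⟩ := List.mem_flatMap.1 h
      exact cp1_row P h
  · rcases List.mem_cons.1 h with rfl | h
    · rfl
    · cases h

private theorem cp1_cen {x : Lt} (h : x ∈ cenW P) : reg x = 3 := by
  unfold cenW at h
  obtain ⟨g, _, h⟩ := List.mem_flatMap.1 h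
  unfold tabW at h
  rcases List.mem_cons.1 h with rfl | h
  · rfl
  · obtain ⟨j, _, h⟩ := List.mem_flatMap.1 h
    exact cp1_rec P h

private theorem cp1_mrec {i j : ℕ} {x : Lt} (h : x ∈ mrecW P i j) : reg x = 5 := by
  unfold mrecW at h
  split_ifs at h with hc
  · rcases List.mem_cons.1 h with rfl | h
    · rfl
    · rw [cp1_rep h]
      rfl
  · rcases List.mem_cons.1 h with rfl | h
    · rfl
    · cases h

private theorem cp1_grp {i : ℕ} {x : Lt} (h : x ∈ grpW P i) : reg x = 5 := by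
  unfold grpW at h
  rcases List.mem_cons.1 h with rfl | h
  · rfl
  · obtain ⟨j, _, h⟩ := List.mem_flatMap.1 h
    exact cp1_mrec P h

private theorem cp1_main {x : Lt} (h : x ∈ mainW P) : reg x = 5 := by
  unfold mainW at h
  obtain ⟨g, _, h⟩ := List.mem_flatMap.1 h
  unfold zoneW at h
  rcases List.mem_append.1 h with h | h
  · rw [cp1_rep h]
    rfl
  rcases List.mem_append.1 h with h | h
  · obtain ⟨j, _, h⟩ := List.mem_flatMap.1 h
    exact cp1_grp P h
  rcases List.mem_append.1 h with h | h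
  · rw [cp1_rep h]
    rfl
  rcases List.mem_append.1 h with h | h
  · rw [cp1_rep h]
    rfl
  rcases List.mem_cons.1 h with rfl | h
  · rfl
  · cases h

private theorem cp1_st {x : Lt} (h : x ∈ stW P) : reg x = 7 := by
  unfold stW at h
  obtain ⟨g, _, h⟩ := List.mem_flatMap.1 h
  unfold szW at h
  rcases List.mem_append.1 h with h | h
  · rw [cp1_rep h]
    rfl
  rcases List.mem_append.1 h with h | h
  · rw [cp1_rep h]
    rfl
  rcases List.mem_cons.1 h with rfl | h
  · rfl
  · cases h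

/-- sorted by region, and all regions at least `c` -/
private def Cp1S (c : ℕ) (u : List Lt) : Prop :=
  List.Pairwise (fun x y => reg x ≤ reg y) u ∧ ∀ x ∈ u, c ≤ reg x

private theorem cp1S_const {c : ℕ} {u : List Lt} (h : ∀ x ∈ u, reg x = c) : Cp1S c u := by
  refine ⟨?_, fun x hx => (h x hx).ge⟩
  rw [List.pairwise_iff_forall_sublist]
  intro x y hxy
  have hx : x ∈ u := hxy.subset (by simp)
  have hy : y ∈ u := hxy.subset (by simp)
  rw [h x hx, h y hy]

private theorem cp1S_append {c d : ℕ} {u v : List Lt} (h : ∀ x ∈ u, reg x = c) (hv : Cp1S d v)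
    (hcd : c ≤ d) : Cp1S c (u ++ v) := by
  constructor
  · rw [List.pairwise_append]
    refine ⟨(cp1S_const h).1, hv.1, fun x hx y hy => ?_⟩
    rw [h x hx]
    exact hcd.trans (hv.2 y hy)
  · intro x hx
    rcases List.mem_append.1 hx with hx | hx
    · exact (h x hx).ge
    · exact hcd.trans (hv.2 x hx)

private theorem cp1S_rest : Cp1S 1 (List.replicate P.Nz nu ++ (List.replicate P.F fi ++ (cenW P ++
    (List.replicate P.B th ++ (mainW P ++ (List.replicate (P.B - 1) tp ++ stW P)))))) := by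
  have h7 : Cp1S 7 (stW P) := cp1S_const (fun x hx => cp1_st P hx)
  have h6 := cp1S_append (c := 6) (u := List.replicate (P.B - 1) tp)
    (fun x hx => by rw [cp1_rep hx]; rfl) h7 (by norm_num)
  have h5 := cp1S_append (c := 5) (u := mainW P) (fun x hx => cp1_main P hx) h6 (by norm_num)
  have h4 := cp1S_append (c := 4) (u := List.replicate P.B th)
    (fun x hx => by rw [cp1_rep hx]; rfl) h5 (by norm_num)
  have h3 := cp1S_append (c := 3) (u := cenW P) (fun x hx => cp1_cen P hx) h4 (by norm_num)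
  have h2 := cp1S_append (c := 2) (u := List.replicate P.F fi)
    (fun x hx => by rw [cp1_rep hx]; rfl) h3 (by norm_num)
  exact cp1S_append (c := 1) (u := List.replicate P.Nz nu)
    (fun x hx => by rw [cp1_rep hx]; rfl) h2 (by norm_num)

theorem word_Srt (hP : P.Good) : word P ∈ Srt := by
  have h0 : Cp1S 0 (word P) := cp1S_append (c := 0) (u := leftW P) (fun x hx => cp1_left P hx)
    (cp1S_rest P) (by norm_num)
  intro r _ p x q e hx
  have hx' : reg x = r := hx
  intro y hy
  show reg y ≤ r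
  rcases List.mem_append.1 hy with hy | hy
  · have h1 := h0.1
    rw [e, List.pairwise_append] at h1
    rw [← hx']
    exact h1.2.2 y hy x (by simp)
  · rcases List.mem_cons.1 hy with rfl | hy
    · exact hx'.le
    · cases hy

private theorem cp1_len : (leftW P).length = P.Nz * P.Z := by
  simp [leftW]

private theorem cp1_get {i : ℕ} (hi : i < P.Nz * P.Z) : (word P)[i]? = some (lefL P i) := by
  unfold word
  rw [List.getElem?_append_left (by rw [cp1_len]; exact hi)]
  unfold leftW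
  rw [List.getElem?_map, List.getElem?_range hi]
  rfl

private theorem cp1_len_le : P.Nz * P.Z ≤ (word P).length := by
  unfold word
  rw [List.length_append, cp1_len]
  omega

private theorem cp1_nleft {i : ℕ} (hi : P.Nz * P.Z ≤ i) (hi' : i < (word P).length) :
    Is (word P) i (fun x => ¬ isLeft x) := by
  refine ⟨(word P)[i], List.getElem?_eq_getElem hi', ?_⟩
  have h1 : (word P)[i]? = some (word P)[i] := List.getElem?_eq_getElem hi'
  have h2 : (word P)[i]? = (List.replicate P.Nz nu ++ (List.replicate P.F fi ++ (cenW P ++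
    (List.replicate P.B th ++ (mainW P ++ (List.replicate (P.B - 1) tp ++ stW P))))))[i - P.Nz * P.Z]? := by
    unfold word
    rw [List.getElem?_append_right (by rw [cp1_len]; exact hi), cp1_len]
  rw [h2] at h1
  have h3 := (cp1S_rest P).2 _ (List.mem_of_getElem? h1)
  rintro ⟨z, t, g, e⟩
  rw [e] at h3
  simp [reg] at h3

/-- the general flag lemma -/
private theorem cp1_blk {w : List Lt} {N β : ℕ} {Q : Lt → Prop} (hN : N ≤ w.length) (hβ : 0 < β)
    (hQ : ∀ i < N, (Is w i Q ↔ β ∣ i + 1)) (hQ' : ∀ i, N ≤ i → ¬ Is w i Q) :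
    w ∈ AllPre Q (BlkPair Q) := by
  have hn : ∀ i < N, ¬ β ∣ i + 1 → Is w i (fun x => ¬ Q x) := by
    intro i hi hd
    have hl : i < w.length := by omega
    refine ⟨w[i], List.getElem?_eq_getElem hl, fun hq => hd ?_⟩
    exact (hQ i hi).1 ⟨w[i], List.getElem?_eq_getElem hl, hq⟩
  rw [← at_full, at_AllPre]
  refine ⟨Nat.zero_le _, le_rfl, fun t _ ht hq => ?_⟩
  have htN : t < N := by
    by_contra hc
    exact hQ' t (by omega) hq
  obtain ⟨c, hc⟩ := (hQ t htN).1 hq
  -- no multiples strictly between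
  have hnm : ∀ m i, β * m ≤ i → i + 1 < β * (m + 1) → ¬ β ∣ i + 1 := by
    rintro m i h1 h2 ⟨d, hd⟩
    have h3 : m < d := by
      by_contra hcon
      have h4 : β * d ≤ β * m := Nat.mul_le_mul_left β (by omega)
      omega
    have h4 : β * (m + 1) ≤ β * d := Nat.mul_le_mul_left β h3
    omega
  unfold BlkPair
  rw [at_union]
  rcases c with _ | _ | c
  · omega
  · left
    refine at_cat.2 ⟨t, at_ST.2 ⟨Nat.zero_le _, ht.le, fun i _ hi => ?_⟩, at_LC.2 ⟨rfl, hq⟩⟩
    refine hn i (by omega) (hnm 0 i (by omega) (by omega))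
  · right
    have e1 : β * (c + 1 + 1) = β * c + β + β := by ring
    have e2 : β * (c + 1) = β * c + β := by ring
    refine at_cat.2 ⟨β * c, ?_, at_cat.2 ⟨t, ?_, at_LC.2 ⟨rfl, hq⟩⟩⟩
    · rw [at_union]
      rcases c with _ | c
      · left
        exact at_eps.2 ⟨by simp, by simp⟩
      · right
        have e3 : β * (c + 1) = β * c + β := by ring
        refine at_cat.2 ⟨β * (c + 1) - 1, at_univ.2 ⟨Nat.zero_le _, by omega⟩,
          at_LC.2 ⟨by omega, (hQ _ (by omega)).2 ?_⟩⟩
        have e4 : β * (c + 1) - 1 + 1 = β * (c + 1) := by omega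
        rw [e4]
        exact Dvd.intro _ rfl
    · rw [at_Sync_LC]
      refine ⟨β - 1, β * c + β, by omega, ht.le, at_LC.2 ⟨by omega, (hQ _ (by omega)).2 ?_⟩, ?_, ?_⟩
      · have e4 : β * c + (β - 1) + 1 = β * (c + 1) := by omega
        rw [e4]
        exact Dvd.intro _ rfl
      · intro i hi1 hi2
        exact hn i (by omega) (hnm c i (by omega) (by omega))
      · intro i hi1 hi2
        exact hn i (by omega) (hnm (c + 1) i (by omega) (by omega))

private theorem cp1_isZ (i : ℕ) : isZ (lefL P i) ↔ P.Z ∣ i + 1 := by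
  constructor
  · rintro ⟨t, g, e⟩
    unfold lefL at e
    injection e with e1 e2 e3
    exact of_decide_eq_true e1
  · intro h
    exact ⟨_, _, by unfold lefL; rw [decide_eq_true h]⟩

private theorem cp1_isT (i : ℕ) : isT (lefL P i) ↔ P.b1 ∣ i + 1 := by
  constructor
  · rintro ⟨t, g, e⟩
    unfold lefL at e
    injection e with e1 e2 e3
    exact of_decide_eq_true e2
  · intro h
    exact ⟨_, _, by unfold lefL; rw [decide_eq_true h]⟩

private theorem cp1_isG (i : ℕ) : isG (lefL P i) ↔ P.b2 ∣ i + 1 := by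
  constructor
  · rintro ⟨t, g, e⟩
    unfold lefL at e
    injection e with e1 e2 e3
    exact of_decide_eq_true e3
  · intro h
    exact ⟨_, _, by unfold lefL; rw [decide_eq_true h]⟩

private theorem cp1_Is {Q : Lt → Prop} {i : ℕ} (hi : i < P.Nz * P.Z) :
    Is (word P) i Q ↔ Q (lefL P i) := by
  constructor
  · rintro ⟨x, h1, h2⟩
    rw [cp1_get P hi] at h1
    rw [Option.some.inj h1]
    exact h2
  · intro h
    exact ⟨_, cp1_get P hi, h⟩

private theorem cp1_nIs {Q : Lt → Prop} (hQ : ∀ x, Q x → isLeft x) {i : ℕ} (hi : P.Nz * P.Z ≤ i) :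
    ¬ Is (word P) i Q := by
  intro h
  obtain ⟨x, h1, h2⟩ := cp1_nleft P hi h.lt
  obtain ⟨y, h3, h4⟩ := h
  rw [h3] at h1
  rw [← Option.some.inj h1] at h2
  exact h2 (hQ y h4)

theorem word_LeftOK (hP : P.Good) : word P ∈ LeftOK := by
  have hZl : ∀ x, isZ x → isLeft x := by
    rintro x ⟨t, g, rfl⟩
    exact ⟨_, _, _, rfl⟩
  have hTl : ∀ x, isT x → isLeft x := by
    rintro x ⟨t, g, rfl⟩
    exact ⟨_, _, _, rfl⟩
  have hGl : ∀ x, isG x → isLeft x := by
    rintro x ⟨t, g, rfl⟩
    exact ⟨_, _, _, rfl⟩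
  have hle := cp1_len_le P
  have hN : 0 < P.Nz * P.Z := Nat.mul_pos hP.Nzpos hP.Zpos
  have hb2Z : P.b2 ∣ P.Z := dvd_trans (Dvd.intro_left 2 rfl) hP.b2Z
  refine ⟨?_, ?_, ?_, ?_, ?_⟩
  · rw [← at_full]
    refine at_cat.2 ⟨P.Nz * P.Z, at_cat.2 ⟨P.Nz * P.Z - 1, ?_, ?_⟩, ?_⟩
    · refine at_ST.2 ⟨Nat.zero_le _, by omega, fun t _ ht => ?_⟩
      rw [cp1_Is P (by omega)]
      exact ⟨_, _, _, rfl⟩
    · refine at_LC.2 ⟨by omega, ?_⟩
      rw [cp1_Is P (by omega), cp1_isZ]
      have : P.Nz * P.Z - 1 + 1 = P.Nz * P.Z := by omega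
      rw [this]
      exact Dvd.intro_left _ rfl
    · exact at_ST.2 ⟨hle, le_rfl, fun t ht ht' => cp1_nleft P ht ht'⟩
  · rw [← at_full]
    refine at_ST.2 ⟨Nat.zero_le _, le_rfl, fun t _ ht => ?_⟩
    rcases Nat.lt_or_ge t (P.Nz * P.Z) with h1 | h1
    · rw [cp1_Is P h1, cp1_isZ, cp1_isT, cp1_isG]
      intro h2
      exact ⟨dvd_trans hP.b1Z h2, dvd_trans hb2Z h2⟩
    · exact (cp1_nleft P h1 ht).mono (fun x hx hz => absurd (hZl x hz) hx)
  · refine cp1_blk hle hP.Zpos (fun i hi => ?_) (fun i hi => cp1_nIs P hZl hi)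
    rw [cp1_Is P hi, cp1_isZ]
  · refine cp1_blk hle hP.b1pos (fun i hi => ?_) (fun i hi => cp1_nIs P hTl hi)
    rw [cp1_Is P hi, cp1_isT]
  · refine cp1_blk hle hP.b2pos (fun i hi => ?_) (fun i hi => cp1_nIs P hGl hi)
    rw [cp1_Is P hi, cp1_isG]

end Pool.Agent.H29.CJ

end S_CpF1

section S_CpF2

/-!
# The certificate word is well formed, second part: weights

Use only the STATEMENTS of the imported files (`FlM`, `AtL`).

`word P = U ++ (mainW P ++ V)` with no letter `mu, rr, cc, cb, ka, kb` in `U` and `V`.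
`mu`: a split `word P = p ++ mu :: q` cuts `mainW` at the end of some zone `g`: `p ++ [mu] = U ++ (range (g+1)).flatMap zoneW`, and every zone has
`wC`-weight `g - g = 0` and `wK`-weight `g - g = 0`.
`rr`: a split `word P = p ++ rr :: q` cuts inside a group of some zone `g`: `wKM = #ka - #kb - #mu` of `p ++ [rr]` is
`(0 - g) + g = 0` (`g` full zones contribute `g - g - 1 = -1` each, then `ka^g` contributes `g`).
`sg`: `word P = U' ++ stW P`, `p ++ [sg] = U' ++ (range (g+1)).flatMap szW`; `wI` of a start zone is `Nz - Nz = 0`; `wZN = Nz - Nz = 0` (the left region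
has exactly `Nz` letters `z`); `wMT = B - (B - 1) = 1`.
A convenient way: a general lemma: if `x ∈`-split of `(range n).flatMap f = p ++ x :: q` then there are `g < n`, `p', q'` with
`f g = p' ++ x :: q'`, `p = (range g).flatMap f ++ p'`.
-/

set_option autoImplicit false

namespace Pool.Agent.H29.CJ

open Lt Classical

variable {K : ℕ} (P : Prm K)

section aux

variable {β : Type}

private theorem cpf2_wt_cons (f : β → ℤ) (a : β) (v : List β) : wt f (a :: v) = f a + wt f v := by
  simp [wt]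

private theorem cpf2_app {u v p q : List β} {x : β} (h : u ++ v = p ++ x :: q) :
    (∃ q', u = p ++ x :: q') ∨ (∃ p', v = p' ++ x :: q ∧ p = u ++ p') := by
  rw [List.append_eq_append_iff] at h
  rcases h with ⟨as, h1, h2⟩ | ⟨bs, h1, h2⟩
  · exact Or.inr ⟨as, h2, h1⟩
  · cases bs with
    | nil =>
      right
      refine ⟨[], ?_, ?_⟩
      · simpa using h2.symm
      · simpa using h1.symm
    | cons b bs =>
      left
      rw [List.cons_append, List.cons.injEq] at h2
      obtain ⟨rfl, h3⟩ := h2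
      exact ⟨bs, h1⟩

private theorem cpf2_right {u v p q : List β} {x : β} (h : u ++ v = p ++ x :: q) (hx : x ∉ u) :
    ∃ p', v = p' ++ x :: q ∧ p = u ++ p' := by
  rcases cpf2_app h with ⟨q', h1⟩ | h1
  · exact absurd (by rw [h1]; simp) hx
  · exact h1

private theorem cpf2_left {u v p q : List β} {x : β} (h : u ++ v = p ++ x :: q) (hx : x ∉ v) :
    ∃ q', u = p ++ x :: q' := by
  rcases cpf2_app h with h1 | ⟨p', h1, h2⟩
  · exact h1
  · exact absurd (by rw [h1]; simp) hx

private theorem cpf2_flat (f : ℕ → List β) (n : ℕ) {p q : List β} {x : β}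
    (h : (List.range n).flatMap f = p ++ x :: q) :
    ∃ g < n, ∃ p' q', f g = p' ++ x :: q' ∧ p = (List.range g).flatMap f ++ p' := by
  induction n generalizing q with
  | zero => simp at h
  | succ n ih =>
    rw [List.range_succ, List.flatMap_append] at h
    rcases cpf2_app h with ⟨q', h1⟩ | ⟨p', h1, h2⟩
    · obtain ⟨g, hg, p', q'', h3, h4⟩ := ih h1
      exact ⟨g, by omega, p', q'', h3, h4⟩
    · refine ⟨n, by omega, p', q, ?_, h2⟩
      simpa using h1

private theorem cpf2_last {u p q : List β} {x : β} (h : u ++ [x] = p ++ x :: q) (hx : x ∉ u) :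
    p = u := by
  obtain ⟨p', h1, h2⟩ := cpf2_right h hx
  cases p' with
  | nil => simpa using h2
  | cons b p' => simp at h1

end aux

private theorem cpf2_low : ∀ b : Lt, reg b ≤ 4 →
    wC b = 0 ∧ wK b = 0 ∧ wKM b = 0 ∧ wI b = 0 ∧ wMT b = 0 ∧ b ≠ mu ∧ b ≠ rr ∧ b ≠ sg := by
  decide

private theorem cpf2_high : ∀ b : Lt, 6 ≤ reg b → b ≠ mu ∧ b ≠ rr := by
  decide

private theorem cpf2_five : ∀ b : Lt, reg b = 5 → wI b = 0 ∧ wZN b = 0 ∧ b ≠ sg := by
  decide

private theorem cpf2_mid : ∀ b : Lt, 2 ≤ reg b → wZN b = 0 := by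
  decide

private theorem cpf2_left_reg : ∀ b ∈ leftW P, reg b = 0 := by
  intro b hb
  unfold leftW at hb
  rw [List.mem_map] at hb
  obtain ⟨i, _, rfl⟩ := hb
  rfl

private theorem cpf2_cen_reg : ∀ b ∈ cenW P, reg b = 3 := by
  intro b hb
  unfold cenW at hb
  rw [List.mem_flatMap] at hb
  obtain ⟨g, _, hb⟩ := hb
  unfold tabW at hb
  rw [List.mem_cons] at hb
  rcases hb with rfl | hb
  · rfl
  rw [List.mem_flatMap] at hb
  obtain ⟨j, _, hb⟩ := hb
  unfold recW at hb
  split_ifs at hb with hc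
  · rw [List.mem_cons] at hb
    rcases hb with rfl | hb
    · rfl
    rw [List.mem_flatMap] at hb
    obtain ⟨k, _, hb⟩ := hb
    unfold rowW at hb
    rw [List.mem_cons] at hb
    rcases hb with rfl | hb
    · rfl
    rw [List.mem_map] at hb
    obtain ⟨A, _, rfl⟩ := hb
    rfl
  · rw [List.mem_singleton] at hb
    rw [hb]
    rfl

/-- letters of a menu record -/
private theorem cpf2_mrec {i j : ℕ} : ∀ b ∈ mrecW P i j, b = pp ∨ b = rr ∨ b = ee := by
  intro b hb
  unfold mrecW at hb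
  split_ifs at hb with hc
  · rw [List.mem_cons, List.mem_replicate] at hb
    rcases hb with rfl | ⟨_, rfl⟩
    · exact Or.inl rfl
    · exact Or.inr (Or.inl rfl)
  · rw [List.mem_singleton] at hb
    exact Or.inr (Or.inr hb)

private theorem cpf2_grp {i : ℕ} : ∀ b ∈ grpW P i, b = cc ∨ b = pp ∨ b = rr ∨ b = ee := by
  intro b hb
  unfold grpW at hb
  rw [List.mem_cons] at hb
  rcases hb with rfl | hb
  · exact Or.inl rfl
  rw [List.mem_flatMap] at hb
  obtain ⟨j, _, hb⟩ := hb
  exact Or.inr (cpf2_mrec P b hb)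

private theorem cpf2_grps {n : ℕ} : ∀ b ∈ (List.range n).flatMap (fun i => grpW P (i + 1)),
    b = cc ∨ b = pp ∨ b = rr ∨ b = ee := by
  intro b hb
  rw [List.mem_flatMap] at hb
  obtain ⟨j, _, hb⟩ := hb
  exact cpf2_grp P b hb

private theorem cpf2_grp_wC (i : ℕ) : wt wC (grpW P i) = 1 := by
  unfold grpW
  rw [cpf2_wt_cons, wt_zero]
  · rfl
  · intro b hb
    rw [List.mem_flatMap] at hb
    obtain ⟨j, _, hb⟩ := hb
    rcases cpf2_mrec P b hb with rfl | rfl | rfl <;> rfl

private theorem cpf2_zone_reg {g : ℕ} : ∀ b ∈ zoneW P g, reg b = 5 := by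
  intro b hb
  unfold zoneW at hb
  rw [List.mem_append, List.mem_append, List.mem_append, List.mem_append, List.mem_replicate,
    List.mem_replicate, List.mem_replicate, List.mem_singleton] at hb
  rcases hb with ⟨_, rfl⟩ | hb | ⟨_, rfl⟩ | ⟨_, rfl⟩ | rfl
  · rfl
  · rcases cpf2_grps P b hb with rfl | rfl | rfl | rfl <;> rfl
  · rfl
  · rfl
  · rfl

private theorem cpf2_main_reg : ∀ b ∈ mainW P, reg b = 5 := by
  intro b hb
  unfold mainW at hb
  rw [List.mem_flatMap] at hb
  obtain ⟨g, _, hb⟩ := hb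
  exact cpf2_zone_reg P b hb

private theorem cpf2_sz_reg : ∀ b ∈ szW P, reg b = 7 := by
  intro b hb
  unfold szW at hb
  rw [List.mem_append, List.mem_append, List.mem_replicate,
    List.mem_replicate, List.mem_singleton] at hb
  rcases hb with ⟨_, rfl⟩ | ⟨_, rfl⟩ | rfl <;> rfl

private theorem cpf2_st_reg : ∀ b ∈ stW P, reg b = 7 := by
  intro b hb
  unfold stW at hb
  rw [List.mem_flatMap] at hb
  obtain ⟨g, _, hb⟩ := hb
  exact cpf2_sz_reg P b hb

/-- the part before the main region -/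
private noncomputable def cpf2U : List Lt :=
  leftW P ++ (List.replicate P.Nz nu ++ (List.replicate P.F fi ++ (cenW P ++ List.replicate P.B th)))

private theorem cpf2U_reg : ∀ b ∈ cpf2U P, reg b ≤ 4 := by
  intro b hb
  unfold cpf2U at hb
  rw [List.mem_append, List.mem_append, List.mem_append, List.mem_append, List.mem_replicate,
    List.mem_replicate, List.mem_replicate] at hb
  rcases hb with hb | ⟨_, rfl⟩ | ⟨_, rfl⟩ | hb | ⟨_, rfl⟩
  · rw [cpf2_left_reg P b hb]; omega
  · show (1 : ℕ) ≤ 4; omega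
  · show (2 : ℕ) ≤ 4; omega
  · rw [cpf2_cen_reg P b hb]; omega
  · show (4 : ℕ) ≤ 4; omega

/-- the part after the main region -/
private noncomputable def cpf2V : List Lt := List.replicate (P.B - 1) tp ++ stW P

private theorem cpf2V_reg : ∀ b ∈ cpf2V P, 6 ≤ reg b := by
  intro b hb
  unfold cpf2V at hb
  rw [List.mem_append, List.mem_replicate] at hb
  rcases hb with ⟨_, rfl⟩ | hb
  · show 6 ≤ 6; omega
  · rw [cpf2_st_reg P b hb]; omega

private theorem cpf2_word : word P = cpf2U P ++ (mainW P ++ cpf2V P) := by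
  unfold word cpf2U cpf2V
  simp only [List.append_assoc]

private theorem cpf2_wordS : word P =
    (cpf2U P ++ (mainW P ++ List.replicate (P.B - 1) tp)) ++ stW P := by
  unfold word cpf2U
  simp only [List.append_assoc]

/-- a zone without its last letter -/
private noncomputable def cpf2Z (g : ℕ) : List Lt :=
  List.replicate g ka ++ ((List.range g).flatMap (fun i => grpW P (i + 1)) ++
    (List.replicate g cb ++ List.replicate g kb))

private theorem cpf2_zone (g : ℕ) : zoneW P g = cpf2Z P g ++ [mu] := by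
  unfold zoneW cpf2Z
  simp only [List.append_assoc]

private theorem cpf2Z_mu (g : ℕ) : mu ∉ cpf2Z P g := by
  unfold cpf2Z
  intro hb
  rw [List.mem_append, List.mem_append, List.mem_append, List.mem_replicate,
    List.mem_replicate, List.mem_replicate] at hb
  rcases hb with ⟨_, h⟩ | hb | ⟨_, h⟩ | ⟨_, h⟩
  · cases h
  · rcases cpf2_grps P _ hb with h | h | h | h <;> cases h
  · cases h
  · cases h

private theorem cpf2Z_wC (g : ℕ) : wt wC (cpf2Z P g) = 0 := by
  unfold cpf2Z
  rw [atl_wt_append, atl_wt_append, atl_wt_append, wt_replicate, wt_replicate, wt_replicate,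
    wt_flatMap_const wC _ (c := 1) (fun j _ => cpf2_grp_wC P (j + 1))]
  show (g : ℤ) * 0 + (g * 1 + (g * (-1) + g * 0)) = 0
  ring

private theorem cpf2Z_wK (g : ℕ) : wt wK (cpf2Z P g) = 0 := by
  unfold cpf2Z
  rw [atl_wt_append, atl_wt_append, atl_wt_append, wt_replicate, wt_replicate, wt_replicate,
    wt_zero wK ((List.range g).flatMap (fun i => grpW P (i + 1)))
      (fun b hb => by rcases cpf2_grps P b hb with rfl | rfl | rfl | rfl <;> rfl)]
  show (g : ℤ) * 1 + (0 + (g * 0 + g * (-1))) = 0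
  ring

private theorem cpf2Z_wKM (g : ℕ) : wt wKM (cpf2Z P g) = 0 := by
  unfold cpf2Z
  rw [atl_wt_append, atl_wt_append, atl_wt_append, wt_replicate, wt_replicate, wt_replicate,
    wt_zero wKM ((List.range g).flatMap (fun i => grpW P (i + 1)))
      (fun b hb => by rcases cpf2_grps P b hb with rfl | rfl | rfl | rfl <;> rfl)]
  show (g : ℤ) * 1 + (0 + (g * 0 + g * (-1))) = 0
  ring

private theorem cpf2Z_wMT (g : ℕ) : wt wMT (cpf2Z P g) = 0 := by
  unfold cpf2Z
  rw [atl_wt_append, atl_wt_append, atl_wt_append, wt_replicate, wt_replicate, wt_replicate,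
    wt_zero wMT ((List.range g).flatMap (fun i => grpW P (i + 1)))
      (fun b hb => by rcases cpf2_grps P b hb with rfl | rfl | rfl | rfl <;> rfl)]
  show (g : ℤ) * 0 + (0 + (g * 0 + g * 0)) = 0
  ring

private theorem cpf2_one (f : Lt → ℤ) (b : Lt) : wt f [b] = f b := by
  simp [wt]

private theorem cpf2_zone_wC (g : ℕ) : wt wC (zoneW P g) = 0 := by
  rw [cpf2_zone, atl_wt_append, cpf2Z_wC, cpf2_one]
  rfl

private theorem cpf2_zone_wK (g : ℕ) : wt wK (zoneW P g) = 0 := by
  rw [cpf2_zone, atl_wt_append, cpf2Z_wK, cpf2_one]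
  rfl

private theorem cpf2_zone_wKM (g : ℕ) : wt wKM (zoneW P g) = -1 := by
  rw [cpf2_zone, atl_wt_append, cpf2Z_wKM, cpf2_one]
  rfl

private theorem cpf2_zone_wMT (g : ℕ) : wt wMT (zoneW P g) = 1 := by
  rw [cpf2_zone, atl_wt_append, cpf2Z_wMT, cpf2_one]
  rfl

private theorem cpf2_mu : word P ∈ AllPre (· = mu) (WT wC 0 ∩ WT wK 0) := by
  intro p x q h hx
  have hx' : x = mu := hx
  subst hx'
  rw [cpf2_word] at h
  obtain ⟨p1, h1, h2⟩ := cpf2_right h (fun hm => (cpf2_low mu (cpf2U_reg P _ hm)).2.2.2.2.2.1 rfl)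
  obtain ⟨q2, h3⟩ := cpf2_left h1 (fun hm => (cpf2_high mu (cpf2V_reg P _ hm)).1 rfl)
  obtain ⟨g, hg, p3, q3, h4, h5⟩ := cpf2_flat (zoneW P) P.B h3
  rw [cpf2_zone] at h4
  have h6 := cpf2_last (q := q3) (p := p3) h4 (cpf2Z_mu P g)
  rw [h2, h5, h6]
  constructor
  · show wt wC _ = 0
    rw [atl_wt_append, atl_wt_append, atl_wt_append, cpf2_one, cpf2Z_wC,
      wt_flatMap_const wC (zoneW P) (c := 0) (fun j _ => cpf2_zone_wC P j),
      wt_zero wC (cpf2U P) (fun b hb => (cpf2_low b (cpf2U_reg P b hb)).1)]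
    show (0 : ℤ) + ((g : ℤ) * 0 + 0) + 0 = 0
    ring
  · show wt wK _ = 0
    rw [atl_wt_append, atl_wt_append, atl_wt_append, cpf2_one, cpf2Z_wK,
      wt_flatMap_const wK (zoneW P) (c := 0) (fun j _ => cpf2_zone_wK P j),
      wt_zero wK (cpf2U P) (fun b hb => (cpf2_low b (cpf2U_reg P b hb)).2.1)]
    show (0 : ℤ) + ((g : ℤ) * 0 + 0) + 0 = 0
    ring

private theorem cpf2_rr : word P ∈ AllPre (· = rr) (WT wKM 0) := by
  intro p x q h hx
  have hx' : x = rr := hx
  subst hx'
  rw [cpf2_word] at h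
  obtain ⟨p1, h1, h2⟩ := cpf2_right h
    (fun hm => (cpf2_low rr (cpf2U_reg P _ hm)).2.2.2.2.2.2.1 rfl)
  obtain ⟨q2, h3⟩ := cpf2_left h1 (fun hm => (cpf2_high rr (cpf2V_reg P _ hm)).2 rfl)
  obtain ⟨g, hg, p3, q3, h4, h5⟩ := cpf2_flat (zoneW P) P.B h3
  unfold zoneW at h4
  obtain ⟨p4, h6, h7⟩ := cpf2_right h4 (fun hm => by
    rw [List.mem_replicate] at hm
    cases hm.2)
  obtain ⟨q5, h8⟩ := cpf2_left h6 (fun hm => by
    rw [List.mem_append, List.mem_append, List.mem_replicate, List.mem_replicate,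
      List.mem_singleton] at hm
    rcases hm with ⟨_, h⟩ | ⟨_, h⟩ | h <;> cases h)
  have h9 : wt wKM p4 = 0 := by
    apply wt_zero
    intro b hb
    have hb' : b ∈ (List.range g).flatMap (fun i => grpW P (i + 1)) := by
      rw [h8]
      exact List.mem_append_left _ hb
    rcases cpf2_grps P b hb' with rfl | rfl | rfl | rfl <;> rfl
  rw [h2, h5, h7]
  show wt wKM _ = 0
  rw [atl_wt_append, atl_wt_append, atl_wt_append, atl_wt_append, cpf2_one, h9, wt_replicate,
      wt_flatMap_const wKM (zoneW P) (c := -1) (fun j _ => cpf2_zone_wKM P j),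
      wt_zero wKM (cpf2U P) (fun b hb => (cpf2_low b (cpf2U_reg P b hb)).2.2.1)]
  show (0 : ℤ) + ((g : ℤ) * (-1) + ((g : ℤ) * 1 + 0)) + 0 = 0
  ring

/-- a start zone without its last letter -/
private noncomputable def cpf2S : List Lt := List.replicate P.Nz io ++ List.replicate P.Nz ib

private theorem cpf2_sz : szW P = cpf2S P ++ [sg] := by
  unfold szW cpf2S
  simp only [List.append_assoc]

private theorem cpf2S_mem : ∀ b ∈ cpf2S P, b = io ∨ b = ib := by
  intro b hb
  unfold cpf2S at hb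
  rw [List.mem_append, List.mem_replicate, List.mem_replicate] at hb
  rcases hb with ⟨_, rfl⟩ | ⟨_, rfl⟩
  · exact Or.inl rfl
  · exact Or.inr rfl

private theorem cpf2S_wI : wt wI (cpf2S P) = 0 := by
  unfold cpf2S
  rw [atl_wt_append, wt_replicate, wt_replicate]
  show (P.Nz : ℤ) * 1 + P.Nz * (-1) = 0
  ring

private theorem cpf2S_wZN : wt wZN (cpf2S P) = 0 :=
  wt_zero _ _ (fun b hb => by rcases cpf2S_mem P b hb with rfl | rfl <;> rfl)

private theorem cpf2S_wMT : wt wMT (cpf2S P) = 0 :=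
  wt_zero _ _ (fun b hb => by rcases cpf2S_mem P b hb with rfl | rfl <;> rfl)

private theorem cpf2_lef_wZN (y : ℕ) : wt wZN ((List.range y).map (lefL P)) = ((y / P.Z : ℕ) : ℤ) := by
  induction y with
  | zero => simp [wt]
  | succ y ih =>
    rw [List.range_succ, List.map_append, atl_wt_append, ih, List.map_singleton, cpf2_one,
      Nat.succ_div]
    by_cases hd : P.Z ∣ y + 1
    · rw [if_pos hd]
      have : wZN (lefL P y) = 1 := by
        unfold lefL
        rw [decide_eq_true hd]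
        rfl
      rw [this]
      push_cast
      ring
    · rw [if_neg hd]
      have : wZN (lefL P y) = 0 := by
        unfold lefL
        rw [decide_eq_false hd]
        rfl
      rw [this]
      push_cast
      ring

private theorem cpf2U_wZN (hP : P.Good) : wt wZN (cpf2U P) = 0 := by
  unfold cpf2U
  rw [atl_wt_append, atl_wt_append, atl_wt_append, atl_wt_append, wt_replicate, wt_replicate,
    wt_replicate, wt_zero wZN (cenW P)
      (fun b hb => cpf2_mid b (by rw [cpf2_cen_reg P b hb]; omega))]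
  unfold leftW
  rw [cpf2_lef_wZN, Nat.mul_div_cancel _ hP.Zpos]
  show (P.Nz : ℤ) + (P.Nz * (-1) + (P.F * 0 + (0 + P.B * 0))) = 0
  ring

private theorem cpf2_sg (hP : P.Good) : word P ∈ AllPre (· = sg) (WT wI 0 ∩ (WT wZN 0 ∩ WT wMT 1)) := by
  intro p x q h hx
  have hx' : x = sg := hx
  subst hx'
  rw [cpf2_wordS] at h
  obtain ⟨p1, h1, h2⟩ := cpf2_right h (fun hm => by
    rw [List.mem_append, List.mem_append, List.mem_replicate] at hm
    rcases hm with hm | hm | ⟨_, hm⟩
    · exact (cpf2_low sg (cpf2U_reg P _ hm)).2.2.2.2.2.2.2 rfl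
    · exact (cpf2_five sg (cpf2_main_reg P _ hm)).2.2 rfl
    · cases hm)
  obtain ⟨g, hg, p3, q3, h4, h5⟩ := cpf2_flat (fun _ => szW P) P.B h1
  have h4' : szW P = p3 ++ sg :: q3 := h4
  rw [cpf2_sz] at h4'
  have h6 := cpf2_last (q := q3) (p := p3) h4'
    (fun hm => by rcases cpf2S_mem P _ hm with h | h <;> cases h)
  rw [h2, h5, h6]
  refine ⟨?_, ?_, ?_⟩
  · show wt wI _ = 0
    rw [atl_wt_append, atl_wt_append, atl_wt_append, atl_wt_append, atl_wt_append, cpf2_one,
      cpf2S_wI, wt_replicate,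
      wt_flatMap_const wI (fun _ => szW P) (c := 0) (fun j _ => by
        rw [cpf2_sz, atl_wt_append, cpf2S_wI, cpf2_one]; rfl),
      wt_zero wI (mainW P) (fun b hb => (cpf2_five b (cpf2_main_reg P b hb)).1),
      wt_zero wI (cpf2U P) (fun b hb => (cpf2_low b (cpf2U_reg P b hb)).2.2.2.1)]
    show (0 : ℤ) + (0 + ((P.B - 1 : ℕ) : ℤ) * 0) + ((g : ℤ) * 0 + 0) + 0 = 0
    ring
  · show wt wZN _ = 0
    rw [atl_wt_append, atl_wt_append, atl_wt_append, atl_wt_append, atl_wt_append, cpf2_one,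
      cpf2S_wZN, wt_replicate,
      wt_flatMap_const wZN (fun _ => szW P) (c := 0) (fun j _ => by
        rw [cpf2_sz, atl_wt_append, cpf2S_wZN, cpf2_one]; rfl),
      wt_zero wZN (mainW P) (fun b hb => (cpf2_five b (cpf2_main_reg P b hb)).2.1),
      cpf2U_wZN P hP]
    show (0 : ℤ) + (0 + ((P.B - 1 : ℕ) : ℤ) * 0) + ((g : ℤ) * 0 + 0) + 0 = 0
    ring
  · show wt wMT _ = 1
    rw [atl_wt_append, atl_wt_append, atl_wt_append, atl_wt_append, atl_wt_append, cpf2_one,
      cpf2S_wMT, wt_replicate,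
      wt_flatMap_const wMT (fun _ => szW P) (c := 0) (fun j _ => by
        rw [cpf2_sz, atl_wt_append, cpf2S_wMT, cpf2_one]; rfl),
      wt_zero wMT (cpf2U P) (fun b hb => (cpf2_low b (cpf2U_reg P b hb)).2.2.2.2.1)]
    unfold mainW
    rw [wt_flatMap_const wMT (zoneW P) (c := 1) (fun j _ => cpf2_zone_wMT P j)]
    show (0 : ℤ) + ((P.B : ℤ) * 1 + ((P.B - 1 : ℕ) : ℤ) * (-1)) + ((g : ℤ) * 0 + 0) + 0 = 1
    have := hP.Bpos
    push_cast [Nat.cast_sub (show 1 ≤ P.B from this)]
    ring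

theorem word_WtOK (hP : P.Good) : word P ∈ WtOK :=
  ⟨cpf2_mu P, cpf2_rr P, cpf2_sg P hP⟩

end Pool.Agent.H29.CJ

end S_CpF2

section S_CpLen

/-!
# Length of the certificate word

Use only the STATEMENTS of the imported files (`FlM`).

Lengths: `leftW`: `Nz Z`; `nu`: `Nz`; filler `F`; table `g`: `1 + Σ_{j < Z/b1} |recW g j|`, `|recW g j| = 1` if the record is empty and
`1 + b1 (K+1)` otherwise, so `|cenW| = B + B (Z/b1) + b1 (K+1) nC` with `nC` = number of pairs `(g, j)`, `g < B`, `j < Z/b1`, `Cm g j`;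
`th`: `B`; zone `g`: `3 g + 1 + Σ_{i<g} (1 + Σ_{j < Z/(2 b2)} |mrecW (i+1) j|)`, `|mrecW| = 1` or `1 + 2 b2`; so
`|zoneW g| ≤ 4 B + B (Z/(2 b2)) + 2 b2 nM` with `nM` = number of pairs `(i, j)`, `i ≤ B`, `j < Z/(2 b2)`, `Mn i j` (for each `g < B`:
`3 g + 1 + g ≤ 4 B`); `tp`: `B - 1`; start: `B (2 Nz + 1)`.
Count with `Finset.card_filter` and sums over `Finset.range` (`List.length_flatMap`, `List.sum_range`...).
-/

set_option autoImplicit false

namespace Pool.Agent.H29.CJ

open Lt Classical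

variable {K : ℕ} (P : Prm K)

noncomputable section

/-- number of nonempty records of the tables -/
def nC : ℕ :=
  ((Finset.range P.B ×ˢ Finset.range (P.Z / P.b1)).filter (fun q => P.Cm q.1 q.2)).card

/-- number of nonempty records of the menus -/
def nM : ℕ :=
  ((Finset.range (P.B + 1) ×ˢ Finset.range (P.Z / (2 * P.b2))).filter
    (fun q => P.Mn q.1 q.2)).card

private theorem CpLen_fm {β : Type} (f : ℕ → List β) (n : ℕ) :
    ((List.range n).flatMap f).length = ∑ j ∈ Finset.range n, (f j).length := by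
  induction n with
  | zero => simp
  | succ n ih => rw [length_flatMap_succ, Finset.sum_range_succ, ih]

private theorem CpLen_rec (g j : ℕ) :
    (recW P g j).length = 1 + P.b1 * (K + 1) * (if P.Cm g j then 1 else 0) := by
  unfold recW
  by_cases h : P.Cm g j
  · rw [if_pos h, if_pos h, List.length_cons, length_flatMap_const (c := K + 1)]
    · ring
    · intro k _
      simp [rowW]
  · rw [if_neg h, if_neg h]
    simp

private theorem CpLen_mrec (i j : ℕ) :
    (mrecW P i j).length = 1 + 2 * P.b2 * (if P.Mn i j then 1 else 0) := by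
  unfold mrecW
  by_cases h : P.Mn i j
  · rw [if_pos h, if_pos h, List.length_cons, List.length_replicate]
    ring
  · rw [if_neg h, if_neg h]
    simp

private theorem CpLen_tab (g : ℕ) :
    (tabW P g).length = 1 + P.Z / P.b1 +
      P.b1 * (K + 1) * ∑ j ∈ Finset.range (P.Z / P.b1), (if P.Cm g j then 1 else 0) := by
  unfold tabW
  rw [List.length_cons, CpLen_fm, Finset.sum_congr rfl fun j _ => CpLen_rec P g j,
    Finset.sum_add_distrib, ← Finset.mul_sum, Finset.sum_const, Finset.card_range, smul_eq_mul]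
  ring

private theorem CpLen_grp (i : ℕ) :
    (grpW P i).length = 1 + P.Z / (2 * P.b2) +
      2 * P.b2 * ∑ j ∈ Finset.range (P.Z / (2 * P.b2)), (if P.Mn i j then 1 else 0) := by
  unfold grpW
  rw [List.length_cons, CpLen_fm, Finset.sum_congr rfl fun j _ => CpLen_mrec P i j,
    Finset.sum_add_distrib, ← Finset.mul_sum, Finset.sum_const, Finset.card_range, smul_eq_mul]
  ring

private theorem CpLen_cen :
    (cenW P).length = P.B + P.B * (P.Z / P.b1) + P.b1 * (K + 1) * nC P := by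
  unfold cenW
  rw [CpLen_fm, Finset.sum_congr rfl fun g _ => CpLen_tab P g, Finset.sum_add_distrib,
    ← Finset.mul_sum, Finset.sum_const, Finset.card_range, smul_eq_mul]
  have h : nC P = ∑ g ∈ Finset.range P.B, ∑ j ∈ Finset.range (P.Z / P.b1),
      (if P.Cm g j then 1 else 0) := by
    unfold nC
    rw [Finset.card_filter, Finset.sum_product]
  rw [h]
  ring

private theorem CpLen_nM :
    nM P = ∑ i ∈ Finset.range (P.B + 1), ∑ j ∈ Finset.range (P.Z / (2 * P.b2)),
      (if P.Mn i j then 1 else 0) := by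
  unfold nM
  rw [Finset.card_filter, Finset.sum_product]

private theorem CpLen_zone {g : ℕ} (hg : g < P.B) :
    (zoneW P g).length ≤ 4 * P.B + P.B * (P.Z / (2 * P.b2)) + 2 * P.b2 * nM P := by
  have h1 : (zoneW P g).length = 3 * g + 1 +
      ∑ i ∈ Finset.range g, (grpW P (i + 1)).length := by
    unfold zoneW
    rw [List.length_append, List.length_append, List.length_append, List.length_append,
      List.length_replicate, List.length_replicate, List.length_replicate, CpLen_fm]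
    simp only [List.length_cons, List.length_nil]
    ring
  have h2 : ∑ i ∈ Finset.range g, (grpW P (i + 1)).length =
      g * (1 + P.Z / (2 * P.b2)) + 2 * P.b2 * ∑ i ∈ Finset.range g,
        ∑ j ∈ Finset.range (P.Z / (2 * P.b2)), (if P.Mn (i + 1) j then 1 else 0) := by
    rw [Finset.sum_congr rfl fun i _ => CpLen_grp P (i + 1), Finset.sum_add_distrib,
      ← Finset.mul_sum, Finset.sum_const, Finset.card_range, smul_eq_mul]
  have h3 : ∑ i ∈ Finset.range g, ∑ j ∈ Finset.range (P.Z / (2 * P.b2)),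
      (if P.Mn (i + 1) j then 1 else 0) ≤ nM P := by
    rw [CpLen_nM]
    have h4 := Finset.sum_range_succ' (fun i => ∑ j ∈ Finset.range (P.Z / (2 * P.b2)),
      (if P.Mn i j then 1 else 0)) g
    have h5 : ∑ i ∈ Finset.range (g + 1), ∑ j ∈ Finset.range (P.Z / (2 * P.b2)),
        (if P.Mn i j then 1 else 0) ≤ ∑ i ∈ Finset.range (P.B + 1),
          ∑ j ∈ Finset.range (P.Z / (2 * P.b2)), (if P.Mn i j then 1 else 0) :=
      Finset.sum_le_sum_of_subset (Finset.range_subset_range.2 (by omega))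
    omega
  have h6 : g * (1 + P.Z / (2 * P.b2)) ≤ P.B * (1 + P.Z / (2 * P.b2)) - (1 + P.Z / (2 * P.b2)) := by
    have h7 : (g + 1) * (1 + P.Z / (2 * P.b2)) ≤ P.B * (1 + P.Z / (2 * P.b2)) :=
      Nat.mul_le_mul_right _ hg
    rw [Nat.add_mul, Nat.one_mul] at h7
    omega
  have h8 := Nat.mul_le_mul_left (2 * P.b2) h3
  have h9 : P.B * (1 + P.Z / (2 * P.b2)) = P.B + P.B * (P.Z / (2 * P.b2)) := by ring
  rw [h1, h2]
  generalize P.Z / (2 * P.b2) = Q at *
  omega

private theorem CpLen_main :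
    (mainW P).length ≤ P.B * (4 * P.B + P.B * (P.Z / (2 * P.b2)) + 2 * P.b2 * nM P) := by
  unfold mainW
  rw [CpLen_fm]
  have h := Finset.sum_le_card_nsmul (Finset.range P.B) (fun g => (zoneW P g).length)
    (4 * P.B + P.B * (P.Z / (2 * P.b2)) + 2 * P.b2 * nM P)
    (fun g hg => CpLen_zone P (Finset.mem_range.1 hg))
  rw [Finset.card_range, smul_eq_mul] at h
  exact h

private theorem CpLen_st : (stW P).length = P.B * (2 * P.Nz + 1) := by
  unfold stW
  rw [length_flatMap_const (c := 2 * P.Nz + 1)]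
  intro j _
  unfold szW
  rw [List.length_append, List.length_append, List.length_replicate, List.length_replicate]
  simp only [List.length_cons, List.length_nil]
  ring

theorem length_word_le (hP : P.Good) :
    ∃ n, (word P).length = n + P.F ∧
      n ≤ P.Nz * P.Z + P.Nz + (P.B + P.B * (P.Z / P.b1) + P.b1 * (K + 1) * nC P) + P.B +
        P.B * (4 * P.B + P.B * (P.Z / (2 * P.b2)) + 2 * P.b2 * nM P) + P.B +
        P.B * (2 * P.Nz + 1) := by
  have _ := hP
  have h1 := CpLen_cen P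
  have h2 := CpLen_main P
  have h3 := CpLen_st P
  have h4 : (leftW P).length = P.Nz * P.Z := by
    unfold leftW
    rw [List.length_map, List.length_range]
  have h5 : (word P).length = (leftW P).length + (P.Nz + (P.F + ((cenW P).length +
      (P.B + ((mainW P).length + ((P.B - 1) + (stW P).length)))))) := by
    unfold word
    rw [List.length_append, List.length_append, List.length_append, List.length_append,
      List.length_append, List.length_append, List.length_append, List.length_replicate,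
      List.length_replicate, List.length_replicate, List.length_replicate]
  refine ⟨(leftW P).length + P.Nz + (cenW P).length + P.B + (mainW P).length + (P.B - 1) +
    (stW P).length, by omega, by omega⟩

end

end Pool.Agent.H29.CJ

end S_CpLen

section S_CpZ

/-!
# The measure of the certificate word

Use only the STATEMENTS of the imported files (`FlM`, `AtL`).

`leftW P = (List.range (Nz Z)).map (lefL P)`; split at `Z - 1 < Nz Z`: `p` = the first `Z - 1` letters (`nz` letters: `Z ∣ i + 1` fails for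
`i + 1 < Z`), then the `z` letter `lefL P (Z - 1)`.  `count sg`: only `stW P` contains `sg`, each `szW P` once: `B`
(`List.count_append`, `List.count_flatMap`).
-/

set_option autoImplicit false

namespace Pool.Agent.H29.CJ

open Lt Classical

private theorem cpz_left {K : ℕ} (P : Prm K) : Lt.sg ∉ leftW P := by
  intro h
  obtain ⟨i, -, hi⟩ := List.mem_map.1 h
  simp [lefL] at hi

private theorem cpz_rec {K : ℕ} (P : Prm K) (g j : ℕ) : Lt.sg ∉ recW P g j := by
  unfold recW
  split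
  · simp [rowW]
  · simp

private theorem cpz_cen {K : ℕ} (P : Prm K) : Lt.sg ∉ cenW P := by
  intro h
  obtain ⟨g, -, hg⟩ := List.mem_flatMap.1 h
  unfold tabW at hg
  rcases List.mem_cons.1 hg with hg | hg
  · simp at hg
  · obtain ⟨j, -, hj⟩ := List.mem_flatMap.1 hg
    exact cpz_rec P g j hj

private theorem cpz_mrec {K : ℕ} (P : Prm K) (i j : ℕ) : Lt.sg ∉ mrecW P i j := by
  unfold mrecW
  split
  · simp [List.mem_replicate]
  · simp

private theorem cpz_grp {K : ℕ} (P : Prm K) (i : ℕ) : Lt.sg ∉ grpW P i := by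
  intro hg
  unfold grpW at hg
  rcases List.mem_cons.1 hg with hg | hg
  · simp at hg
  · obtain ⟨j, -, hj⟩ := List.mem_flatMap.1 hg
    exact cpz_mrec P i j hj

private theorem cpz_main {K : ℕ} (P : Prm K) : Lt.sg ∉ mainW P := by
  intro h
  obtain ⟨g, -, hg⟩ := List.mem_flatMap.1 h
  unfold zoneW at hg
  simp only [List.mem_append, List.mem_replicate, List.mem_flatMap, List.mem_singleton] at hg
  rcases hg with ⟨-, h1⟩ | ⟨i, -, h1⟩ | ⟨-, h1⟩ | ⟨-, h1⟩ | h1
  · simp at h1
  · exact cpz_grp P _ h1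
  · simp at h1
  · simp at h1
  · simp at h1

private theorem cpz_st {K : ℕ} (P : Prm K) : (stW P).count Lt.sg = P.B := by
  have h1 : (szW P).count Lt.sg = 1 := by
    unfold szW
    rw [List.count_append, List.count_append, List.count_replicate, List.count_replicate,
      List.count_singleton]
    simp
  unfold stW
  rw [List.count_flatMap]
  have h2 : (List.map (List.count Lt.sg ∘ fun _ => szW P) (List.range P.B))
      = List.replicate P.B 1 := by
    rw [List.eq_replicate_iff]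
    refine ⟨by simp, ?_⟩
    intro b hb
    obtain ⟨i, -, hi⟩ := List.mem_map.1 hb
    rw [← hi]
    exact h1
  rw [h2, List.sum_replicate]
  simp

theorem word_measure {K : ℕ} (P : Prm K) (hP : P.Good) :
    (∃ p x q, word P = p ++ x :: q ∧ (∀ b ∈ p, isNZ b) ∧ isZ x ∧ p.length + 1 = P.Z) ∧
      (word P).count Lt.sg = P.B := by
  constructor
  · have hZ := hP.Zpos
    have hN := hP.Nzpos
    obtain ⟨t, ht⟩ : ∃ t, P.Nz * P.Z = (P.Z - 1) + (t + 1) := by
      have : P.Z ≤ P.Nz * P.Z := Nat.le_mul_of_pos_left _ hN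
      exact ⟨P.Nz * P.Z - P.Z, by omega⟩
    have hl : leftW P = (List.range (P.Z - 1)).map (lefL P) ++ lefL P (P.Z - 1) ::
        (List.range t).map (fun i => lefL P (P.Z - 1 + (i + 1))) := by
      unfold leftW
      rw [ht, List.range_add, List.range_succ_eq_map, List.map_append, List.map_map, List.map_cons,
        List.map_map]
      rfl
    refine ⟨(List.range (P.Z - 1)).map (lefL P), lefL P (P.Z - 1),
      (List.range t).map (fun i => lefL P (P.Z - 1 + (i + 1))) ++
      (List.replicate P.Nz nu ++ (List.replicate P.F fi ++ (cenW P ++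
    (List.replicate P.B th ++ (mainW P ++ (List.replicate (P.B - 1) tp ++ stW P)))))), ?_, ?_, ?_, ?_⟩
    · unfold word
      rw [hl]
      simp only [List.append_assoc, List.cons_append]
    · intro b hb
      obtain ⟨i, hi, rfl⟩ := List.mem_map.1 hb
      rw [List.mem_range] at hi
      have h1 : ¬ P.Z ∣ i + 1 := fun h => by
        have := Nat.le_of_dvd (Nat.succ_pos i) h
        omega
      refine ⟨decide (P.b1 ∣ i + 1), decide (P.b2 ∣ i + 1), ?_⟩
      unfold lefL
      rw [decide_eq_false h1]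
    · have h1 : P.Z ∣ P.Z - 1 + 1 := by
        rw [Nat.sub_add_cancel hZ]
      refine ⟨decide (P.b1 ∣ P.Z - 1 + 1), decide (P.b2 ∣ P.Z - 1 + 1), ?_⟩
      unfold lefL
      rw [decide_eq_true h1]
    · rw [List.length_map, List.length_range]
      omega
  · unfold word
    rw [List.count_append, List.count_append, List.count_append, List.count_append, List.count_append,
      List.count_append, List.count_append, cpz_st, List.count_eq_zero_of_not_mem (cpz_left P),
      List.count_eq_zero_of_not_mem (cpz_cen P), List.count_eq_zero_of_not_mem (cpz_main P),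
      List.count_replicate, List.count_replicate, List.count_replicate, List.count_replicate]
    simp

end Pool.Agent.H29.CJ

end S_CpZ

section S_ParA

/-!
# The scale at which few values are in the middle range

Use only `Core` (the structure `USys`).

`sg0 G p m` is the least number occurring as a part in some representation `m = b + c`, `G.T p.1 b`, `G.T p.2 c`.
For fixed `p, m` the sets `[M / N^(2r), M / N^(2r-2))`, `r = 3, ..., Q + 2`, are pairwise disjoint (`M / N^(2r)` is decreasing in `r`, and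
`2 (r+1) - 2 = 2 r`), so `Σ_r #{m ∈ [1, M] | ∃ p, Mid ... r ... p m} ≤ Σ_r Σ_p #{m | Mid ... r ... p m} ≤ Σ_p Σ_m 1 ≤ K² M`
(number of pairs `p : Fin K × Fin K` is `K²`).  The smallest of the `Q` summands is at most `K² M / Q`.
-/

set_option autoImplicit false

namespace Pool.Agent.H29.CJ

variable {K : ℕ}

/-- a representation of `m` for the pair `p` -/
def Rp (G : USys K) (p : Fin K × Fin K) (m b c : ℕ) : Prop := b + c = m ∧ G.T p.1 b ∧ G.T p.2 c

/-- the least part in a representation of `m` -/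
noncomputable def sg0 (G : USys K) (p : Fin K × Fin K) (m : ℕ) : ℕ :=
  sInf {s | ∃ b c, Rp G p m b c ∧ (s = b ∨ s = c)}

/-- the middle range -/
def Mid (G : USys K) (M Y LY : ℕ) (p : Fin K × Fin K) (m : ℕ) : Prop :=
  1 ≤ m ∧ m ≤ M ∧ (∃ b c, Rp G p m b c) ∧ Y ≤ sg0 G p m ∧ sg0 G p m < LY

/-- different levels give disjoint middle ranges -/
private theorem para_disj (G : USys K) {N M : ℕ} (hN : 2 ≤ N) {r r' : ℕ} (hr : r < r')
    (p : Fin K × Fin K) (m : ℕ) (h : Mid G M (M / N ^ (2 * r)) (M / N ^ (2 * r - 2)) p m)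
    (h' : Mid G M (M / N ^ (2 * r')) (M / N ^ (2 * r' - 2)) p m) : False := by
  obtain ⟨_, _, _, h1, _⟩ := h
  obtain ⟨_, _, _, _, h2⟩ := h'
  have h3 : N ^ (2 * r) ≤ N ^ (2 * r' - 2) := Nat.pow_le_pow_right (by omega) (by omega)
  have h4 : M / N ^ (2 * r' - 2) ≤ M / N ^ (2 * r) :=
    Nat.div_le_div_left h3 (pow_pos (by omega) _)
  omega

open Classical in
theorem exists_level (G : USys K) {N Q M : ℕ} (hQ : 0 < Q) (hN : 2 ≤ N) :
    ∃ r, 3 ≤ r ∧ r < Q + 3 ∧
      Q * ((Finset.Icc 1 M).filter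
        (fun m => ∃ p, Mid G M (M / N ^ (2 * r)) (M / N ^ (2 * r - 2)) p m)).card ≤ K ^ 2 * M := by
  by_contra hcon
  push Not at hcon
  let W : ℕ → Fin K × Fin K → Finset ℕ := fun r p => (Finset.Icc 1 M).filter
    (fun m => Mid G M (M / N ^ (2 * r)) (M / N ^ (2 * r - 2)) p m)
  let V : ℕ → Finset ℕ := fun r => (Finset.Icc 1 M).filter
    (fun m => ∃ p, Mid G M (M / N ^ (2 * r)) (M / N ^ (2 * r - 2)) p m)
  have hV : ∀ r, (V r).card ≤ ∑ p, (W r p).card := by
    intro r
    have h1 : V r ⊆ Finset.univ.biUnion (W r) := by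
      intro m hm
      obtain ⟨hm1, p, hp⟩ := Finset.mem_filter.1 hm
      exact Finset.mem_biUnion.2 ⟨p, Finset.mem_univ p, Finset.mem_filter.2 ⟨hm1, hp⟩⟩
    exact (Finset.card_le_card h1).trans Finset.card_biUnion_le
  have hW : ∀ p, ∑ r ∈ Finset.Ico 3 (Q + 3), (W r p).card ≤ M := by
    intro p
    rw [← Finset.card_biUnion]
    · have h1 : (Finset.Ico 3 (Q + 3)).biUnion (fun r => W r p) ⊆ Finset.Icc 1 M := by
        intro m hm
        obtain ⟨r, _, hr⟩ := Finset.mem_biUnion.1 hm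
        exact (Finset.mem_filter.1 hr).1
      have h2 := Finset.card_le_card h1
      rwa [Nat.card_Icc, Nat.add_sub_cancel] at h2
    · intro r _ r' _ hne
      refine Finset.disjoint_left.2 fun m hm hm' => ?_
      have h1 := (Finset.mem_filter.1 hm).2
      have h2 := (Finset.mem_filter.1 hm').2
      rcases lt_or_gt_of_ne hne with h | h
      · exact para_disj G hN h p m h1 h2
      · exact para_disj G hN h p m h2 h1
  have hsum : ∑ r ∈ Finset.Ico 3 (Q + 3), (V r).card ≤ K ^ 2 * M := by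
    calc ∑ r ∈ Finset.Ico 3 (Q + 3), (V r).card
        ≤ ∑ r ∈ Finset.Ico 3 (Q + 3), ∑ p, (W r p).card := Finset.sum_le_sum fun r _ => hV r
      _ = ∑ p, ∑ r ∈ Finset.Ico 3 (Q + 3), (W r p).card := Finset.sum_comm
      _ ≤ ∑ _p : Fin K × Fin K, M := Finset.sum_le_sum fun p _ => hW p
      _ = K ^ 2 * M := by
        rw [Finset.sum_const, Finset.card_univ, Fintype.card_prod, Fintype.card_fin, smul_eq_mul,
          sq]
  have hlt : ∑ _r ∈ Finset.Ico 3 (Q + 3), K ^ 2 * M <
      ∑ r ∈ Finset.Ico 3 (Q + 3), Q * (V r).card := by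
    refine Finset.sum_lt_sum_of_nonempty ⟨3, Finset.mem_Ico.2 ⟨le_rfl, by omega⟩⟩ fun r hr => ?_
    obtain ⟨h1, h2⟩ := Finset.mem_Ico.1 hr
    exact hcon r h1 h2
  rw [Finset.sum_const, Nat.card_Ico, Nat.add_sub_cancel, smul_eq_mul, ← Finset.mul_sum] at hlt
  exact absurd (Nat.mul_le_mul_left Q hsum) (not_le.2 hlt)

end Pool.Agent.H29.CJ

end S_ParA

section S_ParB

/-!
# The parameters of the certificate: selection conditions

Use only definitions.

Write `Y = M / N^(2r)`, `LY = M / N^(2r-2)`, `Z = M / N^(2r-1)`, `B = N^(2r-1)`; by divisibility (`N^(2r) ∣ M`, `0 < M`) these are exact: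
`M = N^(2r) Y`, `Z = N Y`, `LY = N Z`, `Z B = M`, all positive; `Y ≤ Z < LY` (`N ≥ 2`).
`mkP_good`: `b1 = N ∣ Z = N Y`; `2 b2 ∣ Z` by hypothesis.
`mkP_sel`: `TTeq` by definition; `hY`: `m` itself is the witness in `Cm`; `hNz`: `LY / Z = N`, `Z B / LY = M / LY = N^(2r-2)`, equality.
`hsel`: let `m ≤ M` have a representation for `p`.  `m ≥ 1` by `G.T0`.  The set in `sg0` is nonempty; `Nat.sInf_mem` gives a representation with a
part equal to `σ = sg0 G p m`, and all parts of all representations are `≥ σ` (`Nat.sInf_le`).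
 `σ < Y`: first alternative.  `Y ≤ σ < LY`: `Mid G M Y LY p m`, so `CmV` (witness `m`), third alternative with the same representation.
 `LY ≤ σ`: by `hS` there is a representation with `b ∈ S` or `c ∈ S`; both parts are `≥ σ ≥ LY`; `MnV` of the part in `S` holds with itself as
 witness: second alternative.
-/

set_option autoImplicit false

namespace Pool.Agent.H29.CJ

open Classical

variable {K : ℕ}

/-- The parameters of the certificate at level `r`. -/
noncomputable def mkP (G : USys K) (M N r b2 F : ℕ) (S : Finset ℕ) : Prm K where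
  Z := M / N ^ (2 * r - 1)
  B := N ^ (2 * r - 1)
  b1 := N
  b2 := b2
  Nz := N + N ^ (2 * r - 2) + 4
  F := F
  TT := G.T
  Cm := fun g j => ∃ m, 1 ≤ m ∧ m ≤ M ∧ (m - 1) / (M / N ^ (2 * r - 1)) = g ∧
    (m - 1) % (M / N ^ (2 * r - 1)) / N = j ∧
    ((m - 1) % (M / N ^ (2 * r - 1)) + 1 ≤ M / N ^ (2 * r) ∨
      ∃ p, Mid G M (M / N ^ (2 * r)) (M / N ^ (2 * r - 2)) p m)
  Mn := fun i j => ∃ s ∈ S, (s - 1) / (M / N ^ (2 * r - 1)) = i ∧
    (s - 1) % (M / N ^ (2 * r - 1)) / (2 * b2) = j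

theorem parB_arith {M N r : ℕ} (hN : 2 ≤ N) (hr : 3 ≤ r) (hM : 0 < M) (hd : N ^ (2 * r) ∣ M) :
    ∃ Y, 0 < Y ∧ M = N ^ (2 * r) * Y ∧ M / N ^ (2 * r) = Y ∧ M / N ^ (2 * r - 1) = N * Y ∧
      M / N ^ (2 * r - 2) = N * (N * Y) ∧ N * Y * N ^ (2 * r - 1) = M ∧
      N * (N * Y) * N ^ (2 * r - 2) = M := by
  obtain ⟨Y, hY⟩ := hd
  have hNp : ∀ k, 0 < N ^ k := fun k => Nat.pow_pos (by omega)
  have e1 : N ^ (2 * r) = N * N ^ (2 * r - 1) := by
    rw [← pow_succ']
    congr 1
    omega
  have e2 : N ^ (2 * r - 1) = N * N ^ (2 * r - 2) := by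
    rw [← pow_succ']
    congr 1
    omega
  have f1 : N * Y * N ^ (2 * r - 1) = M := by
    rw [hY, e1]
    ring
  have f2 : N * (N * Y) * N ^ (2 * r - 2) = M := by
    rw [hY, e1, e2]
    ring
  refine ⟨Y, ?_, hY, ?_, ?_, ?_, f1, f2⟩
  · rcases Nat.eq_zero_or_pos Y with h | h
    · rw [h, Nat.mul_zero] at hY
      omega
    · exact h
  · rw [hY, Nat.mul_div_cancel_left _ (hNp _)]
  · rw [← f1, Nat.mul_div_cancel _ (hNp _)]
  · rw [← f2, Nat.mul_div_cancel _ (hNp _)]

theorem mkP_good (G : USys K) {M N r b2 F : ℕ} {S : Finset ℕ} (hN : 2 ≤ N) (hr : 3 ≤ r)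
    (hM : 0 < M) (hd : N ^ (2 * r) ∣ M) (hb : 0 < b2) (hd' : 2 * b2 ∣ M / N ^ (2 * r - 1)) :
    (mkP G M N r b2 F S).Good := by
  obtain ⟨Y, y0, y1, y2, y3, y4, y5, y6⟩ := parB_arith hN hr hM hd
  refine ⟨?_, ?_, ?_, ?_, hb, hd', ?_⟩
  · show 0 < M / N ^ (2 * r - 1)
    rw [y3]
    exact Nat.mul_pos (by omega) y0
  · exact Nat.pow_pos (by omega)
  · show 0 < N
    omega
  · show N ∣ M / N ^ (2 * r - 1)
    rw [y3]
    exact Nat.dvd_mul_right N Y
  · show 0 < N + N ^ (2 * r - 2) + 4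
    omega

theorem mkP_sel (G : USys K) {M N r b2 F : ℕ} {S : Finset ℕ} (hN : 2 ≤ N) (hr : 3 ≤ r)
    (hM : 0 < M) (hd : N ^ (2 * r) ∣ M) (hb : 0 < b2) (hd' : 2 * b2 ∣ M / N ^ (2 * r - 1))
    (hS : ∀ p m, m ≤ M → (∃ b c, Rp G p m b c) → ∃ b c, Rp G p m b c ∧ (b ∈ S ∨ c ∈ S)) :
    Sel (mkP G M N r b2 F S) G (M / N ^ (2 * r)) (M / N ^ (2 * r - 2)) ∧
      (mkP G M N r b2 F S).Z * (mkP G M N r b2 F S).B = M := by
  obtain ⟨Y, y0, y1, y2, y3, y4, y5, y6⟩ := parB_arith hN hr hM hd
  have hZB : (mkP G M N r b2 F S).Z * (mkP G M N r b2 F S).B = M := by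
    show M / N ^ (2 * r - 1) * N ^ (2 * r - 1) = M
    rw [y3]
    exact y5
  have hYZ : Y ≤ N * Y := Nat.le_mul_of_pos_left Y (by omega)
  have hZL : N * Y < N * (N * Y) := by
    have h1 : 0 < N * Y := Nat.mul_pos (by omega) y0
    have h2 : 2 * (N * Y) ≤ N * (N * Y) := Nat.mul_le_mul_right _ hN
    omega
  refine ⟨⟨mkP_good G hN hr hM hd hb hd', fun _ _ => Iff.rfl, ?_, ?_, ?_, ?_, ?_, ?_⟩, hZB⟩
  · rw [y2]
    exact y0
  · rw [y2, y4]
    omega
  · show M / N ^ (2 * r - 1) < M / N ^ (2 * r - 2)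
    rw [y3, y4]
    exact hZL
  · intro m h1 h2 h3
    rw [hZB] at h2
    exact ⟨m, h1, h2, rfl, rfl, Or.inl h3⟩
  · intro p m hm hex
    rw [hZB] at hm
    have hex' : ∃ b c, Rp G p m b c := hex
    have hne : {s | ∃ b c, Rp G p m b c ∧ (s = b ∨ s = c)}.Nonempty := by
      obtain ⟨b, c, h⟩ := hex'
      exact ⟨b, b, c, h, Or.inl rfl⟩
    have hmem := Nat.sInf_mem hne
    have hle : ∀ b c, Rp G p m b c → sg0 G p m ≤ b ∧ sg0 G p m ≤ c := fun b c h =>
      ⟨Nat.sInf_le ⟨b, c, h, Or.inl rfl⟩, Nat.sInf_le ⟨b, c, h, Or.inr rfl⟩⟩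
    have hsg : ∃ b c, Rp G p m b c ∧ (sg0 G p m = b ∨ sg0 G p m = c) := hmem
    rcases Nat.lt_or_ge (sg0 G p m) (M / N ^ (2 * r)) with h | h
    · left
      obtain ⟨b, c, ⟨r1, r2, r3⟩, h4⟩ := hsg
      refine ⟨b, c, r1, r2, r3, ?_⟩
      rcases h4 with h4 | h4
      · left
        omega
      · right
        omega
    · right
      rcases Nat.lt_or_ge (sg0 G p m) (M / N ^ (2 * r - 2)) with h' | h'
      · right
        obtain ⟨b, c, ⟨r1, r2, r3⟩, h4⟩ := hsg
        have hm1 : 1 ≤ m := by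
          rcases Nat.eq_zero_or_pos b with hb0 | hb0
          · rw [hb0] at r2
            exact absurd r2 (G.T0 _)
          · omega
        refine ⟨⟨m, hm1, hm, rfl, rfl, Or.inr ⟨p, hm1, hm, hex', h, h'⟩⟩, b, c, r1, r2, r3, ?_⟩
        rcases h4 with h4 | h4
        · left
          omega
        · right
          omega
      · left
        obtain ⟨b, c, hr1, hr2⟩ := hS p m hm hex'
        obtain ⟨l1, l2⟩ := hle b c hr1
        obtain ⟨r1, r2, r3⟩ := hr1
        refine ⟨b, c, r1, r2, r3, h'.trans l1, h'.trans l2, ?_⟩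
        rcases hr2 with h5 | h5
        · exact Or.inl ⟨b, h5, rfl, rfl⟩
        · exact Or.inr ⟨c, h5, rfl, rfl⟩
  · rw [hZB]
    show M / N ^ (2 * r - 2) / (M / N ^ (2 * r - 1)) + M / (M / N ^ (2 * r - 2)) + 4
      ≤ N + N ^ (2 * r - 2) + 4
    have g1 : M / N ^ (2 * r - 2) / (M / N ^ (2 * r - 1)) = N := by
      rw [y3, y4]
      exact Nat.mul_div_cancel N (Nat.mul_pos (by omega) y0)
    have g2 : M / (M / N ^ (2 * r - 2)) = N ^ (2 * r - 2) := by
      rw [y4]
      conv_lhs => rw [← y6]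
      exact Nat.mul_div_cancel_left _ (by omega)
    rw [g1, g2]

end Pool.Agent.H29.CJ

end S_ParB

section S_ParC

/-!
# The parameters of the certificate: length

Use only the STATEMENTS of the imported files.

Notation as in `ParB`: `M = N^(2r) Y`, `Z = N Y`, `B = N^(2r-1)`, `Z B = M`, `b1 = N`, `N ∣ Y` (from `N^(2r+1) ∣ M`).
(1) `nC ≤ B (Y / N) + #mid`: a pair `(g, j)` with `g < B` and `Cm g j`: if the witness `m` satisfies `(m-1)%Z + 1 ≤ Y` then
 `j = (m-1)%Z / N < Y / N` (as `(m-1)%Z < Y`, `N ∣ Y`), so at most `B (Y/N)` pairs; otherwise the pair is the image of a `Mid` value `m`.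
 `#mid ≤ M / N²` by `hmid` (`N^2 * #mid ≤ M`).  `B Y = M / N`, so `B (Y/N) = M / N²`.  So `N² nC ≤ 2 M`.
(2) `nM ≤ |S|` (a pair is the image of an element of `S`), and `N^(...) |S| ≤ M`: `hS : 2 * b2 * N^(2r-1) * N * S.card ≤ M`.
(3) Multiply the bound of `length_word_le` by `N`:
 `N · Nz Z = N (N + N^(2r-2) + 4) Z ≤ M + ...`: `N^(2r-2) Z N = M`; `N (N + 4) Z ≤ N^3 · Z·... ≤ M` (`N ≥ 2`: `N (N+4) ≤ 3 N² ≤ N^4`, and `N^4 Z ≤ N^(2r-1) Z = M`
 since `2 r - 1 ≥ 5`).  So `N Nz Z ≤ 2 M`.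
 `N · B (Z/b1) = N B Y = M`.  `N · b1 (K+1) nC = (K+1) N² nC ≤ 2 (K+1) M`.
 `N · B · B (Z/(2 b2)) ≤ M`: `B Z = M`, `hb2 : N * N^(2r-1) ≤ b2`.  `N · B · 2 b2 nM ≤ M` by (2).
 The rest `Nz + B + B + 4 B² + B + B (2 Nz + 1)` times `N` is `≤ M` by `hbig` (all powers of `N` at most `N^(4r+4)`):
 `N (N + N^(2r-2) + 4) + 4 N B + 4 N B² + 2 N B Nz ≤ 20 N^(4r) ≤ N^(4r+5) ≤ M` (`20 ≤ N^5` for `N ≥ 2`; check with `nlinarith`/`gcongr` or bound each term by
 `4 N^(4r)`).
 Sum: `N n ≤ (2 + 1 + 2 (K+1) + 1 + 1 + 1) M = (2 K + 8) M`.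
-/

set_option autoImplicit false

namespace Pool.Agent.H29.CJ

open Classical

variable {K : ℕ}

private theorem parC_q {N t : ℕ} (hN : 2 ≤ N) (ht : 4 ≤ t) : N + 4 ≤ N ^ t := by
  have h1 : N ^ 4 ≤ N ^ t := Nat.pow_le_pow_right (by omega) ht
  have h2 : 2 ^ 3 * N ≤ N ^ 3 * N := Nat.mul_le_mul_right _ (Nat.pow_le_pow_left hN 3)
  have h3 : N ^ 4 = N ^ 3 * N := by ring
  omega

private theorem parC_f {N q Nz : ℕ} (hN : 2 ≤ N) (hq : 1 ≤ q) (hNz : Nz ≤ 2 * q) :
    N * (Nz + 4 * (N * q) + 4 * (N * q) ^ 2 + 2 * (N * q) * Nz) ≤ N ^ 9 * q ^ 2 := by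
  have hqq : q ≤ q ^ 2 := by nlinarith
  have h1 : 2 * (N * q) * Nz ≤ 2 * (N * q) * (2 * q) := Nat.mul_le_mul_left _ hNz
  have h2 : Nz + 4 * (N * q) + 4 * (N * q) ^ 2 + 2 * (N * q) * Nz ≤
      2 * q ^ 2 + 4 * N * q ^ 2 + 4 * N ^ 2 * q ^ 2 + 4 * N * q ^ 2 := by
    have h3 : 2 * (N * q) * (2 * q) = 4 * N * q ^ 2 := by ring
    have h4 : 4 * (N * q) ^ 2 = 4 * N ^ 2 * q ^ 2 := by ring
    have h5 : 4 * (N * q) ≤ 4 * N * q ^ 2 := by
      have : 4 * (N * q) = 4 * N * q := by ring
      rw [this]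
      exact Nat.mul_le_mul_left _ hqq
    omega
  have h6 : 2 * q ^ 2 + 4 * N * q ^ 2 + 4 * N ^ 2 * q ^ 2 + 4 * N * q ^ 2 ≤ N ^ 8 * q ^ 2 := by
    have h7 : 2 * q ^ 2 + 4 * N * q ^ 2 + 4 * N ^ 2 * q ^ 2 + 4 * N * q ^ 2 = (2 + 8 * N + 4 * N ^ 2) * q ^ 2 := by ring
    rw [h7]
    refine Nat.mul_le_mul_right _ ?_
    have h8 : 2 ^ 6 * N ^ 2 ≤ N ^ 6 * N ^ 2 := Nat.mul_le_mul_right _ (Nat.pow_le_pow_left hN 6)
    have h9 : N ^ 8 = N ^ 6 * N ^ 2 := by ring
    nlinarith
  calc N * (Nz + 4 * (N * q) + 4 * (N * q) ^ 2 + 2 * (N * q) * Nz)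
      ≤ N * (N ^ 8 * q ^ 2) := Nat.mul_le_mul_left _ (h2.trans h6)
    _ = N ^ 9 * q ^ 2 := by ring

/-- the total -/
private theorem parC_sum {K N q y M nC nM b2 e cS : ℕ} (hN : 2 ≤ N) (hq : N + 4 ≤ q)
    (hM : M = N ^ 3 * q * y) (hbig : N ^ 9 * q ^ 2 ≤ M) (he : N ^ 2 * y = 2 * b2 * e)
    (hb2 : N * (N * q) ≤ b2) (hnC : N ^ 2 * nC ≤ 2 * M) (hnM : nM ≤ cS)
    (hS : 2 * b2 * (N * q) * N * cS ≤ M) :
    N * ((N + q + 4) * (N ^ 2 * y) + (N + q + 4) + ((N * q) + (N * q) * (N * y) + N * (K + 1) * nC) + (N * q) +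
        (N * q) * (4 * (N * q) + (N * q) * e + 2 * b2 * nM) + (N * q) +
        (N * q) * (2 * (N + q + 4) + 1)) ≤ (2 * K + 8) * M := by
  have ha : N * ((N + q + 4) * (N ^ 2 * y)) ≤ 2 * M := by
    have h1 : N * ((N + q + 4) * (N ^ 2 * y)) = N ^ 3 * q * y + (N + 4) * (N ^ 3 * y) := by ring
    have h2 : (N + 4) * (N ^ 3 * y) ≤ q * (N ^ 3 * y) := Nat.mul_le_mul_right _ hq
    have h3 : q * (N ^ 3 * y) = N ^ 3 * q * y := by ring
    rw [h1, hM]
    omega
  have hb : N * ((N * q) * (N * y)) = M := by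
    rw [hM]
    ring
  have hc : N * (N * (K + 1) * nC) ≤ (K + 1) * (2 * M) := by
    have h1 : N * (N * (K + 1) * nC) = (K + 1) * (N ^ 2 * nC) := by ring
    rw [h1]
    exact Nat.mul_le_mul_left _ hnC
  have hd : N * ((N * q) * ((N * q) * e)) ≤ M := by
    have h1 : N * ((N * q) * ((N * q) * e)) = (N * (N * q)) * ((N * q) * e) := by ring
    have h2 : (N * (N * q)) * ((N * q) * e) ≤ b2 * ((N * q) * e) := Nat.mul_le_mul_right _ hb2
    have h3 : M = 2 * (b2 * ((N * q) * e)) := by
      calc M = (N * q) * (N ^ 2 * y) := by rw [hM]; ring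
        _ = 2 * (b2 * ((N * q) * e)) := by rw [he]; ring
    rw [h1]
    omega
  have hee : N * ((N * q) * (2 * b2 * nM)) ≤ M := by
    have h1 : N * ((N * q) * (2 * b2 * nM)) = 2 * b2 * (N * q) * N * nM := by ring
    rw [h1]
    exact (Nat.mul_le_mul_left _ hnM).trans hS
  have hf : N * ((N + q + 4) + 4 * (N * q) + 4 * (N * q) ^ 2 + 2 * (N * q) * (N + q + 4)) ≤ M :=
    (parC_f hN (by omega) (by omega)).trans hbig
  have e1 : N * ((N + q + 4) * (N ^ 2 * y) + (N + q + 4) + ((N * q) + (N * q) * (N * y) + N * (K + 1) * nC) + (N * q) +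
        (N * q) * (4 * (N * q) + (N * q) * e + 2 * b2 * nM) + (N * q) +
        (N * q) * (2 * (N + q + 4) + 1)) =
      N * ((N + q + 4) * (N ^ 2 * y)) + N * ((N * q) * (N * y)) + N * (N * (K + 1) * nC) +
        N * ((N * q) * ((N * q) * e)) + N * ((N * q) * (2 * b2 * nM)) +
        N * ((N + q + 4) + 4 * (N * q) + 4 * (N * q) ^ 2 + 2 * (N * q) * (N + q + 4)) := by ring
  rw [e1]
  have e2 : (2 * K + 8) * M = 2 * M + M + (K + 1) * (2 * M) + M + M + M := by ring
  rw [e2]
  omega

/-- counting the records of the tables -/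
private theorem parC_nC (G : USys K) {M N r b2 F : ℕ} {S : Finset ℕ} {y q : ℕ} (hN : 2 ≤ N)
    (hB : N ^ (2 * r - 1) = N * q) (hY : M / N ^ (2 * r) = N * y) (hM : M = N ^ 3 * q * y)
    (hmid : N ^ 2 * ((Finset.Icc 1 M).filter
        (fun m => ∃ p, Mid G M (M / N ^ (2 * r)) (M / N ^ (2 * r - 2)) p m)).card ≤ M) :
    N ^ 2 * nC (mkP G M N r b2 F S) ≤ 2 * M := by
  set Md := (Finset.Icc 1 M).filter (fun m => ∃ p, Mid G M (M / N ^ (2 * r)) (M / N ^ (2 * r - 2)) p m) with hMd
  have h1 : nC (mkP G M N r b2 F S) ≤ (N * q) * y + Md.card := by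
    unfold nC
    have hsub : ((Finset.range (mkP G M N r b2 F S).B ×ˢ
        Finset.range ((mkP G M N r b2 F S).Z / (mkP G M N r b2 F S).b1)).filter
        (fun a => (mkP G M N r b2 F S).Cm a.1 a.2)) ⊆
        (Finset.range (N * q) ×ˢ Finset.range y) ∪
          Md.image (fun m => ((m - 1) / (M / N ^ (2 * r - 1)), (m - 1) % (M / N ^ (2 * r - 1)) / N)) := by
      rintro ⟨g, j⟩ h
      rw [Finset.mem_filter, Finset.mem_product, Finset.mem_range, Finset.mem_range] at h
      obtain ⟨⟨h2, -⟩, m, h3, h4, h5, h6, h7⟩ := h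
      have h2' : g < N * q := by
        rw [← hB]
        exact h2
      have h5' : (m - 1) / (M / N ^ (2 * r - 1)) = g := h5
      have h6' : (m - 1) % (M / N ^ (2 * r - 1)) / N = j := h6
      rw [Finset.mem_union]
      rcases h7 with h7 | h7
      · left
        rw [Finset.mem_product, Finset.mem_range, Finset.mem_range]
        refine ⟨h2', ?_⟩
        show j < y
        rw [← h6']
        rw [hY] at h7
        exact Nat.div_lt_of_lt_mul (by omega)
      · right
        rw [Finset.mem_image]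
        refine ⟨m, ?_, ?_⟩
        · rw [hMd, Finset.mem_filter, Finset.mem_Icc]
          exact ⟨⟨h3, h4⟩, h7⟩
        · rw [h5', h6']
    refine (Finset.card_le_card hsub).trans ((Finset.card_union_le _ _).trans ?_)
    rw [Finset.card_product, Finset.card_range, Finset.card_range]
    exact Nat.add_le_add_left Finset.card_image_le _
  calc N ^ 2 * nC (mkP G M N r b2 F S) ≤ N ^ 2 * ((N * q) * y + Md.card) := Nat.mul_le_mul_left _ h1
    _ = N ^ 3 * q * y + N ^ 2 * Md.card := by ring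
    _ ≤ 2 * M := by
        rw [← hM]
        omega

/-- counting the records of the menus -/
private theorem parC_nM (G : USys K) {M N r b2 F : ℕ} {S : Finset ℕ} : nM (mkP G M N r b2 F S) ≤ S.card := by
  unfold nM
  have hsub : ((Finset.range ((mkP G M N r b2 F S).B + 1) ×ˢ
      Finset.range ((mkP G M N r b2 F S).Z / (2 * (mkP G M N r b2 F S).b2))).filter
      (fun a => (mkP G M N r b2 F S).Mn a.1 a.2)) ⊆
      S.image (fun s => ((s - 1) / (M / N ^ (2 * r - 1)), (s - 1) % (M / N ^ (2 * r - 1)) / (2 * b2))) := by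
    rintro ⟨i, j⟩ h
    rw [Finset.mem_filter] at h
    obtain ⟨-, s, h3, h4, h5⟩ := h
    have h4' : (s - 1) / (M / N ^ (2 * r - 1)) = i := h4
    have h5' : (s - 1) % (M / N ^ (2 * r - 1)) / (2 * b2) = j := h5
    rw [Finset.mem_image]
    exact ⟨s, h3, by rw [h4', h5']⟩
  exact (Finset.card_le_card hsub).trans Finset.card_image_le

/-- the filler is added -/
private theorem parC_F (G : USys K) (M N r b2 F : ℕ) (S : Finset ℕ) :
    (word (mkP G M N r b2 F S)).length = (word (mkP G M N r b2 0 S)).length + F := by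
  have h5 : ∀ P : Prm K, (word P).length = (leftW P).length + (P.Nz + (P.F + ((cenW P).length +
      (P.B + ((mainW P).length + ((P.B - 1) + (stW P).length)))))) := by
    intro P
    unfold word
    rw [List.length_append, List.length_append, List.length_append, List.length_append,
      List.length_append, List.length_append, List.length_append, List.length_replicate,
      List.length_replicate, List.length_replicate, List.length_replicate]
  have e1 : (leftW (mkP G M N r b2 F S)).length = (leftW (mkP G M N r b2 0 S)).length := rfl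
  have e2 : (cenW (mkP G M N r b2 F S)).length = (cenW (mkP G M N r b2 0 S)).length := rfl
  have e3 : (mainW (mkP G M N r b2 F S)).length = (mainW (mkP G M N r b2 0 S)).length := rfl
  have e4 : (stW (mkP G M N r b2 F S)).length = (stW (mkP G M N r b2 0 S)).length := rfl
  have e5 : (mkP G M N r b2 F S).Nz = (mkP G M N r b2 0 S).Nz := rfl
  have e6 : (mkP G M N r b2 F S).B = (mkP G M N r b2 0 S).B := rfl
  have e7 : (mkP G M N r b2 F S).F = F := rfl
  have e8 : (mkP G M N r b2 0 S).F = 0 := rfl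
  rw [h5, h5, e1, e2, e3, e4, e5, e6, e7, e8]
  omega

theorem mkP_len (G : USys K) {M N r b2 : ℕ} {S : Finset ℕ} (hN : 2 ≤ N) (hr : 3 ≤ r)
    (hM : 0 < M) (hd : N ^ (2 * r + 1) ∣ M) (hd' : 2 * b2 ∣ M / N ^ (2 * r - 1))
    (hb2 : N * N ^ (2 * r - 1) ≤ b2)
    (hmid : N ^ 2 * ((Finset.Icc 1 M).filter
        (fun m => ∃ p, Mid G M (M / N ^ (2 * r)) (M / N ^ (2 * r - 2)) p m)).card ≤ M)
    (hS : 2 * b2 * N ^ (2 * r - 1) * N * S.card ≤ M) (hbig : N ^ (4 * r + 5) ≤ M) :
    ∃ n, N * n ≤ (2 * K + 8) * M ∧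
      ∀ F, (word (mkP G M N r b2 F S)).length = n + F := by
  have hN0 : 0 < N := by omega
  have hb20 : 0 < b2 := lt_of_lt_of_le (Nat.mul_pos hN0 (Nat.pow_pos hN0)) hb2
  obtain ⟨q, hqd⟩ : ∃ q, q = N ^ (2 * r - 2) := ⟨_, rfl⟩
  have hq0 : 0 < q := by
    rw [hqd]
    exact Nat.pow_pos hN0
  have hqN : N + 4 ≤ q := by
    rw [hqd]
    exact parC_q hN (by omega)
  have hB : N ^ (2 * r - 1) = N * q := by
    rw [hqd, ← pow_succ']
    congr 1
    omega
  have hN2 : N ^ (2 * r) = N ^ 2 * q := by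
    rw [hqd, ← pow_add]
    congr 1
    omega
  have hN3 : N ^ (2 * r + 1) = N ^ 3 * q := by
    rw [hqd, ← pow_add]
    congr 1
    omega
  have hN9 : N ^ (4 * r + 5) = N ^ 9 * q ^ 2 := by
    rw [hqd, ← pow_mul, ← pow_add]
    congr 1
    omega
  obtain ⟨y, hy⟩ := hd
  rw [hN3] at hy
  have hZ : M / N ^ (2 * r - 1) = N ^ 2 * y := by
    rw [hB]
    refine Nat.div_eq_of_eq_mul_right (Nat.mul_pos hN0 hq0) ?_
    rw [hy]
    ring
  have hY : M / N ^ (2 * r) = N * y := by
    rw [hN2]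
    refine Nat.div_eq_of_eq_mul_right (Nat.mul_pos (Nat.pow_pos hN0) hq0) ?_
    rw [hy]
    ring
  obtain ⟨e, he⟩ := hd'
  have hgood := mkP_good G (F := 0) (S := S) hN hr hM
    ((pow_dvd_pow N (by omega : 2 * r ≤ 2 * r + 1)).trans (by rw [hN3, hy]; exact Dvd.intro _ rfl)) hb20
    (by rw [he]; exact Dvd.intro _ rfl)
  obtain ⟨n, hn1, hn2⟩ := length_word_le _ hgood
  have e0 : (mkP G M N r b2 0 S).F = 0 := rfl
  rw [e0, Nat.add_zero] at hn1
  refine ⟨n, ?_, fun F => by rw [parC_F, hn1]⟩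
  have e1 : (mkP G M N r b2 0 S).Nz = N + q + 4 := by
    rw [hqd]
    rfl
  have e2 : (mkP G M N r b2 0 S).Z = N ^ 2 * y := hZ
  have e3 : (mkP G M N r b2 0 S).B = N * q := hB
  have e4 : (mkP G M N r b2 0 S).b1 = N := rfl
  have e5 : (mkP G M N r b2 0 S).b2 = b2 := rfl
  have e6 : N ^ 2 * y / N = N * y := by
    refine Nat.div_eq_of_eq_mul_right hN0 ?_
    ring
  have he' : N ^ 2 * y = 2 * b2 * e := by
    rw [← hZ]
    exact he
  have e7 : N ^ 2 * y / (2 * b2) = e := Nat.div_eq_of_eq_mul_right (by omega) he'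
  rw [e1, e2, e3, e4, e5, e6, e7] at hn2
  rw [hB] at hb2 hS
  rw [hN9] at hbig
  have hnC := parC_nC G (b2 := b2) (F := 0) (S := S) hN hB hY hy hmid
  have hnM := parC_nM G (M := M) (N := N) (r := r) (b2 := b2) (F := 0) (S := S)
  exact (Nat.mul_le_mul_left _ hn2).trans
    (parC_sum hN hqN hy hbig he' hb2 hnC hnM hS)

end Pool.Agent.H29.CJ

end S_ParC
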