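import Mathlib
import Pool.Agent.H29.CL.M5
import Pool.Agent.H29.CL.M6
import Pool.Agent.H29.CL.M7

/-! Conjunctive languages and homomorphisms, part M8: this file joins several modules to save build time. -/

section S_TriA

/-!
# A removal lemma for sums

Mathlib only: `SimpleGraph.triangle_removal`, `SimpleGraph.triangleRemovalBound_pos`.

Statement: for `ε > 0` there is `δ > 0` such that for all `n ≥ 1` and finite sets `A, B, U` of numbers in `[1, n]` with at most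
`δ n²` pairs `(b, c) ∈ A × B` having `b + c ∈ U`, there are sets `SA, SB, SU` of at most `ε n` elements each such that every such pair has
`b ∈ SA` or `c ∈ SB` or `b + c ∈ SU`.

Proof.  `N = 2 n + 1`, vertex set `V = Fin 3 × ZMod N` (or `ZMod N ⊕ ZMod N ⊕ ZMod N`), `|V| = 3 N`.  Graph `G` (use `SimpleGraph.mk`/`fromRel`,
classical decidability): `(0, x) ~ (1, y)` iff `y = x + b` for some `b ∈ A`; `(1, y) ~ (2, z)` iff `z = y + c` for some `c ∈ B`;
`(0, x) ~ (2, z)` iff `z = x + m` for some `m ∈ U` (casts to `ZMod N`).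
Triangles: a 3-clique has one vertex in each class (vertices in the same class are not adjacent), `(0, x), (1, x + b), (2, x + b + c)` with
`b ∈ A`, `c ∈ B` and `b + c ≡ m (mod N)`, `m ∈ U`; as `b + c ≤ 2 n < N` and `m ≤ n < N` we get `b + c = m ∈ U`.  So the number of triangles is at
most `N · (number of pairs)` `≤ N δ n² ≤ δ N³` (injection of the cliques into `ZMod N × pairs`, or surjection).
Let `ε' = ε / 100` and `δ = triangleRemovalBound ε'` (positive).  If the number of triangles is `< triangleRemovalBound ε' (3 N)³` (true, since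
`δ N³ < δ (3N)³`), `triangle_removal` gives `G' ≤ G`, triangle free, with less than `ε' (3N)² = 9 ε' N²` removed edges.
For `b ∈ A` let `r_A(b)` be the number of `x ∈ ZMod N` such that the edge `(0,x) – (1,x+b)` is removed (not in `G'`); similarly
`r_B(c)` (edges `(1,y) – (2,y+c)`) and `r_U(m)` (edges `(0,x) – (2,x+m)`).  `SA = {b ∈ A | 3 r_A(b) ≥ N}` etc.  The removed edges counted by
`r_A(b)`, `b ∈ A`, are different for different `(b, x)` (`b < N` is determined by `x` and `x + b`), so `|SA| N / 3 ≤ 9 ε' N²`, `|SA| ≤ 27 ε' N ≤ 81 ε' n ≤ ε n`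
(`N ≤ 3 n`).  The same for `SB, SU`.
Let `b ∈ A, c ∈ B, m = b + c ∈ U`, and suppose `b ∉ SA, c ∉ SB, m ∉ SU`.  The number of `x` with `(0,x)–(1,x+b)` removed is `< N/3`, with
`(1,x+b)–(2,x+b+c)` removed `< N/3`, with `(0,x)–(2,x+m)` removed `< N/3`; so some `x` has all three edges in `G'`: a triangle of `G'`, contradiction.
-/

set_option autoImplicit false

namespace Pool.Agent.H29.CJ

section
open Finset SimpleGraph SimpleGraph.TripartiteFromTriangles

private theorem cast_inj {n i j : ℕ} (hi : i ≤ 2 * n) (hj : j ≤ 2 * n)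
    (h : (i : ZMod (2 * n + 1)) = (j : ZMod (2 * n + 1))) : i = j := by
  have h1 := (ZMod.natCast_eq_natCast_iff' i j (2 * n + 1)).1 h
  rwa [Nat.mod_eq_of_lt (by omega), Nat.mod_eq_of_lt (by omega)] at h1

/-- the triangle indices -/
private noncomputable def tri (n : ℕ) (F : Finset (ℕ × ℕ)) :
    Finset (ZMod (2 * n + 1) × ZMod (2 * n + 1) × ZMod (2 * n + 1)) :=
  ((univ : Finset (ZMod (2 * n + 1))) ×ˢ F).image
    (fun q => (q.1, q.1 + (q.2.1 : ZMod (2 * n + 1)),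
      q.1 + (q.2.1 : ZMod (2 * n + 1)) + (q.2.2 : ZMod (2 * n + 1))))

private theorem mem_tri {n : ℕ} {F : Finset (ℕ × ℕ)} {x y z : ZMod (2 * n + 1)} :
    (x, y, z) ∈ tri n F ↔ ∃ p ∈ F, y = x + (p.1 : ZMod (2 * n + 1)) ∧
      z = x + (p.1 : ZMod (2 * n + 1)) + (p.2 : ZMod (2 * n + 1)) := by
  unfold tri
  simp only [mem_image, mem_product, mem_univ, true_and, Prod.exists, Prod.mk.injEq]
  constructor
  · rintro ⟨a, b, c, h, rfl, rfl, rfl⟩
    exact ⟨b, c, h, rfl, rfl⟩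
  · rintro ⟨b, c, h, rfl, rfl⟩
    exact ⟨x, b, c, h, rfl, rfl, rfl⟩

private theorem card_tri {n : ℕ} {F : Finset (ℕ × ℕ)}
    (hF : ∀ p ∈ F, p.1 ≤ n ∧ p.2 ≤ n) : (tri n F).card = (2 * n + 1) * F.card := by
  unfold tri
  rw [card_image_of_injOn, card_product, card_univ, ZMod.card]
  rintro ⟨x, b, c⟩ h1 ⟨x', b', c'⟩ h2 h3
  simp only [coe_product, coe_univ, Set.mem_prod, Set.mem_univ, mem_coe, true_and] at h1 h2
  simp only [Prod.mk.injEq] at h3 ⊢
  obtain ⟨h4, h5, h6⟩ := h3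
  have k1 := hF _ h1
  have k2 := hF _ h2
  simp only at k1 k2
  subst h4
  rw [add_right_inj] at h5
  rw [h5, add_right_inj] at h6
  exact ⟨rfl, cast_inj (by omega) (by omega) h5, cast_inj (by omega) (by omega) h6⟩

/-- at most `ε n` disjoint pairs -/
private theorem main_bound (ε : ℝ) (hε : 0 < ε) : ∃ δ : ℝ, 0 < δ ∧ ∀ n : ℕ, 1 ≤ n →
    ∀ P F : Finset (ℕ × ℕ), ∀ A B U : Finset ℕ, (∀ b ∈ A, b ≤ n) → (∀ b ∈ B, b ≤ n) →
      (∀ b ∈ U, b ≤ n) →
      (∀ b ∈ A, ∀ c ∈ B, b + c ∈ U → (b, c) ∈ P) → (∀ p ∈ F, p.1 ∈ A ∧ p.2 ∈ B ∧ p.1 + p.2 ∈ U) →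
      (∀ p ∈ F, ∀ q ∈ F, (p.1 = q.1 ∨ p.2 = q.2 ∨ p.1 + p.2 = q.1 + q.2) → p = q) →
      (P.card : ℝ) ≤ δ * (n : ℝ) ^ 2 → (F.card : ℝ) ≤ ε * n := by
  have he : 0 < ε / 27 := by positivity
  refine ⟨triangleRemovalBound (ε / 27), triangleRemovalBound_pos he, ?_⟩
  intro n hn P F A B U hA hB hU hP hF hD hc
  by_contra hcon
  rw [not_le] at hcon
  have hFn : ∀ p ∈ F, p.1 ≤ n ∧ p.2 ≤ n := fun p hp => ⟨hA _ (hF p hp).1, hB _ (hF p hp).2.1⟩
  have hFs : ∀ p ∈ F, p.1 + p.2 ≤ n := fun p hp => hU _ (hF p hp).2.2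
  have : ExplicitDisjoint (tri n F) := by
    refine ⟨?_, ?_, ?_⟩
    · intro a b c a' h1 h2
      obtain ⟨p, hp, e1, e2⟩ := mem_tri.1 h1
      obtain ⟨q, hq, e3, e4⟩ := mem_tri.1 h2
      have e5 : (p.2 : ZMod (2 * n + 1)) = (q.2 : ZMod (2 * n + 1)) := by
        rw [← e1] at e2
        rw [← e3] at e4
        exact add_left_cancel (e2.symm.trans e4)
      have e6 : p = q := hD p hp q hq (Or.inr (Or.inl (cast_inj (by linarith [(hFn p hp).2])
        (by linarith [(hFn q hq).2]) e5)))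
      rw [← e6] at e3
      exact add_right_cancel (e1.symm.trans e3)
    · intro a b c b' h1 h2
      obtain ⟨p, hp, e1, e2⟩ := mem_tri.1 h1
      obtain ⟨q, hq, e3, e4⟩ := mem_tri.1 h2
      have e5 : ((p.1 + p.2 : ℕ) : ZMod (2 * n + 1)) = ((q.1 + q.2 : ℕ) : ZMod (2 * n + 1)) := by
        push_cast
        rw [add_assoc] at e2 e4
        exact add_left_cancel (e2.symm.trans e4)
      have e6 : p = q := hD p hp q hq (Or.inr (Or.inr (cast_inj (by linarith [hFs p hp])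
        (by linarith [hFs q hq]) e5)))
      rw [← e6] at e3
      exact e1.trans e3.symm
    · intro a b c c' h1 h2
      obtain ⟨p, hp, e1, e2⟩ := mem_tri.1 h1
      obtain ⟨q, hq, e3, e4⟩ := mem_tri.1 h2
      have e5 : (p.1 : ZMod (2 * n + 1)) = (q.1 : ZMod (2 * n + 1)) :=
        add_left_cancel (e1.symm.trans e3)
      have e6 : p = q := hD p hp q hq (Or.inl (cast_inj (by linarith [(hFn p hp).1])
        (by linarith [(hFn q hq).1]) e5))
      rw [← e6] at e4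
      exact e2.trans e4.symm
  have hN : (0 : ℝ) < n := by exact_mod_cast hn
  have hn1 : (1 : ℝ) ≤ n := by exact_mod_cast hn
  have far : (graph (tri n F)).FarFromTriangleFree (ε / 27) := by
    apply farFromTriangleFree
    rw [card_tri hFn, ZMod.card]
    push_cast
    have h1 : (ε / 27) * (2 * (n : ℝ) + 1 + (2 * n + 1) + (2 * n + 1)) ^ 2
        = (2 * (n : ℝ) + 1) * (ε * ((2 * n + 1) / 3)) := by ring
    rw [h1]
    refine mul_le_mul_of_nonneg_left ?_ (by positivity)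
    refine le_trans ?_ hcon.le
    refine mul_le_mul_of_nonneg_left ?_ hε.le
    linarith
  have h2 := far.le_card_cliqueFinset
  have h3 : ((graph (tri n F)).cliqueFinset 3).card ≤ (2 * n + 1) * P.card := by
    have h4 : (graph (tri n F)).cliqueFinset 3 ⊆
        ((univ : Finset (ZMod (2 * n + 1))) ×ˢ P).image
          (fun q => toTriangle (q.1, q.1 + (q.2.1 : ZMod (2 * n + 1)),
            q.1 + (q.2.1 : ZMod (2 * n + 1)) + (q.2.2 : ZMod (2 * n + 1)))) := by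
      intro s hs
      rw [mem_cliqueFinset_iff, SimpleGraph.is3Clique_iff] at hs
      obtain ⟨x, y, z, hxy, hxz, hyz, rfl⟩ := hs
      obtain ⟨a, b, c, habc, hab, hac, hbc⟩ := graph_triple hxy hxz hyz
      obtain ⟨c', hc'⟩ := Graph.in₀₁_iff.1 hab
      obtain ⟨b', hb'⟩ := Graph.in₀₂_iff.1 hac
      obtain ⟨a', ha'⟩ := Graph.in₁₂_iff.1 hbc
      obtain ⟨p, hp, e1, e2⟩ := mem_tri.1 hc'
      obtain ⟨q, hq, e3, e4⟩ := mem_tri.1 ha'
      obtain ⟨r, hr, e5, e6⟩ := mem_tri.1 hb'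
      rw [mem_image]
      have e7 : c = b + (q.2 : ZMod (2 * n + 1)) := by rw [e4, ← e3]
      refine ⟨(a, (p.1, q.2)), ?_, ?_⟩
      · rw [mem_product]
        refine ⟨mem_univ _, hP _ (hF p hp).1 _ (hF q hq).2.1 ?_⟩
        have e8 : ((p.1 + q.2 : ℕ) : ZMod (2 * n + 1)) = ((r.1 + r.2 : ℕ) : ZMod (2 * n + 1)) := by
          push_cast
          rw [e1, add_assoc] at e7
          rw [add_assoc] at e6
          exact add_left_cancel (e7.symm.trans e6)
        have e9 := cast_inj (by linarith [(hFn p hp).1, (hFn q hq).2]) (by linarith [hFs r hr]) e8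
        rw [e9]
        exact (hF r hr).2.2
      · rw [← habc]
        simp only [toTriangle_apply]
        rw [← e1, ← e7]
    refine (card_le_card h4).trans (card_image_le.trans ?_)
    rw [card_product, card_univ, ZMod.card]
  have h5 : (((graph (tri n F)).cliqueFinset 3).card : ℝ) ≤ (2 * n + 1) * P.card := by
    exact_mod_cast h3
  have hb := triangleRemovalBound_pos he
  have h6 : (Fintype.card (ZMod (2 * n + 1) ⊕ ZMod (2 * n + 1) ⊕ ZMod (2 * n + 1)) : ℝ)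
      = 3 * (2 * n + 1) := by
    rw [Fintype.card_sum, Fintype.card_sum, ZMod.card]
    push_cast; ring
  rw [h6] at h2
  have h7 : (2 * (n : ℝ) + 1) * P.card ≤ (2 * n + 1) * (triangleRemovalBound (ε / 27) * (n : ℝ) ^ 2) :=
    mul_le_mul_of_nonneg_left hc (by positivity)
  have h8 := h2.trans (h5.trans h7)
  have h9 : triangleRemovalBound (ε / 27) * ((2 * (n : ℝ) + 1) * (n : ℝ) ^ 2)
      < triangleRemovalBound (ε / 27) * (3 * (2 * (n : ℝ) + 1)) ^ 3 := by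
    refine mul_lt_mul_of_pos_left ?_ hb
    nlinarith [hN, pow_pos hN 2, pow_pos hN 3]
  have h10 : (2 * (n : ℝ) + 1) * (triangleRemovalBound (ε / 27) * (n : ℝ) ^ 2)
      = triangleRemovalBound (ε / 27) * ((2 * (n : ℝ) + 1) * (n : ℝ) ^ 2) := by ring
  rw [h10] at h8
  exact absurd h8 (not_le.2 h9)

end

theorem removal_sums (ε : ℝ) (hε : 0 < ε) : ∃ δ : ℝ, 0 < δ ∧ ∀ n : ℕ, 1 ≤ n →
    ∀ A B U : Finset ℕ, (∀ b ∈ A, 1 ≤ b ∧ b ≤ n) → (∀ c ∈ B, 1 ≤ c ∧ c ≤ n) →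
      (∀ m ∈ U, 1 ≤ m ∧ m ≤ n) →
      (((A ×ˢ B).filter (fun q => q.1 + q.2 ∈ U)).card : ℝ) ≤ δ * (n : ℝ) ^ 2 →
      ∃ SA SB SU : Finset ℕ, (SA.card : ℝ) ≤ ε * n ∧ (SB.card : ℝ) ≤ ε * n ∧
        (SU.card : ℝ) ≤ ε * n ∧
        ∀ b ∈ A, ∀ c ∈ B, b + c ∈ U → b ∈ SA ∨ c ∈ SB ∨ b + c ∈ SU := by
  classical
  obtain ⟨δ, hδ, H⟩ := main_bound ε hε
  refine ⟨δ, hδ, ?_⟩
  intro n hn A B U hA hB hU hc
  set P := (A ×ˢ B).filter (fun q => q.1 + q.2 ∈ U) with hPdef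
  let D : Finset (ℕ × ℕ) → Prop := fun F =>
    ∀ p ∈ F, ∀ q ∈ F, (p.1 = q.1 ∨ p.2 = q.2 ∨ p.1 + p.2 = q.1 + q.2) → p = q
  have hne : (P.powerset.filter D).Nonempty :=
    ⟨∅, by
      rw [Finset.mem_filter, Finset.mem_powerset]
      exact ⟨Finset.empty_subset _, fun p hp => absurd hp (Finset.notMem_empty p)⟩⟩
  obtain ⟨F, hF, hmax⟩ := Finset.exists_max_image (P.powerset.filter D) Finset.card hne
  rw [Finset.mem_filter, Finset.mem_powerset] at hF
  obtain ⟨hFP, hFD⟩ := hF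
  have hFm : ∀ p ∈ F, p.1 ∈ A ∧ p.2 ∈ B ∧ p.1 + p.2 ∈ U := by
    intro p hp
    have h1 := hFP hp
    rw [hPdef, Finset.mem_filter, Finset.mem_product] at h1
    exact ⟨h1.1.1, h1.1.2, h1.2⟩
  have hcard : (F.card : ℝ) ≤ ε * n := by
    refine H n hn P F A B U (fun b hb => (hA b hb).2) (fun b hb => (hB b hb).2)
      (fun b hb => (hU b hb).2) ?_ hFm hFD hc
    intro b hb c hc' hbc
    rw [hPdef, Finset.mem_filter, Finset.mem_product]
    exact ⟨⟨hb, hc'⟩, hbc⟩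
  refine ⟨F.image Prod.fst, F.image Prod.snd, F.image (fun p => p.1 + p.2), ?_, ?_, ?_, ?_⟩
  · exact le_trans (by exact_mod_cast Finset.card_image_le) hcard
  · exact le_trans (by exact_mod_cast Finset.card_image_le) hcard
  · exact le_trans (by exact_mod_cast Finset.card_image_le) hcard
  · intro b hb c hc' hbc
    by_contra hcon
    rw [not_or, not_or] at hcon
    obtain ⟨n1, n2, n3⟩ := hcon
    have hbcF : (b, c) ∉ F := fun h => n1 (Finset.mem_image_of_mem Prod.fst h)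
    have hins : insert (b, c) F ∈ P.powerset.filter D := by
      rw [Finset.mem_filter, Finset.mem_powerset]
      refine ⟨?_, ?_⟩
      · rw [Finset.insert_subset_iff]
        refine ⟨?_, hFP⟩
        rw [hPdef, Finset.mem_filter, Finset.mem_product]
        exact ⟨⟨hb, hc'⟩, hbc⟩
      · have key : ∀ q ∈ F, ¬ (b = q.1 ∨ c = q.2 ∨ b + c = q.1 + q.2) := by
          rintro q hq (h | h | h)
          · exact n1 (Finset.mem_image.2 ⟨q, hq, h.symm⟩)
          · exact n2 (Finset.mem_image.2 ⟨q, hq, h.symm⟩)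
          · exact n3 (Finset.mem_image.2 ⟨q, hq, h.symm⟩)
        intro p hp q hq h
        rw [Finset.mem_insert] at hp hq
        rcases hp with rfl | hp
        · rcases hq with rfl | hq
          · rfl
          · exact absurd h (key q hq)
        · rcases hq with rfl | hq
          · refine absurd ?_ (key p hp)
            rcases h with h | h | h
            · exact Or.inl h.symm
            · exact Or.inr (Or.inl h.symm)
            · exact Or.inr (Or.inr h.symm)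
          · exact hFD p hp q hq h
    have h2 := hmax _ hins
    rw [Finset.card_insert_of_notMem hbcF] at h2
    omega

end Pool.Agent.H29.CJ

end S_TriA

section S_HitG

/-!
# Greedy hitting sets

Mathlib only.

(1) `greedy`: let `U` be a finite set, `I` a finite index set, `F i ⊆ U` for `i ∈ I` with `|F i| ≥ δ n`, where `|U| ≤ n`, `0 ≤ δ ≤ 1`, `0 < n`.  For every `t` there is
`S ⊆ U` with `|S| ≤ t` and at most `(1 - δ)^t |I|` indices `i ∈ I` with `F i ∩ S = ∅`.  Induction on `t`: let `I'` be the set of indices missed by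
`S`.  `Σ_{u ∈ U} #{i ∈ I' | u ∈ F i} = Σ_{i ∈ I'} |F i| ≥ δ n |I'|` (double counting, `Finset.sum_card_bipartiteAbove_eq_sum_card_bipartiteBelow`
or `Finset.sum_comm`), so if `I'` is nonempty some `u ∈ U` is in at least `δ |I'|` of the `F i` (`|U| ≤ n`; if all `u` had less than `δ|I'|` the sum
would be `< δ n |I'|`; `U` is nonempty if `δ > 0` and `I' ≠ ∅`; the case `δ = 0` or `I' = ∅` is trivial); add it to `S`.
(2) `hitting`: given `ε, δ > 0` there is `M₀` such that for `n ≥ M₀`, `|U| ≤ n`, `|I| ≤ n`, `|F i| ≥ δ n`: some `S ⊆ U` with `|S| ≤ ε n` meets all `F i`.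
Take `t = ⌊ε n⌋`; `(1 - δ)^t n < 1` for large `n`: if `δ ≥ 1` then `(1-δ)^t n`: replace `δ` by `min δ (1/2)` first.  `(1-δ)^t ≤ exp(-δ t)`,
`t ≥ ε n - 1`, so `n (1-δ)^t ≤ e^δ n exp(-δ ε n) → 0` (`Real.tendsto_pow_mul_exp_neg_atTop_nhds_zero` or `x ≤ exp x` type bounds:
`exp(x) ≥ x²/2`).  A number of missed indices `< 1` is `0`.
-/

set_option autoImplicit false

namespace Pool.Agent.H29.CJ

theorem HitG_greedy (U I : Finset ℕ) (F : ℕ → Finset ℕ) (n : ℕ) (hn : 0 < n) (δ : ℝ) (hδ : 0 < δ)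
    (hδ1 : δ ≤ 1) (hU : U.card ≤ n) (hF : ∀ i ∈ I, F i ⊆ U ∧ δ * n ≤ ((F i).card : ℝ)) (t : ℕ) :
    ∃ S : Finset ℕ, S ⊆ U ∧ S.card ≤ t ∧
      ((I.filter (fun i => Disjoint (F i) S)).card : ℝ) ≤ (1 - δ) ^ t * I.card := by
  induction t with
  | zero =>
    refine ⟨∅, Finset.empty_subset _, le_rfl, ?_⟩
    rw [pow_zero, one_mul]
    exact_mod_cast Finset.card_filter_le _ _
  | succ t ih =>
    obtain ⟨S, hSU, hSc, hS⟩ := ih
    set I' := I.filter (fun i => Disjoint (F i) S) with hI'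
    have h1δ : 0 ≤ 1 - δ := by linarith
    rcases I'.eq_empty_or_nonempty with hE | hne
    · refine ⟨S, hSU, hSc.trans (Nat.le_succ t), ?_⟩
      rw [← hI', hE, Finset.card_empty, Nat.cast_zero]
      positivity
    · have hn' : (0 : ℝ) < n := by exact_mod_cast hn
      have hIc : (0 : ℝ) < I'.card := by exact_mod_cast hne.card_pos
      have hUne : U.Nonempty := by
        obtain ⟨i, hi⟩ := hne
        have h2 := hF i (Finset.mem_filter.1 hi).1
        have h3 : (0 : ℝ) < (F i).card := lt_of_lt_of_le (mul_pos hδ hn') h2.2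
        have h4 : 0 < (F i).card := by exact_mod_cast h3
        exact (Finset.card_pos.1 h4).mono h2.1
      have hex : ∃ u ∈ U, δ * I'.card ≤ ((I'.filter (fun i => u ∈ F i)).card : ℝ) := by
        by_contra hcon
        push Not at hcon
        have h5 : ∑ u ∈ U, ((I'.filter (fun i => u ∈ F i)).card : ℝ) < ∑ u ∈ U, δ * (I'.card : ℝ) :=
          Finset.sum_lt_sum_of_nonempty hUne hcon
        have h6 : ∑ u ∈ U, ((I'.filter (fun i => u ∈ F i)).card : ℝ) = ∑ i ∈ I', ((F i).card : ℝ) := by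
          have h7 : ∀ u, ((I'.filter (fun i => u ∈ F i)).card : ℝ) =
              ∑ i ∈ I', if u ∈ F i then (1 : ℝ) else 0 := by
            intro u
            rw [Finset.card_filter]
            push_cast
            rfl
          rw [Finset.sum_congr rfl (fun u _ => h7 u), Finset.sum_comm]
          refine Finset.sum_congr rfl (fun i hi => ?_)
          have h8 := (hF i (Finset.mem_filter.1 hi).1).1
          rw [← Finset.sum_filter, Finset.sum_const, nsmul_eq_mul, mul_one]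
          have h9 : U.filter (fun u => u ∈ F i) = F i := by
            ext u
            rw [Finset.mem_filter]
            exact ⟨fun h => h.2, fun h => ⟨h8 h, h⟩⟩
          rw [h9]
        have h10 : ∑ i ∈ I', δ * (n : ℝ) ≤ ∑ i ∈ I', ((F i).card : ℝ) :=
          Finset.sum_le_sum (fun i hi => (hF i (Finset.mem_filter.1 hi).1).2)
        rw [Finset.sum_const, nsmul_eq_mul] at h5 h10
        have h11 : (U.card : ℝ) ≤ n := by exact_mod_cast hU
        have h12 : (U.card : ℝ) * (δ * I'.card) ≤ n * (δ * I'.card) :=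
          mul_le_mul_of_nonneg_right h11 (by positivity)
        rw [h6] at h5
        nlinarith
      obtain ⟨u, huU, hu⟩ := hex
      refine ⟨insert u S, Finset.insert_subset huU hSU,
        (Finset.card_insert_le _ _).trans (Nat.succ_le_succ hSc), ?_⟩
      have e1 : I.filter (fun i => Disjoint (F i) (insert u S)) = I'.filter (fun i => ¬ u ∈ F i) := by
        rw [hI', Finset.filter_filter]
        refine Finset.filter_congr (fun i _ => ?_)
        rw [Finset.disjoint_insert_right]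
        exact and_comm
      have e2 := Finset.card_filter_add_card_filter_not (s := I') (fun i => u ∈ F i)
      have e3 : ((I'.filter (fun i => u ∈ F i)).card : ℝ) +
          ((I'.filter (fun i => ¬ u ∈ F i)).card : ℝ) = I'.card := by
        exact_mod_cast e2
      rw [e1]
      calc ((I'.filter (fun i => ¬ u ∈ F i)).card : ℝ) ≤ (1 - δ) * I'.card := by linarith
        _ ≤ (1 - δ) * ((1 - δ) ^ t * I.card) := mul_le_mul_of_nonneg_left hS h1δ
        _ = (1 - δ) ^ (t + 1) * I.card := by ring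

theorem HitG_small (ε δ : ℝ) (hε : 0 < ε) (hδ : 0 < δ) (hδ1 : δ ≤ 1 / 2) (n : ℕ)
    (hn : 6 / (δ * ε) ^ 2 < n) : (1 - δ) ^ ⌊ε * n⌋₊ * (n : ℝ) < 1 := by
  have hc : 0 < δ * ε := mul_pos hδ hε
  have hn0 : (0 : ℝ) < n := lt_trans (by positivity) hn
  set t := ⌊ε * n⌋₊ with ht
  have ht1 : ε * n < t + 1 := Nat.lt_floor_add_one _
  have h1 : (1 - δ) ^ t ≤ Real.exp (-(δ * t)) := by
    have h2 : 1 - δ ≤ Real.exp (-δ) := Real.one_sub_le_exp_neg δ
    calc (1 - δ) ^ t ≤ (Real.exp (-δ)) ^ t := pow_le_pow_left₀ (by linarith) h2 t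
      _ = Real.exp (-(δ * t)) := by
        rw [← Real.exp_nat_mul]
        congr 1
        ring
  have h3 : Real.exp (-(δ * t)) ≤ Real.exp (1 - δ * ε * n) := by
    apply Real.exp_le_exp.2
    nlinarith
  have h4 : (δ * ε * n) ^ 2 / 2 < Real.exp (δ * ε * n) := by
    have h5 := Real.quadratic_le_exp_of_nonneg (x := δ * ε * n) (by positivity)
    have h6 : 0 ≤ δ * ε * n := by positivity
    linarith
  have h7 : 3 * (n : ℝ) < (δ * ε * n) ^ 2 / 2 := by
    rw [div_lt_iff₀ (by positivity)] at hn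
    nlinarith
  have h8 : Real.exp 1 < 3 := by
    have := Real.exp_one_lt_d9
    linarith
  have h9 : Real.exp (1 - δ * ε * n) = Real.exp 1 / Real.exp (δ * ε * n) := Real.exp_sub _ _
  have h10 : 0 < Real.exp (δ * ε * n) := Real.exp_pos _
  calc (1 - δ) ^ t * (n : ℝ) ≤ Real.exp (1 - δ * ε * n) * n :=
        mul_le_mul_of_nonneg_right (h1.trans h3) hn0.le
    _ = Real.exp 1 * n / Real.exp (δ * ε * n) := by rw [h9]; ring
    _ < 1 := by
      rw [div_lt_one h10]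
      nlinarith

theorem hitting (ε δ : ℝ) (hε : 0 < ε) (hδ : 0 < δ) : ∃ M₀ : ℕ, ∀ n : ℕ, M₀ ≤ n →
    ∀ (U I : Finset ℕ) (F : ℕ → Finset ℕ), U.card ≤ n → I.card ≤ n →
      (∀ i ∈ I, F i ⊆ U ∧ δ * n ≤ ((F i).card : ℝ)) →
      ∃ S : Finset ℕ, S ⊆ U ∧ (S.card : ℝ) ≤ ε * n ∧ ∀ i ∈ I, ∃ u ∈ F i, u ∈ S := by
  set δ' := min δ (1 / 2) with hδ'
  have h1 : 0 < δ' := lt_min hδ (by norm_num)
  have h2 : δ' ≤ 1 / 2 := min_le_right _ _
  have h3 : δ' ≤ δ := min_le_left _ _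
  refine ⟨⌊6 / (δ' * ε) ^ 2⌋₊ + 1, ?_⟩
  intro n hn U I F hU hI hF
  have hn1 : 6 / (δ' * ε) ^ 2 < n := by
    have h4 := Nat.lt_floor_add_one (6 / (δ' * ε) ^ 2)
    have h5 : ((⌊6 / (δ' * ε) ^ 2⌋₊ : ℝ) + 1) ≤ n := by exact_mod_cast hn
    linarith
  have hn0 : 0 < n := by omega
  have hF' : ∀ i ∈ I, F i ⊆ U ∧ δ' * n ≤ ((F i).card : ℝ) := fun i hi =>
    ⟨(hF i hi).1, (mul_le_mul_of_nonneg_right h3 (Nat.cast_nonneg n)).trans (hF i hi).2⟩
  obtain ⟨S, hSU, hSc, hS⟩ := HitG_greedy U I F n hn0 δ' h1 (by linarith) hU hF' ⌊ε * n⌋₊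
  have h6 := HitG_small ε δ' hε h1 h2 n hn1
  refine ⟨S, hSU, ?_, ?_⟩
  · have h7 : (S.card : ℝ) ≤ (⌊ε * n⌋₊ : ℝ) := by exact_mod_cast hSc
    exact h7.trans (Nat.floor_le (by positivity))
  · have h8 : ((I.filter (fun i => Disjoint (F i) S)).card : ℝ) < 1 := by
      have h9 : (I.card : ℝ) ≤ n := by exact_mod_cast hI
      have h10 : 0 ≤ (1 - δ') ^ ⌊ε * n⌋₊ := pow_nonneg (by linarith) _
      exact lt_of_le_of_lt (hS.trans (mul_le_mul_of_nonneg_left h9 h10)) h6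
    have h11 : (I.filter (fun i => Disjoint (F i) S)).card = 0 := by
      have : (I.filter (fun i => Disjoint (F i) S)).card < 1 := by exact_mod_cast h8
      omega
    rw [Finset.card_eq_zero, Finset.filter_eq_empty_iff] at h11
    intro i hi
    have h12 := h11 hi
    rw [Finset.not_disjoint_iff] at h12
    exact h12

end Pool.Agent.H29.CJ

end S_HitG

section S_SSp

/-!
# Small sets meeting a representation of every sum

Use only the STATEMENTS of `TriA` and `HitG`.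

Let `ε = 1 / (8 N)` (`N ≥ 1`), `δ` from `removal_sums ε`, `M₀` from `hitting ε δ`.  Let `n ≥ max M₀ 1`; put `A' = {b ∈ [1,n] | A b}`,
`B' = {c ∈ [1, n] | B c}` (classical filters).  For `m ∈ [1, n]` let `F m = {b ∈ A' | b < m ∧ m - b ∈ B'}`; the pairs `(b, c) ∈ A' × B'` with
`b + c = m` correspond to `b ∈ F m`.  Popular: `|F m| ≥ δ n`; let `I` be the set of popular `m ≤ n`, `U` the set of the other `m ∈ [1, n]`.
The number of pairs with `b + c ∈ U` is `Σ_{m ∈ U} |F m| ≤ n · δ n`.  `hitting` (with `U := [1, n]`) gives `S₁` meeting all `F m`, `m ∈ I`.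
`removal_sums` gives `SA, SB, SU`.  For `m ∈ SU` that has a representation `b + c = m` (`b ∈ A'`, `c ∈ B'`) choose one `b = f m` (classical choice);
`W = SU.image f`.  `S = S₁ ∪ SA ∪ SB ∪ W`, `|S| ≤ 4 ε n ≤ n / (2 N)`, so `N |S| ≤ n`.
Let `m ≤ n` have a representation with `b, c ≥ 1`.  If `m ∈ I`: some `b ∈ F m ∩ S₁`.  If `m ∈ U` and `m ∈ SU`: the chosen one.  Otherwise the
given representation has `b ∈ SA` or `c ∈ SB`.
-/

set_option autoImplicit false

namespace Pool.Agent.H29.CJ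

theorem small_rep (N : ℕ) (hN : 1 ≤ N) : ∃ M₀ : ℕ, ∀ n : ℕ, M₀ ≤ n → ∀ A B : ℕ → Prop,
    ∃ S : Finset ℕ, N * S.card ≤ n ∧
      ∀ m ≤ n, (∃ b c, 1 ≤ b ∧ 1 ≤ c ∧ b + c = m ∧ A b ∧ B c) →
        ∃ b c, 1 ≤ b ∧ 1 ≤ c ∧ b + c = m ∧ A b ∧ B c ∧ (b ∈ S ∨ c ∈ S) := by
  classical
  have hN0 : (0 : ℝ) < N := by exact_mod_cast hN
  have hε : (0 : ℝ) < 1 / (8 * N) := by positivity
  obtain ⟨δ, hδ, hR⟩ := removal_sums (1 / (8 * N)) hε
  obtain ⟨M₀, hH⟩ := hitting (1 / (8 * N)) δ hε hδ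
  refine ⟨max M₀ 1, fun n hn A B => ?_⟩
  have hn1 : 1 ≤ n := (le_max_right _ _).trans hn
  obtain ⟨A', hA'⟩ : ∃ A' : Finset ℕ, A' = (Finset.Icc 1 n).filter A := ⟨_, rfl⟩
  obtain ⟨B', hB'⟩ : ∃ B' : Finset ℕ, B' = (Finset.Icc 1 n).filter B := ⟨_, rfl⟩
  have memA : ∀ b, b ∈ A' ↔ (1 ≤ b ∧ b ≤ n) ∧ A b := by
    intro b
    rw [hA', Finset.mem_filter, Finset.mem_Icc]
  have memB : ∀ b, b ∈ B' ↔ (1 ≤ b ∧ b ≤ n) ∧ B b := by
    intro b
    rw [hB', Finset.mem_filter, Finset.mem_Icc]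
  obtain ⟨F, hF⟩ : ∃ F : ℕ → Finset ℕ, F = fun m => A'.filter (fun b => b < m ∧ m - b ∈ B') := ⟨_, rfl⟩
  have memF : ∀ m b, b ∈ F m ↔ b ∈ A' ∧ b < m ∧ m - b ∈ B' := by
    intro m b
    rw [hF, Finset.mem_filter]
  obtain ⟨I, hI⟩ : ∃ I : Finset ℕ, I = (Finset.Icc 1 n).filter (fun m => δ * n ≤ ((F m).card : ℝ)) := ⟨_, rfl⟩
  obtain ⟨U, hU⟩ : ∃ U : Finset ℕ, U = (Finset.Icc 1 n).filter (fun m => ¬ δ * n ≤ ((F m).card : ℝ)) := ⟨_, rfl⟩
  have memI : ∀ m, m ∈ I ↔ (1 ≤ m ∧ m ≤ n) ∧ δ * n ≤ ((F m).card : ℝ) := by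
    intro m
    rw [hI, Finset.mem_filter, Finset.mem_Icc]
  have memU : ∀ m, m ∈ U ↔ (1 ≤ m ∧ m ≤ n) ∧ ¬ δ * n ≤ ((F m).card : ℝ) := by
    intro m
    rw [hU, Finset.mem_filter, Finset.mem_Icc]
  have hcard : (Finset.Icc 1 n).card = n := by simp
  have hIc : I.card ≤ n := by
    rw [hI]
    exact (Finset.card_filter_le _ _).trans hcard.le
  have hUc : U.card ≤ n := by
    rw [hU]
    exact (Finset.card_filter_le _ _).trans hcard.le
  obtain ⟨S₁, -, hS₁, hS₁'⟩ := hH n ((le_max_left _ _).trans hn) (Finset.Icc 1 n) I F hcard.le hIc (by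
    intro i hi
    refine ⟨fun b hb => ?_, ((memI i).1 hi).2⟩
    rw [Finset.mem_Icc]
    exact ((memA b).1 ((memF i b).1 hb).1).1)
  obtain ⟨SA, SB, SU, hSA, hSB, hSU, hcov⟩ := hR n hn1 A' B' U (fun b hb => ((memA b).1 hb).1)
    (fun b hb => ((memB b).1 hb).1) (fun b hb => ((memU b).1 hb).1) (by
      have h1 : ((A' ×ˢ B').filter (fun q => q.1 + q.2 ∈ U)).card =
          ∑ m ∈ U, (((A' ×ˢ B').filter (fun q => q.1 + q.2 ∈ U)).filter (fun q => q.1 + q.2 = m)).card := by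
        refine Finset.card_eq_sum_card_fiberwise fun q hq => ?_
        exact (Finset.mem_filter.1 hq).2
      have h2 : ∀ m ∈ U, ((((A' ×ˢ B').filter (fun q => q.1 + q.2 ∈ U)).filter (fun q => q.1 + q.2 = m)).card : ℝ) ≤
          δ * n := by
        intro m hm
        have h3 : (((A' ×ˢ B').filter (fun q => q.1 + q.2 ∈ U)).filter (fun q => q.1 + q.2 = m)).card ≤ (F m).card := by
          refine Finset.card_le_card_of_injOn (fun q => q.1) ?_ ?_
          · intro q hq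
            have hq1 := Finset.mem_filter.1 hq
            have hq2 := Finset.mem_product.1 (Finset.mem_filter.1 hq1.1).1
            have h4 := ((memB _).1 hq2.2).1.1
            have h8 : q.1 + q.2 = m := hq1.2
            have h5 : m - q.1 = q.2 := by omega
            have h9 : q.1 < m := by omega
            have h10 : q.1 ∈ F m := (memF m q.1).2 ⟨hq2.1, h9, by rw [h5]; exact hq2.2⟩
            exact h10
          · intro q hq q' hq' h
            have h5 := (Finset.mem_filter.1 hq).2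
            have h6 := (Finset.mem_filter.1 hq').2
            have h7 : q.1 = q'.1 := h
            have h8 : q.2 = q'.2 := by omega
            exact Prod.ext h7 h8
        have h4 := ((memU m).1 hm).2
        have h5 : ((((A' ×ˢ B').filter (fun q => q.1 + q.2 ∈ U)).filter (fun q => q.1 + q.2 = m)).card : ℝ) ≤
            ((F m).card : ℝ) := by exact_mod_cast h3
        linarith [not_le.1 h4]
      rw [h1]
      push_cast
      refine (Finset.sum_le_card_nsmul _ _ _ h2).trans ?_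
      rw [nsmul_eq_mul]
      have h6 : (U.card : ℝ) ≤ n := by exact_mod_cast hUc
      have h7 : 0 ≤ δ * n := by positivity
      nlinarith)
  obtain ⟨f, hf⟩ : ∃ f : ℕ → ℕ, ∀ m, (∃ b c, 1 ≤ b ∧ 1 ≤ c ∧ b + c = m ∧ A b ∧ B c) →
      ∃ c, 1 ≤ f m ∧ 1 ≤ c ∧ f m + c = m ∧ A (f m) ∧ B c := by
    have h1 : ∀ m, ∃ b, (∃ b c, 1 ≤ b ∧ 1 ≤ c ∧ b + c = m ∧ A b ∧ B c) →
        ∃ c, 1 ≤ b ∧ 1 ≤ c ∧ b + c = m ∧ A b ∧ B c := by
      intro m
      by_cases h : ∃ b c, 1 ≤ b ∧ 1 ≤ c ∧ b + c = m ∧ A b ∧ B c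
      · obtain ⟨b, c, hbc⟩ := h
        exact ⟨b, fun _ => ⟨c, hbc⟩⟩
      · exact ⟨0, fun h' => absurd h' h⟩
    choose f hf using h1
    exact ⟨f, hf⟩
  refine ⟨S₁ ∪ SA ∪ SB ∪ SU.image f, ?_, ?_⟩
  · have h1 : (S₁ ∪ SA ∪ SB ∪ SU.image f).card ≤ S₁.card + SA.card + SB.card + SU.card := by
      refine (Finset.card_union_le _ _).trans (add_le_add ?_ Finset.card_image_le)
      refine (Finset.card_union_le _ _).trans (add_le_add ?_ le_rfl)
      exact Finset.card_union_le _ _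
    have h2 : ((S₁ ∪ SA ∪ SB ∪ SU.image f).card : ℝ) ≤ 4 * (1 / (8 * N) * n) := by
      have h3 : ((S₁ ∪ SA ∪ SB ∪ SU.image f).card : ℝ) ≤ S₁.card + SA.card + SB.card + SU.card := by exact_mod_cast h1
      linarith
    have h3 : (N : ℝ) * ((S₁ ∪ SA ∪ SB ∪ SU.image f).card : ℝ) ≤ n := by
      have h4 := mul_le_mul_of_nonneg_left h2 hN0.le
      have h5 : (N : ℝ) * (4 * (1 / (8 * N) * n)) = n / 2 := by
        field_simp
        norm_num
      rw [h5] at h4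
      have h6 : (0 : ℝ) ≤ n := Nat.cast_nonneg n
      linarith
    exact_mod_cast h3
  · rintro m hm ⟨b, c, hb, hc, hbc, hAb, hBc⟩
    have hbA : b ∈ A' := (memA b).2 ⟨⟨hb, by omega⟩, hAb⟩
    have hcB : c ∈ B' := (memB c).2 ⟨⟨hc, by omega⟩, hBc⟩
    have hm1 : 1 ≤ m := by omega
    by_cases hmI : δ * n ≤ ((F m).card : ℝ)
    · obtain ⟨u, hu, huS⟩ := hS₁' m ((memI m).2 ⟨⟨hm1, hm⟩, hmI⟩)
      obtain ⟨h1, h2, h3⟩ := (memF m u).1 hu
      obtain ⟨⟨h4, _⟩, h5⟩ := (memA u).1 h1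
      obtain ⟨⟨h6, _⟩, h7⟩ := (memB _).1 h3
      exact ⟨u, m - u, h4, h6, by omega, h5, h7, Or.inl (by simp [huS])⟩
    · have hmU : b + c ∈ U := by
        rw [hbc]
        exact (memU m).2 ⟨⟨hm1, hm⟩, hmI⟩
      rcases hcov b hbA c hcB hmU with h | h | h
      · exact ⟨b, c, hb, hc, hbc, hAb, hBc, Or.inl (by simp [h])⟩
      · exact ⟨b, c, hb, hc, hbc, hAb, hBc, Or.inr (by simp [h])⟩
      · rw [hbc] at h
        obtain ⟨c', h1, h2, h3, h4, h5⟩ := hf m ⟨b, c, hb, hc, hbc, hAb, hBc⟩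
        refine ⟨f m, c', h1, h2, h3, h4, h5, Or.inl ?_⟩
        rw [Finset.mem_union]
        exact Or.inr (Finset.mem_image_of_mem f h)

end Pool.Agent.H29.CJ

end S_SSp

section S_SpF

/-!
# Completeness of the speed-up language

Use only the STATEMENTS of the imported files.

Let `K = k + 1`, choose `a` with `N := 2^a ≥ 2^d (2 K + 8)` and `N ≥ 2` and `N ≥ K` (e.g. `a = d + 2 K + 8`).  `Q := N^4`, so
`K² N² ≤ Q`.  `b2 := N^(2 Q + 6)` (a power of two, at least `N · N^(2r-1)` for `r ≤ Q + 2`).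
`N1 := 2 K² N^(4 Q + 12)`; `M₁` from `small_rep N1` (applied to each pair `p`: for all `A, B` at once).
`e0` := something larger than `M₁`, `a (4 Q + 20) + 1` and `N^(4 (Q + 3) + 5)` (so `e0 ≤ M` makes `M` large and `2^e0 ∣ M` gives
`2 N^(4 Q + 20) ∣ M`).
For `M ≥ e0`, `2^e0 ∣ M`, `G.T 0 M` (so `M > 0`): `exists_level` gives `r`, `3 ≤ r ≤ Q + 2`, with `Q # mid ≤ K² M`, so `N² # mid ≤ M`.
`small_rep N1` for `A b := G.T p.1 b`, `B c := G.T p.2 c` gives `S_p` with `N1 |S_p| ≤ M`; `S = ⋃_p S_p`: `N1 |S| ≤ K² M`, so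
`2 b2 N^(2r-1) N |S| ≤ M` since `2 b2 N^(2r-1) N · K² ≤ N1`: `N^(2Q+6) N^(2Q+3) N = N^(4Q+10)`.  (`K ≥ 1`.)
`mkP_len` (divisibility: `N^(2r+1) ∣ M`; `2 b2 ∣ M / N^(2r-1)` because `2 b2 N^(2r-1) ∣ M`: `2 N^(2Q+6+2Q+3) ∣ M`): `n` with
`N n ≤ (2K+8) M`, so `2^d n ≤ M` (`2^d (2K+8) ≤ N`).  `2^d ∣ M`; `F := M / 2^d - n`.
`P := mkP G M N r b2 F S`, `w = word P`: `2^d w.length = M`.  `mkP_sel`, `mkP_good`, `mdl_word`, `word_Srt`, `word_LeftOK`, `word_WtOK`
(`Fmt = Srt ∩ (LeftOK ∩ WtOK)`), `WG_complete` (with `P.Z * P.B = M`), `word_measure`.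
-/

set_option autoImplicit false

namespace Pool.Agent.H29.CJ

open Lt

open Classical in
/-- the construction for one value, all numbers abstract -/
private theorem SpF_one {k : ℕ} (G : USys (k + 1)) {d N Q b2 N1 M : ℕ} (hN2 : 2 ≤ N)
    (hNK : k + 1 ≤ N) (hNd : 2 ^ d * (2 * (k + 1) + 8) ≤ N) (hQ : Q = N ^ 4)
    (hb2 : b2 = N ^ (2 * Q + 6)) (hN1 : N1 = 2 * (k + 1) ^ 2 * N ^ (4 * Q + 12))
    (hM : 0 < M) (hdv : 2 * N ^ (4 * Q + 20) ∣ M) (hdd : 2 ^ d ∣ M)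
    (hbig : N ^ (4 * (Q + 3) + 5) ≤ M) (hT : G.T 0 M)
    (hrep : ∀ A B : ℕ → Prop,
      ∃ S : Finset ℕ, N1 * S.card ≤ M ∧
        ∀ m ≤ M, (∃ b c, 1 ≤ b ∧ 1 ≤ c ∧ b + c = m ∧ A b ∧ B c) →
          ∃ b c, 1 ≤ b ∧ 1 ≤ c ∧ b + c = m ∧ A b ∧ B c ∧ (b ∈ S ∨ c ∈ S)) :
    ∃ w ∈ WG G, 2 ^ d * w.length = M ∧
        ∃ p x q, w = p ++ x :: q ∧ (∀ b ∈ p, isNZ b) ∧ isZ x ∧
          (p.length + 1) * w.count Lt.sg = M ∧ 2 * (p.length + 1) ≤ w.length := by
  have hNpos : 0 < N := by omega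
  have hQpos : 0 < Q := by rw [hQ]; positivity
  have hb2pos : 0 < b2 := by rw [hb2]; positivity
  have hKpos : 0 < (k + 1) ^ 2 := by positivity
  obtain ⟨r, hr3, hrQ, hmid0⟩ := exists_level G (M := M) hQpos hN2
  have hmid : N ^ 2 * ((Finset.Icc 1 M).filter
      (fun m => ∃ p, Mid G M (M / N ^ (2 * r)) (M / N ^ (2 * r - 2)) p m)).card ≤ M := by
    have h1 : (k + 1) ^ 2 * N ^ 2 ≤ Q := by
      rw [hQ]
      calc (k + 1) ^ 2 * N ^ 2 ≤ N ^ 2 * N ^ 2 :=
            Nat.mul_le_mul_right _ (Nat.pow_le_pow_left hNK 2)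
        _ = N ^ 4 := by ring
    have h2 := (Nat.mul_le_mul_right ((Finset.Icc 1 M).filter
      (fun m => ∃ p, Mid G M (M / N ^ (2 * r)) (M / N ^ (2 * r - 2)) p m)).card h1).trans hmid0
    rw [Nat.mul_assoc] at h2
    exact Nat.le_of_mul_le_mul_left h2 hKpos
  choose S0 hS0 hS0' using fun p : Fin (k + 1) × Fin (k + 1) => hrep (G.T p.1) (G.T p.2)
  obtain ⟨S, hSdef⟩ : ∃ S : Finset ℕ, S = Finset.univ.biUnion S0 := ⟨_, rfl⟩
  have hScard : 2 * N ^ (4 * Q + 12) * S.card ≤ M := by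
    have h1 : N1 * S.card ≤ (k + 1) ^ 2 * M := by
      calc N1 * S.card ≤ N1 * ∑ p : Fin (k + 1) × Fin (k + 1), (S0 p).card := by
            rw [hSdef]
            exact Nat.mul_le_mul_left _ Finset.card_biUnion_le
        _ = ∑ p : Fin (k + 1) × Fin (k + 1), N1 * (S0 p).card := Finset.mul_sum _ _ _
        _ ≤ ∑ _p : Fin (k + 1) × Fin (k + 1), M := Finset.sum_le_sum fun p _ => hS0 p
        _ = (k + 1) ^ 2 * M := by
            rw [Finset.sum_const, Finset.card_univ, Fintype.card_prod, Fintype.card_fin,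
              smul_eq_mul]
            ring
    have h2 : (k + 1) ^ 2 * (2 * N ^ (4 * Q + 12) * S.card) ≤ (k + 1) ^ 2 * M := by
      calc (k + 1) ^ 2 * (2 * N ^ (4 * Q + 12) * S.card) = N1 * S.card := by
            rw [hN1]
            ring
        _ ≤ _ := h1
    exact Nat.le_of_mul_le_mul_left h2 hKpos
  have hdvN : ∀ e, e ≤ 4 * Q + 20 → 2 * N ^ e ∣ M := fun e he =>
    (Nat.mul_dvd_mul_left 2 (pow_dvd_pow N he)).trans hdv
  have hdvN' : ∀ e, e ≤ 4 * Q + 20 → N ^ e ∣ M := fun e he =>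
    (Dvd.intro_left 2 rfl).trans (hdvN e he)
  have hd1 : N ^ (2 * r) ∣ M := hdvN' _ (by omega)
  have hd2 : N ^ (2 * r + 1) ∣ M := hdvN' _ (by omega)
  have hd' : 2 * b2 ∣ M / N ^ (2 * r - 1) := by
    apply Nat.dvd_div_of_mul_dvd
    have e : N ^ (2 * r - 1) * (2 * b2) = 2 * N ^ (2 * r - 1 + (2 * Q + 6)) := by
      rw [hb2, pow_add]
      ring
    rw [e]
    exact hdvN _ (by omega)
  have hb2' : N * N ^ (2 * r - 1) ≤ b2 := by
    rw [hb2, ← pow_succ']
    exact Nat.pow_le_pow_right hNpos (by omega)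
  have hS : 2 * b2 * N ^ (2 * r - 1) * N * S.card ≤ M := by
    refine le_trans (Nat.mul_le_mul_right _ ?_) hScard
    have e : 2 * b2 * N ^ (2 * r - 1) * N = 2 * N ^ (2 * Q + 6 + (2 * r - 1) + 1) := by
      rw [hb2, pow_succ, pow_add]
      ring
    rw [e]
    exact Nat.mul_le_mul_left 2 (Nat.pow_le_pow_right hNpos (by omega))
  have hbig' : N ^ (4 * r + 5) ≤ M :=
    (Nat.pow_le_pow_right hNpos (by omega)).trans hbig
  obtain ⟨n, hn, hlen⟩ := mkP_len G (S := S) hN2 hr3 hM hd2 hd' hb2' hmid hS hbig'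
  have hn' : 2 ^ d * n ≤ M := by
    have h1 : (2 * (k + 1) + 8) * (2 ^ d * n) ≤ (2 * (k + 1) + 8) * M := by
      calc (2 * (k + 1) + 8) * (2 ^ d * n) = 2 ^ d * (2 * (k + 1) + 8) * n := by ring
        _ ≤ N * n := Nat.mul_le_mul_right _ hNd
        _ ≤ _ := hn
    exact Nat.le_of_mul_le_mul_left h1 (by omega)
  obtain ⟨c, hc⟩ := hdd
  have hnc : n ≤ c := by
    rw [hc] at hn'
    exact Nat.le_of_mul_le_mul_left hn' (by positivity)
  have hrep' : ∀ p m, m ≤ M → (∃ b c, Rp G p m b c) →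
      ∃ b c, Rp G p m b c ∧ (b ∈ S ∨ c ∈ S) := by
    rintro p m hm ⟨b, c, hbc, h1, h2⟩
    have hb1 : 1 ≤ b := by
      rcases Nat.eq_zero_or_pos b with h3 | h3
      · rw [h3] at h1
        exact absurd h1 (G.T0 _)
      · exact h3
    have hc1 : 1 ≤ c := by
      rcases Nat.eq_zero_or_pos c with h3 | h3
      · rw [h3] at h2
        exact absurd h2 (G.T0 _)
      · exact h3
    obtain ⟨b', c', -, -, e1, e2, e3, e4⟩ := hS0' p m hm ⟨b, c, hb1, hc1, hbc, h1, h2⟩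
    refine ⟨b', c', ⟨e1, e2, e3⟩, ?_⟩
    rw [hSdef]
    rcases e4 with e4 | e4
    · exact Or.inl (Finset.mem_biUnion.2 ⟨p, Finset.mem_univ _, e4⟩)
    · exact Or.inr (Finset.mem_biUnion.2 ⟨p, Finset.mem_univ _, e4⟩)
  have hgood := mkP_good G (F := c - n) (S := S) hN2 hr3 hM hd1 hb2pos hd'
  obtain ⟨hsel, hZB⟩ := mkP_sel G (F := c - n) hN2 hr3 hM hd1 hb2pos hd' hrep'
  have hF : word (mkP G M N r b2 (c - n) S) ∈ Fmt :=
    ⟨word_Srt _ hgood, word_LeftOK _ hgood, word_WtOK _ hgood⟩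
  obtain ⟨⟨p, x, q, e, hp, hx, hpl⟩, hcount⟩ := word_measure _ hgood
  refine ⟨word (mkP G M N r b2 (c - n) S), WG_complete G hsel (mdl_word _ hgood) hF ?_, ?_,
    p, x, q, e, hp, hx, ?_, ?_⟩
  · rw [hZB]
    exact hT
  · rw [hlen, hc]
    congr 1
    omega
  · rw [hpl, hcount]
    exact hZB
  · rw [hpl]
    have hZ := hgood.Zpos
    have hNz : 2 ≤ (mkP G M N r b2 (c - n) S).Nz := by
      show 2 ≤ N + N ^ (2 * r - 2) + 4
      omega
    have h1 : 2 * (mkP G M N r b2 (c - n) S).Z ≤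
        (mkP G M N r b2 (c - n) S).Nz * (mkP G M N r b2 (c - n) S).Z :=
      Nat.mul_le_mul_right _ hNz
    refine h1.trans ?_
    by_contra hlt
    push_neg at hlt
    have h2 := (mdl_word _ hgood).left _ hlt
    simp at h2

theorem WG_speedup {k : ℕ} (G : USys (k + 1)) (d : ℕ) :
    ∃ e0 : ℕ, ∀ M, e0 ≤ M → 2 ^ e0 ∣ M → G.T 0 M →
      ∃ w ∈ WG G, 2 ^ d * w.length = M ∧
        ∃ p x q, w = p ++ x :: q ∧ (∀ b ∈ p, isNZ b) ∧ isZ x ∧
          (p.length + 1) * w.count Lt.sg = M ∧ 2 * (p.length + 1) ≤ w.length := by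
  obtain ⟨a, ha⟩ : ∃ a, a = d + (2 * (k + 1) + 8) := ⟨_, rfl⟩
  obtain ⟨N, hN⟩ : ∃ N, N = 2 ^ a := ⟨_, rfl⟩
  obtain ⟨Q, hQ⟩ : ∃ Q, Q = N ^ 4 := ⟨_, rfl⟩
  obtain ⟨N1, hN1⟩ : ∃ N1, N1 = 2 * (k + 1) ^ 2 * N ^ (4 * Q + 12) := ⟨_, rfl⟩
  have hNpos : 0 < N := by
    rw [hN]
    positivity
  have hN1pos : 1 ≤ N1 := by
    rw [hN1]
    have : 0 < 2 * (k + 1) ^ 2 * N ^ (4 * Q + 12) := by positivity
    exact this
  have hNd : 2 ^ d * (2 * (k + 1) + 8) ≤ N := by
    rw [hN, ha, pow_add]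
    exact Nat.mul_le_mul_left _ Nat.lt_two_pow_self.le
  have h2d : 1 ≤ 2 ^ d := Nat.one_le_two_pow
  have hN8 : 2 * (k + 1) + 8 ≤ N := by
    have h1 : 1 * (2 * (k + 1) + 8) ≤ 2 ^ d * (2 * (k + 1) + 8) := Nat.mul_le_mul_right _ h2d
    omega
  obtain ⟨M₁, hM₁⟩ := small_rep N1 hN1pos
  refine ⟨M₁ + (a * (4 * Q + 20) + 1) + N ^ (4 * (Q + 3) + 5), fun M hM hdv hT => ?_⟩
  have hMpos : 0 < M := by
    rcases Nat.eq_zero_or_pos M with h0 | h0
    · rw [h0] at hT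
      exact absurd hT (G.T0 _)
    · exact h0
  refine SpF_one G (by omega) (by omega) hNd hQ rfl hN1 hMpos ?_ ?_ (by omega) hT
    (hM₁ M (by omega))
  · have e : 2 * N ^ (4 * Q + 20) = 2 ^ (a * (4 * Q + 20) + 1) := by
      rw [hN, ← pow_mul, pow_succ]
      ring
    rw [e]
    exact (pow_dvd_pow 2 (by omega)).trans hdv
  · refine (pow_dvd_pow 2 ?_).trans hdv
    have h1 : a * 1 ≤ a * (4 * Q + 20) := Nat.mul_le_mul_left _ (by omega)
    omega

end Pool.Agent.H29.CJ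

end S_SpF
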