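import Mathlib
import Pool.Agent.H29.CL.M2
import Pool.Agent.H29.CL.M3
import Pool.Agent.H29.CL.M4
import Pool.Agent.H29.CL.M8
import Pool.Agent.H29.CL.M10
import Pool.Agent.H29.CL.M11

/-! Conjunctive languages and homomorphisms, part M12: this file joins several modules to save build time. -/

section S_WrE

/-!
# Construction of words of the diagonal language: tracks, text conditions

`exists_om`: let `cl = w'.flatMap (fun a => t ++ [x a])`, `al = w'.flatMap (fun a => t.reverse ++ [x a])`, both of length `w'.length * (t.length + 1)`;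
`ω = (List.range n).map (fun r => (cl.getD r p, al.getD r p, mF r, dF r))` (or `List.zip`s).  `ω.map con = cl`, `ω.map aux = al`.  `aux_eq`: `seg` of chunk `i` of `al`
(position arithmetic for a `flatMap` with pieces of constant length; induction on `w'`).
`W2_complete`: `ω` ends with an `isX` letter (last chunk).  For an `isX` position `r = i D + t.length` the initial segment of length `r + 1` consists of `i + 1` chunks.
`i = 0`: `u ++ [a]` with `u ∈ PalT`: no `isX` in `u`; `u.map con = t`, `u.map aux = t.reverse`.  `i ≥ 1`: `cat ({[]} ∪ cat univ (LC isX)) (cat Adj (LC isX))`: first part = the first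
`i - 1` chunks, `Adj`: `u = ` text of chunk `i - 1`, its letter, `v = ` text of chunk `i`: `u.map con = t = (t.reverse).reverse = (v.map aux).reverse`.
`cat (cat univ (LC isX)) (cat PalT (LC isX))`: first part = the first `i` chunks.
-/

set_option autoImplicit false

namespace Pool.Agent.H29.CJ

private theorem WrE_get {α β : Type} {D : ℕ} (f : α → List β) (hf : ∀ a, (f a).length = D)
    (v : List α) : ∀ (i s : ℕ), s < D →
      (v.flatMap f)[i * D + s]? = (v[i]?).bind (fun a => (f a)[s]?) := by
  induction v with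
  | nil =>
    intro i s hs
    simp
  | cons a v ih =>
    intro i s hs
    rw [List.flatMap_cons]
    cases i with
    | zero =>
      rw [List.getElem?_append_left (by rw [hf]; omega)]
      simp
    | succ i =>
      have e : (i + 1) * D + s = (f a).length + (i * D + s) := by
        rw [hf]
        ring
      rw [e, List.getElem?_append_right (by omega), Nat.add_sub_cancel_left, ih i s hs,
        List.getElem?_cons_succ]

private theorem WrE_len {α β : Type} {D : ℕ} (f : α → List β) (hf : ∀ a, (f a).length = D)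
    (v : List α) : (v.flatMap f).length = D * v.length := by
  induction v with
  | nil => simp
  | cons a v ih =>
    rw [List.flatMap_cons, List.length_append, hf, ih, List.length_cons]
    ring

private theorem WrE_seg {α β : Type} (t' : List β) (c : α → β) (v : List α) {i : ℕ}
    (hi : i < v.length) :
    seg (v.flatMap (fun a => t' ++ [c a])) (i * (t'.length + 1))
      (i * (t'.length + 1) + t'.length) = t' := by
  apply List.ext_getElem?
  intro s
  rw [getElem?_seg]
  by_cases hs : s < t'.length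
  · rw [if_pos (by omega), WrE_get (D := t'.length + 1) _ (fun a => by simp) v i s (by omega),
      List.getElem?_eq_getElem hi, Option.bind_some, List.getElem?_append_left hs]
  · rw [if_neg (by omega), List.getElem?_eq_none (by omega)]

private theorem WrE_mapseg {α β : Type} (f : α → β) (ω : List α) (i j : ℕ) :
    (seg ω i j).map f = seg (ω.map f) i j := by
  unfold seg
  rw [List.map_drop, List.map_take]

private theorem WrE_range {β : Type} (l : List β) (d : β) :
    (List.range l.length).map (fun r => l.getD r d) = l := by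
  apply List.ext_getElem?
  intro r
  rw [List.getElem?_map]
  by_cases hr : r < l.length
  · rw [List.getElem?_range hr, Option.map_some, List.getElem?_eq_getElem hr]
    simp [List.getD, hr]
  · rw [List.getElem?_eq_none (by simpa using hr), List.getElem?_eq_none (by omega)]
    rfl

theorem exists_om (t : List (Ct Lt)) (w' : List Lt) (ht : ∀ c ∈ t, tok c) (hw : w' ≠ [])
    (mF : ℕ → Mk) (dF : ℕ → Bool) :
    ∃ ω : List Om, Chk ω t w' ∧ ω.length = (t.length + 1) * w'.length ∧
      ∀ r a, ω[r]? = some a → mrk a = mF r ∧ a.2.2.2 = dF r := by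
  obtain ⟨cl, hcl⟩ : ∃ cl, cl = w'.flatMap (fun a => t ++ [Ct.x a]) := ⟨_, rfl⟩
  obtain ⟨al, hal⟩ : ∃ al, al = w'.flatMap (fun a => t.reverse ++ [Ct.x a]) := ⟨_, rfl⟩
  have hl1 : cl.length = (t.length + 1) * w'.length := by
    rw [hcl]
    exact WrE_len (D := t.length + 1) _ (fun a => by simp) w'
  have hl2 : al.length = (t.length + 1) * w'.length := by
    rw [hal]
    exact WrE_len (D := t.length + 1) _ (fun a => by simp) w'
  obtain ⟨n, hn⟩ : ∃ n, n = (t.length + 1) * w'.length := ⟨_, rfl⟩
  rw [← hn] at hl1 hl2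
  obtain ⟨ω, hω⟩ : ∃ ω : List Om, ω = (List.range n).map
    (fun r => ((cl.getD r Ct.p, al.getD r Ct.p, mF r, dF r) : Om)) := ⟨_, rfl⟩
  have hcon : ω.map con = cl := by
    rw [hω, List.map_map]
    have h1 := WrE_range cl Ct.p
    rw [hl1] at h1
    exact h1
  have haux : ω.map aux = al := by
    rw [hω, List.map_map]
    have h1 := WrE_range al Ct.p
    rw [hl2] at h1
    exact h1
  refine ⟨ω, ⟨hw, ht, ?_, ?_⟩, ?_, ?_⟩
  · rw [hcon, hcl]
  · intro i hi
    rw [haux, hal]
    have h1 := WrE_seg t.reverse (fun a : Lt => Ct.x a) w' hi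
    rw [List.length_reverse] at h1
    exact h1
  · rw [hω, List.length_map, List.length_range, hn]
  · intro r a hr
    rw [hω, List.getElem?_map] at hr
    by_cases hrn : r < n
    · rw [List.getElem?_range hrn, Option.map_some] at hr
      obtain rfl := Option.some.inj hr
      exact ⟨rfl, rfl⟩
    · rw [List.getElem?_eq_none (by simpa using hrn)] at hr
      cases hr

section
variable {ω : List Om} {t : List (Ct Lt)} {w' : List Lt}

private theorem WrE_con (hc : Chk ω t w') {i s : ℕ} (hi : i < w'.length)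
    (hs : s < t.length + 1) :
    (ω[i * (t.length + 1) + s]?).map con = (t ++ [Ct.x w'[i]])[s]? := by
  rw [← List.getElem?_map, hc.con_eq,
    WrE_get (D := t.length + 1) _ (fun a => by simp) w' i s hs, List.getElem?_eq_getElem hi,
    Option.bind_some]

private theorem WrE_x (hc : Chk ω t w') {i : ℕ} (hi : i < w'.length) :
    Is ω (i * (t.length + 1) + t.length) isX := by
  have h := WrE_con hc hi (s := t.length) (by omega)
  rw [List.getElem?_append_right le_rfl, Nat.sub_self] at h
  obtain ⟨a, ha, hx⟩ := Option.map_eq_some_iff.1 h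
  exact ⟨a, ha, w'[i], hx⟩

private theorem WrE_nx (hc : Chk ω t w') {i s : ℕ} (hi : i < w'.length) (hs : s < t.length) :
    Is ω (i * (t.length + 1) + s) (fun a => ¬ isX a) := by
  have h := WrE_con hc hi (s := s) (by omega)
  rw [List.getElem?_append_left hs, List.getElem?_eq_getElem hs] at h
  obtain ⟨a, ha, hx⟩ := Option.map_eq_some_iff.1 h
  refine ⟨a, ha, fun hX => hc.tk _ (List.getElem_mem hs) ?_⟩
  rw [← hx]
  exact hX

private theorem WrE_st (hc : Chk ω t w') {i : ℕ} (hi : i < w'.length) :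
    At ω (ST (fun a => ¬ isX a)) (i * (t.length + 1)) (i * (t.length + 1) + t.length) := by
  refine at_ST.2 ⟨by omega, (WrE_x hc hi).lt.le, fun r h1 h2 => ?_⟩
  obtain ⟨s, rfl⟩ := Nat.exists_eq_add_of_le h1
  exact WrE_nx hc hi (by omega)

private theorem WrE_segc (hc : Chk ω t w') {i : ℕ} (hi : i < w'.length) :
    (seg ω (i * (t.length + 1)) (i * (t.length + 1) + t.length)).map con = t := by
  rw [WrE_mapseg, hc.con_eq]
  exact WrE_seg t (fun a : Lt => Ct.x a) w' hi

private theorem WrE_sega (hc : Chk ω t w') {i : ℕ} (hi : i < w'.length) :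
    (seg ω (i * (t.length + 1)) (i * (t.length + 1) + t.length)).map aux = t.reverse := by
  rw [WrE_mapseg]
  exact hc.aux_eq i hi

private theorem WrE_pal (hc : Chk ω t w') {i : ℕ} (hi : i < w'.length) :
    At ω PalT (i * (t.length + 1)) (i * (t.length + 1) + t.length) := by
  have h := WrE_st hc hi
  refine ⟨h.1, h.2.1, h.2.2, ?_⟩
  rw [WrE_segc hc hi, WrE_sega hc hi, List.reverse_reverse]

private theorem WrE_adj (hc : Chk ω t w') {i : ℕ} (hi : i + 1 < w'.length) :
    At ω Adj (i * (t.length + 1)) ((i + 1) * (t.length + 1) + t.length) := by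
  have e : (i + 1) * (t.length + 1) = i * (t.length + 1) + t.length + 1 := by ring
  have h1 := WrE_st hc (i := i) (by omega)
  have h2 := WrE_st hc hi
  obtain ⟨a, ha, hX⟩ := WrE_x hc (i := i) (by omega)
  refine ⟨by rw [e]; omega, h2.2.1, seg ω (i * (t.length + 1)) (i * (t.length + 1) + t.length),
    a, seg ω ((i + 1) * (t.length + 1)) ((i + 1) * (t.length + 1) + t.length), ?_, hX, h1.2.2,
    h2.2.2, ?_⟩
  · rw [seg_append (k := i * (t.length + 1) + t.length) (by omega) (by rw [e]; omega) ω,
      atl_seg_cons ha (by rw [e]; omega), e]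
  · rw [WrE_segc hc (by omega), WrE_sega hc hi, List.reverse_reverse]

end

theorem W2_complete {ω : List Om} {t : List (Ct Lt)} {w' : List Lt} (hc : Chk ω t w') :
    ω ∈ W2 := by
  have hlen : ω.length = (t.length + 1) * w'.length := by
    have h1 := congrArg List.length hc.con_eq
    rw [List.length_map] at h1
    rw [h1]
    exact WrE_len (D := t.length + 1) _ (fun a => by simp) w'
  have hw : 0 < w'.length := List.length_pos_iff.2 hc.ne
  rw [← at_full (w := ω)]
  refine at_inter.2 ⟨?_, ?_⟩
  · have h1 := WrE_x hc (i := w'.length - 1) (by omega)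
    have h2 : (w'.length - 1) * (t.length + 1) + t.length + 1 = ω.length := by
      rw [hlen]
      obtain ⟨m, hm⟩ : ∃ m, w'.length = m + 1 := ⟨w'.length - 1, by omega⟩
      rw [hm, Nat.add_sub_cancel]
      ring
    exact at_cat.2 ⟨(w'.length - 1) * (t.length + 1) + t.length,
      at_univ.2 ⟨Nat.zero_le _, h1.lt.le⟩, at_LC.2 ⟨h2.symm, h1⟩⟩
  · refine at_AllPre.2 ⟨Nat.zero_le _, le_rfl, fun r _ hr hX => ?_⟩
    obtain ⟨i, hi⟩ : ∃ i, i = r / (t.length + 1) := ⟨_, rfl⟩
    obtain ⟨s, hs⟩ : ∃ s, s = r % (t.length + 1) := ⟨_, rfl⟩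
    have hr' : r = i * (t.length + 1) + s := by
      rw [hi, hs, Nat.mul_comm]
      exact (Nat.div_add_mod r (t.length + 1)).symm
    have hsl : s < t.length + 1 := by
      rw [hs]
      exact Nat.mod_lt _ (Nat.succ_pos _)
    have hil : i < w'.length := by
      rw [hi]
      rw [hlen] at hr
      exact Nat.div_lt_of_lt_mul hr
    have hsT : s = t.length := by
      by_contra hne
      obtain ⟨a, ha, hna⟩ := WrE_nx hc hil (s := s) (by omega)
      obtain ⟨b, hb, hXb⟩ := hX
      rw [hr', ha] at hb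
      obtain rfl := Option.some.inj hb
      exact hna hXb
    subst hsT
    rw [hr']
    have hLC : At ω (LC isX) (i * (t.length + 1) + t.length) (i * (t.length + 1) + t.length + 1) :=
      at_LC.2 ⟨rfl, WrE_x hc hil⟩
    cases i with
    | zero =>
      have h1 := WrE_pal hc hil
      rw [Nat.zero_mul] at h1 hLC ⊢
      exact at_union.2 (Or.inl (at_cat.2 ⟨_, h1, hLC⟩))
    | succ i =>
      have e : (i + 1) * (t.length + 1) = i * (t.length + 1) + t.length + 1 := by ring
      have hx1 := WrE_x hc (i := i) (by omega)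
      refine at_union.2 (Or.inr (at_inter.2 ⟨at_cat.2 ⟨i * (t.length + 1), ?_,
        at_cat.2 ⟨_, WrE_adj hc hil, hLC⟩⟩, at_cat.2 ⟨(i + 1) * (t.length + 1), ?_,
        at_cat.2 ⟨_, WrE_pal hc hil, hLC⟩⟩⟩))
      · cases i with
        | zero =>
          rw [Nat.zero_mul]
          exact at_union.2 (Or.inl (at_eps.2 ⟨rfl, Nat.zero_le _⟩))
        | succ i =>
          have e' : (i + 1) * (t.length + 1) = i * (t.length + 1) + t.length + 1 := by ring
          have hx2 := WrE_x hc (i := i) (by omega)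
          exact at_union.2 (Or.inr (at_cat.2 ⟨i * (t.length + 1) + t.length,
            at_univ.2 ⟨Nat.zero_le _, hx2.lt.le⟩, at_LC.2 ⟨e', hx2⟩⟩))
      · exact at_cat.2 ⟨i * (t.length + 1) + t.length,
          at_univ.2 ⟨Nat.zero_le _, hx1.lt.le⟩, at_LC.2 ⟨e, hx1⟩⟩

end Pool.Agent.H29.CJ

end S_WrE

section S_WrF

/-!
# Construction of words of the diagonal language: marks

Use only the STATEMENTS of the imported files.

`p i = val (bs.take i)` for `i ≤ bs.length`; `c = val (bs ++ [true])`.  `p 0 = 1`, `p (i+1) = 2 p i + [bs[i]]`, `c = 2 p (bs.length) + 1`; so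
`p 0 < p 1 < ... < p (bs.length) < c < 2 c < 4 c < ...`, all cases of `mF` are exclusive, and `i` is determined by `p (i+1)`.
`W3_complete`: position `0` carries `st`, other positions do not (`mF`).  Position `c - 1` carries `xx` (`c ≤ ω.length`, `c - 1 ≠ 0`), positions before it carry neither `xx` nor `dd`
(`r + 1 < c`), positions after it carry `no` or `dd` (`p i < c`).  The last position `n - 1`, `n = c 2^h`, carries `xx` (`h = 0`) or `dd`.
`AllPre` with `Dbl0`: a position `r` with mark `b false`: `r + 1 = p (i+1) = 2 p i`; the previous marked position is `p i - 1`, nothing marked strictly between (`p i < s < p (i+1)` is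
not a `p _`, not `≥ c`); so the initial segment is `any^(p i - 1) marked no^(p i - 1) marked`.  `dd`: `r + 1 = c 2^j`, `j ≥ 1`, previous `c 2^(j-1)`.  `Dbl1`: `b true`: `r + 1 = 2 p i + 1`; `xx`:
`r + 1 = 2 p (bs.length) + 1`: `any^(p-1) marked (no) no^(p-1) marked`.
`bits_seg`: the segment `[p i, p j)` of `ω` belongs to `BitsL (bs[i..j))`: induction; used with `i = 0`, `j = bs.length` (`p 0 = 1`).  The statement below is for a list `l` of bits
occurring from index `i`: `bs = bs.take i ++ l ++ rest`.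
-/

set_option autoImplicit false

namespace Pool.Agent.H29.CJ

open Classical in
/-- the mark at position `r` for the bits `bs` -/
noncomputable def mF (bs : List Bool) (r : ℕ) : Mk :=
  if r = 0 then .st
  else if h : ∃ i, ∃ hi : i < bs.length, r + 1 = val (bs.take (i + 1)) then
    .b (bs[h.choose]'(h.choose_spec.choose))
  else if r + 1 = val (bs ++ [true]) then .xx
  else if ∃ j, 1 ≤ j ∧ r + 1 = val (bs ++ [true]) * 2 ^ j then .dd
  else .no

private theorem WrF_p0 (bs : List Bool) : val (bs.take 0) = 1 := by simp [val]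

private theorem WrF_pl (bs : List Bool) : val (bs.take bs.length) = val bs := by simp

private theorem WrF_ps (bs : List Bool) (i : ℕ) (hi : i < bs.length) :
    val (bs.take (i + 1)) = 2 * val (bs.take i) + (if bs[i] then 1 else 0) := by
  rw [List.take_succ_eq_append_getElem hi, val_append]

private theorem WrF_c (bs : List Bool) : val (bs ++ [true]) = 2 * val bs + 1 := by
  rw [val_append]
  simp

private theorem WrF_le1 (bs : List Bool) (i : ℕ) : 1 ≤ val (bs.take i) := val_pos _

private theorem WrF_lt1 (bs : List Bool) (i : ℕ) (hi : i < bs.length) :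
    val (bs.take i) < val (bs.take (i + 1)) := by
  rw [WrF_ps bs i hi]
  have := WrF_le1 bs i
  omega

private theorem WrF_lt (bs : List Bool) {i j : ℕ} (hij : i < j) (hj : j ≤ bs.length) :
    val (bs.take i) < val (bs.take j) := by
  induction j, hij using Nat.le_induction with
  | base => exact WrF_lt1 bs i (by omega)
  | succ j hj' ih =>
    exact (ih (by omega)).trans (WrF_lt1 bs j (by omega))

private theorem WrF_le (bs : List Bool) {i j : ℕ} (hij : i ≤ j) (hj : j ≤ bs.length) :
    val (bs.take i) ≤ val (bs.take j) := by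
  rcases Nat.eq_or_lt_of_le hij with rfl | h
  · exact le_rfl
  · exact (WrF_lt bs h hj).le

private theorem WrF_inj (bs : List Bool) {i j : ℕ} (hi : i ≤ bs.length) (hj : j ≤ bs.length)
    (h : val (bs.take i) = val (bs.take j)) : i = j := by
  rcases Nat.lt_trichotomy i j with h1 | h1 | h1
  · have := WrF_lt bs h1 hj
    omega
  · exact h1
  · have := WrF_lt bs h1 hi
    omega

private theorem WrF_ltc (bs : List Bool) {i : ℕ} (hi : i ≤ bs.length) :
    2 * val (bs.take i) < val (bs ++ [true]) := by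
  have h := WrF_le bs hi le_rfl
  rw [WrF_pl] at h
  rw [WrF_c]
  omega

private theorem WrF_cpow (bs : List Bool) (j : ℕ) :
    val (bs ++ [true]) ≤ val (bs ++ [true]) * 2 ^ j :=
  Nat.le_mul_of_pos_right _ (pow_pos (by norm_num) j)

private theorem WrF_cpow1 (bs : List Bool) {j : ℕ} (hj : 1 ≤ j) :
    val (bs ++ [true]) < val (bs ++ [true]) * 2 ^ j := by
  obtain ⟨k, rfl⟩ : ∃ k, j = k + 1 := ⟨j - 1, by omega⟩
  have h1 := WrF_cpow bs k
  have h2 : val (bs ++ [true]) * 2 ^ (k + 1) = 2 * (val (bs ++ [true]) * 2 ^ k) := by ring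
  have h3 := val_pos (bs ++ [true])
  omega

/-- the cases of the definition of `mF` -/
private theorem WrF_cases (bs : List Bool) (r : ℕ) :
    (r = 0 ∧ mF bs r = .st) ∨
    (∃ i, ∃ hi : i < bs.length, r + 1 = val (bs.take (i + 1)) ∧ mF bs r = .b bs[i]) ∨
    (r + 1 = val (bs ++ [true]) ∧ mF bs r = .xx) ∨
    (∃ j, 1 ≤ j ∧ r + 1 = val (bs ++ [true]) * 2 ^ j ∧ mF bs r = .dd) ∨
    (r ≠ 0 ∧ (∀ i, i < bs.length → r + 1 ≠ val (bs.take (i + 1))) ∧
      r + 1 ≠ val (bs ++ [true]) ∧ (∀ j, 1 ≤ j → r + 1 ≠ val (bs ++ [true]) * 2 ^ j) ∧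
      mF bs r = .no) := by
  classical
  by_cases h0 : r = 0
  · left
    exact ⟨h0, by unfold mF; rw [if_pos h0]⟩
  right
  by_cases h1 : ∃ i, ∃ hi : i < bs.length, r + 1 = val (bs.take (i + 1))
  · left
    refine ⟨h1.choose, h1.choose_spec.choose, h1.choose_spec.choose_spec, ?_⟩
    unfold mF
    rw [if_neg h0, dif_pos h1]
  right
  by_cases h2 : r + 1 = val (bs ++ [true])
  · left
    exact ⟨h2, by unfold mF; rw [if_neg h0, dif_neg h1, if_pos h2]⟩
  right
  by_cases h3 : ∃ j, 1 ≤ j ∧ r + 1 = val (bs ++ [true]) * 2 ^ j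
  · left
    obtain ⟨j, hj, hj'⟩ := h3
    exact ⟨j, hj, hj', by unfold mF; rw [if_neg h0, dif_neg h1, if_neg h2, if_pos ⟨j, hj, hj'⟩]⟩
  right
  refine ⟨h0, fun i hi h => h1 ⟨i, hi, h⟩, h2, fun j hj h => h3 ⟨j, hj, h⟩, ?_⟩
  unfold mF
  rw [if_neg h0, dif_neg h1, if_neg h2, if_neg h3]

private theorem WrF_st (bs : List Bool) : mF bs 0 = .st := by
  unfold mF
  rw [if_pos rfl]

private theorem WrF_b (bs : List Bool) (i : ℕ) (hi : i < bs.length) (r : ℕ)
    (hr : r + 1 = val (bs.take (i + 1))) : mF bs r = .b bs[i] := by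
  have h1 := WrF_lt1 bs i hi
  have h2 := WrF_le1 bs i
  have h3 := WrF_ltc bs (Nat.succ_le_of_lt hi)
  rcases WrF_cases bs r with h | ⟨i', hi', h, h'⟩ | h | ⟨j, hj, h, _⟩ | h
  · omega
  · have : i' + 1 = i + 1 := WrF_inj bs hi' hi (by omega)
    obtain rfl : i' = i := by omega
    exact h'
  · have h4 := h.1
    have h5 : i + 1 = i.succ := rfl
    rw [← h5] at h3
    omega
  · have h4 := WrF_cpow bs j
    have h5 : i + 1 = i.succ := rfl
    rw [← h5] at h3
    omega
  · exact absurd hr (h.2.1 i hi)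

private theorem WrF_xx (bs : List Bool) (r : ℕ) (hr : r + 1 = val (bs ++ [true])) :
    mF bs r = .xx := by
  have h1 := WrF_c bs
  have h2 := val_pos bs
  rcases WrF_cases bs r with h | ⟨i', hi', h, h'⟩ | h | ⟨j, hj, h, _⟩ | h
  · omega
  · have h3 := WrF_ltc bs (i := i' + 1) hi'
    omega
  · exact h.2
  · have h4 := WrF_cpow1 bs hj
    omega
  · exact absurd hr h.2.2.1

private theorem WrF_dd (bs : List Bool) (r j : ℕ) (hj : 1 ≤ j)
    (hr : r + 1 = val (bs ++ [true]) * 2 ^ j) : mF bs r = .dd := by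
  have h1 := WrF_c bs
  have h2 := val_pos bs
  have h3 := WrF_cpow1 bs hj
  rcases WrF_cases bs r with h | ⟨i', hi', h, h'⟩ | h | ⟨j', hj', h, h'⟩ | h
  · omega
  · have h3 := WrF_ltc bs (i := i' + 1) hi'
    omega
  · have := h.1
    omega
  · exact h'
  · exact absurd hr (h.2.2.2.1 j hj)

/-- nothing is marked strictly between `p i` and `p (i+1)` -/
private theorem WrF_no1 (bs : List Bool) (i : ℕ) (hi : i < bs.length) (s : ℕ)
    (h1 : val (bs.take i) ≤ s) (h2 : s + 1 < val (bs.take (i + 1))) : mF bs s = .no := by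
  have g1 := WrF_le1 bs i
  have g3 := WrF_ltc bs (i := i + 1) hi
  rcases WrF_cases bs s with h | ⟨i', hi', h, h'⟩ | h | ⟨j', hj', h, h'⟩ | h
  · omega
  · exfalso
    rcases Nat.lt_or_ge i' i with h3 | h3
    · have := WrF_le bs (i := i' + 1) (j := i) h3 hi.le
      omega
    · have := WrF_le bs (i := i + 1) (j := i' + 1) (by omega) hi'
      omega
  · have := h.1
    omega
  · have := WrF_cpow bs j'
    omega
  · exact h.2.2.2.2

/-- nothing is marked strictly between `val bs` and `c` -/
private theorem WrF_no2 (bs : List Bool) (s : ℕ)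
    (h1 : val bs ≤ s) (h2 : s + 1 < val (bs ++ [true])) : mF bs s = .no := by
  have g1 := val_pos bs
  rcases WrF_cases bs s with h | ⟨i', hi', h, h'⟩ | h | ⟨j', hj', h, h'⟩ | h
  · omega
  · exfalso
    have := WrF_le bs (i := i' + 1) (j := bs.length) hi' le_rfl
    rw [WrF_pl] at this
    omega
  · have := h.1
    omega
  · have := WrF_cpow bs j'
    omega
  · exact h.2.2.2.2

/-- nothing is marked strictly between `c 2^j` and `c 2^(j+1)` -/
private theorem WrF_no3 (bs : List Bool) (j s : ℕ)
    (h1 : val (bs ++ [true]) * 2 ^ j ≤ s) (h2 : s + 1 < val (bs ++ [true]) * 2 ^ (j + 1)) :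
    mF bs s = .no := by
  have g1 := val_pos (bs ++ [true])
  have g2 := WrF_cpow bs j
  rcases WrF_cases bs s with h | ⟨i', hi', h, h'⟩ | h | ⟨j', hj', h, h'⟩ | h
  · omega
  · exfalso
    have := WrF_ltc bs (i := i' + 1) hi'
    omega
  · have := h.1
    omega
  · exfalso
    rcases Nat.lt_or_ge j j' with h3 | h3
    · have h4 : val (bs ++ [true]) * 2 ^ (j + 1) ≤ val (bs ++ [true]) * 2 ^ j' :=
        Nat.mul_le_mul_left _ (Nat.pow_le_pow_right (by norm_num) h3)
      omega
    · have h4 : val (bs ++ [true]) * 2 ^ j' ≤ val (bs ++ [true]) * 2 ^ j :=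
        Nat.mul_le_mul_left _ (Nat.pow_le_pow_right (by norm_num) h3)
      omega
  · exact h.2.2.2.2

/-- `p i` is marked -/
private theorem WrF_mk (bs : List Bool) (i : ℕ) (hi : i ≤ bs.length) (r : ℕ)
    (hr : r + 1 = val (bs.take i)) : mF bs r ≠ .no := by
  cases i with
  | zero =>
    rw [WrF_p0] at hr
    obtain rfl : r = 0 := by omega
    rw [WrF_st]
    intro h
    cases h
  | succ i =>
    rw [WrF_b bs i (by omega) r hr]
    intro h
    cases h

/-- `c 2^j` is marked -/
private theorem WrF_mk2 (bs : List Bool) (j r : ℕ)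
    (hr : r + 1 = val (bs ++ [true]) * 2 ^ j) : mF bs r ≠ .no := by
  rcases Nat.eq_zero_or_pos j with rfl | hj
  · rw [WrF_xx bs r (by rw [hr]; simp)]
    intro h
    cases h
  · rw [WrF_dd bs r j hj hr]
    intro h
    cases h

private theorem WrF_Is {ω : List Om} {bs : List Bool}
    (hm : ∀ r a, ω[r]? = some a → mrk a = mF bs r) {s : ℕ} (hs : s < ω.length) (P : Mk → Prop)
    (hP : P (mF bs s)) : Is ω s (fun a => P (mrk a)) := by
  have h := List.getElem?_eq_getElem hs
  refine ⟨ω[s], h, ?_⟩
  show P (mrk ω[s])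
  rw [hm s _ h]
  exact hP

private theorem WrF_D0 {ω : List Om} {m : ℕ} (hm : 1 ≤ m) (hl : 2 * m ≤ ω.length)
    (h1 : Is ω (m - 1) (fun a => mrk a ≠ .no)) (h2 : Is ω (2 * m - 1) (fun a => mrk a ≠ .no))
    (h3 : ∀ s, m ≤ s → s < 2 * m - 1 → Is ω s (fun a => mrk a = .no)) :
    At ω Dbl0 0 (2 * m) := by
  unfold Dbl0
  refine at_cat.2 ⟨2 * m - 1, at_Sync_LC.2 ⟨m - 1, m, by omega, by omega, ?_, ?_, h3⟩,
    at_LC.2 ⟨by omega, h2⟩⟩
  · exact at_LC.2 ⟨by omega, by rw [Nat.zero_add]; exact h1⟩
  · intro t _ ht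
    have : t < ω.length := by omega
    exact ⟨ω[t], List.getElem?_eq_getElem this, trivial⟩

private theorem WrF_D1 {ω : List Om} {m : ℕ} (hm : 1 ≤ m) (hl : 2 * m + 1 ≤ ω.length)
    (h1 : Is ω (m - 1) (fun a => mrk a ≠ .no)) (h2 : Is ω (2 * m) (fun a => mrk a ≠ .no))
    (h3 : ∀ s, m ≤ s → s < 2 * m → Is ω s (fun a => mrk a = .no)) :
    At ω Dbl1 0 (2 * m + 1) := by
  unfold Dbl1
  refine at_cat.2 ⟨2 * m, at_Sync_LC.2 ⟨m - 1, m + 1, by omega, by omega, ?_, ?_, ?_⟩,
    at_LC.2 ⟨rfl, h2⟩⟩
  · exact at_cat.2 ⟨m, at_LC.2 ⟨by omega, by rw [Nat.zero_add]; exact h1⟩,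
      at_LC.2 ⟨rfl, h3 m le_rfl (by omega)⟩⟩
  · intro t _ ht
    have : t < ω.length := by omega
    exact ⟨ω[t], List.getElem?_eq_getElem this, trivial⟩
  · intro s hs1 hs2
    exact h3 s (by omega) hs2

private theorem WrF_bits {ω : List Om} {bs : List Bool} (hlen : val (bs ++ [true]) ≤ ω.length)
    (hm : ∀ r a, ω[r]? = some a → mrk a = mF bs r) (d : ℕ) :
    ∀ k, k + d = bs.length → At ω (BitsL (bs.drop k)) (val (bs.take k)) (val bs) := by
  have hc := WrF_c bs
  have hpos := val_pos bs
  induction d with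
  | zero =>
    intro k hk
    obtain rfl : k = bs.length := by omega
    rw [List.drop_length, WrF_pl]
    exact at_eps.2 ⟨rfl, by omega⟩
  | succ d ih =>
    intro k hk
    have hk' : k < bs.length := by omega
    have h1 := ih (k + 1) (by omega)
    have hle := h1.le
    rw [List.drop_eq_getElem_cons hk']
    have h2 := WrF_le1 bs k
    have h3 := WrF_lt1 bs k hk'
    refine at_cat.2 ⟨val (bs.take (k + 1)) - 1, at_ST.2 ⟨by omega, by omega, ?_⟩,
      at_cat.2 ⟨val (bs.take (k + 1)), at_LC.2 ⟨by omega, ?_⟩, h1⟩⟩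
    · intro t ht1 ht2
      exact WrF_Is hm (by omega) (fun x => x = .no) (WrF_no1 bs k hk' t ht1 (by omega))
    · exact WrF_Is hm (by omega) (fun x => x = .b bs[k]) (WrF_b bs k hk' _ (by omega))

theorem W3_complete {ω : List Om} {bs : List Bool} {h : ℕ}
    (hlen : ω.length = val (bs ++ [true]) * 2 ^ h)
    (hm : ∀ r a, ω[r]? = some a → mrk a = mF bs r) : ω ∈ W3 := by
  have hc := WrF_c bs
  have hpos := val_pos bs
  have hcl := WrF_cpow bs h
  rw [← hlen] at hcl
  rw [← at_full]
  unfold W3
  refine at_inter.2 ⟨at_inter.2 ⟨?_, at_inter.2 ⟨?_, ?_⟩⟩, at_inter.2 ⟨?_, ?_⟩⟩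
  · refine at_cat.2 ⟨1, at_LC.2 ⟨rfl, ?_⟩, at_ST.2 ⟨by omega, le_rfl, ?_⟩⟩
    · exact WrF_Is hm (by omega) (fun x => x = .st) (WrF_st bs)
    · intro t ht1 ht2
      refine WrF_Is hm ht2 (fun x => x ≠ .st) ?_
      rcases WrF_cases bs t with h | ⟨i', hi', h, h'⟩ | h | ⟨j', hj', h, h'⟩ | h
      · omega
      · rw [h']
        intro h4
        cases h4
      · rw [h.2]
        intro h4
        cases h4
      · rw [h']
        intro h4
        cases h4
      · rw [h.2.2.2.2]
        intro h4
        cases h4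
  · refine at_cat.2 ⟨val (bs ++ [true]) - 1, at_ST.2 ⟨by omega, by omega, ?_⟩,
      at_cat.2 ⟨val (bs ++ [true]), at_LC.2 ⟨by omega, ?_⟩, at_ST.2 ⟨hcl, le_rfl, ?_⟩⟩⟩
    · intro t _ ht2
      refine WrF_Is hm (by omega) (fun x => x ≠ .xx ∧ x ≠ .dd) ?_
      rcases WrF_cases bs t with h | ⟨i', hi', h, h'⟩ | h | ⟨j', hj', h, h'⟩ | h
      · rw [h.2]
        exact ⟨(by intro h4; cases h4), (by intro h4; cases h4)⟩
      · rw [h']
        exact ⟨(by intro h4; cases h4), (by intro h4; cases h4)⟩
      · have := h.1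
        omega
      · have := WrF_cpow bs j'
        omega
      · rw [h.2.2.2.2]
        exact ⟨(by intro h4; cases h4), (by intro h4; cases h4)⟩
    · exact WrF_Is hm (by omega) (fun x => x = .xx) (WrF_xx bs _ (by omega))
    · intro t ht1 ht2
      refine WrF_Is hm ht2 (fun x => x = .no ∨ x = .dd) ?_
      rcases WrF_cases bs t with h | ⟨i', hi', h, h'⟩ | h | ⟨j', hj', h, h'⟩ | h
      · omega
      · have := WrF_ltc bs (i := i' + 1) hi'
        omega
      · have := h.1
        omega
      · exact Or.inr h'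
      · exact Or.inl h.2.2.2.2
  · refine at_cat.2 ⟨ω.length - 1, at_univ.2 ⟨by omega, by omega⟩, at_LC.2 ⟨by omega, ?_⟩⟩
    exact WrF_Is hm (by omega) (fun x => x ≠ .no) (WrF_mk2 bs h _ (by omega))
  · refine at_AllPre.2 ⟨by omega, le_rfl, ?_⟩
    intro t _ ht2 hP
    obtain ⟨a, ha, hPa⟩ := hP
    have hPa' : mF bs t = .b false ∨ mF bs t = .dd := by
      rw [← hm t a ha]
      exact hPa
    rcases WrF_cases bs t with h | ⟨i', hi', h, h'⟩ | h | ⟨j', hj', h, h'⟩ | h
    · rw [h.2] at hPa'
      rcases hPa' with h4 | h4 <;> cases h4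
    · rw [h'] at hPa'
      have hb : bs[i'] = false := by
        rcases hPa' with h4 | h4
        · injection h4
        · cases h4
      have hs := WrF_ps bs i' hi'
      rw [hb] at hs
      have hs' : t + 1 = 2 * val (bs.take i') := by
        rw [h, hs]
        simp
      have h5 := WrF_le1 bs i'
      rw [hs']
      refine WrF_D0 h5 (by omega) ?_ ?_ ?_
      · exact WrF_Is hm (by omega) (fun x => x ≠ .no) (WrF_mk bs i' hi'.le _ (by omega))
      · exact WrF_Is hm (by omega) (fun x => x ≠ .no) (WrF_mk bs (i' + 1) hi' _ (by omega))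
      · intro s hs1 hs2
        exact WrF_Is hm (by omega) (fun x => x = .no) (WrF_no1 bs i' hi' s hs1 (by omega))
    · rw [h.2] at hPa'
      rcases hPa' with h4 | h4 <;> cases h4
    · obtain ⟨k, rfl⟩ : ∃ k, j' = k + 1 := ⟨j' - 1, by omega⟩
      have h5 : val (bs ++ [true]) * 2 ^ (k + 1) = 2 * (val (bs ++ [true]) * 2 ^ k) := by ring
      have h6 := WrF_cpow bs k
      have h7 : t + 1 = 2 * (val (bs ++ [true]) * 2 ^ k) := by rw [h, h5]
      rw [h7]
      refine WrF_D0 (by omega) (by omega) ?_ ?_ ?_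
      · exact WrF_Is hm (by omega) (fun x => x ≠ .no) (WrF_mk2 bs k _ (by omega))
      · exact WrF_Is hm (by omega) (fun x => x ≠ .no) (WrF_mk2 bs (k + 1) _ (by omega))
      · intro s hs1 hs2
        exact WrF_Is hm (by omega) (fun x => x = .no) (WrF_no3 bs k s hs1 (by omega))
    · rw [h.2.2.2.2] at hPa'
      rcases hPa' with h4 | h4 <;> cases h4
  · refine at_AllPre.2 ⟨by omega, le_rfl, ?_⟩
    intro t _ ht2 hP
    obtain ⟨a, ha, hPa⟩ := hP
    have hPa' : mF bs t = .b true ∨ mF bs t = .xx := by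
      rw [← hm t a ha]
      exact hPa
    rcases WrF_cases bs t with h | ⟨i', hi', h, h'⟩ | h | ⟨j', hj', h, h'⟩ | h
    · rw [h.2] at hPa'
      rcases hPa' with h4 | h4 <;> cases h4
    · rw [h'] at hPa'
      have hb : bs[i'] = true := by
        rcases hPa' with h4 | h4
        · injection h4
        · cases h4
      have hs := WrF_ps bs i' hi'
      rw [hb] at hs
      have hs' : t + 1 = 2 * val (bs.take i') + 1 := by
        rw [h, hs]
        simp
      have h5 := WrF_le1 bs i'
      rw [hs']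
      refine WrF_D1 h5 (by omega) ?_ ?_ ?_
      · exact WrF_Is hm (by omega) (fun x => x ≠ .no) (WrF_mk bs i' hi'.le _ (by omega))
      · exact WrF_Is hm (by omega) (fun x => x ≠ .no) (WrF_mk bs (i' + 1) hi' _ (by omega))
      · intro s hs1 hs2
        exact WrF_Is hm (by omega) (fun x => x = .no) (WrF_no1 bs i' hi' s hs1 (by omega))
    · have h1 := h.1
      have h7 : t + 1 = 2 * val bs + 1 := by rw [h1, hc]
      rw [h7]
      refine WrF_D1 hpos (by omega) ?_ ?_ ?_
      · exact WrF_Is hm (by omega) (fun x => x ≠ .no)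
          (WrF_mk bs bs.length le_rfl _ (by rw [WrF_pl]; omega))
      · exact WrF_Is hm (by omega) (fun x => x ≠ .no) (by
          rw [WrF_xx bs _ (by omega)]
          intro h4
          cases h4)
      · intro s hs1 hs2
        exact WrF_Is hm (by omega) (fun x => x = .no) (WrF_no2 bs s hs1 (by omega))
    · rw [h'] at hPa'
      rcases hPa' with h4 | h4 <;> cases h4
    · rw [h.2.2.2.2] at hPa'
      rcases hPa' with h4 | h4 <;> cases h4

/-- the marks from position `1` to `val bs` spell `bs` -/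
theorem bits_seg {ω : List Om} {bs : List Bool} (hlen : val (bs ++ [true]) ≤ ω.length)
    (hm : ∀ r a, ω[r]? = some a → mrk a = mF bs r) : At ω (BitsL bs) 1 (val bs) := by
  have h := WrF_bits hlen hm bs.length 0 (by omega)
  rw [WrF_p0, List.drop_zero] at h
  exact h

/-- marks between the last bit and `xx` -/
theorem marks_tail {ω : List Om} {bs : List Bool} (hlen : val (bs ++ [true]) ≤ ω.length)
    (hm : ∀ r a, ω[r]? = some a → mrk a = mF bs r) :
    (∀ s, val bs ≤ s → s + 1 < val (bs ++ [true]) → Is ω s (fun a => mrk a = .no)) ∧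
      Is ω (val (bs ++ [true]) - 1) (fun a => mrk a = .xx) ∧ Is ω 0 (fun a => mrk a = .st) := by
  have hc := WrF_c bs
  have hpos := val_pos bs
  refine ⟨fun s hs1 hs2 => ?_, ?_, ?_⟩
  · exact WrF_Is hm (by omega) (fun x => x = .no) (WrF_no2 bs s hs1 hs2)
  · exact WrF_Is hm (by omega) (fun x => x = .xx) (WrF_xx bs _ (by omega))
  · exact WrF_Is hm (by omega) (fun x => x = .st) (WrF_st bs)

end Pool.Agent.H29.CJ

end S_WrF

section S_WrG

/-!
# Construction of words of the diagonal language: link

Use only the STATEMENTS of the imported files.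

Let `D = t.length + 1`, `c = valC t`, `n = ω.length = w'.length * D`.  Choose `i` with `i D ≥ c + 1`, `i D ≤ c + D` (`i = (c + D) / D`); then `(i + 1) D ≤ c + 2 D ≤ n`, so
`i < w'.length`, `i ≥ 1`.  Decompose (`at_full`, `at_cat`): position `0` carries `st` (`marks_tail`); `LnkC` on `[1, i D + t.length)`, `isX` at `i D + t.length`, `univ`.
`LnkC`: `s = t`; `g = seg ω 1 (val bs)` with `bs = t.flatMap codeT` (`bits_seg`), `c = seg ω (val bs) (i D) ∈ Core0`: unmarked up to `c - 1`, `xx` at `c - 1` (`marks_tail`), `univ`, and the `isX`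
letter at `i D - 1 ≥ c` (chunk `i - 1` ends there); `v = seg ω (i D) (i D + t.length)`: `v.map aux = t.reverse` (`Chk.aux_eq`, `seg` commutes with `map`), no `isX` letter.
-/

set_option autoImplicit false

namespace Pool.Agent.H29.CJ

private theorem wrg_len (t : List (Ct Lt)) (w' : List Lt) :
    (w'.flatMap (fun a => t ++ [Ct.x a])).length = w'.length * (t.length + 1) := by
  induction w' with
  | nil => simp
  | cons a l ih =>
    rw [List.flatMap_cons, List.length_append, ih, List.length_append, List.length_singleton, List.length_cons]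
    ring

private theorem wrg_get (t : List (Ct Lt)) (w' : List Lt) : ∀ (i : ℕ) (hi : i < w'.length) (j : ℕ),
    j < t.length + 1 → (w'.flatMap (fun a => t ++ [Ct.x a]))[i * (t.length + 1) + j]? =
      (t ++ [Ct.x w'[i]])[j]? := by
  induction w' with
  | nil =>
    intro i hi
    simp at hi
  | cons a l ih =>
    intro i hi j hj
    have hl : (t ++ [Ct.x a]).length = t.length + 1 := by simp
    rw [List.flatMap_cons]
    cases i with
    | zero =>
      rw [Nat.zero_mul, Nat.zero_add, List.getElem?_append_left (by rw [hl]; exact hj)]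
      rfl
    | succ i =>
      have e : (i + 1) * (t.length + 1) + j = (t.length + 1) + (i * (t.length + 1) + j) := by ring
      rw [e, List.getElem?_append_right (by rw [hl]; omega), hl, Nat.add_sub_cancel_left]
      have hi' : i < l.length := by
        rw [List.length_cons] at hi
        omega
      rw [ih i hi' j hj]
      rfl

private theorem wrg_seg_map {α β : Type} (f : α → β) (w : List α) (i j : ℕ) :
    seg (w.map f) i j = (seg w i j).map f := by
  unfold seg
  rw [← List.map_take, ← List.map_drop]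

theorem W4_complete {ω : List Om} {t : List (Ct Lt)} {w' : List Lt} (hc : Chk ω t w')
    (hm : ∀ r a, ω[r]? = some a → mrk a = mF (t.flatMap codeT) r)
    (hbig : valC t + 2 * (t.length + 1) ≤ ω.length) : ω ∈ W4 := by
  set bs := t.flatMap codeT with hbs
  set D := t.length + 1 with hD
  have hD0 : 0 < D := by omega
  have hcv : valC t = 2 * val bs + 1 := by
    unfold valC
    rw [val_append]
    rfl
  have hcv' : val (bs ++ [true]) = 2 * val bs + 1 := by
    rw [val_append]
    rfl
  have hvp := val_pos bs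
  have hn : ω.length = w'.length * D := by
    have h1 := congrArg List.length hc.con_eq
    rw [List.length_map, wrg_len] at h1
    exact h1
  have hlen : val (bs ++ [true]) ≤ ω.length := by omega
  obtain ⟨hno, hxx, hst⟩ := marks_tail hlen hm
  -- the chunk
  obtain ⟨i, hi⟩ : ∃ i, i = (valC t + D) / D := ⟨_, rfl⟩
  have hi1 : i * D ≤ valC t + D := by
    rw [hi]
    exact Nat.div_mul_le_self _ _
  have hi2 : valC t + 1 ≤ i * D := by
    have h1 := Nat.lt_div_mul_add (a := valC t + D) hD0
    rw [← hi] at h1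
    omega
  have hi3 : i < w'.length := by
    have h1 : (i + 1) * D ≤ w'.length * D := by
      rw [← hn, Nat.add_mul, Nat.one_mul]
      omega
    exact Nat.le_of_mul_le_mul_right h1 hD0
  have hi4 : 1 ≤ i := by
    by_contra hc0
    have : i = 0 := by omega
    rw [this, Nat.zero_mul] at hi2
    omega
  -- contents
  have hcon : ∀ (k : ℕ) (hk : k < w'.length) (j : ℕ), j < D → ∃ a, ω[k * D + j]? = some a ∧
      (t ++ [Ct.x w'[k]])[j]? = some (con a) := by
    intro k hk j hj
    have h1 := wrg_get t w' k hk j hj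
    rw [← hc.con_eq, List.getElem?_map] at h1
    have h2 : k * D + j < ω.length := by
      have h3 : (k + 1) * D ≤ w'.length * D := Nat.mul_le_mul_right _ hk
      rw [Nat.add_mul, Nat.one_mul] at h3
      omega
    refine ⟨ω[k * D + j], List.getElem?_eq_getElem h2, ?_⟩
    rw [← h1, List.getElem?_eq_getElem h2]
    rfl
  have hX : ∀ (k : ℕ) (hk : k < w'.length), Is ω (k * D + t.length) isX := by
    intro k hk
    obtain ⟨a, ha, h1⟩ := hcon k hk t.length (by omega)
    refine ⟨a, ha, w'[k], ?_⟩
    rw [List.getElem?_append_right le_rfl, Nat.sub_self] at h1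
    have h2 : Ct.x w'[k] = con a := Option.some.inj h1
    exact h2.symm
  have hn2 : i * D + t.length < ω.length := (hX i hi3).lt
  rw [← at_full]
  refine at_cat.2 ⟨1, at_LC.2 ⟨rfl, hst⟩, at_cat.2 ⟨i * D + t.length, ?_, at_cat.2 ⟨i * D + t.length + 1,
    at_LC.2 ⟨rfl, hX i hi3⟩, at_univ.2 ⟨by omega, le_rfl⟩⟩⟩⟩
  refine ⟨by omega, by omega, t, seg ω 1 (val bs), seg ω (val bs) (i * D), seg ω (i * D) (i * D + t.length),
    ?_, ?_, ?_, ?_, ?_⟩
  · rw [← seg_append (by omega) (by omega), ← seg_append (by omega) (by omega)]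
  · exact (bits_seg hlen hm).2.2
  · have h1 : At ω Core0 (val bs) (i * D) := by
      refine at_cat.2 ⟨val (bs ++ [true]) - 1, at_ST.2 ⟨by omega, by omega, fun s hs1 hs2 => hno s hs1 (by omega)⟩, ?_⟩
      refine at_cat.2 ⟨val (bs ++ [true]), at_LC.2 ⟨by omega, hxx⟩, ?_⟩
      refine at_cat.2 ⟨i * D - 1, at_univ.2 ⟨by omega, by omega⟩, at_LC.2 ⟨by omega, ?_⟩⟩
      have h2 := hX (i - 1) (by omega)
      have h3 : (i - 1) * D + t.length = i * D - 1 := by
        obtain ⟨k, rfl⟩ : ∃ k, i = k + 1 := ⟨i - 1, by omega⟩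
        rw [Nat.add_sub_cancel, Nat.add_mul, Nat.one_mul]
        omega
      rw [h3] at h2
      exact h2
    exact h1.2.2
  · rw [← wrg_seg_map]
    exact hc.aux_eq i hi3
  · have h1 : At ω (ST (fun b => ¬ isX b)) (i * D) (i * D + t.length) := by
      refine at_ST.2 ⟨by omega, by omega, fun s hs1 hs2 => ?_⟩
      obtain ⟨j, rfl⟩ := Nat.exists_eq_add_of_le hs1
      have hj : j < t.length := by omega
      obtain ⟨a, ha, h2⟩ := hcon i hi3 j (by omega)
      refine ⟨a, ha, ?_⟩
      rw [List.getElem?_append_left hj] at h2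
      exact hc.tk (con a) (List.mem_of_getElem? h2)
    exact h1.2.2

end Pool.Agent.H29.CJ

end S_WrG

section S_WrH

/-!
# Construction of words of the diagonal language: product relation

Use only the STATEMENTS of `AtL`.

Let `Z = p.length + 1`, `D = t.length + 1 ≥ 2`, `n = ω.length = w'.length * D = Z * w'.count sg`.  Flagged positions: `Z ∣ r + 1`.
* `AllPre del (BlkG del)`: a flagged `r`, `r + 1 = c Z`: `c = 1`: first alternative (`r` unflagged letters, a flagged one); `c ≥ 2`: the first `(c-2) Z` letters (empty or ending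
  with a flagged letter), then `Z - 1` unflagged, flagged, `Z - 1` unflagged, flagged (`at_full`-style with `at_AllPre`, `at_Sync_LC`).
* the last position is flagged as `Z ∣ n`; `n > 0`.
* `wt wD ω = (number of flags) - (number of letters with content x sg) = n / Z - w'.count sg = 0`.
* last factor: `Sync` exponent `p.length`: the first `p.length` chunks have `nz` letters, then chunk `p.length` has a `z` letter (it ends at `Z D`), then `univ` up to the flagged
  position `(D + 1) Z - 1 ≥ Z D` (as `Z ≥ 1`), then `Z - 1` unflagged letters, then the flagged position `(D + 2) Z - 1`, and the rest.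
  `(D + 2) Z ≤ n`: `n = w'.length * D ≥ 2 Z D ≥ (D + 2) Z`.
  (`at_pw` for `k` chunks: positions `i D`.)
-/

set_option autoImplicit false

namespace Pool.Agent.H29.CJ

theorem WrH_flat {α β : Type} (f : α → List β) (D : ℕ) (hf : ∀ a, (f a).length = D) :
    ∀ (w : List α) (i s : ℕ) (a : α), w[i]? = some a → s < D →
      (w.flatMap f)[i * D + s]? = (f a)[s]? := by
  intro w
  induction w with
  | nil =>
    intro i s a h _
    simp at h
  | cons b w ih =>
    intro i s a h hs
    rw [List.flatMap_cons]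
    cases i with
    | zero =>
      rw [List.getElem?_cons_zero] at h
      obtain rfl := Option.some.inj h
      rw [Nat.zero_mul, Nat.zero_add, List.getElem?_append_left (by rw [hf]; exact hs)]
    | succ i =>
      rw [List.getElem?_cons_succ] at h
      have e : (i + 1) * D + s = D + (i * D + s) := by ring
      rw [e, List.getElem?_append_right (by rw [hf]; omega), hf, Nat.add_sub_cancel_left]
      exact ih i s a h hs

theorem WrH_flatlen {α β : Type} (f : α → List β) (D : ℕ) (hf : ∀ a, (f a).length = D)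
    (w : List α) : (w.flatMap f).length = w.length * D := by
  induction w with
  | nil => simp
  | cons b w ih =>
    rw [List.flatMap_cons, List.length_append, hf, ih, List.length_cons]
    ring

open Classical in
theorem WrH_wt (t : List (Ct Lt)) (ht : ∀ c ∈ t, tok c) (w' : List Lt) :
    wt (fun c : Ct Lt => if c = Ct.x Lt.sg then (1 : ℤ) else 0)
      (w'.flatMap (fun a => t ++ [Ct.x a])) = w'.count Lt.sg := by
  have h0 : wt (fun c : Ct Lt => if c = Ct.x Lt.sg then (1 : ℤ) else 0) t = 0 := by
    unfold wt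
    apply List.sum_eq_zero
    intro y hy
    rw [List.mem_map] at hy
    obtain ⟨c, hc, rfl⟩ := hy
    rw [if_neg]
    rintro rfl
    exact ht _ hc ⟨_, rfl⟩
  induction w' with
  | nil => simp [wt]
  | cons b w ih =>
    rw [List.flatMap_cons, atl_wt_append, atl_wt_append, h0, ih]
    by_cases hb : b = Lt.sg
    · subst hb
      simp [wt]
      ring
    · rw [List.count_cons_of_ne hb]
      have h1 : ¬ (Ct.x b = Ct.x Lt.sg) := fun h => hb (Ct.x.inj h)
      simp [wt, h1]

theorem WrH_nd {Z a j : ℕ} (h : j + 1 < Z) : ¬ Z ∣ a * Z + j + 1 := by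
  intro hd
  have h1 : Z ∣ (a * Z + j + 1) - a * Z := Nat.dvd_sub hd ⟨a, by ring⟩
  have h2 : (a * Z + j + 1) - a * Z = j + 1 := by omega
  rw [h2] at h1
  have := Nat.le_of_dvd (by omega) h1
  omega

theorem W5_complete {ω : List Om} {t : List (Ct Lt)} {w' : List Lt} (hc : Chk ω t w')
    {p q : List Lt} {x : Lt} (hw' : w' = p ++ x :: q) (hp : ∀ b ∈ p, Lt.isNZ b) (hx : Lt.isZ x)
    (hd : ∀ r a, ω[r]? = some a → (del a ↔ (p.length + 1) ∣ r + 1))
    (hlen : ω.length = (p.length + 1) * w'.count Lt.sg)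
    (hbig : 2 * (p.length + 1) ≤ w'.length) (ht : 1 ≤ t.length) : ω ∈ W5 := by
  classical
  obtain ⟨hne, htk, hcon, -⟩ := hc
  set Z : ℕ := p.length + 1 with hZ
  set D : ℕ := t.length + 1 with hD
  have hD2 : 2 ≤ D := by omega
  have hZ1 : 1 ≤ Z := by omega
  have hfl : ∀ a : Lt, (t ++ [Ct.x a]).length = D := by
    intro a
    simp [hD]
  have hn : ω.length = w'.length * D := by
    have h1 := congrArg List.length hcon
    rw [List.length_map, WrH_flatlen _ D hfl] at h1
    exact h1
  have hn' : ω.length = w'.count Lt.sg * Z := by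
    rw [hlen]
    ring
  -- flags
  have hfl1 : ∀ r, r < ω.length → Z ∣ r + 1 → Is ω r del := fun r hr h =>
    ⟨ω[r], List.getElem?_eq_getElem hr, (hd r _ (List.getElem?_eq_getElem hr)).2 h⟩
  have hfl0 : ∀ r, r < ω.length → ¬ Z ∣ r + 1 → Is ω r (fun a => ¬ del a) := fun r hr h =>
    ⟨ω[r], List.getElem?_eq_getElem hr, fun h' => h ((hd r _ (List.getElem?_eq_getElem hr)).1 h')⟩
  have hfl0' : ∀ a r, a * Z ≤ r → r + 1 < a * Z + Z → r < ω.length →
      Is ω r (fun a => ¬ del a) := by
    intro a r h1 h2 h3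
    apply hfl0 r h3
    have e : r + 1 = a * Z + (r - a * Z) + 1 := by omega
    rw [e]
    exact WrH_nd (by omega)
  have hfl1' : ∀ a, (a + 1) * Z ≤ ω.length → Is ω ((a + 1) * Z - 1) del := by
    intro a h1
    have h2 : 1 ≤ (a + 1) * Z := Nat.mul_pos (Nat.succ_pos _) hZ1
    apply hfl1 _ (by omega)
    rw [Nat.sub_add_cancel h2]
    exact Dvd.intro_left _ rfl
  -- contents
  have hcon1 : ∀ i y s c, w'[i]? = some y → (t ++ [Ct.x y])[s]? = some c → s < D →
      Is ω (i * D + s) (fun a => con a = c) := by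
    intro i y s c hy hcs hs
    have h1 : (ω.map con)[i * D + s]? = some c := by
      rw [hcon, WrH_flat _ D hfl w' i s y hy hs, hcs]
    rw [List.getElem?_map] at h1
    obtain ⟨a, ha, hac⟩ := Option.map_eq_some_iff.1 h1
    exact ⟨a, ha, hac⟩
  have hconX : ∀ i y, w'[i]? = some y → Is ω (i * D + t.length) (fun a => con a = Ct.x y) := by
    intro i y hy
    exact hcon1 i y t.length (Ct.x y) hy (by simp) (by omega)
  have hconT : ∀ i y s, w'[i]? = some y → s < t.length →
      Is ω (i * D + s) (fun a => ¬ isX a) := by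
    intro i y s hy hs
    have h1 := hcon1 i y s t[s] hy (by rw [List.getElem?_append_left hs]; simp [hs]) (by omega)
    refine h1.mono fun a ha => ?_
    intro hX
    have h2 : tok t[s] := htk _ (List.getElem_mem hs)
    unfold isX at hX
    unfold con at ha
    rw [ha] at hX
    exact h2 hX
  have hpos : 0 < ω.length := by
    rw [hn]
    exact Nat.mul_pos (List.length_pos_iff.2 hne) (by omega)
  have hcnt : 0 < w'.count Lt.sg := by
    rcases Nat.eq_zero_or_pos (w'.count Lt.sg) with h | h
    · rw [h, Nat.zero_mul] at hn'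
      omega
    · exact h
  -- the parts
  have A1 : At ω (AllPre del (BlkG del)) 0 ω.length := by
    rw [at_AllPre]
    refine ⟨Nat.zero_le _, le_rfl, fun r _ hr hdr => ?_⟩
    obtain ⟨a, ha, hda⟩ := hdr
    obtain ⟨c, hcr⟩ := (hd r a ha).1 hda
    unfold BlkG
    rw [at_union]
    have hc0 : c ≠ 0 := by
      rintro rfl
      omega
    obtain ⟨c, rfl⟩ := Nat.exists_eq_succ_of_ne_zero hc0
    rcases Nat.eq_zero_or_pos c with rfl | hc1
    · left
      rw [at_cat]
      refine ⟨r, at_ST.2 ⟨Nat.zero_le _, by omega, fun u _ hu => ?_⟩, at_LC.2 ⟨rfl, a, ha, hda⟩⟩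
      exact hfl0' 0 u (by omega) (by omega) (by omega)
    · right
      obtain ⟨c, rfl⟩ := Nat.exists_eq_succ_of_ne_zero hc1.ne'
      have e1 : r + 1 = c * Z + Z + Z := by
        rw [hcr]
        simp only [Nat.succ_eq_add_one]
        ring
      rw [at_cat]
      refine ⟨c * Z, ?_, ?_⟩
      · rw [at_union]
        rcases Nat.eq_zero_or_pos c with rfl | hc2
        · left
          rw [at_eps]
          exact ⟨by omega, by omega⟩
        · right
          obtain ⟨c', rfl⟩ := Nat.exists_eq_succ_of_ne_zero hc2.ne'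
          rw [at_cat]
          have h2 : 1 ≤ (c' + 1) * Z := Nat.mul_pos (Nat.succ_pos _) hZ1
          have h3 : (c' + 1) * Z ≤ ω.length := by
            simp only [Nat.succ_eq_add_one] at e1
            omega
          exact ⟨(c' + 1) * Z - 1, at_univ.2 ⟨Nat.zero_le _, by omega⟩,
            at_LC.2 ⟨(Nat.sub_add_cancel h2).symm, hfl1' c' h3⟩⟩
      · rw [at_cat]
        refine ⟨r, at_Sync_LC.2 ⟨Z - 1, c * Z + Z, by omega, by omega, at_LC.2 ⟨by omega, ?_⟩,
          fun u h1 h2 => ?_, fun u h1 h2 => ?_⟩, at_LC.2 ⟨rfl, a, ha, hda⟩⟩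
        · apply hfl1 _ (by omega)
          have e2 : c * Z + (Z - 1) + 1 = (c + 1) * Z := by
            rw [Nat.add_mul]
            omega
          rw [e2]
          exact Dvd.intro_left _ rfl
        · exact hfl0' c u h1 (by omega) (by omega)
        · have e3 : (c + 1) * Z = c * Z + Z := by ring
          exact hfl0' (c + 1) u (by omega) (by omega) (by omega)
  have A2 : At ω (cat Set.univ (LC del)) 0 ω.length := by
    rw [at_cat]
    refine ⟨ω.length - 1, at_univ.2 ⟨Nat.zero_le _, by omega⟩, at_LC.2 ⟨by omega, ?_⟩⟩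
    apply hfl1 _ (by omega)
    rw [Nat.sub_add_cancel hpos, hn']
    exact Dvd.intro_left _ rfl
  have A3 : ω ∈ WT wD 0 := by
    have h1 : ∀ c, c * Z ≤ ω.length →
        pre (fun a : Om => if del a then (1 : ℤ) else 0) ω (c * Z) = c := by
      intro c
      induction c with
      | zero =>
        intro _
        rw [Nat.zero_mul, pre_zero]
        rfl
      | succ c ih =>
        intro hle
        have e : (c + 1) * Z = c * Z + Z := by ring
        rw [e] at hle ⊢
        have h2 := ih (by omega)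
        have h3 := pre_eq_of_zero (f := fun a : Om => if del a then (1 : ℤ) else 0) (w := ω)
          (i := c * Z) (j := c * Z + (Z - 1)) (by omega) (by omega) (fun u h1 h2 =>
            (hfl0' c u h1 (by omega) (by omega)).mono fun a ha => if_neg ha)
        obtain ⟨a, ha, hda⟩ := hfl1' c (by omega)
        have e2 : (c + 1) * Z - 1 = c * Z + (Z - 1) := by omega
        rw [e2] at ha
        have h4 := pre_succ (f := fun a : Om => if del a then (1 : ℤ) else 0) ha
        have e3 : c * Z + (Z - 1) + 1 = c * Z + Z := by omega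
        rw [e3, h3, h2] at h4
        rw [h4]
        simp only [if_pos hda]
        push_cast
        ring
    have h2 := h1 (w'.count Lt.sg) hn'.ge
    have h3 : wt (fun a : Om => if del a then (1 : ℤ) else 0) ω = w'.count Lt.sg := by
      rw [← hn'] at h2
      unfold pre at h2
      rwa [List.take_length] at h2
    have h4 : wt (fun a : Om => if con a = Ct.x Lt.sg then (1 : ℤ) else 0) ω =
        w'.count Lt.sg := by
      rw [← WrH_wt t htk w', ← hcon]
      unfold wt
      rw [List.map_map]
      rfl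
    have h5 : ∀ l : List Om, wt wD l = wt (fun a : Om => if del a then (1 : ℤ) else 0) l -
        wt (fun a : Om => if con a = Ct.x Lt.sg then (1 : ℤ) else 0) l := by
      intro l
      induction l with
      | nil => simp [wt]
      | cons a l ih =>
        unfold wt at ih ⊢
        rw [List.map_cons, List.map_cons, List.map_cons, List.sum_cons, List.sum_cons,
          List.sum_cons, ih]
        unfold wD
        ring
    change wt wD ω = 0
    rw [h5, h3, h4]
    ring
  have hwx : w'[p.length]? = some x := by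
    rw [hw', List.getElem?_append_right le_rfl, Nat.sub_self, List.getElem?_cons_zero]
  have hbig2 : (D + 2) * Z ≤ ω.length := by
    rw [hn]
    calc (D + 2) * Z ≤ (D + D) * Z := Nat.mul_le_mul_right _ (by omega)
      _ = (2 * Z) * D := by ring
      _ ≤ w'.length * D := Nat.mul_le_mul_right _ hbig
  have hDZ : D * Z = p.length * D + D := by
    rw [hZ]
    ring
  have e1 : (D + 1) * Z = D * Z + Z := by ring
  have e2 : (D + 2) * Z = D * Z + Z + Z := by ring
  have hpl : p.length < w'.length := by omega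
  have A4 : At ω (cat (Sync ChN (cat ChZ (cat Set.univ (LC del))) (LC (fun a => ¬ del a)))
      (cat (LC del) Set.univ)) 0 ω.length := by
    rw [at_cat]
    refine ⟨D * Z + Z + Z - 1, at_Sync.2 ⟨p.length, p.length * D, D * Z + Z, ?_, ?_, ?_⟩, ?_⟩
    · rw [at_pw]
      refine ⟨by omega, fun i => i * D, Nat.zero_mul _, rfl, fun i hi => ?_⟩
      have hpi : w'[i]? = some p[i] := by
        rw [hw', List.getElem?_append_left hi]
        exact List.getElem?_eq_getElem hi
      have hiD : i * D + D ≤ ω.length := by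
        rw [hn]
        calc i * D + D = (i + 1) * D := by ring
          _ ≤ w'.length * D := Nat.mul_le_mul_right _ (by omega)
      have e : (i + 1) * D = i * D + D := by ring
      change At ω ChN (i * D) ((i + 1) * D)
      rw [e]
      unfold ChN
      rw [at_cat]
      refine ⟨i * D + t.length, at_ST.2 ⟨by omega, by omega, fun u h1 h2 => ?_⟩,
        at_LC.2 ⟨by omega, ?_⟩⟩
      · have h3 := hconT i p[i] (u - i * D) hpi (by omega)
        rwa [Nat.add_sub_cancel' h1] at h3
      · exact (hconX i p[i] hpi).mono fun a ha => ⟨p[i], ha, hp _ (List.getElem_mem hi)⟩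
    · rw [at_cat]
      refine ⟨D * Z, ?_, ?_⟩
      · unfold ChZ
        rw [at_cat]
        refine ⟨p.length * D + t.length, at_ST.2 ⟨by omega, by omega, fun u h1 h2 => ?_⟩,
          at_LC.2 ⟨by omega, ?_⟩⟩
        · have h3 := hconT p.length x (u - p.length * D) hwx (by omega)
          rwa [Nat.add_sub_cancel' h1] at h3
        · exact (hconX p.length x hwx).mono fun a ha => ⟨x, ha, hx⟩
      · rw [at_cat]
        have h3 := hfl1' D (by omega)
        rw [e1] at h3
        exact ⟨D * Z + Z - 1, at_univ.2 ⟨by omega, by omega⟩, at_LC.2 ⟨by omega, h3⟩⟩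
    · rw [at_pw_LC]
      refine ⟨by omega, by omega, fun u h1 h2 => ?_⟩
      exact hfl0' (D + 1) u (by omega) (by omega) (by omega)
    · rw [at_cat]
      have h3 := hfl1' (D + 1) (by rw [e2] at hbig2; have : (D + 1 + 1) * Z = D * Z + Z + Z := by ring
                                   omega)
      have e3 : (D + 1 + 1) * Z = D * Z + Z + Z := by ring
      rw [e3] at h3
      exact ⟨D * Z + Z + Z, at_LC.2 ⟨by omega, h3⟩, at_univ.2 ⟨by omega, le_rfl⟩⟩
  exact ⟨⟨at_full.1 A1, at_full.1 A2, A3⟩, at_full.1 A4⟩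

end Pool.Agent.H29.CJ

end S_WrH

section S_Diag

/-!
# The diagonal argument

Use only the STATEMENTS of the imported files.

Assume `Closed`.  `Closed.len` for `Ldg` (`isConj_Ldg`): `G0` with `G0.T 0 n ↔ ∃ ω ∈ Ldg, ω.length = n` (`n ≥ 1`).  `USys.compl`: `G'` with `G'.T 0 n ↔ ¬ G0.T 0 n`.
`isConj_WG G'` and `IsConj.bnf`: `H : Gr Lt (k+1)` with `H.D 0 w ↔ w ∈ WG G'` for `w ≠ []`.  Choose `d, pd` with `(txt H pd).length + 1 = 2^d`
(`(txt H pd).length = 2 (sects H).length + 1 + pd`; `d = 2 (sects H).length + 2`, `pd = 2^d - d`, as `d ≤ 2^d`).  `t = txt H pd`: all letters are `tok` (the letters of `sects` and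
`m, p` are not `x _`), `1 ≤ t.length`.
`e0` from `WG_speedup G' d`.  `n = valC t * 2^h` with `h` so large that `n ≥ e0`, `h ≥ e0`, `n ≥ valC t + 2 (t.length + 1)` (e.g. `h = e0 + valC t + 2 t.length + 2`, using `h ≤ 2^h`,
`valC t ≥ 1`).
(1) Suppose `G'.T 0 n`.  `WG_speedup`: `w ∈ WG G'`, `2^d * w.length = n`, `w = p ++ x :: q`, `(p.length+1) * w.count sg = n`, `2 (p.length + 1) ≤ w.length`.  `w ≠ []`.  So `H.D 0 w`
 and `enc H pd w ∈ LU` (`LU_iff`).  `exists_om t w` with marks `mF (t.flatMap codeT)` and flags `decide ((p.length+1) ∣ r + 1)`: `ω` of length `2^d * w.length = n`.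
 `ω ∈ W1` (`Chk.con_eq`, `enc` is the same list), `W2_complete`, `W3_complete` (`valC t = val (t.flatMap codeT ++ [true])`), `W4_complete`, `W5_complete`.  So `ω ∈ Ldg`, `G0.T 0 n`,
 contradiction.
(2) So `¬ G'.T 0 n`, hence `G0.T 0 n`: `ω ∈ Ldg`, `ω.length = n`.  `text_struct`: `Chk ω t' w'`.  `link_sound`, `arith_sound`: `n = val (t'.flatMap codeT ++ [true]) * 2^h'`, so by
 `val_pow_inj`, `codeT_flatMap_inj`: `t' = t`.  `ω ∈ W1`: `enc H pd w' = ω.map con ∈ LU`, so `H.D 0 w'`, `w' ∈ WG G'`.  `prod_sound`: `w' = p ++ x :: q`, `n = (p.length+1) * w'.count sg`.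
 `WG_sound`: `G'.T 0 n`, contradiction.
-/

set_option autoImplicit false

namespace Pool.Agent.H29.CJ

private theorem tok_txt {α : Type} [Fintype α] {K : ℕ} (G : Gr α K) (pd : ℕ) :
    ∀ c ∈ txt G pd, tok c := by
  have hin : ∀ c : Ct α, inner c → tok c := by
    rintro c (rfl | rfl | rfl | rfl | ⟨a, rfl⟩) ⟨b, hb⟩ <;> cases hb
  have hs : ∀ c ∈ sects G, tok c := by
    intro c hc
    unfold sects at hc
    rw [List.mem_flatMap] at hc
    obtain ⟨A, -, hA⟩ := hc
    unfold sect at hA
    simp only [List.mem_cons, List.mem_append, List.mem_replicate, List.not_mem_nil, or_false] at hA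
    rcases hA with rfl | ⟨-, rfl⟩ | rfl | h | rfl | ⟨-, rfl⟩ | rfl
    · rintro ⟨b, hb⟩; cases hb
    · rintro ⟨b, hb⟩; cases hb
    · rintro ⟨b, hb⟩; cases hb
    · exact hin c (UnH_cont G A c h)
    · rintro ⟨b, hb⟩; cases hb
    · rintro ⟨b, hb⟩; cases hb
    · rintro ⟨b, hb⟩; cases hb
  intro c hc
  unfold txt at hc
  rw [List.mem_append, List.mem_cons, List.mem_append, List.mem_replicate] at hc
  rcases hc with h | rfl | h | ⟨-, rfl⟩
  · exact hs c h
  · rintro ⟨b, hb⟩; cases hb
  · exact hs c h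
  · rintro ⟨b, hb⟩; cases hb

theorem not_closed : ¬ Closed := by
  intro hC
  obtain ⟨k0, G0, h0⟩ := hC.len isConj_Ldg
  obtain ⟨k', G', h'⟩ := USys.compl hC G0
  obtain ⟨k1, H, hH⟩ := (isConj_WG G').bnf
  obtain ⟨s, hs⟩ : ∃ s, s = (sects H).length := ⟨_, rfl⟩
  obtain ⟨d, hd⟩ : ∃ d, d = 2 * s + 2 := ⟨_, rfl⟩
  obtain ⟨pd, hpd⟩ : ∃ pd, pd = 2 ^ d - d := ⟨_, rfl⟩
  have hlt : d < 2 ^ d := Nat.lt_two_pow_self
  have htl : (txt H pd).length + 1 = 2 ^ d := by
    have h1 : (txt H pd).length = s + 1 + (s + pd) := by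
      unfold txt
      rw [List.length_append, List.length_cons, List.length_append, List.length_replicate, ← hs]
      omega
    omega
  obtain ⟨t, ht⟩ : ∃ t, t = txt H pd := ⟨_, rfl⟩
  have htok : ∀ c ∈ t, tok c := by
    rw [ht]
    exact tok_txt H pd
  rw [← ht] at htl
  have ht1 : 1 ≤ t.length := by omega
  obtain ⟨e0, he0⟩ := WG_speedup G' d
  obtain ⟨h, hh⟩ : ∃ h, h = e0 + valC t + 2 * t.length + 2 := ⟨_, rfl⟩
  obtain ⟨n, hn⟩ : ∃ n, n = valC t * 2 ^ h := ⟨_, rfl⟩
  have hv1 : 1 ≤ valC t := val_pos _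
  have hh2 : h < 2 ^ h := Nat.lt_two_pow_self
  have hnh : 2 ^ h ≤ n := by
    rw [hn]
    exact Nat.le_mul_of_pos_left _ hv1
  have hn1 : 1 ≤ n := by omega
  by_cases hT : G'.T 0 n
  · obtain ⟨w, hw, hlen, p, x, q, hpq, hp, hx, hcnt, h2⟩ := he0 n (by omega)
      (by
        rw [hn]
        exact Dvd.dvd.mul_left (pow_dvd_pow 2 (by omega)) _) hT
    have hwne : w ≠ [] := by
      rw [hpq]
      simp
    have hD : H.D 0 w := (hH w hwne).2 hw
    have hLU : enc H pd w ∈ LU := (LU_iff H pd hwne).2 hD
    obtain ⟨ω, hchk, hωl, hωm⟩ := exists_om t w htok hwne (mF (t.flatMap codeT))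
      (fun r => decide ((p.length + 1) ∣ r + 1))
    have hωn : ω.length = n := by rw [hωl, htl, hlen]
    have hW1 : ω ∈ W1 := by
      show ω.map con ∈ LU
      rw [hchk.con_eq, ht]
      exact hLU
    have hm : ∀ r a, ω[r]? = some a → mrk a = mF (t.flatMap codeT) r :=
      fun r a hr => (hωm r a hr).1
    have hW3 : ω ∈ W3 := W3_complete (h := h) (by rw [hωn, hn]; rfl) hm
    have hW4 : ω ∈ W4 := W4_complete hchk hm (by rw [hωn]; omega)
    have hW5 : ω ∈ W5 := W5_complete hchk hpq hp hx
      (by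
        intro r a hr
        show a.2.2.2 = true ↔ _
        rw [(hωm r a hr).2, decide_eq_true_eq])
      (by rw [hωn]; exact hcnt.symm) h2 ht1
    have h3 : G0.T 0 n := (h0 n hn1).2 ⟨ω, ⟨hW1, W2_complete hchk, hW3, hW4, hW5⟩, hωn⟩
    exact (h' n hn1).1 hT h3
  · have hT0 : G0.T 0 n := by
      by_contra hc
      exact hT ((h' n hn1).2 hc)
    obtain ⟨ω, ⟨h1, h2, h3, h4, h5⟩, hωn⟩ := (h0 n hn1).1 hT0
    obtain ⟨t', w', hchk⟩ := text_struct h2
    have hlk := link_sound hchk h3 h4
    obtain ⟨h'', ha⟩ := arith_sound h3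
    rw [hlk] at ha
    have h6 : t'.flatMap codeT = t.flatMap codeT := val_pow_inj (h := h'') (h' := h) (by
      rw [← ha, hωn, hn]
      rfl)
    have htt : t' = t := codeT_flatMap_inj h6
    rw [htt, ht] at hchk
    have h7 : enc H pd w' ∈ LU := by
      have h8 : ω.map con ∈ LU := h1
      rw [hchk.con_eq] at h8
      exact h8
    have hmem : H.D 0 w' := (LU_iff H pd hchk.ne).1 h7
    have hw' : w' ∈ WG G' := (hH w' hchk.ne).1 hmem
    obtain ⟨p, x, q, hpq, hp, hx, hl⟩ := prod_sound hchk h5
    have h9 := WG_sound G' hw' hpq hp hx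
    rw [← hl, hωn] at h9
    exact hT h9

end Pool.Agent.H29.CJ

end S_Diag
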